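import Pool.Agent.ML61.Acl

/-!
# Automorphisms of the complex numbers and families of algebraically independent numbers
-/

set_option autoImplicit false

namespace Pool.EU

open Pool.ML Cardinal

/-- two embeddings of a finite type differ by a permutation -/
theorem exists_perm {α β : Type} [Finite α] (f g : α ↪ β) : ∃ π : Equiv.Perm β, ∀ a, π (f a) = g a := by
  classical
  have := Fintype.ofFinite α
  obtain ⟨n, ⟨e⟩⟩ := Finite.exists_equiv_fin α
  have h := Equiv.Perm.isMultiplyPretransitive β n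
  obtain ⟨π, hπ⟩ := MulAction.exists_smul_eq (Equiv.Perm β) (e.symm.toEmbedding.trans f)
    (e.symm.toEmbedding.trans g)
  refine ⟨π, fun a => ?_⟩
  have h1 := DFunLike.congr_fun hπ (e a)
  simpa using h1

section aut

variable {k : Type} [Field k] [Algebra k ℂ]

/-- Two finite families algebraically independent over `k` are conjugate over `k`. -/
theorem exists_autom_family {a : Type} [Finite a] (v w : a → ℂ) (hv : AlgebraicIndependent k v)
    (hw : AlgebraicIndependent k w) : ∃ σ : ℂ ≃ₐ[k] ℂ, ∀ i, σ (v i) = w i := by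
  classical
  obtain ⟨s, hvs, hs⟩ := exists_isTranscendenceBasis_superset hv.to_subtype_range
  obtain ⟨s', hvs', hs'⟩ := exists_isTranscendenceBasis_superset hw.to_subtype_range
  have hiv : Function.Injective v := hv.injective
  have hiw : Function.Injective w := hw.injective
  let b : a ↪ s := ⟨fun i => ⟨v i, hvs ⟨i, rfl⟩⟩, fun i j h => hiv (congrArg Subtype.val h)⟩
  let b' : a ↪ s' := ⟨fun i => ⟨w i, hvs' ⟨i, rfl⟩⟩, fun i j h => hiw (congrArg Subtype.val h)⟩
  have hne : Nonempty (s ≃ s') := by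
    rw [← Cardinal.eq]
    exact hs.cardinalMk_eq hs'
  obtain ⟨e0⟩ := hne
  obtain ⟨π, hπ⟩ := exists_perm (b.trans e0.toEmbedding) b'
  let e : s ≃ s' := e0.trans π
  have heb : ∀ i, e (b i) = b' i := fun i => hπ i
  let := IsAlgClosed.isAlgClosure_of_transcendence_basis _ hs
  let := IsAlgClosed.isAlgClosure_of_transcendence_basis _ hs'
  let r : MvPolynomial s k ≃ₐ[k] MvPolynomial s' k := MvPolynomial.renameEquiv k e
  let E0 : Algebra.adjoin k (Set.range ((↑) : s → ℂ)) ≃ₐ[k]
      Algebra.adjoin k (Set.range ((↑) : s' → ℂ)) :=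
    hs.1.aevalEquiv.symm.trans (r.trans hs'.1.aevalEquiv)
  let E := E0.toRingEquiv
  have hk : ∀ a : k, IsAlgClosure.equivOfEquiv ℂ ℂ E (algebraMap k ℂ a) = algebraMap k ℂ a := by
    intro a
    have h1 := IsAlgClosure.equivOfEquiv_algebraMap ℂ ℂ E
      (algebraMap k (Algebra.adjoin k (Set.range ((↑) : s → ℂ))) a)
    have h2 : E (algebraMap k (Algebra.adjoin k (Set.range ((↑) : s → ℂ))) a) =
        algebraMap k _ a := E0.commutes a
    rw [h2] at h1
    exact h1
  refine ⟨AlgEquiv.ofRingEquiv (f := IsAlgClosure.equivOfEquiv ℂ ℂ E) hk, fun i => ?_⟩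
  change IsAlgClosure.equivOfEquiv ℂ ℂ E (v i) = w i
  have hmem : v i ∈ Algebra.adjoin k (Set.range ((↑) : s → ℂ)) :=
    Algebra.subset_adjoin ⟨b i, rfl⟩
  have h1 := IsAlgClosure.equivOfEquiv_algebraMap ℂ ℂ E ⟨v i, hmem⟩
  have h2 : algebraMap (Algebra.adjoin k (Set.range ((↑) : s → ℂ))) ℂ ⟨v i, hmem⟩ = v i := rfl
  rw [h2] at h1
  rw [h1]
  have h3 : hs.1.aevalEquiv.symm ⟨v i, hmem⟩ = MvPolynomial.X (b i) := by
    rw [AlgEquiv.symm_apply_eq]
    apply Subtype.ext
    simp [b] <;> rfl
  have h4 : E ⟨v i, hmem⟩ = hs'.1.aevalEquiv (r (hs.1.aevalEquiv.symm ⟨v i, hmem⟩)) := rfl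
  rw [h4, h3]
  have h5 : r (MvPolynomial.X (b i)) = MvPolynomial.X (b' i) := by
    simp only [r, MvPolynomial.renameEquiv_apply, MvPolynomial.rename_X]
    rw [heb]
  rw [h5]
  change ((hs'.1.aevalEquiv (MvPolynomial.X (b' i)) : Algebra.adjoin k
    (Set.range ((↑) : s' → ℂ))) : ℂ) = w i
  simp [b'] <;> rfl

end aut

/-- the algebraic closure of a countable set is countable -/
theorem countable_acl {T : Set ℂ} (hT : T.Countable) : (acl T : Set ℂ).Countable := by
  have h1 : Countable (Algebra.adjoin ℚ T) := by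
    have h2 : (Algebra.adjoin ℚ T : Set ℂ).Countable := by
      have := hT.to_subtype
      rw [Algebra.adjoin_eq_range]
      have h3 : Countable (MvPolynomial T ℚ) := by
        rw [← Cardinal.mk_le_aleph0_iff]
        refine MvPolynomial.cardinalMk_le_max.trans (max_le (max_le ?_ ?_) le_rfl)
        · exact Cardinal.mk_le_aleph0
        · exact Cardinal.mk_le_aleph0
      exact (Set.countable_range _)
    exact h2.to_subtype
  have h2 : (acl T : Set ℂ) = {z : ℂ | IsAlgebraic (Algebra.adjoin ℚ T) z} := by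
    ext z
    rw [SetLike.mem_coe, mem_acl']
    rfl
  rw [h2]
  exact Algebraic.countable (Algebra.adjoin ℚ T) ℂ

/-- a finite family of numbers algebraically independent over the algebraic closure of a countable
set -/
theorem exists_algInd (T : Set ℂ) (hT : T.Countable) (a : Type) [Finite a] :
    ∃ y : a → ℂ, AlgebraicIndependent (acl T) y := by
  obtain ⟨s, hs⟩ := exists_isTranscendenceBasis (acl T) ℂ
  have hc : Cardinal.mk (acl T) ≤ Cardinal.aleph0 :=
    (Cardinal.le_aleph0_iff_set_countable (s := (acl T : Set ℂ))).2 (countable_acl hT)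
  have hC : Cardinal.aleph0 < Cardinal.mk ℂ := by
    rw [Cardinal.mk_complex]
    exact Cardinal.aleph0_lt_continuum
  have h1 := IsAlgClosed.cardinal_eq_cardinal_transcendence_basis_of_aleph0_lt' _ hs hc hC
  have hinf : Infinite s := by
    rw [Cardinal.infinite_iff, ← h1]
    exact hC.le
  have := Fintype.ofFinite a
  obtain ⟨n, ⟨e⟩⟩ := Finite.exists_equiv_fin a
  let f : a ↪ s := e.toEmbedding.trans ((Fin.valEmbedding).trans (Infinite.natEmbedding s))
  exact ⟨fun i => (f i : ℂ), hs.1.comp f f.injective⟩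

end Pool.EU
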