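import Pool.Agent.EU.Defs
import Pool.Agent.EC.Int

/-!
# The number of critical points for generic exponents: definition
-/

set_option autoImplicit false

namespace Pool.EU

open MvPolynomial Pool.ML

variable {ι κ : Type} [Fintype ι] [Fintype κ] [DecidableEq ι] [DecidableEq κ]

open Classical in
/-- The number of critical points of `∏ x_i ^ v_i ∏ f_j ^ t_j` on the complement of `∏ f_j = 0` in
the torus, for exponents `(v, t)` algebraically independent over the coefficients. -/
noncomputable def NC (f : κ → MvPolynomial ι ℂ) : ℕ :=
  if h : ∃ y : ι ⊕ κ → ℂ, AlgebraicIndependent (acl (coefs f)) y then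
    (Crit f (fun i => h.choose (Sum.inl i)) (fun j => h.choose (Sum.inr j))).ncard
  else 0

/-- The number of critical points in the fibres over the torus. -/
noncomputable def fibN (f : κ → MvPolynomial (Option ι) ℂ) (s : ℂ) : ℤ :=
  open Classical in if s = 0 then 0 else (NC (fun j => (subS s (f j) : MvPolynomial ι ℂ)) : ℤ)

/-- Substitute `x` for the first `a` variables. -/
noncomputable def subF {a : ℕ} (x : Fin a → ℂ) :
    MvPolynomial (Fin a ⊕ ι) ℂ →ₐ[ℂ] MvPolynomial ι ℂ :=
  aeval (Sum.elim (fun i => C (x i)) X)

/-- The number of critical points in the fibres over the torus of dimension `a`. -/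
noncomputable def fibNF {a : ℕ} (f : κ → MvPolynomial (Fin a ⊕ ι) ℂ) (x : Fin a → ℂ) : ℤ :=
  open Classical in if ∃ i, x i = 0 then 0 else (NC (fun j => subF x (f j)) : ℤ)

end Pool.EU
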