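import Pool.Agent.EU.Defs
import Pool.Agent.ML61.Fib

/-!
# Critical points are algebraic over the field of the data

The logarithmic identity, and its consequence: if the exponents are linearly independent over `ℚ`
then the coordinates of the critical points are algebraic over the field generated by the
coefficients and the exponents.
-/

set_option autoImplicit false
set_option linter.unusedSectionVars false

namespace Pool.EU

open MvPolynomial

/-- The chain rule, for polynomials with constant coefficients. -/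
theorem der_eval_map {k Ω τ : Type} [CommRing k] [CommRing Ω] [Fintype τ]
    (c : k →+* Ω) (D : Ω → Ω) (hadd : ∀ a b, D (a + b) = D a + D b)
    (hmul : ∀ a b, D (a * b) = D a * b + a * D b) (hC : ∀ a : k, D (c a) = 0)
    (y : τ → Ω) (p : MvPolynomial τ k) :
    D (eval y (MvPolynomial.map c p)) =
      ∑ o, eval y (MvPolynomial.map c (pderiv o p)) * D (y o) := by
  classical
  induction p using MvPolynomial.induction_on with
  | C a => simp [hC]
  | add p q hp hq => simp only [map_add, hadd, hp, hq, add_mul, Finset.sum_add_distrib]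
  | mul_X p o hp =>
    rw [map_mul, map_mul, hmul, hp, map_X, eval_X]
    have h1 : ∀ o', eval y (MvPolynomial.map c (pderiv o' (p * X o))) * D (y o') =
        eval y (MvPolynomial.map c (pderiv o' p)) * D (y o') * y o +
          (if o' = o then eval y (MvPolynomial.map c p) * D (y o) else 0) := by
      intro o'
      rw [Derivation.leibniz, smul_eq_mul, smul_eq_mul, map_add, map_add, map_mul, map_mul, map_mul,
        map_mul, map_X, eval_X, pderiv_X]
      by_cases h : o' = o
      · subst h
        rw [Pi.single_eq_same, map_one, map_one, if_pos rfl]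
        ring
      · rw [Pi.single_eq_of_ne (Ne.symm h), map_zero, map_zero, if_neg h]
        ring
    rw [Finset.sum_congr rfl fun o' _ => h1 o', Finset.sum_add_distrib, Finset.sum_ite_eq' ,
      if_pos (Finset.mem_univ o), Finset.sum_mul]

variable {ι κ : Type} [Fintype ι] [Fintype κ] [DecidableEq ι] [DecidableEq κ]

/-- The logarithmic identity: a weighted sum of the logarithmic derivatives of the coordinates and
of the values vanishes at a critical point. -/
theorem log_identity_map {k Ω : Type} [CommRing k] [Field Ω] (c : k →+* Ω)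
    (f : κ → MvPolynomial ι k) (v : ι → Ω) (t : κ → Ω) (x : ι → Ω)
    (hx : x ∈ Crit (fun j => MvPolynomial.map c (f j)) v t)
    (D : Ω → Ω) (hadd : ∀ a b, D (a + b) = D a + D b)
    (hmul : ∀ a b, D (a * b) = D a * b + a * D b) (hC : ∀ a : k, D (c a) = 0) :
    ∑ i, v i * (D (x i) / x i) + ∑ j, t j * (D (eval x (MvPolynomial.map c (f j))) /
      eval x (MvPolynomial.map c (f j))) = 0 := by
  obtain ⟨h1, h2, h3⟩ := hx
  have h4 : ∑ i, v i * (D (x i) / x i) = -∑ i, ∑ j, t j *
      (eval x (MvPolynomial.map c (pderiv i (f j))) * D (x i) /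
        eval x (MvPolynomial.map c (f j))) := by
    rw [← Finset.sum_neg_distrib]
    refine Finset.sum_congr rfl fun i _ => ?_
    have h5 := h3 i
    rw [← eq_neg_iff_add_eq_zero] at h5
    rw [h5, neg_mul, Finset.sum_mul]
    congr 1
    refine Finset.sum_congr rfl fun j _ => ?_
    rw [pderiv_map]
    have h6 := h1 i
    have h7 := h2 j
    field_simp
  rw [h4, neg_add_eq_zero, Finset.sum_comm]
  refine Finset.sum_congr rfl fun j _ => ?_
  rw [der_eval_map c D hadd hmul hC, Finset.sum_div, Finset.mul_sum]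

/-- The logarithmic identity in a family. -/
theorem log_identity {k Ω : Type} [CommRing k] [Field Ω] [Algebra k Ω]
    (f : κ → MvPolynomial (Option ι) k) (v : ι → Ω) (t : κ → Ω) (s : Ω) (x : ι → Ω)
    (hx : x ∈ Crit (fun j => subS s (f j)) v t)
    (D : Ω → Ω) (hadd : ∀ a b, D (a + b) = D a + D b)
    (hmul : ∀ a b, D (a * b) = D a * b + a * D b) (hC : ∀ a : k, D (algebraMap k Ω a) = 0) :
    ∑ i, v i * (D (x i) / x i) +
        ∑ j, t j * (D (aeval (opt s x) (f j)) / aeval (opt s x) (f j)) =
      (∑ j, t j * aeval (opt s x) (pderiv none (f j)) / aeval (opt s x) (f j)) * D s := by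
  obtain ⟨h1, h2, h3⟩ := hx
  have h2' : ∀ j, aeval (opt s x) (f j) ≠ 0 := by
    intro j
    rw [← eval_subS]
    exact h2 j
  have hchain : ∀ j, D (aeval (opt s x) (f j)) = aeval (opt s x) (pderiv none (f j)) * D s +
      ∑ i, aeval (opt s x) (pderiv (some i) (f j)) * D (x i) := by
    intro j
    have h4 := der_eval_map (algebraMap k Ω) D hadd hmul hC (opt s x) (f j)
    simp only [eval_map, ← aeval_def] at h4
    rw [h4, Fintype.sum_option]
    rfl
  have h4 : ∑ i, v i * (D (x i) / x i) = -∑ i, ∑ j, t j *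
      (aeval (opt s x) (pderiv (some i) (f j)) * D (x i) / aeval (opt s x) (f j)) := by
    rw [← Finset.sum_neg_distrib]
    refine Finset.sum_congr rfl fun i _ => ?_
    have h5 := h3 i
    rw [← eq_neg_iff_add_eq_zero] at h5
    rw [h5, neg_mul, Finset.sum_mul]
    congr 1
    refine Finset.sum_congr rfl fun j _ => ?_
    rw [pderiv_subS, eval_subS, eval_subS]
    have h6 := h1 i
    have h7 := h2' j
    field_simp
  rw [h4, neg_add_eq_iff_eq_add, Finset.sum_comm, Finset.sum_mul, ← Finset.sum_add_distrib]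
  refine Finset.sum_congr rfl fun j _ => ?_
  rw [hchain, ← Finset.mul_sum, ← Finset.sum_div]
  ring

/-- The coordinates of the critical points are algebraic over the field of the data. -/
theorem crit_mem_acl (T : Set ℂ) (f : κ → MvPolynomial ι ℂ)
    (hf : coefs f ⊆ Pool.ML.acl T) (v : ι → ℂ) (t : κ → ℂ) (hv : ∀ i, v i ∈ Pool.ML.acl T)
    (ht : ∀ j, t j ∈ Pool.ML.acl T) (hli : LinearIndependent ℚ (Sum.elim v t)) (x : ι → ℂ)
    (hx : x ∈ Crit f v t) : ∀ i, x i ∈ Pool.ML.acl T := by
  classical
  by_contra hcon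
  push Not at hcon
  obtain ⟨i₀, hi₀⟩ := hcon
  obtain ⟨T', hTT', hz, hF⟩ := Pool.ML.exists_acl_basis T (x i₀) hi₀ (Finset.univ.image x)
  have := Pool.ML.isAlgClosed_acl T'
  have hTT : Pool.ML.acl T ≤ Pool.ML.acl T' := Pool.ML.acl_mono hTT'
  obtain ⟨F, φ, hxF, hSF, hC, hord⟩ := Pool.ML.exists_place (Pool.ML.acl T') ℂ (x i₀)
    (Pool.ML.transcendental_of_notMem_acl hz) (Finset.univ.image x)
    (fun s hs => Pool.ML.isAlgebraic_adjoin_of_mem_acl (hF s hs))
  have hxF' : ∀ i, x i ∈ F := fun i => hSF _ (Finset.mem_image_of_mem _ (Finset.mem_univ _))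
  -- the data over the field of constants
  have hg : ∀ j, ∃ g : MvPolynomial ι (Pool.ML.acl T'),
      MvPolynomial.map (algebraMap (Pool.ML.acl T') ℂ) g = f j := by
    intro j
    have h1 : f j ∈ Set.range (MvPolynomial.map (algebraMap (Pool.ML.acl T') ℂ)) := by
      rw [MvPolynomial.mem_range_map_iff_coeffs_subset]
      intro a ha
      obtain ⟨m, hm⟩ := MvPolynomial.mem_coeffs_iff.mp ha
      have h2 : a ∈ Pool.ML.acl T := hf ⟨j, m, hm.2.symm⟩
      exact ⟨⟨a, hTT h2⟩, rfl⟩
    exact h1
  choose g hg using hg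
  let V : ι → Pool.ML.acl T' := fun i => ⟨v i, hTT (hv i)⟩
  let W : κ → Pool.ML.acl T' := fun j => ⟨t j, hTT (ht j)⟩
  let X' : ι → F := fun i => ⟨x i, hxF' i⟩
  have hX' : X' ∈ Crit (fun j => MvPolynomial.map (algebraMap (Pool.ML.acl T') F) (g j))
      (fun i => algebraMap (Pool.ML.acl T') F (V i))
      (fun j => algebraMap (Pool.ML.acl T') F (W j)) := by
    rw [← map_mem_crit (algebraMap F ℂ)]
    simp only [MvPolynomial.map_map]
    have h1 : (algebraMap F ℂ).comp (algebraMap (Pool.ML.acl T') F) =
        algebraMap (Pool.ML.acl T') ℂ := rfl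
    rw [h1]
    simp only [hg]
    exact hx
  have hX : (fun i => φ (X' i)) ∈ Crit (fun j => MvPolynomial.map HahnSeries.C (g j))
      (fun i => HahnSeries.C (V i)) (fun j => HahnSeries.C (W j)) := by
    have h1 := (map_mem_crit φ _ _ _ _).mpr hX'
    simp only [MvPolynomial.map_map, hC] at h1
    have h2 : φ.comp (algebraMap (Pool.ML.acl T') F) = HahnSeries.C := RingHom.ext hC
    rw [h2] at h1
    exact h1
  have hlog := log_identity_map (HahnSeries.C : Pool.ML.acl T' →+* LaurentSeries (Pool.ML.acl T'))
    g _ _ _ hX Pool.ML.euler Pool.ML.euler_add Pool.ML.euler_mul Pool.ML.euler_C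
  have h5 := Pool.ML.sum_order_eq_zero (k := Pool.ML.acl T') (I := ι ⊕ κ)
    (fun a => PowerSeries.C (Sum.elim V W a))
    (Sum.elim (fun i => φ (X' i))
      (fun j => eval (fun i => φ (X' i)) (MvPolynomial.map HahnSeries.C (g j))))
    (by
      rintro (i | j)
      · exact hX.1 i
      · exact hX.2.1 j) 0 (by simp) (by
      rw [Fintype.sum_sum_type]
      simp only [Sum.elim_inl, Sum.elim_inr, Pool.ML.ofPS, HahnSeries.ofPowerSeries_C, map_zero]
      exact hlog)
  have h6 : ∑ a : ι ⊕ κ, (((Sum.elim (fun i => φ (X' i))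
      (fun j => eval (fun i => φ (X' i)) (MvPolynomial.map HahnSeries.C (g j)))
      a : LaurentSeries (Pool.ML.acl T')).order : ℤ) : ℚ) • Sum.elim v t a = 0 := by
    have h7 := congrArg (Pool.ML.acl T').val h5
    rw [map_sum, map_zero] at h7
    rw [← h7]
    refine Finset.sum_congr rfl fun a _ => ?_
    rw [map_mul, map_intCast, PowerSeries.constantCoeff_C, Algebra.smul_def, mul_comm]
    congr 1
    rcases a with i | j <;> rfl
  have h8 := Fintype.linearIndependent_iff.mp hli _ h6 (Sum.inl i₀)
  have h9 : (φ ⟨x i₀, hxF⟩).order = 0 := by exact_mod_cast h8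
  rw [h9] at hord
  exact lt_irrefl _ hord

end Pool.EU
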