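import Mathlib

/-!
# Multiplicities of a bivariate polynomial at a generic point of a curve

`P ∈ K[X][Y]`, `(s, v)` a zero of `P` with `s` and `v` transcendental over `K`. The multiplicity
of `s` as a root of `P(X, v)` equals the multiplicity of `v` as a root of `P(s, Y)`.
-/

set_option autoImplicit false

namespace Pool.EU

open Polynomial TensorProduct

/-- A derivation on a subring extends to a formally étale extension. -/
theorem exists_der_of_formallyEtale (K S Ω : Type) [Field K] [CommRing S] [Field Ω] [Algebra K S]
    [Algebra K Ω] [Algebra S Ω] [IsScalarTower K S Ω] [Algebra.FormallyEtale S Ω]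
    (d : Derivation K S Ω) : ∃ D : Derivation K Ω Ω, ∀ s, D (algebraMap S Ω s) = d s := by
  let l : Ω ⊗[S] Ω[S⁄K] →ₗ[Ω] Ω := d.liftKaehlerDifferential.liftBaseChange Ω
  let e := KaehlerDifferential.tensorKaehlerEquivOfFormallyEtale K S Ω
  refine ⟨(l.comp (e.symm : Ω[Ω⁄K] →ₗ[Ω] Ω ⊗[S] Ω[S⁄K])).compDer (KaehlerDifferential.D K Ω), ?_⟩
  intro s
  change l (e.symm (KaehlerDifferential.D K Ω (algebraMap S Ω s))) = d s
  rw [KaehlerDifferential.tensorKaehlerEquivOfFormallyEtale_symm_D_algebraMap]
  change d.liftKaehlerDifferential.liftBaseChange Ω (1 ⊗ₜ[S] KaehlerDifferential.D K S s) = d s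
  rw [LinearMap.liftBaseChange_tmul, one_smul, Derivation.liftKaehlerDifferential_comp_D]

/-- A transcendental element has a derivation with value one. -/
theorem exists_der {K Ω : Type} [Field K] [CharZero K] [Field Ω] [Algebra K Ω] (v : Ω)
    (hv : Transcendental K v) : ∃ D : Derivation K Ω Ω, D v = 1 := by
  classical
  have hv1 : AlgebraicIndependent K (fun _ : Unit => v) :=
    algebraicIndependent_unique_type_iff.mpr hv
  obtain ⟨s, hxs, hs⟩ := exists_isTranscendenceBasis_superset hv1.to_subtype_range
  let A := MvPolynomial s K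
  let L := FractionRing A
  have hinj : Function.Injective (MvPolynomial.aeval (R := K) ((↑) : s → Ω)) :=
    algebraicIndependent_iff_injective_aeval.mp hs.1
  let : Algebra A Ω := (MvPolynomial.aeval (R := K) ((↑) : s → Ω)).toRingHom.toAlgebra
  have hA : ∀ a : A, algebraMap A Ω a = MvPolynomial.aeval ((↑) : s → Ω) a := fun _ => rfl
  have ht1 : IsScalarTower K A Ω := IsScalarTower.of_algebraMap_eq fun q => by
    rw [hA, AlgHom.commutes]
  let : Algebra L Ω := (IsFractionRing.lift (K := L) (g := algebraMap A Ω) hinj).toAlgebra
  have ht2 : IsScalarTower A L Ω := IsScalarTower.of_algebraMap_eq fun a =>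
    (IsFractionRing.lift_algebraMap (K := L) (g := algebraMap A Ω) hinj a).symm
  have halgA : ∀ z : Ω, IsAlgebraic A z := by
    intro z
    have h1 := hs.isAlgebraic.isAlgebraic z
    obtain ⟨p, hp, hpz⟩ := h1
    let e : A ≃+* Algebra.adjoin K (Set.range ((↑) : s → Ω)) := hs.1.aevalEquiv.toRingEquiv
    have he : ∀ a : A, ((e a : Algebra.adjoin K (Set.range ((↑) : s → Ω))) : Ω) =
        algebraMap A Ω a := by
      intro a
      rw [hA]
      exact hs.1.algebraMap_aevalEquiv a
    refine ⟨p.map (e.symm : _ →+* A), ?_, ?_⟩
    · rw [Ne, Polynomial.map_eq_zero_iff (e.symm : _ ≃+* A).injective]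
      exact hp
    · rw [Polynomial.aeval_def, Polynomial.eval₂_map]
      rw [Polynomial.aeval_def] at hpz
      rw [← hpz]
      congr 1
      ext b
      change algebraMap A Ω (e.symm b) = (b : Ω)
      rw [← he, RingEquiv.apply_symm_apply]
  have halg : Algebra.IsAlgebraic L Ω :=
    ⟨fun z => (IsFractionRing.isAlgebraic_iff A L Ω).mp (halgA z)⟩
  have hcz0 : CharZero A := charZero_of_injective_algebraMap (algebraMap K A).injective
  have hcz : CharZero L := charZero_of_injective_algebraMap (IsFractionRing.injective A L)
  have hsep : Algebra.IsSeparable L Ω := Algebra.IsAlgebraic.isSeparable_of_perfectField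
  have h1 : Algebra.FormallyEtale A L := Algebra.FormallyEtale.of_isLocalization (nonZeroDivisors A)
  have h2 : Algebra.FormallyEtale L Ω := Algebra.FormallyEtale.of_isSeparable L Ω
  have h3 : Algebra.FormallyEtale A Ω := Algebra.FormallyEtale.comp A L Ω
  obtain ⟨D, hD⟩ := exists_der_of_formallyEtale K A Ω (MvPolynomial.mkDerivation K fun _ => 1)
  refine ⟨D, ?_⟩
  have h4 := hD (MvPolynomial.X ⟨v, hxs ⟨(), rfl⟩⟩)
  rw [hA, MvPolynomial.aeval_X, MvPolynomial.mkDerivation_X] at h4
  exact h4

/-- A derivation kills what is algebraic over a subfield that it kills. -/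
theorem der_eq_zero {K Ω : Type} [Field K] [CharZero K] [Field Ω] [Algebra K Ω]
    (D : Derivation K Ω Ω) (F : IntermediateField K Ω) (hF : ∀ a ∈ F, D a = 0) (z : Ω)
    (hz : IsAlgebraic F z) : D z = 0 := by
  let D' : Derivation F Ω Ω :=
    { toFun := D
      map_add' := D.map_add
      map_smul' := by
        intro k a
        rw [RingHom.id_apply, Algebra.smul_def, Derivation.leibniz]
        have h1 : D (algebraMap F Ω k) = 0 := hF _ k.2
        rw [h1, smul_zero, add_zero, Algebra.smul_def]
        rfl
      map_one_eq_zero' := D.map_one_eq_zero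
      leibniz' := D.leibniz }
  have hcz : CharZero F := charZero_of_injective_algebraMap (algebraMap K F).injective
  set p := minpoly F z with hp
  have hint : IsIntegral F z := hz.isIntegral
  have h2 := D'.map_aeval p z
  rw [hp, minpoly.aeval, map_zero] at h2
  have h3 : (minpoly F z).Separable := (minpoly.irreducible hint).separable
  have h4 := h3.aeval_derivative_ne_zero (minpoly.aeval _ z)
  exact (smul_eq_zero.mp h2.symm).resolve_left h4

theorem der_adjoin {K Ω : Type} [Field K] [Field Ω] [Algebra K Ω]
    (D : Derivation K Ω Ω) (s : Ω) (hs : D s = 0) (a : Ω)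
    (ha : a ∈ IntermediateField.adjoin K {s}) : D a = 0 := by
  induction ha using IntermediateField.adjoin_induction with
  | mem a ha =>
    rw [Set.mem_singleton_iff] at ha
    rw [ha, hs]
  | algebraMap q => exact D.map_algebraMap q
  | add a b _ _ ha hb => rw [map_add, ha, hb, add_zero]
  | inv a _ ha => rw [Derivation.leibniz_inv, ha, smul_zero]
  | mul a b _ _ ha hb => rw [Derivation.leibniz, ha, hb, smul_zero, smul_zero, add_zero]

section symm

variable {K Ω : Type} [Field K] [Field Ω] [Algebra K Ω]

/-- The mixed derivative of `P` at `(s, v)`. -/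
noncomputable def mixed (s v : Ω) (i j : ℕ) (P : K[X][X]) : Ω :=
  eval s (derivative^[i] (eval (C v) (derivative^[j] (P.map (mapRingHom (algebraMap K Ω))))))

theorem mixed_add (s v : Ω) (i j : ℕ) (P Q : K[X][X]) :
    mixed s v i j (P + Q) = mixed s v i j P + mixed s v i j Q := by
  rw [mixed, Polynomial.map_add, iterate_map_add, eval_add, iterate_map_add, eval_add,
    mixed, mixed]

theorem mixed_monomial (s v : Ω) (i j m n : ℕ) (a : K) :
    mixed s v i j (monomial n (monomial m a)) = algebraMap K Ω a *
      ((m.descFactorial i : Ω) * s ^ (m - i)) * ((n.descFactorial j : Ω) * v ^ (n - j)) := by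
  rw [mixed, map_monomial, coe_mapRingHom, map_monomial, ← C_mul_X_pow_eq_monomial,
    iterate_derivative_C_mul, iterate_derivative_X_pow_eq_C_mul, eval_mul, eval_mul, eval_C, eval_C,
    eval_pow, eval_X, ← C_mul_X_pow_eq_monomial]
  have h1 : C (algebraMap K Ω a) * X ^ m * (((n.descFactorial j : ℕ) : Polynomial Ω) * C v ^ (n - j)) =
      C (algebraMap K Ω a * ((n.descFactorial j : Ω) * v ^ (n - j))) * X ^ m := by
    rw [C_mul, C_mul, C_pow, C_eq_natCast]
    ring
  rw [h1, iterate_derivative_C_mul, iterate_derivative_X_pow_eq_C_mul, eval_mul, eval_mul, eval_C,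
    eval_C, eval_pow, eval_X]
  ring

theorem hom_ext_monomial {M : Type} [AddCommMonoid M] (f g : K[X][X] → M)
    (hf : ∀ P Q, f (P + Q) = f P + f Q) (hg : ∀ P Q, g (P + Q) = g P + g Q)
    (h : ∀ (n m : ℕ) (a : K), f (monomial n (monomial m a)) = g (monomial n (monomial m a)))
    (P : K[X][X]) : f P = g P := by
  induction P using Polynomial.induction_on' with
  | add p q hp hq => rw [hf, hg, hp, hq]
  | monomial n A =>
    induction A using Polynomial.induction_on' with
    | add p q hp hq => rw [map_add, hf, hg, hp, hq]
    | monomial m a => exact h n m a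

theorem der_mixed (D : Derivation K Ω Ω) (s v : Ω) (i j : ℕ) (P : K[X][X]) :
    D (mixed s v i j P) = D s * mixed s v (i + 1) j P + D v * mixed s v i (j + 1) P := by
  refine hom_ext_monomial (fun P => D (mixed s v i j P))
    (fun P => D s * mixed s v (i + 1) j P + D v * mixed s v i (j + 1) P) ?_ ?_ ?_ P
  · intro P Q
    simp only [mixed_add, map_add]
  · intro P Q
    simp only [mixed_add]
    ring
  · intro n m a
    simp only [mixed_monomial]
    have e1 : D ((m.descFactorial i : Ω) * s ^ (m - i)) =
        D s * (((m.descFactorial (i + 1) : ℕ) : Ω) * s ^ (m - (i + 1))) := by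
      rw [Derivation.leibniz, Derivation.leibniz_pow, Derivation.map_natCast, smul_zero, add_zero,
        Nat.descFactorial_succ, ← Nat.sub_sub]
      simp only [smul_eq_mul, nsmul_eq_mul, Nat.cast_mul]
      ring
    have e2 : D ((n.descFactorial j : Ω) * v ^ (n - j)) =
        D v * (((n.descFactorial (j + 1) : ℕ) : Ω) * v ^ (n - (j + 1))) := by
      rw [Derivation.leibniz, Derivation.leibniz_pow, Derivation.map_natCast, smul_zero, add_zero,
        Nat.descFactorial_succ, ← Nat.sub_sub]
      simp only [smul_eq_mul, nsmul_eq_mul, Nat.cast_mul]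
      ring
    rw [Derivation.leibniz, e2, Derivation.leibniz, Derivation.map_algebraMap, e1]
    simp only [smul_eq_mul]
    ring

theorem mixed_zero_right (s v : Ω) (i : ℕ) (P : K[X][X]) : mixed s v i 0 P =
    eval s (derivative^[i] (eval (C v) (P.map (mapRingHom (algebraMap K Ω))))) := rfl

theorem mixed_zero_left (s v : Ω) (j : ℕ) (P : K[X][X]) : mixed s v 0 j P =
    eval v (derivative^[j] (P.map (aeval s : K[X] →ₐ[K] Ω).toRingHom)) := by
  refine hom_ext_monomial (fun P => mixed s v 0 j P)
    (fun P => eval v (derivative^[j] (P.map (aeval s : K[X] →ₐ[K] Ω).toRingHom))) ?_ ?_ ?_ P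
  · intro P Q
    rw [mixed_add]
  · intro P Q
    simp only [Polynomial.map_add, iterate_map_add, eval_add]
  · intro n m a
    simp only [mixed_monomial]
    rw [map_monomial, ← C_mul_X_pow_eq_monomial, iterate_derivative_C_mul,
      iterate_derivative_X_pow_eq_C_mul, eval_mul, eval_mul, eval_C, eval_C, eval_pow, eval_X,
      AlgHom.toRingHom_eq_coe, RingHom.coe_coe, aeval_monomial, Nat.descFactorial_zero,
      Nat.cast_one, one_mul, Nat.sub_zero]

/-- The multiplicity in `X` equals the multiplicity in `Y`. -/
theorem rootMultiplicity_symm [CharZero K] (s v : Ω) (hs : Transcendental K s)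
    (hv : Transcendental K v) (P : K[X][X])
    (h1 : eval (C v) (P.map (mapRingHom (algebraMap K Ω))) ≠ 0)
    (h2 : P.map (aeval s : K[X] →ₐ[K] Ω).toRingHom ≠ 0) :
    (eval (C v) (P.map (mapRingHom (algebraMap K Ω)))).rootMultiplicity s =
      (P.map (aeval s : K[X] →ₐ[K] Ω).toRingHom).rootMultiplicity v := by
  have hcz : CharZero Ω := charZero_of_injective_algebraMap (algebraMap K Ω).injective
  by_cases h0 : mixed s v 0 0 P = 0
  swap
  · rw [rootMultiplicity_eq_zero, rootMultiplicity_eq_zero]
    · intro h
      exact h0 ((mixed_zero_left s v 0 P).trans h)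
    · intro h
      exact h0 ((mixed_zero_right s v 0 P).trans h)
  obtain ⟨D, hD⟩ := exists_der v hv
  have hDs : D s ≠ 0 := by
    intro h
    have h3 : D v = 0 := by
      refine der_eq_zero D (IntermediateField.adjoin K {s}) (der_adjoin D s h) v ?_
      have hsm : s ∈ IntermediateField.adjoin K {s} := IntermediateField.mem_adjoin_simple_self K s
      refine ⟨P.map (aeval (⟨s, hsm⟩ : IntermediateField.adjoin K {s}) :
        K[X] →ₐ[K] IntermediateField.adjoin K {s}).toRingHom, ?_, ?_⟩
      · intro h4
        apply h2
        have h5 := congrArg (Polynomial.map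
          (algebraMap (IntermediateField.adjoin K {s}) Ω)) h4
        rw [Polynomial.map_map, Polynomial.map_zero] at h5
        rw [← h5]
        congr 1
        apply Polynomial.ringHom_ext
        · intro a
          simp
        · simp
      · rw [aeval_def, eval₂_map, ← eval_map]
        have h6 := (mixed_zero_left s v 0 P).symm.trans h0
        rw [Function.iterate_zero_apply] at h6
        rw [← h6]
        congr 2
        apply Polynomial.ringHom_ext
        · intro a
          simp
        · simp
    rw [hD] at h3
    exact one_ne_zero h3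
  have key : ∀ n, n < (eval (C v) (P.map (mapRingHom (algebraMap K Ω)))).rootMultiplicity s ↔
      n < (P.map (aeval s : K[X] →ₐ[K] Ω).toRingHom).rootMultiplicity v := by
    intro n
    rw [lt_rootMultiplicity_iff_isRoot_iterate_derivative h1,
      lt_rootMultiplicity_iff_isRoot_iterate_derivative h2]
    constructor
    · intro h
      have h7 : ∀ j, ∀ i, i + j ≤ n → mixed s v i j P = 0 := by
        intro j
        induction j with
        | zero =>
          intro i hi
          rw [mixed_zero_right]
          exact h i (by omega)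
        | succ j ih =>
          intro i hi
          have h8 := der_mixed D s v i j P
          rw [ih i (by omega), ih (i + 1) (by omega), map_zero, mul_zero, zero_add, hD,
            one_mul] at h8
          exact h8.symm
      intro j hj
      have h9 := h7 j 0 (by omega)
      rw [mixed_zero_left] at h9
      exact h9
    · intro h
      have h7 : ∀ i, ∀ j, i + j ≤ n → mixed s v i j P = 0 := by
        intro i
        induction i with
        | zero =>
          intro j hj
          rw [mixed_zero_left]
          exact h j (by omega)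
        | succ i ih =>
          intro j hj
          have h8 := der_mixed D s v i j P
          rw [ih j (by omega), ih (j + 1) (by omega), map_zero, mul_zero, add_zero] at h8
          exact (mul_eq_zero.mp h8.symm).resolve_left hDs
      intro i hi
      have h9 := h7 i 0 (by omega)
      rw [mixed_zero_right] at h9
      exact h9
  rcases lt_trichotomy ((eval (C v) (P.map (mapRingHom (algebraMap K Ω)))).rootMultiplicity s)
    ((P.map (aeval s : K[X] →ₐ[K] Ω).toRingHom).rootMultiplicity v) with h | h | h
  · exact absurd ((key _).mpr h) (lt_irrefl _)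
  · exact h
  · exact absurd ((key _).mp h) (lt_irrefl _)

end symm

end Pool.EU
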