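import Pool.Agent.ML61.Acl
import Pool.Agent.EU.MultSymm

/-!
# Algebraic dependence over a field
-/

set_option autoImplicit false
set_option linter.unusedSectionVars false

namespace Pool.EU

open AlgebraicIndependent

section cl

variable {Ω : Type} [Field Ω] (k : Type) [Field k] [Algebra k Ω]

/-- The elements which are algebraic over `k(T)`. -/
noncomputable def cl (T : Set Ω) : IntermediateField k Ω :=
  (algebraicClosure (IntermediateField.adjoin k T) Ω).restrictScalars k

variable {k}

theorem mem_cl {T : Set Ω} {z : Ω} :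
    z ∈ cl k T ↔ IsAlgebraic (IntermediateField.adjoin k T) z := by
  rw [cl, IntermediateField.mem_restrictScalars, mem_algebraicClosure_iff]

theorem subset_cl (T : Set Ω) : T ⊆ cl k T := by
  intro z hz
  rw [SetLike.mem_coe, mem_cl]
  exact isAlgebraic_algebraMap
    (⟨z, IntermediateField.subset_adjoin k T hz⟩ : IntermediateField.adjoin k T)

theorem mem_cl' {T : Set Ω} {z : Ω} :
    z ∈ cl k T ↔ IsAlgebraic (Algebra.adjoin k T) z := by
  rw [mem_cl]
  open scoped IntermediateField.algebraAdjoinAdjoin in
  exact (IsFractionRing.isAlgebraic_iff (Algebra.adjoin k T) (IntermediateField.adjoin k T) Ω).symm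

theorem coe_cl (T : Set Ω) : (cl k T : Set Ω) = (matroid k Ω).closure T := by
  rw [matroid_closure_eq]
  ext z
  rw [SetLike.mem_coe, SetLike.mem_coe, mem_cl', Subalgebra.mem_algebraicClosure]

theorem cl_mono {S T : Set Ω} (h : S ⊆ T) : cl k S ≤ cl k T := by
  rw [← SetLike.coe_subset_coe, coe_cl, coe_cl]
  exact (matroid k Ω).closure_subset_closure h

theorem cl_le {S T : Set Ω} (h : S ⊆ cl k T) : cl k S ≤ cl k T := by
  rw [← SetLike.coe_subset_coe, coe_cl, coe_cl]
  apply Matroid.closure_subset_closure_of_subset_closure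
  rw [← coe_cl]
  exact h

theorem isAlgClosed_cl [IsAlgClosed Ω] (T : Set Ω) : IsAlgClosed (cl k T) := by
  have h := algebraicClosure.isAlgClosure (IntermediateField.adjoin k T) Ω
  have h2 : IsAlgClosed (algebraicClosure (IntermediateField.adjoin k T) Ω) := h.isAlgClosed
  exact h2

theorem indep_range' {ι : Type} {y : ι → Ω} (hy : AlgebraicIndependent k y) :
    (matroid k Ω).Indep (Set.range y) := by
  rw [matroid_indep_iff]
  exact hy.to_subtype_range

theorem encard_range' {ι : Type} [Fintype ι] {y : ι → Ω} (hy : Function.Injective y) :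
    (Set.range y).encard = Fintype.card ι := by
  rw [← Set.image_univ, hy.encard_image, Set.encard_univ, ENat.card_eq_coe_fintype_card]

theorem encard_range_le' {ι : Type} [Fintype ι] (y : ι → Ω) :
    (Set.range y).encard ≤ Fintype.card ι := by
  rw [← Set.image_univ, ← ENat.card_eq_coe_fintype_card (α := ι), ← Set.encard_univ]
  exact Set.encard_image_le _ _

/-- exchange: same number of elements -/
theorem algInd_of_cl {ι κ : Type} [Fintype ι] [Fintype κ] (y : ι → Ω) (x : κ → Ω)
    (hy : AlgebraicIndependent k y) (h : ∀ i, y i ∈ cl k (Set.range x))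
    (hc : Fintype.card κ ≤ Fintype.card ι) :
    AlgebraicIndependent k x ∧ ∀ i, x i ∈ cl k (Set.range y) := by
  have h1 : Set.range y ⊆ (matroid k Ω).closure (Set.range x) := by
    rw [← coe_cl]
    rintro _ ⟨i, rfl⟩
    exact h i
  have hI := indep_range' hy
  have h2 := hI.encard_le_eRk_of_subset h1
  rw [Matroid.eRk_closure_eq, encard_range' hy.injective] at h2
  have h3 := (matroid k Ω).eRk_le_encard (Set.range x)
  have h4 := encard_range_le' x
  have hc' : (Fintype.card κ : ℕ∞) ≤ Fintype.card ι := by exact_mod_cast hc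
  have hfin : (Set.range x).Finite := Set.finite_range x
  have hxI : (matroid k Ω).Indep (Set.range x) := by
    rw [Matroid.indep_iff_eRk_eq_encard_of_finite hfin]
    exact le_antisymm h3 (h4.trans (hc'.trans h2))
  have hinj : Function.Injective x := by
    have h5 : (Fintype.card κ : ℕ∞) ≤ (Set.range x).encard := hc'.trans (h2.trans h3)
    have h6 : Nat.card κ ≤ Nat.card (Set.range x) := by
      rw [Nat.card_coe_set_eq, Nat.card_eq_fintype_card]
      rw [← hfin.cast_ncard_eq] at h5
      exact_mod_cast h5
    have h7 := Set.rangeFactorization_surjective (f := x) |>.bijective_of_nat_card_le h6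
    intro a b hab
    exact h7.1 (Subtype.ext hab)
  refine ⟨?_, ?_⟩
  · rw [matroid_indep_iff] at hxI
    exact AlgebraicIndependent.of_subtype_range hinj hxI
  · have hr : (matroid k Ω).IsRkFinite (Set.range y) := by
      rw [← Matroid.eRk_lt_top_iff]
      refine lt_of_le_of_lt ((matroid k Ω).eRk_le_encard _) ?_
      rw [encard_range' hy.injective]
      exact ENat.natCast_lt_top _
    have h7 : (matroid k Ω).closure (Set.range y) =
        (matroid k Ω).closure ((matroid k Ω).closure (Set.range x)) := by
      apply hr.closure_eq_closure_of_subset_of_eRk_ge_eRk h1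
      rw [Matroid.eRk_closure_eq, hI.eRk_eq_encard, encard_range' hy.injective]
      exact h3.trans (h4.trans hc')
    intro i
    rw [← SetLike.mem_coe, coe_cl, h7, Matroid.closure_closure]
    exact (matroid k Ω).subset_closure (Set.range x) (Set.subset_univ _) (Set.mem_range_self i)

/-- An algebraically closed subfield contains everything algebraic over it. -/
theorem mem_of_isAlgebraic {K : Type} [Field K] [IsAlgClosed K] [Algebra K Ω] (z : Ω)
    (h : IsAlgebraic K z) : ∃ a : K, algebraMap K Ω a = z :=
  minpoly.mem_range_of_degree_eq_one K z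
    (IsAlgClosed.degree_eq_one_of_irreducible K (minpoly.irreducible h.isIntegral))

theorem transcendental_iff_notMem_cl [IsAlgClosed Ω] {T : Set Ω} {z : Ω} :
    Transcendental (cl k T) z ↔ z ∉ cl k T := by
  have hc : IsAlgClosed (cl k T) := isAlgClosed_cl T
  rw [Transcendental, not_iff_not]
  constructor
  · intro h
    obtain ⟨a, rfl⟩ := mem_of_isAlgebraic z h
    exact a.2
  · intro h
    exact isAlgebraic_algebraMap (⟨z, h⟩ : cl k T)

end cl

/-- A finite algebraically independent family has derivations with arbitrary values. -/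
theorem exists_der_family {K Ω α : Type} [Field K] [CharZero K] [Field Ω] [Algebra K Ω] [Finite α]
    (x : α → Ω) (hx : AlgebraicIndependent K x) (w : α → Ω) :
    ∃ D : Derivation K Ω Ω, ∀ a, D (x a) = w a := by
  classical
  obtain ⟨s, hxs, hs⟩ := exists_isTranscendenceBasis_superset hx.to_subtype_range
  let A := MvPolynomial s K
  let L := FractionRing A
  have hinj : Function.Injective (MvPolynomial.aeval (R := K) ((↑) : s → Ω)) :=
    algebraicIndependent_iff_injective_aeval.mp hs.1
  let : Algebra A Ω := (MvPolynomial.aeval (R := K) ((↑) : s → Ω)).toRingHom.toAlgebra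
  have hA : ∀ a : A, algebraMap A Ω a = MvPolynomial.aeval ((↑) : s → Ω) a := fun _ => rfl
  have ht1 : IsScalarTower K A Ω := IsScalarTower.of_algebraMap_eq fun q => by
    rw [hA, AlgHom.commutes]
  let : Algebra L Ω := (IsFractionRing.lift (K := L) (g := algebraMap A Ω) hinj).toAlgebra
  have ht2 : IsScalarTower A L Ω := IsScalarTower.of_algebraMap_eq fun a =>
    (IsFractionRing.lift_algebraMap (K := L) (g := algebraMap A Ω) hinj a).symm
  have halgA : ∀ z : Ω, IsAlgebraic A z := by
    intro z
    have h1 := hs.isAlgebraic.isAlgebraic z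
    obtain ⟨p, hp, hpz⟩ := h1
    let e : A ≃+* Algebra.adjoin K (Set.range ((↑) : s → Ω)) := hs.1.aevalEquiv.toRingEquiv
    have he : ∀ a : A, ((e a : Algebra.adjoin K (Set.range ((↑) : s → Ω))) : Ω) =
        algebraMap A Ω a := by
      intro a
      rw [hA]
      exact hs.1.algebraMap_aevalEquiv a
    refine ⟨p.map (e.symm : _ →+* A), ?_, ?_⟩
    · rw [Ne, Polynomial.map_eq_zero_iff (e.symm : _ ≃+* A).injective]
      exact hp
    · rw [Polynomial.aeval_def, Polynomial.eval₂_map]
      rw [Polynomial.aeval_def] at hpz
      rw [← hpz]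
      congr 1
      ext b
      change algebraMap A Ω (e.symm b) = (b : Ω)
      rw [← he, RingEquiv.apply_symm_apply]
  have halg : Algebra.IsAlgebraic L Ω :=
    ⟨fun z => (IsFractionRing.isAlgebraic_iff A L Ω).mp (halgA z)⟩
  have hcz0 : CharZero A := charZero_of_injective_algebraMap (algebraMap K A).injective
  have hcz : CharZero L := charZero_of_injective_algebraMap (IsFractionRing.injective A L)
  have hsep : Algebra.IsSeparable L Ω := Algebra.IsAlgebraic.isSeparable_of_perfectField
  have h1 : Algebra.FormallyEtale A L := Algebra.FormallyEtale.of_isLocalization (nonZeroDivisors A)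
  have h2 : Algebra.FormallyEtale L Ω := Algebra.FormallyEtale.of_isSeparable L Ω
  have h3 : Algebra.FormallyEtale A Ω := Algebra.FormallyEtale.comp A L Ω
  let f : s → Ω := fun a => if h : ∃ i, x i = a then w h.choose else 0
  obtain ⟨D, hD⟩ := exists_der_of_formallyEtale K A Ω (MvPolynomial.mkDerivation K f)
  refine ⟨D, fun i => ?_⟩
  have h4 := hD (MvPolynomial.X ⟨x i, hxs ⟨i, rfl⟩⟩)
  rw [hA, MvPolynomial.aeval_X, MvPolynomial.mkDerivation_X] at h4
  rw [h4]
  have h5 : ∃ j, x j = x i := ⟨i, rfl⟩
  change (if h : ∃ j, x j = x i then w h.choose else 0) = w i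
  rw [dif_pos h5]
  exact congrArg w (hx.injective h5.choose_spec)

/-- A derivation which kills `T` kills everything algebraic over `k(T)`. -/
theorem der_cl {k Ω : Type} [Field k] [CharZero k] [Field Ω] [Algebra k Ω]
    (D : Derivation k Ω Ω) (T : Set Ω) (hT : ∀ a ∈ T, D a = 0) (z : Ω) (hz : z ∈ cl k T) :
    D z = 0 := by
  refine der_eq_zero D (IntermediateField.adjoin k T) ?_ z (mem_cl.mp hz)
  intro a ha
  induction ha using IntermediateField.adjoin_induction with
  | mem a ha => exact hT a ha
  | algebraMap q => exact D.map_algebraMap q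
  | add a b _ _ ha hb => rw [map_add, ha, hb, add_zero]
  | inv a _ ha => rw [Derivation.leibniz_inv, ha, smul_zero]
  | mul a b _ _ ha hb => rw [Derivation.leibniz, ha, hb, smul_zero, smul_zero, add_zero]

end Pool.EU
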