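import Pool.Agent.EU.Defs
import Pool.Agent.EU.MultSymm

/-!
# Non-degenerate critical points are defined over the algebraic closure of the data
-/

set_option autoImplicit false
set_option linter.unusedSectionVars false

namespace Pool.EU

open MvPolynomial

variable {ι κ : Type} [Fintype ι] [Fintype κ] [DecidableEq ι] [DecidableEq κ]

/-- The chain rule for derivations. -/
theorem der_aeval {F L : Type} [Field F] [Field L] [Algebra F L] (D : Derivation F L L)
    (x : ι → L) (P : MvPolynomial ι F) :
    D (aeval x P) = ∑ l, aeval x (pderiv l P) * D (x l) := by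
  induction P using MvPolynomial.induction_on with
  | C a =>
    simp only [algHom_C, pderiv_C, map_zero, zero_mul, Finset.sum_const_zero]
    exact D.map_algebraMap a
  | add p q hp hq =>
    simp only [map_add, hp, hq, add_mul, Finset.sum_add_distrib]
  | mul_X p i hp =>
    rw [map_mul, Derivation.leibniz, hp, aeval_X]
    simp only [Derivation.leibniz, map_add, smul_eq_mul, map_mul, aeval_X, pderiv_X, add_mul,
      Finset.sum_add_distrib]
    congr 1
    · rw [Finset.sum_eq_single i]
      · rw [Pi.single_eq_same, map_one, mul_one]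
      · intro l _ hl
        rw [Pi.single_eq_of_ne hl.symm, map_zero, mul_zero, zero_mul]
      · intro h
        exact absurd (Finset.mem_univ i) h
    · rw [Finset.mul_sum]
      exact Finset.sum_congr rfl fun l _ => by ring

/-- A non-degenerate critical point has coordinates algebraic over the field of the data. -/
theorem isAlgebraic_of_jac {F L : Type} [Field F] [Field L] [CharZero F] [Algebra F L]
    (f : κ → MvPolynomial ι F) (v : ι → F) (t : κ → F) (x : ι → L)
    (hx : x ∈ Crit (fun j => MvPolynomial.map (algebraMap F L) (f j))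
      (fun i => algebraMap F L (v i)) (fun j => algebraMap F L (t j)))
    (hJ : (Jac (fun j => MvPolynomial.map (algebraMap F L) (f j))
      (fun i => algebraMap F L (v i)) (fun j => algebraMap F L (t j)) x).det ≠ 0) (i : ι) :
    IsAlgebraic F (x i) := by
  by_contra hi
  obtain ⟨D, hD⟩ := exists_der (x i) hi
  have h1 : ∀ l, aeval x (GG f v t l) = 0 := by
    intro l
    have h2 := ((mem_crit_iff _ _ _ _).mp hx).2.2 l
    rw [← map_GG, eval_map, ← aeval_def] at h2
    exact h2
  have h2 : (Jac (fun j => MvPolynomial.map (algebraMap F L) (f j))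
      (fun i => algebraMap F L (v i)) (fun j => algebraMap F L (t j)) x).mulVec
      (fun l => D (x l)) = 0 := by
    funext l
    have h3 := der_aeval D x (GG f v t l)
    rw [h1 l, map_zero] at h3
    rw [Pi.zero_apply, h3, Matrix.mulVec, dotProduct]
    refine Finset.sum_congr rfl fun m _ => ?_
    rw [Jac, Matrix.of_apply, ← map_GG, pderiv_map, eval_map, ← aeval_def]
  have h3 := Matrix.eq_zero_of_mulVec_eq_zero hJ h2
  have h4 := congrFun h3 i
  rw [Pi.zero_apply] at h4
  rw [hD] at h4
  exact one_ne_zero h4

/-- Elements algebraic over `F` are in the image of an algebraically closed field. -/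
theorem exists_preimage {F A M : Type} [Field F] [Field A] [Field M] [Algebra F A] [Algebra F M]
    [IsAlgClosed A] (ψ : A →ₐ[F] M) (z : M) (hz : IsAlgebraic F z) : ∃ a, ψ a = z := by
  let : Algebra A M := ψ.toRingHom.toAlgebra
  have hst : IsScalarTower F A M := IsScalarTower.of_algebraMap_eq fun q => (ψ.commutes q).symm
  have h1 : IsAlgebraic A z := hz.tower_top A
  have h2 : (minpoly A z).degree = 1 :=
    IsAlgClosed.degree_eq_one_of_irreducible A (minpoly.irreducible h1.isIntegral)
  obtain ⟨a, ha⟩ := minpoly.mem_range_of_degree_eq_one A z h2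
  exact ⟨a, ha⟩

/-- Non-degenerate critical points over an extension come from critical points in `ℂ`. -/
theorem exists_lift {F L : Type} [Field F] [Field L] [CharZero F] [Algebra F ℂ] (φ : F →+* L)
    (f : κ → MvPolynomial ι F) (v : ι → F) (t : κ → F) (x' : ι → L)
    (hx : x' ∈ Crit (fun j => MvPolynomial.map φ (f j)) (fun i => φ (v i)) (fun j => φ (t j)))
    (hJ : (Jac (fun j => MvPolynomial.map φ (f j)) (fun i => φ (v i))
      (fun j => φ (t j)) x').det ≠ 0) :
    ∃ x : ι → ℂ, x ∈ Crit (fun j => MvPolynomial.map (algebraMap F ℂ) (f j))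
        (fun i => algebraMap F ℂ (v i)) (fun j => algebraMap F ℂ (t j)) ∧
      (∀ i, IsAlgebraic F (x i)) ∧
      ∀ y : ι → F, (∀ i, algebraMap F ℂ (y i) = x i) → ∀ i, φ (y i) = x' i := by
  let : Algebra F L := φ.toAlgebra
  let M := AlgebraicClosure L
  have hM : ∀ a : F, algebraMap F M a = algebraMap L M (φ a) := fun a =>
    IsScalarTower.algebraMap_apply F L M a
  let A := algebraicClosure F ℂ
  have hcl : IsAlgClosure F A := algebraicClosure.isAlgClosure F ℂ
  have hac : IsAlgClosed A := hcl.isAlgClosed
  have halg : Algebra.IsAlgebraic F A := hcl.isAlgebraic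
  let ψ : A →ₐ[F] M := IsAlgClosed.lift
  have hx1 : ∀ i, IsAlgebraic F (x' i) := isAlgebraic_of_jac f v t x' hx hJ
  have hx2 : ∀ i, ∃ a : A, ψ a = algebraMap L M (x' i) := fun i =>
    exists_preimage ψ _ ((hx1 i).algebraMap)
  choose a ha using hx2
  have hcrit : a ∈ Crit (fun j => MvPolynomial.map (algebraMap F A) (f j))
      (fun i => algebraMap F A (v i)) (fun j => algebraMap F A (t j)) := by
    have h1 := map_mem_crit (ψ : A →+* M) (fun j => MvPolynomial.map (algebraMap F A) (f j))
      (fun i => algebraMap F A (v i)) (fun j => algebraMap F A (t j)) a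
    rw [← h1]
    have h2 := (map_mem_crit (algebraMap L M) (fun j => MvPolynomial.map φ (f j))
      (fun i => φ (v i)) (fun j => φ (t j)) x').mpr hx
    have h7 : (ψ : A →+* M).comp (algebraMap F A) = (algebraMap L M).comp φ :=
      RingHom.ext fun q => (ψ.commutes q).trans (hM q)
    have h3 : (fun j => MvPolynomial.map (ψ : A →+* M)
        (MvPolynomial.map (algebraMap F A) (f j))) =
        fun j => MvPolynomial.map (algebraMap L M) (MvPolynomial.map φ (f j)) := by
      funext j
      rw [MvPolynomial.map_map, MvPolynomial.map_map, h7]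
    have h4 : (fun i => (ψ : A →+* M) (algebraMap F A (v i))) =
        fun i => algebraMap L M (φ (v i)) := funext fun i => (ψ.commutes _).trans (hM _)
    have h5 : (fun i => (ψ : A →+* M) (algebraMap F A (t i))) =
        fun i => algebraMap L M (φ (t i)) := funext fun i => (ψ.commutes _).trans (hM _)
    have h6 : (fun i => (ψ : A →+* M) (a i)) = fun i => algebraMap L M (x' i) :=
      funext fun i => ha i
    rw [h3, h4, h5, h6]
    exact h2
  refine ⟨fun i => (a i : ℂ), ?_, ?_, ?_⟩
  · have h1 := (map_mem_crit (algebraMap A ℂ) (fun j => MvPolynomial.map (algebraMap F A) (f j))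
      (fun i => algebraMap F A (v i)) (fun j => algebraMap F A (t j)) a).mpr hcrit
    have h3 : (fun j => MvPolynomial.map (algebraMap A ℂ)
        (MvPolynomial.map (algebraMap F A) (f j))) =
        fun j => MvPolynomial.map (algebraMap F ℂ) (f j) := by
      funext j
      rw [MvPolynomial.map_map]
      rfl
    rw [h3] at h1
    exact h1
  · intro i
    exact mem_algebraicClosure_iff.mp (a i).2
  · intro y hy i
    have h1 : algebraMap F A (y i) = a i := Subtype.ext (hy i)
    have h2 := ψ.commutes (y i)
    rw [h1, ha i, hM] at h2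
    exact ((algebraMap L M).injective h2).symm

end Pool.EU
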