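import Pool.Agent.EU.Local

/-!
# The branches over a point of the base: the poles of the function `hfun`
-/

set_option autoImplicit false
set_option linter.unusedSectionVars false

namespace Pool.EU

open MvPolynomial Pool.ML Pool.ML55

variable {ι κ : Type} [Fintype ι] [Fintype κ] [DecidableEq ι] [DecidableEq κ]
variable {K : Type} [Field K]

theorem log_units {k0 : Type} [CommRing k0] [Algebra k0 (LaurentSeries K)]
    (f : κ → MvPolynomial (Option ι) k0) (v : ι → K) (t : κ → K) (s : LaurentSeries K)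
    (hs : s ≠ 0) (x : ι → LaurentSeries K)
    (hx : x ∈ Crit (fun j => (subS s (f j) : MvPolynomial ι (LaurentSeries K)))
      (fun i => HahnSeries.C (v i)) (fun j => HahnSeries.C (t j)))
    (D : LaurentSeries K → LaurentSeries K) (hadd : ∀ a b, D (a + b) = D a + D b)
    (hmul : ∀ a b, D (a * b) = D a * b + a * D b)
    (hC : ∀ a : k0, D (algebraMap k0 (LaurentSeries K) a) = 0) :
    ∑ a : ι ⊕ κ, HahnSeries.C (Sum.elim v t a) *
        (D (Sum.elim x (fun j => aeval (opt s x) (f j)) a) /
          Sum.elim x (fun j => aeval (opt s x) (f j)) a) =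
      (-hfun f (fun j => HahnSeries.C (t j)) s x) * (D s / s) := by
  rw [Fintype.sum_sum_type]
  simp only [Sum.elim_inl, Sum.elim_inr]
  rw [log_identity f (fun i => HahnSeries.C (v i)) (fun j => HahnSeries.C (t j)) s x hx D hadd hmul
    hC, hfun, neg_neg, Finset.sum_mul, Finset.sum_mul]
  refine Finset.sum_congr rfl fun j _ => ?_
  field_simp

theorem order_ofPS_nonneg (P : PowerSeries K) : 0 ≤ (ofPS P : LaurentSeries K).order := by
  by_contra h
  rw [not_le] at h
  by_cases h0 : (ofPS P : LaurentSeries K) = 0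
  · rw [h0, HahnSeries.order_zero] at h
    exact lt_irrefl _ h
  · have h6 : (ofPS P : LaurentSeries K).coeff (ofPS P : LaurentSeries K).order ≠ 0 := by
      rw [Ne, HahnSeries.coeff_order_eq_zero]
      exact h0
    exact h6 (ofPS_coeff_neg P _ h)

theorem unitsF_ne_zero (f : κ → MvPolynomial (Option ι) K) (v : ι → K) (t : κ → K)
    (s : LaurentSeries K) (x : ι → LaurentSeries K) (hx : x ∈ CL f v t s) (a : ι ⊕ κ) :
    unitsF f s x a ≠ 0 := by
  rcases a with i | j
  · exact hx.1 i
  · have h := hx.2.1 j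
    rw [eval_subS] at h
    exact h

theorem log_euler (f : κ → MvPolynomial (Option ι) K) (v : ι → K) (t : κ → K)
    (s : LaurentSeries K) (hs : s ≠ 0) (x : ι → LaurentSeries K) (hx : x ∈ CL f v t s) :
    ∑ a : ι ⊕ κ, HahnSeries.C (Sum.elim v t a) * (euler (unitsF f s x a) / unitsF f s x a) =
      (-hfun f (fun j => HahnSeries.C (t j)) s x) * (euler s / s) :=
  log_units f v t s hs x hx euler euler_add euler_mul fun a => by
    rw [algebraMap_L]
    exact euler_C a

/-- At a point different from zero: the solution stays inside or `hfun` has a simple pole. -/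
theorem good_or_pole [CharZero K] [Algebra ℚ K] (f : κ → MvPolynomial (Option ι) K) (v : ι → K)
    (t : κ → K) (hli : LinearIndependent ℚ (Sum.elim v t)) (s : LaurentSeries K) (s0 : K)
    (hs0 : s0 ≠ 0) (hs : 0 < (s - HahnSeries.C s0).order) (x : ι → LaurentSeries K)
    (hx : x ∈ CL f v t s) : x ∈ GoodL f v t s ∨
      (hfun f (fun j => HahnSeries.C (t j)) s x).order = -(s - HahnSeries.C s0).order := by
  have hsne : s ≠ 0 := by
    obtain ⟨S, rfl, rfl⟩ := exists_ofPS_near s s0 hs
    exact ne_zero_of_const hs0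
  rcases pole_at (Sum.elim v t) hli (unitsF f s x) (unitsF_ne_zero f v t s x hx) s _ s0 hs0 hs
    (log_euler f v t s hsne x hx) with h | h
  · exact Or.inl ⟨hx, h⟩
  · right
    rw [HahnSeries.order_neg] at h
    exact h

/-- At zero and at infinity `hfun` is regular. -/
theorem ends_regular [CharZero K] (f : κ → MvPolynomial (Option ι) K) (v : ι → K)
    (t : κ → K) (s : LaurentSeries K) (hs : s.order ≠ 0) (x : ι → LaurentSeries K)
    (hx : x ∈ CL f v t s) : 0 ≤ (hfun f (fun j => HahnSeries.C (t j)) s x).order := by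
  have hsne : s ≠ 0 := by
    rintro rfl
    rw [HahnSeries.order_zero] at hs
    exact hs rfl
  obtain ⟨H, hH⟩ := regular_at_ends (Sum.elim v t) (unitsF f s x) (unitsF_ne_zero f v t s x hx) s _
    hs (log_euler f v t s hsne x hx)
  rw [← HahnSeries.order_neg, hH]
  exact order_ofPS_nonneg H

/-- At a solution which stays inside `hfun` is regular. -/
theorem good_regular (f : κ → MvPolynomial (Option ι) K) (v : ι → K)
    (t : κ → K) (s : LaurentSeries K) (s0 : K) (hs : 0 < (s - HahnSeries.C s0).order)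
    (x : ι → LaurentSeries K) (hx : x ∈ GoodL f v t s) :
    0 ≤ (hfun f (fun j => HahnSeries.C (t j)) s x).order := by
  obtain ⟨S, rfl, rfl⟩ := exists_ofPS_near s s0 hs
  rw [mem_GoodL_iff] at hx
  obtain ⟨X, rfl, hξ, -⟩ := hx
  have h2 : ∀ j, PowerSeries.constantCoeff (aeval (opt S X) (f j)) ≠ 0 := by
    intro j
    rw [← aeval_const, ← eval_subS]
    exact hξ.2.1 j
  have h3 : hfun f (fun j => HahnSeries.C (t j)) (ofPS S) (fun i => ofPS (X i)) =
      ofPS (-∑ j, PowerSeries.C (t j) * (S * aeval (opt S X) (pderiv none (f j)) *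
        (aeval (opt S X) (f j))⁻¹)) := by
    rw [hfun, map_neg, map_sum]
    congr 1
    refine Finset.sum_congr rfl fun j _ => ?_
    rw [aeval_ofPS, aeval_ofPS, map_mul, map_mul, map_mul, div_eq_mul_inv]
    have h4 : (ofPS (PowerSeries.C (t j)) : LaurentSeries K) = HahnSeries.C (t j) :=
      HahnSeries.ofPowerSeries_C (t j)
    have h5 : (ofPS (aeval (opt S X) (f j)) : LaurentSeries K)⁻¹ =
        ofPS (aeval (opt S X) (f j))⁻¹ := by
      rw [inv_eq_iff_eq_inv]
      symm
      apply inv_eq_of_mul_eq_one_left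
      rw [← map_mul, PowerSeries.mul_inv_cancel _ (h2 j), map_one]
    rw [h4, h5]
  rw [h3]
  exact order_ofPS_nonneg _

theorem subS_map {k0 K Ω : Type} [CommRing k0] [CommRing K] [CommRing Ω] [Algebra k0 Ω]
    [Algebra K Ω] (g : k0 →+* K) (hg : ∀ a, algebraMap K Ω (g a) = algebraMap k0 Ω a) (s : Ω)
    (p : MvPolynomial (Option ι) k0) :
    (subS s (MvPolynomial.map g p) : MvPolynomial ι Ω) = subS s p := by
  induction p using MvPolynomial.induction_on with
  | C a => simp [subS, hg]
  | add p q hp hq => rw [map_add, map_add, hp, hq, map_add]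
  | mul_X p o hp =>
    rw [map_mul, map_mul, hp, map_mul]
    congr 1
    cases o <;> simp [subS]

theorem aeval_opt_map {k0 K Ω : Type} [CommRing k0] [CommRing K] [CommRing Ω] [Algebra k0 Ω]
    [Algebra K Ω] (g : k0 →+* K) (hg : ∀ a, algebraMap K Ω (g a) = algebraMap k0 Ω a) (s : Ω)
    (x : ι → Ω) (p : MvPolynomial (Option ι) k0) :
    aeval (opt s x) (MvPolynomial.map g p) = aeval (opt s x) p := by
  rw [← eval_subS, subS_map g hg, eval_subS]

theorem hfun_map {k0 K Ω : Type} [CommRing k0] [CommRing K] [Field Ω] [Algebra k0 Ω]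
    [Algebra K Ω] (g : k0 →+* K) (hg : ∀ a, algebraMap K Ω (g a) = algebraMap k0 Ω a)
    (f : κ → MvPolynomial (Option ι) k0) (t : κ → Ω) (s : Ω) (x : ι → Ω) :
    hfun (fun j => MvPolynomial.map g (f j)) t s x = hfun f t s x := by
  simp only [hfun, pderiv_map, aeval_opt_map g hg]

theorem log_cder {k0 : Type} [CommRing k0] [Algebra k0 (LaurentSeries K)] (g : k0 →+* K)
    (hg : ∀ a, algebraMap K (LaurentSeries K) (g a) = algebraMap k0 (LaurentSeries K) a)
    (f : κ → MvPolynomial (Option ι) k0) (v : ι → K) (t : κ → K) (s : LaurentSeries K)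
    (hs : s ≠ 0) (δ : Derivation ℤ K K) (hδ : ∀ a, δ (g a) = 0) (x : ι → LaurentSeries K)
    (hx : x ∈ CL (fun j => MvPolynomial.map g (f j)) v t s) :
    ∑ a : ι ⊕ κ, HahnSeries.C (Sum.elim v t a) *
        (cder δ (unitsF (fun j => MvPolynomial.map g (f j)) s x a) /
          unitsF (fun j => MvPolynomial.map g (f j)) s x a) =
      (-hfun (fun j => MvPolynomial.map g (f j)) (fun j => HahnSeries.C (t j)) s x) *
        (cder δ s / s) := by
  have h1 : (fun j => (subS s (MvPolynomial.map g (f j)) : MvPolynomial ι (LaurentSeries K))) =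
      fun j => subS s (f j) := by
    funext j
    have h := subS_map (ι := ι) g hg s (f j)
    exact h
  have hx' := hx
  rw [CL, h1] at hx'
  have hC : ∀ a : k0, cder δ (algebraMap k0 (LaurentSeries K) a) = 0 := by
    intro a
    have e1 : algebraMap k0 (LaurentSeries K) a = HahnSeries.C (g a) :=
      (hg a).symm.trans (algebraMap_L (g a))
    rw [e1, cder_C, hδ, map_zero]
  have h2 := log_units f v t s hs x hx' (cder δ) (cder_add δ) (cder_mul δ) hC
  have h3 : (Sum.elim x fun j => aeval (opt s x) (f j)) =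
      unitsF (fun j => MvPolynomial.map g (f j)) s x := by
    funext a
    rcases a with i | j
    · rfl
    · have h := aeval_opt_map g hg s x (f j)
      exact h.symm
  rw [h3] at h2
  have h4 := hfun_map g hg f (fun j => HahnSeries.C (t j)) s x
  rw [h4]
  exact h2

/-- At a point of the base which is moved by a derivation vanishing on the coefficients all
solutions stay inside. -/
theorem all_good [CharZero K] [Algebra ℚ K] {k0 : Type} [CommRing k0] (g : k0 →+* K)
    (f : κ → MvPolynomial (Option ι) k0) (v : ι → K)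
    (t : κ → K) (hli : LinearIndependent ℚ (Sum.elim v t)) (s : LaurentSeries K) (s0 : K)
    (hs : 0 < (s - HahnSeries.C s0).order) (δ : Derivation ℤ K K) (hδ : ∀ a, δ (g a) = 0)
    (hδ0 : δ s0 ≠ 0) (x : ι → LaurentSeries K)
    (hx : x ∈ CL (fun j => MvPolynomial.map g (f j)) v t s) :
    x ∈ GoodL (fun j => MvPolynomial.map g (f j)) v t s := by
  have hs0 : s0 ≠ 0 := by
    rintro rfl
    exact hδ0 (map_zero δ)
  obtain ⟨S, hS, hS0⟩ := exists_ofPS_near s s0 hs
  have hSc : PowerSeries.constantCoeff S ≠ 0 := by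
    rw [hS0]
    exact hs0
  have hsne : s ≠ 0 := by
    rw [hS]
    exact ne_zero_of_const hSc
  have hδS : δ (PowerSeries.constantCoeff S) ≠ 0 := by
    rw [hS0]
    exact hδ0
  have h2 := @log_cder ι κ _ _ _ _ K _ k0 _
    (((algebraMap K (LaurentSeries K)).comp g).toAlgebra) g (fun _ => rfl) f v t s hsne δ hδ x hx
  have h3 := log_euler (fun j => MvPolynomial.map g (f j)) v t s hsne x hx
  exact ⟨hx, (no_escape_at δ (Sum.elim v t) hli _ (unitsF_ne_zero _ v t s x hx) s _ S hS hSc hδS
    h2 h3).1⟩

end Pool.EU
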