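import Pool.Agent.EU.IndexW
import Pool.Agent.EU.Local2
import Pool.Agent.EU.Lift
import Pool.Agent.EU.Cl

/-!
# The branches at a place
-/

set_option autoImplicit false
set_option linter.unusedSectionVars false

namespace Pool.EU

open MvPolynomial Pool.ML

variable {ι κ : Type} [Fintype ι] [Fintype κ] [DecidableEq ι] [DecidableEq κ]
variable {K : Type} [Field K] [Algebra K ℂ]
variable {f : κ → MvPolynomial (Option ι) K} {v : ι → K} {t : κ → K} {s : ℂ}

theorem CPlace.map_φ (p : CPlace f v t s) (a : K) :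
    p.φ (algebraMap K p.F a) = algebraMap K (LaurentSeries K) a := by
  rw [algebraMap_L]
  exact p.hC a

/-- The point over the field of the place. -/
def CPlace.pt (p : CPlace f v t s) (x : ι → ℂ) (hx : x ∈ crt f v t s) : ι → p.F :=
  fun i => ⟨x i, p.hx x hx i⟩

theorem CPlace.ser_pt (p : CPlace f v t s) (x : ι → ℂ) (hx : x ∈ crt f v t s) :
    (fun i => p.ser (x i)) = fun i => p.φ (p.pt x hx i) :=
  funext fun i => p.ser_coe (p.pt x hx i)

theorem CPlace.ser_s (p : CPlace f v t s) : p.ser s = p.φ ⟨s, p.hs⟩ := p.ser_coe ⟨s, p.hs⟩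

/-- The critical points over the field of the place. -/
theorem CPlace.mem_F_iff (p : CPlace f v t s) (y : ι → p.F) :
    y ∈ Crit (fun j => (subS (⟨s, p.hs⟩ : p.F) (f j) : MvPolynomial ι p.F))
      (fun i => algebraMap K p.F (v i)) (fun j => algebraMap K p.F (t j)) ↔
      (fun i => (y i : ℂ)) ∈ crt f v t s := by
  have h1 := map_mem_crit (algebraMap p.F ℂ)
    (fun j => (subS (⟨s, p.hs⟩ : p.F) (f j) : MvPolynomial ι p.F))
    (fun i => algebraMap K p.F (v i)) (fun j => algebraMap K p.F (t j)) y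
  rw [← h1]
  have h2 : ∀ j, MvPolynomial.map (algebraMap p.F ℂ)
      (subS (⟨s, p.hs⟩ : p.F) (f j) : MvPolynomial ι p.F) = subS s (f j) := fun j =>
    map_subS (k := K) (ι := ι) (algebraMap p.F ℂ) (fun _ => rfl) (⟨s, p.hs⟩ : p.F) (f j)
  simp only [h2]
  rfl

/-- The critical points over the Laurent series. -/
theorem CPlace.mem_L_iff (p : CPlace f v t s) (y : ι → p.F) :
    y ∈ Crit (fun j => (subS (⟨s, p.hs⟩ : p.F) (f j) : MvPolynomial ι p.F))
      (fun i => algebraMap K p.F (v i)) (fun j => algebraMap K p.F (t j)) ↔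
      (fun i => p.φ (y i)) ∈ CL f v t (p.ser s) := by
  have h1 := map_mem_crit p.φ
    (fun j => (subS (⟨s, p.hs⟩ : p.F) (f j) : MvPolynomial ι p.F))
    (fun i => algebraMap K p.F (v i)) (fun j => algebraMap K p.F (t j)) y
  rw [← h1, CL, p.ser_s]
  have h2 : ∀ j, MvPolynomial.map p.φ
      (subS (⟨s, p.hs⟩ : p.F) (f j) : MvPolynomial ι p.F) = subS (p.φ ⟨s, p.hs⟩) (f j) := by
    intro j
    have h := map_subS (ι := ι) p.φ p.map_φ (⟨s, p.hs⟩ : p.F) (f j)
    exact h
  simp only [h2, p.hC]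

theorem CPlace.ser_mem (p : CPlace f v t s) (x : ι → ℂ) (hx : x ∈ crt f v t s) :
    (fun i => p.ser (x i)) ∈ CL f v t (p.ser s) := by
  rw [p.ser_pt x hx, ← p.mem_L_iff, p.mem_F_iff]
  exact hx

theorem CPlace.ser_inj (p : CPlace f v t s) (x : ι → ℂ) (hx : x ∈ crt f v t s) (y : ι → ℂ)
    (hy : y ∈ crt f v t s) (h : (fun i => p.ser (x i)) = fun i => p.ser (y i)) : x = y := by
  rw [p.ser_pt x hx, p.ser_pt y hy] at h
  funext i
  have h1 := p.φ.injective (congrFun h i)
  exact congrArg Subtype.val h1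

theorem CPlace.ser_hfun (p : CPlace f v t s) (x : ι → ℂ) (hx : x ∈ crt f v t s) :
    p.ser (hval f t s x) =
      hfun f (fun j => HahnSeries.C (t j)) (p.ser s) (fun i => p.ser (x i)) := by
  have h1 : hval f t s x = ((hval f t (⟨s, p.hs⟩ : p.F) (p.pt x hx) : p.F) : ℂ) :=
    (map_hval f t (algebraMap p.F ℂ) (fun _ => rfl) (⟨s, p.hs⟩ : p.F) (p.pt x hx)).symm
  rw [h1, p.ser_coe, map_hval f t p.φ p.map_φ, ← p.ser_s, ← p.ser_pt x hx, hval]
  simp only [algebraMap_L]

/-- Non-degenerate solutions over the Laurent series come from critical points. -/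
theorem CPlace.exists_of_L [CharZero K] (p : CPlace f v t s) (z : ι → LaurentSeries K)
    (hz : z ∈ CL f v t (p.ser s))
    (hJ : (Jac (fun j => (subS (p.ser s) (f j) : MvPolynomial ι (LaurentSeries K)))
      (fun i => HahnSeries.C (v i)) (fun j => HahnSeries.C (t j)) z).det ≠ 0) :
    ∃ x ∈ crt f v t s, (fun i => p.ser (x i)) = z := by
  have h2 : ∀ j, MvPolynomial.map p.φ
      (subS (⟨s, p.hs⟩ : p.F) (f j) : MvPolynomial ι p.F) = subS (p.ser s) (f j) := by
    intro j
    rw [p.ser_s]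
    have h := map_subS (ι := ι) p.φ p.map_φ (⟨s, p.hs⟩ : p.F) (f j)
    exact h
  have h3 : ∀ j, MvPolynomial.map (algebraMap p.F ℂ)
      (subS (⟨s, p.hs⟩ : p.F) (f j) : MvPolynomial ι p.F) = subS s (f j) := fun j =>
    map_subS (k := K) (ι := ι) (algebraMap p.F ℂ) (fun _ => rfl) (⟨s, p.hs⟩ : p.F) (f j)
  have hcz : CharZero p.F := charZero_of_injective_algebraMap (algebraMap K p.F).injective
  obtain ⟨x, hx, -, hxz⟩ := exists_lift p.φ
    (fun j => (subS (⟨s, p.hs⟩ : p.F) (f j) : MvPolynomial ι p.F))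
    (fun i => algebraMap K p.F (v i)) (fun j => algebraMap K p.F (t j)) z
    (by simp only [h2, p.hC]; exact hz) (by simp only [h2, p.hC]; exact hJ)
  simp only [h3] at hx
  refine ⟨x, hx, ?_⟩
  rw [p.ser_pt x hx]
  exact funext fun i => hxz (p.pt x hx) (fun _ => rfl) i

/-- The number of branches which stay inside. -/
theorem CPlace.good_ncard [CharZero K] (p : CPlace f v t s) (s0 : K)
    (hs : 0 < (p.ser s - HahnSeries.C s0).order)
    (hnd : ∀ ξ ∈ CK f v t s0, (Jac (fun j => (subS s0 (f j) : MvPolynomial ι K)) v t ξ).det ≠ 0) :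
    {x ∈ crt f v t s | (fun i => p.ser (x i)) ∈ GoodL f v t (p.ser s)}.ncard =
      (CK f v t s0).ncard := by
  obtain ⟨h1, h2⟩ := good_count f v t (p.ser s) s0 hs hnd
  rw [← h1]
  apply Set.ncard_congr (fun x _ => fun i => p.ser (x i))
  · intro x hx
    exact hx.2
  · intro x y hx hy h
    exact p.ser_inj x hx.1 y hy.1 h
  · intro z hz
    obtain ⟨x, hx, hxz⟩ := p.exists_of_L z hz.1 (h2 z hz)
    refine ⟨x, ⟨hx, ?_⟩, hxz⟩
    rw [hxz]
    exact hz

/-- The local contribution at a point of the field of definition. -/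
theorem CPlace.local_fin [CharZero K] [Algebra ℚ K] (p : CPlace f v t s)
    (hfin : (crt f v t s).Finite) (hli : LinearIndependent ℚ (Sum.elim v t)) (s0 : K)
    (hs0 : s0 ≠ 0) (hs : 0 < (p.ser s - HahnSeries.C s0).order)
    (hnd : ∀ ξ ∈ CK f v t s0, (Jac (fun j => (subS s0 (f j) : MvPolynomial ι K)) v t ξ).det ≠ 0) :
    (∀ x ∈ crt f v t s, 0 ≤ (p.ser (hval f t s x)).order ∨
      (p.ser (hval f t s x)).order = -(p.ser s - HahnSeries.C s0).order) ∧
    {x ∈ crt f v t s | (p.ser (hval f t s x)).order < 0}.ncard + (CK f v t s0).ncard =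
      (crt f v t s).ncard := by
  have key : ∀ x ∈ crt f v t s, (fun i => p.ser (x i)) ∈ GoodL f v t (p.ser s) ∧
      0 ≤ (p.ser (hval f t s x)).order ∨ (fun i => p.ser (x i)) ∉ GoodL f v t (p.ser s) ∧
      (p.ser (hval f t s x)).order = -(p.ser s - HahnSeries.C s0).order := by
    intro x hx
    rw [p.ser_hfun x hx]
    by_cases hg : (fun i => p.ser (x i)) ∈ GoodL f v t (p.ser s)
    · exact Or.inl ⟨hg, good_regular f v t (p.ser s) s0 hs _ hg⟩
    · exact Or.inr ⟨hg, (good_or_pole f v t hli (p.ser s) s0 hs0 hs _ (p.ser_mem x hx)).resolve_left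
        hg⟩
  refine ⟨fun x hx => (key x hx).imp (fun h => h.2) (fun h => h.2), ?_⟩
  rw [← p.good_ncard s0 hs hnd]
  have h1 : {x ∈ crt f v t s | (p.ser (hval f t s x)).order < 0} =
      {x ∈ crt f v t s | ¬ (fun i => p.ser (x i)) ∈ GoodL f v t (p.ser s)} := by
    ext x
    constructor
    · rintro ⟨hx, h⟩
      rcases key x hx with h3 | h3
      · exact absurd h (not_lt.mpr h3.2)
      · exact ⟨hx, h3.1⟩
    · rintro ⟨hx, h⟩
      rcases key x hx with h3 | h3
      · exact absurd h3.1 h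
      · refine ⟨hx, ?_⟩
        rw [h3.2]
        omega
  rw [h1, add_comm]
  have h2 : {x ∈ crt f v t s | (fun i => p.ser (x i)) ∈ GoodL f v t (p.ser s)} ∪
      {x ∈ crt f v t s | ¬ (fun i => p.ser (x i)) ∈ GoodL f v t (p.ser s)} = crt f v t s := by
    ext x
    constructor
    · rintro (h | h) <;> exact h.1
    · intro h
      by_cases hg : (fun i => p.ser (x i)) ∈ GoodL f v t (p.ser s)
      · exact Or.inl ⟨h, hg⟩
      · exact Or.inr ⟨h, hg⟩
  rw [← Set.ncard_union_eq _ (hfin.subset fun x hx => hx.1) (hfin.subset fun x hx => hx.1), h2]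
  rw [Set.disjoint_left]
  rintro x ⟨-, h3⟩ ⟨-, h4⟩
  exact h4 h3

/-- No contribution at zero and at infinity. -/
theorem CPlace.local_ends [CharZero K] (p : CPlace f v t s) (hs : (p.ser s).order ≠ 0)
    (x : ι → ℂ) (hx : x ∈ crt f v t s) : 0 ≤ (p.ser (hval f t s x)).order := by
  rw [p.ser_hfun x hx]
  exact ends_regular f v t (p.ser s) hs _ (p.ser_mem x hx)

/-- Places exist. -/
theorem exists_cplace [IsAlgClosed K] [CharZero K] (hfin : (crt f v t s).Finite)
    (halg : ∀ x ∈ crt f v t s, ∀ i, x i ∈ cl K {s}) (z : ℂ) (hz : Transcendental K z)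
    (hsz : s ∈ cl K {z}) : ∃ (p : CPlace f v t s) (hzF : z ∈ p.F), 0 < (p.φ ⟨z, hzF⟩).order := by
  classical
  let S : Finset ℂ := insert s (hfin.toFinset.biUnion fun x => Finset.univ.image fun i => x i)
  have hS : ∀ a ∈ S, IsAlgebraic (IntermediateField.adjoin K {z}) a := by
    intro a ha
    rw [← mem_cl]
    rw [Finset.mem_insert] at ha
    rcases ha with rfl | ha
    · exact hsz
    · rw [Finset.mem_biUnion] at ha
      obtain ⟨x, hx, hax⟩ := ha
      rw [Finset.mem_image] at hax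
      obtain ⟨i, -, rfl⟩ := hax
      have h1 := halg x (hfin.mem_toFinset.mp hx) i
      exact cl_le (by rintro _ rfl; exact hsz) h1
  obtain ⟨F, φ, hzF, hSF, hC, hord⟩ := exists_place K ℂ z hz S hS
  refine ⟨⟨F, φ, hC, hSF s (Finset.mem_insert_self _ _), ?_⟩, hzF, hord⟩
  intro x hx i
  apply hSF
  refine Finset.mem_insert_of_mem (Finset.mem_biUnion.mpr ⟨x, hfin.mem_toFinset.mpr hx, ?_⟩)
  exact Finset.mem_image.mpr ⟨i, Finset.mem_univ i, rfl⟩

end Pool.EU
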