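import Pool.Agent.ML61.Acl

/-!
# Critical points on the complement of hypersurfaces in a torus: definitions

`Crit f v t` is the set of the critical points of `∏ x_i ^ v_i ∏ f_j ^ t_j` on the set
`U f = {x : x_i ≠ 0, f_j(x) ≠ 0}`.
-/

set_option autoImplicit false
set_option linter.unusedSectionVars false

namespace Pool.EU

open MvPolynomial

variable {ι κ : Type} [Fintype ι] [Fintype κ] [DecidableEq ι] [DecidableEq κ]

/-- The critical points of `∏ x_i ^ v_i ∏ f_j ^ t_j`. -/
def Crit {Ω : Type} [Field Ω] (f : κ → MvPolynomial ι Ω) (v : ι → Ω) (t : κ → Ω) :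
    Set (ι → Ω) :=
  {x | (∀ i, x i ≠ 0) ∧ (∀ j, eval x (f j) ≠ 0) ∧
    ∀ i, v i + ∑ j, t j * (x i * eval x (pderiv i (f j)) / eval x (f j)) = 0}

/-- The equations with the denominators cleared. -/
noncomputable def GG {A : Type} [CommRing A] (f : κ → MvPolynomial ι A) (v : ι → A) (t : κ → A)
    (i : ι) : MvPolynomial ι A :=
  C (v i) * ∏ j, f j + ∑ j, C (t j) * (X i * pderiv i (f j)) * ∏ j' ∈ Finset.univ.erase j, f j'

/-- The Jacobian matrix of the cleared equations. -/
noncomputable def Jac {A : Type} [CommRing A] (f : κ → MvPolynomial ι A) (v : ι → A) (t : κ → A)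
    (x : ι → A) : Matrix ι ι A :=
  Matrix.of fun i l => eval x (pderiv l (GG f v t i))

/-- All coefficients of `f`. -/
def coefs {Ω : Type} [CommRing Ω] (f : κ → MvPolynomial ι Ω) : Set Ω :=
  {a | ∃ j m, coeff m (f j) = a}

/-- The point `(s, x)`. -/
def opt {Ω : Type} (s : Ω) (x : ι → Ω) : Option ι → Ω := fun o => o.elim s x

/-- Substitute `s` for the distinguished variable. -/
noncomputable def subS {k Ω : Type} [CommRing k] [CommRing Ω] [Algebra k Ω] (s : Ω) :
    MvPolynomial (Option ι) k →ₐ[k] MvPolynomial ι Ω :=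
  aeval (fun o => o.elim (C s) X)

/-- The exponent of the distinguished variable which makes `(s, x)` critical. -/
noncomputable def hfun {k Ω : Type} [CommRing k] [Field Ω] [Algebra k Ω]
    (f : κ → MvPolynomial (Option ι) k) (t : κ → Ω) (s : Ω) (x : ι → Ω) : Ω :=
  -∑ j, t j * (s * aeval (opt s x) (pderiv none (f j)) / aeval (opt s x) (f j))

theorem eval_GG {Ω : Type} [Field Ω] (f : κ → MvPolynomial ι Ω) (v : ι → Ω) (t : κ → Ω) (i : ι)
    (x : ι → Ω) (hx : ∀ j, eval x (f j) ≠ 0) : eval x (GG f v t i) = (∏ j, eval x (f j)) *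
      (v i + ∑ j, t j * (x i * eval x (pderiv i (f j)) / eval x (f j))) := by
  rw [GG, map_add, map_mul, eval_C, map_prod, map_sum, mul_add, Finset.mul_sum]
  congr 1
  · ring
  · refine Finset.sum_congr rfl fun j _ => ?_
    rw [map_mul, map_mul, map_mul, eval_C, eval_X, map_prod,
      ← Finset.mul_prod_erase Finset.univ (fun j => eval x (f j)) (Finset.mem_univ j)]
    field_simp [hx j]

theorem mem_crit_iff {Ω : Type} [Field Ω] (f : κ → MvPolynomial ι Ω) (v : ι → Ω) (t : κ → Ω)
    (x : ι → Ω) : x ∈ Crit f v t ↔ (∀ i, x i ≠ 0) ∧ (∀ j, eval x (f j) ≠ 0) ∧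
      ∀ i, eval x (GG f v t i) = 0 := by
  rw [Crit, Set.mem_setOf_eq]
  refine and_congr_right fun _ => and_congr_right fun hx => forall_congr' fun i => ?_
  rw [eval_GG f v t i x hx, mul_eq_zero, or_iff_right]
  exact Finset.prod_ne_zero_iff.mpr fun j _ => hx j

theorem map_GG {A B : Type} [CommRing A] [CommRing B] (φ : A →+* B) (f : κ → MvPolynomial ι A)
    (v : ι → A) (t : κ → A) (i : ι) : MvPolynomial.map φ (GG f v t i) =
      GG (fun j => MvPolynomial.map φ (f j)) (fun i => φ (v i)) (fun j => φ (t j)) i := by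
  simp only [GG, map_add, map_mul, map_C, map_prod, map_sum, map_X, pderiv_map]

/-- Field homomorphisms map critical points to critical points. -/
theorem map_mem_crit {Ω Ω' : Type} [Field Ω] [Field Ω'] (φ : Ω →+* Ω')
    (f : κ → MvPolynomial ι Ω) (v : ι → Ω) (t : κ → Ω) (x : ι → Ω) :
    (fun i => φ (x i)) ∈ Crit (fun j => MvPolynomial.map φ (f j)) (fun i => φ (v i))
      (fun j => φ (t j)) ↔ x ∈ Crit f v t := by
  have h1 : ∀ p : MvPolynomial ι Ω, eval (fun i => φ (x i)) (MvPolynomial.map φ p) =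
      φ (eval x p) := fun p => (map_eval φ x p).symm
  simp only [mem_crit_iff, ← map_GG, h1, map_eq_zero, ne_eq]

theorem eval_subS {k Ω : Type} [CommRing k] [CommRing Ω] [Algebra k Ω] (s : Ω) (x : ι → Ω)
    (p : MvPolynomial (Option ι) k) : eval x (subS s p) = aeval (opt s x) p := by
  induction p using MvPolynomial.induction_on with
  | C a => simp [subS]
  | add p q hp hq => rw [map_add, map_add, hp, hq, map_add]
  | mul_X p o hp =>
    rw [map_mul, map_mul, hp, map_mul]
    congr 1
    rw [subS, aeval_X, aeval_X]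
    cases o <;> simp [opt]

theorem pderiv_subS {k Ω : Type} [CommRing k] [CommRing Ω] [Algebra k Ω] (s : Ω) (i : ι)
    (p : MvPolynomial (Option ι) k) :
    pderiv i (subS s p) = subS s (pderiv (some i) p) := by
  induction p using MvPolynomial.induction_on with
  | C a => simp [subS]
  | add p q hp hq => rw [map_add, map_add, hp, hq, map_add, map_add]
  | mul_X p o hp =>
    rw [map_mul, Derivation.leibniz, Derivation.leibniz, hp, smul_eq_mul, smul_eq_mul, smul_eq_mul,
      smul_eq_mul, map_add, map_mul, map_mul]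
    congr 1
    cases o with
    | none => simp [subS, pderiv_X]
    | some j =>
      simp only [subS, aeval_X, Option.elim_some, pderiv_X]
      by_cases hij : j = i
      · subst hij
        simp
      · rw [Pi.single_eq_of_ne hij, Pi.single_eq_of_ne (by simpa using hij), map_zero]

theorem map_subS {k Ω Ω' : Type} [CommRing k] [CommRing Ω] [CommRing Ω'] [Algebra k Ω]
    [Algebra k Ω'] (φ : Ω →+* Ω') (hφ : ∀ a : k, φ (algebraMap k Ω a) = algebraMap k Ω' a) (s : Ω)
    (p : MvPolynomial (Option ι) k) : MvPolynomial.map φ (subS s p) = subS (φ s) p := by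
  induction p using MvPolynomial.induction_on with
  | C a => simp [subS, hφ]
  | add p q hp hq => rw [map_add, map_add, hp, hq, map_add]
  | mul_X p o hp =>
    rw [map_mul, map_mul, hp, map_mul]
    congr 1
    cases o <;> simp [subS]

/-- The critical points of the total system, in terms of the fibres. -/
theorem mem_crit_opt {k Ω : Type} [Field k] [Field Ω] [Algebra k Ω]
    (f : κ → MvPolynomial (Option ι) k) (v : ι → Ω) (t : κ → Ω) (w s : Ω) (x : ι → Ω) :
    opt s x ∈ Crit (fun j => MvPolynomial.map (algebraMap k Ω) (f j)) (opt w v) t ↔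
      s ≠ 0 ∧ x ∈ Crit (fun j => subS s (f j)) v t ∧ hfun f t s x = w := by
  simp only [Crit, Set.mem_setOf_eq, Option.forall, eval_subS, pderiv_subS, hfun, pderiv_map,
    eval_map, ← aeval_def]
  constructor
  · rintro ⟨⟨h1, h2⟩, h3, h4, h5⟩
    refine ⟨h1, ⟨h2, h3, h5⟩, ?_⟩
    rw [neg_eq_iff_add_eq_zero, add_comm]
    exact h4
  · rintro ⟨h1, ⟨h2, h3, h5⟩, h4⟩
    refine ⟨⟨h1, h2⟩, h3, ?_, h5⟩
    rw [neg_eq_iff_add_eq_zero, add_comm] at h4
    exact h4

end Pool.EU
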