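import Pool.Agent.EU.Cl
import Pool.Agent.ML61.Der

/-!
# The derivation dimension lemma

If the numbers `d` are algebraically independent and algebraic over the numbers `x`, and all the
vectors `(δ x)` satisfy a surjective system of linear equations with values in `W`, then
`|d| + dim W ≤ |x|`.  If equality holds, then all solutions of the linear equations are of the form
`δ x`, the numbers `x` are algebraic over `d`, and the linear equations together with `δ d = 0` have
only the solution zero.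
-/

set_option autoImplicit false
set_option linter.unusedSectionVars false

namespace Pool.EU

open Pool.ML Module

/-- All values of derivations on a family. -/
noncomputable def evD {X : Type} (x : X → ℂ) : Derivation ℚ ℂ ℂ →ₗ[ℂ] (X → ℂ) where
  toFun := fun δ i => δ (x i)
  map_add' := fun _ _ => rfl
  map_smul' := fun _ _ => rfl

theorem evD_apply {X : Type} (x : X → ℂ) (δ : Derivation ℚ ℂ ℂ) (i : X) : evD x δ i = δ (x i) :=
  rfl

/-- A number which is not algebraic over `T` has a derivation with value one which kills `T`. -/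
theorem exists_der_not_mem {T : Set ℂ} {z : ℂ} (hz : z ∉ acl T) :
    ∃ δ : Derivation ℚ ℂ ℂ, (∀ t ∈ acl T, δ t = 0) ∧ δ z = 1 := by
  have hc : IsAlgClosed (acl T) := isAlgClosed_acl T
  have h1 : Transcendental (acl T) z := by
    intro h
    obtain ⟨a, rfl⟩ := mem_of_isAlgebraic (K := acl T) z h
    exact hz a.2
  obtain ⟨D, hD⟩ := exists_der z h1
  refine ⟨D.restrictScalars ℚ, fun t ht => ?_, hD⟩
  exact D.map_algebraMap (⟨t, ht⟩ : acl T)

/-- If every derivation which kills `T` kills `z`, then `z` is algebraic over `T`. -/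
theorem mem_acl_of_der {T : Set ℂ} {z : ℂ}
    (h : ∀ δ : Derivation ℚ ℂ ℂ, (∀ t ∈ T, δ t = 0) → δ z = 0) : z ∈ acl T := by
  by_contra hz
  obtain ⟨δ, h1, h2⟩ := exists_der_not_mem hz
  have h3 := h δ fun t ht => h1 t (subset_acl T ht)
  rw [h2] at h3
  exact one_ne_zero h3

variable {X D W : Type} [Fintype X] [Fintype D] [AddCommGroup W] [Module ℂ W]

/-- The values on `d` are a linear function of the values on `x`. -/
theorem exists_factor (x : X → ℂ) (d : D → ℂ) (hd : AlgebraicIndependent ℚ d)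
    (hdx : ∀ i, d i ∈ acl (Set.range x)) :
    ∃ f : LinearMap.range (evD x) →ₗ[ℂ] (D → ℂ), Function.Surjective f ∧
      ∀ δ, f ⟨evD x δ, LinearMap.mem_range_self _ δ⟩ = evD d δ := by
  have hker : LinearMap.ker (evD x) ≤ LinearMap.ker (evD d) := by
    intro δ hδ
    rw [LinearMap.mem_ker] at hδ ⊢
    ext i
    refine derivation_acl δ (Set.range x) ?_ _ (hdx i)
    rintro _ ⟨j, rfl⟩
    exact congrFun hδ j
  let g : (Derivation ℚ ℂ ℂ ⧸ LinearMap.ker (evD x)) →ₗ[ℂ] (D → ℂ) :=
    (LinearMap.ker (evD x)).liftQ (evD d) hker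
  let e := (evD x).quotKerEquivRange
  have hfe : ∀ δ, (g ∘ₗ e.symm.toLinearMap) ⟨evD x δ, LinearMap.mem_range_self _ δ⟩ =
      evD d δ := by
    intro δ
    have h1 : (⟨evD x δ, LinearMap.mem_range_self _ δ⟩ : LinearMap.range (evD x)) =
        e (Submodule.Quotient.mk δ) := Subtype.ext (LinearMap.quotKerEquivRange_apply_mk _ _).symm
    rw [h1, LinearMap.comp_apply, LinearEquiv.coe_coe, LinearEquiv.symm_apply_apply]
    exact Submodule.liftQ_apply _ _ _
  refine ⟨g ∘ₗ e.symm.toLinearMap, ?_, hfe⟩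
  intro c
  obtain ⟨δ, hδ⟩ := exists_derivation d hd c
  exact ⟨⟨evD x δ, LinearMap.mem_range_self _ δ⟩, by rw [hfe]; exact funext hδ⟩

theorem card_le_finrank_range (x : X → ℂ) (d : D → ℂ) (hd : AlgebraicIndependent ℚ d)
    (hdx : ∀ i, d i ∈ acl (Set.range x)) :
    Fintype.card D ≤ finrank ℂ (LinearMap.range (evD x)) := by
  obtain ⟨f, hf, _⟩ := exists_factor x d hd hdx
  have h1 := LinearMap.finrank_le_finrank_of_surjective hf
  rwa [finrank_fintype_fun_eq_card] at h1

theorem finrank_ker_of_surj (Θ : (X → ℂ) →ₗ[ℂ] W) (hs : Function.Surjective Θ) :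
    finrank ℂ (LinearMap.ker Θ) + finrank ℂ W = Fintype.card X := by
  have h1 := Θ.finrank_range_add_finrank_ker
  rw [LinearMap.range_eq_top.mpr hs, finrank_top, finrank_fintype_fun_eq_card] at h1
  omega

/-- The dimension count. -/
theorem der_dim (x : X → ℂ) (d : D → ℂ) (hd : AlgebraicIndependent ℚ d)
    (hdx : ∀ i, d i ∈ acl (Set.range x)) (Θ : (X → ℂ) →ₗ[ℂ] W) (hs : Function.Surjective Θ)
    (h0 : ∀ δ : Derivation ℚ ℂ ℂ, Θ (fun i => δ (x i)) = 0) :
    Fintype.card D + finrank ℂ W ≤ Fintype.card X := by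
  have h1 := card_le_finrank_range x d hd hdx
  have h2 : LinearMap.range (evD x) ≤ LinearMap.ker Θ := by
    rintro _ ⟨δ, rfl⟩
    exact h0 δ
  have h3 := Submodule.finrank_mono h2
  have h4 := finrank_ker_of_surj Θ hs
  omega

/-- In the case of equality all solutions of the linear equations come from derivations. -/
theorem der_surj (x : X → ℂ) (d : D → ℂ) (hd : AlgebraicIndependent ℚ d)
    (hdx : ∀ i, d i ∈ acl (Set.range x)) (Θ : (X → ℂ) →ₗ[ℂ] W) (hs : Function.Surjective Θ)
    (h0 : ∀ δ : Derivation ℚ ℂ ℂ, Θ (fun i => δ (x i)) = 0)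
    (hc : Fintype.card X ≤ Fintype.card D + finrank ℂ W) (w : X → ℂ) (hw : Θ w = 0) :
    ∃ δ : Derivation ℚ ℂ ℂ, ∀ i, δ (x i) = w i := by
  have h1 := card_le_finrank_range x d hd hdx
  have h2 : LinearMap.range (evD x) ≤ LinearMap.ker Θ := by
    rintro _ ⟨δ, rfl⟩
    exact h0 δ
  have h4 := finrank_ker_of_surj Θ hs
  have h5 : LinearMap.range (evD x) = LinearMap.ker Θ :=
    Submodule.eq_of_le_of_finrank_le h2 (by omega)
  have h6 : w ∈ LinearMap.range (evD x) := by
    rw [h5]
    exact hw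
  obtain ⟨δ, hδ⟩ := h6
  exact ⟨δ, fun i => congrFun hδ i⟩

/-- In the case of equality a derivation which kills `d` kills `x`. -/
theorem der_inj (x : X → ℂ) (d : D → ℂ) (hd : AlgebraicIndependent ℚ d)
    (hdx : ∀ i, d i ∈ acl (Set.range x)) (Θ : (X → ℂ) →ₗ[ℂ] W) (hs : Function.Surjective Θ)
    (h0 : ∀ δ : Derivation ℚ ℂ ℂ, Θ (fun i => δ (x i)) = 0)
    (hc : Fintype.card X ≤ Fintype.card D + finrank ℂ W) (δ : Derivation ℚ ℂ ℂ)
    (hδ : ∀ i, δ (d i) = 0) (i : X) : δ (x i) = 0 := by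
  obtain ⟨f, hf, hfe⟩ := exists_factor x d hd hdx
  have h2 : LinearMap.range (evD x) ≤ LinearMap.ker Θ := by
    rintro _ ⟨δ, rfl⟩
    exact h0 δ
  have h3 := Submodule.finrank_mono h2
  have h4 := finrank_ker_of_surj Θ hs
  have h5 : finrank ℂ (LinearMap.range (evD x)) = finrank ℂ (D → ℂ) := by
    rw [finrank_fintype_fun_eq_card]
    have h1 := card_le_finrank_range x d hd hdx
    omega
  have h6 : Function.Injective f := (LinearMap.injective_iff_surjective_of_finrank_eq_finrank h5).2 hf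
  have h7 : f ⟨evD x δ, LinearMap.mem_range_self _ δ⟩ = f 0 := by
    rw [hfe, map_zero]
    exact funext hδ
  have h8 := congrArg Subtype.val (h6 h7)
  exact congrFun h8 i

/-- In the case of equality the numbers `x` are algebraic over the numbers `d`. -/
theorem der_acl (x : X → ℂ) (d : D → ℂ) (hd : AlgebraicIndependent ℚ d)
    (hdx : ∀ i, d i ∈ acl (Set.range x)) (Θ : (X → ℂ) →ₗ[ℂ] W) (hs : Function.Surjective Θ)
    (h0 : ∀ δ : Derivation ℚ ℂ ℂ, Θ (fun i => δ (x i)) = 0)
    (hc : Fintype.card X ≤ Fintype.card D + finrank ℂ W) (i : X) :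
    x i ∈ acl (Set.range d) := by
  refine mem_acl_of_der fun δ hδ => ?_
  exact der_inj x d hd hdx Θ hs h0 hc δ (fun j => hδ _ ⟨j, rfl⟩) i

/-- In the case of equality the linear equations together with the differential of the functions
`d` have only the solution zero. -/
theorem der_nondeg (x : X → ℂ) (d : D → ℂ) (hd : AlgebraicIndependent ℚ d)
    (hdx : ∀ i, d i ∈ acl (Set.range x)) (Θ : (X → ℂ) →ₗ[ℂ] W) (hs : Function.Surjective Θ)
    (h0 : ∀ δ : Derivation ℚ ℂ ℂ, Θ (fun i => δ (x i)) = 0)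
    (hc : Fintype.card X ≤ Fintype.card D + finrank ℂ W) (L : (X → ℂ) → (D → ℂ))
    (hL : ∀ (δ : Derivation ℚ ℂ ℂ) (i : D), L (fun j => δ (x j)) i = δ (d i)) (w : X → ℂ)
    (hw : Θ w = 0) (hLw : L w = 0) : w = 0 := by
  obtain ⟨δ, hδ⟩ := der_surj x d hd hdx Θ hs h0 hc w hw
  have h1 : (fun j => δ (x j)) = w := funext hδ
  ext i
  rw [← hδ i]
  refine der_inj x d hd hdx Θ hs h0 hc δ (fun j => ?_) i
  rw [← hL δ j, h1, hLw]
  rfl

end Pool.EU
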