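import Pool.Agent.EU.Defs
import Pool.Agent.EU.Aut
import Pool.Agent.EC.Fun

/-!
# Finiteness of the set of critical points
-/

set_option autoImplicit false
set_option linter.unusedSectionVars false

namespace Pool.EU

open MvPolynomial Pool.ML

variable {ι κ : Type} [Fintype ι] [Fintype κ] [DecidableEq ι] [DecidableEq κ]

theorem cons_crit (f : κ → MvPolynomial ι ℂ) (v : ι → ℂ) (t : κ → ℂ) : EC.Cons (Crit f v t) := by
  have h1 : Crit f v t = (⋂ i, {x | eval x (X i : MvPolynomial ι ℂ) ≠ 0}) ∩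
      ((⋂ j, {x | eval x (f j) ≠ 0}) ∩ ⋂ i, {x | eval x (GG f v t i) = 0}) := by
    ext x
    rw [mem_crit_iff]
    simp only [Set.mem_inter_iff, Set.mem_iInter, Set.mem_ofPred_eq, eval_X]
  rw [h1]
  exact (EC.Cons.iInter fun i => EC.Cons.ne _).inter
    ((EC.Cons.iInter fun j => EC.Cons.ne _).inter (EC.Cons.iInter fun i => EC.Cons.zero _))

/-- The coordinates of the points of a constructible set are finite in number if they lie in a
countable set. -/
theorem finite_coord {S : Set (ι → ℂ)} (hS : EC.Cons S) (i : ι) (A : Set ℂ) (hA : A.Countable)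
    (h : ∀ x ∈ S, x i ∈ A) : ((fun x : ι → ℂ => x i) '' S).Finite := by
  let W : Set ((Empty ⊕ Fin 1) ⊕ ι → ℂ) := {w | w ∘ Sum.inr ∈ S} ∩
    {w | w (Sum.inl (Sum.inr 0)) = w (Sum.inr i)}
  have hW : EC.Cons W := (hS.reindex Sum.inr).inter (EC.Cons.eq_coord _ _)
  obtain ⟨B, hB⟩ := hW.proj.bound
  obtain ⟨F, -, hF⟩ := hB (fun e => e.elim)
  have hsub : ∀ z, z ∈ EC.fib {y : Empty ⊕ Fin 1 → ℂ | ∃ z : ι → ℂ, Sum.elim y z ∈ W}
      (fun e => e.elim) → z ∈ A := by
    rintro z ⟨x, hx1, hx2⟩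
    have h1 : z = x i := hx2
    rw [h1]
    exact h x hx1
  have hnot : ∀ z, z ∉ F → z ∉ EC.fib {y : Empty ⊕ Fin 1 → ℂ | ∃ z : ι → ℂ, Sum.elim y z ∈ W}
      (fun e => e.elim) := by
    intro z hz hz2
    have h1 : (F : Set ℂ)ᶜ ⊆ A := fun z' hz' => hsub z' ((hF z hz z' hz').mp hz2)
    have h2 : (Set.univ : Set ℂ).Countable := by
      have h3 : (Set.univ : Set ℂ) ⊆ (F : Set ℂ) ∪ A := by
        intro z' _
        by_cases h4 : z' ∈ (F : Set ℂ)
        · exact Or.inl h4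
        · exact Or.inr (h1 h4)
      exact ((F.finite_toSet.countable).union hA).mono h3
    exact not_countable_complex h2
  refine F.finite_toSet.subset ?_
  rintro _ ⟨x, hx, rfl⟩
  by_contra hc
  exact hnot (x i) hc ⟨x, hx, rfl⟩

theorem crit_finite (f : κ → MvPolynomial ι ℂ) (v : ι → ℂ) (t : κ → ℂ) (T : Set ℂ)
    (hT : T.Countable) (h : ∀ x ∈ Crit f v t, ∀ i, x i ∈ acl T) : (Crit f v t).Finite := by
  have h1 : ∀ i, ((fun x : ι → ℂ => x i) '' Crit f v t).Finite := fun i =>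
    finite_coord (cons_crit f v t) i (acl T) (countable_acl hT) fun x hx => h x hx i
  refine (Set.Finite.pi' h1).subset ?_
  intro x hx i
  exact ⟨x, hx, rfl⟩

end Pool.EU
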