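import Pool.Agent.EU.Defs
import Pool.Agent.EU.Cl

/-!
# Generic exponents: the critical points are generic and non-degenerate
-/

set_option autoImplicit false
set_option linter.unusedSectionVars false

namespace Pool.EU

open MvPolynomial

variable {ι κ : Type} [Fintype ι] [Fintype κ] [DecidableEq ι] [DecidableEq κ]

section der

variable {k Ω : Type} [Field k] [Field Ω] [Algebra k Ω]

/-- `D` differentiates `p(x)` as if the coefficients were constants. -/
def Good (D : Derivation k Ω Ω) (x : ι → Ω) (p : MvPolynomial ι Ω) : Prop :=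
  D (eval x p) = ∑ l, D (x l) * eval x (pderiv l p)

variable {D : Derivation k Ω Ω} {x : ι → Ω}

theorem Good.add {p q : MvPolynomial ι Ω} (hp : Good D x p) (hq : Good D x q) :
    Good D x (p + q) := by
  rw [Good] at *
  simp only [map_add, hp, hq, mul_add, Finset.sum_add_distrib]

theorem Good.mul {p q : MvPolynomial ι Ω} (hp : Good D x p) (hq : Good D x q) :
    Good D x (p * q) := by
  rw [Good] at *
  simp only [map_mul, Derivation.leibniz, hp, hq, map_add, smul_eq_mul, mul_add,
    Finset.sum_add_distrib, Finset.mul_sum]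
  congr 1 <;> refine Finset.sum_congr rfl fun l _ => by ring

theorem good_C {a : Ω} (ha : D a = 0) : Good D x (C a) := by
  simp [Good, ha]

theorem good_X (i : ι) : Good D x (X i) := by
  rw [Good, eval_X, Finset.sum_eq_single i]
  · simp
  · intro l _ hl
    rw [pderiv_X_of_ne (Ne.symm hl), map_zero, mul_zero]
  · intro h
    exact absurd (Finset.mem_univ i) h

theorem good_sum {α : Type} (s : Finset α) (p : α → MvPolynomial ι Ω)
    (h : ∀ a ∈ s, Good D x (p a)) : Good D x (∑ a ∈ s, p a) := by
  classical
  induction s using Finset.induction_on with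
  | empty => simpa using good_C (D := D) (x := x) (map_zero D)
  | insert a s ha ih =>
    rw [Finset.sum_insert ha]
    exact (h a (Finset.mem_insert_self a s)).add
      (ih fun b hb => h b (Finset.mem_insert_of_mem hb))

theorem good_prod {α : Type} (s : Finset α) (p : α → MvPolynomial ι Ω)
    (h : ∀ a ∈ s, Good D x (p a)) : Good D x (∏ a ∈ s, p a) := by
  classical
  induction s using Finset.induction_on with
  | empty => simpa using good_C (D := D) (x := x) D.map_one_eq_zero
  | insert a s ha ih =>
    rw [Finset.prod_insert ha]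
    exact (h a (Finset.mem_insert_self a s)).mul
      (ih fun b hb => h b (Finset.mem_insert_of_mem hb))

theorem good_map (p : MvPolynomial ι k) : Good D x (MvPolynomial.map (algebraMap k Ω) p) := by
  induction p using MvPolynomial.induction_on with
  | C a =>
    rw [map_C]
    exact good_C (D.map_algebraMap a)
  | add p q hp hq =>
    rw [map_add]
    exact hp.add hq
  | mul_X p i hp =>
    rw [map_mul, map_X]
    exact hp.mul (good_X i)

end der

theorem aeval_mem {k Ω : Type} [Field k] [Field Ω] [Algebra k Ω] (F : IntermediateField k Ω)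
    (x : ι → Ω) (hx : ∀ i, x i ∈ F) (p : MvPolynomial ι k) :
    eval x (MvPolynomial.map (algebraMap k Ω) p) ∈ F := by
  induction p using MvPolynomial.induction_on with
  | C a =>
    rw [map_C, eval_C]
    exact F.algebraMap_mem a
  | add p q hp hq =>
    rw [map_add, map_add]
    exact F.add_mem hp hq
  | mul_X p i hp =>
    rw [map_mul, map_mul, map_X, eval_X]
    exact F.mul_mem hp (hx i)

section generic

variable {k Ω : Type} [Field k] [Field Ω] [Algebra k Ω]

theorem v_mem_cl (f : κ → MvPolynomial ι k) (v : ι → Ω) (t : κ → Ω) (x : ι → Ω)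
    (hx : x ∈ Crit (fun j => MvPolynomial.map (algebraMap k Ω) (f j)) v t) (i : ι) :
    v i ∈ cl k (Set.range (Sum.elim x t)) := by
  have h1 := hx.2.2 i
  have h2 : v i = -∑ j, t j * (x i * eval x (pderiv i (MvPolynomial.map (algebraMap k Ω) (f j))) /
      eval x (MvPolynomial.map (algebraMap k Ω) (f j))) := eq_neg_of_add_eq_zero_left h1
  have hxm : ∀ i, x i ∈ cl k (Set.range (Sum.elim x t)) := fun i =>
    subset_cl _ ⟨Sum.inl i, rfl⟩
  have htm : ∀ j, t j ∈ cl k (Set.range (Sum.elim x t)) := fun j =>
    subset_cl _ ⟨Sum.inr j, rfl⟩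
  rw [h2]
  apply IntermediateField.neg_mem
  apply IntermediateField.sum_mem
  intro j _
  refine IntermediateField.mul_mem _ (htm j) (IntermediateField.div_mem _
    (IntermediateField.mul_mem _ (hxm i) ?_) ?_)
  · rw [pderiv_map]
    exact aeval_mem _ x hxm _
  · exact aeval_mem _ x hxm _

/-- The critical points for generic exponents are generic points. -/
theorem generic_point (f : κ → MvPolynomial ι k) (v : ι → Ω) (t : κ → Ω)
    (h : AlgebraicIndependent k (Sum.elim v t)) (x : ι → Ω)
    (hx : x ∈ Crit (fun j => MvPolynomial.map (algebraMap k Ω) (f j)) v t) :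
    AlgebraicIndependent k (Sum.elim x t) ∧ ∀ i, x i ∈ cl k (Set.range (Sum.elim v t)) := by
  obtain ⟨h1, h2⟩ := algInd_of_cl (Sum.elim v t) (Sum.elim x t) h (by
    rintro (i | j)
    · exact v_mem_cl f v t x hx i
    · exact subset_cl _ ⟨Sum.inr j, rfl⟩) le_rfl
  exact ⟨h1, fun i => h2 (Sum.inl i)⟩

/-- The critical points for generic exponents are non-degenerate. -/
theorem det_Jac_ne_zero [CharZero k] (f : κ → MvPolynomial ι k) (v : ι → Ω) (t : κ → Ω)
    (h : AlgebraicIndependent k (Sum.elim v t)) (x : ι → Ω)
    (hx : x ∈ Crit (fun j => MvPolynomial.map (algebraMap k Ω) (f j)) v t) :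
    (Jac (fun j => MvPolynomial.map (algebraMap k Ω) (f j)) v t x).det ≠ 0 := by
  intro hdet
  obtain ⟨y, hy0, hy⟩ := Matrix.exists_mulVec_eq_zero_iff.mpr hdet
  obtain ⟨hxt, hxm⟩ := generic_point f v t h x hx
  obtain ⟨D, hD⟩ := exists_der_family (Sum.elim x t) hxt (Sum.elim y fun _ => 0)
  have hDx : ∀ i, D (x i) = y i := fun i => hD (Sum.inl i)
  have hDt : ∀ j, D (t j) = 0 := fun j => hD (Sum.inr j)
  have hx' := (mem_crit_iff _ v t x).mp hx
  have hDv : ∀ i, D (v i) = 0 := by
    intro i
    set F : κ → MvPolynomial ι Ω := fun j => MvPolynomial.map (algebraMap k Ω) (f j) with hF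
    set A : MvPolynomial ι Ω := ∏ j, F j with hA
    set B : MvPolynomial ι Ω := ∑ j, C (t j) * (X i * pderiv i (F j)) *
      ∏ j' ∈ Finset.univ.erase j, F j' with hB
    have hAg : Good D x A := good_prod _ _ fun j _ => good_map (f j)
    have hBg : Good D x B := by
      refine good_sum _ _ fun j _ => ?_
      refine ((good_C (hDt j)).mul ((good_X i).mul ?_)).mul (good_prod _ _ fun j' _ =>
        good_map (f j'))
      rw [hF]
      simp only [pderiv_map]
      exact good_map _
    have hGG : GG F v t i = C (v i) * A + B := rfl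
    have h1 := hx'.2.2 i
    rw [hGG, map_add, map_mul, eval_C] at h1
    have h2 := congrArg D h1
    rw [map_add, Derivation.leibniz, hAg, hBg, map_zero] at h2
    have h3 := congrFun hy i
    rw [Matrix.mulVec, dotProduct] at h3
    have h4 : ∑ l, Jac F v t x i l * y l = v i * (∑ l, D (x l) * eval x (pderiv l A)) +
        ∑ l, D (x l) * eval x (pderiv l B) := by
      rw [Finset.mul_sum, ← Finset.sum_add_distrib]
      refine Finset.sum_congr rfl fun l _ => ?_
      rw [Jac, Matrix.of_apply, hGG, map_add, Derivation.leibniz, pderiv_C, smul_zero, add_zero,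
        smul_eq_mul, map_add, map_mul, eval_C, hDx]
      ring
    rw [Pi.zero_apply, h4] at h3
    rw [smul_eq_mul, smul_eq_mul] at h2
    have h5 : eval x A * D (v i) = 0 := by linear_combination h2 - h3
    rcases mul_eq_zero.mp h5 with h6 | h6
    · exfalso
      rw [hA, map_prod] at h6
      exact Finset.prod_ne_zero_iff.mpr (fun j _ => hx'.2.1 j) h6
    · exact h6
  apply hy0
  funext i
  rw [← hDx i]
  refine der_cl D _ ?_ (x i) (hxm i)
  rintro _ ⟨a, rfl⟩
  rcases a with i | j
  · exact hDv i
  · exact hDt j

end generic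

end Pool.EU
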