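import Mathlib

/-!
# Hensel's lemma in several variables over the power series
-/

set_option autoImplicit false

namespace Pool.EU

open MvPolynomial

section taylor

variable {R : Type*} [CommRing R] {ι : Type*} [Fintype ι] [DecidableEq ι]

/-- First order Taylor expansion of a polynomial. -/
theorem taylor_mv (P : MvPolynomial ι R) (x z : ι → R) (t : R) :
    ∃ E, eval (fun i => x i + t * z i) P =
      eval x P + t * (∑ j, eval x (pderiv j P) * z j) + t ^ 2 * E := by
  induction P using MvPolynomial.induction_on with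
  | C a => exact ⟨0, by simp⟩
  | add P Q hP hQ =>
    obtain ⟨E, hE⟩ := hP
    obtain ⟨E', hE'⟩ := hQ
    refine ⟨E + E', ?_⟩
    simp only [map_add, hE, hE', add_mul, Finset.sum_add_distrib]
    ring
  | mul_X P l hP =>
    obtain ⟨E, hE⟩ := hP
    set B := ∑ j, eval x (pderiv j P) * z j with hB
    refine ⟨E * x l + B * z l + t * E * z l, ?_⟩
    have h1 : ∑ j, eval x (pderiv j (P * X l)) * z j = B * x l + eval x P * z l := by
      have h2 : ∀ j, eval x (pderiv j (P * X l)) * z j =
          eval x (pderiv j P) * z j * x l + (if j = l then eval x P * z j else 0) := by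
        intro j
        rw [Derivation.leibniz, pderiv_X]
        by_cases hj : j = l
        · subst hj
          simp [Pi.single_eq_same]
          ring
        · rw [Pi.single_eq_of_ne' hj, if_neg hj]
          simp
          ring
      rw [Finset.sum_congr rfl fun j _ => h2 j, Finset.sum_add_distrib, ← Finset.sum_mul,
        Finset.sum_ite_eq' Finset.univ l, if_pos (Finset.mem_univ _)]
    rw [h1, map_mul, map_mul, eval_X, eval_X, hE]
    ring

end taylor

variable {K : Type*} [Field K] {ι : Type*}

/-- The constant coefficient of a value. -/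
theorem constantCoeff_eval (P : MvPolynomial ι (PowerSeries K)) (x : ι → PowerSeries K) :
    PowerSeries.constantCoeff (eval x P) =
      eval₂ (PowerSeries.constantCoeff (R := K)) (fun i => PowerSeries.constantCoeff (x i)) P := by
  rw [eval, coe_eval₂Hom, eval₂_comp_left]
  rfl

variable [Fintype ι] [DecidableEq ι]

/-- The Jacobian matrix of the reduced system at a point. -/
noncomputable def jac0 (F : ι → MvPolynomial ι (PowerSeries K)) (ξ : ι → K) : Matrix ι ι K :=
  Matrix.of fun i j => eval₂ (PowerSeries.constantCoeff (R := K)) ξ (pderiv j (F i))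

omit [DecidableEq ι] in
/-- The constant coefficient of the linear term. -/
theorem constantCoeff_lin (F : ι → MvPolynomial ι (PowerSeries K)) {ξ : ι → K}
    {x : ι → PowerSeries K} (hx : ∀ i, PowerSeries.constantCoeff (x i) = ξ i)
    (z : ι → PowerSeries K) (i : ι) :
    PowerSeries.constantCoeff (∑ j, eval x (pderiv j (F i)) * z j) =
      (jac0 F ξ).mulVec (fun j => PowerSeries.constantCoeff (z j)) i := by
  rw [map_sum, Matrix.mulVec, dotProduct]
  refine Finset.sum_congr rfl fun j _ => ?_
  rw [map_mul, constantCoeff_eval, jac0, Matrix.of_apply]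
  simp only [hx]

/-- The successive approximations. -/
theorem exists_approx (F : ι → MvPolynomial ι (PowerSeries K)) (ξ : ι → K)
    (h0 : ∀ i, eval₂ (PowerSeries.constantCoeff (R := K)) ξ (F i) = 0)
    (hJ : (jac0 F ξ).det ≠ 0) :
    ∃ x : ℕ → ι → PowerSeries K, (∀ i, PowerSeries.constantCoeff (x 0 i) = ξ i) ∧
      (∀ n i, PowerSeries.constantCoeff (x n i) = ξ i) ∧
      (∀ n i, (PowerSeries.X : PowerSeries K) ^ (n + 1) ∣ eval (x n) (F i)) ∧
      ∀ n i, (PowerSeries.X : PowerSeries K) ^ (n + 1) ∣ x (n + 1) i - x n i := by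
  classical
  have hunit : IsUnit (jac0 F ξ).det := isUnit_iff_ne_zero.2 hJ
  let A : ℕ → Type _ := fun n => {x : ι → PowerSeries K //
    (∀ i, PowerSeries.constantCoeff (x i) = ξ i) ∧
      ∀ i, (PowerSeries.X : PowerSeries K) ^ (n + 1) ∣ eval x (F i)}
  have step : ∀ n (x : A n), ∃ y : A (n + 1),
      ∀ i, (PowerSeries.X : PowerSeries K) ^ (n + 1) ∣ y.1 i - x.1 i := by
    intro n ⟨x, hx1, hx2⟩
    have hx3 := hx2
    choose g hg using hx3
    set w : ι → K := (jac0 F ξ)⁻¹.mulVec (fun i => -PowerSeries.constantCoeff (g i)) with hw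
    have hJw : ∀ i, (jac0 F ξ).mulVec w i = -PowerSeries.constantCoeff (g i) := by
      intro i
      rw [hw, Matrix.mulVec_mulVec, Matrix.mul_nonsing_inv _ hunit, Matrix.one_mulVec]
    set z : ι → PowerSeries K := fun i => PowerSeries.C (w i) with hz
    have hzc : (fun j => PowerSeries.constantCoeff (z j)) = w := by
      ext j
      simp [hz]
    refine ⟨⟨fun i => x i + PowerSeries.X ^ (n + 1) * z i, ?_, ?_⟩, ?_⟩
    · intro i
      rw [map_add, map_mul, map_pow, PowerSeries.constantCoeff_X, zero_pow (Nat.succ_ne_zero n),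
        zero_mul, add_zero, hx1]
    · intro i
      obtain ⟨E, hE⟩ := taylor_mv (F i) x z (PowerSeries.X ^ (n + 1))
      rw [hE, hg i]
      have h1 : PowerSeries.constantCoeff (g i + (∑ j, eval x (pderiv j (F i)) * z j) +
          PowerSeries.X ^ (n + 1) * E) = 0 := by
        rw [map_add, map_add, constantCoeff_lin F hx1 z i, hzc, hJw i, map_mul, map_pow,
          PowerSeries.constantCoeff_X, zero_pow (Nat.succ_ne_zero n), zero_mul]
        ring
      obtain ⟨q, hq⟩ := PowerSeries.X_dvd_iff.2 h1
      refine ⟨q, ?_⟩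
      have h2 : (PowerSeries.X : PowerSeries K) ^ (n + 1) * g i +
          PowerSeries.X ^ (n + 1) * (∑ j, eval x (pderiv j (F i)) * z j) +
          (PowerSeries.X ^ (n + 1)) ^ 2 * E = PowerSeries.X ^ (n + 1) *
          (g i + (∑ j, eval x (pderiv j (F i)) * z j) + PowerSeries.X ^ (n + 1) * E) := by ring
      rw [h2, hq, ← mul_assoc, ← pow_succ]
    · intro i
      refine ⟨z i, ?_⟩
      simp
  have base : A 0 := ⟨fun i => PowerSeries.C (ξ i), fun i => by simp, fun i => by
    rw [zero_add, pow_one, PowerSeries.X_dvd_iff, constantCoeff_eval]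
    simpa using h0 i⟩
  choose nxt hnxt using step
  let s : ∀ n, A n := fun n => Nat.rec base (fun n x => nxt n x) n
  refine ⟨fun n => (s n).1, (s 0).2.1, fun n => (s n).2.1, fun n => (s n).2.2, fun n i => ?_⟩
  exact hnxt n (s n) i

omit [Fintype ι] [DecidableEq ι] in
/-- Two points which are congruent have congruent values. -/
theorem dvd_eval_sub {R : Type*} [CommRing R] (P : MvPolynomial ι R) (t : R) (x y : ι → R)
    (h : ∀ i, t ∣ x i - y i) : t ∣ eval x P - eval y P := by
  induction P using MvPolynomial.induction_on with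
  | C a => simp
  | add P Q hP hQ =>
    rw [map_add, map_add]
    have : eval x P + eval x Q - (eval y P + eval y Q) =
        (eval x P - eval y P) + (eval x Q - eval y Q) := by ring
    rw [this]
    exact dvd_add hP hQ
  | mul_X P l hP =>
    rw [map_mul, map_mul, eval_X, eval_X]
    have : eval x P * x l - eval y P * y l =
        (eval x P - eval y P) * x l + eval y P * (x l - y l) := by ring
    rw [this]
    exact dvd_add (hP.mul_right _) ((h l).mul_left _)

/-- A power series divisible by all powers of the variable is zero. -/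
theorem eq_zero_of_dvd (f : PowerSeries K)
    (h : ∀ n : ℕ, (PowerSeries.X : PowerSeries K) ^ (n + 1) ∣ f) : f = 0 := by
  ext n
  rw [PowerSeries.X_pow_dvd_iff.1 (h n) n (Nat.lt_succ_self n), map_zero]

/-- **Hensel's lemma in several variables.** -/
theorem hensel_multi (F : ι → MvPolynomial ι (PowerSeries K)) (ξ : ι → K)
    (h0 : ∀ i, eval₂ (PowerSeries.constantCoeff (R := K)) ξ (F i) = 0)
    (hJ : (Matrix.of fun i j => eval₂ (PowerSeries.constantCoeff (R := K)) ξ
      (pderiv j (F i))).det ≠ 0) :
    ∃! x : ι → PowerSeries K, (∀ i, PowerSeries.constantCoeff (x i) = ξ i) ∧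
      ∀ i, eval x (F i) = 0 := by
  classical
  have hJ' : (jac0 F ξ).det ≠ 0 := hJ
  obtain ⟨s, -, hs1, hs2, hs3⟩ := exists_approx F ξ h0 hJ'
  -- the limit
  let x : ι → PowerSeries K := fun i => PowerSeries.mk fun n => PowerSeries.coeff n (s n i)
  have hst : ∀ n k i, (PowerSeries.X : PowerSeries K) ^ (n + 1) ∣ s (n + k) i - s n i := by
    intro n k i
    induction k with
    | zero => simp
    | succ k ih =>
      have h1 := hs3 (n + k) i
      have h2 : (PowerSeries.X : PowerSeries K) ^ (n + 1) ∣ s (n + (k + 1)) i - s (n + k) i :=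
        (pow_dvd_pow _ (by omega)).trans h1
      have h3 : s (n + (k + 1)) i - s n i = (s (n + (k + 1)) i - s (n + k) i) +
          (s (n + k) i - s n i) := by ring
      rw [h3]
      exact dvd_add h2 ih
  have hx : ∀ n i, (PowerSeries.X : PowerSeries K) ^ (n + 1) ∣ x i - s n i := by
    intro n i
    rw [PowerSeries.X_pow_dvd_iff]
    intro m hm
    obtain ⟨k, rfl⟩ : ∃ k, n = m + k := ⟨n - m, by omega⟩
    have h1 := PowerSeries.X_pow_dvd_iff.1 (hst m k i) m (Nat.lt_succ_self m)
    rw [map_sub] at h1 ⊢
    rw [PowerSeries.coeff_mk, ← neg_sub, h1, neg_zero]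
  refine ⟨x, ⟨fun i => ?_, fun i => ?_⟩, ?_⟩
  · have h1 := hx 0 i
    rw [zero_add, pow_one, PowerSeries.X_dvd_iff, map_sub, hs1 0 i] at h1
    exact sub_eq_zero.1 h1
  · refine eq_zero_of_dvd _ fun n => ?_
    have h1 := dvd_eval_sub (F i) _ x (s n) (hx n)
    have h2 : eval x (F i) = (eval x (F i) - eval (s n) (F i)) + eval (s n) (F i) := by ring
    rw [h2]
    exact dvd_add h1 (hs2 n i)
  · rintro y ⟨hy1, hy2⟩
    have hxc : ∀ i, PowerSeries.constantCoeff (x i) = ξ i := by
      intro i
      have h1 := hx 0 i
      rw [zero_add, pow_one, PowerSeries.X_dvd_iff, map_sub, hs1 0 i] at h1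
      exact sub_eq_zero.1 h1
    have hx0 : ∀ i, eval x (F i) = 0 := by
      intro i
      refine eq_zero_of_dvd _ fun n => ?_
      have h1 := dvd_eval_sub (F i) _ x (s n) (hx n)
      have h2 : eval x (F i) = (eval x (F i) - eval (s n) (F i)) + eval (s n) (F i) := by ring
      rw [h2]
      exact dvd_add h1 (hs2 n i)
    have key : ∀ n i, (PowerSeries.X : PowerSeries K) ^ (n + 1) ∣ y i - x i := by
      intro n
      induction n with
      | zero =>
        intro i
        rw [zero_add, pow_one, PowerSeries.X_dvd_iff, map_sub, hy1, hxc, sub_self]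
      | succ n ih =>
        choose z hz using ih
        have hyx : y = fun i => x i + PowerSeries.X ^ (n + 1) * z i := by
          ext1 i
          rw [← hz i]
          ring
        have h1 : ∀ i, (jac0 F ξ).mulVec (fun j => PowerSeries.constantCoeff (z j)) i = 0 := by
          intro i
          obtain ⟨E, hE⟩ := taylor_mv (F i) x z (PowerSeries.X ^ (n + 1))
          rw [← hyx, hy2 i, hx0 i, zero_add] at hE
          have h2 : (PowerSeries.X : PowerSeries K) ^ (n + 1) *
              ((∑ j, eval x (pderiv j (F i)) * z j) + PowerSeries.X ^ (n + 1) * E) = 0 := by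
            rw [hE]
            ring
          have h3 := (mul_eq_zero.1 h2).resolve_left (pow_ne_zero _ PowerSeries.X_ne_zero)
          have h4 := congrArg (PowerSeries.constantCoeff (R := K)) h3
          rw [map_add, constantCoeff_lin F hxc z i, map_mul, map_pow,
            PowerSeries.constantCoeff_X, zero_pow (Nat.succ_ne_zero n), zero_mul, add_zero,
            map_zero] at h4
          exact h4
        have h5 : (fun j => PowerSeries.constantCoeff (z j)) = 0 := by
          by_contra hne
          exact hJ' (Matrix.exists_mulVec_eq_zero_iff.1 ⟨_, hne, funext h1⟩)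
        intro i
        have h6 : PowerSeries.constantCoeff (z i) = 0 := congrFun h5 i
        obtain ⟨z', hz'⟩ := PowerSeries.X_dvd_iff.2 h6
        exact ⟨z', by rw [hz i, hz', ← mul_assoc, ← pow_succ]⟩
    ext1 i
    exact sub_eq_zero.1 (eq_zero_of_dvd _ fun n => key n i)

end Pool.EU
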