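import Pool.Agent.EU.Hensel

/-!
# Hensel's lemma for maps with a Taylor expansion

The unknowns and the equations may be indexed by different types; the map is given by any formula
(for instance by matrix products), only its first order Taylor expansion is used.
-/

set_option autoImplicit false

namespace Pool.EU

open PowerSeries (X)

variable {K : Type*} [Field K] {V E : Type*}

/-- The data of a square system over the power series near the point `ξ` of its reduction. -/
structure HSys (Φ : (V → PowerSeries K) → (E → PowerSeries K))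
    (dΦ : (V → PowerSeries K) → (V → PowerSeries K) → (E → PowerSeries K))
    (J : (V → K) →ₗ[K] (E → K)) (ξ : V → K) : Prop where
  taylor : ∀ x z : V → PowerSeries K, ∀ n : ℕ, ∃ e : E → PowerSeries K, ∀ j,
    Φ (fun i => x i + X ^ n * z i) j = Φ x j + X ^ n * dΦ x z j + X ^ (2 * n) * e j
  lin : ∀ x z : V → PowerSeries K, (∀ i, PowerSeries.constantCoeff (x i) = ξ i) → ∀ j,
    PowerSeries.constantCoeff (dΦ x z j) = J (fun i => PowerSeries.constantCoeff (z i)) j
  zero : ∀ x : V → PowerSeries K, (∀ i, PowerSeries.constantCoeff (x i) = ξ i) → ∀ j,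
    PowerSeries.constantCoeff (Φ x j) = 0

variable {Φ : (V → PowerSeries K) → (E → PowerSeries K)}
  {dΦ : (V → PowerSeries K) → (V → PowerSeries K) → (E → PowerSeries K)}
  {J : (V → K) →ₗ[K] (E → K)} {ξ : V → K}

theorem HSys.dvd_sub (h : HSys Φ dΦ J ξ) {x y : V → PowerSeries K} {n : ℕ}
    (hxy : ∀ i, (X : PowerSeries K) ^ n ∣ x i - y i) (j : E) :
    (X : PowerSeries K) ^ n ∣ Φ x j - Φ y j := by
  choose z hz using hxy
  obtain ⟨e, he⟩ := h.taylor y z n
  have h1 : x = fun i => y i + X ^ n * z i := by
    ext1 i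
    rw [← hz i]
    ring
  rw [h1, he j]
  refine ⟨dΦ y z j + X ^ n * e j, ?_⟩
  rw [two_mul, pow_add]
  ring

/-- The successive approximations. -/
theorem HSys.exists_approx (h : HSys Φ dΦ J ξ) (hs : Function.Surjective J) :
    ∃ x : ℕ → V → PowerSeries K,
      (∀ n i, PowerSeries.constantCoeff (x n i) = ξ i) ∧
      (∀ n j, (X : PowerSeries K) ^ (n + 1) ∣ Φ (x n) j) ∧
      ∀ n i, (X : PowerSeries K) ^ (n + 1) ∣ x (n + 1) i - x n i := by
  classical
  let A : ℕ → Type _ := fun n => {x : V → PowerSeries K //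
    (∀ i, PowerSeries.constantCoeff (x i) = ξ i) ∧
      ∀ j, (X : PowerSeries K) ^ (n + 1) ∣ Φ x j}
  have step : ∀ n (x : A n), ∃ y : A (n + 1),
      ∀ i, (X : PowerSeries K) ^ (n + 1) ∣ y.1 i - x.1 i := by
    intro n ⟨x, hx1, hx2⟩
    have hx3 := hx2
    choose g hg using hx3
    obtain ⟨w, hw⟩ := hs (fun j => -PowerSeries.constantCoeff (g j))
    set z : V → PowerSeries K := fun i => PowerSeries.C (w i) with hz
    have hzc : (fun i => PowerSeries.constantCoeff (z i)) = w := by
      ext i
      simp [hz]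
    refine ⟨⟨fun i => x i + X ^ (n + 1) * z i, ?_, ?_⟩, ?_⟩
    · intro i
      rw [map_add, map_mul, map_pow, PowerSeries.constantCoeff_X, zero_pow (Nat.succ_ne_zero n),
        zero_mul, add_zero, hx1]
    · intro j
      obtain ⟨e, he⟩ := h.taylor x z (n + 1)
      rw [he j, hg j]
      have h1 : PowerSeries.constantCoeff (g j + dΦ x z j + X ^ (n + 1) * e j) = 0 := by
        rw [map_add, map_add, h.lin x z hx1 j, hzc, hw, map_mul, map_pow,
          PowerSeries.constantCoeff_X, zero_pow (Nat.succ_ne_zero n), zero_mul]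
        ring
      obtain ⟨q, hq⟩ := PowerSeries.X_dvd_iff.2 h1
      refine ⟨q, ?_⟩
      have h2 : (X : PowerSeries K) ^ (n + 1) * g j + X ^ (n + 1) * dΦ x z j +
          X ^ (2 * (n + 1)) * e j = X ^ (n + 1) * (g j + dΦ x z j + X ^ (n + 1) * e j) := by
        rw [two_mul, pow_add]
        ring
      rw [h2, hq, ← mul_assoc, ← pow_succ]
    · intro i
      exact ⟨z i, by simp⟩
  have base : A 0 := ⟨fun i => PowerSeries.C (ξ i), fun i => by simp, fun j => by
    rw [zero_add, pow_one, PowerSeries.X_dvd_iff]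
    exact h.zero _ (fun i => by simp) j⟩
  choose nxt hnxt using step
  let s : ∀ n, A n := fun n => Nat.rec base (fun n x => nxt n x) n
  exact ⟨fun n => (s n).1, fun n => (s n).2.1, fun n => (s n).2.2, fun n i => hnxt n (s n) i⟩

/-- **Hensel's lemma** for systems with a Taylor expansion: existence. -/
theorem HSys.exists_sol (h : HSys Φ dΦ J ξ) (hs : Function.Surjective J) :
    ∃ x : V → PowerSeries K, (∀ i, PowerSeries.constantCoeff (x i) = ξ i) ∧ ∀ j, Φ x j = 0 := by
  obtain ⟨s, hs1, hs2, hs3⟩ := h.exists_approx hs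
  let x : V → PowerSeries K := fun i => PowerSeries.mk fun n => PowerSeries.coeff n (s n i)
  have hst : ∀ n k i, (X : PowerSeries K) ^ (n + 1) ∣ s (n + k) i - s n i := by
    intro n k i
    induction k with
    | zero => simp
    | succ k ih =>
      have h2 : (X : PowerSeries K) ^ (n + 1) ∣ s (n + (k + 1)) i - s (n + k) i :=
        (pow_dvd_pow _ (by omega)).trans (hs3 (n + k) i)
      have h3 : s (n + (k + 1)) i - s n i = (s (n + (k + 1)) i - s (n + k) i) +
          (s (n + k) i - s n i) := by ring
      rw [h3]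
      exact dvd_add h2 ih
  have hx : ∀ n i, (X : PowerSeries K) ^ (n + 1) ∣ x i - s n i := by
    intro n i
    rw [PowerSeries.X_pow_dvd_iff]
    intro m hm
    obtain ⟨k, rfl⟩ : ∃ k, n = m + k := ⟨n - m, by omega⟩
    have h1 := PowerSeries.X_pow_dvd_iff.1 (hst m k i) m (Nat.lt_succ_self m)
    rw [map_sub] at h1 ⊢
    rw [PowerSeries.coeff_mk, ← neg_sub, h1, neg_zero]
  refine ⟨x, fun i => ?_, fun j => ?_⟩
  · have h1 := hx 0 i
    rw [zero_add, pow_one, PowerSeries.X_dvd_iff, map_sub, hs1 0 i] at h1
    exact sub_eq_zero.1 h1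
  · refine eq_zero_of_dvd _ fun n => ?_
    have h1 := h.dvd_sub (hx n) j
    have h2 : Φ x j = (Φ x j - Φ (s n) j) + Φ (s n) j := by ring
    rw [h2]
    exact dvd_add h1 (hs2 n j)

/-- **Hensel's lemma** for systems with a Taylor expansion: uniqueness. -/
theorem HSys.unique (h : HSys Φ dΦ J ξ) (hi : Function.Injective J) {x y : V → PowerSeries K}
    (hx1 : ∀ i, PowerSeries.constantCoeff (x i) = ξ i) (hx2 : ∀ j, Φ x j = 0)
    (hy1 : ∀ i, PowerSeries.constantCoeff (y i) = ξ i) (hy2 : ∀ j, Φ y j = 0) : y = x := by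
  have key : ∀ n i, (X : PowerSeries K) ^ (n + 1) ∣ y i - x i := by
    intro n
    induction n with
    | zero =>
      intro i
      rw [zero_add, pow_one, PowerSeries.X_dvd_iff, map_sub, hy1, hx1, sub_self]
    | succ n ih =>
      choose z hz using ih
      have hyx : y = fun i => x i + X ^ (n + 1) * z i := by
        ext1 i
        rw [← hz i]
        ring
      have h1 : J (fun i => PowerSeries.constantCoeff (z i)) = 0 := by
        ext j
        obtain ⟨e, he⟩ := h.taylor x z (n + 1)
        have he' := he j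
        rw [← hyx, hy2 j, hx2 j, zero_add, two_mul, pow_add] at he'
        have h2 : (X : PowerSeries K) ^ (n + 1) * (dΦ x z j + X ^ (n + 1) * e j) = 0 := by
          rw [he']
          ring
        have h3 := (mul_eq_zero.1 h2).resolve_left (pow_ne_zero _ PowerSeries.X_ne_zero)
        have h4 := congrArg (PowerSeries.constantCoeff (R := K)) h3
        rw [map_add, h.lin x z hx1 j, map_mul, map_pow, PowerSeries.constantCoeff_X,
          zero_pow (Nat.succ_ne_zero n), zero_mul, add_zero, map_zero] at h4
        exact h4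
      have h5 : (fun i => PowerSeries.constantCoeff (z i)) = 0 := hi (h1.trans (map_zero J).symm)
      intro i
      obtain ⟨z', hz'⟩ := PowerSeries.X_dvd_iff.2 (congrFun h5 i)
      exact ⟨z', by rw [hz i, hz', ← mul_assoc, ← pow_succ]⟩
  ext1 i
  exact sub_eq_zero.1 (eq_zero_of_dvd _ fun n => key n i)

/-- **Hensel's lemma** for systems with a Taylor expansion. -/
theorem HSys.exists_unique (h : HSys Φ dΦ J ξ) (hb : Function.Bijective J) :
    ∃! x : V → PowerSeries K, (∀ i, PowerSeries.constantCoeff (x i) = ξ i) ∧ ∀ j, Φ x j = 0 := by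
  obtain ⟨x, hx1, hx2⟩ := h.exists_sol hb.2
  exact ⟨x, ⟨hx1, hx2⟩, fun y hy => h.unique hb.1 hx1 hx2 hy.1 hy.2⟩

/-- An injective linear map between spaces of the same finite dimension is bijective. -/
theorem bijective_of_injective [Fintype V] [Fintype E] (J : (V → K) →ₗ[K] (E → K))
    (hc : Fintype.card V = Fintype.card E) (hi : Function.Injective J) : Function.Bijective J := by
  refine ⟨hi, ?_⟩
  have h1 : Module.finrank K (V → K) = Module.finrank K (E → K) := by
    rw [Module.finrank_fintype_fun_eq_card, Module.finrank_fintype_fun_eq_card, hc]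
  exact (LinearMap.injective_iff_surjective_of_finrank_eq_finrank h1).1 hi

end Pool.EU
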