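import Pool.Agent.EU.Defs
import Pool.Agent.ML61.Index

/-!
# The index theorem for families of critical points
-/

set_option autoImplicit false
set_option linter.unusedSectionVars false

namespace Pool.EU

open Pool.ML

variable {ι κ : Type} [Fintype ι] [Fintype κ] [DecidableEq ι] [DecidableEq κ]
variable {K : Type} [Field K] [Algebra K ℂ]

/-- The critical points in the fibre over `s`, for exponents in the field `K`. -/
def crt (f : κ → MvPolynomial (Option ι) K) (v : ι → K) (t : κ → K) (s : ℂ) : Set (ι → ℂ) :=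
  Crit (fun j => (subS s (f j) : MvPolynomial ι ℂ)) (fun i => algebraMap K ℂ (v i))
    (fun j => algebraMap K ℂ (t j))

/-- The value of the exponent of the distinguished variable, for exponents in the field `K`. -/
noncomputable def hval {Ω : Type} [Field Ω] [Algebra K Ω] (f : κ → MvPolynomial (Option ι) K)
    (t : κ → K) (s : Ω) (x : ι → Ω) : Ω :=
  hfun f (fun j => algebraMap K Ω (t j)) s x

section aut

variable (f : κ → MvPolynomial (Option ι) K) (v : ι → K) (t : κ → K)

theorem map_crt (σ : ℂ ≃ₐ[K] ℂ) (s : ℂ) (x : ι → ℂ) :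
    (fun i => σ (x i)) ∈ crt f v t (σ s) ↔ x ∈ crt f v t s := by
  have h1 := map_mem_crit (σ : ℂ →+* ℂ) (fun j => (subS s (f j) : MvPolynomial ι ℂ))
    (fun i => algebraMap K ℂ (v i)) (fun j => algebraMap K ℂ (t j)) x
  have h2 : ∀ a : K, (σ : ℂ →+* ℂ) (algebraMap K ℂ a) = algebraMap K ℂ a := fun a => σ.commutes a
  simp only [map_subS (σ : ℂ →+* ℂ) h2, h2] at h1
  exact h1

theorem aeval_map_hom {Ω Ω' τ : Type} [Field Ω] [Field Ω'] [Algebra K Ω] [Algebra K Ω']
    (φ : Ω →+* Ω') (hφ : ∀ a : K, φ (algebraMap K Ω a) = algebraMap K Ω' a) (y : τ → Ω)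
    (p : MvPolynomial τ K) :
    φ (MvPolynomial.aeval y p) = MvPolynomial.aeval (fun i => φ (y i)) p := by
  induction p using MvPolynomial.induction_on with
  | C a => simp [hφ]
  | add p q hp hq => rw [map_add, map_add, map_add, hp, hq]
  | mul_X p i hp => rw [map_mul, map_mul, map_mul, hp, MvPolynomial.aeval_X, MvPolynomial.aeval_X]

theorem map_hval {Ω Ω' : Type} [Field Ω] [Field Ω'] [Algebra K Ω] [Algebra K Ω']
    (φ : Ω →+* Ω') (hφ : ∀ a : K, φ (algebraMap K Ω a) = algebraMap K Ω' a) (s : Ω) (x : ι → Ω) :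
    φ (hval f t s x) = hval f t (φ s) (fun i => φ (x i)) := by
  have h1 : ∀ p : MvPolynomial (Option ι) K, φ (MvPolynomial.aeval (opt s x) p) =
      MvPolynomial.aeval (opt (φ s) (fun i => φ (x i))) p := by
    intro p
    rw [aeval_map_hom φ hφ]
    congr 2
    funext o
    cases o <;> rfl
  simp only [hval, hfun, map_neg, map_sum, map_mul, map_div₀, hφ, h1]

open Classical in
/-- The monic polynomial with roots the values of the exponent. -/
noncomputable def Rpol (s : ℂ) : Polynomial ℂ :=
  if h : (crt f v t s).Finite then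
    ∏ x ∈ h.toFinset, (Polynomial.X - Polynomial.C (hval f t s x)) else 1

theorem Rpol_monic (s : ℂ) : (Rpol f v t s).Monic := by
  rw [Rpol]
  split_ifs with h
  · exact Polynomial.monic_prod_of_monic _ _ fun x _ => Polynomial.monic_X_sub_C _
  · exact Polynomial.monic_one

theorem crt_image (σ : ℂ ≃ₐ[K] ℂ) (s : ℂ) :
    crt f v t (σ s) = (fun (x : ι → ℂ) (i : ι) => σ (x i)) '' crt f v t s := by
  ext y
  constructor
  · intro hy
    refine ⟨fun i => σ.symm (y i), ?_, funext fun i => σ.apply_symm_apply _⟩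
    rw [← map_crt f v t σ]
    simpa using hy
  · rintro ⟨x, hx, rfl⟩
    exact (map_crt f v t σ s x).mpr hx

theorem Rpol_map (σ : ℂ ≃ₐ[K] ℂ) (s : ℂ) (h : (crt f v t s).Finite) :
    Rpol f v t (σ s) = (Rpol f v t s).map (σ : ℂ ≃+* ℂ).toRingHom := by
  classical
  have hinj : Function.Injective (fun (x : ι → ℂ) (i : ι) => σ (x i)) := by
    intro x y hxy
    funext i
    exact σ.injective (congrFun hxy i)
  have h' : (crt f v t (σ s)).Finite := by
    rw [crt_image]
    exact h.image _
  rw [Rpol, Rpol, dif_pos h, dif_pos h', Polynomial.map_prod]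
  have h2 : h'.toFinset = h.toFinset.image (fun (x : ι → ℂ) (i : ι) => σ (x i)) := by
    ext y
    simp only [Set.Finite.mem_toFinset, Finset.mem_image]
    rw [crt_image]
    rfl
  rw [h2, Finset.prod_image fun x _ y _ hxy => hinj hxy]
  refine Finset.prod_congr rfl fun x _ => ?_
  rw [Polynomial.map_sub, Polynomial.map_X, Polynomial.map_C]
  congr 2
  exact (map_hval f t (σ : ℂ →+* ℂ) (fun a => σ.commutes a) s x).symm

theorem Rpol_roots (s : ℂ) (h : (crt f v t s).Finite) :
    (Rpol f v t s).roots = h.toFinset.val.map (fun x => hval f t s x) := by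
  rw [Rpol, dif_pos h, Polynomial.roots_prod]
  · simp only [Polynomial.roots_X_sub_C]
    exact Multiset.bind_singleton _ _
  · exact (Polynomial.monic_prod_of_monic _ _ fun x _ => Polynomial.monic_X_sub_C _).ne_zero

theorem Rpol_mult (s c : ℂ) (h : (crt f v t s).Finite) :
    (Rpol f v t s).rootMultiplicity c = {x ∈ crt f v t s | hval f t s x = c}.ncard := by
  classical
  rw [← Polynomial.count_roots, Rpol_roots f v t s h, Multiset.count_map]
  have h1 : {x ∈ crt f v t s | hval f t s x = c} =
      ((h.toFinset.filter (fun x => c = hval f t s x) : Finset (ι → ℂ)) : Set (ι → ℂ)) := by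
    ext x
    simp [eq_comm]
  rw [h1, Set.ncard_coe_finset]
  rfl

theorem Rpol_isRoot (s c : ℂ) (h : (crt f v t s).Finite) :
    (Rpol f v t s).IsRoot c ↔ ∃ x ∈ crt f v t s, hval f t s x = c := by
  rw [← Polynomial.mem_roots (Rpol_monic f v t s).ne_zero, Rpol_roots f v t s h, Multiset.mem_map]
  simp

end aut

/-- A place: an embedding, over `K`, of a field containing `s` and the coordinates of the critical
points over `s` in the field of Laurent series. -/
structure CPlace (f : κ → MvPolynomial (Option ι) K) (v : ι → K) (t : κ → K) (s : ℂ) where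
  F : IntermediateField K ℂ
  φ : F →+* LaurentSeries K
  hC : ∀ a : K, φ (algebraMap K F a) = HahnSeries.C a
  hs : s ∈ F
  hx : ∀ x ∈ crt f v t s, ∀ i, x i ∈ F

open Classical in
/-- The series of a number in the field. -/
noncomputable def CPlace.ser {f : κ → MvPolynomial (Option ι) K} {v : ι → K} {t : κ → K} {s : ℂ}
    (p : CPlace f v t s) (x : ℂ) : LaurentSeries K :=
  if h : x ∈ p.F then p.φ ⟨x, h⟩ else 0

theorem CPlace.ser_coe {f : κ → MvPolynomial (Option ι) K} {v : ι → K} {t : κ → K} {s : ℂ}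
    (p : CPlace f v t s) (x : p.F) : p.ser (x : ℂ) = p.φ x := by
  rw [CPlace.ser, dif_pos x.2]

section index

variable (f : κ → MvPolynomial (Option ι) K) (v : ι → K) (t : κ → K)

theorem CPlace.hval_mem {s : ℂ} (p : CPlace f v t s) (x : ι → ℂ) (hx : x ∈ crt f v t s) :
    hval f t s x ∈ p.F := by
  have h1 := map_hval f t (algebraMap p.F ℂ) (fun a => rfl) (⟨s, p.hs⟩ : p.F)
    (fun i => ⟨x i, p.hx x hx i⟩)
  have h2 : hval f t s x = ((hval f t (⟨s, p.hs⟩ : p.F)
    (fun i => ⟨x i, p.hx x hx i⟩) : p.F) : ℂ) := h1.symm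
  rw [h2]
  exact SetLike.coe_mem _

/-- The series of the value of the exponent. -/
theorem CPlace.ser_hval {s : ℂ} (p : CPlace f v t s) (x : ι → ℂ) (hx : x ∈ crt f v t s) :
    p.ser (hval f t s x) = -∑ j, HahnSeries.C (t j) * (p.ser s *
      MvPolynomial.eval (opt (p.ser s) (fun i => p.ser (x i)))
        (MvPolynomial.map HahnSeries.C (MvPolynomial.pderiv none (f j))) /
      MvPolynomial.eval (opt (p.ser s) (fun i => p.ser (x i)))
        (MvPolynomial.map HahnSeries.C (f j))) := by
  have h1 := map_hval f t (algebraMap p.F ℂ) (fun a => rfl) (⟨s, p.hs⟩ : p.F)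
    (fun i => ⟨x i, p.hx x hx i⟩)
  have h2 : hval f t s x = ((hval f t (⟨s, p.hs⟩ : p.F)
    (fun i => ⟨x i, p.hx x hx i⟩) : p.F) : ℂ) := h1.symm
  let := (HahnSeries.C : K →+* LaurentSeries K).toAlgebra
  rw [h2, p.ser_coe, map_hval f t p.φ (fun a => p.hC a)]
  have h3 : p.φ (⟨s, p.hs⟩ : p.F) = p.ser s := (p.ser_coe ⟨s, p.hs⟩).symm
  have h4 : (fun i => p.φ (⟨x i, p.hx x hx i⟩ : p.F)) = fun i => p.ser (x i) :=
    funext fun i => (p.ser_coe ⟨x i, p.hx x hx i⟩).symm
  rw [h3, h4, hval, hfun]
  simp only [MvPolynomial.eval_map, MvPolynomial.aeval_def]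
  rfl

/-- The place for the roots. -/
noncomputable def CPlace.toF {s : ℂ} (p : CPlace f v t s) (h : (crt f v t s).Finite) :
    FPlace K s (Rpol f v t s).roots where
  F := p.F
  φ := p.φ
  htF := p.hs
  hC := p.hC
  hH := by
    intro y hy
    rw [Rpol_roots f v t s h, Multiset.mem_map] at hy
    obtain ⟨x, hx, rfl⟩ := hy
    exact p.hval_mem f v t x (h.mem_toFinset.mp hx)

theorem CPlace.toF_ser {s : ℂ} (p : CPlace f v t s) (h : (crt f v t s).Finite) (x : ℂ) :
    (p.toF f v t h).ser x = p.ser x := rfl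

/-- The total number of critical points, as a sum of local contributions. -/
theorem index_crt [IsAlgClosed K]
    (H0 : ∀ s : ℂ, Transcendental K s → (crt f v t s).Finite)
    (c : ℂ) (hc : Transcendental K c)
    (H1 : ∀ (s : ℂ) (x : ι → ℂ), s ≠ 0 → x ∈ crt f v t s → hval f t s x = c →
      Transcendental K s)
    (s₁ : ℂ) (hs₁ : Transcendental K s₁) (E : K → ℕ)
    (hfin : ∀ t0 : K, ∃ p : CPlace f v t s₁, 0 < (p.ser s₁ - HahnSeries.C t0).order ∧
      (∀ x ∈ crt f v t s₁, 0 ≤ (p.ser (hval f t s₁ x)).order ∨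
        (p.ser (hval f t s₁ x)).order =
          -(p.ser s₁ - HahnSeries.C t0).order) ∧
      {x ∈ crt f v t s₁ | (p.ser (hval f t s₁ x)).order < 0}.ncard = E t0)
    (hinf : ∃ p : CPlace f v t s₁, (p.ser s₁).order < 0 ∧
      ∀ x ∈ crt f v t s₁, 0 ≤ (p.ser (hval f t s₁ x)).order) :
    (Function.support E).Finite ∧
      (Crit (fun j => MvPolynomial.map (algebraMap K ℂ) (f j))
        (opt c (fun i => algebraMap K ℂ (v i))) (fun j => algebraMap K ℂ (t j))).Finite ∧
      (Crit (fun j => MvPolynomial.map (algebraMap K ℂ) (f j))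
        (opt c (fun i => algebraMap K ℂ (v i))) (fun j => algebraMap K ℂ (t j))).ncard =
        ∑ᶠ t0, E t0 := by
  classical
  have hf := H0 s₁ hs₁
  have hmain := index_count (Rpol f v t) (fun s _ => Rpol_monic f v t s)
    (fun σ s hs => Rpol_map f v t σ s (H0 s hs)) s₁ hs₁ E ?_ ?_ c hc
  · obtain ⟨h1, S, hS1, hS2, hS3⟩ := hmain
    refine ⟨h1, ?_⟩
    -- the total set
    let A : Finset (Option ι → ℂ) := S.biUnion fun s =>
      if h : (crt f v t s).Finite then
        (h.toFinset.filter fun x => hval f t s x = c).image fun x => opt s x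
      else ∅
    have hA : (Crit (fun j => MvPolynomial.map (algebraMap K ℂ) (f j))
        (opt c (fun i => algebraMap K ℂ (v i))) (fun j => algebraMap K ℂ (t j))) =
        (A : Set (Option ι → ℂ)) := by
      ext y
      obtain ⟨s, x, rfl⟩ : ∃ s x, y = opt s x :=
        ⟨y none, fun i => y (some i), by funext o; cases o <;> rfl⟩
      rw [mem_crit_opt, Finset.mem_coe, Finset.mem_biUnion]
      constructor
      · rintro ⟨hs0, hx, hh⟩
        have hst := H1 s x hs0 hx hh
        refine ⟨s, ?_, ?_⟩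
        · rw [← hS2 s hst, Rpol_isRoot f v t s c (H0 s hst)]
          exact ⟨x, hx, hh⟩
        · rw [dif_pos (H0 s hst), Finset.mem_image]
          refine ⟨x, ?_, rfl⟩
          rw [Finset.mem_filter, Set.Finite.mem_toFinset]
          exact ⟨hx, hh⟩
      · rintro ⟨s', hs', hmem⟩
        have hst := hS1 s' hs'
        rw [dif_pos (H0 s' hst), Finset.mem_image] at hmem
        obtain ⟨x', hx', he⟩ := hmem
        rw [Finset.mem_filter, Set.Finite.mem_toFinset] at hx'
        have h3 : s' = s := congrFun he none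
        have h4 : x' = x := funext fun i => congrFun he (some i)
        subst h3 h4
        refine ⟨?_, hx'.1, hx'.2⟩
        rintro rfl
        exact hst (isAlgebraic_zero)
    rw [hA]
    refine ⟨A.finite_toSet, ?_⟩
    rw [Set.ncard_coe_finset, Finset.card_biUnion, ← hS3]
    · refine Finset.sum_congr rfl fun s hs => ?_
      have hst := hS1 s hs
      rw [dif_pos (H0 s hst), Rpol_mult f v t s c (H0 s hst), Finset.card_image_of_injective]
      · rw [← Set.ncard_coe_finset]
        congr 1
        ext x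
        simp
      · intro x y hxy
        funext i
        exact congrFun hxy (some i)
    · intro s hs s' hs' hne
      rw [Function.onFun, Finset.disjoint_left]
      intro y hy hy'
      apply hne
      rw [dif_pos (H0 s (hS1 s hs)), Finset.mem_image] at hy
      rw [dif_pos (H0 s' (hS1 s' hs')), Finset.mem_image] at hy'
      obtain ⟨x, -, rfl⟩ := hy
      obtain ⟨x', -, he⟩ := hy'
      exact (congrFun he none).symm
  · intro t0
    obtain ⟨p, hp1, hp2, hp3⟩ := hfin t0
    refine ⟨p.toF f v t hf, hp1, ?_, ?_⟩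
    · intro y hy
      rw [Rpol_roots f v t s₁ hf, Multiset.mem_map] at hy
      obtain ⟨x, hx, rfl⟩ := hy
      have hx' := hf.mem_toFinset.mp hx
      exact hp2 x hx'
    · change Multiset.countP (fun h => (p.ser h).order < 0) (Rpol f v t s₁).roots = E t0
      rw [Rpol_roots f v t s₁ hf, Multiset.countP_map, ← hp3]
      have h3 : {x ∈ crt f v t s₁ | (p.ser (hval f t s₁ x)).order < 0} =
          ((hf.toFinset.filter fun x => (p.ser (hval f t s₁ x)).order < 0 :
            Finset (ι → ℂ)) : Set (ι → ℂ)) := by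
        ext x
        simp only [Set.mem_ofPred_eq, Finset.coe_filter, Set.Finite.mem_toFinset]
      rw [h3, Set.ncard_coe_finset]
      rfl
  · obtain ⟨p, hp1, hp2⟩ := hinf
    refine ⟨p.toF f v t hf, hp1, ?_⟩
    intro y hy
    rw [Rpol_roots f v t s₁ hf, Multiset.mem_map] at hy
    obtain ⟨x, hx, rfl⟩ := hy
    have hx' := hf.mem_toFinset.mp hx
    exact hp2 x hx'

end index

end Pool.EU
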