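import Pool.Agent.EU.Split

/-!
# Integral coordinates of a solution over the Laurent series
-/

set_option autoImplicit false

open Matrix

namespace Pool.EU

open Pool.ML

section core

variable {k : Type} [Field k] {π ι ρ σ J : Type} [Fintype π] [Fintype ι] [Fintype ρ] [Fintype σ]
  [Fintype J] [DecidableEq π] [DecidableEq ι] [DecidableEq ρ] [DecidableEq σ]

/-- integral coordinates for the column space -/
theorem int_col (P0 : Matrix (π ⊕ ι) J (PowerSeries k)) (Q0 : Matrix (π ⊕ ι) π (PowerSeries k))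
    (C : Matrix J π (LaurentSeries k)) (hQ : IsUnit (Q0.submatrix Sum.inl id).det)
    (hQC : Q0.map (io k) = P0.map (io k) * C)
    (hr : (P0.map (io k)).rank = Fintype.card π + Fintype.card ρ)
    (hc : Fintype.card ι = Fintype.card ρ + Fintype.card σ) :
    ∃ (e : (ρ ⊕ σ) ≃ ι) (A : Matrix σ ρ (PowerSeries k)) (Y1 : Matrix π J (PowerSeries k))
      (M : Matrix ι J (PowerSeries k)),
      P0 = Q0 * Y1 + Matrix.fromRows 0 M ∧
      M.submatrix e id = LA A * M.submatrix (e ∘ Sum.inl) id ∧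
      (M.map (io k)).rank = Fintype.card ρ := by
  set R0 : Matrix π π (PowerSeries k) := Q0.submatrix Sum.inl id with hR0
  set Y1 : Matrix π J (PowerSeries k) := R0⁻¹ * P0.submatrix Sum.inl id with hY1
  set M : Matrix ι J (PowerSeries k) :=
    P0.submatrix Sum.inr id - Q0.submatrix Sum.inr id * Y1 with hM
  have hRY : R0 * Y1 = P0.submatrix Sum.inl id := by
    rw [hY1, ← Matrix.mul_assoc, Matrix.mul_nonsing_inv _ hQ, Matrix.one_mul]
  have hP : P0 = Q0 * Y1 + Matrix.fromRows 0 M := by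
    ext1 i j
    rcases i with i | i
    · rw [Matrix.add_apply, Matrix.fromRows_apply_inl, Matrix.zero_apply, add_zero]
      exact (congrFun (congrFun hRY i) j).symm
    · rw [Matrix.add_apply, Matrix.fromRows_apply_inr, hM, Matrix.sub_apply]
      have h : (Q0 * Y1) (Sum.inr i) j = (Q0.submatrix Sum.inr id * Y1) i j := rfl
      rw [h, add_sub_cancel]
      rfl
  have hQ' : ((Q0.map (io k)).submatrix Sum.inl id).det ≠ 0 := by
    have h1 : (Q0.map (io k)).submatrix Sum.inl id = R0.map (io k) := rfl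
    rw [h1, ← RingHom.mapMatrix_apply, ← RingHom.map_det]
    exact (hQ.map (io k)).ne_zero
  obtain ⟨Y, M', hP', -, -, hrk⟩ := exists_split (P0.map (io k)) (Q0.map (io k)) C hQ' hQC
  -- uniqueness of the splitting
  have hmap : P0.map (io k) = Q0.map (io k) * Y1.map (io k) +
      Matrix.fromRows 0 (M.map (io k)) := by
    conv_lhs => rw [hP]
    ext1 i j
    rw [Matrix.map_apply, Matrix.add_apply, Matrix.add_apply, map_add, ← Matrix.map_mul,
      Matrix.map_apply]
    congr 1
    rcases i with i | i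
    · simp
    · simp
  have hYY : Y = Y1.map (io k) := by
    have h1 : R0.map (io k) * Y = R0.map (io k) * Y1.map (io k) := by
      have h2 : P0.map (io k) = P0.map (io k) := rfl
      conv_lhs at h2 => rw [hP']
      conv_rhs at h2 => rw [hmap]
      ext1 i j
      have h3 := congrFun (congrFun h2 (Sum.inl i)) j
      rw [Matrix.add_apply, Matrix.add_apply, Matrix.fromRows_apply_inl,
        Matrix.fromRows_apply_inl, Matrix.zero_apply, add_zero, add_zero] at h3
      exact h3
    have hu : IsUnit (R0.map (io k)).det := by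
      rw [← RingHom.mapMatrix_apply, ← RingHom.map_det]
      exact hQ.map (io k)
    have h4 := congrArg (fun X => (R0.map (io k))⁻¹ * X) h1
    rwa [← Matrix.mul_assoc, ← Matrix.mul_assoc, Matrix.nonsing_inv_mul _ hu, Matrix.one_mul,
      Matrix.one_mul] at h4
  have hMM : M' = M.map (io k) := by
    have h2 : P0.map (io k) = P0.map (io k) := rfl
    conv_lhs at h2 => rw [hP', hYY]
    conv_rhs at h2 => rw [hmap]
    ext1 i j
    have h3 := congrFun (congrFun h2 (Sum.inr i)) j
    rw [Matrix.add_apply, Matrix.add_apply, Matrix.fromRows_apply_inr,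
      Matrix.fromRows_apply_inr] at h3
    exact add_left_cancel h3
  have hrM : (M.map (io k)).rank = Fintype.card ρ := by
    rw [hMM] at hrk
    omega
  obtain ⟨e, A, hA, -⟩ := exists_int_rows (ρ := ρ) (σ := σ) (M.map (io k)) hrM hc
  refine ⟨e, A, Y1, M, hP, ?_, hrM⟩
  apply map_io_injective
  show (M.submatrix e id).map (io k) = (LA A * M.submatrix (e ∘ Sum.inl) id).map (io k)
  rw [Matrix.map_mul]
  exact hA

omit [Fintype ι] [DecidableEq ι] in
/-- the vectors `φ_l` of a solution are integral, and so is the product `q φ^T` -/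
theorem int_phi (P0 G0 : Matrix (π ⊕ ι) J (PowerSeries k)) (Q0 : Matrix (π ⊕ ι) π (PowerSeries k))
    (Φ : Matrix (π ⊕ ι) π (LaurentSeries k)) (W : Matrix (π ⊕ ι) (π ⊕ ι) (LaurentSeries k))
    (hQ : IsUnit (Q0.submatrix Sum.inl id).det)
    (h1 : P0.map (io k) * (G0.map (io k))ᵀ = Q0.map (io k) * Φᵀ + W)
    (hW : ∀ i j, W (Sum.inl i) j = 0) (Y1 : Matrix π J (PowerSeries k)) (M : Matrix ι J (PowerSeries k))
    (hP : P0 = Q0 * Y1 + Matrix.fromRows 0 M) :
    Φ = (G0 * Y1ᵀ).map (io k) ∧ W = (Matrix.fromRows 0 (M * G0ᵀ)).map (io k) := by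
  have hGt : (G0.map (io k))ᵀ = (G0ᵀ).map (io k) := rfl
  have h2 : P0.map (io k) * (G0.map (io k))ᵀ = Q0.map (io k) * (Y1 * G0ᵀ).map (io k) +
      (Matrix.fromRows 0 (M * G0ᵀ)).map (io k) := by
    rw [hGt, ← Matrix.map_mul, hP, Matrix.add_mul, Matrix.mul_assoc, Matrix.fromRows_mul,
      Matrix.zero_mul]
    ext1 i j
    rw [Matrix.map_apply, Matrix.add_apply, Matrix.add_apply, map_add, ← Matrix.map_mul,
      Matrix.map_apply]
    rfl
  rw [h1] at h2
  have hu : IsUnit ((Q0.submatrix Sum.inl id).map (io k)).det := by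
    rw [← RingHom.mapMatrix_apply, ← RingHom.map_det]
    exact hQ.map (io k)
  have h3 : (Q0.submatrix Sum.inl id).map (io k) * Φᵀ =
      (Q0.submatrix Sum.inl id).map (io k) * (Y1 * G0ᵀ).map (io k) := by
    ext1 i j
    have h4 := congrFun (congrFun h2 (Sum.inl i)) j
    rw [Matrix.add_apply, Matrix.add_apply, hW, Matrix.map_apply (M := Matrix.fromRows _ _),
      Matrix.fromRows_apply_inl, Matrix.zero_apply, map_zero, add_zero, add_zero] at h4
    exact h4
  have h5 := congrArg (fun X => ((Q0.submatrix Sum.inl id).map (io k))⁻¹ * X) h3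
  rw [← Matrix.mul_assoc, ← Matrix.mul_assoc, Matrix.nonsing_inv_mul _ hu, Matrix.one_mul,
    Matrix.one_mul] at h5
  have h6 : Φ = (G0 * Y1ᵀ).map (io k) := by
    rw [← Matrix.transpose_transpose Φ, h5]
    have h7 : (G0 * Y1ᵀ) = (Y1 * G0ᵀ)ᵀ := by
      rw [Matrix.transpose_mul, Matrix.transpose_transpose]
    rw [h7]
    rfl
  refine ⟨h6, ?_⟩
  rw [h5] at h2
  exact add_left_cancel h2

omit [Fintype ι] [Fintype σ] [DecidableEq ι] [DecidableEq σ] in
/-- an element of the column space which vanishes on the pivots -/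
theorem mem_col (P0 : Matrix (π ⊕ ι) J (PowerSeries k)) (Q0 : Matrix (π ⊕ ι) π (PowerSeries k))
    (hQ : IsUnit (Q0.submatrix Sum.inl id).det) (e : (ρ ⊕ σ) ≃ ι) (A : Matrix σ ρ (PowerSeries k))
    (Y1 : Matrix π J (PowerSeries k)) (M : Matrix ι J (PowerSeries k))
    (hP : P0 = Q0 * Y1 + Matrix.fromRows 0 M)
    (hA : M.submatrix e id = LA A * M.submatrix (e ∘ Sum.inl) id)
    (q : π ⊕ ι → LaurentSeries k) (c : J → LaurentSeries k) (hq : q = P0.map (io k) *ᵥ c)
    (h0 : ∀ i, q (Sum.inl i) = 0) :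
    (fun i => q (Sum.inr (e i))) = (LA A).map (io k) *ᵥ (fun l => q (Sum.inr (e (Sum.inl l)))) := by
  have hmap : P0.map (io k) = Q0.map (io k) * Y1.map (io k) +
      Matrix.fromRows 0 (M.map (io k)) := by
    conv_lhs => rw [hP]
    ext1 i j
    rw [Matrix.map_apply, Matrix.add_apply, Matrix.add_apply, map_add, ← Matrix.map_mul,
      Matrix.map_apply]
    congr 1
    rcases i with i | i
    · simp
    · simp
  have hu : IsUnit ((Q0.submatrix Sum.inl id).map (io k)).det := by
    rw [← RingHom.mapMatrix_apply, ← RingHom.map_det]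
    exact hQ.map (io k)
  have hq' : q = Q0.map (io k) *ᵥ (Y1.map (io k) *ᵥ c) +
      (Matrix.fromRows 0 (M.map (io k))) *ᵥ c := by
    rw [hq, hmap, Matrix.add_mulVec, Matrix.mulVec_mulVec]
  have h1 : (Q0.submatrix Sum.inl id).map (io k) *ᵥ (Y1.map (io k) *ᵥ c) = 0 := by
    funext i
    have h2 := congrFun hq' (Sum.inl i)
    rw [h0, Pi.add_apply, Matrix.fromRows_mulVec, Sum.elim_inl, Matrix.zero_mulVec,
      Pi.zero_apply, add_zero] at h2
    exact h2.symm
  have h2 : Y1.map (io k) *ᵥ c = 0 := by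
    have h3 := congrArg (fun X => ((Q0.submatrix Sum.inl id).map (io k))⁻¹ *ᵥ X) h1
    rwa [Matrix.mulVec_mulVec, Matrix.nonsing_inv_mul _ hu, Matrix.one_mulVec,
      Matrix.mulVec_zero] at h3
  have h3 : ∀ i, q (Sum.inr i) = (M.map (io k) *ᵥ c) i := by
    intro i
    rw [hq', h2, Matrix.mulVec_zero, zero_add, Matrix.fromRows_mulVec, Sum.elim_inr]
  have h4 : (fun l => q (Sum.inr (e (Sum.inl l)))) =
      (M.submatrix (e ∘ Sum.inl) id).map (io k) *ᵥ c := by
    funext l
    rw [h3]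
    rfl
  rw [h4, Matrix.mulVec_mulVec, ← Matrix.map_mul, ← hA]
  funext i
  rw [h3]
  rfl

/-- scaling a pair of vectors with integral products -/
theorem exists_scale {I : Type} [Fintype I] (q φ : I → LaurentSeries k)
    (h : ∀ i j, ∃ p : PowerSeries k, io k p = q i * φ j) (hq : q ≠ 0) :
    ∃ (i1 : I) (q0 φ0 : I → PowerSeries k), q i1 ≠ 0 ∧ (∀ i, io k (q0 i) = (q i1)⁻¹ * q i) ∧
      (∀ i, io k (φ0 i) = q i1 * φ i) ∧ q0 i1 = 1 := by
  classical
  obtain ⟨i0, hi0⟩ := Function.ne_iff.1 hq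
  obtain ⟨i1, hi1, hmin⟩ := Finset.exists_min_image
    (Finset.univ.filter fun i : I => q i ≠ 0) (fun i => (q i).order)
    ⟨i0, by rw [Finset.mem_filter]; exact ⟨Finset.mem_univ _, hi0⟩⟩
  rw [Finset.mem_filter] at hi1
  have hint : ∀ i, ∃ p : PowerSeries k, io k p = (q i1)⁻¹ * q i := by
    intro i
    rw [mul_comm, ← div_eq_mul_inv]
    apply exists_io_div _ _ hi1.2
    intro hi
    exact hmin i (by rw [Finset.mem_filter]; exact ⟨Finset.mem_univ _, hi⟩)
  choose q0 hq0 using hint
  choose φ0 hφ0 using h i1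
  refine ⟨i1, q0, φ0, hi1.2, hq0, hφ0, ?_⟩
  apply io_injective
  rw [hq0, inv_mul_cancel₀ hi1.2, map_one]

end core

end Pool.EU
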