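import Pool.Agent.ML61.Lattice

/-!
# Integral echelon bases of the column space of a matrix over the Laurent series
-/

set_option autoImplicit false

open Matrix

namespace Pool.EU

open Pool.ML

section field

variable {F : Type} [Field F] {I J ρ : Type} [Fintype I] [Fintype J] [Fintype ρ] [DecidableEq ρ]

/-- a rank factorisation with a non-zero minor of the left factor -/
theorem exists_rank_factor (M : Matrix I J F) (hr : M.rank = Fintype.card ρ) :
    ∃ (B : Matrix I ρ F) (Y : Matrix ρ J F) (a : ρ → I), M = B * Y ∧
      (B.submatrix a id).det ≠ 0 := by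
  classical
  obtain ⟨f, hf1, hf2, hf3⟩ := Submodule.exists_fun_fin_finrank_span_eq F (Set.range M.col)
  have hcard : Module.finrank F (Submodule.span F (Set.range M.col)) = Fintype.card ρ := by
    rw [← Matrix.rank_eq_finrank_span_cols, hr]
  let e : ρ ≃ Fin (Module.finrank F (Submodule.span F (Set.range M.col))) :=
    Fintype.equivOfCardEq (by rw [hcard]; simp)
  -- the basis of the column space
  let B : Matrix I ρ F := Matrix.of fun i l => f (e l) i
  have hBcol : B.col = f ∘ e := rfl
  have hspan : Submodule.span F (Set.range B.col) = Submodule.span F (Set.range M.col) := by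
    rw [hBcol, Set.range_comp, e.range_eq_univ, Set.image_univ]
    exact hf2
  have hY : ∀ j, ∃ y : ρ → F, B *ᵥ y = M.col j := by
    intro j
    have h1 : M.col j ∈ Submodule.span F (Set.range B.col) := by
      rw [hspan]
      exact Submodule.subset_span ⟨j, rfl⟩
    obtain ⟨y, hy⟩ := (Submodule.mem_span_range_iff_exists_fun F).1 h1
    refine ⟨y, ?_⟩
    rw [← hy]
    ext i
    simp only [Matrix.mulVec, dotProduct, Finset.sum_apply, Pi.smul_apply, smul_eq_mul,
      Matrix.col_apply]
    exact Finset.sum_congr rfl fun l _ => mul_comm _ _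
  choose y hy using hY
  have hBrank : B.rank = Fintype.card ρ := by
    rw [Matrix.rank_eq_finrank_span_cols, hspan, hcard]
  obtain ⟨g, hg1, hg2, hg3⟩ := Submodule.exists_fun_fin_finrank_span_eq F (Set.range B.row)
  have hcard2 : Module.finrank F (Submodule.span F (Set.range B.row)) = Fintype.card ρ := by
    rw [← Matrix.rank_eq_finrank_span_row, hBrank]
  choose a ha using hg1
  let e2 : ρ ≃ Fin (Module.finrank F (Submodule.span F (Set.range B.row))) :=
    Fintype.equivOfCardEq (by rw [hcard2]; simp)
  refine ⟨B, Matrix.of fun l j => y j l, fun l => a (e2 l), ?_, ?_⟩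
  · ext i j
    have h := congrFun (hy j) i
    rw [Matrix.mul_apply]
    exact h.symm
  · have h1 : LinearIndependent F (B.submatrix (fun l => a (e2 l)) id).row := by
      have h2 : (B.submatrix (fun l => a (e2 l)) id).row = g ∘ e2 := by
        funext l
        have h3 := ha (e2 l)
        exact h3
      rw [h2]
      exact hg3.comp _ e2.injective
    rw [Matrix.linearIndependent_rows_iff_isUnit, Matrix.isUnit_iff_isUnit_det] at h1
    exact h1.ne_zero

end field

/-- an injection extends to an equivalence -/
theorem exists_equiv_extend {ρ σ I : Type} [Fintype ρ] [Fintype σ] [Fintype I] (a : ρ → I)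
    (ha : Function.Injective a) (hc : Fintype.card I = Fintype.card ρ + Fintype.card σ) :
    ∃ e : (ρ ⊕ σ) ≃ I, ∀ k, e (Sum.inl k) = a k := by
  classical
  have h1 : Fintype.card {x : I // ¬ x ∈ Set.range a} = Fintype.card σ := by
    rw [Fintype.card_subtype_compl]
    have h2 : Fintype.card {x : I // x ∈ Set.range a} = Fintype.card ρ :=
      (Fintype.card_congr (Equiv.ofInjective a ha)).symm
    rw [h2, hc]
    omega
  let f : {x : I // ¬ x ∈ Set.range a} ≃ σ := Fintype.equivOfCardEq h1
  refine ⟨(Equiv.sumCongr (Equiv.ofInjective a ha) f.symm).trans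
    (Equiv.sumCompl (fun x : I => x ∈ Set.range a)), fun k => ?_⟩
  rfl

variable {k : Type} [Field k]

/-- the column space of a matrix over the Laurent series has an integral echelon basis -/
theorem exists_int_rows {ρ σ I J : Type} [Fintype ρ] [Fintype σ] [Fintype I] [Fintype J]
    [DecidableEq ρ] [DecidableEq σ] (M : Matrix I J (LaurentSeries k))
    (hr : M.rank = Fintype.card ρ) (hc : Fintype.card I = Fintype.card ρ + Fintype.card σ) :
    ∃ (e : (ρ ⊕ σ) ≃ I) (A : Matrix σ ρ (PowerSeries k)),
      M.submatrix e id = (LA A).map (io k) * M.submatrix (e ∘ Sum.inl) id ∧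
      (M.submatrix (e ∘ Sum.inl) id).rank = Fintype.card ρ := by
  classical
  obtain ⟨B, Y, a, hM, ha⟩ := exists_rank_factor (ρ := ρ) M hr
  have hinj : Function.Injective a := by
    intro i j hij
    by_contra hne
    apply ha
    exact Matrix.det_zero_of_row_eq hne (by funext l; simp [hij])
  obtain ⟨e0, he0⟩ := exists_equiv_extend (σ := σ) a hinj hc
  obtain ⟨e1, A, hC, hA⟩ := exists_rows (B.submatrix e0 id) (by
    have h1 : (B.submatrix e0 id).submatrix Sum.inl id = B.submatrix a id := by
      ext i l
      simp [he0]
    rw [h1]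
    exact ha)
  have hsub : ∀ {I' : Type} (f : I' → I), M.submatrix f id = B.submatrix f id * Y := by
    intro I' f
    ext i j
    rw [hM, Matrix.submatrix_apply, Matrix.mul_apply, Matrix.mul_apply]
    rfl
  have h1 : M.submatrix (e1.trans e0) id =
      (LA A).map (io k) * M.submatrix ((e1.trans e0) ∘ Sum.inl) id := by
    rw [hsub, hsub, ← Matrix.mul_assoc]
    congr 1
  refine ⟨e1.trans e0, A, h1, ?_⟩
  apply le_antisymm
  · exact Matrix.rank_le_card_height _
  · have h2 : (M.submatrix (e1.trans e0) id).rank = Fintype.card ρ := by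
      have h3 : M.submatrix (e1.trans e0) id = M.submatrix (e1.trans e0) (Equiv.refl J) := rfl
      rw [h3, Matrix.rank_submatrix, hr]
    rw [← h2, h1]
    exact Matrix.rank_mul_le_right _ _

end Pool.EU
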