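import Pool.Agent.EU.Defs
import Pool.Agent.EU.Hensel
import Pool.Agent.EU.Alg
import Pool.Agent.Helper55.ML.NoEsc

/-!
# The branches over a point of the base: local analysis over the Laurent series
-/

set_option autoImplicit false
set_option linter.unusedSectionVars false

namespace Pool.EU

open MvPolynomial Pool.ML Pool.ML55

variable {ι κ : Type} [Fintype ι] [Fintype κ] [DecidableEq ι] [DecidableEq κ]
variable {K : Type} [Field K]

/-- The solutions over the Laurent series. -/
def CL (f : κ → MvPolynomial (Option ι) K) (v : ι → K) (t : κ → K) (s : LaurentSeries K) :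
    Set (ι → LaurentSeries K) :=
  Crit (fun j => (subS s (f j) : MvPolynomial ι (LaurentSeries K))) (fun i => HahnSeries.C (v i))
    (fun j => HahnSeries.C (t j))

/-- The solutions over the residue field. -/
def CK (f : κ → MvPolynomial (Option ι) K) (v : ι → K) (t : κ → K) (s : K) : Set (ι → K) :=
  Crit (fun j => (subS s (f j) : MvPolynomial ι K)) v t

/-- The functions which must be different from zero. -/
noncomputable def unitsF (f : κ → MvPolynomial (Option ι) K) (s : LaurentSeries K)
    (x : ι → LaurentSeries K) : ι ⊕ κ → LaurentSeries K :=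
  Sum.elim x (fun j => aeval (opt s x) (f j))

/-- The solutions which stay inside. -/
def GoodL (f : κ → MvPolynomial (Option ι) K) (v : ι → K) (t : κ → K) (s : LaurentSeries K) :
    Set (ι → LaurentSeries K) :=
  {x | x ∈ CL f v t s ∧ ∀ a, (unitsF f s x a).order = 0}

/-- The cleared equations over the power series. -/
noncomputable def GP (f : κ → MvPolynomial (Option ι) K) (v : ι → K) (t : κ → K)
    (S : PowerSeries K) (i : ι) : MvPolynomial ι (PowerSeries K) :=
  GG (fun j => (subS S (f j) : MvPolynomial ι (PowerSeries K))) (fun i => PowerSeries.C (v i))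
    (fun j => PowerSeries.C (t j)) i

theorem algebraMap_L (a : K) : algebraMap K (LaurentSeries K) a = HahnSeries.C a := by
  rw [HahnSeries.algebraMap_apply']
  exact HahnSeries.ofPowerSeries_C a

theorem ofPS_algebraMap (a : K) : (ofPS : PowerSeries K →+* LaurentSeries K)
    (algebraMap K (PowerSeries K) a) = algebraMap K (LaurentSeries K) a := by
  rw [HahnSeries.algebraMap_apply']

theorem map_subS_ofPS (S : PowerSeries K) (p : MvPolynomial (Option ι) K) :
    MvPolynomial.map (ofPS : PowerSeries K →+* LaurentSeries K)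
      (subS S p : MvPolynomial ι (PowerSeries K)) = subS (ofPS S) p := by
  have h := map_subS (ι := ι) (ofPS : PowerSeries K →+* LaurentSeries K) ofPS_algebraMap S p
  exact h

theorem map_subS_const (S : PowerSeries K) (p : MvPolynomial (Option ι) K) :
    MvPolynomial.map (PowerSeries.constantCoeff : PowerSeries K →+* K)
      (subS S p : MvPolynomial ι (PowerSeries K)) = subS (PowerSeries.constantCoeff S) p :=
  map_subS (PowerSeries.constantCoeff : PowerSeries K →+* K)
    (fun a => PowerSeries.constantCoeff_C a) S p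

theorem map_GP_ofPS (f : κ → MvPolynomial (Option ι) K) (v : ι → K) (t : κ → K)
    (S : PowerSeries K) (i : ι) : MvPolynomial.map ofPS (GP f v t S i) =
      GG (fun j => (subS (ofPS S) (f j) : MvPolynomial ι (LaurentSeries K)))
        (fun i => HahnSeries.C (v i)) (fun j => HahnSeries.C (t j)) i := by
  rw [GP, map_GG]
  simp only [map_subS_ofPS]
  congr 1
  · funext i
    exact HahnSeries.ofPowerSeries_C (v i)
  · funext j
    exact HahnSeries.ofPowerSeries_C (t j)

theorem map_GP_const (f : κ → MvPolynomial (Option ι) K) (v : ι → K) (t : κ → K)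
    (S : PowerSeries K) (i : ι) : MvPolynomial.map PowerSeries.constantCoeff (GP f v t S i) =
      GG (fun j => (subS (PowerSeries.constantCoeff S) (f j) : MvPolynomial ι K)) v t i := by
  rw [GP, map_GG]
  simp only [map_subS_const, PowerSeries.constantCoeff_C]

theorem eval_ofPS (p : MvPolynomial ι (PowerSeries K)) (X : ι → PowerSeries K) :
    eval (fun i => (ofPS (X i) : LaurentSeries K)) (MvPolynomial.map ofPS p) = ofPS (eval X p) :=
  (map_eval (ofPS : PowerSeries K →+* LaurentSeries K) X p).symm

theorem eval_const (p : MvPolynomial ι (PowerSeries K)) (X : ι → PowerSeries K) :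
    eval (fun i => PowerSeries.constantCoeff (X i)) (MvPolynomial.map PowerSeries.constantCoeff p) =
      PowerSeries.constantCoeff (eval X p) :=
  (map_eval (PowerSeries.constantCoeff : PowerSeries K →+* K) X p).symm

theorem aeval_ofPS (p : MvPolynomial (Option ι) K) (S : PowerSeries K) (X : ι → PowerSeries K) :
    aeval (opt (ofPS S) (fun i => (ofPS (X i) : LaurentSeries K))) p = ofPS (aeval (opt S X) p) := by
  rw [← eval_subS, ← eval_subS, ← map_subS_ofPS, eval_ofPS]

theorem aeval_const (p : MvPolynomial (Option ι) K) (S : PowerSeries K) (X : ι → PowerSeries K) :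
    aeval (opt (PowerSeries.constantCoeff S) (fun i => PowerSeries.constantCoeff (X i))) p =
      PowerSeries.constantCoeff (aeval (opt S X) p) := by
  rw [← eval_subS, ← eval_subS, ← map_subS_const, eval_const]

theorem order_ofPS_eq_zero {P : PowerSeries K} (h : PowerSeries.constantCoeff P ≠ 0) :
    (ofPS P).order = 0 := by
  have h1 : (ofPS P).coeff 0 ≠ 0 := by
    have h2 := ofPS_coeff P 0
    rw [Nat.cast_zero] at h2
    rw [h2, PowerSeries.coeff_zero_eq_constantCoeff_apply]
    exact h
  have h3 : (ofPS P).order ≤ 0 := HahnSeries.order_le_of_coeff_ne_zero h1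
  by_contra hne
  have h4 : (ofPS P).order < 0 := lt_of_le_of_ne h3 hne
  have h5 : ofPS P ≠ 0 := by
    intro h
    rw [h] at h1
    exact h1 rfl
  have h6 : (ofPS P).coeff (ofPS P).order ≠ 0 := by
    rw [Ne, HahnSeries.coeff_order_eq_zero]
    exact h5
  exact h6 (ofPS_coeff_neg P _ h4)

theorem ne_zero_of_const {P : PowerSeries K} (h : PowerSeries.constantCoeff P ≠ 0) :
    ofPS P ≠ 0 := by
  intro h1
  apply h
  have h2 : P = 0 := ofPS_injective (h1.trans (map_zero _).symm)
  rw [h2, map_zero]

theorem const_ne_zero_of_order {P : PowerSeries K} (h0 : ofPS P ≠ 0) (h : (ofPS P).order = 0) :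
    PowerSeries.constantCoeff P ≠ 0 := by
  have h1 : (ofPS P).coeff (ofPS P).order ≠ 0 := by
    rw [Ne, HahnSeries.coeff_order_eq_zero]
    exact h0
  rw [h] at h1
  have h2 := ofPS_coeff P 0
  rw [Nat.cast_zero] at h2
  rw [h2, PowerSeries.coeff_zero_eq_constantCoeff_apply] at h1
  exact h1

/-- A series close to `s0`. -/
theorem exists_ofPS_near (s : LaurentSeries K) (s0 : K) (hs : 0 < (s - HahnSeries.C s0).order) :
    ∃ S : PowerSeries K, s = ofPS S ∧ PowerSeries.constantCoeff S = s0 := by
  obtain ⟨P, hP⟩ := exists_ofPS_of_order (s - HahnSeries.C s0) hs.le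
  refine ⟨P + PowerSeries.C s0, ?_, ?_⟩
  · rw [map_add, hP]
    have h1 : ofPS (PowerSeries.C s0) = HahnSeries.C s0 := HahnSeries.ofPowerSeries_C s0
    rw [h1, sub_add_cancel]
  · rw [map_add, PowerSeries.constantCoeff_C]
    have h2 : (s - HahnSeries.C s0).coeff 0 = 0 := HahnSeries.coeff_eq_zero_of_lt_order hs
    have h3 := ofPS_coeff P 0
    rw [Nat.cast_zero, hP, h2] at h3
    rw [← PowerSeries.coeff_zero_eq_constantCoeff_apply, ← h3, zero_add]

/-- The description of the good solutions. -/
theorem mem_GoodL_iff (f : κ → MvPolynomial (Option ι) K) (v : ι → K) (t : κ → K)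
    (S : PowerSeries K) (x : ι → LaurentSeries K) :
    x ∈ GoodL f v t (ofPS S) ↔ ∃ X : ι → PowerSeries K, (x = fun i => ofPS (X i)) ∧
      (fun i => PowerSeries.constantCoeff (X i)) ∈ CK f v t (PowerSeries.constantCoeff S) ∧
      ∀ i, eval X (GP f v t S i) = 0 := by
  constructor
  · rintro ⟨hx, hord⟩
    have hx' := (mem_crit_iff _ _ _ x).mp hx
    obtain ⟨h1, h2, h3⟩ := hx'
    have h4 : ∀ i, ∃ P : PowerSeries K, ofPS P = x i := fun i =>
      exists_ofPS_of_order (x i) (le_of_eq (hord (Sum.inl i)).symm)
    choose X hX using h4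
    have hxX : x = fun i => ofPS (X i) := funext fun i => (hX i).symm
    subst hxX
    have h5 : ∀ i, eval X (GP f v t S i) = 0 := by
      intro i
      apply ofPS_injective
      rw [← eval_ofPS, map_GP_ofPS, map_zero]
      exact h3 i
    refine ⟨X, rfl, ?_, h5⟩
    rw [CK, mem_crit_iff]
    refine ⟨?_, ?_, ?_⟩
    · intro i
      exact const_ne_zero_of_order (h1 i) (hord (Sum.inl i))
    · intro j
      rw [eval_subS, aeval_const]
      have h6 := h2 j
      rw [eval_subS, aeval_ofPS] at h6
      have h7 := hord (Sum.inr j)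
      simp only [unitsF, Sum.elim_inr, aeval_ofPS] at h7
      exact const_ne_zero_of_order h6 h7
    · intro i
      rw [← map_GP_const, eval_const, h5 i, map_zero]
  · rintro ⟨X, rfl, hξ, h5⟩
    rw [CK, mem_crit_iff] at hξ
    obtain ⟨h1, h2, -⟩ := hξ
    have h2' : ∀ j, PowerSeries.constantCoeff (aeval (opt S X) (f j)) ≠ 0 := by
      intro j
      rw [← aeval_const, ← eval_subS]
      exact h2 j
    refine ⟨?_, ?_⟩
    · rw [CL, mem_crit_iff]
      refine ⟨fun i => ne_zero_of_const (h1 i), ?_, ?_⟩
      · intro j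
        rw [eval_subS, aeval_ofPS]
        exact ne_zero_of_const (h2' j)
      · intro i
        rw [← map_GP_ofPS, eval_ofPS, h5 i, map_zero]
    · rintro (i | j)
      · exact order_ofPS_eq_zero (h1 i)
      · simp only [unitsF, Sum.elim_inr, aeval_ofPS]
        exact order_ofPS_eq_zero (h2' j)

/-- The Jacobian at a good solution reduces to the Jacobian at its limit. -/
theorem Jac_good (f : κ → MvPolynomial (Option ι) K) (v : ι → K) (t : κ → K)
    (S : PowerSeries K) (X : ι → PowerSeries K)
    (h : (Jac (fun j => (subS (PowerSeries.constantCoeff S) (f j) : MvPolynomial ι K)) v t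
      (fun i => PowerSeries.constantCoeff (X i))).det ≠ 0) :
    (Jac (fun j => (subS (ofPS S) (f j) : MvPolynomial ι (LaurentSeries K)))
      (fun i => HahnSeries.C (v i)) (fun j => HahnSeries.C (t j)) (fun i => ofPS (X i))).det ≠
      0 := by
  set J : Matrix ι ι (PowerSeries K) := Matrix.of fun i l => eval X (pderiv l (GP f v t S i))
    with hJ
  have h1 : Jac (fun j => (subS (ofPS S) (f j) : MvPolynomial ι (LaurentSeries K)))
      (fun i => HahnSeries.C (v i)) (fun j => HahnSeries.C (t j)) (fun i => ofPS (X i)) =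
      J.map ofPS := by
    ext1 i l
    rw [Jac, Matrix.of_apply, Matrix.map_apply, hJ, Matrix.of_apply, ← eval_ofPS, ← pderiv_map,
      map_GP_ofPS]
  have h2 : Jac (fun j => (subS (PowerSeries.constantCoeff S) (f j) : MvPolynomial ι K)) v t
      (fun i => PowerSeries.constantCoeff (X i)) = J.map PowerSeries.constantCoeff := by
    ext1 i l
    rw [Jac, Matrix.of_apply, Matrix.map_apply, hJ, Matrix.of_apply, ← eval_const, ← pderiv_map,
      map_GP_const]
  rw [h2] at h
  rw [h1]
  have h3 : ((PowerSeries.constantCoeff : PowerSeries K →+* K).mapMatrix J).det =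
      PowerSeries.constantCoeff J.det :=
    (RingHom.map_det (PowerSeries.constantCoeff : PowerSeries K →+* K) J).symm
  have h4 : (J.map ofPS).det = ofPS J.det := (RingHom.map_det (ofPS : PowerSeries K →+* LaurentSeries K) J).symm
  have h5 : PowerSeries.constantCoeff J.det ≠ 0 := by
    rw [← h3]
    exact h
  rw [h4]
  exact ne_zero_of_const h5

/-- The good solutions correspond to the solutions at the limit. -/
theorem good_count (f : κ → MvPolynomial (Option ι) K) (v : ι → K) (t : κ → K)
    (s : LaurentSeries K) (s0 : K) (hs : 0 < (s - HahnSeries.C s0).order)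
    (hnd : ∀ ξ ∈ CK f v t s0, (Jac (fun j => (subS s0 (f j) : MvPolynomial ι K)) v t ξ).det ≠ 0) :
    (GoodL f v t s).ncard = (CK f v t s0).ncard ∧
      ∀ x ∈ GoodL f v t s, (Jac (fun j => (subS s (f j) : MvPolynomial ι (LaurentSeries K)))
        (fun i => HahnSeries.C (v i)) (fun j => HahnSeries.C (t j)) x).det ≠ 0 := by
  obtain ⟨S, rfl, rfl⟩ := exists_ofPS_near s s0 hs
  refine ⟨?_, ?_⟩
  · have hens : ∀ ξ ∈ CK f v t (PowerSeries.constantCoeff S), ∃! x : ι → PowerSeries K,
        (∀ i, PowerSeries.constantCoeff (x i) = ξ i) ∧ ∀ i, eval x (GP f v t S i) = 0 := by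
      intro ξ hξ
      apply hensel_multi (GP f v t S) ξ
      · intro i
        rw [eval₂_eq_eval_map, map_GP_const]
        exact ((mem_crit_iff _ _ _ ξ).mp hξ).2.2 i
      · have h1 := hnd ξ hξ
        convert h1 using 2
        ext1 i l
        rw [Matrix.of_apply, Jac, Matrix.of_apply, eval₂_eq_eval_map, ← pderiv_map, map_GP_const]
    symm
    apply Set.ncard_congr (fun ξ hξ => fun i => ofPS ((hens ξ hξ).choose i))
    · intro ξ hξ
      rw [mem_GoodL_iff]
      refine ⟨(hens ξ hξ).choose, rfl, ?_, (hens ξ hξ).choose_spec.1.2⟩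
      have h1 : (fun i => PowerSeries.constantCoeff ((hens ξ hξ).choose i)) = ξ :=
        funext fun i => (hens ξ hξ).choose_spec.1.1 i
      rw [h1]
      exact hξ
    · intro ξ ξ' hξ hξ' heq
      funext i
      rw [← (hens ξ hξ).choose_spec.1.1 i, ← (hens ξ' hξ').choose_spec.1.1 i]
      exact congrArg _ (ofPS_injective (congrFun heq i))
    · intro x hx
      rw [mem_GoodL_iff] at hx
      obtain ⟨X, rfl, hξ, hX⟩ := hx
      refine ⟨_, hξ, ?_⟩
      have h1 := (hens _ hξ).choose_spec.2 X ⟨fun _ => rfl, hX⟩
      rw [← h1]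
  · intro x hx
    rw [mem_GoodL_iff] at hx
    obtain ⟨X, rfl, hξ, -⟩ := hx
    exact Jac_good f v t S X (hnd _ hξ)

end Pool.EU
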