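import Pool.Agent.EU.Defs
import Pool.Agent.EU.Cl

/-!
# Towers of algebraic closures
-/

set_option autoImplicit false
set_option linter.unusedSectionVars false

namespace Pool.EU

open Pool.ML Set

theorem isAlgebraic_of_le {k Ω : Type} [Field k] [Field Ω] [Algebra k Ω]
    (S : Subalgebra k Ω) (F : Type) [Field F] [Algebra F Ω] (h : ∀ a ∈ S, ∃ b : F,
      algebraMap F Ω b = a) (z : Ω) (hz : IsAlgebraic S z) : IsAlgebraic F z := by
  choose g hg using fun a : S => h a.1 a.2
  let φ : S →+* F :=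
    { toFun := g
      map_one' := (algebraMap F Ω).injective (by rw [hg, map_one]; rfl)
      map_mul' := fun a b => (algebraMap F Ω).injective (by rw [hg, map_mul, hg, hg]; rfl)
      map_zero' := (algebraMap F Ω).injective (by rw [hg, map_zero]; rfl)
      map_add' := fun a b => (algebraMap F Ω).injective (by rw [hg, map_add, hg, hg]; rfl) }
  have hφ : ∀ a : S, algebraMap F Ω (φ a) = a := hg
  have hinj : Function.Injective φ := by
    intro a b hab
    apply Subtype.ext
    rw [← hφ a, ← hφ b, hab]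
  obtain ⟨p, hp, hpz⟩ := hz
  refine ⟨p.map φ, ?_, ?_⟩
  · rw [Ne, Polynomial.map_eq_zero_iff hinj]
    exact hp
  · rw [Polynomial.aeval_def, Polynomial.eval₂_map]
    rw [Polynomial.aeval_def] at hpz
    rw [← hpz]
    congr 1
    ext a
    exact hφ a

theorem cl_le_of_closed {k Ω : Type} [Field k] [Field Ω] [Algebra k Ω] (T : Set Ω)
    (F : Type) [Field F] [IsAlgClosed F] [Algebra F Ω] (hk : ∀ a : k, ∃ b : F,
      algebraMap F Ω b = algebraMap k Ω a) (hT : ∀ a ∈ T, ∃ b : F, algebraMap F Ω b = a) (z : Ω)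
    (hz : z ∈ cl k T) : ∃ b : F, algebraMap F Ω b = z := by
  apply mem_of_isAlgebraic
  refine isAlgebraic_of_le (Algebra.adjoin k T) F ?_ z (mem_cl'.mp hz)
  intro a ha
  induction ha using Algebra.adjoin_induction with
  | mem a ha => exact hT a ha
  | algebraMap a => exact hk a
  | add a b _ _ ha hb =>
    obtain ⟨a', rfl⟩ := ha
    obtain ⟨b', rfl⟩ := hb
    exact ⟨a' + b', map_add _ _ _⟩
  | mul a b _ _ ha hb =>
    obtain ⟨a', rfl⟩ := ha
    obtain ⟨b', rfl⟩ := hb
    exact ⟨a' * b', map_mul _ _ _⟩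

theorem mem_cl_acl {T S : Set ℂ} {z : ℂ} : z ∈ cl (acl T) S ↔ z ∈ acl (T ∪ S) := by
  constructor
  · intro h
    have hc : IsAlgClosed (acl (T ∪ S)) := isAlgClosed_acl _
    obtain ⟨b, hb⟩ := cl_le_of_closed (k := acl T) S (acl (T ∪ S))
      (fun a => ⟨⟨a, acl_mono subset_union_left a.2⟩, rfl⟩)
      (fun a ha => ⟨⟨a, subset_acl _ (Or.inr ha)⟩, rfl⟩) z h
    rw [← hb]
    exact b.2
  · intro h
    have hc : IsAlgClosed (cl (acl T) S) := isAlgClosed_cl _
    obtain ⟨b, hb⟩ := cl_le_of_closed (k := ℚ) (T ∪ S) (cl (acl T) S)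
      (fun a => ⟨algebraMap ℚ _ a, by simp⟩)
      (fun a ha => by
        rcases ha with ha | ha
        · exact ⟨algebraMap (acl T) (cl (acl T) S) ⟨a, subset_acl T ha⟩, rfl⟩
        · exact ⟨⟨a, subset_cl S ha⟩, rfl⟩) z h
    rw [← hb]
    exact b.2

theorem transcendental_acl {T : Set ℂ} {z : ℂ} : Transcendental (acl T) z ↔ z ∉ acl T := by
  have hc : IsAlgClosed (acl T) := isAlgClosed_acl T
  rw [Transcendental, not_iff_not]
  constructor
  · intro h
    obtain ⟨a, rfl⟩ := mem_of_isAlgebraic z h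
    exact a.2
  · intro h
    exact isAlgebraic_algebraMap (⟨z, h⟩ : acl T)

theorem algInd_of_hom {K L Ω α : Type} [Field K] [Field L] [Field Ω] [Algebra K Ω] [Algebra L Ω]
    (φ : K →+* L) (hφ : ∀ a, algebraMap L Ω (φ a) = algebraMap K Ω a) {y : α → Ω}
    (hy : AlgebraicIndependent L y) : AlgebraicIndependent K y := by
  let : Algebra K L := φ.toAlgebra
  have : IsScalarTower K L Ω := IsScalarTower.of_algebraMap_eq fun a => (hφ a).symm
  exact hy.restrictScalars φ.injective

/-- The inclusion. -/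
noncomputable def incl {Ω : Type} [Field Ω] {k : Type} [Field k] [Algebra k Ω]
    (F F' : IntermediateField k Ω) (h : F ≤ F') : F →+* F' where
  toFun := fun a => ⟨a.1, h a.2⟩
  map_one' := rfl
  map_mul' := fun _ _ => rfl
  map_zero' := rfl
  map_add' := fun _ _ => rfl

theorem algInd_le {Ω α : Type} [Field Ω] {k : Type} [Field k] [Algebra k Ω]
    (F F' : IntermediateField k Ω) (h : F ≤ F') {y : α → Ω}
    (hy : AlgebraicIndependent F' y) : AlgebraicIndependent F y :=
  algInd_of_hom (incl F F' h) (fun _ => rfl) hy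

/-- Restriction of the base. -/
theorem algInd_mono {α : Type} {S T : Set ℂ} {y : α → ℂ} (hy : AlgebraicIndependent (acl T) y)
    (h : S ⊆ acl T) : AlgebraicIndependent (acl S) y :=
  algInd_le _ _ (acl_le h) hy

/-- The split of a family. -/
theorem algInd_option {α : Type} {T : Set ℂ} {y : α → ℂ} {w : ℂ} :
    AlgebraicIndependent (acl T) (fun o : Option α => o.elim w y) ↔
      AlgebraicIndependent (acl T) y ∧ w ∉ acl (T ∪ range y) := by
  rw [AlgebraicIndependent.option_iff, ← mem_cl_acl, mem_cl']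
  rfl

/-- A number outside of everything can be added to the base. -/
theorem algInd_insert {α : Type} {T : Set ℂ} {y : α → ℂ} {s : ℂ}
    (hy : AlgebraicIndependent (acl T) y) (hs : s ∉ acl (T ∪ range y)) :
    AlgebraicIndependent (acl (insert s T)) y := by
  have h1 : AlgebraicIndependent (acl T) (fun o : Option α => o.elim s y) :=
    algInd_option.mpr ⟨hy, hs⟩
  have h2 : AlgebraicIndependent (acl T) (Sum.elim y (fun _ : Unit => s)) := by
    refine (algebraicIndependent_equiv' (Equiv.optionEquivSumPUnit α).symm ?_).mpr h1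
    ext (a | a) <;> simp
  have h3 := (AlgebraicIndependent.sumElim_iff.mp h2).2
  have hr : range (fun _ : Unit => s) = {s} := by
    ext a
    simp [eq_comm]
  rw [hr] at h3
  set R := Algebra.adjoin (acl T) {s} with hR
  have hins : insert s T = T ∪ {s} := by
    ext a
    simp [or_comm]
  rw [hins]
  have hmem : ∀ a ∈ R, a ∈ acl (T ∪ {s}) := by
    intro a ha
    rw [← mem_cl_acl, mem_cl']
    exact isAlgebraic_algebraMap (⟨a, ha⟩ : R)
  let φ : R →+* acl (T ∪ {s}) :=
    { toFun := fun a => ⟨a.1, hmem a.1 a.2⟩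
      map_one' := rfl
      map_mul' := fun _ _ => rfl
      map_zero' := rfl
      map_add' := fun _ _ => rfl }
  let : Algebra R (acl (T ∪ {s})) := φ.toAlgebra
  have : IsScalarTower R (acl (T ∪ {s})) ℂ := IsScalarTower.of_algebraMap_eq fun _ => rfl
  have : Algebra.IsAlgebraic R (acl (T ∪ {s})) := ⟨fun a => by
    have h4 : (a : ℂ) ∈ cl (acl T) {s} := mem_cl_acl.mpr a.2
    have h5 := mem_cl'.mp h4
    exact (isAlgebraic_algHom_iff (IsScalarTower.toAlgHom R (acl (T ∪ {s})) ℂ)
      Subtype.val_injective).mp h5⟩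
  exact h3.extendScalars _

/-- The total exponents: the distinguished exponent is transcendental over the rest. -/
theorem algInd_total {ι κ : Type} {T : Set ℂ} {v : ι → ℂ} {t : κ → ℂ} {w : ℂ} :
    AlgebraicIndependent (acl T) (Sum.elim (opt w v) t) ↔
      AlgebraicIndependent (acl T) (Sum.elim v t) ∧ w ∉ acl (T ∪ range (Sum.elim v t)) := by
  rw [← algInd_option]
  let e : Option (ι ⊕ κ) ≃ Option ι ⊕ κ :=
    { toFun := fun o => o.elim (Sum.inl none) (Sum.elim (fun i => Sum.inl (some i)) Sum.inr)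
      invFun := Sum.elim (fun o => o.elim none (fun i => some (Sum.inl i)))
        (fun j => some (Sum.inr j))
      left_inv := by rintro (_ | (i | j)) <;> rfl
      right_inv := by rintro ((_ | i) | j) <;> rfl }
  refine (algebraicIndependent_equiv' e ?_).symm
  ext (_ | (i | j)) <;> rfl

end Pool.EU
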