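import Pool.Agent.EU.NCDef
import Pool.Agent.EU.Generic
import Pool.Agent.EU.Tower
import Pool.Agent.EU.Aut
import Pool.Agent.EU.Fin

/-!
# The number of critical points does not depend on the choice of the generic exponents
-/

set_option autoImplicit false
set_option linter.unusedSectionVars false

namespace Pool.EU

open MvPolynomial Pool.ML Set

variable {ι κ : Type} [Fintype ι] [Fintype κ] [DecidableEq ι] [DecidableEq κ]

/-- Polynomials with coefficients in a subfield. -/
theorem exists_map_eq {k : Type} [Field k] [Algebra k ℂ] (f : κ → MvPolynomial ι ℂ)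
    (hf : ∀ a ∈ coefs f, ∃ b : k, algebraMap k ℂ b = a) :
    ∃ f0 : κ → MvPolynomial ι k, ∀ j, MvPolynomial.map (algebraMap k ℂ) (f0 j) = f j := by
  have h1 : ∀ j, ∃ p : MvPolynomial ι k, MvPolynomial.map (algebraMap k ℂ) p = f j := by
    intro j
    have h2 : ∀ m, ∃ b : k, algebraMap k ℂ b = coeff m (f j) := fun m => hf _ ⟨j, m, rfl⟩
    choose b hb using h2
    refine ⟨∑ m ∈ (f j).support, monomial m (b m), ?_⟩
    rw [map_sum]
    conv_rhs => rw [(f j).as_sum]
    refine Finset.sum_congr rfl fun m _ => ?_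
    rw [map_monomial, hb]
  choose f0 hf0 using h1
  exact ⟨f0, hf0⟩

theorem coefs_countable (f : κ → MvPolynomial ι ℂ) : (coefs f).Finite := by
  classical
  have h1 : coefs f ⊆ ⋃ j, insert 0 ((f j).support.image fun m => coeff m (f j) : Set ℂ) := by
    rintro _ ⟨j, m, rfl⟩
    rw [mem_iUnion]
    refine ⟨j, ?_⟩
    by_cases hm : coeff m (f j) = 0
    · rw [hm]
      exact mem_insert _ _
    · refine mem_insert_of_mem _ ?_
      rw [Finset.coe_image]
      exact ⟨m, mem_support_iff.mpr hm, rfl⟩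
  exact (finite_iUnion fun j => (Finset.finite_toSet _).insert 0).subset h1

/-- Automorphisms over the field of coefficients. -/
theorem map_crit {k : Type} [Field k] [Algebra k ℂ] (σ : ℂ ≃ₐ[k] ℂ) (f0 : κ → MvPolynomial ι k)
    (v : ι → ℂ) (t : κ → ℂ) :
    (fun x : ι → ℂ => fun i => σ (x i)) ''
      Crit (fun j => MvPolynomial.map (algebraMap k ℂ) (f0 j)) v t =
      Crit (fun j => MvPolynomial.map (algebraMap k ℂ) (f0 j)) (fun i => σ (v i))
        (fun j => σ (t j)) := by
  have hmap : ∀ (τ : ℂ ≃ₐ[k] ℂ) (j), MvPolynomial.map (τ : ℂ ≃+* ℂ).toRingHom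
      (MvPolynomial.map (algebraMap k ℂ) (f0 j)) = MvPolynomial.map (algebraMap k ℂ) (f0 j) := by
    intro τ j
    have h0 : ((τ : ℂ ≃+* ℂ).toRingHom).comp (algebraMap k ℂ) = algebraMap k ℂ :=
      RingHom.ext fun a => τ.commutes a
    rw [MvPolynomial.map_map, h0]
  have key : ∀ (τ : ℂ ≃ₐ[k] ℂ) (v : ι → ℂ) (t : κ → ℂ) (x : ι → ℂ),
      x ∈ Crit (fun j => MvPolynomial.map (algebraMap k ℂ) (f0 j)) v t →
      (fun i => τ (x i)) ∈ Crit (fun j => MvPolynomial.map (algebraMap k ℂ) (f0 j))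
        (fun i => τ (v i)) (fun j => τ (t j)) := by
    intro τ v t x hx
    have h1 := (map_mem_crit (τ : ℂ ≃+* ℂ).toRingHom
      (fun j => MvPolynomial.map (algebraMap k ℂ) (f0 j)) v t x).mpr hx
    simp only [hmap τ] at h1
    exact h1
  apply Subset.antisymm
  · rintro _ ⟨x, hx, rfl⟩
    exact key σ v t x hx
  · intro x hx
    refine ⟨fun i => σ.symm (x i), ?_, ?_⟩
    · have h1 := key σ.symm _ _ x hx
      simp only [AlgEquiv.symm_apply_apply] at h1
      exact h1
    · simp

/-- The number of critical points for generic exponents. -/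
theorem NC_eq (f : κ → MvPolynomial ι ℂ) (T : Set ℂ) (hT : T.Countable) (hf : coefs f ⊆ acl T)
    (v : ι → ℂ) (t : κ → ℂ) (h : AlgebraicIndependent (acl T) (Sum.elim v t)) :
    (Crit f v t).Finite ∧ (Crit f v t).ncard = NC f := by
  classical
  have hex : ∃ y : ι ⊕ κ → ℂ, AlgebraicIndependent (acl (coefs f)) y :=
    ⟨_, algInd_mono h hf⟩
  obtain ⟨f1, hf1⟩ := exists_map_eq (k := acl T) f fun a ha => ⟨⟨a, hf ha⟩, rfl⟩
  have hff1 : f = fun j => MvPolynomial.map (algebraMap (acl T) ℂ) (f1 j) :=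
    funext fun j => (hf1 j).symm
  obtain ⟨f0, hf0⟩ := exists_map_eq (k := acl (coefs f)) f fun a ha => ⟨⟨a, subset_acl _ ha⟩, rfl⟩
  have hff0 : f = fun j => MvPolynomial.map (algebraMap (acl (coefs f)) ℂ) (f0 j) :=
    funext fun j => (hf0 j).symm
  refine ⟨?_, ?_⟩
  · apply crit_finite f v t (T ∪ range (Sum.elim v t)) (hT.union (Set.finite_range _).countable)
    intro x hx i
    rw [hff1] at hx
    have h1 := (generic_point f1 v t h x hx).2 i
    exact mem_cl_acl.mp h1
  · rw [NC, dif_pos hex]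
    obtain ⟨σ, hσ⟩ := exists_autom_family _ _ hex.choose_spec (algInd_mono h hf)
    have h2 := map_crit σ f0 (fun i => hex.choose (Sum.inl i)) (fun j => hex.choose (Sum.inr j))
    have h3 : (fun i => σ (hex.choose (Sum.inl i))) = v := funext fun i => hσ (Sum.inl i)
    have h4 : (fun j => σ (hex.choose (Sum.inr j))) = t := funext fun j => hσ (Sum.inr j)
    rw [h3, h4, ← hff0] at h2
    rw [← h2]
    apply Set.ncard_image_of_injective
    intro x y hxy
    funext i
    exact σ.injective (congrFun hxy i)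

/-- Generic exponents exist. -/
theorem exists_generic (T : Set ℂ) (hT : T.Countable) : ∃ (v : ι → ℂ) (t : κ → ℂ),
    AlgebraicIndependent (acl T) (Sum.elim v t) := by
  obtain ⟨y, hy⟩ := exists_algInd T hT (ι ⊕ κ)
  refine ⟨fun i => y (Sum.inl i), fun j => y (Sum.inr j), ?_⟩
  convert hy using 1
  ext (i | j) <;> rfl

theorem cl_le_of_closed' {k Ω : Type} [Field k] [Field Ω] [Algebra k Ω] (T : Set Ω)
    (F : Type) [Field F] [IsAlgClosed F] (g : F →+* Ω) (hk : ∀ a : k, ∃ b : F,
      g b = algebraMap k Ω a) (hT : ∀ a ∈ T, ∃ b : F, g b = a) (z : Ω)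
    (hz : z ∈ cl k T) : ∃ b : F, g b = z := by
  let : Algebra F Ω := g.toAlgebra
  exact cl_le_of_closed T F hk hT z hz

theorem map_mem_acl (σ : ℂ ≃+* ℂ) (T : Set ℂ) (z : ℂ) (hz : z ∈ acl T) :
    σ z ∈ acl (σ '' T) := by
  have hc : IsAlgClosed (acl (σ '' T)) := isAlgClosed_acl _
  obtain ⟨b, hb⟩ := cl_le_of_closed' (k := ℚ) T (acl (σ '' T))
    ((σ.symm : ℂ →+* ℂ).comp (algebraMap (acl (σ '' T)) ℂ))
    (fun a => ⟨algebraMap ℚ _ a, by simp⟩)
    (fun a ha => ⟨⟨σ a, subset_acl _ ⟨a, ha, rfl⟩⟩, σ.symm_apply_apply a⟩) z hz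
  have h1 : σ.symm (b : ℂ) = z := hb
  rw [← h1, σ.apply_symm_apply]
  exact b.2

theorem algInd_conj (σ : ℂ ≃+* ℂ) {α : Type} (T : Set ℂ) {y : α → ℂ}
    (hy : AlgebraicIndependent (acl T) y) :
    AlgebraicIndependent (acl (σ '' T)) (fun a => σ (y a)) := by
  have hback : σ.symm '' (σ '' T) = T := by
    rw [← Set.image_comp]
    simp
  let φ : acl T →+* acl (σ '' T) :=
    { toFun := fun a => ⟨σ a.1, map_mem_acl σ T a.1 a.2⟩
      map_one' := Subtype.ext (map_one σ)
      map_mul' := fun a b => Subtype.ext (map_mul σ a.1 b.1)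
      map_zero' := Subtype.ext (map_zero σ)
      map_add' := fun a b => Subtype.ext (map_add σ a.1 b.1) }
  have hφ : Function.Surjective φ := by
    intro b
    have h1 := map_mem_acl σ.symm (σ '' T) b.1 b.2
    rw [hback] at h1
    exact ⟨⟨σ.symm b.1, h1⟩, Subtype.ext (σ.apply_symm_apply b.1)⟩
  exact hy.ringHom_of_comp_eq φ (σ : ℂ →+* ℂ) hφ σ.injective (RingHom.ext fun _ => rfl)

theorem coefs_map (σ : ℂ ≃+* ℂ) (f : κ → MvPolynomial ι ℂ) :
    coefs (fun j => MvPolynomial.map σ.toRingHom (f j)) = σ '' coefs f := by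
  ext a
  constructor
  · rintro ⟨j, m, rfl⟩
    rw [coeff_map]
    exact ⟨_, ⟨j, m, rfl⟩, rfl⟩
  · rintro ⟨_, ⟨j, m, rfl⟩, rfl⟩
    exact ⟨j, m, coeff_map _ _ _⟩

/-- The number is the same for conjugate polynomials. -/
theorem NC_conj (σ : ℂ ≃+* ℂ) (f : κ → MvPolynomial ι ℂ) :
    NC (fun j => MvPolynomial.map σ.toRingHom (f j)) = NC f := by
  classical
  obtain ⟨v, t, h⟩ := exists_generic (ι := ι) (κ := κ) (coefs f) (coefs_countable f).countable
  have h1 := (NC_eq f (coefs f) (coefs_countable f).countable (subset_acl _) v t h).2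
  have h2 : AlgebraicIndependent (acl (coefs (fun j => MvPolynomial.map σ.toRingHom (f j))))
      (Sum.elim (fun i => σ (v i)) (fun j => σ (t j))) := by
    rw [coefs_map]
    convert algInd_conj σ _ h using 1
    ext (i | j) <;> rfl
  have h3 := (NC_eq (fun j => MvPolynomial.map σ.toRingHom (f j)) _
    (coefs_countable _).countable (subset_acl _) _ _ h2).2
  rw [← h1, ← h3]
  have h4 : (fun x : ι → ℂ => fun i => σ (x i)) '' Crit f v t =
      Crit (fun j => MvPolynomial.map σ.toRingHom (f j)) (fun i => σ (v i)) (fun j => σ (t j)) := by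
    apply Subset.antisymm
    · rintro _ ⟨x, hx, rfl⟩
      exact (map_mem_crit σ.toRingHom f v t x).mpr hx
    · intro x hx
      refine ⟨fun i => σ.symm (x i), ?_, ?_⟩
      · have h5 : (fun i => σ (σ.symm (x i))) = x := funext fun i => σ.apply_symm_apply (x i)
        rw [← map_mem_crit σ.toRingHom f v t]
        change (fun i => σ (σ.symm (x i))) ∈ _
        rw [h5]
        exact hx
      · funext i
        exact σ.apply_symm_apply (x i)
  rw [← h4]
  apply Set.ncard_image_of_injective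
  intro x y hxy
  funext i
  exact σ.injective (congrFun hxy i)

end Pool.EU
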