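import Pool.Agent.EC.SwapC

/-!
# The fibration formula over a torus, from the fibration formula over the punctured line
-/

set_option autoImplicit false
set_option linter.unusedSectionVars false

namespace Pool.EU

open MvPolynomial Pool.ML

/-- The fibration formula over the punctured line. -/
def Peel : Prop := ∀ (ι κ : Type) [Fintype ι] [Fintype κ] [DecidableEq ι] [DecidableEq κ]
    (f : κ → MvPolynomial (Option ι) ℂ), EC.TameL (fibN f) ∧ (NC f : ℤ) = -EC.IC (fibN f)

/-- Isolate the first variable. -/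
def peelE (a : ℕ) (ι : Type) : Fin (a + 1) ⊕ ι ≃ Option (Fin a ⊕ ι) where
  toFun := Sum.elim (Fin.cases none (fun i => some (Sum.inl i))) (fun j => some (Sum.inr j))
  invFun o := o.elim (Sum.inl 0) (Sum.elim (fun i => Sum.inl i.succ) Sum.inr)
  left_inv := by
    rintro (i | j)
    · refine Fin.cases ?_ (fun i => ?_) i
      · rfl
      · rfl
    · rfl
  right_inv := by
    rintro (_ | (i | j)) <;> rfl

theorem subF_zero {ι : Type} (x : Fin 0 → ℂ) (p : MvPolynomial (Fin 0 ⊕ ι) ℂ) :
    subF x p = rename (Equiv.emptySum (Fin 0) ι) p := by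
  induction p using MvPolynomial.induction_on with
  | C a => simp [subF]
  | add p q hp hq => rw [map_add, map_add, hp, hq]
  | mul_X p o hp =>
    rw [map_mul, map_mul, hp]
    congr 1
    rcases o with i | j
    · exact i.elim0
    · simp [subF]

theorem subF_cons {a : ℕ} {ι : Type} (s : ℂ) (x : Fin a → ℂ)
    (p : MvPolynomial (Fin (a + 1) ⊕ ι) ℂ) :
    (subF (Fin.cons s x : Fin (a + 1) → ℂ) p : MvPolynomial ι ℂ) =
      subF x (subS s (rename (peelE a ι) p) : MvPolynomial (Fin a ⊕ ι) ℂ) := by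
  induction p using MvPolynomial.induction_on with
  | C a => simp [subF, subS]
  | add p q hp hq => rw [map_add, map_add, map_add, map_add, hp, hq]
  | mul_X p o hp =>
    rw [map_mul, map_mul, map_mul, map_mul, hp]
    congr 1
    rcases o with i | j
    · refine Fin.cases ?_ (fun i => ?_) i
      · simp [subF, subS, peelE]
      · simp [subF, subS, peelE]
    · simp [subF, subS, peelE]

theorem fibNF_cons {a : ℕ} {ι κ : Type} [Fintype ι] [Fintype κ] [DecidableEq ι] [DecidableEq κ]
    (f : κ → MvPolynomial (Fin (a + 1) ⊕ ι) ℂ) (s : ℂ) (x : Fin a → ℂ) :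
    fibNF f (Fin.cons s x) = if s = 0 then 0 else
      fibNF (fun j => (subS s (rename (peelE a ι) (f j)) : MvPolynomial (Fin a ⊕ ι) ℂ)) x := by
  classical
  have h1 : (∃ i, (Fin.cons s x : Fin (a + 1) → ℂ) i = 0) ↔ s = 0 ∨ ∃ i, x i = 0 := by
    rw [Fin.exists_fin_succ]
    simp only [Fin.cons_zero, Fin.cons_succ]
  by_cases hs : s = 0
  · rw [if_pos hs, fibNF, if_pos (h1.mpr (Or.inl hs))]
  · rw [if_neg hs]
    by_cases hx : ∃ i, x i = 0
    · rw [fibNF, fibNF, if_pos (h1.mpr (Or.inr hx)), if_pos hx]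
    · rw [fibNF, fibNF, if_neg hx, if_neg]
      · simp only [subF_cons]
      · rw [h1]
        rintro (h | h)
        · exact hs h
        · exact hx h

/-- The fibration formula over the torus of dimension `a`. -/
theorem peelF_of (hNC : NCeq) (hP : Peel) (a : ℕ) : ∀ (ι κ : Type) [Fintype ι] [Fintype κ]
    [DecidableEq ι] [DecidableEq κ] (f : κ → MvPolynomial (Fin a ⊕ ι) ℂ),
    EC.Tame a (fibNF f) ∧ (NC f : ℤ) = (-1) ^ a * EC.EI a (fibNF f) := by
  classical
  induction a with
  | zero =>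
    intro ι κ _ _ _ _ f
    refine ⟨trivial, ?_⟩
    rw [pow_zero, one_mul, EC.EI_zero, fibNF, if_neg (by rintro ⟨i, -⟩; exact i.elim0)]
    simp only [subF_zero]
    rw [NC_rename hNC]
  | succ a ih =>
    intro ι κ _ _ _ _ f
    set g : κ → MvPolynomial (Option (Fin a ⊕ ι)) ℂ := fun j => rename (peelE a ι) (f j) with hg
    obtain ⟨h1, h2⟩ := hP (Fin a ⊕ ι) κ g
    have h3 : NC g = NC f := NC_rename hNC (peelE a ι) f
    have h4 : ∀ s : ℂ, EC.Tame a (fun x => fibNF f (Fin.cons s x)) ∧
        fibN g s = (-1) ^ a * EC.EI a (fun x => fibNF f (Fin.cons s x)) := by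
      intro s
      simp only [fibNF_cons]
      by_cases hs : s = 0
      · simp only [if_pos hs]
        have h5 := EC.tame_const_and (K := ℂ) a 0
        refine ⟨h5.1, ?_⟩
        rw [h5.2, fibN, if_pos hs, mul_zero]
      · simp only [if_neg hs]
        obtain ⟨h5, h6⟩ := ih ι κ (fun j => (subS s (g j) : MvPolynomial (Fin a ⊕ ι) ℂ))
        refine ⟨h5, ?_⟩
        rw [fibN, if_neg hs, h6]
    have h5 : ((-1 : ℤ) ^ a) * (-1) ^ a = 1 := by
      rw [← mul_pow]
      norm_num
    have h6 : ∀ s : ℂ, EC.EI a (fun x => fibNF f (Fin.cons s x)) = (-1) ^ a * fibN g s := by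
      intro s
      rw [(h4 s).2, ← mul_assoc, h5, one_mul]
    have h7 : EC.TameL (fun s : ℂ => EC.EI a (fun x => fibNF f (Fin.cons s x))) := by
      simp only [h6]
      exact h1.comp (fun z => (-1) ^ a * z)
    refine ⟨⟨fun s => (h4 s).1, h7⟩, ?_⟩
    rw [EC.EI_succ, ← h3, h2]
    simp only [h6]
    rw [EC.IC_mul h1, pow_succ, mul_comm ((-1 : ℤ) ^ a) (-1), mul_assoc, ← mul_assoc ((-1 : ℤ) ^ a),
      h5, one_mul, neg_one_mul]

theorem peel2_of (hNC : NCeq) (hP : Peel) : Peel2 := fun κ _ _ f =>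
  (peelF_of hNC hP 2 (Fin 0) κ f).2

end Pool.EU
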