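import Pool.Agent.EU.Branch
import Pool.Agent.EU.NC
import Pool.Agent.EU.PeelF
import Pool.Agent.EU.Alg

/-!
# The fibration formula over the punctured line
-/

set_option autoImplicit false
set_option linter.unusedSectionVars false

namespace Pool.EU

open MvPolynomial Pool.ML Set

variable {ι κ : Type} [Fintype ι] [Fintype κ] [DecidableEq ι] [DecidableEq κ]

theorem coe_eq_algebraMap (F : IntermediateField ℚ ℂ) (a : F) : algebraMap F ℂ a = (a : ℂ) := rfl

theorem coe_incl {F F' : IntermediateField ℚ ℂ} (h : F ≤ F') (a : F) :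
    algebraMap F' ℂ (incl F F' h a) = algebraMap F ℂ a := rfl

/-- The coefficients of the fibre. -/
theorem coefs_subS (F : IntermediateField ℚ ℂ) (f : κ → MvPolynomial (Option ι) ℂ)
    (hf : coefs f ⊆ F) (s : ℂ) (hs : s ∈ F) :
    coefs (fun j => (subS s (f j) : MvPolynomial ι ℂ)) ⊆ F := by
  obtain ⟨f0, hf0⟩ := exists_map_eq (k := F) f fun a ha => ⟨⟨a, hf ha⟩, rfl⟩
  rintro _ ⟨j, m, rfl⟩
  have h := map_subS (k := F) (ι := ι) (algebraMap F ℂ) (fun _ => rfl) (⟨s, hs⟩ : F) (f0 j)
  have h2 : (subS s (f j) : MvPolynomial ι ℂ) =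
      MvPolynomial.map (algebraMap F ℂ) (subS (⟨s, hs⟩ : F) (f0 j)) := by
    rw [← hf0 j, subS_map (algebraMap F ℂ) (fun _ => rfl) s (f0 j), h]
    rfl
  change coeff m (subS s (f j) : MvPolynomial ι ℂ) ∈ F
  rw [h2, coeff_map]
  exact SetLike.coe_mem _

/-- Places over the finite points. -/
theorem exists_place_fin {K : Type} [Field K] [Algebra K ℂ] [IsAlgClosed K] [CharZero K]
    {f : κ → MvPolynomial (Option ι) K} {v : ι → K} {t : κ → K} {s : ℂ} (hs : Transcendental K s)
    (hfin : (crt f v t s).Finite) (halg : ∀ x ∈ crt f v t s, ∀ i, x i ∈ cl K {s}) (t0 : K) :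
    ∃ p : CPlace f v t s, 0 < (p.ser s - HahnSeries.C t0).order := by
  obtain ⟨p, hzF, hord⟩ := exists_cplace hfin halg (s - algebraMap K ℂ t0) (by
    intro h
    have h1 : IsAlgebraic K (s - algebraMap K ℂ t0 + algebraMap K ℂ t0) :=
      h.add (isAlgebraic_algebraMap t0)
    rw [sub_add_cancel] at h1
    exact hs h1) (by
    have h1 : s - algebraMap K ℂ t0 ∈ cl K {s - algebraMap K ℂ t0} := subset_cl _ rfl
    have h2 := IntermediateField.add_mem _ h1
      ((cl K {s - algebraMap K ℂ t0}).algebraMap_mem t0)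
    rw [sub_add_cancel] at h2
    exact h2)
  refine ⟨p, ?_⟩
  have h3 : p.φ ⟨s - algebraMap K ℂ t0, hzF⟩ = p.ser s - HahnSeries.C t0 := by
    have h4 : (⟨s - algebraMap K ℂ t0, hzF⟩ : p.F) = ⟨s, p.hs⟩ - algebraMap K p.F t0 := rfl
    rw [h4, map_sub, p.hC, ← p.ser_s]
  rw [← h3]
  exact hord

/-- A place over infinity. -/
theorem exists_place_inf {K : Type} [Field K] [Algebra K ℂ] [IsAlgClosed K] [CharZero K]
    {f : κ → MvPolynomial (Option ι) K} {v : ι → K} {t : κ → K} {s : ℂ} (hs : Transcendental K s)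
    (hfin : (crt f v t s).Finite) (halg : ∀ x ∈ crt f v t s, ∀ i, x i ∈ cl K {s}) :
    ∃ p : CPlace f v t s, (p.ser s).order < 0 := by
  have hs0 : s ≠ 0 := by
    rintro rfl
    exact hs isAlgebraic_zero
  obtain ⟨p, hzF, hord⟩ := exists_cplace hfin halg s⁻¹ (by
    intro h
    have h1 := h.inv
    rw [inv_inv] at h1
    exact hs h1) (by
    have h1 : s⁻¹ ∈ cl K {s⁻¹} := subset_cl _ rfl
    have h2 := IntermediateField.inv_mem _ h1
    rw [inv_inv] at h2
    exact h2)
  refine ⟨p, ?_⟩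
  have h3 : p.φ ⟨s⁻¹, hzF⟩ * p.ser s = 1 := by
    rw [p.ser_s, ← map_mul]
    have h4 : (⟨s⁻¹, hzF⟩ : p.F) * ⟨s, p.hs⟩ = 1 := Subtype.ext (inv_mul_cancel₀ hs0)
    rw [h4, map_one]
  have h5 : p.φ ⟨s⁻¹, hzF⟩ ≠ 0 := left_ne_zero_of_mul_eq_one h3
  have h6 : p.ser s ≠ 0 := right_ne_zero_of_mul_eq_one h3
  have h7 := HahnSeries.order_mul h5 h6
  rw [h3, HahnSeries.order_one] at h7
  omega

/-- No poles at the points which are transcendental over the field of coefficients. -/
theorem no_pole {k0 K : Type} [Field k0] [CharZero k0] [Field K] [CharZero K] [Algebra ℚ K]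
    [Algebra k0 K] [Algebra K ℂ] (f00 : κ → MvPolynomial (Option ι) k0) (V : ι → K) (W : κ → K)
    (hli : LinearIndependent ℚ (Sum.elim V W)) (s : ℂ)
    (p : CPlace (fun j => MvPolynomial.map (algebraMap k0 K) (f00 j)) V W s) (t0 : K)
    (hs : 0 < (p.ser s - HahnSeries.C t0).order) (ht0 : Transcendental k0 t0) (x : ι → ℂ)
    (hx : x ∈ crt (fun j => MvPolynomial.map (algebraMap k0 K) (f00 j)) V W s) :
    0 ≤ (p.ser (hval (fun j => MvPolynomial.map (algebraMap k0 K) (f00 j)) W s x)).order := by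
  obtain ⟨D, hD⟩ := exists_der t0 ht0
  have h1 := all_good (algebraMap k0 K) f00 V W hli (p.ser s) t0 hs (D.restrictScalars ℤ)
    (fun a => D.map_algebraMap a) (by
      change D t0 ≠ 0
      rw [hD]
      exact one_ne_zero) _ (p.ser_mem x hx)
  rw [p.ser_hfun x hx]
  exact good_regular _ V W (p.ser s) t0 hs _ h1

theorem finsum_coe {K : Type} (e : K → ℂ) (he : Function.Injective e) (h : ℂ → ℤ)
    (hs : ∀ s, h s ≠ 0 → s ∈ range e) : ∑ᶠ s, h s = ∑ᶠ a : K, h (e a) := by
  rw [← finsum_mem_range he, ← finsum_mem_univ h]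
  apply finsum_mem_inter_support_eq'
  intro s hs'
  exact ⟨fun _ => hs s hs', fun _ => mem_univ s⟩

/-- The Euler integral of a function which is constant outside of a finite set. -/
theorem IC_eq_neg {K : Type} (e : K → ℂ) (he : Function.Injective e) (z : K) (hz : e z = 0)
    (φ : ℂ → ℤ) (G : ℤ)
    (E : K → ℕ) (hE : (Function.support E).Finite) (h0 : φ 0 = 0) (hEz : E z = 0)
    (h1 : ∀ s, s ∉ range e → φ s = G) (h2 : ∀ a : K, e a ≠ 0 → φ (e a) = G - E a) :
    EC.TameL φ ∧ EC.IC φ = -((∑ᶠ a, E a : ℕ) : ℤ) := by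
  classical
  have hfin : {s | φ s ≠ G}.Finite := by
    apply ((hE.image e).insert 0).subset
    intro s hs
    by_cases hs0 : s = 0
    · exact Or.inl hs0
    · right
      by_cases hr : s ∈ range e
      · obtain ⟨a, rfl⟩ := hr
        refine ⟨a, ?_, rfl⟩
        intro ha
        apply hs
        rw [h2 a hs0, ha]
        simp
      · exact absurd (h1 s hr) hs
  refine ⟨⟨G, hfin⟩, ?_⟩
  rw [EC.IC_of hfin]
  let h' : ℂ → ℤ := fun s => if s = 0 then 0 else φ s - G
  have h3 : ∀ s, φ s - G = (if s = 0 then -G else 0) + h' s := by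
    intro s
    by_cases hs : s = 0
    · simp only [h', hs, if_true, h0]
      ring
    · simp only [h', if_neg hs]
      ring
  have h4 : (Function.support h').Finite := by
    apply hfin.subset
    intro s hs hs'
    apply hs
    change (if s = 0 then 0 else φ s - G) = 0
    rw [hs', sub_self, ite_self]
  have h5 : (Function.support (fun s : ℂ => if s = 0 then -G else 0)).Finite := by
    apply (finite_singleton (0 : ℂ)).subset
    intro s hs
    by_contra hc
    exact hs (if_neg hc)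
  rw [finsum_congr h3, finsum_add_distrib h5 h4, finsum_eq_single _ 0 (fun s hs => if_neg hs),
    if_pos rfl, finsum_coe e he h' (fun s hs => by
      by_contra hc
      apply hs
      change (if s = 0 then 0 else φ s - G) = 0
      rw [h1 s hc, sub_self, ite_self])]
  have h6 : ∀ a : K, h' (e a) = -((E a : ℕ) : ℤ) := by
    intro a
    by_cases ha : e a = 0
    · have h7 : a = z := he (ha.trans hz.symm)
      have h8 : h' (e a) = 0 := if_pos ha
      rw [h8, h7, hEz, Nat.cast_zero, neg_zero]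
    · simp only [h', if_neg ha, h2 a ha]
      ring
  rw [finsum_congr h6, finsum_neg_distrib]
  have h8 := (Nat.castAddMonoidHom ℤ).map_finsum_of_injective Nat.cast_injective E
  change ((∑ᶠ a, E a : ℕ) : ℤ) = ∑ᶠ a, ((E a : ℕ) : ℤ) at h8
  rw [h8]
  ring

section setup

variable {F F' : IntermediateField ℚ ℂ}

/-- The polynomials over the field of definition. -/
noncomputable def fK (hFF : F ≤ F') (f00 : κ → MvPolynomial (Option ι) F) :
    κ → MvPolynomial (Option ι) F' :=
  fun j => MvPolynomial.map (incl F F' hFF) (f00 j)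

/-- The polynomials over the complex numbers. -/
noncomputable def fC {τ : Type} (f00 : κ → MvPolynomial τ F) : κ → MvPolynomial τ ℂ :=
  fun j => MvPolynomial.map (algebraMap F ℂ) (f00 j)

theorem coefs_fC {τ : Type} [Fintype τ] [DecidableEq τ]
    (f00 : κ → MvPolynomial τ F) : coefs (fC f00) ⊆ F := by
  rintro _ ⟨j, m, rfl⟩
  rw [fC, coeff_map]
  exact SetLike.coe_mem _

variable (hFF : F ≤ F') (f00 : κ → MvPolynomial (Option ι) F) (V : ι → F') (W : κ → F')

theorem subS_fC (s : ℂ) (j : κ) : (subS s (fC f00 j) : MvPolynomial ι ℂ) = subS s (f00 j) := by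
  rw [fC, subS_map (algebraMap F ℂ) (fun _ => rfl)]

theorem subS_fK (s : ℂ) (j : κ) : (subS s (fK hFF f00 j) : MvPolynomial ι ℂ) =
    subS s (fC f00 j) := by
  rw [subS_fC, fK, subS_map (incl F F' hFF) (coe_incl hFF)]

theorem crt_fK (s : ℂ) : crt (fK hFF f00) V W s =
    Crit (fun j => (subS s (fC f00 j) : MvPolynomial ι ℂ)) (fun i => (V i : ℂ))
      (fun j => (W j : ℂ)) := by
  rw [crt]
  simp only [subS_fK, coe_eq_algebraMap]

theorem map_fK (j : κ) : MvPolynomial.map (algebraMap F' ℂ) (fK hFF f00 j) = fC f00 j := by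
  rw [fK, MvPolynomial.map_map]
  have h : (algebraMap F' ℂ).comp (incl F F' hFF) = algebraMap F ℂ :=
    RingHom.ext (coe_incl hFF)
  rw [h]
  rfl

theorem mem_CK_iff {K : Type} [Field K] [Algebra K ℂ] (f : κ → MvPolynomial (Option ι) K)
    (v : ι → K) (t : κ → K) (s0 : K) (ξ : ι → K) : ξ ∈ CK f v t s0 ↔
      (fun i => algebraMap K ℂ (ξ i)) ∈ crt f v t (algebraMap K ℂ s0) := by
  have h1 := map_mem_crit (algebraMap K ℂ) (fun j => (subS s0 (f j) : MvPolynomial ι K)) v t ξ
  have h2 : ∀ j, MvPolynomial.map (algebraMap K ℂ) (subS s0 (f j) : MvPolynomial ι K) =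
      subS (algebraMap K ℂ s0) (f j) := fun j =>
    map_subS (k := K) (ι := ι) (algebraMap K ℂ) (fun _ => rfl) s0 (f j)
  simp only [h2] at h1
  exact h1.symm

theorem CK_ncard {K : Type} [Field K] [Algebra K ℂ] (f : κ → MvPolynomial (Option ι) K)
    (v : ι → K) (t : κ → K) (s0 : K)
    (h : ∀ x ∈ crt f v t (algebraMap K ℂ s0), ∀ i, ∃ a : K, algebraMap K ℂ a = x i) :
    (CK f v t s0).ncard = (crt f v t (algebraMap K ℂ s0)).ncard := by
  apply Set.ncard_congr (fun ξ _ => fun i => algebraMap K ℂ (ξ i))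
  · intro ξ hξ
    exact (mem_CK_iff f v t s0 ξ).mp hξ
  · intro ξ η _ _ hh
    funext i
    exact (algebraMap K ℂ).injective (congrFun hh i)
  · intro x hx
    choose ξ hξ using h x hx
    have h1 : (fun i => algebraMap K ℂ (ξ i)) = x := funext hξ
    refine ⟨ξ, ?_, h1⟩
    rw [mem_CK_iff, h1]
    exact hx

theorem nondeg {k0 K : Type} [Field k0] [Field K] [CharZero k0] [Algebra k0 K] [Algebra K ℂ]
    [Algebra k0 ℂ] [IsScalarTower k0 K ℂ] (f00 : κ → MvPolynomial (Option ι) k0) (V : ι → K)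
    (W : κ → K) (h : AlgebraicIndependent k0
      (Sum.elim (fun i => algebraMap K ℂ (V i)) (fun j => algebraMap K ℂ (W j)))) (s00 : k0)
    (ξ : ι → K) (hξ : ξ ∈ CK (fun j => MvPolynomial.map (algebraMap k0 K) (f00 j)) V W
      (algebraMap k0 K s00)) :
    (Jac (fun j => (subS (algebraMap k0 K s00) (MvPolynomial.map (algebraMap k0 K) (f00 j)) :
      MvPolynomial ι K)) V W ξ).det ≠ 0 := by
  have h1 : ∀ j, (subS (algebraMap k0 K s00) (MvPolynomial.map (algebraMap k0 K) (f00 j)) :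
      MvPolynomial ι K) = MvPolynomial.map (algebraMap k0 K) (subS s00 (f00 j)) := by
    intro j
    rw [subS_map (algebraMap k0 K) (fun _ => rfl),
      map_subS (k := k0) (algebraMap k0 K) (fun _ => rfl)]
  have h2 : AlgebraicIndependent k0 (Sum.elim V W) := by
    rw [← AlgHom.algebraicIndependent_iff (IsScalarTower.toAlgHom k0 K ℂ)
      (algebraMap K ℂ).injective]
    convert h using 1
    ext (i | j) <;> rfl
  rw [CK] at hξ
  simp only [h1] at hξ ⊢
  exact det_Jac_ne_zero _ V W h2 ξ hξ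

/-- Outside of the field of definition. -/
theorem crt_generic (T : Set ℂ) (hT : T.Countable) (hF : F = acl T)
    (hF' : F' = acl (T ∪ range (Sum.elim (fun i => (V i : ℂ)) (fun j => (W j : ℂ)))))
    (h : AlgebraicIndependent F (Sum.elim (fun i => (V i : ℂ)) (fun j => (W j : ℂ)))) (s : ℂ)
    (hs : s ∉ F') :
    (crt (fK hFF f00) V W s).Finite ∧
    (crt (fK hFF f00) V W s).ncard = NC (fun j => (subS s (fC f00 j) : MvPolynomial ι ℂ)) ∧
    ∀ x ∈ crt (fK hFF f00) V W s, ∀ i, x i ∈ cl F' {s} := by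
  rw [crt_fK]
  set v : ι → ℂ := fun i => (V i : ℂ) with hv
  set t : κ → ℂ := fun j => (W j : ℂ) with ht
  have hs' : s ∉ acl (T ∪ range (Sum.elim v t)) := by rwa [← hF']
  have hTF : T ⊆ F := by
    rw [hF]
    exact subset_acl T
  have h0 : AlgebraicIndependent (acl T) (Sum.elim v t) := by
    rw [← hF]
    exact h
  have h1 : AlgebraicIndependent (acl (insert s T)) (Sum.elim v t) := algInd_insert h0 hs'
  have hle : F ≤ acl (insert s T) := by
    rw [hF]
    exact acl_mono (subset_insert _ _)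
  have h2 : coefs (fun j => (subS s (fC f00 j) : MvPolynomial ι ℂ)) ⊆ acl (insert s T) := by
    apply coefs_subS
    · exact (coefs_fC f00).trans hle
    · exact subset_acl _ (mem_insert _ _)
  obtain ⟨h3, h4⟩ := NC_eq _ (insert s T) (hT.insert s) h2 v t h1
  refine ⟨h3, h4, ?_⟩
  obtain ⟨f1, hf1⟩ := exists_map_eq (k := acl (insert s T))
    (fun j => (subS s (fC f00 j) : MvPolynomial ι ℂ)) fun a ha => ⟨⟨a, h2 ha⟩, rfl⟩
  intro x hx i
  have h5 : x ∈ Crit (fun j => MvPolynomial.map (algebraMap (acl (insert s T)) ℂ) (f1 j)) v t := by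
    simp only [hf1]
    exact hx
  have h6 := (generic_point f1 v t h1 x h5).2 i
  have h7 : insert s T ∪ range (Sum.elim v t) = T ∪ range (Sum.elim v t) ∪ {s} := by
    ext a
    simp only [mem_union, mem_insert_iff, mem_singleton_iff]
    tauto
  rw [mem_cl_acl, h7, ← mem_cl_acl] at h6
  clear_value v t
  subst hF'
  exact h6

/-- Over the field of coefficients. -/
theorem crt_special (T : Set ℂ) (hT : T.Countable) (hF : F = acl T)
    (hF' : F' = acl (T ∪ range (Sum.elim (fun i => (V i : ℂ)) (fun j => (W j : ℂ)))))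
    (h : AlgebraicIndependent F (Sum.elim (fun i => (V i : ℂ)) (fun j => (W j : ℂ)))) (s : ℂ)
    (hs : s ∈ F) :
    (crt (fK hFF f00) V W s).ncard = NC (fun j => (subS s (fC f00 j) : MvPolynomial ι ℂ)) ∧
    ∀ x ∈ crt (fK hFF f00) V W s, ∀ i, x i ∈ F' := by
  rw [crt_fK]
  set v : ι → ℂ := fun i => (V i : ℂ) with hv
  set t : κ → ℂ := fun j => (W j : ℂ) with ht
  have h0 : AlgebraicIndependent (acl T) (Sum.elim v t) := by
    rw [← hF]
    exact h
  have h2 : coefs (fun j => (subS s (fC f00 j) : MvPolynomial ι ℂ)) ⊆ acl T := by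
    rw [← hF]
    exact coefs_subS F _ (coefs_fC f00) s hs
  obtain ⟨h3, h4⟩ := NC_eq _ T hT h2 v t h0
  refine ⟨h4, ?_⟩
  obtain ⟨f1, hf1⟩ := exists_map_eq (k := acl T)
    (fun j => (subS s (fC f00 j) : MvPolynomial ι ℂ)) fun a ha => ⟨⟨a, h2 ha⟩, rfl⟩
  intro x hx i
  have h5 : x ∈ Crit (fun j => MvPolynomial.map (algebraMap (acl T) ℂ) (f1 j)) v t := by
    simp only [hf1]
    exact hx
  have h6 := (generic_point f1 v t h0 x h5).2 i
  rw [mem_cl_acl] at h6
  rw [hF']
  exact h6

theorem nondeg' (h : AlgebraicIndependent F (Sum.elim (fun i => (V i : ℂ)) (fun j => (W j : ℂ))))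
    (s00 : F) (ξ : ι → F') (hξ : ξ ∈ CK (fK hFF f00) V W (incl F F' hFF s00)) :
    (Jac (fun j => (subS (incl F F' hFF s00) (fK hFF f00 j) : MvPolynomial ι F')) V W ξ).det
      ≠ 0 := by
  let : Algebra F F' := (incl F F' hFF).toAlgebra
  have : IsScalarTower F F' ℂ := IsScalarTower.of_algebraMap_eq fun a => (coe_incl hFF a).symm
  exact nondeg f00 V W h s00 ξ hξ

theorem no_pole' (hli : LinearIndependent ℚ (Sum.elim V W)) (s : ℂ)
    (p : CPlace (fK hFF f00) V W s) (t0 : F')
    (hs : 0 < (p.ser s - HahnSeries.C t0).order) [IsAlgClosed F] (ht0 : (t0 : ℂ) ∉ F) (x : ι → ℂ)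
    (hx : x ∈ crt (fK hFF f00) V W s) : 0 ≤ (p.ser (hval (fK hFF f00) W s x)).order := by
  let : Algebra F F' := (incl F F' hFF).toAlgebra
  refine no_pole f00 V W hli s p t0 hs ?_ x hx
  intro h
  obtain ⟨a, ha⟩ := mem_of_isAlgebraic t0 h
  apply ht0
  rw [← ha]
  exact a.2

theorem linInd_of_algInd {α : Type} {F : IntermediateField ℚ ℂ} (y : α → ℂ)
    (h : AlgebraicIndependent F y) : LinearIndependent ℚ y :=
  h.linearIndependent.restrict_scalars (by
    intro a b hab
    simp only [Algebra.smul_def, mul_one] at hab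
    exact (algebraMap ℚ F).injective hab)

theorem linInd_coe {α : Type} (y : α → F') (h : LinearIndependent ℚ (fun a => (y a : ℂ))) :
    LinearIndependent ℚ y :=
  LinearIndependent.of_comp F'.val.toLinearMap h

/-- The number of critical points in the fibre does not depend on the generic fibre. -/
theorem NC_fibre_const (T : Set ℂ) (hF : F = acl T) (s s' : ℂ) (hs : s ∉ F) (hs' : s' ∉ F) :
    NC (fun j => (subS s (fC f00 j) : MvPolynomial ι ℂ)) =
      NC (fun j => (subS s' (fC f00 j) : MvPolynomial ι ℂ)) := by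
  have h1 : ∀ z : ℂ, z ∉ F → Transcendental F z := by
    subst hF
    exact fun z hz => transcendental_acl.mpr hz
  obtain ⟨σ, hσ⟩ := exists_autom_move s s' (h1 s hs) (h1 s' hs')
  rw [← NC_conj (σ : ℂ ≃+* ℂ)]
  congr 1
  funext j
  rw [subS_fC, subS_fC]
  have h2 := map_subS (k := F) (ι := ι) (σ : ℂ ≃+* ℂ).toRingHom (fun a => σ.commutes a) s (f00 j)
  rw [h2]
  congr 1
  exact congrArg _ hσ

theorem transcendental_iff_notMem {F' : IntermediateField ℚ ℂ} [IsAlgClosed F'] (z : ℂ) :
    Transcendental F' z ↔ z ∉ F' := by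
  rw [Transcendental, not_iff_not]
  constructor
  · intro h
    obtain ⟨a, rfl⟩ := mem_of_isAlgebraic z h
    exact a.2
  · intro h
    exact isAlgebraic_algebraMap (⟨z, h⟩ : F')

theorem hval_mem_of (s : ℂ) (x : ι → ℂ) (hs : s ∈ F') (hx : ∀ i, x i ∈ F')
    (f : κ → MvPolynomial (Option ι) F') : hval f W s x ∈ F' := by
  have h1 := map_hval f W (algebraMap F' ℂ) (fun _ => rfl) (⟨s, hs⟩ : F')
    (fun i => ⟨x i, hx i⟩)
  have h2 : hval f W s x = ((hval f W (⟨s, hs⟩ : F') (fun i => ⟨x i, hx i⟩) : F') : ℂ) :=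
    h1.symm
  rw [h2]
  exact SetLike.coe_mem _

include hFF in
/-- The fibration formula for given generic exponents. -/
theorem peel_aux (T : Set ℂ) (hT : T.Countable) (hF : F = acl T)
    (hF' : F' = acl (T ∪ range (Sum.elim (fun i => (V i : ℂ)) (fun j => (W j : ℂ)))))
    (h : AlgebraicIndependent F (Sum.elim (fun i => (V i : ℂ)) (fun j => (W j : ℂ))))
    (w : ℂ) (hw : w ∉ F') :
    EC.TameL (fibN (fC f00)) ∧
      ((Crit (fC f00) (opt w (fun i => (V i : ℂ))) (fun j => (W j : ℂ))).ncard : ℤ) =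
        -EC.IC (fibN (fC f00)) := by
  classical
  have hc : IsAlgClosed F := by
    rw [hF]
    exact isAlgClosed_acl T
  have hc' : IsAlgClosed F' := by
    rw [hF']
    exact isAlgClosed_acl _
  have hgen := crt_generic hFF f00 V W T hT hF hF' h
  have hspec := crt_special hFF f00 V W T hT hF hF' h
  have hnd := nondeg' hFF f00 V W h
  have hliC := linInd_of_algInd _ h
  have hli : LinearIndependent ℚ (Sum.elim V W) := by
    apply linInd_coe
    convert hliC using 1
    ext (i | j) <;> rfl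
  obtain ⟨s₁, hs₁⟩ : ∃ s₁ : ℂ, s₁ ∉ F' := by
    have hcount : (F' : Set ℂ).Countable := by
      rw [hF']
      exact countable_acl (hT.union (Set.finite_range _).countable)
    by_contra hcon
    push Not at hcon
    exact not_countable_complex (hcount.mono fun z _ => hcon z)
  have hs₁t : Transcendental F' s₁ := (transcendental_iff_notMem s₁).mpr hs₁
  obtain ⟨hfin₁, hG, halg⟩ := hgen s₁ hs₁
  set G := (crt (fK hFF f00) V W s₁).ncard with hGdef
  have hloc : ∀ t0 : F', (t0 : ℂ) ≠ 0 → (t0 : ℂ) ∈ F → ∃ p : CPlace (fK hFF f00) V W s₁,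
      0 < (p.ser s₁ - HahnSeries.C t0).order ∧
      (∀ x ∈ crt (fK hFF f00) V W s₁, 0 ≤ (p.ser (hval (fK hFF f00) W s₁ x)).order ∨
        (p.ser (hval (fK hFF f00) W s₁ x)).order = -(p.ser s₁ - HahnSeries.C t0).order) ∧
      {x ∈ crt (fK hFF f00) V W s₁ | (p.ser (hval (fK hFF f00) W s₁ x)).order < 0}.ncard +
        (CK (fK hFF f00) V W t0).ncard = G := by
    intro t0 ht0 ht0F
    obtain ⟨p, hp⟩ := exists_place_fin hs₁t hfin₁ halg t0
    have h1 : t0 ≠ 0 := fun h => ht0 (by rw [h]; rfl)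
    have h2 := p.local_fin hfin₁ hli t0 h1 hp (fun ξ hξ => hnd ⟨t0, ht0F⟩ ξ hξ)
    exact ⟨p, hp, h2⟩
  let E : F' → ℕ := fun t0 =>
    if (t0 : ℂ) ≠ 0 ∧ (t0 : ℂ) ∈ F then G - (CK (fK hFF f00) V W t0).ncard else 0
  have hmain := index_crt (fK hFF f00) V W
    (fun s hs => (hgen s ((transcendental_iff_notMem s).mp hs)).1) w
    ((transcendental_iff_notMem w).mpr hw) ?_ s₁ hs₁t E ?_ ?_
  · obtain ⟨hE, -, hcard⟩ := hmain
    have hcrit : Crit (fun j => MvPolynomial.map (algebraMap F' ℂ) (fK hFF f00 j))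
        (opt w (fun i => algebraMap F' ℂ (V i))) (fun j => algebraMap F' ℂ (W j)) =
        Crit (fC f00) (opt w (fun i => (V i : ℂ))) (fun j => (W j : ℂ)) := by
      simp only [map_fK, coe_eq_algebraMap]
    rw [hcrit] at hcard
    rw [hcard]
    have hkey := IC_eq_neg (K := F') (fun a => (a : ℂ)) Subtype.val_injective 0 rfl
      (fibN (fC f00)) G E hE (if_pos rfl) (if_neg (by simp)) ?_ ?_
    · refine ⟨hkey.1, ?_⟩
      rw [hkey.2, neg_neg]
    · intro s hs
      have hsF' : s ∉ F' := fun hmem => hs ⟨⟨s, hmem⟩, rfl⟩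
      have hs0 : s ≠ 0 := by
        rintro rfl
        exact hsF' F'.zero_mem
      rw [fibN, if_neg hs0, hG]
      exact_mod_cast NC_fibre_const f00 T hF s s₁ (fun hmem => hsF' (hFF hmem))
        (fun hmem => hs₁ (hFF hmem))
    · intro a ha
      change fibN (fC f00) (a : ℂ) = (G : ℤ) - (E a : ℕ)
      have ha' : (a : ℂ) ≠ 0 := ha
      rw [fibN, if_neg ha']
      by_cases haF : (a : ℂ) ∈ F
      · obtain ⟨p, -, -, hp⟩ := hloc a ha' haF
        have h1 : E a = G - (CK (fK hFF f00) V W a).ncard := if_pos ⟨ha', haF⟩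
        have h2 := CK_ncard (fK hFF f00) V W a (fun x hx i =>
          ⟨⟨x i, (hspec a haF).2 x hx i⟩, rfl⟩)
        have h3 := (hspec a haF).1
        rw [coe_eq_algebraMap] at h2
        rw [h3] at h2
        rw [← h2, h1]
        omega
      · have h1 : E a = 0 := if_neg fun hh => haF hh.2
        rw [h1, hG, NC_fibre_const f00 T hF (a : ℂ) s₁ haF (fun hmem => hs₁ (hFF hmem))]
        simp
  · intro s x hs0 hx hh
    by_contra hcon
    rw [transcendental_iff_notMem, not_not] at hcon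
    apply hw
    rw [← hh]
    apply hval_mem_of W s x hcon
    intro i
    rw [hF']
    rw [crt_fK] at hx
    refine crit_mem_acl (T ∪ range (Sum.elim (fun i => (V i : ℂ)) (fun j => (W j : ℂ)))) _
      ?_ _ _ ?_ ?_ hliC x hx i
    · rw [← hF']
      exact coefs_subS F' _ ((coefs_fC f00).trans hFF) s hcon
    · intro i
      exact subset_acl _ (Or.inr ⟨Sum.inl i, rfl⟩)
    · intro j
      exact subset_acl _ (Or.inr ⟨Sum.inr j, rfl⟩)
  · intro t0
    by_cases ht0 : (t0 : ℂ) ≠ 0 ∧ (t0 : ℂ) ∈ F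
    · obtain ⟨p, hp1, hp2, hp3⟩ := hloc t0 ht0.1 ht0.2
      refine ⟨p, hp1, hp2, ?_⟩
      have h1 : E t0 = G - (CK (fK hFF f00) V W t0).ncard := if_pos ht0
      rw [h1]
      omega
    · obtain ⟨p, hp⟩ := exists_place_fin hs₁t hfin₁ halg t0
      have hall : ∀ x ∈ crt (fK hFF f00) V W s₁,
          0 ≤ (p.ser (hval (fK hFF f00) W s₁ x)).order := by
        intro x hx
        by_cases h0 : (t0 : ℂ) = 0
        · have h00 : t0 = 0 := Subtype.ext h0
          apply p.local_ends _ x hx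
          rw [h00, map_zero, sub_zero] at hp
          exact hp.ne'
        · exact no_pole' hFF f00 V W hli s₁ p t0 hp (fun hmem => ht0 ⟨h0, hmem⟩) x hx
      refine ⟨p, hp, fun x hx => Or.inl (hall x hx), ?_⟩
      have h1 : E t0 = 0 := if_neg ht0
      rw [h1]
      have h2 : {x ∈ crt (fK hFF f00) V W s₁ |
          (p.ser (hval (fK hFF f00) W s₁ x)).order < 0} = ∅ := by
        ext x
        simp only [mem_setOf_eq, mem_empty_iff_false, iff_false, not_and, not_lt]
        exact hall x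
      rw [h2, Set.ncard_empty]
  · obtain ⟨p, hp⟩ := exists_place_inf hs₁t hfin₁ halg
    exact ⟨p, hp, fun x hx => p.local_ends hp.ne x hx⟩

end setup

/-- The fibration formula over the punctured line. -/
theorem peel : Peel := by
  intro ι κ _ _ _ _ f
  obtain ⟨y, t, hy⟩ := exists_generic (ι := Option ι) (κ := κ) (coefs f)
    (coefs_countable f).countable
  have hyo : y = opt (y none) (fun i => y (some i)) := by
    funext o
    cases o <;> rfl
  rw [hyo] at hy
  obtain ⟨h1, h2⟩ := algInd_total.mp hy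
  have h3 := NC_eq f (coefs f) (coefs_countable f).countable (subset_acl _) _ t hy
  obtain ⟨f00, hf00⟩ := exists_map_eq (k := acl (coefs f)) f
    fun a ha => ⟨⟨a, subset_acl _ ha⟩, rfl⟩
  have hf : fC f00 = f := funext hf00
  have hFF : acl (coefs f) ≤ acl (coefs f ∪ range (Sum.elim (fun i => y (some i)) t)) :=
    acl_mono subset_union_left
  have h4 := peel_aux hFF f00
    (fun i => ⟨y (some i), subset_acl _ (Or.inr ⟨Sum.inl i, rfl⟩)⟩)
    (fun j => ⟨t j, subset_acl _ (Or.inr ⟨Sum.inr j, rfl⟩)⟩)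
    (coefs f) (coefs_countable f).countable rfl rfl h1 (y none) h2
  rw [hf] at h4
  rw [← h3.2]
  exact h4

end Pool.EU
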