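import Pool.Agent.EU.TB9a
import Pool.Agent.EU.NC
import Pool.Agent.EU.DerDim
import Pool.Agent.EC.Arr

/-!
# Critical points on the coordinate sections of a uniform subspace
-/

set_option autoImplicit false
set_option linter.unusedSectionVars false

namespace Pool.EU

open MvPolynomial Pool.ML

/-- The number of critical points is the absolute value of the Euler characteristic. -/
def NCchi : Prop := ∀ (a : ℕ) (κ : Type) [Fintype κ] [DecidableEq κ]
  (f : κ → MvPolynomial (Fin a) ℂ), (NC f : ℤ) =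
    (-1) ^ a * EC.chi a {x | (∀ i, x i ≠ 0) ∧ ∀ j, eval x (f j) ≠ 0}

variable {ι : Type} [Fintype ι] [DecidableEq ι]

/-- The critical points of `∏ q_i ^ v_i` on the elements of `L` supported in `S`, with their
multipliers. -/
def cset (L : Submodule ℂ (ι → ℂ)) (S : Finset ι) (i₀ : ι) (v : ι → ℂ) :
    Set ((ι → ℂ) × (ι → ℂ)) :=
  {p | p.1 ∈ L ∧ (∀ x ∈ L, ∑ i, p.2 i * x i = 0) ∧ p.1 i₀ = 1 ∧ (∀ i ∉ S, p.1 i = 0) ∧
    ∀ i ∈ S, i ≠ i₀ → p.1 i * p.2 i = -v i}

theorem cset_empty {L : Submodule ℂ (ι → ℂ)} (hL : Unif L) {σ : ℕ}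
    (hσ : Fintype.card ι = Module.finrank ℂ L + σ) (S : Finset ι) (i₀ : ι) (v : ι → ℂ)
    (hS : S.card ≤ σ) : cset L S i₀ v = ∅ := by
  ext ⟨q, φ⟩
  simp only [Set.mem_empty_iff_false, iff_false]
  rintro ⟨h1, _, h3, h4, _⟩
  have h5 : q = 0 := by
    refine hL.eq_zero Sᶜ ?_ h1 fun i hi => h4 i (Finset.mem_compl.1 hi)
    rw [Finset.card_compl]
    omega
  change q i₀ = 1 at h3
  rw [h5] at h3
  exact zero_ne_one h3

section main

variable {L : Submodule ℂ (ι → ℂ)} (hL : Unif L) {σ : ℕ}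
  (hσ : Fintype.card ι = Module.finrank ℂ L + σ) (T : Set ℂ)
  (hT : T.Countable)
  (hD : ∀ δ : Derivation ℚ ℂ ℂ, (∀ t ∈ T, δ t = 0) → ∀ q ∈ L, (fun i => δ (q i)) ∈ L)
  (S : Finset ι) (i₀ : ι) (hi₀ : i₀ ∈ S) (hS : σ < S.card) (v : ι → ℂ)
  (hv : AlgebraicIndependent (acl T) (fun i : {i // i ∈ S.erase i₀} => v i.1))

include hL hσ hT hD hi₀ hS hv in
theorem cset_count (hN : NCchi) : (cset L S i₀ v).Finite ∧
    (cset L S i₀ v).ncard = (S.card - 2).choose (S.card - 1 - σ) := by
  classical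
  obtain ⟨d, hd⟩ : ∃ d, d = S.card - 1 - σ := ⟨_, rfl⟩
  rw [← hd]
  have hcS : S.card ≤ Fintype.card ι := Finset.card_le_univ S
  -- the coordinates
  obtain ⟨P, hPS, hPc⟩ := Finset.exists_subset_card_eq (s := S.erase i₀) (n := d) (by
    rw [Finset.card_erase_of_mem hi₀]
    omega)
  have hP0 : i₀ ∉ P := fun h => Finset.notMem_erase i₀ S (hPS h)
  have hPS' : ∀ i ∈ P, i ∈ S := fun i hi => Finset.mem_of_mem_erase (hPS hi)
  obtain ⟨Z, hZd⟩ : ∃ Z : Finset ι, Z = Sᶜ ∪ insert i₀ P := ⟨_, rfl⟩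
  have hZmem : ∀ i, i ∈ Z ↔ i ∉ S ∨ i = i₀ ∨ i ∈ P := by
    intro i
    rw [hZd, Finset.mem_union, Finset.mem_compl, Finset.mem_insert]
  have hZc : Z.card = Module.finrank ℂ L := by
    rw [hZd, Finset.card_union_of_disjoint, Finset.card_compl, Finset.card_insert_of_notMem hP0,
      hPc]
    · omega
    · rw [Finset.disjoint_left]
      intro i hi hi'
      rw [Finset.mem_compl] at hi
      rcases Finset.mem_insert.1 hi' with h | h
      · rw [h] at hi
        exact hi hi₀
      · exact hi (hPS' i h)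
  obtain ⟨b, hbL, hb, hbs⟩ := hL.exists_dual Z hZc
  have hi₀Z : i₀ ∈ Z := (hZmem _).2 (Or.inr (Or.inl rfl))
  let e : Fin d ≃ P := (Finset.equivFinOfCardEq hPc).symm
  obtain ⟨p, hp⟩ : ∃ p : Fin d → ι, p = fun j => (e j).1 := ⟨_, rfl⟩
  have hpP : ∀ j, p j ∈ P := fun j => by
    rw [hp]
    exact (e j).2
  have hpZ : ∀ j, p j ∈ Z := fun j => (hZmem _).2 (Or.inr (Or.inr (hpP j)))
  have hpinj : Function.Injective p := by
    intro j l h
    rw [hp] at h
    exact e.injective (Subtype.ext h)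
  have hpsurj : ∀ i ∈ P, ∃ j, p j = i := by
    intro i hi
    refine ⟨e.symm ⟨i, hi⟩, ?_⟩
    rw [hp]
    simp
  have hp0 : ∀ j, p j ≠ i₀ := fun j h => hP0 (h ▸ hpP j)
  let κ := {k : ι // k ∉ Z}
  have hκS : ∀ k : κ, k.1 ∈ S ∧ k.1 ≠ i₀ ∧ k.1 ∉ P := by
    intro k
    have h1 := k.2
    rw [hZmem] at h1
    push Not at h1
    exact h1
  -- the polynomials and the points
  obtain ⟨f, hf⟩ : ∃ f : κ → MvPolynomial (Fin d) ℂ,
    f = fun k => C (b i₀ k.1) + ∑ j, C (b (p j) k.1) * X j := ⟨_, rfl⟩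
  obtain ⟨Q, hQ⟩ : ∃ Q : (Fin d → ℂ) → (ι → ℂ), Q = fun x => b i₀ + ∑ j, x j • b (p j) :=
    ⟨_, rfl⟩
  have hQi : ∀ x i, Q x i = b i₀ i + ∑ j, x j * b (p j) i := by
    intro x i
    rw [hQ]
    simp only [Pi.add_apply, Finset.sum_apply, Pi.smul_apply, smul_eq_mul]
  have hQL : ∀ x, Q x ∈ L := by
    intro x
    rw [hQ]
    exact L.add_mem (hbL _) (L.sum_mem fun j _ => L.smul_mem _ (hbL _))
  have hfQ : ∀ x k, eval x (f k) = Q x k.1 := by
    intro x k
    rw [hf, hQi]
    simp only [map_add, eval_C, map_sum, map_mul, eval_X]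
    congr 1
    exact Finset.sum_congr rfl fun j _ => mul_comm _ _
  have hQ0 : ∀ x, Q x i₀ = 1 := by
    intro x
    rw [hQi, hb i₀ hi₀Z i₀ hi₀Z, if_pos rfl, Finset.sum_eq_zero, add_zero]
    intro j _
    rw [hb _ (hpZ j) i₀ hi₀Z, if_neg (Ne.symm (hp0 j)), mul_zero]
  have hQS : ∀ x, ∀ i ∉ S, Q x i = 0 := by
    intro x i hi
    have hiZ : i ∈ Z := (hZmem _).2 (Or.inl hi)
    rw [hQi, hb i₀ hi₀Z i hiZ, if_neg, Finset.sum_eq_zero, add_zero]
    · intro j _
      rw [hb _ (hpZ j) i hiZ, if_neg, mul_zero]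
      rintro rfl
      exact hi (hPS' _ (hpP j))
    · rintro rfl
      exact hi hi₀
  have hQp : ∀ x l, Q x (p l) = x l := by
    intro x l
    rw [hQi, hb i₀ hi₀Z _ (hpZ l), if_neg (hp0 l), zero_add, Finset.sum_eq_single l]
    · rw [hb _ (hpZ l) _ (hpZ l), if_pos rfl, mul_one]
    · intro j _ hj
      rw [hb _ (hpZ j) _ (hpZ l), if_neg (fun h => hj (hpinj h.symm)), mul_zero]
    · intro h
      exact absurd (Finset.mem_univ _) h
  have hQuniq : ∀ q ∈ L, q i₀ = 1 → (∀ i ∉ S, q i = 0) → Q (fun j => q (p j)) = q := by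
    intro q hq hq0 hqS
    rw [← sub_eq_zero]
    refine hL Z hZc _ (L.sub_mem (hQL _) hq) fun i hi => ?_
    rw [Pi.sub_apply]
    rcases (hZmem i).1 hi with h | h | h
    · rw [hQS _ i h, hqS i h, sub_zero]
    · rw [h, hQ0, hq0, sub_self]
    · obtain ⟨j, rfl⟩ := hpsurj i h
      rw [hQp, sub_self]
  -- the coefficients are algebraic over the data
  have hbT : ∀ z ∈ Z, ∀ i, b z i ∈ acl T := by
    intro z hz i
    refine mem_acl_of_der fun δ hδ => ?_
    have h1 : (fun i => δ (b z i)) = 0 := by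
      refine hL Z hZc _ (hD δ hδ _ (hbL z)) fun i hi => ?_
      rw [hb z hz i hi]
      split_ifs
      · exact Derivation.map_one_eq_zero δ
      · exact map_zero δ
    exact congrFun h1 i
  have hcoef : coefs f ⊆ acl T := by
    rintro _ ⟨k, m, rfl⟩
    rw [hf]
    simp only [coeff_add, coeff_C, coeff_sum, coeff_C_mul, coeff_X']
    refine add_mem ?_ (sum_mem fun j _ => mul_mem (hbT _ (hpZ j) _) ?_)
    · split_ifs
      · exact hbT _ hi₀Z _
      · exact zero_mem _
    · split_ifs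
      · exact one_mem _
      · exact zero_mem _
  -- generic exponents
  let emb : Fin d ⊕ κ → {i // i ∈ S.erase i₀} := Sum.elim
    (fun j => ⟨p j, hPS (hpP j)⟩)
    (fun k => ⟨k.1, Finset.mem_erase.2 ⟨(hκS k).2.1, (hκS k).1⟩⟩)
  have hemb : Function.Injective emb := by
    rintro (j | k) (l | k') h
    · have h1 : p j = p l := congrArg (fun x => x.1) h
      rw [hpinj h1]
    · have h1 : p j = k'.1 := congrArg (fun x => x.1) h
      exact absurd (hpP j) (h1 ▸ (hκS k').2.2)
    · have h1 : k.1 = p l := congrArg (fun x => x.1) h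
      exact absurd (hpP l) (h1 ▸ (hκS k).2.2)
    · have h1 : k.1 = k'.1 := congrArg (fun x => x.1) h
      rw [Subtype.ext h1]
  have hvI : AlgebraicIndependent (acl T) (Sum.elim (fun j => v (p j)) (fun k : κ => v k.1)) := by
    have h1 := hv.comp emb hemb
    convert h1 using 1
    ext (j | k) <;> rfl
  have hv0 : ∀ i ∈ S, i ≠ i₀ → v i ≠ 0 := fun i hi hne =>
    hv.ne_zero ⟨i, Finset.mem_erase.2 ⟨hne, hi⟩⟩
  obtain ⟨hfin, hcard⟩ := NC_eq f T hT hcoef (fun j => v (p j)) (fun k => v k.1) hvI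
  -- the orthogonal space
  have hperp : ∀ φ : ι → ℂ, (∀ x ∈ L, ∑ i, φ i * x i = 0) ↔
      ∀ z ∈ Z, φ z = -∑ k : κ, φ k.1 * b z k.1 := by
    intro φ
    have h1 : ∀ z ∈ Z, ∑ i, φ i * b z i = φ z + ∑ k : κ, φ k.1 * b z k.1 := by
      intro z hz
      have h2 : ∑ i, φ i * b z i = ∑ i ∈ Z, φ i * b z i + ∑ i ∈ Zᶜ, φ i * b z i :=
        (Finset.sum_add_sum_compl Z _).symm
      rw [h2]
      congr 1
      · rw [Finset.sum_eq_single z]
        · rw [hb z hz z hz, if_pos rfl, mul_one]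
        · intro i hi hne
          rw [hb z hz i hi, if_neg hne, mul_zero]
        · intro h
          exact absurd hz h
      · refine Finset.sum_subtype _ (fun i => ?_) _
        rw [Finset.mem_compl]
    constructor
    · intro h z hz
      have h2 := h _ (hbL z)
      rw [h1 z hz] at h2
      exact eq_neg_of_add_eq_zero_left h2
    · intro h x hx
      have h2 : ∑ i, φ i * x i = ∑ z ∈ Z, x z * ∑ i, φ i * b z i := by
        conv_lhs => rw [hbs x hx]
        simp only [Finset.sum_apply, Pi.smul_apply, smul_eq_mul, Finset.mul_sum]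
        rw [Finset.sum_comm]
        refine Finset.sum_congr rfl fun z _ => Finset.sum_congr rfl fun i _ => ?_
        ring
      rw [h2]
      refine Finset.sum_eq_zero fun z hz => ?_
      rw [h1 z hz, h z hz, neg_add_cancel, mul_zero]
  -- the critical equations
  have hcrit : ∀ x : Fin d → ℂ, x ∈ Crit f (fun j => v (p j)) (fun k => v k.1) ↔
      (∀ j, x j ≠ 0) ∧ (∀ k : κ, Q x k.1 ≠ 0) ∧
        ∀ j, v (p j) + x j * ∑ k : κ, v k.1 / Q x k.1 * b (p j) k.1 = 0 := by
    intro x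
    simp only [Crit, Set.mem_ofPred_eq, hfQ]
    refine and_congr_right fun _ => and_congr_right fun h2 => forall_congr' fun j => ?_
    rw [Finset.mul_sum]
    have h3 : ∀ k : κ, v k.1 * (x j * eval x (pderiv j (f k)) / Q x k.1) =
        x j * (v k.1 / Q x k.1 * b (p j) k.1) := by
      intro k
      have h4 : eval x (pderiv j (f k)) = b (p j) k.1 := by
        rw [hf]
        simp only [map_add, pderiv_C, zero_add, map_sum, pderiv_C_mul, pderiv_X, map_mul, eval_C]
        rw [Finset.sum_eq_single j]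
        · simp
        · intro l _ hl
          rw [Pi.single_eq_of_ne hl, map_zero, mul_zero]
        · intro h
          exact absurd (Finset.mem_univ _) h
      rw [h4]
      have := h2 k
      field_simp
    rw [Finset.sum_congr rfl fun k _ => h3 k]
  -- the bijection
  let Φ : (Fin d → ℂ) → (ι → ℂ) := fun x i =>
    if i ∈ Z then ∑ k : κ, v k.1 / Q x k.1 * b i k.1 else -(v i / Q x i)
  have hΦκ : ∀ x (k : κ), Φ x k.1 = -(v k.1 / Q x k.1) := fun x k => if_neg k.2
  have hΦZ : ∀ x, ∀ z ∈ Z, Φ x z = ∑ k : κ, v k.1 / Q x k.1 * b z k.1 := fun x z hz => if_pos hz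
  have himage : cset L S i₀ v =
      (fun x => (Q x, Φ x)) '' Crit f (fun j => v (p j)) (fun k => v k.1) := by
    ext ⟨q, φ⟩
    constructor
    · rintro ⟨h1, h2, h3, h4, h5⟩
      simp only at h1 h2 h3 h4 h5
      have hq := hQuniq q h1 h3 h4
      rw [hperp] at h2
      have hne : ∀ i ∈ S, i ≠ i₀ → q i ≠ 0 := by
        intro i hi hne h0
        have h6 := h5 i hi hne
        rw [h0, zero_mul] at h6
        exact hv0 i hi hne (neg_eq_zero.1 h6.symm)
      have hφκ : ∀ k : κ, φ k.1 = -(v k.1 / q k.1) := by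
        intro k
        have h6 := h5 k.1 (hκS k).1 (hκS k).2.1
        have h7 := hne k.1 (hκS k).1 (hκS k).2.1
        field_simp
        rw [mul_comm, h6]
      have hφZ : ∀ z ∈ Z, φ z = ∑ k : κ, v k.1 / q k.1 * b z k.1 := by
        intro z hz
        rw [h2 z hz, ← Finset.sum_neg_distrib]
        refine Finset.sum_congr rfl fun k _ => ?_
        rw [hφκ k]
        ring
      refine ⟨fun j => q (p j), ?_, ?_⟩
      · rw [hcrit, hq]
        refine ⟨fun j => hne _ (hPS' _ (hpP j)) (hp0 j),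
          fun k => hne _ (hκS k).1 (hκS k).2.1, fun j => ?_⟩
        rw [← hφZ _ (hpZ j), h5 _ (hPS' _ (hpP j)) (hp0 j)]
        ring
      · refine Prod.ext hq ?_
        ext i
        by_cases hi : i ∈ Z
        · change Φ _ i = φ i
          rw [hΦZ _ i hi, hq, hφZ i hi]
        · change Φ _ i = φ i
          have h6 := hΦκ (fun j => q (p j)) ⟨i, hi⟩
          rw [h6, hq]
          exact (hφκ ⟨i, hi⟩).symm
    · rintro ⟨x, hx, hxq⟩
      have hq : q = Q x := (congrArg Prod.fst hxq).symm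
      have hφ : φ = Φ x := (congrArg Prod.snd hxq).symm
      rw [hq, hφ]
      rw [hcrit] at hx
      obtain ⟨h1, h2, h3⟩ := hx
      refine ⟨hQL x, ?_, hQ0 x, hQS x, ?_⟩
      · rw [hperp]
        intro z hz
        change Φ x z = _
        rw [hΦZ x z hz, ← Finset.sum_neg_distrib]
        refine Finset.sum_congr rfl fun k _ => ?_
        change _ = -(Φ x k.1 * _)
        rw [hΦκ]
        ring
      · intro i hi hne
        change Q x i * Φ x i = -v i
        by_cases hiZ : i ∈ Z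
        · rcases (hZmem i).1 hiZ with h | h | h
          · exact absurd hi h
          · exact absurd h hne
          · obtain ⟨j, rfl⟩ := hpsurj i h
            rw [hΦZ x _ hiZ, hQp]
            have h4 := h3 j
            linear_combination h4
        · have h4 := hΦκ x ⟨i, hiZ⟩
          rw [h4]
          have h5 := h2 ⟨i, hiZ⟩
          change Q x i ≠ 0 at h5
          change Q x i * -(v i / Q x i) = -v i
          field_simp
  have hinj : Function.Injective (fun x => (Q x, Φ x)) := by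
    intro x y hxy
    have h1 : Q x = Q y := congrArg Prod.fst hxy
    ext j
    rw [← hQp x j, ← hQp y j, h1]
  refine ⟨himage ▸ hfin.image _, ?_⟩
  rw [himage, Set.ncard_image_of_injective _ hinj, hcard]
  -- the Euler characteristic
  have hchi := hN d κ f
  let g : {i // i ∈ S.erase i₀} → ((Fin d → ℂ) →ₗ[ℂ] ℂ) :=
    fun a => ∑ j, b (p j) a.1 • LinearMap.proj j
  have hg : ∀ a x, b i₀ a.1 + g a x = Q x a.1 := by
    intro a x
    rw [hQi]
    simp only [g, LinearMap.sum_apply, LinearMap.smul_apply, LinearMap.proj_apply, smul_eq_mul]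
    congr 1
    exact Finset.sum_congr rfl fun j _ => mul_comm _ _
  have hset : {x : Fin d → ℂ | (∀ i, x i ≠ 0) ∧ ∀ j, eval x (f j) ≠ 0} =
      {x | ∀ a : {i // i ∈ S.erase i₀}, b i₀ a.1 + g a x ≠ 0} := by
    ext x
    simp only [Set.mem_ofPred_eq, hfQ, hg]
    constructor
    · rintro ⟨h1, h2⟩ ⟨a, ha⟩
      change Q x a ≠ 0
      rw [Finset.mem_erase] at ha
      by_cases haZ : a ∈ Z
      · rcases (hZmem a).1 haZ with h | h | h
        · exact absurd ha.2 h
        · exact absurd h ha.1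
        · obtain ⟨j, rfl⟩ := hpsurj a h
          rw [hQp]
          exact h1 j
      · exact h2 ⟨a, haZ⟩
    · intro h
      refine ⟨fun j => ?_, fun k => ?_⟩
      · rw [← hQp x j]
        exact h ⟨p j, hPS (hpP j)⟩
      · exact h ⟨k.1, Finset.mem_erase.2 ⟨(hκS k).2.1, (hκS k).1⟩⟩
  rw [hset, EC.chi_arr] at hchi
  have hcardA : Fintype.card {i // i ∈ S.erase i₀} = S.card - 1 := by
    rw [Fintype.card_coe, Finset.card_erase_of_mem hi₀]
  have hind : ∀ I : Finset {i // i ∈ S.erase i₀},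
      (if ∃ x, ∀ a ∈ I, b i₀ a.1 + g a x = 0 then (1 : ℤ) else 0) =
        if I.card ≤ d then 1 else 0 := by
    intro I
    obtain ⟨W, hW⟩ : ∃ W : Finset ι, W = Sᶜ ∪ I.map (Function.Embedding.subtype _) := ⟨_, rfl⟩
    have hWmem : ∀ i, i ∈ W ↔ i ∉ S ∨ ∃ h : i ∈ S.erase i₀, (⟨i, h⟩ : {i // i ∈ S.erase i₀}) ∈ I := by
      intro i
      rw [hW, Finset.mem_union, Finset.mem_compl, Finset.mem_map]
      refine or_congr_right ?_
      constructor
      · rintro ⟨a, ha, rfl⟩
        exact ⟨a.2, ha⟩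
      · rintro ⟨h, h'⟩
        exact ⟨_, h', rfl⟩
    have hWc : W.card = Fintype.card ι - S.card + I.card := by
      rw [hW, Finset.card_union_of_disjoint, Finset.card_compl, Finset.card_map]
      rw [Finset.disjoint_left]
      intro i hi hi'
      rw [Finset.mem_compl] at hi
      obtain ⟨a, _, rfl⟩ := Finset.mem_map.1 hi'
      exact hi (Finset.mem_of_mem_erase a.2)
    simp only [hg]
    by_cases hId : I.card ≤ d
    · rw [if_pos hId, if_pos]
      obtain ⟨q, hq, hq0, hqW⟩ := hL.exists_one W i₀ (by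
        rw [hWmem]
        rintro (h | ⟨h, _⟩)
        · exact h hi₀
        · exact Finset.notMem_erase _ _ h) (by omega)
      refine ⟨fun j => q (p j), fun a ha => ?_⟩
      rw [hQuniq q hq hq0 fun i hi => hqW i ((hWmem i).2 (Or.inl hi))]
      exact hqW a.1 ((hWmem a.1).2 (Or.inr ⟨a.2, ha⟩))
    · rw [if_neg hId, if_neg]
      rintro ⟨x, hx⟩
      have h1 : Q x = 0 := by
        refine hL.eq_zero W (by omega) (hQL x) fun i hi => ?_
        rcases (hWmem i).1 hi with h | ⟨h, h'⟩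
        · exact hQS x i h
        · exact hx _ h'
      have h2 := hQ0 x
      rw [h1] at h2
      exact zero_ne_one h2
  simp only [hind] at hchi
  rw [sum_subsets d (by rw [hcardA]; omega), hcardA, ← mul_assoc, ← pow_add, ← two_mul, pow_mul,
    neg_one_sq, one_pow, one_mul] at hchi
  have h1 : S.card - 1 - 1 = S.card - 2 := by omega
  rw [h1] at hchi
  exact_mod_cast hchi

end main

end Pool.EU
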