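import Pool.Agent.EU.Peel
import Pool.Agent.EU.TB9b

/-!
# Consequences of the fibration formula

The hypotheses `NCeq`, `Peel`, `Peel2`, `Swap2 ℂ` and `NCchi` are discharged.
-/

set_option autoImplicit false
set_option linter.unusedSectionVars false

namespace Pool.EU

open MvPolynomial Pool.ML

/-- The number of critical points for generic exponents is well defined. -/
theorem nceq : NCeq := by
  intro ι κ _ _ _ _ f T hT hf y hy
  refine (NC_eq f T hT hf (fun i => y (Sum.inl i)) (fun j => y (Sum.inr j)) ?_).2
  convert hy using 1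
  ext (i | j) <;> rfl

theorem peel2 : Peel2 := peel2_of nceq peel

/-- The two iterated Euler integrals over the complex plane agree. -/
theorem swap2C : EC.Swap2 ℂ := swap2_complex nceq peel2

/-- The fibration formula over the torus. -/
theorem peelF (a : ℕ) (ι κ : Type) [Fintype ι] [Fintype κ] [DecidableEq ι] [DecidableEq κ]
    (f : κ → MvPolynomial (Fin a ⊕ ι) ℂ) :
    EC.Tame a (fibNF f) ∧ (NC f : ℤ) = (-1) ^ a * EC.EI a (fibNF f) :=
  peelF_of nceq peel a ι κ f

/-- The number of critical points is the absolute value of the Euler characteristic. -/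
theorem nc_chi : NCchi := by
  classical
  intro a κ _ _ f
  have h1 := (peelF a (Fin 0) κ (fun j => rename Sum.inl (f j))).2
  have h2 : NC (fun j => (rename Sum.inl (f j) : MvPolynomial (Fin a ⊕ Fin 0) ℂ)) = NC f := by
    rw [← NC_rename nceq (Equiv.sumEmpty (Fin a) (Fin 0)).symm f]
    rfl
  rw [h2] at h1
  rw [h1, EC.chi]
  congr 2
  funext x
  rw [fibNF, NC_const]
  have h3 : ∀ p : MvPolynomial (Fin a) ℂ,
      eval isEmptyElim (subF x (rename Sum.inl p : MvPolynomial (Fin a ⊕ Fin 0) ℂ)) =
        eval x p := by
    intro p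
    induction p using MvPolynomial.induction_on with
    | C a => simp [subF]
    | add p q hp hq => rw [map_add, map_add, map_add, map_add, hp, hq]
    | mul_X p i hp =>
      rw [map_mul, map_mul, map_mul, map_mul, hp]
      congr 1
      simp [subF]
  simp only [h3]
  unfold EC.ind
  by_cases hx : ∃ i, x i = 0
  · rw [if_pos hx, if_neg]
    rintro ⟨h4, -⟩
    obtain ⟨i, hi⟩ := hx
    exact h4 i hi
  · rw [if_neg hx]
    push Not at hx
    by_cases h4 : ∀ j, eval x (f j) ≠ 0
    · rw [if_pos h4, if_pos ⟨hx, h4⟩]
      rfl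
    · rw [if_neg h4, if_neg (fun h => h4 h.2)]
      rfl

end Pool.EU
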