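import Mathlib

/-!
# Persistence of the non-degenerate zeros of a square polynomial system with a parameter
-/

set_option autoImplicit false
set_option linter.unusedSectionVars false

namespace Pool.EU

open MvPolynomial Filter Topology

/-- The value of a polynomial is a smooth function of the point. -/
theorem contDiff_eval {X : Type} [Fintype X] {W : Type*} [NormedAddCommGroup W] [NormedSpace ℂ W]
    (F : W → X → ℂ) (hF : ∀ i, ContDiff ℂ 1 fun w => F w i) (p : MvPolynomial X ℂ) :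
    ContDiff ℂ 1 fun w => eval (F w) p := by
  induction p using MvPolynomial.induction_on with
  | C a =>
    simp only [eval_C]
    exact contDiff_const
  | add p q hp hq =>
    simp only [map_add]
    exact hp.add hq
  | mul_X p i hp =>
    simp only [map_mul, eval_X]
    exact hp.mul (hF i)

/-- The point `(ε, x)`. -/
def opt' {V : Type} (ε : ℂ) (x : V → ℂ) : Option V → ℂ := fun o => o.elim ε x

/-- Non-degenerate zeros persist. -/
theorem persist_poly {V E : Type} [Fintype V] [Fintype E] (hc : Fintype.card V = Fintype.card E)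
    (g : E → MvPolynomial (Option V) ℂ) (x0 : V → ℂ) (h0 : ∀ e, eval (opt' 0 x0) (g e) = 0)
    (hJ : ∀ w : V → ℂ,
      (∀ e, HasDerivAt (fun t : ℂ => eval (opt' 0 (x0 + t • w)) (g e)) 0 0) → w = 0)
    (U : Set (V → ℂ)) (hU : U ∈ 𝓝 x0) :
    ∃ η : ℝ, 0 < η ∧ ∀ ε : ℂ, ‖ε‖ < η → ∃ x ∈ U, ∀ e, eval (opt' ε x) (g e) = 0 := by
  classical
  let Ψ : ℂ × (V → ℂ) → ℂ × (E → ℂ) := fun y => (y.1, fun e => eval (opt' y.1 y.2) (g e))
  have hcd : ContDiff ℂ 1 Ψ := by
    refine contDiff_fst.prodMk ?_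
    rw [contDiff_pi]
    intro e
    refine contDiff_eval (fun y : ℂ × (V → ℂ) => opt' y.1 y.2) (fun o => ?_) (g e)
    cases o with
    | none => exact contDiff_fst
    | some v => exact (contDiff_apply ℂ ℂ v).comp contDiff_snd
  have hs := hcd.contDiffAt (x := ((0 : ℂ), x0)) |>.hasStrictFDerivAt one_ne_zero
  have hmap : Filter.map Ψ (𝓝 ((0 : ℂ), x0)) = 𝓝 (Ψ ((0 : ℂ), x0)) := by
    apply hs.map_nhds_eq_of_surj
    set D := fderiv ℂ Ψ ((0 : ℂ), x0) with hD
    have hinj : Function.Injective (D : (ℂ × (V → ℂ)) →ₗ[ℂ] (ℂ × (E → ℂ))) := by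
      rw [injective_iff_map_eq_zero]
      rintro ⟨s, w⟩ hY
      have hY' : D (s, w) = 0 := hY
      have hl : HasDerivAt (fun t : ℂ => Ψ (((0 : ℂ), x0) + t • (s, w))) (0 : ℂ × (E → ℂ)) 0 := by
        have h1 := hs.hasFDerivAt.hasLineDerivAt (s, w)
        rw [hY'] at h1
        exact h1
      have h1 : HasDerivAt (fun t : ℂ => t * s) 0 0 := by
        have h2 := hl.fst
        have h3 : (fun t : ℂ => (Ψ (((0 : ℂ), x0) + t • (s, w))).1) = fun t : ℂ => t * s := by
          funext t
          simp [Ψ]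
        rw [h3] at h2
        exact h2
      have hs0 : s = 0 := by
        have h2 : HasDerivAt (fun t : ℂ => t * s) s 0 := by
          simpa using (hasDerivAt_id (0 : ℂ)).mul_const s
        exact h2.unique h1
      have hw0 : w = 0 := by
        refine hJ w fun e => ?_
        have h2 := hasDerivAt_pi.mp hl.snd e
        have h3 : (fun t : ℂ => (Ψ (((0 : ℂ), x0) + t • (s, w))).2 e) =
            fun t : ℂ => eval (opt' 0 (x0 + t • w)) (g e) := by
          funext t
          simp [Ψ, hs0]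
        rw [h3] at h2
        exact h2
      rw [hs0, hw0]
      rfl
    have hdim : Module.finrank ℂ (ℂ × (V → ℂ)) = Module.finrank ℂ (ℂ × (E → ℂ)) := by
      rw [Module.finrank_prod, Module.finrank_prod, Module.finrank_fintype_fun_eq_card,
        Module.finrank_fintype_fun_eq_card, hc]
    have hsurj := (LinearMap.injective_iff_surjective_of_finrank_eq_finrank hdim).mp hinj
    exact LinearMap.range_eq_top.mpr hsurj
  have hΨ0 : Ψ ((0 : ℂ), x0) = (0, 0) := by
    refine Prod.ext rfl ?_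
    funext e
    exact h0 e
  have hnb : (Set.univ : Set ℂ) ×ˢ U ∈ 𝓝 ((0 : ℂ), x0) := prod_mem_nhds univ_mem hU
  have himg : Ψ '' ((Set.univ : Set ℂ) ×ˢ U) ∈ 𝓝 ((0 : ℂ), (0 : E → ℂ)) := by
    rw [← hΨ0, ← hmap]
    exact image_mem_map hnb
  have hcont : Tendsto (fun ε : ℂ => (ε, (0 : E → ℂ))) (𝓝 0) (𝓝 ((0 : ℂ), (0 : E → ℂ))) :=
    (Continuous.prodMk continuous_id continuous_const).tendsto 0
  have hev := hcont himg
  obtain ⟨η, hη, hball⟩ := Metric.mem_nhds_iff.mp hev
  refine ⟨η, hη, fun ε hε => ?_⟩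
  have hmem : ε ∈ Metric.ball (0 : ℂ) η := by
    rw [mem_ball_zero_iff]
    exact hε
  obtain ⟨⟨ε', x⟩, ⟨_, hx⟩, hyx⟩ := hball hmem
  have h1 : ε' = ε := congrArg Prod.fst hyx
  have h2 : (fun e => eval (opt' ε' x) (g e)) = (0 : E → ℂ) := congrArg Prod.snd hyx
  subst h1
  exact ⟨x, hx, fun e => congrFun h2 e⟩

end Pool.EU
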