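import Pool.Agent.Helper55.ML.NoEsc

/-!
# The logarithmic identity in matrix form and the orders of the entries

`P` is a matrix, `G` its dual: `Pᵀ G = 0`, `P Gᵀ = ∑ q_l φ_lᵀ` with `q_l` in the column space of `P`
and `φ_l` orthogonal to it, `P ∘ (1 + G) = u`. Then for every derivation `θ` which kills `u`
`∑ u_ij θ(P_ij) / P_ij = ∑ φ_li θ(q_li)`.
-/

set_option autoImplicit false
set_option linter.unusedSectionVars false
set_option linter.unusedSimpArgs false

namespace Pool.EU

open Pool.ML Matrix

section Trace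

variable {L : Type*} [Field L] {I J κ : Type*} [Fintype I] [Fintype J] [Fintype κ]

theorem exists_geninv [DecidableEq I] [DecidableEq J] (P : Matrix I J L) :
    ∃ Q : Matrix J I L, P * Q * P = P := by
  obtain ⟨g, hg⟩ := LinearMap.exists_rightInverse_of_surjective
    (Matrix.toLin' P).rangeRestrict (LinearMap.range_rangeRestrict _)
  obtain ⟨g', hg'⟩ := LinearMap.exists_extend g
  refine ⟨LinearMap.toMatrix' g', ?_⟩
  apply (Matrix.toLin' (R := L)).injective
  rw [Matrix.toLin'_mul, Matrix.toLin'_mul, Matrix.toLin'_toMatrix']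
  refine LinearMap.ext fun x => ?_
  rw [LinearMap.comp_apply, LinearMap.comp_apply]
  have h1 : g' (Matrix.toLin' P x) = g ((Matrix.toLin' P).rangeRestrict x) := by
    have := LinearMap.congr_fun hg' ((Matrix.toLin' P).rangeRestrict x)
    simpa using this
  rw [h1]
  have h2 := LinearMap.congr_fun hg ((Matrix.toLin' P).rangeRestrict x)
  have h3 := congrArg Subtype.val h2
  simpa using h3

variable (θ : L → L) (hadd : ∀ a b, θ (a + b) = θ a + θ b)
  (hmul : ∀ a b, θ (a * b) = θ a * b + a * θ b)

include hadd in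
theorem th_zero : θ 0 = 0 := by
  have h := hadd 0 0
  rw [add_zero] at h
  exact left_eq_add.mp h

include hadd in
theorem th_sum {α : Type*} (s : Finset α) (f : α → L) : θ (∑ a ∈ s, f a) = ∑ a ∈ s, θ (f a) := by
  classical
  induction s using Finset.induction with
  | empty => simp [th_zero θ hadd]
  | insert a s ha ih => rw [Finset.sum_insert ha, Finset.sum_insert ha, hadd, ih]

include hadd hmul in
theorem map_mul_th (A : Matrix I J L) {K : Type*} (B : Matrix J K L) :
    (A * B).map θ = A.map θ * B + A * B.map θ := by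
  ext i j
  rw [Matrix.map_apply, Matrix.mul_apply, th_sum θ hadd, Matrix.add_apply, Matrix.mul_apply,
    Matrix.mul_apply, ← Finset.sum_add_distrib]
  exact Finset.sum_congr rfl fun x _ => hmul _ _

include hadd hmul in
/-- If `P H = 0` and `H P = 0` then `tr (H θ(P)) = 0`. -/
theorem trace_der (P : Matrix I J L) (H : Matrix J I L) (h1 : P * H = 0) (h2 : H * P = 0) :
    Matrix.trace (H * P.map θ) = 0 := by
  classical
  obtain ⟨Q, hQ⟩ := exists_geninv P
  have h3 : P.map θ = P.map θ * (Q * P) + P * (Q * P).map θ := by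
    conv_lhs => rw [← hQ, Matrix.mul_assoc, map_mul_th θ hadd hmul]
  have h4 : H * P.map θ = H * P.map θ * Q * P := by
    conv_lhs => rw [h3]
    rw [Matrix.mul_add, ← Matrix.mul_assoc H P, h2, Matrix.zero_mul, add_zero,
      ← Matrix.mul_assoc, ← Matrix.mul_assoc]
  rw [h4, Matrix.trace_mul_comm, Matrix.mul_assoc H, ← Matrix.mul_assoc P, h1, Matrix.zero_mul,
    Matrix.trace_zero]

include hadd hmul in
/-- The logarithmic identity. -/
theorem log_matrix (P G : Matrix I J L) (q φ : κ → I → L) (y : κ → J → L) (u : I → J → L)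
    (hPG : Pᵀ * G = 0) (hW : ∀ i i', ∑ j, P i j * G i' j = ∑ l, q l i * φ l i')
    (hq : ∀ l i, q l i = ∑ j, P i j * y l j) (hφ : ∀ l j, ∑ i, φ l i * P i j = 0)
    (hu : ∀ i j, P i j * (1 + G i j) = u i j) (hP : ∀ i j, P i j ≠ 0)
    (hθ : ∀ i j, θ (u i j) = 0) :
    ∑ i, ∑ j, u i j * (θ (P i j) / P i j) = ∑ l, ∑ i, φ l i * θ (q l i) := by
  classical
  -- the total sum is constant
  have h1 : ∑ i, ∑ j, θ (P i j) = 0 := by
    have h2 : ∑ i, ∑ j, P i j = ∑ i, ∑ j, u i j := by
      have h3 : ∑ i, ∑ j, P i j * G i j = 0 := by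
        rw [Finset.sum_comm]
        refine Finset.sum_eq_zero fun j _ => ?_
        have h4 := congrFun (congrFun hPG j) j
        simpa [Matrix.mul_apply] using h4
      have h4 : ∑ i, ∑ j, u i j = ∑ i, ∑ j, P i j + ∑ i, ∑ j, P i j * G i j := by
        simp only [← hu, mul_add, mul_one, Finset.sum_add_distrib]
      rw [h4, h3, add_zero]
    have h5 : θ (∑ i, ∑ j, P i j) = θ (∑ i, ∑ j, u i j) := by rw [h2]
    rw [th_sum θ hadd, th_sum θ hadd] at h5
    simp only [th_sum θ hadd, hθ, Finset.sum_const_zero] at h5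
    exact h5
  set H : Matrix J I L := Gᵀ - Matrix.of fun j i => ∑ l, y l j * φ l i with hH
  have hPH : P * H = 0 := by
    ext i i'
    rw [hH, Matrix.mul_sub, Matrix.sub_apply, Matrix.zero_apply, sub_eq_zero]
    simp only [Matrix.mul_apply, Matrix.transpose_apply, Matrix.of_apply]
    rw [hW]
    simp only [Finset.mul_sum]
    rw [Finset.sum_comm]
    refine Finset.sum_congr rfl fun l _ => ?_
    rw [hq, Finset.sum_mul]
    exact Finset.sum_congr rfl fun j _ => by ring
  have hHP : H * P = 0 := by
    ext j j'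
    rw [hH, Matrix.sub_mul, Matrix.sub_apply, Matrix.zero_apply, sub_eq_zero]
    simp only [Matrix.mul_apply, Matrix.transpose_apply, Matrix.of_apply]
    have h4 := congrFun (congrFun hPG j') j
    simp only [Matrix.mul_apply, Matrix.transpose_apply, Matrix.zero_apply] at h4
    rw [show ∑ i, G i j * P i j' = 0 from by
      rw [← h4]
      exact Finset.sum_congr rfl fun i _ => mul_comm _ _]
    symm
    simp only [Finset.sum_mul]
    rw [Finset.sum_comm]
    refine Finset.sum_eq_zero fun l _ => ?_
    have h5 := hφ l j'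
    calc ∑ i, y l j * φ l i * P i j' = y l j * ∑ i, φ l i * P i j' := by
          rw [Finset.mul_sum]
          exact Finset.sum_congr rfl fun i _ => by ring
      _ = 0 := by rw [h5, mul_zero]
  have htr := trace_der θ hadd hmul P H hPH hHP
  have htr2 : ∑ i, ∑ j, G i j * θ (P i j) = ∑ l, ∑ i, φ l i * ∑ j, θ (P i j) * y l j := by
    have h6 : Matrix.trace (H * P.map θ) =
        ∑ i, ∑ j, G i j * θ (P i j) - ∑ l, ∑ i, φ l i * ∑ j, θ (P i j) * y l j := by
      rw [hH, Matrix.sub_mul, Matrix.trace_sub]
      congr 1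
      · simp only [Matrix.trace, Matrix.diag, Matrix.mul_apply, Matrix.transpose_apply,
          Matrix.map_apply]
        rw [Finset.sum_comm]
      · simp only [Matrix.trace, Matrix.diag, Matrix.mul_apply, Matrix.of_apply,
          Matrix.map_apply, Finset.sum_mul, Finset.mul_sum]
        rw [Finset.sum_comm]
        rw [show (∑ l, ∑ i, ∑ j, φ l i * (θ (P i j) * y l j)) =
          ∑ i, ∑ j, ∑ l, φ l i * (θ (P i j) * y l j) from by
            rw [Finset.sum_comm]
            refine Finset.sum_congr rfl fun i _ => ?_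
            rw [Finset.sum_comm]]
        refine Finset.sum_congr rfl fun i _ => Finset.sum_congr rfl fun j _ =>
          Finset.sum_congr rfl fun l _ => by ring
    rw [htr] at h6
    exact (sub_eq_zero.mp h6.symm)
  have h7 : ∀ l, ∑ i, φ l i * θ (q l i) = ∑ i, φ l i * ∑ j, θ (P i j) * y l j := by
    intro l
    have h8 : ∀ i, θ (q l i) = ∑ j, θ (P i j) * y l j + ∑ j, P i j * θ (y l j) := by
      intro i
      rw [hq, th_sum θ hadd, ← Finset.sum_add_distrib]
      exact Finset.sum_congr rfl fun j _ => hmul _ _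
    have h9 : ∑ i, φ l i * ∑ j, P i j * θ (y l j) = 0 := by
      simp only [Finset.mul_sum]
      rw [Finset.sum_comm]
      refine Finset.sum_eq_zero fun j _ => ?_
      calc ∑ i, φ l i * (P i j * θ (y l j)) = (∑ i, φ l i * P i j) * θ (y l j) := by
            rw [Finset.sum_mul]
            exact Finset.sum_congr rfl fun i _ => by ring
        _ = 0 := by rw [hφ, zero_mul]
    simp only [h8, mul_add, Finset.sum_add_distrib, h9, add_zero]
  have h10 : ∀ i j, u i j * (θ (P i j) / P i j) = θ (P i j) + G i j * θ (P i j) := by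
    intro i j
    rw [← hu i j]
    field_simp [hP i j]
    try ring
  simp only [h10, Finset.sum_add_distrib]
  rw [h1, zero_add, htr2]
  exact Finset.sum_congr rfl fun l _ => (h7 l).symm

end Trace

section Order

variable {k : Type} [Field k] {I J κ : Type*} [Fintype I] [Fintype J] [Fintype κ]

theorem euler_zero_div (w : LaurentSeries k) (q φ : LaurentSeries k) (h : q * φ = -w) :
    φ * euler q = -(w * (euler q / q)) := by
  by_cases hq : q = 0
  · rw [hq, euler_zero, mul_zero, zero_div, mul_zero, neg_zero]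
  · have h1 : w = -(q * φ) := by rw [h, neg_neg]
    rw [h1]
    field_simp

/-- The identity between the orders: the exponents are `u` for the entries of `P` and power series
`w` with constant terms `c` for the coordinates of the `q_l`. -/
theorem order_identity (P G : Matrix I J (LaurentSeries k)) (q φ : κ → I → LaurentSeries k)
    (y : κ → J → LaurentSeries k) (u : I → J → k) (w : κ → I → PowerSeries k)
    (hPG : Pᵀ * G = 0) (hW : ∀ i i', ∑ j, P i j * G i' j = ∑ l, q l i * φ l i')
    (hq : ∀ l i, q l i = ∑ j, P i j * y l j) (hφ : ∀ l j, ∑ i, φ l i * P i j = 0)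
    (hu : ∀ i j, P i j * (1 + G i j) = HahnSeries.C (u i j)) (hu0 : ∀ i j, u i j ≠ 0)
    (hqφ : ∀ l i, q l i * φ l i = -ofPS (w l i)) :
    ∑ i, ∑ j, u i j * (((P i j).order : ℤ) : k) +
      ∑ l, ∑ i, PowerSeries.constantCoeff (w l i) * (((q l i).order : ℤ) : k) = 0 := by
  classical
  have hP : ∀ i j, P i j ≠ 0 := by
    intro i j h
    have h1 := hu i j
    rw [h, zero_mul] at h1
    exact hu0 i j (by
      have h2 : HahnSeries.C (Γ := ℤ) (u i j) = HahnSeries.C 0 := by rw [← h1, map_zero]
      exact HahnSeries.C_injective h2)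
  have h1 := log_matrix (L := LaurentSeries k) euler euler_add euler_mul P G q φ y
    (fun i j => HahnSeries.C (u i j)) hPG hW hq hφ hu hP (fun i j => euler_C _)
  have h2 : ∀ l i, φ l i * euler (q l i) = -(ofPS (w l i) * (euler (q l i) / q l i)) :=
    fun l i => euler_zero_div _ _ _ (hqφ l i)
  simp only [h2, Finset.sum_neg_distrib] at h1
  rw [← sub_eq_zero, sub_neg_eq_add] at h1
  have hreg : ∀ f : LaurentSeries k, ∃ H : PowerSeries k, euler f / f = ofPS H ∧
      PowerSeries.constantCoeff H = ((f.order : ℤ) : k) := by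
    intro f
    by_cases hf : f = 0
    · refine ⟨0, ?_, ?_⟩
      · rw [hf, euler_zero, zero_div, map_zero]
      · rw [hf, map_zero, HahnSeries.order_zero, Int.cast_zero]
    · exact euler_div f hf
  choose A hA hA0 using fun i j => hreg (P i j)
  choose B hB hB0 using fun l i => hreg (q l i)
  have h3 : ofPS (∑ i, ∑ j, PowerSeries.C (u i j) * A i j + ∑ l, ∑ i, w l i * B l i) =
      (0 : LaurentSeries k) := by
    rw [← h1]
    simp only [map_add, map_sum, map_mul, hA, hB]
    congr 1
    refine Finset.sum_congr rfl fun i _ => Finset.sum_congr rfl fun j _ => ?_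
    rw [ofPS, HahnSeries.ofPowerSeries_C]
  have h4 : ∑ i, ∑ j, PowerSeries.C (u i j) * A i j + ∑ l, ∑ i, w l i * B l i = 0 := by
    apply ofPS_injective
    rw [h3, map_zero]
  have h5 := congrArg PowerSeries.constantCoeff h4
  simp only [map_add, map_sum, map_mul, PowerSeries.constantCoeff_C, hA0, hB0, map_zero] at h5
  exact h5

/-- No escape: if the exponents are linearly independent over `ℚ`, all orders vanish. `T` is the
set of the pairs `(l, i)` with a constant exponent; for the other pairs the exponent is small or the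
coordinate is constant. -/
theorem orders_sys [CharZero k] [Algebra ℚ k] (P G : Matrix I J (LaurentSeries k))
    (q φ : κ → I → LaurentSeries k)
    (y : κ → J → LaurentSeries k) (u : I → J → k) (w : κ → I → PowerSeries k)
    (hPG : Pᵀ * G = 0) (hW : ∀ i i', ∑ j, P i j * G i' j = ∑ l, q l i * φ l i')
    (hq : ∀ l i, q l i = ∑ j, P i j * y l j) (hφ : ∀ l j, ∑ i, φ l i * P i j = 0)
    (hu : ∀ i j, P i j * (1 + G i j) = HahnSeries.C (u i j))
    (hqφ : ∀ l i, q l i * φ l i = -ofPS (w l i)) (T : Set (κ × I))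
    (hind : LinearIndependent ℚ (Sum.elim (fun p : I × J => u p.1 p.2)
      (fun t : T => PowerSeries.constantCoeff (w t.1.1 t.1.2))))
    (hT : ∀ l i, (l, i) ∉ T → PowerSeries.constantCoeff (w l i) = 0 ∨ (q l i).order = 0) :
    (∀ i j, P i j ≠ 0 ∧ (P i j).order = 0) ∧
      ∀ t ∈ T, q t.1 t.2 ≠ 0 ∧ (q t.1 t.2).order = 0 := by
  classical
  have hu0 : ∀ i j, u i j ≠ 0 := fun i j => hind.ne_zero (Sum.inl (i, j))
  have hw0 : ∀ t ∈ T, PowerSeries.constantCoeff (w t.1 t.2) ≠ 0 := by
    intro t ht
    have h0 := hind.ne_zero (Sum.inr ⟨t, ht⟩)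
    simpa using h0
  have h1 := order_identity P G q φ y u w hPG hW hq hφ hu hu0 hqφ
  have h2 : ∑ a : (I × J) ⊕ T, (Sum.elim (fun p : I × J => u p.1 p.2)
      (fun t : T => PowerSeries.constantCoeff (w t.1.1 t.1.2))) a *
        (((Sum.elim (fun p : I × J => (P p.1 p.2).order)
          (fun t : T => (q t.1.1 t.1.2).order) a : ℤ)) : k) = 0 := by
    rw [Fintype.sum_sum_type]
    simp only [Sum.elim_inl, Sum.elim_inr]
    rw [← h1, Fintype.sum_prod_type]
    congr 1
    rw [← Fintype.sum_prod_type' (f := fun l i =>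
      PowerSeries.constantCoeff (w l i) * (((q l i).order : ℤ) : k))]
    rw [← Finset.sum_subset (Finset.subset_univ (Set.toFinset T))]
    · rw [Finset.sum_set_coe (s := T) (f := fun t : κ × I =>
        PowerSeries.constantCoeff (w t.1 t.2) * (((q t.1 t.2).order : ℤ) : k))]
    · intro t _ ht
      rw [Set.mem_toFinset] at ht
      rcases hT t.1 t.2 ht with h | h
      · rw [h, zero_mul]
      · rw [h, Int.cast_zero, mul_zero]
  have h3 := Pool.ML55.orders_zero _ hind _ h2
  constructor
  · intro i j
    refine ⟨?_, h3 (Sum.inl (i, j))⟩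
    intro h
    have h4 := hu i j
    rw [h, zero_mul] at h4
    exact hu0 i j (by
      have h2 : HahnSeries.C (Γ := ℤ) (u i j) = HahnSeries.C 0 := by rw [← h4, map_zero]
      exact HahnSeries.C_injective h2)
  · intro t ht
    refine ⟨?_, h3 (Sum.inr ⟨t, ht⟩)⟩
    intro h
    have h4 := hqφ t.1 t.2
    rw [h, zero_mul] at h4
    have h5 : ofPS (w t.1 t.2) = 0 := neg_eq_zero.mp h4.symm
    have h6 : w t.1 t.2 = 0 := by
      apply ofPS_injective
      rw [h5, map_zero]
    exact hw0 t ht (by rw [h6, map_zero])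

end Order

end Pool.EU
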