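import Pool.Agent.EU.IntRows

/-!
# Splitting off pivots from a matrix of given rank
-/

set_option autoImplicit false

open Matrix

namespace Pool.EU

section split

variable {F : Type} [Field F] {π ι ρ J : Type} [Fintype π] [Fintype ι] [Fintype ρ] [Fintype J]
  [DecidableEq π] [DecidableEq ι] [DecidableEq ρ]

omit [DecidableEq ι] in
/-- rank of a matrix in two blocks of rows, when the first block has a right inverse killed by the
second one -/
theorem rank_fromRows_eq (Y : Matrix π J F) (M : Matrix ι J F) (C : Matrix J π F) (h1 : Y * C = 1)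
    (h2 : M * C = 0) : (Matrix.fromRows Y M).rank = Fintype.card π + M.rank := by
  have hrows : Set.range (Matrix.fromRows Y M).row = Set.range Y.row ∪ Set.range M.row := by
    ext x
    constructor
    · rintro ⟨i | i, rfl⟩
      · exact Or.inl ⟨i, rfl⟩
      · exact Or.inr ⟨i, rfl⟩
    · rintro (⟨i, rfl⟩ | ⟨i, rfl⟩)
      · exact ⟨Sum.inl i, rfl⟩
      · exact ⟨Sum.inr i, rfl⟩
  have hY : Y.rank = Fintype.card π := by
    apply le_antisymm (Matrix.rank_le_card_height _)
    have h3 := Matrix.rank_mul_le_left Y C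
    rw [h1, Matrix.rank_one] at h3
    exact h3
  have hinf : Submodule.span F (Set.range Y.row) ⊓ Submodule.span F (Set.range M.row) = ⊥ := by
    rw [eq_bot_iff]
    rintro x ⟨hx1, hx2⟩
    obtain ⟨a, ha⟩ := (Submodule.mem_span_range_iff_exists_fun F).1 hx1
    obtain ⟨b, hb⟩ := (Submodule.mem_span_range_iff_exists_fun F).1 hx2
    have ha' : a ᵥ* Y = x := by
      rw [← ha]
      ext j
      simp [Matrix.vecMul, dotProduct, Matrix.row]
    have hb' : b ᵥ* M = x := by
      rw [← hb]
      ext j
      simp [Matrix.vecMul, dotProduct, Matrix.row]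
    have h3 : a = x ᵥ* C := by
      rw [← ha', Matrix.vecMul_vecMul, h1, Matrix.vecMul_one]
    have h4 : x ᵥ* C = 0 := by
      rw [← hb', Matrix.vecMul_vecMul, h2, Matrix.vecMul_zero]
    rw [Submodule.mem_bot, ← ha', h3, h4, Matrix.zero_vecMul]
  have h3 := Submodule.finrank_sup_add_finrank_inf_eq (Submodule.span F (Set.range Y.row))
    (Submodule.span F (Set.range M.row))
  rw [hinf, finrank_bot, add_zero, ← Submodule.span_union, ← hrows,
    ← Matrix.rank_eq_finrank_span_row, ← Matrix.rank_eq_finrank_span_row,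
    ← Matrix.rank_eq_finrank_span_row, hY] at h3
  exact h3

/-- splitting off the pivots -/
theorem exists_split (P : Matrix (π ⊕ ι) J F) (Q : Matrix (π ⊕ ι) π F) (C : Matrix J π F)
    (hQ : (Q.submatrix Sum.inl id).det ≠ 0) (hQC : Q = P * C) :
    ∃ (Y : Matrix π J F) (M : Matrix ι J F), P = Q * Y + Matrix.fromRows 0 M ∧ Y * C = 1 ∧
      M * C = 0 ∧ P.rank = Fintype.card π + M.rank := by
  set R : Matrix π π F := Q.submatrix Sum.inl id with hR
  have hu : IsUnit R.det := isUnit_iff_ne_zero.2 hQ
  have hR1 : P.submatrix Sum.inl id * C = R := by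
    rw [hR, hQC]
    rfl
  set Y : Matrix π J F := R⁻¹ * P.submatrix Sum.inl id with hY
  set M : Matrix ι J F := P.submatrix Sum.inr id - Q.submatrix Sum.inr id * Y with hM
  have hYC : Y * C = 1 := by
    rw [hY, Matrix.mul_assoc, hR1, Matrix.nonsing_inv_mul _ hu]
  have hMC : M * C = 0 := by
    rw [hM, Matrix.sub_mul, Matrix.mul_assoc, hYC, Matrix.mul_one, sub_eq_zero, hQC]
    rfl
  have hRY : R * Y = P.submatrix Sum.inl id := by
    rw [hY, ← Matrix.mul_assoc, Matrix.mul_nonsing_inv _ hu, Matrix.one_mul]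
  have hP : P = Q * Y + Matrix.fromRows 0 M := by
    ext i j
    rcases i with i | i
    · rw [Matrix.add_apply, Matrix.fromRows_apply_inl, Matrix.zero_apply, add_zero]
      exact (congrFun (congrFun hRY i) j).symm
    · rw [Matrix.add_apply, Matrix.fromRows_apply_inr, hM, Matrix.sub_apply]
      have h : (Q * Y) (Sum.inr i) j = (Q.submatrix Sum.inr id * Y) i j := rfl
      rw [h, add_sub_cancel]
      rfl
  refine ⟨Y, M, hP, hYC, hMC, ?_⟩
  let E : Matrix (π ⊕ ι) (π ⊕ ι) F := Matrix.fromBlocks R 0 (Q.submatrix Sum.inr id) 1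
  have hblock : P = E * (Matrix.fromRows Y M) := by
    show P = Matrix.fromBlocks R 0 (Q.submatrix Sum.inr id) 1 * Matrix.fromRows Y M
    rw [Matrix.fromBlocks_mul_fromRows, hRY, Matrix.zero_mul, add_zero, Matrix.one_mul, hM,
      add_sub_cancel]
    ext i j
    rcases i with i | i <;> rfl
  have hdet : IsUnit E.det := by
    show IsUnit (Matrix.fromBlocks R 0 (Q.submatrix Sum.inr id) (1 : Matrix ι ι F)).det
    rw [Matrix.det_fromBlocks_zero₁₂, Matrix.det_one, mul_one]
    exact hu
  rw [hblock, Matrix.rank_mul_eq_right_of_isUnit_det _ _ hdet, rank_fromRows_eq Y M C hYC hMC]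

end split

end Pool.EU
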