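import Pool.Agent.EU.TBDefs

/-!
# Naturality and differential of the chart system
-/

set_option autoImplicit false
set_option linter.unusedSectionVars false

namespace Pool.EU.TB

open Matrix

section row0

variable {π ρ σ J : Type} [DecidableEq π] [DecidableEq ρ] [DecidableEq σ] [DecidableEq J]
  [Fintype π] [Fintype ρ] [Fintype σ] [Fintype J] {S : π → Finset (Rw π ρ σ)}
  {R R' : Type} [CommRing R] [CommRing R']

theorem fr_map (f : R →+* R') (x : Var S J → R) (l : π) (i : Rw π ρ σ) :
    fr (fun y => f (x y)) l i = f (fr x l i) := by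
  unfold fr
  split_ifs with h1 h2
  · rfl
  · rw [map_one]
  · rw [map_zero]

theorem xP_map (f : R →+* R') (x : Var S J → R) (i : Rw π ρ σ) (j : J) :
    xP (fun y => f (x y)) i j = f (xP x i j) := by
  unfold xP
  rw [map_add, map_sum]
  congr 1
  · refine Finset.sum_congr rfl fun l _ => ?_
    rw [map_mul, fr_map]
    rfl
  · rcases i with i | i | i
    · simp
    · rfl
    · simp [map_sum, xA, xY]

theorem xh_map (f : R →+* R') (x : Var S J → R) (l : π) (i : Rw π ρ σ) :
    xh (fun y => f (x y)) l i = f (xh x l i) := by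
  simp [xh, map_sum, xY, xG]

theorem pX_map (f : R →+* R') (x : Var S J → R) (g : Rw π ρ σ → R) (k : π ⊕ ρ) :
    pX (fun y => f (x y)) (fun i => f (g i)) k = f (pX x g k) := by
  rcases k with k | k
  · simp [pX, map_sum, fr_map]
  · simp [pX, map_sum, xA]

theorem ev_map (f : R →+* R') (c : R) (T : Finset (ρ ⊕ σ)) (i₀ : ρ ⊕ σ) (x : Var S J → R)
    (e : Eqn S J) : ev (f c) T i₀ (fun y => f (x y)) e = f (ev c T i₀ x e) := by
  rcases e with e | e | e | e | e | e | e
  · exact pX_map f x (fun i => xG x i e.2) e.1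
  · exact pX_map f x (xb x) e
  · simp [ev, xa, xA, map_sum]
  · simp [ev, xa, xb, xY, xG, map_sum]
  · change xP _ _ _ * (1 + _) = f (xP x _ _ * (1 + xG x _ _))
    rw [xP_map, map_mul, map_add, map_one]
    rfl
  · change xf _ _ * xh _ _ _ = f (xf x e * xh x _ _)
    rw [xh_map, map_mul]
    rfl
  · simp only [ev, Sum.elim_inr]
    split_ifs
    · rfl
    · rw [map_mul]
      rfl
    · rfl

section der

variable (f : R →+* R') (D : R → R') (hadd : ∀ a b, D (a + b) = D a + D b)
    (hmul : ∀ a b, D (a * b) = f a * D b + f b * D a)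

include hadd in
theorem der_zero : D 0 = 0 := by
  have := hadd 0 0
  rw [add_zero] at this
  exact left_eq_add.mp this

include hmul in
theorem der_one : D 1 = 0 := by
  have := hmul 1 1
  rw [mul_one, map_one, one_mul] at this
  exact left_eq_add.mp this

include hadd in
theorem der_sum {α : Type} (s : Finset α) (g : α → R) : D (∑ i ∈ s, g i) = ∑ i ∈ s, D (g i) := by
  classical
  induction s using Finset.induction_on with
  | empty => rw [Finset.sum_empty, Finset.sum_empty, der_zero D hadd]
  | insert a s ha ih => rw [Finset.sum_insert ha, Finset.sum_insert ha, hadd, ih]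

include hadd in
theorem der_sub (a b : R) : D (a - b) = D a - D b := by
  have h1 := hadd (a - b) b
  rw [sub_add_cancel] at h1
  rw [h1, add_sub_cancel_right]

include hadd hmul in
theorem fr_der (x : Var S J → R) (l : π) (i : Rw π ρ σ) :
    D (fr x l i) = dfr (fun y => D (x y)) l i := by
  unfold fr dfr
  split_ifs with h1 h2
  · rfl
  · exact der_one f D hmul
  · exact der_zero D hadd

include hadd hmul in
theorem xP_der (x : Var S J → R) (i : Rw π ρ σ) (j : J) :
    D (xP x i j) = dxP (fun y => f (x y)) (fun y => D (x y)) i j := by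
  unfold xP dxP
  rw [hadd, der_sum D hadd]
  congr 1
  · refine Finset.sum_congr rfl fun l _ => ?_
    rw [hmul, fr_der f D hadd hmul, fr_map]
    change f (fr x l i) * D (x _) + f (x _) * _ = _ * f (x _) + f (fr x l i) * D (x _)
    ring
  · rcases i with i | i | i
    · exact der_zero D hadd
    · rfl
    · change D (∑ k, _) = ∑ k, _
      rw [der_sum D hadd]
      refine Finset.sum_congr rfl fun k _ => ?_
      rw [hmul]
      change f (x _) * D (x _) + f (x _) * D (x _) = D (x _) * f (x _) + f (x _) * D (x _)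
      ring

include hadd hmul in
theorem xh_der (x : Var S J → R) (l : π) (i : Rw π ρ σ) :
    D (xh x l i) = dxh (fun y => f (x y)) (fun y => D (x y)) l i := by
  unfold xh dxh
  rw [der_sum D hadd]
  refine Finset.sum_congr rfl fun k _ => ?_
  rw [hmul]
  change f (x _) * D (x _) + f (x _) * D (x _) = D (x _) * f (x _) + f (x _) * D (x _)
  ring

include hadd hmul in
theorem pX_der (x : Var S J → R) (g : Rw π ρ σ → R) (k : π ⊕ ρ) :
    D (pX x g k) = dpX (fun y => f (x y)) (fun y => D (x y)) (fun i => f (g i))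
      (fun i => D (g i)) k := by
  rcases k with k | k
  · change D (∑ i, _) = ∑ i, _
    rw [der_sum D hadd]
    refine Finset.sum_congr rfl fun i _ => ?_
    rw [hmul, fr_der f D hadd hmul, fr_map]
    ring
  · change D (g _ + ∑ s, _) = D (g _) + ∑ s, _
    rw [hadd, der_sum D hadd]
    congr 1
    refine Finset.sum_congr rfl fun s _ => ?_
    rw [hmul]
    change f (x _) * D (g _) + f (g _) * D (x _) = D (x _) * f (g _) + f (x _) * D (g _)
    ring

include hadd hmul in
/-- `D` is a derivation along `f`. -/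
theorem ev_der (c : R) (hc : D c = 0)
    (T : Finset (ρ ⊕ σ)) (i₀ : ρ ⊕ σ) (x : Var S J → R) (e : Eqn S J) :
    D (ev c T i₀ x e) = dev (f c) T i₀ (fun y => f (x y)) (fun y => D (x y)) e := by
  rcases e with e | e | e | e | e | e | e
  · exact pX_der f D hadd hmul x (fun i => xG x i e.2) e.1
  · exact pX_der f D hadd hmul x (xb x) e
  · change D (_ - ∑ k, _) = D (x _) - ∑ k, _
    rw [der_sub D hadd, der_sum D hadd]
    congr 1
    refine Finset.sum_congr rfl fun k _ => ?_
    rw [hmul]
    change f (x _) * D (x _) + f (x _) * D (x _) = D (x _) * f (x _) + f (x _) * D (x _)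
    ring
  · change D (∑ j, _ - c * (_ * _)) = ∑ j, _ - f c * _
    rw [der_sub D hadd, der_sum D hadd]
    congr 1
    · refine Finset.sum_congr rfl fun k _ => ?_
      rw [hmul]
      change f (x _) * D (x _) + f (x _) * D (x _) = D (x _) * f (x _) + f (x _) * D (x _)
      ring
    · rw [hmul, hc, mul_zero, add_zero, hmul]
      change f c * (f (x _) * D (x _) + f (x _) * D (x _)) =
        f c * (D (x _) * f (x _) + f (x _) * D (x _))
      ring
  · change D (xP x _ _ * (1 + xG x _ _)) = _
    rw [hmul, hadd, der_one f D hmul, zero_add, xP_der f D hadd hmul, map_add, map_one]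
    change f (xP x _ _) * D (x _) + (1 + f (x _)) * dxP _ _ _ _ =
      dxP _ _ _ _ * (1 + f (x _)) + xP (fun y => f (x y)) _ _ * D (x _)
    rw [xP_map]
    ring
  · change D (xf x e * xh x _ _) = _
    rw [hmul, xh_der f D hadd hmul]
    change f (x _) * dxh _ _ _ _ + f (xh x _ _) * D (x _) =
      D (x _) * xh (fun y => f (x y)) _ _ + f (x _) * dxh _ _ _ _
    rw [xh_map]
    ring
  · simp only [ev, dev, Sum.elim_inr]
    split_ifs
    · rfl
    · rw [hmul]
      change f (x _) * D (x _) + f (x _) * D (x _) = D (x _) * f (x _) + f (x _) * D (x _)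
      ring
    · rfl

end der

theorem ev_taylor (c : R) (T : Finset (ρ ⊕ σ)) (i₀ : ρ ⊕ σ) (x z : Var S J → R) (t : R)
    (e : Eqn S J) : ∃ r : R, ev c T i₀ (fun y => x y + t * z y) e =
      ev c T i₀ x e + t * dev c T i₀ x z e + t ^ 2 * r := by
  obtain ⟨X, hX⟩ : ∃ X : Var S J → Polynomial R,
    X = fun y => Polynomial.C (x y) + Polynomial.X * Polynomial.C (z y) := ⟨_, rfl⟩
  obtain ⟨q, hq⟩ : ∃ q : Polynomial R, q = ev (Polynomial.C c) T i₀ X e := ⟨_, rfl⟩
  have h1 : q.eval t = ev c T i₀ (fun y => x y + t * z y) e := by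
    have := ev_map (Polynomial.evalRingHom t) (Polynomial.C c) T i₀ X e
    rw [← hq, Polynomial.coe_evalRingHom, Polynomial.eval_C] at this
    rw [← this, hX]
    simp [mul_comm t]
  have h2 : q.coeff 0 = ev c T i₀ x e := by
    have := ev_map (Polynomial.constantCoeff (R := R)) (Polynomial.C c) T i₀ X e
    rw [← hq, Polynomial.constantCoeff_apply, Polynomial.constantCoeff_apply,
      Polynomial.coeff_C_zero] at this
    rw [← this, hX]
    simp
  have h3 : q.coeff 1 = dev c T i₀ x z e := by
    have := ev_der (Polynomial.constantCoeff (R := R)) (fun p => p.coeff 1)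
      (fun a b => Polynomial.coeff_add a b 1) (fun a b => by
        rw [Polynomial.coeff_mul, Finset.Nat.antidiagonal_succ]
        simp
        ring) (Polynomial.C c) (by simp [Polynomial.coeff_C]) T i₀ X e
    rw [← hq] at this
    rw [this, hX]
    simp
  refine ⟨q.divX.divX.eval t, ?_⟩
  rw [← h1, ← h2, ← h3]
  have h4 := Polynomial.divX_mul_X_add q
  have h5 := Polynomial.divX_mul_X_add q.divX
  have h6 : q.divX.coeff 0 = q.coeff 1 := by simp [Polynomial.coeff_divX]
  conv_lhs => rw [← h4, ← h5]
  simp only [Polynomial.eval_add, Polynomial.eval_mul, Polynomial.eval_X, Polynomial.eval_C, h6]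
  ring

theorem dfr_add (w w' : Var S J → R) (l : π) (i : Rw π ρ σ) :
    dfr (w + w') l i = dfr w l i + dfr w' l i := by
  unfold dfr
  split_ifs
  · rfl
  · rw [add_zero]

theorem dfr_smul (a : R) (w : Var S J → R) (l : π) (i : Rw π ρ σ) :
    dfr (a • w) l i = a * dfr w l i := by
  unfold dfr
  split_ifs
  · rfl
  · rw [mul_zero]

theorem dxP_add (x w w' : Var S J → R) (i : Rw π ρ σ) (j : J) :
    dxP x (w + w') i j = dxP x w i j + dxP x w' i j := by
  have h1 : ∀ y, (w + w') y = w y + w' y := fun _ => rfl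
  rcases i with i | i | i <;> simp only [dxP, dfr_add, xY, xA, h1, Sum.elim_inl, Sum.elim_inr,
    add_mul, mul_add, Finset.sum_add_distrib] <;> ring

theorem dxP_smul (a : R) (x w : Var S J → R) (i : Rw π ρ σ) (j : J) :
    dxP x (a • w) i j = a * dxP x w i j := by
  have h1 : ∀ y, (a • w) y = a * w y := fun _ => rfl
  rcases i with i | i | i <;> simp only [dxP, dfr_smul, xY, xA, h1, Sum.elim_inl, Sum.elim_inr,
    mul_add, Finset.mul_sum, mul_zero] <;> simp only [mul_assoc, mul_left_comm]

theorem dxh_add (x w w' : Var S J → R) (l : π) (i : Rw π ρ σ) :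
    dxh x (w + w') l i = dxh x w l i + dxh x w' l i := by
  have h1 : ∀ y, (w + w') y = w y + w' y := fun _ => rfl
  simp only [dxh, xY, xG, h1, add_mul, mul_add, Finset.sum_add_distrib]
  ring

theorem dxh_smul (a : R) (x w : Var S J → R) (l : π) (i : Rw π ρ σ) :
    dxh x (a • w) l i = a * dxh x w l i := by
  have h1 : ∀ y, (a • w) y = a * w y := fun _ => rfl
  simp only [dxh, xY, xG, h1, mul_add, Finset.mul_sum]
  simp only [mul_assoc, mul_left_comm]

theorem dpX_add (x w w' : Var S J → R) (g dg dg' : Rw π ρ σ → R) (k : π ⊕ ρ) :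
    dpX x (w + w') g (fun i => dg i + dg' i) k = dpX x w g dg k + dpX x w' g dg' k := by
  have h1 : ∀ y, (w + w') y = w y + w' y := fun _ => rfl
  rcases k with k | k <;> simp only [dpX, dfr_add, xA, h1, Sum.elim_inl, Sum.elim_inr,
    add_mul, mul_add, Finset.sum_add_distrib] <;> ring

theorem dpX_smul (a : R) (x w : Var S J → R) (g dg : Rw π ρ σ → R) (k : π ⊕ ρ) :
    dpX x (a • w) g (fun i => a * dg i) k = a * dpX x w g dg k := by
  have h1 : ∀ y, (a • w) y = a * w y := fun _ => rfl
  rcases k with k | k <;> simp only [dpX, dfr_smul, xA, h1, Sum.elim_inl, Sum.elim_inr,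
    mul_add, Finset.mul_sum] <;> simp only [mul_assoc, mul_left_comm]

theorem dev_add (c : R) (T : Finset (ρ ⊕ σ)) (i₀ : ρ ⊕ σ) (x w w' : Var S J → R)
    (e : Eqn S J) : dev c T i₀ x (w + w') e = dev c T i₀ x w e + dev c T i₀ x w' e := by
  have h1 : ∀ y, (w + w') y = w y + w' y := fun _ => rfl
  rcases e with e | e | e | e | e | e | e
  · exact dpX_add x w w' _ _ _ e.1
  · exact dpX_add x w w' _ _ _ e
  · simp only [dev, xa, xA, h1, Sum.elim_inl, Sum.elim_inr, add_mul, mul_add,
      Finset.sum_add_distrib]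
    ring
  · simp only [dev, xa, xb, xY, xG, h1, Sum.elim_inl, Sum.elim_inr, add_mul, mul_add,
      Finset.sum_add_distrib]
    ring
  · change dxP x (w + w') _ _ * _ + _ * (w _ + w' _) = _
    rw [dxP_add]
    change _ = (dxP x w _ _ * _ + _ * w _) + (dxP x w' _ _ * _ + _ * w' _)
    ring
  · change (w _ + w' _) * _ + _ * dxh x (w + w') _ _ = _
    rw [dxh_add]
    change _ = (w _ * _ + _ * dxh x w _ _) + (w' _ * _ + _ * dxh x w' _ _)
    ring
  · simp only [dev, Sum.elim_inr]
    split_ifs
    · rfl
    · change (w _ + w' _) * _ + _ * (w _ + w' _) = w _ * _ + _ * w _ + (w' _ * _ + _ * w' _)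
      ring
    · rfl

theorem dev_smul (c : R) (T : Finset (ρ ⊕ σ)) (i₀ : ρ ⊕ σ) (a : R) (x w : Var S J → R)
    (e : Eqn S J) : dev c T i₀ x (a • w) e = a * dev c T i₀ x w e := by
  have h1 : ∀ y, (a • w) y = a * w y := fun _ => rfl
  rcases e with e | e | e | e | e | e | e
  · exact dpX_smul a x w _ _ e.1
  · exact dpX_smul a x w _ _ e
  · simp only [dev, xa, xA, h1, Sum.elim_inl, Sum.elim_inr, mul_add, mul_sub,
      Finset.mul_sum]
    simp only [mul_assoc, mul_left_comm]
  · simp only [dev, xa, xb, xY, xG, h1, Sum.elim_inl, Sum.elim_inr, mul_add, mul_sub,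
      Finset.mul_sum]
    simp only [mul_assoc, mul_left_comm]
  · change dxP x (a • w) _ _ * _ + _ * (a * w _) = a * (dxP x w _ _ * _ + _ * w _)
    rw [dxP_smul]
    ring
  · change (a * w _) * _ + _ * dxh x (a • w) _ _ = a * (w _ * _ + _ * dxh x w _ _)
    rw [dxh_smul]
    ring
  · simp only [dev, Sum.elim_inr]
    split_ifs
    · rfl
    · change (a * w _) * _ + _ * (a * w _) = a * (w _ * _ + _ * w _)
      ring
    · rfl

/-- The differential as a linear map. -/
theorem exists_devL (c : R) (T : Finset (ρ ⊕ σ)) (i₀ : ρ ⊕ σ) (x : Var S J → R) :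
    ∃ L : (Var S J → R) →ₗ[R] (Eqn S J → R), ∀ w, L w = dev c T i₀ x w :=
  ⟨{ toFun := fun w => dev c T i₀ x w
     map_add' := fun w w' => funext fun e => dev_add c T i₀ x w w' e
     map_smul' := fun a w => funext fun e => dev_smul c T i₀ a x w e }, fun _ => rfl⟩

theorem card_var : Fintype.card (Var S J) = Fintype.card (Eqn S J) := by
  simp only [Fintype.card_sum, Fintype.card_prod]
  ring

end row0

end Pool.EU.TB
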