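import Pool.Agent.ML61.Der

/-!
# Uniform subspaces: vectors of a subspace and of its orthogonal complement with disjoint supports
-/

set_option autoImplicit false
set_option linter.unusedSectionVars false

namespace Pool.EU

open Matrix

variable {L : Type*} [Field L] {ρ σ : Type*} [Fintype ρ] [Fintype σ] [DecidableEq ρ]
  [DecidableEq σ]

/-- All minors are different from zero. -/
def AllMinors (A : Matrix σ ρ L) : Prop :=
  ∀ (n : ℕ) (f : Fin n → σ) (g : Fin n → ρ), Function.Injective f → Function.Injective g →
    (A.submatrix f g).det ≠ 0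

theorem AllMinors.transpose {A : Matrix σ ρ L} (hA : AllMinors A) : AllMinors Aᵀ := by
  intro n f g hf hg
  have h := hA n g f hg hf
  rw [← Matrix.det_transpose] at h
  exact h

/-- If the number of the columns used by `y` is at most the number of rows `b` at which `A y`
vanishes, then `y = 0`. -/
theorem AllMinors.eq_zero {A : Matrix σ ρ L} (hA : AllMinors A) (y : ρ → L) (a : Finset ρ)
    (b : Finset σ) (hy : ∀ i, i ∉ a → y i = 0) (hb : ∀ s ∈ b, A.mulVec y s = 0)
    (hab : a.card ≤ b.card) : y = 0 := by
  classical
  let f : Fin a.card → σ := fun i => (b.equivFin.symm (Fin.castLE hab i)).1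
  let g : Fin a.card → ρ := fun i => (a.equivFin.symm i).1
  have hf : Function.Injective f := by
    intro i j h
    have h1 := b.equivFin.symm.injective (Subtype.ext h)
    exact Fin.castLE_injective hab h1
  have hg : Function.Injective g := by
    intro i j h
    exact a.equivFin.symm.injective (Subtype.ext h)
  have hdet := hA _ f g hf hg
  have h1 : (A.submatrix f g).mulVec (fun i => y (g i)) = 0 := by
    funext i
    have h2 := hb (f i) (b.equivFin.symm (Fin.castLE hab i)).2
    rw [Pi.zero_apply, ← h2, Matrix.mulVec, Matrix.mulVec, dotProduct, dotProduct]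
    have h3 : ∑ j, A (f i) j * y j = ∑ j ∈ a, A (f i) j * y j := by
      symm
      apply Finset.sum_subset (Finset.subset_univ a)
      intro j _ hj
      rw [hy j hj, mul_zero]
    rw [h3, ← Finset.sum_coe_sort a, ← Equiv.sum_comp a.equivFin.symm]
    rfl
  have h4 := Matrix.eq_zero_of_mulVec_eq_zero hdet h1
  funext i
  by_cases hi : i ∈ a
  · have h5 := congrFun h4 (a.equivFin ⟨i, hi⟩)
    simpa [g] using h5
  · exact hy i hi

/-- `q = (y, A y)` and `φ = (-Aᵀ z, z)` cannot have disjoint supports. -/
theorem AllMinors.disjoint {A : Matrix σ ρ L} (hA : AllMinors A) (y : ρ → L) (z : σ → L)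
    (h1 : ∀ i, y i * Aᵀ.mulVec z i = 0) (h2 : ∀ s, z s * A.mulVec y s = 0) : y = 0 ∨ z = 0 := by
  classical
  set a : Finset ρ := Finset.univ.filter fun i => y i ≠ 0 with ha
  set b : Finset σ := Finset.univ.filter fun s => z s ≠ 0 with hb
  rcases le_total a.card b.card with h | h
  · left
    refine hA.eq_zero y a b (fun i hi => ?_) (fun s hs => ?_) h
    · by_contra hy
      exact hi (by rw [ha, Finset.mem_filter]; exact ⟨Finset.mem_univ i, hy⟩)
    · rw [hb, Finset.mem_filter] at hs
      exact (mul_eq_zero.mp (h2 s)).resolve_left hs.2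
  · right
    refine hA.transpose.eq_zero z b a (fun i hi => ?_) (fun s hs => ?_) h
    · by_contra hy
      exact hi (by rw [hb, Finset.mem_filter]; exact ⟨Finset.mem_univ i, hy⟩)
    · rw [ha, Finset.mem_filter] at hs
      exact (mul_eq_zero.mp (h1 s)).resolve_left hs.2

/-- A matrix with algebraically independent entries has all its minors different from zero. -/
theorem allMinors_of_algInd {k : Type*} [Field k] [Algebra k L] (A : Matrix σ ρ L)
    (hA : AlgebraicIndependent k (fun p : σ × ρ => A p.1 p.2)) : AllMinors A := by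
  intro n f g hf hg h
  have h1 : AlgebraicIndependent k (fun p : Fin n × Fin n => A (f p.1) (g p.2)) :=
    hA.comp (fun p : Fin n × Fin n => (f p.1, g p.2)) (fun p q hpq => by
      simp only [Prod.mk.injEq] at hpq
      exact Prod.ext (hf hpq.1) (hg hpq.2))
  have h2 : MvPolynomial.aeval (fun p : Fin n × Fin n => A (f p.1) (g p.2))
      (Matrix.det (Matrix.mvPolynomialX (Fin n) (Fin n) k)) = 0 := by
    rw [AlgHom.map_det, ← h]
    congr 1
    ext i j
    simp [Matrix.mvPolynomialX]
  have h3 := (algebraicIndependent_iff.mp h1) _ h2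
  exact Matrix.det_mvPolynomialX_ne_zero (Fin n) k h3

/-- The Jacobian criterion: numbers on which the derivations take arbitrary values are
algebraically independent. -/
theorem algInd_of_der {X : Type} [Finite X] (x : X → ℂ)
    (h : ∀ i, ∃ δ : Derivation ℚ ℂ ℂ, δ (x i) = 1 ∧ ∀ j, j ≠ i → δ (x j) = 0) :
    AlgebraicIndependent ℚ x := by
  classical
  have key : ∀ t : Set X, t.Finite → AlgebraicIndepOn ℚ x t := by
    intro t ht
    induction t, ht using Set.Finite.induction_on with
    | empty => exact algebraicIndependent_empty_type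
    | @insert i s hi _ ih =>
      refine ih.insert ?_
      intro halg
      obtain ⟨δ, h1, h2⟩ := h i
      have h3 : x i ∈ Pool.ML.acl (x '' s) := Pool.ML.mem_acl'.mpr halg
      have h4 := Pool.ML.derivation_acl δ (x '' s) (by
        rintro _ ⟨j, hj, rfl⟩
        exact h2 j (fun hji => hi (hji ▸ hj))) _ h3
      rw [h1] at h4
      exact one_ne_zero h4
  have h1 := key Set.univ Set.finite_univ
  exact AlgebraicIndependent.comp h1 (fun i => ⟨i, Set.mem_univ i⟩) (fun i j hij => by
    simpa using hij)

/-- A matrix on whose entries the derivations take arbitrary values has all its minors different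
from zero. -/
theorem allMinors_of_der {ρ σ : Type} [Fintype ρ] [Fintype σ] [DecidableEq ρ] [DecidableEq σ]
    (A : Matrix σ ρ ℂ) (h : ∀ s i, ∃ δ : Derivation ℚ ℂ ℂ, δ (A s i) = 1 ∧
      ∀ s' i', (s', i') ≠ (s, i) → δ (A s' i') = 0) : AllMinors A :=
  allMinors_of_algInd (k := ℚ) A (algInd_of_der _ fun p => by
    obtain ⟨δ, h1, h2⟩ := h p.1 p.2
    exact ⟨δ, h1, fun j hj => h2 j.1 j.2 hj⟩)

end Pool.EU
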