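import Pool.Agent.EU.TB0
import Pool.Agent.EU.Uniform

/-!
# Genericity and non-degeneracy in the chart
-/

set_option autoImplicit false
set_option linter.unusedSectionVars false

namespace Pool.EU.TB

open Matrix Pool.ML Module

section lin

variable {ρ σ : Type} [DecidableEq ρ] [DecidableEq σ] [Fintype ρ] [Fintype σ]

/-- A matrix with prescribed compatible images of a vector on both sides. -/
theorem exists_matrix (y : ρ → ℂ) (z : σ → ℂ) (hy : y ≠ 0) (hz : z ≠ 0) (b : σ → ℂ) (c : ρ → ℂ)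
    (h : ∑ s, z s * b s = ∑ k, c k * y k) :
    ∃ M : σ → ρ → ℂ, (∀ s, ∑ k, M s k * y k = b s) ∧ ∀ k, ∑ s, M s k * z s = c k := by
  obtain ⟨k₀, hk₀⟩ : ∃ k, y k ≠ 0 := by
    by_contra hcon
    push Not at hcon
    exact hy (funext hcon)
  obtain ⟨s₀, hs₀⟩ : ∃ s, z s ≠ 0 := by
    by_contra hcon
    push Not at hcon
    exact hz (funext hcon)
  obtain ⟨t, ht⟩ : ∃ t, t = ∑ k, c k * y k := ⟨_, rfl⟩
  refine ⟨fun s k => b s * (if k = k₀ then (y k₀)⁻¹ else 0) + (if s = s₀ then (z s₀)⁻¹ else 0) * c k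
    - t * ((if s = s₀ then (z s₀)⁻¹ else 0) * (if k = k₀ then (y k₀)⁻¹ else 0)), ?_, ?_⟩
  · intro s
    have h1 : ∑ k, (if k = k₀ then (y k₀)⁻¹ else 0) * y k = 1 := by
      rw [Finset.sum_eq_single k₀]
      · rw [if_pos rfl, inv_mul_cancel₀ hk₀]
      · intro k _ hk
        rw [if_neg hk, zero_mul]
      · intro hk
        exact absurd (Finset.mem_univ _) hk
    have h2 : ∀ k, (b s * (if k = k₀ then (y k₀)⁻¹ else 0) +
        (if s = s₀ then (z s₀)⁻¹ else 0) * c k - t * ((if s = s₀ then (z s₀)⁻¹ else 0) *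
        (if k = k₀ then (y k₀)⁻¹ else 0))) * y k =
        b s * ((if k = k₀ then (y k₀)⁻¹ else 0) * y k) + (if s = s₀ then (z s₀)⁻¹ else 0) *
        (c k * y k) - t * (if s = s₀ then (z s₀)⁻¹ else 0) *
        ((if k = k₀ then (y k₀)⁻¹ else 0) * y k) := fun k => by ring
    simp only [h2, Finset.sum_sub_distrib, Finset.sum_add_distrib, ← Finset.mul_sum, h1, ← ht]
    ring
  · intro k
    have h1 : ∑ s, (if s = s₀ then (z s₀)⁻¹ else 0) * z s = 1 := by
      rw [Finset.sum_eq_single s₀]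
      · rw [if_pos rfl, inv_mul_cancel₀ hs₀]
      · intro s _ hs
        rw [if_neg hs, zero_mul]
      · intro hs
        exact absurd (Finset.mem_univ _) hs
    have h2 : ∀ s, (b s * (if k = k₀ then (y k₀)⁻¹ else 0) +
        (if s = s₀ then (z s₀)⁻¹ else 0) * c k - t * ((if s = s₀ then (z s₀)⁻¹ else 0) *
        (if k = k₀ then (y k₀)⁻¹ else 0))) * z s =
        (if k = k₀ then (y k₀)⁻¹ else 0) * (z s * b s) + c k * ((if s = s₀ then (z s₀)⁻¹ else 0) *
        z s) - t * (if k = k₀ then (y k₀)⁻¹ else 0) *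
        ((if s = s₀ then (z s₀)⁻¹ else 0) * z s) := fun s => by ring
    simp only [h2, Finset.sum_sub_distrib, Finset.sum_add_distrib, ← Finset.mul_sum, h1, h, ← ht]
    ring

/-- The linear equations for `(A, a, b)` can be solved with arbitrary right hand sides. -/
def Block (A : σ → ρ → ℂ) (a b : ρ ⊕ σ → ℂ) (Cq Cf : Finset (ρ ⊕ σ)) : Prop :=
  ∀ (r : σ → ℂ) (s : ρ → ℂ) (tq tf : ρ ⊕ σ → ℂ), ∃ (dA : σ → ρ → ℂ) (da db : ρ ⊕ σ → ℂ),
    (∀ i, da (Sum.inr i) - ∑ k, (dA i k * a (Sum.inl k) + A i k * da (Sum.inl k)) = r i) ∧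
    (∀ k, db (Sum.inl k) + ∑ i, (dA i k * b (Sum.inr i) + A i k * db (Sum.inr i)) = s k) ∧
    (∀ i ∈ Cq, da i = tq i) ∧ ∀ i ∈ Cf, db i = tf i

theorem block_a (A : σ → ρ → ℂ) : Block A 0 0 (Finset.univ.filter fun i => i.isLeft)
    (Finset.univ.filter fun i => i.isRight) := by
  intro r s tq tf
  refine ⟨fun _ _ => 0, Sum.elim (fun k => tq (Sum.inl k))
    (fun i => r i + ∑ k, A i k * tq (Sum.inl k)),
    Sum.elim (fun k => s k - ∑ i, A i k * tf (Sum.inr i)) (fun i => tf (Sum.inr i)), ?_, ?_, ?_, ?_⟩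
  · intro i
    simp
  · intro k
    simp
  · rintro (i | i) hi
    · rfl
    · simp at hi
  · rintro (i | i) hi
    · simp at hi
    · rfl

theorem exists_row (y : ρ → ℂ) (hy : ∃ k, y k ≠ 0) (c : σ → ℂ) :
    ∃ M : σ → ρ → ℂ, ∀ i, ∑ k, M i k * y k = c i := by
  obtain ⟨k₀, hk₀⟩ := hy
  refine ⟨fun i k => if k = k₀ then (y k₀)⁻¹ * c i else 0, fun i => ?_⟩
  rw [Finset.sum_eq_single k₀]
  · simp only [if_true]
    field_simp
  · intro k _ hk
    simp only [if_neg hk, zero_mul]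
  · intro hk
    exact absurd (Finset.mem_univ _) hk

theorem block_c (A : σ → ρ → ℂ) (a b : ρ ⊕ σ → ℂ) (hy : ∃ k, a (Sum.inl k) ≠ 0)
    (Cq : Finset (ρ ⊕ σ)) : Block A a b Cq ∅ := by
  intro r s tq tf
  obtain ⟨M, hM⟩ := exists_row (fun k => a (Sum.inl k)) hy (fun i => tq (Sum.inr i) -
    ∑ k, A i k * tq (Sum.inl k) - r i)
  refine ⟨M, tq, Sum.elim (fun k => s k - ∑ i, M i k * b (Sum.inr i)) (fun _ => 0),
    ?_, ?_, ?_, ?_⟩
  · intro i
    rw [Finset.sum_add_distrib, hM i]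
    ring
  · intro k
    simp
  · intro i _
    rfl
  · intro i hi
    simp at hi

theorem block_b (A : σ → ρ → ℂ) (a b : ρ ⊕ σ → ℂ) (i₀ : ρ ⊕ σ) (hi₀ : a i₀ ≠ 0)
    (ha : ∀ s, a (Sum.inr s) = ∑ k, A s k * a (Sum.inl k))
    (hb : ∀ k, b (Sum.inl k) + ∑ s, A s k * b (Sum.inr s) = 0)
    (hy : ∃ k, a (Sum.inl k) ≠ 0) (hz : ∃ s, b (Sum.inr s) ≠ 0)
    (Cq Cf : Finset (ρ ⊕ σ)) (hCf : i₀ ∉ Cf) : Block A a b Cq Cf := by
  intro r s tq tf
  obtain ⟨β, hβ⟩ : ∃ β, a i₀ * β = ∑ k, a (Sum.inl k) * s k + ∑ i, b (Sum.inr i) * r i -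
    ∑ i, b i * tq i - ∑ i ∈ Finset.univ.erase i₀, a i * tf i :=
    ⟨_, mul_div_cancel₀ _ hi₀⟩
  obtain ⟨db, hdb⟩ : ∃ db : ρ ⊕ σ → ℂ, db = fun i => if i = i₀ then β else tf i := ⟨_, rfl⟩
  have h1 : ∑ i, a i * db i = ∑ k, a (Sum.inl k) * s k + ∑ i, b (Sum.inr i) * r i -
      ∑ i, b i * tq i := by
    rw [← Finset.add_sum_erase _ _ (Finset.mem_univ i₀)]
    have h2 : ∑ i ∈ Finset.univ.erase i₀, a i * db i =
        ∑ i ∈ Finset.univ.erase i₀, a i * tf i := by
      refine Finset.sum_congr rfl fun i hi => ?_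
      rw [hdb]
      simp only [if_neg (Finset.ne_of_mem_erase hi)]
    rw [h2, hdb]
    simp only [if_true]
    rw [hβ]
    ring
  obtain ⟨M, hM1, hM2⟩ := exists_matrix (fun k => a (Sum.inl k)) (fun i => b (Sum.inr i))
    (fun h => by
      obtain ⟨k, hk⟩ := hy
      exact hk (congrFun h k))
    (fun h => by
      obtain ⟨k, hk⟩ := hz
      exact hk (congrFun h k))
    (fun i => tq (Sum.inr i) - ∑ k, A i k * tq (Sum.inl k) - r i)
    (fun k => s k - db (Sum.inl k) - ∑ i, A i k * db (Sum.inr i)) (by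
      have e1 : ∀ i, b (Sum.inr i) * (tq (Sum.inr i) - ∑ k, A i k * tq (Sum.inl k) - r i) =
          b (Sum.inr i) * tq (Sum.inr i) - ∑ k, A i k * b (Sum.inr i) * tq (Sum.inl k) -
          b (Sum.inr i) * r i := by
        intro i
        rw [mul_sub, mul_sub, Finset.mul_sum]
        congr 2
        exact Finset.sum_congr rfl fun k _ => by ring
      have e2 : ∀ k, (s k - db (Sum.inl k) - ∑ i, A i k * db (Sum.inr i)) * a (Sum.inl k) =
          a (Sum.inl k) * s k - a (Sum.inl k) * db (Sum.inl k) -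
          ∑ i, A i k * a (Sum.inl k) * db (Sum.inr i) := by
        intro k
        rw [sub_mul, sub_mul, Finset.sum_mul]
        congr 1
        · ring
        · exact Finset.sum_congr rfl fun k _ => by ring
      simp only [e1, e2, Finset.sum_sub_distrib]
      rw [Finset.sum_comm, Finset.sum_comm (f := fun k i => A i k * a (Sum.inl k) *
        db (Sum.inr i))]
      simp only [← Finset.sum_mul, ← ha]
      have e3 : ∀ k, ∑ i, A i k * b (Sum.inr i) = - b (Sum.inl k) := by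
        intro k
        rw [eq_neg_iff_add_eq_zero, add_comm]
        exact hb k
      simp only [e3]
      rw [Fintype.sum_sum_type, Fintype.sum_sum_type] at h1
      simp only [neg_mul, Finset.sum_neg_distrib]
      linear_combination h1)
  refine ⟨M, tq, db, ?_, ?_, ?_, ?_⟩
  · intro i
    rw [Finset.sum_add_distrib, hM1 i]
    ring
  · intro k
    rw [Finset.sum_add_distrib, hM2 k]
    ring
  · intro i _
    rfl
  · intro i hi
    rw [hdb]
    simp only [if_neg (fun h => hCf (h ▸ hi) : i ≠ i₀)]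

end lin

section master

variable {π ρ σ J : Type} [DecidableEq π] [DecidableEq ρ] [DecidableEq σ] [DecidableEq J]
  [Fintype π] [Fintype ρ] [Fintype σ] [Fintype J] [LinearOrder π] {S : π → Finset (Rw π ρ σ)}

/-- The equations at the pivots can be solved. -/
theorem tri_solve (hS : Adm (Sum.inl : π → Rw π ρ σ) S) (x : Var S J → ℂ) (τ : π → ℂ) :
    ∃ g : π → ℂ, ∀ l, ∑ l', fr x l (Sum.inl l') * g l' = τ l := by
  obtain ⟨M, hM⟩ : ∃ M : Matrix π π ℂ, M = Matrix.of fun l l' => fr x l (Sum.inl l') := ⟨_, rfl⟩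
  have h1 : M.BlockTriangular id := by
    intro l l' hl
    rw [hM, Matrix.of_apply, fr]
    have h2 : (Sum.inl l' : Rw π ρ σ) ∉ S l := hS.notMem l l' hl
    rw [dif_neg (fun h => h2 h.1)]
    exact if_neg (fun h => hl.ne (Sum.inl_injective h))
  have h2 : M.det = 1 := by
    rw [Matrix.det_of_isUpperTriangular h1]
    refine Finset.prod_eq_one fun l _ => ?_
    rw [hM, Matrix.of_apply, fr, dif_neg (fun h => h.2 rfl), if_pos rfl]
  have h3 : IsUnit M.det := by
    rw [h2]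
    exact isUnit_one
  refine ⟨M⁻¹ *ᵥ τ, fun l => ?_⟩
  have h4 : M *ᵥ (M⁻¹ *ᵥ τ) = τ := by
    rw [Matrix.mulVec_mulVec, Matrix.mul_nonsing_inv _ h3, Matrix.one_mulVec]
  have h5 := congrFun h4 l
  rw [hM] at h5 ⊢
  exact h5

/-- The rows of `Y` which belong to `ρ`. -/
def Y2 (x : Var S J → ℂ) : Matrix ρ J ℂ := Matrix.of fun k j => xY x (Sum.inr k) j

/-- The column space of `Y2`. -/
noncomputable def RR (x : Var S J → ℂ) : Submodule ℂ (ρ → ℂ) := LinearMap.range (Y2 x).mulVecLin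

/-- The kernel of `Y2`. -/
noncomputable def KK (x : Var S J → ℂ) : Submodule ℂ (J → ℂ) := LinearMap.ker (Y2 x).mulVecLin

/-- The relations, first group. -/
def dv1 (x w : Var S J → ℂ) (y : (π ⊕ ρ) × J) : ℂ :=
  dpX x w (fun i => xG x i y.2) (fun i => xG w i y.2) y.1

/-- The relations, second group. -/
def dv2 (x w : Var S J → ℂ) (y : π ⊕ ρ) : ℂ := dpX x w (xb x) (xb w) y

/-- The relations, third group. -/
def dv3 (x w : Var S J → ℂ) (s : σ) : ℂ := xa w (Sum.inr s) -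
    ∑ k, (xA w s k * xa x (Sum.inl k) + xA x s k * xa w (Sum.inl k))

/-- The relations, fourth group. -/
def dv4 (c : ℂ) (x w : Var S J → ℂ) (y : ρ × σ) : ℂ :=
  ∑ j, (xY w (Sum.inr y.1) j * xG x (Sum.inr (Sum.inr y.2)) j +
      xY x (Sum.inr y.1) j * xG w (Sum.inr (Sum.inr y.2)) j) -
    c * (xa w (Sum.inl y.1) * xb x (Sum.inr (Sum.inr y.2)) +
      xa x (Sum.inl y.1) * xb w (Sum.inr (Sum.inr y.2)))

theorem dv1_add (x w w' : Var S J → ℂ) (y : (π ⊕ ρ) × J) :
    dv1 x (w + w') y = dv1 x w y + dv1 x w' y := dpX_add x w w' _ _ _ y.1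

theorem dv2_add (x w w' : Var S J → ℂ) (y : π ⊕ ρ) :
    dv2 x (w + w') y = dv2 x w y + dv2 x w' y := dpX_add x w w' _ _ _ y

theorem dv1_smul (a : ℂ) (x w : Var S J → ℂ) (y : (π ⊕ ρ) × J) :
    dv1 x (a • w) y = a * dv1 x w y := dpX_smul a x w _ _ y.1

theorem dv2_smul (a : ℂ) (x w : Var S J → ℂ) (y : π ⊕ ρ) :
    dv2 x (a • w) y = a * dv2 x w y := dpX_smul a x w _ _ y

theorem dv3_add (x w w' : Var S J → ℂ) (s : σ) : dv3 x (w + w') s = dv3 x w s + dv3 x w' s :=
  dev_add 0 ∅ (Sum.inr s) x w w' (Sum.inr (Sum.inr (Sum.inl s)))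

theorem dv3_smul (a : ℂ) (x w : Var S J → ℂ) (s : σ) : dv3 x (a • w) s = a * dv3 x w s :=
  dev_smul 0 ∅ (Sum.inr s) a x w (Sum.inr (Sum.inr (Sum.inl s)))

theorem dv4_add (c : ℂ) (x w w' : Var S J → ℂ) (y : ρ × σ) :
    dv4 c x (w + w') y = dv4 c x w y + dv4 c x w' y :=
  dev_add c ∅ (Sum.inr y.2) x w w' (Sum.inr (Sum.inr (Sum.inr (Sum.inl y))))

theorem dv4_smul (c a : ℂ) (x w : Var S J → ℂ) (y : ρ × σ) :
    dv4 c x (a • w) y = a * dv4 c x w y :=
  dev_smul c ∅ (Sum.inr y.2) a x w (Sum.inr (Sum.inr (Sum.inr (Sum.inl y))))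

/-- The target of the linear relations. -/
abbrev WW (x : Var S J → ℂ) (Cq Cf : Finset (ρ ⊕ σ)) : Type :=
  ((π ⊕ ρ) × J → ℂ) × ((π ⊕ ρ) → ℂ) × (σ → ℂ) × (KK x →ₗ[ℂ] (ρ → ℂ) ⧸ RR x) ×
    (σ → RR x) × (Cq → ℂ) × (Cf → ℂ)

/-- A solution of the linear relations with given right hand sides. -/
theorem exists_sol (hS : Adm (Sum.inl : π → Rw π ρ σ) S) (x : Var S J → ℂ) (c : ℂ)
    (Cq Cf : Finset (ρ ⊕ σ))
    (hB : Block (xA x) (xa x) (fun i => xb x (Sum.inr i)) Cq Cf)
    (pr : (ρ → ℂ) →ₗ[ℂ] RR x) (hpr : ∀ y : RR x, pr y = y)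
    (t1 : (π ⊕ ρ) × J → ℂ) (t2 : (π ⊕ ρ) → ℂ) (t3 : σ → ℂ)
    (t4 : KK x →ₗ[ℂ] (ρ → ℂ) ⧸ RR x) (t5 : σ → RR x) (t6 : Cq → ℂ) (t7 : Cf → ℂ) :
    ∃ w : Var S J → ℂ,
      (∀ y, dv1 x w y = t1 y) ∧
      (∀ y, dv2 x w y = t2 y) ∧
      (∀ y, dv3 x w y = t3 y) ∧
      (∀ n : KK x, (RR x).mkQ ((Y2 w).mulVecLin n) = t4 n) ∧
      (∀ s, pr (fun k => dv4 c x w (k, s)) = t5 s) ∧
      (∀ i : Cq, xa w i = t6 i) ∧ ∀ i : Cf, xb w (Sum.inr i) = t7 i := by
  classical
  -- the block `(A, a, b)`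
  obtain ⟨dA, da, db, hb1, hb2, hb3, hb4⟩ := hB t3 (fun k => t2 (Sum.inr k))
    (fun i => if h : i ∈ Cq then t6 ⟨i, h⟩ else 0) (fun i => if h : i ∈ Cf then t7 ⟨i, h⟩ else 0)
  -- the rows of `b` at the pivots
  obtain ⟨dbp, hdbp⟩ := tri_solve hS x (fun l => t2 (Sum.inl l) -
    ∑ i : ρ ⊕ σ, fr x l (Sum.inr i) * db i)
  -- the matrix `Y2`
  obtain ⟨g4, hg4⟩ := (RR x).mkQ.exists_rightInverse_of_surjective (Submodule.range_mkQ _)
  obtain ⟨dY, hdY⟩ := (g4 ∘ₗ t4).exists_extend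
  obtain ⟨dYm, hdYm⟩ : ∃ dYm : Matrix ρ J ℂ, dYm = LinearMap.toMatrix' dY := ⟨_, rfl⟩
  -- the rows of `G` in `σ`
  have h5 : ∀ s : σ, ∃ n : J → ℂ, (Y2 x).mulVecLin n = ((t5 s - pr (fun k =>
      ∑ j, dYm k j * xG x (Sum.inr (Sum.inr s)) j - c * (da (Sum.inl k) *
        xb x (Sum.inr (Sum.inr s)) + xa x (Sum.inl k) * db (Sum.inr s))) : RR x) : ρ → ℂ) :=
    fun s => (t5 s - pr _ : RR x).2
  choose gs hgs using h5
  -- the rows of `G` in `ρ`
  obtain ⟨gr, hgr⟩ : ∃ gr : ρ → J → ℂ, ∀ k j, gr k j = t1 (Sum.inr k, j) -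
      ∑ s, (dA s k * xG x (Sum.inr (Sum.inr s)) j + xA x s k * gs s j) := ⟨fun k j => _, fun _ _ => rfl⟩
  -- the rows of `G` at the pivots
  have h6 : ∀ j : J, ∃ g : π → ℂ, ∀ l, ∑ l', fr x l (Sum.inl l') * g l' =
      t1 (Sum.inl l, j) - ∑ i : ρ ⊕ σ, fr x l (Sum.inr i) * Sum.elim (fun k => gr k j)
        (fun s => gs s j) i := fun j => tri_solve hS x _
  choose gp hgp using h6
  obtain ⟨w, hw⟩ : ∃ w : Var S J → ℂ, w = Sum.elim (fun _ => 0) (Sum.elim (fun y => dA y.1 y.2)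
    (Sum.elim (fun y => Sum.elim (fun _ => 0) (fun k => dYm k y.2) y.1)
    (Sum.elim (fun y => Sum.elim (fun l => gp y.2 l) (Sum.elim (fun k => gr k y.2)
      (fun s => gs s y.2)) y.1) (Sum.elim da (Sum.elim dbp db))))) := ⟨_, rfl⟩
  have wf : ∀ l i, dfr w l i = 0 := by
    intro l i
    rw [dfr]
    split_ifs
    · rw [hw]
      rfl
    · rfl
  have wA : ∀ s k, xA w s k = dA s k := fun s k => by rw [hw]; rfl
  have wY : ∀ k j, xY w (Sum.inr k) j = dYm k j := fun s k => by rw [hw]; rfl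
  have wGp : ∀ l j, xG w (Sum.inl l) j = gp j l := fun s k => by rw [hw]; rfl
  have wGr : ∀ k j, xG w (Sum.inr (Sum.inl k)) j = gr k j := fun s k => by rw [hw]; rfl
  have wGs : ∀ s j, xG w (Sum.inr (Sum.inr s)) j = gs s j := fun s k => by rw [hw]; rfl
  have wa : ∀ i, xa w i = da i := fun i => by rw [hw]; rfl
  have wbp : ∀ l, xb w (Sum.inl l) = dbp l := fun i => by rw [hw]; rfl
  have wb : ∀ i, xb w (Sum.inr i) = db i := fun i => by rw [hw]; rfl
  have wGr' : ∀ (i : ρ ⊕ σ) (j : J), xG w (Sum.inr i) j = Sum.elim (fun k => gr k j)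
      (fun s => gs s j) i := by
    rintro (i | i) j
    · exact wGr i j
    · exact wGs i j
  refine ⟨w, ?_, ?_, ?_, ?_, ?_, ?_, ?_⟩
  · rintro ⟨l | k, j⟩
    · change ∑ i, (dfr w l i * _ + fr x l i * xG w i j) = _
      simp only [wf, zero_mul, zero_add]
      rw [Fintype.sum_sum_type]
      simp only [wGp, wGr', hgp]
      ring
    · change xG w (Sum.inr (Sum.inl k)) j + ∑ s, (xA w s k * xG x _ j + xA x s k * xG w _ j) = _
      simp only [wGr, wGs, wA, hgr]
      ring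
  · rintro (l | k)
    · change ∑ i, (dfr w l i * _ + fr x l i * xb w i) = _
      simp only [wf, zero_mul, zero_add]
      rw [Fintype.sum_sum_type]
      simp only [wbp, wb, hdbp]
      ring
    · change xb w (Sum.inr (Sum.inl k)) + ∑ s, (xA w s k * xb x _ + xA x s k * xb w _) = _
      simp only [wb, wA]
      exact hb2 k
  · intro s
    change xa w (Sum.inr s) - ∑ k, (xA w s k * xa x _ + xA x s k * xa w _) = _
    simp only [wa, wA]
    exact hb1 s
  · intro n
    have e1 : (Y2 w).mulVecLin (n : J → ℂ) = dY n := by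
      have e2 : Y2 w = dYm := by
        ext k j
        exact wY k j
      rw [e2, hdYm]
      have e3 := Matrix.toLin'_toMatrix' dY
      rw [← Matrix.toLin'_apply', e3]
    rw [e1]
    have e2 := LinearMap.congr_fun hdY n
    rw [LinearMap.comp_apply] at e2
    rw [Submodule.subtype_apply] at e2
    rw [e2, LinearMap.comp_apply]
    have e3 := LinearMap.congr_fun hg4 (t4 n)
    rwa [LinearMap.comp_apply] at e3
  · intro s
    have e1 : (fun k => dv4 c x w (k, s)) =
        (fun k => ∑ j, dYm k j * xG x (Sum.inr (Sum.inr s)) j - c * (da (Sum.inl k) *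
          xb x (Sum.inr (Sum.inr s)) + xa x (Sum.inl k) * db (Sum.inr s))) +
        (Y2 x).mulVecLin (gs s) := by
      funext k
      change ∑ j, (xY w (Sum.inr k) j * xG x _ j + xY x (Sum.inr k) j * xG w _ j) -
        c * (xa w _ * xb x _ + xa x _ * xb w _) = (_ - _) + ∑ j, xY x (Sum.inr k) j * gs s j
      simp only [wY, wGs, wa, wb, Finset.sum_add_distrib]
      ring
    rw [e1, map_add, hgs s, hpr]
    abel
  · intro i
    rw [wa, hb3 i i.2, dif_pos i.2]
  · intro i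
    rw [wb, hb4 i i.2, dif_pos i.2]

/-- The relations for the rank of `Y2`. -/
noncomputable def rkL (x : Var S J → ℂ) :
    (Var S J → ℂ) →ₗ[ℂ] (KK x →ₗ[ℂ] (ρ → ℂ) ⧸ RR x) where
  toFun := fun w => (RR x).mkQ ∘ₗ (Y2 w).mulVecLin ∘ₗ (KK x).subtype
  map_add' := fun w w' => by
    ext n
    have h1 : Y2 (w + w') = Y2 w + Y2 w' := rfl
    simp only [h1, LinearMap.comp_apply, LinearMap.add_apply, ← map_add, Matrix.mulVecLin_apply,
      Matrix.add_mulVec]
  map_smul' := fun a w => by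
    ext n
    have h1 : Y2 (a • w) = a • Y2 w := rfl
    simp only [h1, LinearMap.comp_apply, LinearMap.smul_apply, ← map_smul, Matrix.mulVecLin_apply,
      Matrix.smul_mulVec, RingHom.id_apply]

/-- All linear relations. -/
noncomputable def Theta (x : Var S J → ℂ) (c : ℂ)
    (Cq Cf : Finset (ρ ⊕ σ)) (pr : (ρ → ℂ) →ₗ[ℂ] RR x) :
    (Var S J → ℂ) →ₗ[ℂ] WW x Cq Cf where
  toFun := fun w => (fun y => dv1 x w y,
    fun y => dv2 x w y,
    fun y => dv3 x w y,
    rkL x w,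
    fun s => pr (fun k => dv4 c x w (k, s)),
    fun i => xa w i, fun i => xb w (Sum.inr i))
  map_add' := fun w w' => by
    refine Prod.ext ?_ (Prod.ext ?_ (Prod.ext ?_ (Prod.ext ?_ (Prod.ext ?_ (Prod.ext ?_ ?_)))))
    · exact funext fun y => dv1_add x w w' y
    · exact funext fun y => dv2_add x w w' y
    · exact funext fun y => dv3_add x w w' y
    · exact map_add (rkL x) w w'
    · funext s
      change pr _ = pr _ + pr _
      rw [← map_add]
      exact congrArg pr (funext fun k => dv4_add c x w w' (k, s))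
    · rfl
    · rfl
  map_smul' := fun a w => by
    refine Prod.ext ?_ (Prod.ext ?_ (Prod.ext ?_ (Prod.ext ?_ (Prod.ext ?_ (Prod.ext ?_ ?_)))))
    · exact funext fun y => dv1_smul a x w y
    · exact funext fun y => dv2_smul a x w y
    · exact funext fun y => dv3_smul a x w y
    · exact map_smul (rkL x) a w
    · funext s
      change pr _ = a • pr _
      rw [← map_smul]
      exact congrArg pr (funext fun k => dv4_smul c a x w (k, s))
    · rfl
    · rfl

theorem theta_eq_zero (x : Var S J → ℂ) (c : ℂ)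
    (Cq Cf : Finset (ρ ⊕ σ)) (pr : (ρ → ℂ) →ₗ[ℂ] RR x) (w : Var S J → ℂ)
    (h1 : ∀ y, dv1 x w y = 0)
    (h2 : ∀ y, dv2 x w y = 0)
    (h3 : ∀ y, dv3 x w y = 0)
    (h4 : ∀ n : KK x, (Y2 w).mulVecLin n ∈ RR x)
    (h5 : ∀ s, (fun k => dv4 c x w (k, s)) = 0)
    (h6 : ∀ i ∈ Cq, xa w i = 0) (h7 : ∀ i ∈ Cf, xb w (Sum.inr i) = 0) :
    Theta x c Cq Cf pr w = 0 := by
  refine Prod.ext ?_ (Prod.ext ?_ (Prod.ext ?_ (Prod.ext ?_ (Prod.ext ?_ (Prod.ext ?_ ?_)))))
  · exact funext h1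
  · exact funext h2
  · exact funext h3
  · ext n
    exact (Submodule.Quotient.mk_eq_zero _).mpr (h4 n)
  · funext s
    change pr _ = 0
    rw [h5 s, map_zero]
  · exact funext fun i => h6 i i.2
  · exact funext fun i => h7 i i.2

theorem theta_surj (hS : Adm (Sum.inl : π → Rw π ρ σ) S) (x : Var S J → ℂ) (c : ℂ)
    (Cq Cf : Finset (ρ ⊕ σ))
    (hB : Block (xA x) (xa x) (fun i => xb x (Sum.inr i)) Cq Cf)
    (pr : (ρ → ℂ) →ₗ[ℂ] RR x) (hpr : ∀ y : RR x, pr y = y) :
    Function.Surjective (Theta x c Cq Cf pr) := by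
  rintro ⟨t1, t2, t3, t4, t5, t6, t7⟩
  obtain ⟨w, h1, h2, h3, h4, h5, h6, h7⟩ := exists_sol hS x c Cq Cf hB pr hpr t1 t2 t3 t4 t5
    t6 t7
  refine ⟨w, Prod.ext (funext h1) (Prod.ext (funext h2) (Prod.ext (funext h3) (Prod.ext ?_
    (Prod.ext (funext h5) (Prod.ext (funext h6) (funext h7))))))⟩
  exact LinearMap.ext h4

theorem finrank_WW (x : Var S J → ℂ) (Cq Cf : Finset (ρ ⊕ σ)) :
    ∃ t d e : ℕ, t = finrank ℂ (RR x) ∧ t + d = Fintype.card ρ ∧ t + e = Fintype.card J ∧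
    finrank ℂ (WW x Cq Cf) = (Fintype.card π + Fintype.card ρ) * Fintype.card J +
      ((Fintype.card π + Fintype.card ρ) + (Fintype.card σ + (e * d +
      (Fintype.card σ * t + (Cq.card + Cf.card))))) := by
  have h1 : finrank ℂ (RR x) + finrank ℂ (KK x) = Fintype.card J := by
    have := (Y2 x).mulVecLin.finrank_range_add_finrank_ker
    rwa [finrank_fintype_fun_eq_card] at this
  have h2 : finrank ℂ ((ρ → ℂ) ⧸ RR x) + finrank ℂ (RR x) = Fintype.card ρ := by
    have := (RR x).finrank_quotient_add_finrank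
    rwa [finrank_fintype_fun_eq_card] at this
  refine ⟨finrank ℂ (RR x), finrank ℂ ((ρ → ℂ) ⧸ RR x), finrank ℂ (KK x), rfl, by omega, h1, ?_⟩
  simp only [WW, finrank_prod, finrank_fintype_fun_eq_card, Fintype.card_prod, Fintype.card_sum,
    finrank_linearMap, finrank_pi_fintype, Finset.sum_const, Finset.card_univ, smul_eq_mul,
    Fintype.card_coe]

theorem ev_mem {R : Type} [CommRing R] (B : Subring R) (c : R) (hc : c ∈ B)
    (T : Finset (ρ ⊕ σ)) (i₀ : ρ ⊕ σ) (x : Var S J → R) (hx : ∀ y, x y ∈ B) (e : Eqn S J) :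
    ev c T i₀ x e ∈ B := by
  have h := ev_map B.subtype ⟨c, hc⟩ T i₀ (fun y => (⟨x y, hx y⟩ : B)) e
  change ev c T i₀ x e = _ at h
  rw [h]
  exact Subtype.coe_prop _

theorem ev_mem_acl (c : ℂ) (hc : c = 0 ∨ c = 1) (T : Finset (ρ ⊕ σ)) (i₀ : ρ ⊕ σ)
    (x : Var S J → ℂ) (e : Eqn S J) : ev c T i₀ x e ∈ acl (Set.range x) := by
  refine ev_mem (acl (Set.range x)).toSubfield.toSubring c ?_ T i₀ x ?_ e
  · rcases hc with rfl | rfl
    · exact zero_mem (acl (Set.range x))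
    · exact one_mem (acl (Set.range x))
  · intro y
    exact subset_acl _ ⟨y, rfl⟩

theorem der_const (δ : Derivation ℚ ℂ ℂ) (c : ℂ) (hc : c = 0 ∨ c = 1) : δ c = 0 := by
  rcases hc with rfl | rfl
  · exact map_zero δ
  · exact δ.map_one_eq_zero

theorem ev_derivation (δ : Derivation ℚ ℂ ℂ) (c : ℂ) (hc : c = 0 ∨ c = 1)
    (T : Finset (ρ ⊕ σ)) (i₀ : ρ ⊕ σ) (x : Var S J → ℂ) (e : Eqn S J) :
    dev c T i₀ x (fun y => δ (x y)) e = δ (ev c T i₀ x e) := by
  have h := ev_der (RingHom.id ℂ) δ (fun a b => map_add δ a b)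
    (fun a b => by rw [Derivation.leibniz]; rfl) c (der_const δ c hc) T i₀ x e
  exact h.symm

/-- The relations of a point. -/
structure Rel (x : Var S J → ℂ) (c : ℂ) (Cq Cf : Finset (ρ ⊕ σ)) : Prop where
  r1 : ∀ k j, pX x (fun i => xG x i j) k = 0
  r2 : ∀ k, pX x (xb x) k = 0
  r2' : ∀ s, xa x (Sum.inr s) - ∑ k, xA x s k * xa x (Sum.inl k) = 0
  r3 : ∀ k s, ∑ j, xY x (Sum.inr k) j * xG x (Sum.inr (Sum.inr s)) j -
    c * (xa x (Sum.inl k) * xb x (Sum.inr (Sum.inr s))) = 0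
  r6 : ∀ i ∈ Cq, xa x i = 0 ∨ xa x i = 1
  r7 : ∀ i ∈ Cf, xb x (Sum.inr i) = 0

theorem Rel.theta {x : Var S J → ℂ} {c : ℂ} {Cq Cf : Finset (ρ ⊕ σ)} (h : Rel x c Cq Cf)
    (hc : c = 0 ∨ c = 1) (pr : (ρ → ℂ) →ₗ[ℂ] RR x)
    (δ : Derivation ℚ ℂ ℂ) : Theta x c Cq Cf pr (fun y => δ (x y)) = 0 := by
  refine theta_eq_zero x c Cq Cf pr _ ?_ ?_ ?_ ?_ ?_ ?_ ?_
  · intro y
    have e1 := pX_der (RingHom.id ℂ) δ (fun a b => map_add δ a b)
      (fun a b => by rw [Derivation.leibniz]; rfl) x (fun i => xG x i y.2) y.1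
    change δ (pX x (fun i => xG x i y.2) y.1) = dv1 x (fun y => δ (x y)) y at e1
    rw [← e1, h.r1, map_zero]
  · intro y
    have e1 := pX_der (RingHom.id ℂ) δ (fun a b => map_add δ a b)
      (fun a b => by rw [Derivation.leibniz]; rfl) x (xb x) y
    change δ (pX x (xb x) y) = dv2 x (fun y => δ (x y)) y at e1
    rw [← e1, h.r2, map_zero]
  · intro y
    have e1 := ev_derivation δ c hc ∅ (Sum.inr y) x (Sum.inr (Sum.inr (Sum.inl y)))
    change dv3 x (fun y => δ (x y)) y = _ at e1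
    rw [e1]
    change δ (xa x (Sum.inr y) - ∑ k, xA x y k * xa x (Sum.inl k)) = 0
    rw [h.r2', map_zero]
  · intro n
    have h1 : (Y2 x).mulVecLin (n : J → ℂ) = 0 := n.2
    refine ⟨fun j => - δ ((n : J → ℂ) j), ?_⟩
    funext k
    have h2 : ∑ j, xY x (Sum.inr k) j * (n : J → ℂ) j = 0 := congrFun h1 k
    have h3 := congrArg δ h2
    rw [map_zero, map_sum] at h3
    simp only [Derivation.leibniz, smul_eq_mul, Finset.sum_add_distrib] at h3
    change ∑ j, xY x (Sum.inr k) j * (- δ ((n : J → ℂ) j)) = ∑ j, δ (xY x (Sum.inr k) j) * (n : J → ℂ) j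
    simp only [mul_neg, Finset.sum_neg_distrib]
    rw [neg_eq_iff_add_eq_zero, ← h3]
    congr 1
    exact Finset.sum_congr rfl fun j _ => mul_comm _ _
  · intro s
    funext k
    have e1 := ev_derivation δ c hc ∅ (Sum.inr s) x (Sum.inr (Sum.inr (Sum.inr (Sum.inl (k, s)))))
    change dv4 c x (fun y => δ (x y)) (k, s) = _ at e1
    change dv4 c x (fun y => δ (x y)) (k, s) = 0
    rw [e1]
    change δ (∑ j, xY x (Sum.inr k) j * xG x (Sum.inr (Sum.inr s)) j -
      c * (xa x (Sum.inl k) * xb x (Sum.inr (Sum.inr s)))) = 0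
    rw [h.r3, map_zero]
  · intro i hi
    exact der_const δ _ (h.r6 i hi)
  · intro i hi
    change δ (xb x (Sum.inr i)) = 0
    rw [h.r7 i hi, map_zero]

theorem exists_pr (x : Var S J → ℂ) : ∃ pr : (ρ → ℂ) →ₗ[ℂ] RR x, ∀ y : RR x, pr y = y := by
  obtain ⟨pr, hpr⟩ := (RR x).subtype.exists_leftInverse_of_injective
    (by rw [Submodule.ker_subtype])
  exact ⟨pr, fun y => LinearMap.congr_fun hpr y⟩

theorem card_var' : Fintype.card (Var S J) = Fintype.card (Fre S) +
    (Fintype.card σ * Fintype.card ρ + ((Fintype.card π + Fintype.card ρ) * Fintype.card J +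
    ((Fintype.card π + (Fintype.card ρ + Fintype.card σ)) * Fintype.card J +
    ((Fintype.card ρ + Fintype.card σ) +
      (Fintype.card π + (Fintype.card ρ + Fintype.card σ)))))) := by
  simp only [Fintype.card_sum, Fintype.card_prod]

theorem full_of_finrank (x : Var S J → ℂ) (h : finrank ℂ (RR x) = Fintype.card ρ) :
    RR x = ⊤ := by
  apply Submodule.eq_top_of_finrank_eq
  rw [h, finrank_fintype_fun_eq_card]

theorem arith {p r s n t d e F D' Cc b W V D : ℕ} (h1 : t + d = r) (h2 : t + e = n)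
    (hn : p + (r + s) ≤ n) (hD' : D' + Cc = (r + s) + b)
    (hD : D = (p + (r + s)) * n + F + D')
    (hW : W = (p + r) * n + ((p + r) + (s + (e * d + (s * t + Cc)))))
    (hV : V = F + (s * r + ((p + r) * n + ((p + (r + s)) * n + ((r + s) + (p + (r + s)))))))
    (h : D + W ≤ V) : d = 0 ∧ b = 0 ∧ V ≤ D + W := by
  subst hD hW hV
  have h3 : s * r = s * t + s * d := by rw [← h1, mul_add]
  have h4 : b + e * d ≤ s * d := by
    rw [h3] at h
    omega
  have h5 : s + d ≤ e := by omega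
  have h6 : (s + d) * d ≤ e * d := Nat.mul_le_mul_right d h5
  have h7 : (s + d) * d = s * d + d * d := by rw [add_mul]
  have h8 : d * d = 0 ∧ b = 0 := by omega
  have h9 : d = 0 := by
    rcases Nat.mul_eq_zero.mp h8.1 with h | h <;> exact h
  refine ⟨h9, h8.2, ?_⟩
  have h10 : e * d = 0 := by rw [h9, mul_zero]
  have h11 : s * d = 0 := by rw [h9, mul_zero]
  have h12 := h8.2
  rw [h11, add_zero] at h3
  rw [h10, h3]
  omega

/-- The rank of `Y`, from the derivations of its rows at the pivots. -/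
theorem rank_full (hn : Fintype.card π + (Fintype.card ρ + Fintype.card σ) ≤ Fintype.card J)
    (x : Var S J → ℂ) (hR : RR x = ⊤)
    (hder : ∀ l₀ j₀, ∃ δ : Derivation ℚ ℂ ℂ, δ (xY x (Sum.inl l₀) j₀) = 1 ∧
      ∀ k j, (k, j) ≠ (Sum.inl l₀, j₀) → δ (xY x k j) = 0) :
    (Matrix.of (xY x)).rank = Fintype.card π + Fintype.card ρ := by
  rw [← Fintype.card_sum]
  obtain ⟨Y, hY⟩ : ∃ Y : Matrix (π ⊕ ρ) J ℂ, Y = Matrix.of (xY x) := ⟨_, rfl⟩
  rw [← hY]
  by_contra hne
  have hlt : Y.rank < Fintype.card (π ⊕ ρ) := lt_of_le_of_ne (Matrix.rank_le_card_height _) hne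
  -- a vector in the left kernel
  obtain ⟨e, he0, he⟩ : ∃ e : π ⊕ ρ → ℂ, e ≠ 0 ∧ Yᵀ *ᵥ e = 0 := by
    have h1 := Yᵀ.mulVecLin.finrank_range_add_finrank_ker
    rw [finrank_fintype_fun_eq_card] at h1
    have h2 : finrank ℂ (LinearMap.range Yᵀ.mulVecLin) = Y.rank := Matrix.rank_transpose Y
    have h3 : 0 < finrank ℂ (LinearMap.ker Yᵀ.mulVecLin) := by omega
    obtain ⟨e, he⟩ := (finrank_pos_iff_exists_ne_zero).mp h3
    exact ⟨e, fun h => he (Subtype.ext h), e.2⟩
  -- a vector in the kernel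
  obtain ⟨f, hf0, hf⟩ : ∃ f : J → ℂ, f ≠ 0 ∧ Y *ᵥ f = 0 := by
    have h1 := Y.mulVecLin.finrank_range_add_finrank_ker
    rw [finrank_fintype_fun_eq_card] at h1
    have h2 : finrank ℂ (LinearMap.range Y.mulVecLin) = Y.rank := rfl
    rw [Fintype.card_sum] at hlt
    have h3 : 0 < finrank ℂ (LinearMap.ker Y.mulVecLin) := by omega
    obtain ⟨e, he⟩ := (finrank_pos_iff_exists_ne_zero).mp h3
    exact ⟨e, fun h => he (Subtype.ext h), e.2⟩
  have hel : ∀ j, ∑ k, e k * xY x k j = 0 := by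
    intro j
    have := congrFun he j
    rw [hY] at this
    simp only [Matrix.mulVec, dotProduct, Matrix.transpose_apply, Matrix.of_apply,
      Pi.zero_apply] at this
    rw [← this]
    exact Finset.sum_congr rfl fun k _ => mul_comm _ _
  have hfl : ∀ k, ∑ j, xY x k j * f j = 0 := by
    intro k
    have := congrFun hf k
    rw [hY] at this
    exact this
  -- a pivot coordinate of `e` is not zero
  obtain ⟨l₀, hl₀⟩ : ∃ l₀ : π, e (Sum.inl l₀) ≠ 0 := by
    by_contra hcon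
    push Not at hcon
    apply he0
    funext k
    rcases k with l | k
    · exact hcon l
    · -- `Y2` is surjective
      have h1 : ∀ j, ∑ k, e (Sum.inr k) * xY x (Sum.inr k) j = 0 := by
        intro j
        have := hel j
        rw [Fintype.sum_sum_type] at this
        simpa [hcon] using this
      have h2 : (Pi.single k 1 : ρ → ℂ) ∈ RR x := by
        rw [hR]
        trivial
      obtain ⟨n, hn'⟩ := h2
      have h3 : ∑ k', e (Sum.inr k') * (Pi.single k 1 : ρ → ℂ) k' = 0 := by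
        rw [← hn']
        change ∑ k', e (Sum.inr k') * ∑ j, xY x (Sum.inr k') j * n j = 0
        simp only [Finset.mul_sum]
        rw [Finset.sum_comm]
        refine Finset.sum_eq_zero fun j _ => ?_
        have h4 := h1 j
        have h5 : ∑ k', e (Sum.inr k') * (xY x (Sum.inr k') j * n j) =
            (∑ k', e (Sum.inr k') * xY x (Sum.inr k') j) * n j := by
          rw [Finset.sum_mul]
          exact Finset.sum_congr rfl fun k' _ => by ring
        rw [h5, h4, zero_mul]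
      simpa [Pi.single_apply] using h3
  obtain ⟨j₀, hj₀⟩ : ∃ j, f j ≠ 0 := by
    by_contra hcon
    push Not at hcon
    exact hf0 (funext hcon)
  obtain ⟨δ, hδ1, hδ2⟩ := hder l₀ j₀
  -- apply the derivation to `∑ e_k Y_kj = 0` and pair with `f`
  have h1 : ∀ j, ∑ k, (e k * δ (xY x k j) + xY x k j * δ (e k)) = 0 := by
    intro j
    have := congrArg δ (hel j)
    rw [map_zero, map_sum] at this
    simpa only [Derivation.leibniz, smul_eq_mul] using this
  have h2 : ∑ j, (∑ k, (e k * δ (xY x k j) + xY x k j * δ (e k))) * f j = 0 :=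
    Finset.sum_eq_zero fun j _ => by rw [h1, zero_mul]
  have h3 : ∑ j, (∑ k, (e k * δ (xY x k j) + xY x k j * δ (e k))) * f j =
      ∑ k, ∑ j, e k * δ (xY x k j) * f j + ∑ k, δ (e k) * ∑ j, xY x k j * f j := by
    rw [← Finset.sum_add_distrib]
    simp only [Finset.sum_mul, Finset.mul_sum]
    rw [Finset.sum_comm]
    refine Finset.sum_congr rfl fun k _ => ?_
    rw [← Finset.sum_add_distrib]
    exact Finset.sum_congr rfl fun j _ => by ring
  rw [h3] at h2
  simp only [hfl, mul_zero, Finset.sum_const_zero, add_zero] at h2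
  rw [Finset.sum_eq_single (Sum.inl l₀), Finset.sum_eq_single j₀, hδ1, mul_one] at h2
  · exact (mul_ne_zero hl₀ hj₀) h2
  · intro j _ hj
    rw [hδ2 _ _ (fun h => hj (Prod.ext_iff.mp h).2), mul_zero, zero_mul]
  · intro h
    exact absurd (Finset.mem_univ _) h
  · intro k _ hk
    refine Finset.sum_eq_zero fun j _ => ?_
    rw [hδ2 _ _ (fun h => hk (Prod.ext_iff.mp h).1), mul_zero, zero_mul]
  · intro h
    exact absurd (Finset.mem_univ _) h

/-- A variation of the rows of `Y` at the pivots satisfies the relations. -/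
theorem theta_Y1 (x : Var S J → ℂ) (c : ℂ)
    (Cq Cf : Finset (ρ ⊕ σ)) (pr : (ρ → ℂ) →ₗ[ℂ] RR x) (τ : π → J → ℂ) :
    Theta x c Cq Cf pr (Sum.elim (fun _ => 0) (Sum.elim (fun _ => 0)
      (Sum.elim (fun y => Sum.elim (fun l => τ l y.2) (fun _ => 0) y.1) (fun _ => 0)))) = 0 := by
  obtain ⟨w, hw⟩ : ∃ w : Var S J → ℂ, w = Sum.elim (fun _ => 0) (Sum.elim (fun _ => 0)
      (Sum.elim (fun y => Sum.elim (fun l => τ l y.2) (fun _ => 0) y.1) (fun _ => 0))) := ⟨_, rfl⟩
  rw [← hw]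
  have wf : ∀ l i, dfr w l i = 0 := by
    intro l i
    rw [dfr]
    split_ifs
    · rw [hw]
      rfl
    · rfl
  have wA : ∀ s k, xA w s k = 0 := fun s k => by rw [hw]; rfl
  have wY : ∀ k j, xY w (Sum.inr k) j = 0 := fun s k => by rw [hw]; rfl
  have wG : ∀ i j, xG w i j = 0 := fun s k => by rw [hw]; rfl
  have wa : ∀ i, xa w i = 0 := fun i => by rw [hw]; rfl
  have wb : ∀ l, xb w l = 0 := fun i => by rw [hw]; rfl
  refine theta_eq_zero x c Cq Cf pr _ ?_ ?_ ?_ ?_ ?_ ?_ ?_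
  · rintro ⟨l | k, j⟩
    · change ∑ i, (dfr w l i * _ + fr x l i * xG w i j) = _
      simp [wf, wG]
    · change xG w (Sum.inr (Sum.inl k)) j + ∑ s, (xA w s k * xG x _ j + xA x s k * xG w _ j) = _
      simp [wA, wG]
  · rintro (l | k)
    · change ∑ i, (dfr w l i * _ + fr x l i * xb w i) = _
      simp [wf, wb]
    · change xb w (Sum.inr (Sum.inl k)) + ∑ s, (xA w s k * xb x _ + xA x s k * xb w _) = _
      simp [wA, wb]
  · intro s
    change xa w (Sum.inr s) - ∑ k, (xA w s k * xa x _ + xA x s k * xa w _) = _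
    simp [wA, wa]
  · intro n
    have h1 : Y2 w = 0 := by
      ext k j
      exact wY k j
    rw [h1, Matrix.mulVecLin_zero]
    exact zero_mem _
  · intro s
    funext k
    change ∑ j, (xY w (Sum.inr k) j * xG x _ j + xY x (Sum.inr k) j * xG w _ j) -
        c * (xa w _ * xb x _ + xa x _ * xb w _) = 0
    simp [wY, wG, wa, wb]
  · intro i _
    exact wa i
  · intro i _
    exact wb _

/-- The consequences of the dimension count. -/
theorem master {D : Type} [Fintype D] (hS : Adm (Sum.inl : π → Rw π ρ σ) S)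
    (hn : Fintype.card π + (Fintype.card ρ + Fintype.card σ) ≤ Fintype.card J)
    (x : Var S J → ℂ) (c : ℂ) (hc : c = 0 ∨ c = 1)
    (Cq Cf : Finset (ρ ⊕ σ)) (hB : Block (xA x) (xa x) (fun i => xb x (Sum.inr i)) Cq Cf)
    (hrel : Rel x c Cq Cf) (d : D → ℂ) (hd : AlgebraicIndependent ℚ d)
    (hdx : ∀ i, d i ∈ acl (Set.range x)) (D' b : ℕ)
    (hD' : D' + (Cq.card + Cf.card) = (Fintype.card ρ + Fintype.card σ) + b)
    (hD : Fintype.card D = (Fintype.card π + (Fintype.card ρ + Fintype.card σ)) * Fintype.card J +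
      Fintype.card (Fre S) + D') :
    b = 0 ∧ (Matrix.of (xY x)).rank = Fintype.card π + Fintype.card ρ ∧
      (∀ y, x y ∈ acl (Set.range d)) ∧
      (∀ w : Var S J → ℂ, (∀ y, dv1 x w y = 0) →
        (∀ y, dv2 x w y = 0) →
        (∀ y, dv3 x w y = 0) →
        (∀ y, dv4 c x w y = 0) →
        (∀ i ∈ Cq, xa w i = 0) → (∀ i ∈ Cf, xb w (Sum.inr i) = 0) →
        ∃ δ : Derivation ℚ ℂ ℂ, ∀ y, δ (x y) = w y) ∧
      ∀ δ : Derivation ℚ ℂ ℂ, (∀ i, δ (d i) = 0) → ∀ y, δ (x y) = 0 := by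
  obtain ⟨pr, hpr⟩ := exists_pr x
  have hs := theta_surj hS x c Cq Cf hB pr hpr
  have h0 := hrel.theta hc pr
  have hdim := der_dim x d hd hdx (Theta x c Cq Cf pr) hs h0
  obtain ⟨t, d', e, ht, h1, h2, hW⟩ := finrank_WW x Cq Cf
  obtain ⟨hd0, hb0, hle⟩ := arith h1 h2 hn hD' hD hW card_var' hdim
  have hR : RR x = ⊤ := full_of_finrank x (by omega)
  have hsurj := der_surj x d hd hdx (Theta x c Cq Cf pr) hs h0 hle
  refine ⟨hb0, ?_, ?_, ?_, ?_⟩
  · refine rank_full hn x hR fun l₀ j₀ => ?_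
    obtain ⟨δ, hδ⟩ := hsurj _ (theta_Y1 x c Cq Cf pr
      (fun l j => if (l, j) = (l₀, j₀) then 1 else 0))
    refine ⟨δ, ?_, ?_⟩
    · rw [xY, hδ]
      simp
    · intro k j hkj
      rw [xY, hδ]
      rcases k with l | k
      · simp only [Sum.elim_inr, Sum.elim_inl]
        rw [if_neg]
        intro h
        obtain ⟨e1, e2⟩ := Prod.mk.inj h
        exact hkj (by rw [e1, e2])
      · rfl
  · exact der_acl x d hd hdx (Theta x c Cq Cf pr) hs h0 hle
  · intro w e1 e2 e3 e4 e5 e6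
    refine hsurj w (theta_eq_zero x c Cq Cf pr w e1 e2 e3 (fun n => by rw [hR]; trivial)
      (fun s => funext fun k => e4 (k, s)) e5 e6)
  · exact der_inj x d hd hdx (Theta x c Cq Cf pr) hs h0 hle

theorem xa_inl_ne {x : Var S J → ℂ} (h : ∀ s, xa x (Sum.inr s) - ∑ k, xA x s k *
    xa x (Sum.inl k) = 0) {i₀ : ρ ⊕ σ} (h0 : xa x i₀ ≠ 0) : ∃ k, xa x (Sum.inl k) ≠ 0 := by
  by_contra hcon
  push Not at hcon
  apply h0
  rcases i₀ with k | s
  · exact hcon k
  · have := h s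
    simp only [hcon, mul_zero, Finset.sum_const_zero, sub_zero] at this
    exact this

/-- The data `u`, `v` are in the field of the coordinates. -/
theorem dat0_mem (x : Var S J → ℂ) (u : Matrix (Rw π ρ σ) J ℂ) (v : π → Rw π ρ σ → ℂ)
    (h4 : ∀ i j, xP x i j * (1 + xG x i j) = u i j)
    (h5 : ∀ y : Fre S, xf x y * xh x y.1.1 y.1.2 = - v y.1.1 y.1.2)
    (y : DI J (Sum.inl : π → Rw π ρ σ) S) : dat0 Sum.inl S u v y ∈ acl (Set.range x) := by
  classical
  obtain ⟨B, hB⟩ : ∃ B : Subring ℂ, B = (acl (Set.range x)).toSubfield.toSubring := ⟨_, rfl⟩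
  have hx : ∀ y, x y ∈ B := by
    intro y
    rw [hB]
    exact subset_acl _ ⟨y, rfl⟩
  have hxe : x = fun y => B.subtype (⟨x y, hx y⟩ : B) := rfl
  have hgoal : dat0 Sum.inl S u v y ∈ B := by
    rcases y with y | y
    · change u y.1 y.2 ∈ _
      rw [← h4]
      refine B.mul_mem ?_ (B.add_mem B.one_mem (hx _))
      rw [hxe, xP_map]
      exact Subtype.coe_prop _
    · change v y.1.1 y.1.2 ∈ _
      have h6 : v y.1.1 y.1.2 = - (xf x y * xh x y.1.1 y.1.2) := by
        rw [h5 y, neg_neg]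
      rw [h6]
      refine B.neg_mem (B.mul_mem (hx _) ?_)
      rw [hxe, xh_map]
      exact Subtype.coe_prop _
  rw [hB] at hgoal
  exact hgoal

theorem card_DI : Fintype.card (DI J (Sum.inl : π → Rw π ρ σ) S) =
    (Fintype.card π + (Fintype.card ρ + Fintype.card σ)) * Fintype.card J +
      Fintype.card (Fre S) := by
  rw [Fintype.card_sum, Fintype.card_prod, Fintype.card_sum, Fintype.card_sum]

/-- (2a) the points of the system without extra vector, rank not assumed -/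
theorem tb2a (hS : Adm (Sum.inl : π → Rw π ρ σ) S)
    (hn : Fintype.card π + (Fintype.card ρ + Fintype.card σ) ≤ Fintype.card J)
    (u : Matrix (Rw π ρ σ) J ℂ) (v : π → Rw π ρ σ → ℂ) (hg : Gen0 Sum.inl S u v)
    (x : Var S J → ℂ) (h1 : ∀ k j, pX x (fun i => xG x i j) k = 0)
    (h3 : ∀ k s, ∑ j, xY x (Sum.inr k) j * xG x (Sum.inr (Sum.inr s)) j = 0)
    (h4 : ∀ i j, xP x i j * (1 + xG x i j) = u i j)
    (h5 : ∀ y : Fre S, xf x y * xh x y.1.1 y.1.2 = - v y.1.1 y.1.2) :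
    (Matrix.of (xY x)).rank = Fintype.card π + Fintype.card ρ ∧
      AlgebraicIndependent ℚ (fun y : σ × ρ => xA x y.1 y.2) ∧
      (∀ y, xf x y ∈ acl (Set.range (dat0 Sum.inl S u v))) ∧
      (∀ s k, xA x s k ∈ acl (Set.range (dat0 Sum.inl S u v))) ∧
      (∀ k j, xY x k j ∈ acl (Set.range (dat0 Sum.inl S u v))) ∧
      (∀ i j, xG x i j ∈ acl (Set.range (dat0 Sum.inl S u v))) := by
  classical
  -- replace `a`, `b` by zero
  obtain ⟨x', hx'⟩ : ∃ x' : Var S J → ℂ, x' = Sum.elim (xf x) (Sum.elim (fun y => xA x y.1 y.2)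
    (Sum.elim (fun y => xY x y.1 y.2) (Sum.elim (fun y => xG x y.1 y.2)
      (fun _ => 0)))) := ⟨_, rfl⟩
  have ef : xf x' = xf x := by rw [hx']; rfl
  have eA : xA x' = xA x := by rw [hx']; rfl
  have eY : xY x' = xY x := by rw [hx']; rfl
  have eG : xG x' = xG x := by rw [hx']; rfl
  have ea : xa x' = 0 := by rw [hx']; rfl
  have eb : xb x' = 0 := by rw [hx']; rfl
  have efr : fr x' = fr x := by
    funext l i
    rw [fr, fr, ef]
  have hrel : Rel x' 0 (Finset.univ.filter fun i => i.isLeft)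
      (Finset.univ.filter fun i => i.isRight) := by
    refine ⟨?_, ?_, ?_, ?_, ?_, ?_⟩
    · intro k j
      rw [← h1 k j, pX, pX, efr, eA, eG]
    · intro k
      rw [eb]
      rcases k with k | k <;> simp [pX]
    · intro s
      rw [ea]
      simp
    · intro k s
      rw [eY, eG, h3]
      simp
    · intro i _
      rw [ea]
      exact Or.inl rfl
    · intro i _
      rw [eb]
      rfl
  have hB : Block (xA x') (xa x') (fun i => xb x' (Sum.inr i))
      (Finset.univ.filter fun i => i.isLeft) (Finset.univ.filter fun i => i.isRight) := by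
    rw [ea, eb]
    exact block_a (xA x')
  have hcard : (Finset.univ.filter fun i : ρ ⊕ σ => i.isLeft).card +
      (Finset.univ.filter fun i : ρ ⊕ σ => i.isRight).card =
      Fintype.card ρ + Fintype.card σ := by
    have e1 : (Finset.univ.filter fun i : ρ ⊕ σ => i.isLeft) = Finset.univ.map
        (Function.Embedding.inl : ρ ↪ ρ ⊕ σ) := by
      ext i
      rcases i with i | i <;> simp
    have e2 : (Finset.univ.filter fun i : ρ ⊕ σ => i.isRight) = Finset.univ.map
        (Function.Embedding.inr : σ ↪ ρ ⊕ σ) := by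
      ext i
      rcases i with i | i <;> simp
    rw [e1, e2, Finset.card_map, Finset.card_map, Finset.card_univ, Finset.card_univ]
  have h4' : ∀ i j, xP x' i j * (1 + xG x' i j) = u i j := by
    intro i j
    rw [← h4 i j, xP, xP, efr, eA, eY, eG]
  have h5' : ∀ y : Fre S, xf x' y * xh x' y.1.1 y.1.2 = - v y.1.1 y.1.2 := by
    intro y
    rw [← h5 y, xh, xh, ef, eY, eG]
  obtain ⟨_, hrank, hacl, hsurj, _⟩ := master hS hn x' 0 (Or.inl rfl) _ _ hB hrel _ hg (dat0_mem x' u v h4' h5') 0 0 (by omega)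
    (by rw [card_DI, add_zero])
  refine ⟨by rw [← eY]; exact hrank, ?_, ?_, ?_, ?_, ?_⟩
  · refine algInd_of_der _ fun y₀ => ?_
    -- a variation of one entry of `A`
    obtain ⟨dA, hdA⟩ : ∃ dA : σ → ρ → ℂ, dA = fun s k => if (s, k) = y₀ then 1 else 0 := ⟨_, rfl⟩
    obtain ⟨gr, hgr⟩ : ∃ gr : ρ → J → ℂ, ∀ k j, gr k j =
        - ∑ s, dA s k * xG x' (Sum.inr (Sum.inr s)) j := ⟨fun k j => _, fun _ _ => rfl⟩
    have h6 : ∀ j : J, ∃ g : π → ℂ, ∀ l, ∑ l', fr x' l (Sum.inl l') * g l' =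
        - ∑ i : ρ ⊕ σ, fr x' l (Sum.inr i) * Sum.elim (fun k => gr k j)
          (fun s => 0) i := fun j => tri_solve hS x' _
    choose gp hgp using h6
    obtain ⟨w, hw⟩ : ∃ w : Var S J → ℂ, w = Sum.elim (fun _ => 0) (Sum.elim (fun y => dA y.1 y.2)
      (Sum.elim (fun y => 0) (Sum.elim (fun y => Sum.elim (fun l => gp y.2 l)
        (Sum.elim (fun k => gr k y.2) (fun s => 0)) y.1) (fun _ => 0)))) := ⟨_, rfl⟩
    have wf : ∀ l i, dfr w l i = 0 := by
      intro l i
      rw [dfr]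
      split_ifs
      · rw [hw]
        rfl
      · rfl
    have wA : ∀ s k, xA w s k = dA s k := fun s k => by rw [hw]; rfl
    have wY : ∀ k j, xY w k j = 0 := fun s k => by rw [hw]; rfl
    have wGp : ∀ l j, xG w (Sum.inl l) j = gp j l := fun s k => by rw [hw]; rfl
    have wGr : ∀ k j, xG w (Sum.inr (Sum.inl k)) j = gr k j := fun s k => by rw [hw]; rfl
    have wGs : ∀ s j, xG w (Sum.inr (Sum.inr s)) j = 0 := fun s k => by rw [hw]; rfl
    have wa : ∀ i, xa w i = 0 := fun i => by rw [hw]; rfl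
    have wb : ∀ l, xb w l = 0 := fun i => by rw [hw]; rfl
    have wGr' : ∀ (i : ρ ⊕ σ) (j : J), xG w (Sum.inr i) j = Sum.elim (fun k => gr k j)
        (fun s => 0) i := by
      rintro (i | i) j
      · exact wGr i j
      · exact wGs i j
    have ea' : ∀ i, xa x' i = 0 := fun i => by rw [ea]; rfl
    have eb' : ∀ i, xb x' i = 0 := fun i => by rw [eb]; rfl
    obtain ⟨δ, hδ⟩ := hsurj w (by
      rintro ⟨l | k, j⟩
      · change ∑ i, (dfr w l i * _ + fr x' l i * xG w i j) = _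
        simp only [wf, zero_mul, zero_add]
        rw [Fintype.sum_sum_type]
        simp only [wGp, wGr', hgp]
        ring
      · change xG w (Sum.inr (Sum.inl k)) j + ∑ s, (xA w s k * xG x' _ j + xA x' s k * xG w _ j) = _
        simp only [wGr, wGs, wA, hgr, mul_zero, add_zero]
        ring) (by
      rintro (l | k)
      · change ∑ i, (dfr w l i * _ + fr x' l i * xb w i) = _
        simp [wf, wb]
      · change xb w (Sum.inr (Sum.inl k)) + ∑ s, (xA w s k * xb x' _ + xA x' s k * xb w _) = _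
        simp [wb, eb']) (by
      intro s
      change xa w (Sum.inr s) - ∑ k, (xA w s k * xa x' _ + xA x' s k * xa w _) = _
      simp [wa, ea']) (by
      rintro ⟨k, s⟩
      change ∑ j, (xY w (Sum.inr k) j * xG x' _ j + xY x' (Sum.inr k) j * xG w _ j) -
          0 * _ = 0
      simp [wY, wGs]) (fun i _ => wa i) (fun i _ => wb _)
    refine ⟨δ, ?_, ?_⟩
    · have e1 := hδ (Sum.inr (Sum.inl y₀))
      change δ (xA x' y₀.1 y₀.2) = xA w y₀.1 y₀.2 at e1
      rw [eA, wA, hdA] at e1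
      rw [e1]
      exact if_pos rfl
    · intro y hy
      have e1 := hδ (Sum.inr (Sum.inl y))
      change δ (xA x' y.1 y.2) = xA w y.1 y.2 at e1
      rw [eA, wA, hdA] at e1
      rw [e1]
      exact if_neg hy
  · intro y
    rw [← ef]
    exact hacl _
  · intro s k
    rw [← eA]
    exact hacl _
  · intro k j
    rw [← eY]
    exact hacl _
  · intro i j
    rw [← eG]
    exact hacl _

/-- (2b) the limit points with non-zero extra term: the supports are complementary, full rank,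
and the kernel of the differential is trivial for every `T` containing the support of `a` -/
theorem tb2b (hS : Adm (Sum.inl : π → Rw π ρ σ) S)
    (hn : Fintype.card π + (Fintype.card ρ + Fintype.card σ) ≤ Fintype.card J)
    (u : Matrix (Rw π ρ σ) J ℂ) (v : π → Rw π ρ σ → ℂ) (hg : Gen0 Sum.inl S u v)
    (i₀ : ρ ⊕ σ) (x : Var S J → ℂ) (h1 : ∀ k j, pX x (fun i => xG x i j) k = 0)
    (h2 : ∀ k, pX x (xb x) k = 0) (h2' : ∀ s, xa x (Sum.inr s) = ∑ k, xA x s k * xa x (Sum.inl k))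
    (h3 : ∀ k s, ∑ j, xY x (Sum.inr k) j * xG x (Sum.inr (Sum.inr s)) j =
      xa x (Sum.inl k) * xb x (Sum.inr (Sum.inr s)))
    (h4 : ∀ i j, xP x i j * (1 + xG x i j) = u i j)
    (h5 : ∀ y : Fre S, xf x y * xh x y.1.1 y.1.2 = - v y.1.1 y.1.2)
    (h6 : xa x i₀ = 1) (h7 : ∀ i, xa x i * xb x (Sum.inr i) = 0)
    (h8 : ∃ s, xb x (Sum.inr (Sum.inr s)) ≠ 0) :
    (∀ i, xa x i ≠ 0 ∨ xb x (Sum.inr i) ≠ 0) ∧
      (Matrix.of (xY x)).rank = Fintype.card π + Fintype.card ρ ∧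
      (∀ y, x y ∈ acl (Set.range (dat0 Sum.inl S u v))) ∧
      ∀ T : Finset (ρ ⊕ σ), (∀ i, xa x i ≠ 0 → i ∈ T) →
        ∀ w : Var S J → ℂ, dev 1 T i₀ x w = 0 → w = 0 := by
  classical
  have ha0 : xa x i₀ ≠ 0 := by
    rw [h6]
    exact one_ne_zero
  have hb0 : xb x (Sum.inr i₀) = 0 := (mul_eq_zero.mp (h7 i₀)).resolve_left ha0
  obtain ⟨Cq, hCq⟩ : ∃ Cq : Finset (ρ ⊕ σ), Cq = insert i₀ (Finset.univ.filter fun i =>
    xa x i = 0) := ⟨_, rfl⟩
  obtain ⟨Cf, hCf⟩ : ∃ Cf : Finset (ρ ⊕ σ), Cf = (Finset.univ.filter fun i =>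
    xb x (Sum.inr i) = 0).erase i₀ := ⟨_, rfl⟩
  have h2'' : ∀ s, xa x (Sum.inr s) - ∑ k, xA x s k * xa x (Sum.inl k) = 0 :=
    fun s => by rw [h2' s, sub_self]
  have hrel : Rel x 1 Cq Cf := by
    refine ⟨h1, h2, h2'', fun k s => by rw [h3, one_mul, sub_self], ?_, ?_⟩
    · intro i hi
      rw [hCq, Finset.mem_insert, Finset.mem_filter] at hi
      rcases hi with rfl | ⟨_, hi⟩
      · exact Or.inr h6
      · exact Or.inl hi
    · intro i hi
      rw [hCf, Finset.mem_erase, Finset.mem_filter] at hi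
      exact hi.2.2
  have hB : Block (xA x) (xa x) (fun i => xb x (Sum.inr i)) Cq Cf := by
    refine block_b (xA x) (xa x) (fun i => xb x (Sum.inr i)) i₀ ha0 h2' ?_
      (xa_inl_ne h2'' ha0) h8 Cq Cf ?_
    · intro k
      exact h2 (Sum.inr k)
    · rw [hCf]
      exact Finset.notMem_erase _ _
  obtain ⟨b, hb⟩ : ∃ b : ℕ, b = (Finset.univ.filter fun i : ρ ⊕ σ => xa x i = 0 ∧
    xb x (Sum.inr i) = 0).card := ⟨_, rfl⟩
  have hcard : Cq.card + Cf.card = (Fintype.card ρ + Fintype.card σ) + b := by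
    have e1 : Cq.card = (Finset.univ.filter fun i : ρ ⊕ σ => xa x i = 0).card + 1 := by
      rw [hCq, Finset.card_insert_of_notMem]
      rw [Finset.mem_filter]
      exact fun h => ha0 h.2
    have e2 : Cf.card + 1 = (Finset.univ.filter fun i : ρ ⊕ σ => xb x (Sum.inr i) = 0).card := by
      rw [hCf]
      exact Finset.card_erase_add_one (Finset.mem_filter.mpr ⟨Finset.mem_univ _, hb0⟩)
    have e3 : (Finset.univ.filter fun i : ρ ⊕ σ => xa x i = 0).card +
        (Finset.univ.filter fun i : ρ ⊕ σ => xb x (Sum.inr i) = 0).card =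
        (Finset.univ : Finset (ρ ⊕ σ)).card + b := by
      rw [hb, ← Finset.card_union_add_card_inter, ← Finset.filter_or, ← Finset.filter_and]
      congr 2
      rw [Finset.filter_eq_self]
      intro i _
      exact mul_eq_zero.mp (h7 i)
    rw [Finset.card_univ, Fintype.card_sum] at e3
    omega
  obtain ⟨hb', hrank, hacl, hsurj, hinj⟩ := master hS hn x 1 (Or.inr rfl) Cq Cf hB hrel _ hg
    (dat0_mem x u v h4 h5) 0 b (by omega) (by rw [card_DI, add_zero])
  refine ⟨?_, hrank, hacl, ?_⟩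
  · intro i
    by_contra hcon
    push Not at hcon
    rw [hb', eq_comm, Finset.card_eq_zero] at hb
    have : i ∈ (Finset.univ.filter fun i : ρ ⊕ σ => xa x i = 0 ∧ xb x (Sum.inr i) = 0) :=
      Finset.mem_filter.mpr ⟨Finset.mem_univ _, hcon⟩
    rw [hb] at this
    exact absurd this (Finset.notMem_empty i)
  · intro T hT w hw
    have hw' : ∀ e, dev 1 T i₀ x w e = 0 := fun e => congrFun hw e
    have hw6 : ∀ i : ρ ⊕ σ, (if i = i₀ then xa w i else if i ∈ T then
        xa w i * xb x (Sum.inr i) + xa x i * xb w (Sum.inr i) else xa w i) = 0 :=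
      fun i => hw' (Sum.inr (Sum.inr (Sum.inr (Sum.inr (Sum.inr (Sum.inr i))))))
    obtain ⟨δ, hδ⟩ := hsurj w (fun y => hw' (Sum.inl y)) (fun y => hw' (Sum.inr (Sum.inl y)))
      (fun y => hw' (Sum.inr (Sum.inr (Sum.inl y))))
      (fun y => hw' (Sum.inr (Sum.inr (Sum.inr (Sum.inl y))))) (by
        intro i hi
        rw [hCq, Finset.mem_insert, Finset.mem_filter] at hi
        have h := hw6 i
        rcases hi with rfl | ⟨_, hi⟩
        · rwa [if_pos rfl] at h
        · split_ifs at h with h' h''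
          · exact h
          · rw [hi, zero_mul, add_zero] at h
            refine (mul_eq_zero.mp h).resolve_right fun hbi => ?_
            rw [hb', eq_comm, Finset.card_eq_zero] at hb
            have : i ∈ (Finset.univ.filter fun i : ρ ⊕ σ => xa x i = 0 ∧
              xb x (Sum.inr i) = 0) := Finset.mem_filter.mpr ⟨Finset.mem_univ _, hi, hbi⟩
            rw [hb] at this
            exact absurd this (Finset.notMem_empty i)
          · exact h) (by
        intro i hi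
        rw [hCf, Finset.mem_erase, Finset.mem_filter] at hi
        have h := hw6 i
        have hai : xa x i ≠ 0 := by
          intro hai
          rw [hb', eq_comm, Finset.card_eq_zero] at hb
          have : i ∈ (Finset.univ.filter fun i : ρ ⊕ σ => xa x i = 0 ∧
            xb x (Sum.inr i) = 0) := Finset.mem_filter.mpr ⟨Finset.mem_univ _, hai, hi.2.2⟩
          rw [hb] at this
          exact absurd this (Finset.notMem_empty i)
        rw [if_neg hi.1, if_pos (hT i hai), hi.2.2, mul_zero, zero_add] at h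
        exact (mul_eq_zero.mp h).resolve_left hai)
    have hxw : (fun y => δ (x y)) = w := funext hδ
    have hd : ∀ i, δ (dat0 Sum.inl S u v i) = 0 := by
      rintro (y | y)
      · change δ (u y.1 y.2) = 0
        have e1 := ev_derivation δ 1 (Or.inr rfl) T i₀ x
          (Sum.inr (Sum.inr (Sum.inr (Sum.inr (Sum.inl y)))))
        rw [hxw, hw'] at e1
        change 0 = δ (xP x y.1 y.2 * (1 + xG x y.1 y.2)) at e1
        rw [h4] at e1
        exact e1.symm
      · change δ (v y.1.1 y.1.2) = 0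
        have e1 := ev_derivation δ 1 (Or.inr rfl) T i₀ x
          (Sum.inr (Sum.inr (Sum.inr (Sum.inr (Sum.inr (Sum.inl y))))))
        rw [hxw, hw'] at e1
        change 0 = δ (xf x y * xh x y.1.1 y.1.2) at e1
        rw [h5, map_neg, eq_comm, neg_eq_zero] at e1
        exact e1
    funext y
    rw [← hδ y]
    exact hinj δ hd y

/-- (2c) `c = 1`: the points of the system with generic data; `c = 0`: the limit points with zero
extra term -/
theorem tb2c (hS : Adm (Sum.inl : π → Rw π ρ σ) S)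
    (hn : Fintype.card π + (Fintype.card ρ + Fintype.card σ) ≤ Fintype.card J)
    (u : Matrix (Rw π ρ σ) J ℂ) (v : π → Rw π ρ σ → ℂ) (w : ρ ⊕ σ → ℂ) (T : Finset (ρ ⊕ σ))
    (i₀ : ρ ⊕ σ) (hi₀ : i₀ ∈ T)
    (hg : AlgebraicIndependent ℚ (Sum.elim (dat0 Sum.inl S u v)
      (fun i : {i // i ∈ T ∧ i ≠ i₀} => w i.1)))
    (c : ℂ) (hc : c = 0 ∨ c = 1) (x : Var S J → ℂ) (hx : ev c T i₀ x = dat T i₀ u v w) :
    (Matrix.of (xY x)).rank = Fintype.card π + Fintype.card ρ ∧
      (∀ y, x y ∈ acl (Set.range (Sum.elim (dat0 Sum.inl S u v)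
        (fun i : {i // i ∈ T ∧ i ≠ i₀} => w i.1)))) ∧
      ∀ w' : Var S J → ℂ, dev c T i₀ x w' = 0 → w' = 0 := by
  classical
  have hx' : ∀ e, ev c T i₀ x e = dat T i₀ u v w e := fun e => congrFun hx e
  have h1 : ∀ k j, pX x (fun i => xG x i j) k = 0 := fun k j => hx' (Sum.inl (k, j))
  have h2 : ∀ k, pX x (xb x) k = 0 := fun k => hx' (Sum.inr (Sum.inl k))
  have h2' : ∀ s, xa x (Sum.inr s) - ∑ k, xA x s k * xa x (Sum.inl k) = 0 :=
    fun s => hx' (Sum.inr (Sum.inr (Sum.inl s)))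
  have h3 : ∀ k s, ∑ j, xY x (Sum.inr k) j * xG x (Sum.inr (Sum.inr s)) j -
      c * (xa x (Sum.inl k) * xb x (Sum.inr (Sum.inr s))) = 0 :=
    fun k s => hx' (Sum.inr (Sum.inr (Sum.inr (Sum.inl (k, s)))))
  have h4 : ∀ i j, xP x i j * (1 + xG x i j) = u i j :=
    fun i j => hx' (Sum.inr (Sum.inr (Sum.inr (Sum.inr (Sum.inl (i, j))))))
  have h5 : ∀ y : Fre S, xf x y * xh x y.1.1 y.1.2 = - v y.1.1 y.1.2 :=
    fun y => hx' (Sum.inr (Sum.inr (Sum.inr (Sum.inr (Sum.inr (Sum.inl y))))))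
  have h6 : ∀ i : ρ ⊕ σ, (if i = i₀ then xa x i else if i ∈ T then
      xa x i * xb x (Sum.inr i) else xa x i) = (if i = i₀ then 1 else if i ∈ T then - w i else 0) :=
    fun i => hx' (Sum.inr (Sum.inr (Sum.inr (Sum.inr (Sum.inr (Sum.inr i))))))
  have h60 : xa x i₀ = 1 := by
    have := h6 i₀
    rwa [if_pos rfl, if_pos rfl] at this
  have ha0 : xa x i₀ ≠ 0 := by
    rw [h60]
    exact one_ne_zero
  obtain ⟨Cq, hCq⟩ : ∃ Cq : Finset (ρ ⊕ σ), Cq = insert i₀ Tᶜ := ⟨_, rfl⟩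
  have hrel : Rel x c Cq ∅ := by
    refine ⟨h1, h2, h2', h3, ?_, ?_⟩
    · intro i hi
      rw [hCq, Finset.mem_insert, Finset.mem_compl] at hi
      rcases hi with rfl | hi
      · exact Or.inr h60
      · have := h6 i
        have hne : i ≠ i₀ := fun h => hi (h ▸ hi₀)
        rw [if_neg hne, if_neg hne, if_neg hi, if_neg hi] at this
        exact Or.inl this
    · intro i hi
      exact absurd hi (Finset.notMem_empty i)
  have hB : Block (xA x) (xa x) (fun i => xb x (Sum.inr i)) Cq ∅ :=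
    block_c _ _ _ (xa_inl_ne h2' ha0) Cq
  have hTcard : Fintype.card {i // i ∈ T ∧ i ≠ i₀} + 1 = T.card := by
    have e1 : Fintype.card {i // i ∈ T ∧ i ≠ i₀} = (T.erase i₀).card := by
      rw [Fintype.card_subtype]
      congr 1
      ext i
      simp [Finset.mem_erase, and_comm]
    rw [e1]
    exact Finset.card_erase_add_one hi₀
  have hCqc : Cq.card + T.card = (Fintype.card ρ + Fintype.card σ) + 1 := by
    have e1 : Cq.card = Tᶜ.card + 1 := by
      rw [hCq, Finset.card_insert_of_notMem]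
      rw [Finset.mem_compl, not_not]
      exact hi₀
    have e2 := Finset.card_compl_add_card T
    rw [Fintype.card_sum] at e2
    omega
  have hdx : ∀ i, Sum.elim (dat0 Sum.inl S u v) (fun i : {i // i ∈ T ∧ i ≠ i₀} => w i.1) i ∈
      acl (Set.range x) := by
    rintro (y | y)
    · exact dat0_mem x u v h4 h5 y
    · have e1 := ev_mem_acl c hc T i₀ x
        (Sum.inr (Sum.inr (Sum.inr (Sum.inr (Sum.inr (Sum.inr y.1))))))
      rw [hx'] at e1
      change (if y.1 = i₀ then (1 : ℂ) else if y.1 ∈ T then - w y.1 else 0) ∈ _ at e1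
      rw [if_neg y.2.2, if_pos y.2.1] at e1
      have e2 := neg_mem e1
      rw [neg_neg] at e2
      exact e2
  obtain ⟨_, hrank, hacl, hsurj, hinj⟩ := master hS hn x c hc Cq ∅ hB hrel _ hg hdx
    (Fintype.card {i // i ∈ T ∧ i ≠ i₀}) 0 (by rw [Finset.card_empty]; omega)
    (by rw [Fintype.card_sum, card_DI])
  refine ⟨hrank, hacl, ?_⟩
  intro w' hw
  have hw' : ∀ e, dev c T i₀ x w' e = 0 := fun e => congrFun hw e
  have hw6 : ∀ i : ρ ⊕ σ, (if i = i₀ then xa w' i else if i ∈ T then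
      xa w' i * xb x (Sum.inr i) + xa x i * xb w' (Sum.inr i) else xa w' i) = 0 :=
    fun i => hw' (Sum.inr (Sum.inr (Sum.inr (Sum.inr (Sum.inr (Sum.inr i))))))
  obtain ⟨δ, hδ⟩ := hsurj w' (fun y => hw' (Sum.inl y)) (fun y => hw' (Sum.inr (Sum.inl y)))
    (fun y => hw' (Sum.inr (Sum.inr (Sum.inl y))))
    (fun y => hw' (Sum.inr (Sum.inr (Sum.inr (Sum.inl y))))) (by
      intro i hi
      rw [hCq, Finset.mem_insert, Finset.mem_compl] at hi
      have h := hw6 i
      rcases hi with rfl | hi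
      · rwa [if_pos rfl] at h
      · have hne : i ≠ i₀ := fun h => hi (h ▸ hi₀)
        rwa [if_neg hne, if_neg hi] at h) (by
      intro i hi
      exact absurd hi (Finset.notMem_empty i))
  have hxw : (fun y => δ (x y)) = w' := funext hδ
  have hd : ∀ i, δ (Sum.elim (dat0 Sum.inl S u v)
      (fun i : {i // i ∈ T ∧ i ≠ i₀} => w i.1) i) = 0 := by
    rintro ((y | y) | y)
    · change δ (u y.1 y.2) = 0
      have e1 := ev_derivation δ c hc T i₀ x
        (Sum.inr (Sum.inr (Sum.inr (Sum.inr (Sum.inl y)))))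
      rw [hxw, hw', hx'] at e1
      exact e1.symm
    · change δ (v y.1.1 y.1.2) = 0
      have e1 := ev_derivation δ c hc T i₀ x
        (Sum.inr (Sum.inr (Sum.inr (Sum.inr (Sum.inr (Sum.inl y))))))
      rw [hxw, hw', hx'] at e1
      change 0 = δ (- v y.1.1 y.1.2) at e1
      rw [map_neg, eq_comm, neg_eq_zero] at e1
      exact e1
    · change δ (w y.1) = 0
      have e1 := ev_derivation δ c hc T i₀ x
        (Sum.inr (Sum.inr (Sum.inr (Sum.inr (Sum.inr (Sum.inr y.1))))))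
      rw [hxw, hw', hx'] at e1
      change 0 = δ (if y.1 = i₀ then (1 : ℂ) else if y.1 ∈ T then - w y.1 else 0) at e1
      rw [if_neg y.2.2, if_pos y.2.1, map_neg, eq_comm, neg_eq_zero] at e1
      exact e1
  funext y
  rw [← hδ y]
  exact hinj δ hd y

end master

end Pool.EU.TB
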