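import Pool.Agent.EU.TBShape
import Pool.Agent.EU.ResidueM

/-!
# Row TB3: the entries of a Laurent series solution are units

For a solution of the system with exponents `u`, `v` constant and algebraically independent, and
small exponents of the extra vector, all entries of `P` and all entries of the frames on their
supports have order zero.
-/

set_option autoImplicit false
set_option linter.unusedSectionVars false

namespace Pool.EU.TB

open Matrix Pool.ML

section

variable {Ω π I J : Type} [Field Ω] [Fintype π] [Fintype I] [Fintype J] [LinearOrder π]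
  [DecidableEq I] [DecidableEq J] {p : π → I} {S : π → Finset I} {T : Finset I} {i₀ : I} {r : ℕ}

/-- A vector in the column space is orthogonal to a vector orthogonal to the columns. -/
theorem sum_mul_eq_zero_of_col {P : Matrix I J Ω} {a b : I → Ω} (ha : ∃ y : J → Ω, P *ᵥ y = a)
    (hb : Pᵀ *ᵥ b = 0) : ∑ i, a i * b i = 0 := by
  obtain ⟨y, rfl⟩ := ha
  have h1 : (P *ᵥ y) ⬝ᵥ b = 0 := by
    rw [dotProduct_comm, Matrix.dotProduct_mulVec, ← Matrix.mulVec_transpose, hb,
      zero_dotProduct]
  exact h1

/-- The frames are linearly independent. -/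
theorem frames_eq_zero (hS : Adm p S) {q : π → I → Ω} (hone : ∀ l, q l (p l) = 1)
    (hzero : ∀ l, ∀ i ∉ S l, q l i = 0) (c : π → Ω) (hc : ∀ i, ∑ l, q l i * c l = 0) (l : π) :
    c l = 0 := by
  induction l using WellFoundedLT.induction with
  | ind l ih =>
    have h1 := hc (p l)
    rw [Finset.sum_eq_single l] at h1
    · rw [hone, one_mul] at h1
      exact h1
    · intro l' _ hl'
      rcases lt_or_gt_of_ne hl' with h | h
      · rw [ih l' h, mul_zero]
      · rw [hzero l' (p l) (hS.notMem l' l h), zero_mul]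
    · intro h
      exact absurd (Finset.mem_univ l) h

/-- The conormal vectors of the frames are orthogonal to the columns of `P`. -/
theorem h_perp_of_cr {P G : Matrix I J Ω} (hS : Adm p S) {q h : π → I → Ω} {a b : I → Ω} {c : Ω}
    (hone : ∀ l, q l (p l) = 1) (hzero : ∀ l, ∀ i ∉ S l, q l i = 0) (orth : Pᵀ * G = 0)
    (cr : P * Gᵀ = ∑ l, Matrix.vecMulVec (q l) (h l) + c • Matrix.vecMulVec a b)
    (hb : Pᵀ *ᵥ b = 0) (l : π) : Pᵀ *ᵥ (h l) = 0 := by
  have h1 : P * Gᵀ * P = 0 := by
    rw [Matrix.mul_assoc]
    have h2 : Gᵀ * P = 0 := by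
      have h3 := congrArg Matrix.transpose orth
      rw [Matrix.transpose_mul, Matrix.transpose_transpose, Matrix.transpose_zero] at h3
      exact h3
    rw [h2, Matrix.mul_zero]
  rw [cr] at h1
  ext j
  have h4 : ∀ i, ∑ l, q l i * (Pᵀ *ᵥ (h l)) j = 0 := by
    intro i
    have h5 := congrFun (congrFun h1 i) j
    rw [Matrix.mul_apply, Matrix.zero_apply] at h5
    have h6 : ∀ i', (∑ l, Matrix.vecMulVec (q l) (h l) + c • Matrix.vecMulVec a b) i i' =
        ∑ l, q l i * h l i' + c * (a i * b i') := by
      intro i'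
      rw [Matrix.add_apply, Matrix.sum_apply]
      rfl
    simp only [h6, add_mul, Finset.sum_add_distrib] at h5
    have h7 : ∑ i', c * (a i * b i') * P i' j = 0 := by
      have h8 := congrFun hb j
      have h9 : ∑ i', P i' j * b i' = 0 := h8
      calc ∑ i', c * (a i * b i') * P i' j = c * a i * ∑ i', P i' j * b i' := by
            rw [Finset.mul_sum]
            exact Finset.sum_congr rfl fun _ _ => by ring
        _ = 0 := by rw [h9, mul_zero]
    rw [h7, add_zero] at h5
    rw [← h5]
    simp only [Finset.sum_mul]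
    rw [Finset.sum_comm]
    refine Finset.sum_congr rfl fun l _ => ?_
    show q l i * ∑ i', P i' j * h l i' = _
    rw [Finset.mul_sum]
    exact Finset.sum_congr rfl fun _ _ => by ring
  exact frames_eq_zero hS hone hzero _ h4 l

end

section

variable {π I J : Type} [Fintype π] [Fintype I] [Fintype J] [LinearOrder π]
  [DecidableEq I] [DecidableEq J] {p : π → I} {S : π → Finset I} {T : Finset I} {i₀ : I} {r : ℕ}

/-- Row TB3 without the shape: all entries are units. -/
theorem tb3' {K : Type} [Field K] [Algebra K ℂ] (hS : Adm p S) (hi₀ : i₀ ∈ T)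
    (e : PowerSeries K) (he : PowerSeries.constantCoeff e = 0)
    (u : Matrix I J K) (v : π → I → K) (w : I → K)
    (hg : Gen0 p S (u.map (algebraMap K ℂ)) (fun l i => algebraMap K ℂ (v l i)))
    (z : Qnt (LaurentSeries K) π I J)
    (hz : SysQ 1 r p S T i₀ (u.map HahnSeries.C) (fun l i => HahnSeries.C (v l i))
      (fun i => ofPS e * HahnSeries.C (w i)) z) :
    (∀ i j, z.P i j ≠ 0 ∧ (z.P i j).order = 0) ∧
      ∀ l, ∀ i ∈ S l, z.q l i ≠ 0 ∧ (z.q l i).order = 0 := by
  classical
  have hchar : CharZero K := (algebraMap K ℂ).charZero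
  have hofC : ∀ a : K, ofPS (PowerSeries.C a) = HahnSeries.C a := fun a => by
    rw [ofPS, HahnSeries.ofPowerSeries_C]
  -- the data of the residue lemma
  let q : Option π → I → LaurentSeries K := fun l => l.elim z.a z.q
  let φ : Option π → I → LaurentSeries K := fun l => l.elim z.b z.h
  let W : Option π → I → PowerSeries K := fun l => l.elim
    (fun i => if i ∈ T then (if i = i₀ then - ∑ j ∈ T.erase i₀, e * PowerSeries.C (w j)
      else e * PowerSeries.C (w i)) else 0)
    (fun l i => if i ∈ S l then (if i = p l then - ∑ j ∈ (S l).erase (p l), PowerSeries.C (v l j)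
      else PowerSeries.C (v l i)) else 0)
  have hperp : ∀ l, z.Pᵀ *ᵥ (z.h l) = 0 := h_perp_of_cr hS hz.one hz.zero hz.orth hz.cr hz.perp'
  have hq : ∀ l : Option π, ∃ y : J → LaurentSeries K, z.P *ᵥ y = q l := by
    rintro (_ | l)
    · exact hz.mem'
    · exact hz.mem l
  choose y hy using hq
  have hφ : ∀ l : Option π, z.Pᵀ *ᵥ (φ l) = 0 := by
    rintro (_ | l)
    · exact hz.perp'
    · exact hperp l
  have hW : ∀ i i', ∑ j, z.P i j * z.G i' j = ∑ l, q l i * φ l i' := by
    intro i i'
    have h1 := congrFun (congrFun hz.cr i) i'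
    rw [Matrix.mul_apply, Matrix.add_apply, Matrix.sum_apply] at h1
    rw [Fintype.sum_option]
    have h2 : ∑ j, z.P i j * z.G i' j = ∑ l, z.q l i * z.h l i' + (1 : LaurentSeries K) •
      (z.a i * z.b i') := h1
    rw [one_smul, add_comm] at h2
    exact h2
  have hzero : ∀ l, ∑ i, q l i * φ l i = 0 := fun l =>
    sum_mul_eq_zero_of_col ⟨y l, hy l⟩ (hφ l)
  have hqφ : ∀ l i, q l i * φ l i = -ofPS (W l i) := by
    rintro (_ | l) i
    · show z.a i * z.b i = -ofPS (if i ∈ T then (if i = i₀ then
        - ∑ j ∈ T.erase i₀, e * PowerSeries.C (w j) else e * PowerSeries.C (w i)) else 0)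
      split_ifs with h1 h2
      · subst h2
        have h3 : ∑ i, z.a i * z.b i = 0 := hzero none
        have h4 : ∑ i, z.a i * z.b i = ∑ i ∈ T, z.a i * z.b i := by
          symm
          refine Finset.sum_subset (Finset.subset_univ T) fun i _ hi => ?_
          rw [hz.zero' i hi, zero_mul]
        rw [h4, ← Finset.add_sum_erase T _ h1] at h3
        have h5 : ∑ j ∈ T.erase i, z.a j * z.b j =
            - ∑ j ∈ T.erase i, ofPS (e * PowerSeries.C (w j)) := by
          rw [← Finset.sum_neg_distrib]
          refine Finset.sum_congr rfl fun j hj => ?_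
          rw [hz.vq' j (Finset.mem_of_mem_erase hj) (Finset.ne_of_mem_erase hj), map_mul, hofC]
        rw [h5] at h3
        rw [map_neg, map_sum, neg_neg]
        linear_combination h3
      · rw [hz.vq' i h1 h2, map_mul, hofC]
      · rw [hz.zero' i h1, zero_mul, map_zero, neg_zero]
    · show z.q l i * z.h l i = -ofPS (if i ∈ S l then (if i = p l then
        - ∑ j ∈ (S l).erase (p l), PowerSeries.C (v l j) else PowerSeries.C (v l i)) else 0)
      split_ifs with h1 h2
      · subst h2
        have h3 : ∑ i, z.q l i * z.h l i = 0 := hzero (some l)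
        have h4 : ∑ i, z.q l i * z.h l i = ∑ i ∈ S l, z.q l i * z.h l i := by
          symm
          refine Finset.sum_subset (Finset.subset_univ (S l)) fun i _ hi => ?_
          rw [hz.zero l i hi, zero_mul]
        rw [h4, ← Finset.add_sum_erase (S l) _ h1] at h3
        have h5 : ∑ j ∈ (S l).erase (p l), z.q l j * z.h l j =
            - ∑ j ∈ (S l).erase (p l), ofPS (PowerSeries.C (v l j)) := by
          rw [← Finset.sum_neg_distrib]
          refine Finset.sum_congr rfl fun j hj => ?_
          rw [hz.vq l j (Finset.mem_of_mem_erase hj) (Finset.ne_of_mem_erase hj), hofC]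
        rw [h5] at h3
        rw [map_neg, map_sum, neg_neg]
        linear_combination h3
      · rw [hz.vq l i h1 h2, hofC]
      · rw [hz.zero l i h1, zero_mul, map_zero, neg_zero]
  let X : Set (Option π × I) := {t | ∃ l, t.1 = some l ∧ t.2 ∈ S l ∧ t.2 ≠ p l}
  have hXW : ∀ l i, i ∈ S l → i ≠ p l → W (some l) i = PowerSeries.C (v l i) := by
    intro l i h1 h2
    show (if i ∈ S l then (if i = p l then - ∑ j ∈ (S l).erase (p l), PowerSeries.C (v l j)
      else PowerSeries.C (v l i)) else 0) = _
    rw [if_pos h1, if_neg h2]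
  have hlin : LinearIndependent ℚ (dat0 p S u v) := by
    have h1 := AlgebraicIndependent.linearIndependent hg
    refine LinearIndependent.of_comp (RingHom.toRatAlgHom (algebraMap K ℂ)).toLinearMap ?_
    have h2 : ((RingHom.toRatAlgHom (algebraMap K ℂ)).toLinearMap : K → ℂ) ∘ dat0 p S u v =
        dat0 p S (u.map (algebraMap K ℂ)) (fun l i => algebraMap K ℂ (v l i)) := by
      ext x
      rcases x with x | x <;> rfl
    rw [h2]
    exact h1
  have hind : LinearIndependent ℚ (Sum.elim (fun x : I × J => u x.1 x.2)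
      (fun t : X => PowerSeries.constantCoeff (W t.1.1 t.1.2))) := by
    have hX : ∀ t : X, ∃ x : {x : π × I // x.2 ∈ S x.1 ∧ x.2 ≠ p x.1},
        t.1 = (some x.1.1, x.1.2) := by
      rintro ⟨⟨l', i⟩, l, h1, h2, h3⟩
      exact ⟨⟨(l, i), h2, h3⟩, Prod.ext h1 rfl⟩
    choose g hg' using hX
    have hinj : Function.Injective (Sum.map (id : I × J → I × J) g) := by
      refine Function.injective_id.sumMap ?_
      intro t t' h
      apply Subtype.ext
      rw [hg' t, hg' t', h]
    have h1 := hlin.comp _ hinj
    have h2 : dat0 p S u v ∘ Sum.map (id : I × J → I × J) g =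
        Sum.elim (fun x : I × J => u x.1 x.2)
          (fun t : X => PowerSeries.constantCoeff (W t.1.1 t.1.2)) := by
      ext x
      rcases x with x | t
      · rfl
      · show v (g t).1.1 (g t).1.2 = PowerSeries.constantCoeff (W t.1.1 t.1.2)
        have h3 := hg' t
        rw [h3]
        show _ = PowerSeries.constantCoeff (W (some (g t).1.1) (g t).1.2)
        rw [hXW _ _ (g t).2.1 (g t).2.2, PowerSeries.constantCoeff_C]
    rw [h2] at h1
    exact h1
  have hT : ∀ l i, (l, i) ∉ X → PowerSeries.constantCoeff (W l i) = 0 ∨ (q l i).order = 0 := by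
    rintro (_ | l) i hli
    · left
      show PowerSeries.constantCoeff (if i ∈ T then (if i = i₀ then
        - ∑ j ∈ T.erase i₀, e * PowerSeries.C (w j) else e * PowerSeries.C (w i)) else 0) = 0
      split_ifs
      · rw [map_neg, map_sum, neg_eq_zero]
        exact Finset.sum_eq_zero fun j _ => by rw [map_mul, he, zero_mul]
      · rw [map_mul, he, zero_mul]
      · rw [map_zero]
    · right
      show (z.q l i).order = 0
      by_cases h1 : i ∈ S l
      · by_cases h2 : i = p l
        · rw [h2, hz.one l]
          exact HahnSeries.order_one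
        · exact absurd ⟨l, rfl, h1, h2⟩ hli
      · rw [hz.zero l i h1]
        exact HahnSeries.order_zero
  have hres := orders_sys z.P z.G q φ y u W hz.orth hW
    (fun l i => (congrFun (hy l) i).symm)
    (fun l j => by
      have h1 := congrFun (hφ l) j
      have h2 : ∑ i, z.P i j * φ l i = 0 := h1
      rw [← h2]
      exact Finset.sum_congr rfl fun _ _ => mul_comm _ _)
    (fun i j => hz.eq i j) hqφ X hind hT
  refine ⟨hres.1, fun l i hi => ?_⟩
  by_cases h2 : i = p l
  · rw [h2, hz.one l]
    exact ⟨one_ne_zero, HahnSeries.order_one⟩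
  · exact hres.2 (some l, i) ⟨l, rfl, hi, h2⟩

/-- Row TB3: all entries are units. -/
theorem tb3 {K : Type} [Field K] [Algebra K ℂ] (h : Shape p S T i₀ r J)
    (e : PowerSeries K) (he : PowerSeries.constantCoeff e = 0)
    (u : Matrix I J K) (v : π → I → K) (w : I → K)
    (hg : Gen0 p S (u.map (algebraMap K ℂ)) (fun l i => algebraMap K ℂ (v l i)))
    (z : Qnt (LaurentSeries K) π I J)
    (hz : SysQ 1 r p S T i₀ (u.map HahnSeries.C) (fun l i => HahnSeries.C (v l i))
      (fun i => ofPS e * HahnSeries.C (w i)) z) :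
    (∀ i j, z.P i j ≠ 0 ∧ (z.P i j).order = 0) ∧
      ∀ l, ∀ i ∈ S l, z.q l i ≠ 0 ∧ (z.q l i).order = 0 :=
  tb3' h.adm h.mem e he u v w hg z hz

end

end Pool.EU.TB
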