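import Pool.Agent.EU.TBDefs

/-!
# Row TBR: charts with a non-zero minor, reindexing of the rows, field homomorphisms, and the change
of the normalisation
-/

set_option autoImplicit false
set_option linter.unusedSectionVars false

namespace Pool.EU.TB

open Matrix

/-! ### Linear algebra -/

section linalg

theorem exists_sum_equiv {α β I : Type} [Fintype α] [Fintype β] [Fintype I] (a : α → I)
    (ha : Function.Injective a) (hc : Fintype.card I = Fintype.card α + Fintype.card β) :
    ∃ E : α ⊕ β ≃ I, ∀ x, E (Sum.inl x) = a x := by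
  classical
  have e1 := Equiv.ofInjective a ha
  have h1 : Fintype.card (Set.range a) = Fintype.card α := Set.card_range_of_injective ha
  have h2 : Fintype.card β = Fintype.card ((Set.range a)ᶜ : Set I) := by
    have h3 := Fintype.card_congr (Equiv.Set.sumCompl (Set.range a))
    rw [Fintype.card_sum, h1] at h3
    omega
  refine ⟨(Equiv.sumCongr (Equiv.ofInjective a ha) (Fintype.equivOfCardEq h2)).trans
    (Equiv.Set.sumCompl (Set.range a)), fun x => ?_⟩
  rw [Equiv.trans_apply, Equiv.sumCongr_apply, Sum.map_inl, Equiv.Set.sumCompl_apply_inl,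
    Equiv.ofInjective_apply]

variable {Ω Ω' : Type} [Field Ω] [Field Ω']

/-- Rows which form a basis of the row space and contain given independent rows. -/
theorem exists_basis_rows {I J : Type} [Fintype I] [Fintype J] (A : Matrix I J Ω) (s : Set I)
    (hs : LinearIndepOn Ω (fun i => A i) s) :
    ∃ b : Set I, s ⊆ b ∧ LinearIndepOn Ω (fun i => A i) b ∧
      Submodule.span Ω ((fun i => A i) '' b) = Submodule.span Ω (Set.range fun i => A i) ∧
      b.ncard = A.rank := by
  obtain ⟨b, -, hsb, hspan, hli⟩ := exists_linearIndepOn_extension hs (Set.subset_univ s)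
  have h1 : Submodule.span Ω ((fun i => A i) '' b) = Submodule.span Ω (Set.range fun i => A i) := by
    refine le_antisymm (Submodule.span_mono (Set.image_subset_range _ _)) ?_
    rw [Submodule.span_le]
    rw [Set.image_univ] at hspan
    exact hspan
  refine ⟨b, hsb, hli, h1, ?_⟩
  have h2 : A.rank = Module.finrank Ω (Submodule.span Ω ((fun i => A i) '' b)) := by
    rw [Matrix.rank_eq_finrank_span_row, h1]
    rfl
  classical
  have h3 : ((fun i => A i) '' b) = Set.range (fun i : b => A i) := by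
    ext x
    simp
  rw [h2, h3, finrank_span_eq_card hli, ← Nat.card_eq_fintype_card, Nat.card_coe_set_eq]

theorem exists_cols {κ J : Type} [Fintype κ] [DecidableEq κ] [Fintype J] (M : Matrix κ J Ω)
    (h : M.rank = Fintype.card κ) : ∃ g : κ → J, (M.submatrix id g).det ≠ 0 := by
  obtain ⟨b, -, hli, -, hb⟩ := exists_basis_rows Mᵀ ∅ (linearIndepOn_empty Ω _)
  classical
  rw [Matrix.rank_transpose, h, ← Nat.card_coe_set_eq, Nat.card_eq_fintype_card] at hb
  let e : κ ≃ b := Fintype.equivOfCardEq hb.symm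
  refine ⟨fun k => (e k : J), ?_⟩
  have h1 : LinearIndependent Ω (fun k : κ => fun i => M i (e k : J)) := by
    have h2 := hli.comp e e.injective
    exact h2
  have h2 : IsUnit (M.submatrix id fun k => (e k : J)) := by
    rw [← Matrix.linearIndependent_cols_iff_isUnit]
    exact h1
  exact ((Matrix.isUnit_iff_isUnit_det _).1 h2).ne_zero

theorem rank_of_rows {κ I J : Type} [Fintype κ] [Fintype I] [Fintype J] (A : Matrix I J Ω)
    (a : κ → I) (h : LinearIndependent Ω fun k => A (a k)) :
    (A.submatrix a id).rank = Fintype.card κ :=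
  LinearIndependent.rank_matrix (M := A.submatrix a id) h

theorem rank_of_det {κ I J : Type} [Fintype κ] [DecidableEq κ] [Fintype J] (A : Matrix I J Ω)
    (a : κ → I) (g : κ → J) (h : (A.submatrix a g).det ≠ 0) : Fintype.card κ ≤ A.rank := by
  have h1 : (A.submatrix a g).rank = Fintype.card κ :=
    Matrix.rank_of_isUnit _ ((Matrix.isUnit_iff_isUnit_det _).2 (IsUnit.mk0 _ h))
  rw [← h1]
  exact Matrix.rank_submatrix_le A a g

theorem rank_map_field {I J : Type} [Fintype I] [Fintype J] (f : Ω →+* Ω') (A : Matrix I J Ω) :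
    (A.map f).rank = A.rank := by
  classical
  obtain ⟨b, -, hli, hspan, hb⟩ := exists_basis_rows A ∅ (linearIndepOn_empty Ω _)
  rw [← Nat.card_coe_set_eq, Nat.card_eq_fintype_card] at hb
  refine le_antisymm ?_ ?_
  · -- `A` is a product
    have h1 : ∀ i, ∃ c : b → Ω, ∑ k, c k • A k = A i := by
      intro i
      have h2 : A i ∈ Submodule.span Ω (Set.range fun k : b => A k) := by
        have h3 : ((fun i => A i) '' b) = Set.range (fun i : b => A i) := by
          ext x
          simp
        rw [← h3, hspan]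
        exact Submodule.subset_span ⟨i, rfl⟩
      exact (Submodule.mem_span_range_iff_exists_fun Ω).1 h2
    choose c hc using h1
    have h4 : A = Matrix.of c * A.submatrix (fun k : b => (k : I)) id := by
      ext i j
      rw [Matrix.mul_apply, ← hc i, Finset.sum_apply]
      rfl
    have h5 : A.map f = (Matrix.of c).map f * (A.submatrix (fun k : b => (k : I)) id).map f := by
      conv_lhs => rw [h4]
      rw [Matrix.map_mul]
    rw [h5]
    refine (Matrix.rank_mul_le_right _ _).trans ((Matrix.rank_le_card_height _).trans ?_)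
    rw [hb]
  · have h1 := rank_of_rows A (fun k : b => (k : I)) hli
    obtain ⟨g, hg⟩ := exists_cols _ h1
    rw [← hb]
    refine rank_of_det (A.map f) (fun k : b => (k : I)) g ?_
    have h2 : ((A.map f).submatrix (fun k : b => (k : I)) g).det =
        f ((A.submatrix (fun k : b => (k : I)) id).submatrix id g).det := by
      rw [RingHom.map_det]
      rfl
    rw [h2]
    exact (map_ne_zero f).2 hg

/-- Solvability of a linear system does not depend on the field. -/
theorem solve_map {I J : Type} [Fintype I] [Fintype J] (f : Ω →+* Ω') (A : Matrix I J Ω)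
    (q : I → Ω) : (∃ y : J → Ω', (A.map f) *ᵥ y = fun i => f (q i)) ↔ ∃ y : J → Ω, A *ᵥ y = q := by
  constructor
  · rintro ⟨y, hy⟩
    let _ : Algebra Ω Ω' := f.toAlgebra
    obtain ⟨ρ, hρ⟩ := LinearMap.exists_leftInverse_of_injective (Algebra.linearMap Ω Ω')
      (LinearMap.ker_eq_bot.2 (algebraMap Ω Ω').injective)
    refine ⟨fun j => ρ (y j), ?_⟩
    funext i
    have h1 := congrFun hy i
    have h2 : ∀ x, ρ (f x) = x := fun x => LinearMap.congr_fun hρ x
    have h3 : ρ (((A.map f) *ᵥ y) i) = q i := by rw [h1, h2]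
    rw [← h3, Matrix.mulVec, Matrix.mulVec, dotProduct, dotProduct, map_sum]
    refine Finset.sum_congr rfl fun j _ => ?_
    have h4 : (A.map f) i j * y j = A i j • y j := by
      rw [Algebra.smul_def]
      rfl
    rw [h4, map_smul, smul_eq_mul]
  · rintro ⟨y, hy⟩
    refine ⟨fun j => f (y j), ?_⟩
    funext i
    rw [← congrFun hy i, Matrix.mulVec, Matrix.mulVec, dotProduct, dotProduct, map_sum]
    exact Finset.sum_congr rfl fun j _ => (map_mul f _ _).symm

theorem matrix_map_inj {I J : Type} (f : Ω →+* Ω') {A B : Matrix I J Ω} :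
    A.map f = B.map f ↔ A = B := by
  constructor
  · intro h
    ext i j
    exact f.injective (congrFun (congrFun h i) j)
  · rintro rfl
    rfl

end linalg

variable {π I J : Type} [Fintype π] [Fintype I] [Fintype J] [LinearOrder π] [DecidableEq I]
  [DecidableEq J] {p : π → I} {S : π → Finset I} {T : Finset I} {i₀ : I} {r : ℕ}

/-! ### Charts -/

/-- the pivot rows are independent -/
theorem Base.indep {Ω : Type} [Field Ω] (hS : Adm p S) {u : Matrix I J Ω} {v : π → I → Ω}
    {z : Pnt Ω π I J} (hz : Base r p S u v z) : LinearIndependent Ω fun l => z.P (p l) := by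
  rw [Fintype.linearIndependent_iff]
  intro c hc
  have h1 : ∀ l₀, ∑ l, c l * z.q l₀ (p l) = 0 := by
    intro l₀
    obtain ⟨y, hy⟩ := hz.mem l₀
    have h2 : ∀ l, z.q l₀ (p l) = ∑ j, z.P (p l) j * y j := fun l => by
      rw [← hy]
      rfl
    have h3 : ∀ j, ∑ l, c l * z.P (p l) j = 0 := by
      intro j
      have h4 := congrFun hc j
      rw [Finset.sum_apply] at h4
      exact h4
    calc ∑ l, c l * z.q l₀ (p l) = ∑ l, ∑ j, c l * z.P (p l) j * y j := by
          refine Finset.sum_congr rfl fun l _ => ?_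
          rw [h2, Finset.mul_sum]
          exact Finset.sum_congr rfl fun j _ => (mul_assoc _ _ _).symm
      _ = ∑ j, (∑ l, c l * z.P (p l) j) * y j := by
          rw [Finset.sum_comm]
          exact Finset.sum_congr rfl fun j _ => (Finset.sum_mul _ _ _).symm
      _ = 0 := Finset.sum_eq_zero fun j _ => by rw [h3 j, zero_mul]
  intro l
  induction l using (wellFounded_gt (α := π)).induction with
  | _ l ih =>
    have h2 := h1 l
    rw [Finset.sum_eq_single l] at h2
    · rwa [hz.one, mul_one] at h2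
    · intro l' _ hne
      rcases lt_or_gt_of_ne hne with h | h
      · rw [hz.zero l _ (hS.notMem l l' h), mul_zero]
      · rw [ih l' h, zero_mul]
    · intro h
      exact absurd (Finset.mem_univ l) h

/-- Row TBR: a chart with a non-zero minor (basis of the rows containing the pivots) -/
theorem exists_rows {Ω : Type} [Field Ω] (hS : Adm p S) (hk : Fintype.card π ≤ r)
    (hrI : r ≤ Fintype.card I) (u : Matrix I J Ω) (v : π → I → Ω) (z : Pnt Ω π I J)
    (hz : Base r p S u v z) :
    ∃ (E : I ≃ Rw π (Fin (r - Fintype.card π)) (Fin (Fintype.card I - r)))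
      (g : π ⊕ Fin (r - Fintype.card π) → J), (∀ l, E (p l) = Sum.inl l) ∧
      (z.P.submatrix (fun k => E.symm (Sum.map id Sum.inl k)) g).det ≠ 0 := by
  have h0 : LinearIndepOn Ω (fun i => z.P i) (Set.range p) :=
    (linearIndepOn_range_iff hS.inj _).2 (Base.indep hS hz)
  obtain ⟨b, hb, hli, -, hcard⟩ := exists_basis_rows z.P (Set.range p) h0
  classical
  rw [hz.rk, ← Nat.card_coe_set_eq, Nat.card_eq_fintype_card] at hcard
  obtain ⟨E1, hE1⟩ := exists_sum_equiv (β := Fin (r - Fintype.card π))
    (fun l : π => (⟨p l, hb ⟨l, rfl⟩⟩ : b)) (fun l l' h => hS.inj (congrArg Subtype.val h))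
    (by rw [hcard, Fintype.card_fin]; omega)
  let a : π ⊕ Fin (r - Fintype.card π) → I := fun k => (E1 k : I)
  have ha : Function.Injective a := fun k k' h => E1.injective (Subtype.ext h)
  obtain ⟨E2, hE2⟩ := exists_sum_equiv (β := Fin (Fintype.card I - r)) a ha
    (by rw [Fintype.card_sum, Fintype.card_fin, Fintype.card_fin]; omega)
  let E : I ≃ Rw π (Fin (r - Fintype.card π)) (Fin (Fintype.card I - r)) :=
    E2.symm.trans (Equiv.sumAssoc _ _ _)
  have hE : ∀ k, E.symm (Sum.map id Sum.inl k) = a k := by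
    intro k
    rw [← hE2 k]
    show E2 ((Equiv.sumAssoc _ _ _).symm (Sum.map id Sum.inl k)) = E2 (Sum.inl k)
    rcases k with k | k <;> rfl
  have h1 : (z.P.submatrix a id).rank = Fintype.card (π ⊕ Fin (r - Fintype.card π)) :=
    rank_of_rows z.P a (hli.comp E1 E1.injective)
  obtain ⟨g, hg⟩ := exists_cols _ h1
  refine ⟨E, g, fun l => ?_, ?_⟩
  · rw [← Equiv.eq_symm_apply]
    have h2 := hE (Sum.inl l)
    have h3 : a (Sum.inl l) = p l := by
      show (E1 (Sum.inl l) : I) = p l
      rw [hE1]
    rw [h3] at h2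
    exact h2.symm
  · have h2 : (fun k => E.symm (Sum.map id Sum.inl k)) = a := funext hE
    rw [h2]
    exact hg

/-! ### Reindexing of the rows -/

theorem Base.rows' {Ω I' : Type} [Field Ω] [Fintype I'] [DecidableEq I'] (E : I ≃ I')
    {u : Matrix I J Ω} {v : π → I → Ω} {z : Pnt Ω π I J} (hz : Base r p S u v z) :
    Base r (fun l => E (p l)) (fun l => (S l).map E.toEmbedding) (u.submatrix E.symm id)
      (fun l i => v l (E.symm i)) (z.rows E) := by
  have hmem : ∀ (s : Finset I) (i : I'), i ∈ s.map E.toEmbedding ↔ E.symm i ∈ s := by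
    intro s i
    rw [Finset.mem_map_equiv]
  refine ⟨?_, ?_, ?_, ?_, ?_, ?_, ?_⟩
  · rw [← hz.rk]
    exact Matrix.rank_submatrix z.P E.symm (Equiv.refl J)
  · have h := Matrix.submatrix_mul_equiv z.Pᵀ z.G id E.symm id
    rw [hz.orth] at h
    show (z.P.submatrix E.symm id)ᵀ * z.G.submatrix E.symm id = 0
    rw [Matrix.transpose_submatrix, h]
    rfl
  · intro l
    obtain ⟨y, hy⟩ := hz.mem l
    refine ⟨y, ?_⟩
    funext i
    exact congrFun hy (E.symm i)
  · intro i j
    exact hz.eq (E.symm i) j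
  · intro l
    show z.q l (E.symm (E (p l))) = 1
    rw [Equiv.symm_apply_apply, hz.one]
  · intro l i hi
    rw [hmem] at hi
    exact hz.zero l _ hi
  · intro l i hi hne
    rw [hmem] at hi
    refine hz.vq l _ hi fun h => hne ?_
    rw [← h, Equiv.apply_symm_apply]

/-- Row TBR: reindexing the rows -/
theorem SysQ.rows' {Ω I' : Type} [Field Ω] [Fintype I'] [DecidableEq I'] (E : I ≃ I') {c : Ω}
    {u : Matrix I J Ω} {v : π → I → Ω} {w : I → Ω} {z : Qnt Ω π I J}
    (hz : SysQ c r p S T i₀ u v w z) :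
    SysQ c r (fun l => E (p l)) (fun l => (S l).map E.toEmbedding) (T.map E.toEmbedding) (E i₀)
      (u.submatrix E.symm id) (fun l i => v l (E.symm i)) (fun i => w (E.symm i)) (z.rows E) := by
  have hmem : ∀ (s : Finset I) (i : I'), i ∈ s.map E.toEmbedding ↔ E.symm i ∈ s := by
    intro s i
    rw [Finset.mem_map_equiv]
  refine ⟨hz.toBase.rows' E, ?_, ?_, ?_, ?_, ?_, ?_⟩
  · ext i j
    have h := congrFun (congrFun hz.cr (E.symm i)) (E.symm j)
    rw [Matrix.add_apply, Matrix.sum_apply] at h ⊢
    exact h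
  · obtain ⟨y, hy⟩ := hz.mem'
    refine ⟨y, ?_⟩
    funext i
    exact congrFun hy (E.symm i)
  · funext j
    have h := congrFun hz.perp' j
    rw [← h]
    exact Equiv.sum_comp E.symm (fun i => z.P i j * z.b i)
  · show z.a (E.symm (E i₀)) = 1
    rw [Equiv.symm_apply_apply, hz.one']
  · intro i hi
    rw [hmem] at hi
    exact hz.zero' _ hi
  · intro i hi hne
    rw [hmem] at hi
    refine hz.vq' _ hi fun h => hne ?_
    rw [← h, Equiv.apply_symm_apply]

/-! ### Field homomorphisms -/

theorem Base.map' {Ω Ω' : Type} [Field Ω] [Field Ω'] (f : Ω →+* Ω')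
    {u : Matrix I J Ω} {v : π → I → Ω} {z : Pnt Ω π I J} :
    Base r p S u v z ↔ Base r p S (u.map f) (fun l i => f (v l i)) (z.map f) := by
  have horth : z.Pᵀ * z.G = 0 ↔ (z.P.map f)ᵀ * z.G.map f = 0 := by
    have h : (z.P.map f)ᵀ * z.G.map f = (z.Pᵀ * z.G).map f := by
      rw [Matrix.map_mul]
      rfl
    rw [h]
    constructor
    · intro h1
      rw [h1]
      ext i j
      exact map_zero f
    · intro h1
      refine (matrix_map_inj f).1 ?_
      rw [h1]
      ext i j
      exact (map_zero f).symm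
  constructor
  · intro hz
    refine ⟨?_, horth.1 hz.orth, ?_, ?_, ?_, ?_, ?_⟩
    · show (z.P.map f).rank = r
      rw [rank_map_field, hz.rk]
    · intro l
      exact (solve_map f z.P (z.q l)).2 (hz.mem l)
    · intro i j
      have h := congrArg f (hz.eq i j)
      rw [map_mul, map_add, map_one] at h
      exact h
    · intro l
      show f (z.q l (p l)) = 1
      rw [hz.one, map_one]
    · intro l i hi
      show f (z.q l i) = 0
      rw [hz.zero l i hi, map_zero]
    · intro l i hi hne
      show f (z.q l i) * f (z.h l i) = -f (v l i)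
      rw [← map_mul, hz.vq l i hi hne, map_neg]
  · intro hz
    refine ⟨?_, horth.2 hz.orth, ?_, ?_, ?_, ?_, ?_⟩
    · rw [← rank_map_field f]
      exact hz.rk
    · intro l
      exact (solve_map f z.P (z.q l)).1 (hz.mem l)
    · intro i j
      refine f.injective ?_
      rw [map_mul, map_add, map_one]
      exact hz.eq i j
    · intro l
      refine f.injective ?_
      rw [map_one]
      exact hz.one l
    · intro l i hi
      refine f.injective ?_
      rw [map_zero]
      exact hz.zero l i hi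
    · intro l i hi hne
      refine f.injective ?_
      rw [map_mul, map_neg]
      exact hz.vq l i hi hne

theorem map_sum_vec {Ω Ω' : Type} [Field Ω] [Field Ω'] (f : Ω →+* Ω') (z : Pnt Ω π I J) (i j : I) :
    f ((∑ l, Matrix.vecMulVec (z.q l) (z.h l)) i j) =
      (∑ l, Matrix.vecMulVec ((z.map f).q l) ((z.map f).h l)) i j := by
  rw [Matrix.sum_apply, Matrix.sum_apply, map_sum]
  exact Finset.sum_congr rfl fun l _ => map_mul f _ _

theorem map_mul_vec {Ω Ω' : Type} [Field Ω] [Field Ω'] (f : Ω →+* Ω') (z : Pnt Ω π I J) (i j : I) :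
    f ((z.P * z.Gᵀ) i j) = ((z.map f).P * (z.map f).Gᵀ) i j := by
  rw [Matrix.mul_apply, Matrix.mul_apply, map_sum]
  exact Finset.sum_congr rfl fun l _ => map_mul f _ _

theorem Sys.map' {Ω Ω' : Type} [Field Ω] [Field Ω'] (f : Ω →+* Ω')
    {u : Matrix I J Ω} {v : π → I → Ω} {z : Pnt Ω π I J} :
    Sys r p S u v z ↔ Sys r p S (u.map f) (fun l i => f (v l i)) (z.map f) := by
  constructor
  · intro hz
    refine ⟨(Base.map' f).1 hz.toBase, ?_⟩
    ext i j
    rw [← map_sum_vec, ← map_mul_vec, hz.cr]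
  · intro hz
    refine ⟨(Base.map' f).2 hz.toBase, ?_⟩
    ext i j
    refine f.injective ?_
    rw [map_sum_vec, map_mul_vec, hz.cr]

/-- Row TBR: field homomorphisms -/
theorem SysQ.map' {Ω Ω' : Type} [Field Ω] [Field Ω'] (f : Ω →+* Ω') {c : Ω}
    {u : Matrix I J Ω} {v : π → I → Ω} {w : I → Ω} {z : Qnt Ω π I J} :
    SysQ c r p S T i₀ u v w z ↔
    SysQ (f c) r p S T i₀ (u.map f) (fun l i => f (v l i)) (fun i => f (w i)) (z.map f) := by
  have hcr : ∀ i j, f ((∑ l, Matrix.vecMulVec (z.q l) (z.h l) + c • Matrix.vecMulVec z.a z.b) i j) =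
      (∑ l, Matrix.vecMulVec ((z.map f).q l) ((z.map f).h l) +
        f c • Matrix.vecMulVec (z.map f).a (z.map f).b) i j := by
    intro i j
    rw [Matrix.add_apply, Matrix.add_apply, map_add, map_sum_vec]
    congr 1
    show f (c * (z.a i * z.b j)) = f c * (f (z.a i) * f (z.b j))
    rw [map_mul, map_mul]
  have hperp : ∀ j, f ((z.Pᵀ *ᵥ z.b) j) = ((z.map f).Pᵀ *ᵥ (z.map f).b) j := by
    intro j
    show f (∑ i, z.P i j * z.b i) = ∑ i, f (z.P i j) * f (z.b i)
    rw [map_sum]
    exact Finset.sum_congr rfl fun l _ => map_mul f _ _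
  constructor
  · intro hz
    refine ⟨(Base.map' f).1 hz.toBase, ?_, ?_, ?_, ?_, ?_, ?_⟩
    · ext i j
      rw [← hcr, ← hz.cr]
      exact (map_mul_vec f z.toPnt i j).symm
    · exact (solve_map f z.P z.a).2 hz.mem'
    · funext j
      rw [← hperp, hz.perp']
      exact map_zero f
    · show f (z.a i₀) = 1
      rw [hz.one', map_one]
    · intro i hi
      show f (z.a i) = 0
      rw [hz.zero' i hi, map_zero]
    · intro i hi hne
      show f (z.a i) * f (z.b i) = -f (w i)
      rw [← map_mul, hz.vq' i hi hne, map_neg]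
  · intro hz
    refine ⟨(Base.map' f).2 hz.toBase, ?_, ?_, ?_, ?_, ?_, ?_⟩
    · ext i j
      refine f.injective ?_
      rw [hcr, ← hz.cr]
      exact map_mul_vec f z.toPnt i j
    · exact (solve_map f z.P z.a).1 hz.mem'
    · funext j
      refine f.injective ?_
      rw [hperp, hz.perp']
      exact (map_zero f).symm
    · refine f.injective ?_
      rw [map_one]
      exact hz.one'
    · intro i hi
      refine f.injective ?_
      rw [map_zero]
      exact hz.zero' i hi
    · intro i hi hne
      refine f.injective ?_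
      rw [map_mul, map_neg]
      exact hz.vq' i hi hne

theorem SysA.map' {Ω Ω' : Type} [Field Ω] [Field Ω'] (f : Ω →+* Ω')
    {u : Matrix I J Ω} {v : π → I → Ω} {z : Qnt Ω π I J} :
    SysA r p S T i₀ u v z ↔ SysA r p S T i₀ (u.map f) (fun l i => f (v l i)) (z.map f) := by
  have h0 : (fun i => f ((0 : I → Ω) i)) = (0 : I → Ω') := by
    funext i
    exact map_zero f
  constructor
  · intro hz
    have h1 := (SysQ.map' f).1 hz.toSysQ
    rw [map_one, h0] at h1
    exact ⟨h1, fun i hi => (map_ne_zero f).2 (hz.suppa i hi),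
      fun i hi hi' => (map_ne_zero f).2 (hz.suppb i hi hi')⟩
  · intro hz
    have h1 := hz.toSysQ
    rw [← map_one f, ← h0] at h1
    exact ⟨(SysQ.map' f).2 h1, fun i hi => (map_ne_zero f).1 (hz.suppa i hi),
      fun i hi hi' => (map_ne_zero f).1 (hz.suppb i hi hi')⟩

/-! ### The normalisation -/

theorem SysQ.sum_ab {Ω : Type} [Field Ω] {c : Ω} {u : Matrix I J Ω} {v : π → I → Ω} {w : I → Ω}
    {z : Qnt Ω π I J} (hz : SysQ c r p S T i₀ u v w z) : ∑ i ∈ T, z.a i * z.b i = 0 := by
  obtain ⟨y, hy⟩ := hz.mem'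
  have h1 : ∑ i, z.a i * z.b i = 0 := by
    calc ∑ i, z.a i * z.b i = ∑ i, ∑ j, z.P i j * y j * z.b i := by
          refine Finset.sum_congr rfl fun i _ => ?_
          rw [← hy, Matrix.mulVec, dotProduct, Finset.sum_mul]
      _ = ∑ j, y j * ∑ i, z.P i j * z.b i := by
          rw [Finset.sum_comm]
          refine Finset.sum_congr rfl fun j _ => ?_
          rw [Finset.mul_sum]
          exact Finset.sum_congr rfl fun i _ => by ring
      _ = 0 := Finset.sum_eq_zero fun j _ => by
          have h2 : ∑ i, z.P i j * z.b i = 0 := congrFun hz.perp' j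
          rw [h2, mul_zero]
  rw [← h1]
  refine Finset.sum_subset (Finset.subset_univ T) fun i _ hi => ?_
  rw [hz.zero' i hi, zero_mul]

/-- Row TBR: the equation at the normalised row, and a change of the normalisation -/
theorem SysQ.vq_all {Ω : Type} [Field Ω] {c : Ω} {u : Matrix I J Ω} {v : π → I → Ω} {w : I → Ω}
    {z : Qnt Ω π I J} (hz : SysQ c r p S T i₀ u v w z) (hi₀ : i₀ ∈ T) (i : I) (hi : i ∈ T) :
    z.a i * z.b i = - wz T i₀ w i := by
  by_cases h : i = i₀
  · subst h
    have h1 := hz.sum_ab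
    rw [← Finset.add_sum_erase T _ hi] at h1
    have h2 : ∑ j ∈ T.erase i, z.a j * z.b j = -∑ j ∈ T.erase i, w j := by
      rw [← Finset.sum_neg_distrib]
      refine Finset.sum_congr rfl fun j hj => ?_
      exact hz.vq' j (Finset.mem_of_mem_erase hj) (Finset.ne_of_mem_erase hj)
    rw [h2] at h1
    rw [wz, if_pos rfl]
    linear_combination h1
  · rw [wz, if_neg h]
    exact hz.vq' i hi h

theorem SysQ.renorm {Ω : Type} [Field Ω] {c : Ω} {u : Matrix I J Ω} {v : π → I → Ω} {w : I → Ω}
    {z : Qnt Ω π I J} (hz : SysQ c r p S T i₀ u v w z) (hi₀ : i₀ ∈ T) (i₁ : I) (hi₁ : i₁ ∈ T)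
    (h1 : z.a i₁ ≠ 0) :
    SysQ c r p S T i₁ u v (wz T i₀ w) (z.scale (z.a i₁)⁻¹ (z.a i₁)) := by
  have hab : ∀ i j, (z.a i₁)⁻¹ * z.a i * (z.a i₁ * z.b j) = z.a i * z.b j := by
    intro i j
    field_simp
  refine ⟨hz.toBase, ?_, ?_, ?_, ?_, ?_, ?_⟩
  · have h2 : Matrix.vecMulVec (z.scale (z.a i₁)⁻¹ (z.a i₁)).a (z.scale (z.a i₁)⁻¹ (z.a i₁)).b =
        Matrix.vecMulVec z.a z.b := by
      ext i j
      exact hab i j
    rw [h2]
    exact hz.cr
  · obtain ⟨y, hy⟩ := hz.mem'
    refine ⟨(z.a i₁)⁻¹ • y, ?_⟩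
    show z.P *ᵥ ((z.a i₁)⁻¹ • y) = fun i => (z.a i₁)⁻¹ * z.a i
    rw [Matrix.mulVec_smul, hy]
    rfl
  · show z.Pᵀ *ᵥ (z.a i₁ • z.b) = 0
    rw [Matrix.mulVec_smul, hz.perp', smul_zero]
  · show (z.a i₁)⁻¹ * z.a i₁ = 1
    exact inv_mul_cancel₀ h1
  · intro i hi
    show (z.a i₁)⁻¹ * z.a i = 0
    rw [hz.zero' i hi, mul_zero]
  · intro i hi _
    show (z.a i₁)⁻¹ * z.a i * (z.a i₁ * z.b i) = - wz T i₀ w i
    rw [hab, hz.vq_all hi₀ i hi]

end Pool.EU.TB
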