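import Pool.Agent.EU.TBC
import Pool.Agent.EU.TB0
import Pool.Agent.EU.TB3
import Pool.Agent.EU.TBR
import Pool.Agent.EU.IntCore

/-!
# Integral coordinates of a Laurent series solution
-/

set_option autoImplicit false
set_option linter.unusedSectionVars false

namespace Pool.EU.TB

open Matrix Pool.ML CAux

section row4

variable {π I J : Type} [Fintype π] [Fintype I] [Fintype J] [LinearOrder π] [DecidableEq I]
  [DecidableEq J] {p : π → I} {S : π → Finset I} {T : Finset I} {i₀ : I} {r : ℕ}

theorem CAux.SysQ.congrw {Ω : Type} [Field Ω] {c : Ω} {u : Matrix I J Ω} {v : π → I → Ω}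
    {w w' : I → Ω} {z : Qnt Ω π I J} (hz : SysQ c r p S T i₀ u v w z) (h : ∀ i ∈ T, w i = w' i) :
    SysQ c r p S T i₀ u v w' z where
  toBase := hz.toBase
  cr := hz.cr
  mem' := hz.mem'
  perp' := hz.perp'
  one' := hz.one'
  zero' := hz.zero'
  vq' := fun i hi hne => by rw [← h i hi]; exact hz.vq' i hi hne

theorem CAux.wz_mul {R : Type} [CommRing R] {R' : Type} [CommRing R'] (f : R →+* R') (T : Finset I)
    (i₀ : I) (e : R') (w : I → R) :
    wz T i₀ (fun i => e * f (w i)) = fun i => e * f (wz T i₀ w i) := by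
  funext i
  unfold wz
  split_ifs
  · rw [map_neg, map_sum, ← Finset.mul_sum]
    ring
  · rfl

theorem CAux.adm_map (hS : Adm p S) {I' : Type} [Fintype I'] [DecidableEq I'] (E : I ≃ I') :
    Adm (fun l => E (p l)) (fun l => (S l).map E.toEmbedding) where
  inj := E.injective.comp hS.inj
  mem := fun l => Finset.mem_map.mpr ⟨p l, hS.mem l, rfl⟩
  notMem := fun l l' h h2 => by
    obtain ⟨i, hi, he⟩ := Finset.mem_map.mp h2
    exact hS.notMem l l' h (by rw [← E.injective he]; exact hi)

/-- Row TB4: a Laurent series solution has integral coordinates in some chart after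
scaling (data: `u`, `v` constant, exponents `e w` of `a`) -/
theorem tb4 {K : Type} [Field K] [Algebra K ℂ] (h : Shape p S T i₀ r J) (e : PowerSeries K)
    (u : Matrix I J K) (v : π → I → K) (w : I → K)
    (hg : Gen0 p S (u.map (algebraMap K ℂ)) (fun l i => algebraMap K ℂ (v l i)))
    (z : Qnt (LaurentSeries K) π I J)
    (hz : SysQ 1 r p S T i₀ (u.map HahnSeries.C) (fun l i => HahnSeries.C (v l i))
      (fun i => ofPS e * HahnSeries.C (w i)) z) (he : PowerSeries.constantCoeff e = 0) :
    ∃ (E : I ≃ Rw π (Fin (r - Fintype.card π)) (Fin (Fintype.card I - r))) (i₁ : I) (c : LaurentSeries K)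
      (x : Var (fun l => (S l).map E.toEmbedding) J → PowerSeries K),
      (∀ l, E (p l) = Sum.inl l) ∧ i₁ ∈ T ∧ c ≠ 0 ∧
      toQ (fun y => ofPS (x y)) = (z.scale c c⁻¹).rows E ∧
      ∃ i₂, E i₁ = Sum.inr i₂ ∧
        ev 1 (Finset.univ.filter fun i => E.symm (Sum.inr i) ∈ T) i₂ x =
          dat (Finset.univ.filter fun i => E.symm (Sum.inr i) ∈ T) i₂
            (Matrix.of fun i j => PowerSeries.C (u (E.symm i) j))
            (fun l i => PowerSeries.C (v l (E.symm i)))
            (fun i => e * PowerSeries.C (wz T i₀ w (E.symm (Sum.inr i)))) := by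
  classical
  obtain ⟨hPo, hqo⟩ := tb3 h e he u v w hg z hz
  have hlt := h.lt
  have hltI := h.ltI
  -- integrality of `P`, `G`, `q`
  have hPi : ∀ i j, ∃ s : PowerSeries K, ofPS s = z.P i j := fun i j =>
    exists_ofPS_of_order _ (hPo i j).2.ge
  choose P1 hP1 using hPi
  have hqi : ∀ l i, ∃ s : PowerSeries K, ofPS s = z.q l i := by
    intro l i
    by_cases hi : i ∈ S l
    · exact exists_ofPS_of_order _ (hqo l i hi).2.ge
    · exact ⟨0, by rw [hz.zero l i hi, map_zero]⟩
  choose q1 hq1 using hqi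
  have hGi : ∀ i j, ∃ s : PowerSeries K, ofPS s = z.G i j := by
    intro i j
    have h1 := hz.eq i j
    have h2 := (hPo i j).1
    have h3 : z.G i j = HahnSeries.C (u i j) / z.P i j - 1 := by
      have h4 : z.P i j * (1 + z.G i j) = HahnSeries.C (u i j) := h1
      rw [← h4, mul_div_cancel_left₀ _ h2]
      ring
    have h5 : 0 ≤ (HahnSeries.C (u i j) / z.P i j : LaurentSeries K).order := by
      by_cases hu : u i j = 0
      · rw [hu, map_zero, zero_div, HahnSeries.order_zero]
      · have hC : (HahnSeries.C (u i j) : LaurentSeries K) ≠ 0 := by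
          rw [Ne, map_eq_zero_iff _ HahnSeries.C_injective]
          exact hu
        have h6 : (HahnSeries.C (u i j) / z.P i j : LaurentSeries K) ≠ 0 := div_ne_zero hC h2
        have h7 := HahnSeries.order_mul h6 h2
        rw [div_mul_cancel₀ _ h2, HahnSeries.order_C, (hPo i j).2, add_zero] at h7
        exact h7.le
    obtain ⟨s, hs⟩ := exists_ofPS_of_order _ h5
    exact ⟨s - 1, by rw [map_sub, hs, map_one, h3]⟩
  choose G1 hG1 using hGi
  -- the pivots first
  obtain ⟨ι, _, _, e0, hι, he0⟩ : ∃ (ι : Type) (_ : Fintype ι) (_ : DecidableEq ι)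
      (e0 : π ⊕ ι ≃ I), Fintype.card ι = Fintype.card I - Fintype.card π ∧
        ∀ k, e0 (Sum.inl k) = p k := by
    obtain ⟨e0, he0⟩ := exists_equiv_extend (σ := Fin (Fintype.card I - Fintype.card π)) p
      h.adm.inj (by rw [Fintype.card_fin]; omega)
    exact ⟨_, inferInstance, inferInstance, e0, Fintype.card_fin _, he0⟩
  set P0 : Matrix (π ⊕ ι) J (PowerSeries K) := Matrix.of fun i j => P1 (e0 i) j with hP0
  set G0 : Matrix (π ⊕ ι) J (PowerSeries K) := Matrix.of fun i j => G1 (e0 i) j with hG0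
  set Q0 : Matrix (π ⊕ ι) π (PowerSeries K) := Matrix.of fun i l => q1 l (e0 i) with hQ0
  have hP0m : P0.map (io K) = z.P.submatrix e0 id := by
    ext1 i j
    exact hP1 (e0 i) j
  have hG0m : G0.map (io K) = z.G.submatrix e0 id := by
    ext1 i j
    exact hG1 (e0 i) j
  have hQ0m : Q0.map (io K) = Matrix.of fun i l => z.q l (e0 i) := by
    ext1 i l
    exact hq1 l (e0 i)
  have hdet : (Q0.submatrix Sum.inl id).det = 1 := by
    rw [Matrix.det_of_isLowerTriangular]
    · refine Finset.prod_eq_one fun l _ => ?_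
      apply ofPS_injective
      rw [Matrix.submatrix_apply, id, hQ0, Matrix.of_apply, hq1, he0, hz.one, map_one]
    · intro a b hab
      have hab' : a < b := hab
      apply ofPS_injective
      rw [Matrix.submatrix_apply, id, hQ0, Matrix.of_apply, hq1, he0,
        hz.zero b _ (h.adm.notMem b a hab'), map_zero]
  choose y hy using hz.mem
  have hcol := int_col (ρ := Fin (r - Fintype.card π)) (σ := Fin (Fintype.card I - r)) P0 Q0
    (Matrix.of fun j l => y l j) (by rw [hdet]; exact isUnit_one) (by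
      rw [hQ0m, hP0m]
      ext1 i l
      have := congrFun (hy l) (e0 i)
      exact this.symm) (by
      rw [hP0m]
      have h3 : z.P.submatrix e0 id = z.P.submatrix e0 (Equiv.refl J) := rfl
      rw [h3, Matrix.rank_submatrix, hz.rk, Fintype.card_fin]
      omega) (by rw [hι]; simp only [Fintype.card_fin]; omega)
  obtain ⟨e1, A, Y1, M, hPM, hMA, -⟩ := hcol
  -- integrality of `a bᵀ`
  have haT : ∀ l, z.a (p l) = 0 := by
    intro l
    refine hz.zero' _ fun h2 => h.nmem _ h2 ⟨l, rfl⟩
  have hphi := int_phi P0 G0 Q0 (Matrix.of fun i l => z.h l (e0 i))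
    (Matrix.vecMulVec (fun i => z.a (e0 i)) (fun i => z.b (e0 i))) (by rw [hdet]; exact isUnit_one)
    (by
      rw [hP0m, hG0m, hQ0m]
      ext i j
      have h1 := congrFun (congrFun hz.cr (e0 i)) (e0 j)
      rw [Matrix.mul_apply] at h1
      rw [Matrix.mul_apply, Matrix.add_apply, Matrix.mul_apply]
      simp only [Matrix.submatrix_apply, id, Matrix.transpose_apply] at h1 ⊢
      rw [h1]
      simp [Matrix.add_apply, Matrix.sum_apply, Matrix.vecMulVec_apply]) (by
      intro i j
      rw [Matrix.vecMulVec_apply, he0, haT, zero_mul]) Y1 M hPM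
  have hab : ∀ i j, ∃ s : PowerSeries K, io K s = z.a i * z.b j := by
    intro i j
    have h1 := congrFun (congrFun hphi.2 (e0.symm i)) (e0.symm j)
    rw [Matrix.vecMulVec_apply, e0.apply_symm_apply, e0.apply_symm_apply, Matrix.map_apply] at h1
    exact ⟨_, h1.symm⟩
  have ha0 : z.a ≠ 0 := by
    intro h1
    have h2 := hz.one'
    rw [h1] at h2
    exact zero_ne_one h2
  obtain ⟨i₁, a1, b1, hai, ha1, hb1, -⟩ := exists_scale z.a z.b hab ha0
  have hi₁ : i₁ ∈ T := by
    by_contra h1
    exact hai (hz.zero' _ h1)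
  -- the chart
  set E : I ≃ Rw π (Fin (r - Fintype.card π)) (Fin (Fintype.card I - r)) :=
    e0.symm.trans (Equiv.sumCongr (Equiv.refl π) e1.symm) with hE
  have hEl : ∀ l, E.symm (Sum.inl l) = p l := by
    intro l
    rw [hE]
    exact he0 l
  have hEr : ∀ i, E.symm (Sum.inr i) = e0 (Sum.inr (e1 i)) := fun i => rfl
  have hEp : ∀ l, E (p l) = Sum.inl l := by
    intro l
    rw [← hEl, E.apply_symm_apply]
  obtain ⟨i₂, hi₂⟩ : ∃ i₂, E i₁ = Sum.inr i₂ := by
    rcases h1 : E i₁ with l | i
    · exfalso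
      refine h.nmem _ hi₁ ⟨l, ?_⟩
      rw [← hEl, ← h1, E.symm_apply_apply]
    · exact ⟨i, rfl⟩
  set T' : Finset (Fin (r - Fintype.card π) ⊕ Fin (Fintype.card I - r)) :=
    Finset.univ.filter fun i => E.symm (Sum.inr i) ∈ T with hT'
  have hTm : T.map E.toEmbedding = T'.map Function.Embedding.inr := by
    ext i
    simp only [Finset.mem_map, hT', Finset.mem_filter, Finset.mem_univ, true_and,
      Equiv.coe_toEmbedding, Function.Embedding.inr_apply]
    constructor
    · rintro ⟨k, hk, rfl⟩
      rcases h1 : E k with l | i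
      · exfalso
        refine h.nmem _ hk ⟨l, ?_⟩
        rw [← hEl, ← h1, E.symm_apply_apply]
      · exact ⟨i, by rw [← h1, E.symm_apply_apply]; exact hk, rfl⟩
    · rintro ⟨k, hk, rfl⟩
      exact ⟨_, hk, E.apply_symm_apply _⟩
  have hcard : Fintype.card π + Fintype.card (Fin (r - Fintype.card π)) = r := by
    rw [Fintype.card_fin]
    omega
  -- the equations at the new point
  have hz1 := SysQ.rows' E (hz.renorm h.mem i₁ hi₁ hai)
  have hpE : (fun l => E (p l)) = Sum.inl := funext hEp
  rw [hpE, hTm, hi₂, CAux.wz_mul] at hz1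
  have hz2 := CAux.SysQ.congrw (w' := wr fun i => ofPS e * HahnSeries.C
    (wz T i₀ w (E.symm (Sum.inr i)))) hz1 (by
      intro i hi
      obtain ⟨k, -, rfl⟩ := Finset.mem_map.mp hi
      rfl)
  have hadm : Adm Sum.inl (fun l => (S l).map E.toEmbedding) := by
    have := CAux.adm_map h.adm E
    rwa [hpE] at this
  let x : Var (fun l => (S l).map E.toEmbedding) J → PowerSeries K :=
    Sum.elim (fun y => q1 y.1.1 (E.symm y.1.2)) (Sum.elim (fun y => A y.1 y.2)
      (Sum.elim (fun y => Sum.elim (fun l => Y1 l y.2) (fun k => M (e1 (Sum.inl k)) y.2) y.1)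
        (Sum.elim (fun y => G1 (E.symm y.1) y.2)
          (Sum.elim (fun i => a1 (E.symm (Sum.inr i))) (fun i => b1 (E.symm i))))))
  let X : Var (fun l => (S l).map E.toEmbedding) J → LaurentSeries K := fun y => ofPS (x y)
  have hfr : fr X = fun l i => z.q l (E.symm i) := by
    apply fr_eq hadm X
    · intro l
      rw [hEl, hz.one]
    · intro l i hi
      refine hz.zero l _ fun h1 => hi ?_
      exact Finset.mem_map.mpr ⟨_, h1, E.apply_symm_apply i⟩
    · intro y
      exact hq1 _ _
  have hXY : XX X * Matrix.of (xY X) = ((z.scale (z.a i₁)⁻¹ (z.a i₁)).rows E).P := by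
    ext1 i j
    rw [XX_mul_apply]
    simp only [hfr]
    change _ = z.P (E.symm i) j
    have h1 : z.P (E.symm i) j = ofPS (P0 (e0.symm (E.symm i)) j) := by
      rw [hP0, Matrix.of_apply, e0.apply_symm_apply, hP1]
    have h2 : ∀ l, z.q l (E.symm i) = ofPS (Q0 (e0.symm (E.symm i)) l) := by
      intro l
      rw [hQ0, Matrix.of_apply, e0.apply_symm_apply, hq1]
    rw [h1, hPM, Matrix.add_apply, map_add, Matrix.mul_apply, map_sum]
    congr 1
    · refine Finset.sum_congr rfl fun l _ => ?_
      rw [h2, map_mul]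
      rfl
    · rcases i with l | k | s
      · rw [hEl, ← he0, e0.symm_apply_apply, Matrix.fromRows_apply_inl, Matrix.zero_apply,
          map_zero]
        rfl
      · rw [hEr, e0.symm_apply_apply, Matrix.fromRows_apply_inr]
        rfl
      · rw [hEr, e0.symm_apply_apply, Matrix.fromRows_apply_inr]
        have h3 := congrFun (congrFun hMA (Sum.inr s)) j
        rw [Matrix.submatrix_apply, id] at h3
        rw [h3, Matrix.mul_apply, map_sum]
        simp only [Sum.elim_inr]
        refine Finset.sum_congr rfl fun k _ => ?_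
        rw [map_mul]
        rfl
  have hfin := chart_eqs hadm 1 T' i₂ _ _ (fun i => ofPS e * HahnSeries.C
    (wz T i₀ w (E.symm (Sum.inr i)))) ((z.scale (z.a i₁)⁻¹ (z.a i₁)).rows E)
    (by rw [hcard]; exact hz2) X (fun y => hq1 _ _) (by
      ext1 i j
      exact hG1 _ _) (fun i => by
      change ofPS (a1 (E.symm (Sum.inr i))) = (z.a i₁)⁻¹ * z.a (E.symm (Sum.inr i))
      exact ha1 _) (by
      funext i
      change ofPS (b1 (E.symm i)) = z.a i₁ * z.b (E.symm i)
      exact hb1 _) hXY
  refine ⟨E, i₁, (z.a i₁)⁻¹, x, hEp, hi₁, inv_ne_zero hai, ?_, i₂, hi₂, ?_⟩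
  · rw [inv_inv]
    exact hfin.1
  · funext n
    apply ofPS_injective
    rw [← ev_map ofPS 1 T' i₂ x n, map_one]
    refine (congrFun hfin.2 n).trans ?_
    rcases n with ⟨k, j⟩ | k | s | ⟨k, s⟩ | ⟨i, j⟩ | y | i
    · exact (map_zero _).symm
    · exact (map_zero _).symm
    · exact (map_zero _).symm
    · exact (map_zero _).symm
    · change HahnSeries.C (u (E.symm i) j) = ofPS (PowerSeries.C (u (E.symm i) j))
      rw [ofPS, HahnSeries.ofPowerSeries_C]
    · change - HahnSeries.C (v y.1.1 (E.symm y.1.2)) =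
        ofPS (- PowerSeries.C (v y.1.1 (E.symm y.1.2)))
      rw [map_neg, ofPS, HahnSeries.ofPowerSeries_C]
    · change (if i = i₂ then (1 : LaurentSeries K) else if i ∈ T' then
          - (ofPS e * HahnSeries.C (wz T i₀ w (E.symm (Sum.inr i)))) else 0) =
        ofPS (if i = i₂ then 1 else if i ∈ T' then
          - (e * PowerSeries.C (wz T i₀ w (E.symm (Sum.inr i)))) else 0)
      split_ifs
      · rw [map_one]
      · rw [map_neg, map_mul, ofPS, HahnSeries.ofPowerSeries_C]
      · rw [map_zero]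

end row4

end Pool.EU.TB
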