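import Pool.Agent.EU.TB5b
import Pool.Agent.EU.TB4

/-!
# Row TB5: the limits
-/

set_option autoImplicit false
set_option linter.unusedSectionVars false

namespace Pool.EU.TB

open Matrix Pool.ML

section tb5

variable {π I J : Type} [Fintype π] [Fintype I] [Fintype J] [LinearOrder π] [DecidableEq I]
  [DecidableEq J] {p : π → I} {S : π → Finset I} {T : Finset I} {i₀ : I} {r : ℕ}

/-- Row TB5: the limits -/
theorem tb5 {K : Type} [Field K] [Algebra K ℂ] (h : Shape p S T i₀ r J) (e : PowerSeries K)
    (he0 : e ≠ 0) (he : PowerSeries.constantCoeff e = 0)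
    (u : Matrix I J K) (v : π → I → K) (w : I → K)
    (hg : Gen1 p S T i₀ (u.map (algebraMap K ℂ)) (fun l i => algebraMap K ℂ (v l i))
      (fun i => algebraMap K ℂ (w i)))
    (z : Qnt (LaurentSeries K) π I J)
    (hz : SysQ 1 r p S T i₀ (u.map HahnSeries.C) (fun l i => HahnSeries.C (v l i))
      (fun i => ofPS e * HahnSeries.C (w i)) z) :
    (∃ A ⊆ T, A.Nonempty ∧ (∃ i, i ∉ A ∧ i ∉ Set.range p) ∧ ∀ i₁ ∈ A, ∃ c ≠ 0,
      ∃ ζ : Qnt K π I J, (z.scale c c⁻¹).Red ζ ∧ SysA r p S A i₁ u v ζ) ∨
    (∃ ζ : Qnt K π I J, (z.scale 1 (ofPS e)⁻¹).Red ζ ∧ SysQ 0 r p S T i₀ u v w ζ) := by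
  classical
  obtain ⟨E, i₁, c, x, hE, hi₁, hc, hx, i₂, hi₂, hev⟩ := tb4 h e u v w (gen0_of_gen1 hg) z hz he
  have hg0 := gen0_chart E hE (gen0_of_gen1 hg)
  have hS := adm_rows E hE h.adm
  have hn := tb6_card2 h
  have hlt := h.lt
  have hltI := h.ltI
  have hρ : Nonempty (Fin (r - Fintype.card π)) := ⟨⟨0, by omega⟩⟩
  have hσ : Nonempty (Fin (Fintype.card I - r)) := ⟨⟨0, by omega⟩⟩
  -- the coordinates of `z`
  have hxP : ∀ i j, z.P i j = ofPS (xP x (E i) j) := by
    intro i j
    have h1 := congrFun (congrFun (congrArg (fun y => y.P) hx) (E i)) j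
    rw [tb6_toQ_map] at h1
    have h2 : (z.scale c c⁻¹).P (E.symm (E i)) j = ofPS (xP x (E i) j) := h1.symm
    rw [E.symm_apply_apply] at h2
    exact h2
  have hxG : ∀ i j, z.G i j = ofPS (xG x (E i) j) := by
    intro i j
    have h1 := congrFun (congrFun (congrArg (fun y => y.G) hx) (E i)) j
    rw [tb6_toQ_map] at h1
    have h2 : (z.scale c c⁻¹).G (E.symm (E i)) j = ofPS (xG x (E i) j) := h1.symm
    rw [E.symm_apply_apply] at h2
    exact h2
  have hxq : ∀ l i, z.q l i = ofPS (fr x l (E i)) := by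
    intro l i
    have h1 := congrFun (congrFun (congrArg (fun y => y.q) hx) l) (E i)
    rw [tb6_toQ_map] at h1
    have h2 : (z.scale c c⁻¹).q l (E.symm (E i)) = ofPS (fr x l (E i)) := h1.symm
    rw [E.symm_apply_apply] at h2
    exact h2
  have hxh : ∀ l i, z.h l i = ofPS (xh x l (E i)) := by
    intro l i
    have h1 := congrFun (congrFun (congrArg (fun y => y.h) hx) l) (E i)
    rw [tb6_toQ_map] at h1
    have h2 : (z.scale c c⁻¹).h l (E.symm (E i)) = ofPS (xh x l (E i)) := h1.symm
    rw [E.symm_apply_apply] at h2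
    exact h2
  have hxa : ∀ i, c * z.a i = ofPS ((toQ x).a (E i)) := by
    intro i
    have h1 := congrFun (congrArg (fun y => y.a) hx) (E i)
    rw [tb6_toQ_map] at h1
    have h2 : (z.scale c c⁻¹).a (E.symm (E i)) = ofPS ((toQ x).a (E i)) := h1.symm
    rw [E.symm_apply_apply] at h2
    exact h2
  have hxb : ∀ i, c⁻¹ * z.b i = ofPS (xb x (E i)) := by
    intro i
    have h1 := congrFun (congrArg (fun y => y.b) hx) (E i)
    rw [tb6_toQ_map] at h1
    have h2 : (z.scale c c⁻¹).b (E.symm (E i)) = ofPS (xb x (E i)) := h1.symm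
    rw [E.symm_apply_apply] at h2
    exact h2
  -- inverses of units
  have hinv : ∀ s : PowerSeries K, PowerSeries.constantCoeff s ≠ 0 →
      ofPS s⁻¹ = (ofPS s)⁻¹ ∧ (ofPS s : LaurentSeries K) ≠ 0 := by
    intro s hs
    have h1 : ofPS s * ofPS s⁻¹ = 1 := by
      rw [← map_mul, PowerSeries.mul_inv_cancel _ hs, map_one]
    exact ⟨(inv_eq_of_mul_eq_one_right h1).symm, left_ne_zero_of_mul_eq_one h1⟩
  have hwz : ∀ i ∈ T, i ≠ i₀ ∨ (∃ j ∈ T, j ≠ i₀) → wz T i₀ w i ≠ 0 := by
    intro i hi hor h1
    by_cases hi0 : i = i₀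
    · obtain ⟨j, hj, hj0⟩ := hor.resolve_left (fun h => h hi0)
      have h2 := sum_w_ne_zero hg j hj hj0
      apply h2
      rw [← map_sum, ← map_zero (algebraMap K ℂ)]
      congr 1
      rw [wz, if_pos hi0, neg_eq_zero] at h1
      exact h1
    · rw [wz, if_neg hi0] at h1
      have h2 : AlgebraicIndependent ℚ (fun i : {i : I // i ∈ T ∧ i ≠ i₀} =>
          algebraMap K ℂ (w i.1)) :=
        AlgebraicIndependent.comp hg Sum.inr Sum.inr_injective
      have h3 := h2.ne_zero ⟨i, hi, hi0⟩
      apply h3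
      change algebraMap K ℂ (w i) = 0
      rw [h1, map_zero]
  -- reduction of the coordinates without `a` and `b`
  have hpnt : ∀ y : Var (fun l => (S l).map E.toEmbedding) J → PowerSeries K,
      xP y = xP x → xG y = xG x → fr y = fr x → xh y = xh x → z.toPnt.Red
        ((toQ fun k => PowerSeries.constantCoeff (y k)).rows E.symm).toPnt := by
    intro y h1 h2 h3 h4
    refine ⟨fun i j => ⟨_, (hxP i j).symm, ?_⟩, fun i j => ⟨_, (hxG i j).symm, ?_⟩,
      fun l i => ⟨_, (hxq l i).symm, ?_⟩, fun l i => ⟨_, (hxh l i).symm, ?_⟩⟩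
    · rw [← h1]
      exact (xP_map (PowerSeries.constantCoeff (R := K)) y (E i) j).symm
    · rw [← h2]
      rfl
    · rw [← h3]
      exact (fr_map (PowerSeries.constantCoeff (R := K)) y l (E i)).symm
    · rw [← h4]
      exact (xh_map (PowerSeries.constantCoeff (R := K)) y l (E i)).symm
  have htoa : ∀ (y : Var (fun l => (S l).map E.toEmbedding) J → PowerSeries K) (i : I),
      ((toQ fun k => PowerSeries.constantCoeff (y k)).rows E.symm).a i =
        PowerSeries.constantCoeff ((toQ y).a (E i)) := by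
    intro y i
    rw [tb6_toQ_map]
    rfl
  by_cases h0 : ∃ s, PowerSeries.constantCoeff (xb x (Sum.inr (Sum.inr s))) ≠ 0
  · -- first kind
    left
    set A' : Finset (Fin (r - Fintype.card π) ⊕ Fin (Fintype.card I - r)) :=
      Finset.univ.filter fun i => PowerSeries.constantCoeff (xa x i) ≠ 0 with hA'
    obtain ⟨hab, hsup, hev1, hrk⟩ := limit1 hS hn e he _ i₂ (u.submatrix E.symm id)
      (fun l i => v l (E.symm i)) (fun i => wz T i₀ w (E.symm (Sum.inr i))) hg0 x hev h0 A'
      (fun i => by simp [hA'])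
    set A : Finset I := Finset.univ.filter
      fun i => PowerSeries.constantCoeff ((toQ x).a (E i)) ≠ 0 with hA
    have hmemA : ∀ i, i ∈ A ↔ PowerSeries.constantCoeff ((toQ x).a (E i)) ≠ 0 := fun i => by
      simp [hA]
    have hAp : ∀ i ∈ A, i ∉ Set.range p := by
      rintro i hi ⟨l, rfl⟩
      rw [hmemA, hE] at hi
      exact hi (map_zero _)
    have hAT : A ⊆ T := by
      intro i hi
      by_contra hiT
      rw [hmemA] at hi
      apply hi
      have h1 := hxa i
      rw [hz.zero' i hiT, mul_zero] at h1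
      have h2 : (toQ x).a (E i) = 0 := by
        apply ofPS_injective
        rw [← h1, map_zero]
      rw [h2, map_zero]
    have hchA : chT E A = A' := by
      ext k
      rw [Finset.mem_filter, hmemA, E.apply_symm_apply, hA', Finset.mem_filter]
      rfl
    have hi₁A : i₁ ∈ A := by
      rw [hmemA, hi₂]
      have h1 := (ev_last hev).1
      change PowerSeries.constantCoeff (xa x i₂) ≠ 0
      rw [h1, map_one]
      exact one_ne_zero
    have hζ1 : SysQ 1 r p S A i₁ u v 0
        ((toQ fun y => PowerSeries.constantCoeff (x y)).rows E.symm) := by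
      refine sysQ_of_chart h.adm h.lt.le hAp hi₁A E i₂ _ hE hi₂ ?_ hrk
      rw [hchA]
      exact hev1
    refine ⟨A, hAT, ⟨i₁, hi₁A⟩, ?_, fun i₃ hi₃ => ?_⟩
    · obtain ⟨s, hs⟩ := h0
      refine ⟨E.symm (Sum.inr (Sum.inr s)), fun hmem => ?_, ?_⟩
      · rw [hmemA, E.apply_symm_apply] at hmem
        rcases mul_eq_zero.mp (hab (Sum.inr s)) with h1 | h1
        · exact hmem h1
        · exact hs h1
      · rintro ⟨l, hl⟩
        have h1 := congrArg E hl
        rw [hE, E.apply_symm_apply] at h1
        exact absurd h1 (by simp)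
    · have hα := (hmemA i₃).mp hi₃
      obtain ⟨hα1, hα2⟩ := hinv _ hα
      refine ⟨c * (ofPS ((toQ x).a (E i₃)))⁻¹, mul_ne_zero hc (inv_ne_zero hα2),
        ((toQ fun y => PowerSeries.constantCoeff (x y)).rows E.symm).scale
          (PowerSeries.constantCoeff ((toQ x).a (E i₃)))⁻¹
          (PowerSeries.constantCoeff ((toQ x).a (E i₃))), ?_, ?_⟩
      · refine ⟨hpnt x rfl rfl rfl rfl, fun i => ?_, fun i => ?_⟩
        · refine ⟨((toQ x).a (E i₃))⁻¹ * (toQ x).a (E i), ?_, ?_⟩
          · change _ = c * (ofPS ((toQ x).a (E i₃)))⁻¹ * z.a i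
            rw [map_mul, hα1, ← hxa i]
            ring
          · rw [map_mul, PowerSeries.constantCoeff_inv]
            change _ = _ * ((toQ fun k => PowerSeries.constantCoeff (x k)).rows E.symm).a i
            rw [htoa]
        · refine ⟨(toQ x).a (E i₃) * xb x (E i), ?_, ?_⟩
          · change _ = (c * (ofPS ((toQ x).a (E i₃)))⁻¹)⁻¹ * z.b i
            rw [map_mul, ← hxb i, mul_inv, inv_inv]
            ring
          · rw [map_mul]
            rfl
      · have hne : ((toQ fun k => PowerSeries.constantCoeff (x k)).rows E.symm).a i₃ ≠ 0 := by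
          rw [htoa]
          exact hα
        have h1 := hζ1.renorm hi₁A i₃ hi₃ hne
        rw [htoa] at h1
        refine { sysQ_w h1 (fun i hi hi' => ?_) with suppa := ?_, suppb := ?_ }
        · rw [wz]
          split_ifs
          · simp
          · rfl
        · intro i hi
          change _ * ((toQ fun k => PowerSeries.constantCoeff (x k)).rows E.symm).a i ≠ 0
          rw [htoa]
          exact mul_ne_zero (inv_ne_zero hα) ((hmemA i).mp hi)
        · intro i hi hip
          obtain ⟨k, hk⟩ := tb6_exists_inr E hE i hip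
          have h2 : k ∉ A' := by
            rw [← hchA, Finset.mem_filter, ← hk, E.symm_apply_apply]
            exact fun h3 => hi h3.2
          refine mul_ne_zero hα ?_
          have h3 := hsup k h2
          rw [← hk] at h3
          exact h3
  · right
    push Not at h0
    obtain ⟨⟨j, hj, hj2⟩, b, hb, hev0, hrk⟩ := limit0 hS hn e he0 he _ i₂ (u.submatrix E.symm id)
      (fun l i => v l (E.symm i)) (fun i => wz T i₀ w (E.symm (Sum.inr i))) hg0
      (fun i hi hi' => by
        have hiT := (Finset.mem_filter.mp hi).2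
        refine hwz _ hiT ?_
        by_cases h1 : E.symm (Sum.inr i) = i₀
        · right
          refine ⟨i₁, hi₁, fun h2 => hi' ?_⟩
          have h3 : E (E.symm (Sum.inr i)) = E i₁ := by rw [h1, h2]
          rw [E.apply_symm_apply, hi₂] at h3
          exact Sum.inr_injective h3
        · exact Or.inl h1) x hev h0
    have hζ1 : SysQ 0 r p S T i₁ u v (wz T i₀ w)
        ((toQ fun y => PowerSeries.constantCoeff (setb x b y)).rows E.symm) :=
      sysQ_of_chart h.adm h.lt.le h.nmem hi₁ E i₂ _ hE hi₂ hev0 hrk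
    have hne : ((toQ fun y => PowerSeries.constantCoeff (setb x b y)).rows E.symm).a i₀ ≠ 0 := by
      by_cases h1 : i₁ = i₀
      · rw [← h1, hζ1.one']
        exact one_ne_zero
      · intro h2
        have h3 := hζ1.vq_all hi₁ i₀ h.mem
        have h4 := wz_wz h.mem w 1 i₁ i₀ h.mem
        simp only [one_mul] at h4
        rw [h4, h2, zero_mul] at h3
        exact hwz i₀ h.mem (Or.inr ⟨i₁, hi₁, h1⟩) (neg_eq_zero.mp h3.symm)
    have hα : PowerSeries.constantCoeff ((toQ x).a (E i₀)) ≠ 0 := by
      rw [htoa] at hne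
      exact hne
    obtain ⟨hα1, hα2⟩ := hinv _ hα
    have hcα : c = ofPS ((toQ x).a (E i₀)) := by
      have h1 := hxa i₀
      rw [hz.one', mul_one] at h1
      exact h1
    have hene : (ofPS e : LaurentSeries K) ≠ 0 := by
      rw [Ne, map_eq_zero_iff _ ofPS_injective]
      exact he0
    refine ⟨_, ?_, sysQ_w (hζ1.renorm hi₁ i₀ h.mem hne) fun i hi hi' => ?_⟩
    · refine ⟨hpnt (setb x b) rfl rfl rfl rfl, fun i => ?_, fun i => ?_⟩
      · refine ⟨((toQ x).a (E i₀))⁻¹ * (toQ x).a (E i), ?_, ?_⟩
        · change _ = 1 * z.a i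
          rw [map_mul, hα1, ← hxa i, ← hcα, ← mul_assoc, inv_mul_cancel₀ hc]
        · rw [map_mul, PowerSeries.constantCoeff_inv]
          change _ = (((toQ fun k => PowerSeries.constantCoeff (setb x b k)).rows E.symm).a i₀)⁻¹ *
            ((toQ fun k => PowerSeries.constantCoeff (setb x b k)).rows E.symm).a i
          rw [htoa, htoa]
          rfl
      · refine ⟨(toQ x).a (E i₀) * b (E i), ?_, ?_⟩
        · change _ = (ofPS e)⁻¹ * z.b i
          have h1 := hxb i
          rw [hb, map_mul] at h1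
          have h2 : z.b i = c * (ofPS e * ofPS (b (E i))) := by
            rw [← h1, ← mul_assoc, mul_inv_cancel₀ hc, one_mul]
          rw [h2, map_mul, ← hcα]
          field_simp
        · rw [map_mul]
          change _ = ((toQ fun k => PowerSeries.constantCoeff (setb x b k)).rows E.symm).a i₀ * _
          rw [htoa]
          rfl
    · have h4 := wz_wz h.mem w 1 i₁ i hi
      simp only [one_mul] at h4
      rw [h4, wz, if_neg hi']

end tb5

end Pool.EU.TB
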