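import Mathlib

/-!
MP_14430d (B), row TB5 (helper52): matrix level. Two vectors `q = (y, A y)`, `phi = (-A^T z, z)`
with disjoint supports vanish if all minors of `A` are different from zero; limits of a solution
over power series.
-/

set_option autoImplicit false

namespace Pool.EU.TB5

open Matrix PowerSeries

variable {sg rho : Type*} [Fintype sg] [Fintype rho] [DecidableEq sg] [DecidableEq rho]

/-- all minors are different from zero -/
def AllMinors {K : Type*} [Field K] (A : Matrix sg rho K) : Prop :=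
  ∀ (k : ℕ) (f : Fin k ↪ sg) (g : Fin k ↪ rho), (A.submatrix f g).det ≠ 0

/-- enumeration of a finite set -/
noncomputable def enum {α : Type*} (a : Finset α) {k : ℕ} (h : a.card = k) : Fin k ↪ α :=
  (a.equivFinOfCardEq h).symm.toEmbedding.trans (Function.Embedding.subtype _)

omit [Fintype rho] [DecidableEq rho] in
lemma enum_mem {a : Finset rho} {k : ℕ} (h : a.card = k) (i : Fin k) : enum a h i ∈ a :=
  ((a.equivFinOfCardEq h).symm i).2

omit [DecidableEq rho] in
lemma sum_enum {M : Type*} [AddCommMonoid M] {a : Finset rho} {k : ℕ} (h : a.card = k)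
    (F : rho → M) (hF : ∀ l, l ∉ a → F l = 0) : ∑ i, F (enum a h i) = ∑ l, F l := by
  rw [← Finset.sum_subset (Finset.subset_univ a) (fun l _ hl => hF l hl),
    ← Finset.sum_coe_sort a F]
  exact Fintype.sum_equiv (a.equivFinOfCardEq h).symm _ _ (fun i => rfl)

omit [DecidableEq sg] [DecidableEq rho] in
/-- disjoint supports are impossible -/
lemma no_disjoint {K : Type*} [Field K] {A : Matrix sg rho K} (hA : AllMinors A)
    {y : rho → K} {z : sg → K} (hy : y ≠ 0) (hz : z ≠ 0)
    (h1 : ∀ l, y l * (A.transpose *ᵥ z) l = 0) (h2 : ∀ i, (A *ᵥ y) i * z i = 0) : False := by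
  classical
  set a : Finset rho := Finset.univ.filter (fun l => y l ≠ 0) with ha
  set b : Finset sg := Finset.univ.filter (fun i => z i ≠ 0) with hb
  have hma : ∀ l, l ∈ a ↔ y l ≠ 0 := fun l => by simp [ha]
  have hmb : ∀ l, l ∈ b ↔ z l ≠ 0 := fun l => by simp [hb]
  have hane : a.Nonempty := by
    obtain ⟨l, hl⟩ := Function.ne_iff.1 hy
    exact ⟨l, (hma l).2 hl⟩
  have hbne : b.Nonempty := by
    obtain ⟨l, hl⟩ := Function.ne_iff.1 hz
    exact ⟨l, (hmb l).2 hl⟩
  rcases le_total a.card b.card with hc | hc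
  · -- rows of `b`, all columns of `a`
    obtain ⟨b', hb', hcard⟩ := Finset.exists_subset_card_eq hc
    have hpos : 0 < a.card := hane.card_pos
    refine hA a.card (enum b' hcard) (enum a rfl) ?_
    rw [← Matrix.exists_mulVec_eq_zero_iff]
    refine ⟨fun i => y (enum a rfl i), ?_, ?_⟩
    · intro h
      exact (hma _).1 (enum_mem rfl ⟨0, hpos⟩) (congrFun h ⟨0, hpos⟩)
    · funext i
      have h3 : z (enum b' hcard i) ≠ 0 := (hmb _).1 (hb' (enum_mem hcard i))
      have h4 : (A *ᵥ y) (enum b' hcard i) = 0 := by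
        rcases mul_eq_zero.1 (h2 (enum b' hcard i)) with h | h
        · exact h
        · exact absurd h h3
      simp only [Matrix.mulVec, dotProduct, Matrix.submatrix_apply, Pi.zero_apply] at h4 ⊢
      rw [sum_enum (rfl : a.card = a.card) (fun l => A (enum b' hcard i) l * y l)
        (fun l hl => by
          have : y l = 0 := by
            by_contra h; exact hl ((hma l).2 h)
          rw [this, mul_zero])]
      exact h4
  · obtain ⟨a', ha', hcard⟩ := Finset.exists_subset_card_eq hc
    have hpos : 0 < b.card := hbne.card_pos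
    refine hA b.card (enum b rfl) (enum a' hcard) ?_
    rw [← Matrix.exists_vecMul_eq_zero_iff]
    refine ⟨fun i => z (enum b rfl i), ?_, ?_⟩
    · intro h
      exact (hmb _).1 (enum_mem rfl ⟨0, hpos⟩) (congrFun h ⟨0, hpos⟩)
    · funext i
      have h3 : y (enum a' hcard i) ≠ 0 := (hma _).1 (ha' (enum_mem hcard i))
      have h4 : (A.transpose *ᵥ z) (enum a' hcard i) = 0 := by
        rcases mul_eq_zero.1 (h1 (enum a' hcard i)) with h | h
        · exact absurd h h3
        · exact h
      simp only [Matrix.mulVec, Matrix.vecMul, dotProduct, Matrix.submatrix_apply,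
        Matrix.transpose_apply, Pi.zero_apply] at h4 ⊢
      rw [sum_enum (rfl : b.card = b.card) (fun l => z l * A l (enum a' hcard i))
        (fun l hl => by
          have : z l = 0 := by
            by_contra h; exact hl ((hmb l).2 h)
          rw [this, zero_mul])]
      rw [← h4]
      exact Finset.sum_congr rfl fun l _ => mul_comm _ _

/-- division of a vector of power series by the largest power of `X` -/
lemma exists_div {K ι : Type*} [Field K] [Finite ι] {z : ι → K⟦X⟧} (hz : z ≠ 0) :
    ∃ (k : ℕ) (z' : ι → K⟦X⟧), (∀ i, z i = X ^ k * z' i) ∧ ∃ i, constantCoeff (z' i) ≠ 0 := by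
  classical
  have hfin := Fintype.ofFinite ι
  obtain ⟨i0, hi0⟩ := Function.ne_iff.1 hz
  simp only [Pi.zero_apply] at hi0
  -- the least order
  have hex : ∃ k : ℕ, ∃ i, coeff k (z i) ≠ 0 := by
    by_contra h
    push Not at h
    exact hi0 (by ext n; simpa using h n i0)
  have hk := Nat.find_spec hex
  have hmin : ∀ m < Nat.find hex, ∀ i, coeff m (z i) = 0 := by
    intro m hm i
    by_contra h
    exact Nat.find_min hex hm ⟨i, h⟩
  have hdvd : ∀ i, X ^ (Nat.find hex) ∣ z i := fun i => by
    rw [X_pow_dvd_iff]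
    exact fun m hm => hmin m hm i
  choose z' hz' using hdvd
  refine ⟨Nat.find hex, z', hz', ?_⟩
  obtain ⟨i, hi⟩ := hk
  refine ⟨i, ?_⟩
  intro h
  apply hi
  rw [hz' i, coeff_X_pow_mul', if_pos le_rfl, Nat.sub_self]
  simpa using h

/-- the vector `q = (y, A y)` -/
def qv {R : Type*} [CommRing R] (A : Matrix sg rho R) (y : rho → R) : rho ⊕ sg → R :=
  Sum.elim y (A *ᵥ y)

/-- the vector `phi = (-A^T z, z)` -/
def pv {R : Type*} [CommRing R] (A : Matrix sg rho R) (z : sg → R) : rho ⊕ sg → R :=
  Sum.elim (-(A.transpose *ᵥ z)) z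

omit [Fintype sg] [DecidableEq sg] [DecidableEq rho] in
lemma qv_map {R R' : Type*} [CommRing R] [CommRing R'] (f : R →+* R') (A : Matrix sg rho R)
    (y : rho → R) (i : rho ⊕ sg) : f (qv A y i) = qv (A.map f) (fun l => f (y l)) i := by
  cases i with
  | inl l => rfl
  | inr l => simp [qv, Matrix.mulVec, dotProduct, map_sum, map_mul]

omit [Fintype rho] [DecidableEq sg] [DecidableEq rho] in
lemma pv_map {R R' : Type*} [CommRing R] [CommRing R'] (f : R →+* R') (A : Matrix sg rho R)
    (z : sg → R) (i : rho ⊕ sg) : f (pv A z i) = pv (A.map f) (fun l => f (z l)) i := by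
  cases i with
  | inl l => simp [pv, Matrix.mulVec, dotProduct, map_sum, map_mul]
  | inr l => rfl

omit [Fintype rho] [DecidableEq sg] [DecidableEq rho] in
lemma pv_smul {R : Type*} [CommRing R] (A : Matrix sg rho R) (c : R) (z : sg → R)
    (i : rho ⊕ sg) : pv A (fun l => c * z l) i = c * pv A z i := by
  cases i with
  | inl l =>
    simp only [pv, Sum.elim_inl, Pi.neg_apply, Matrix.mulVec, dotProduct, mul_neg,
      Finset.mul_sum]
    congr 1
    exact Finset.sum_congr rfl fun l _ => by ring
  | inr l => rfl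

omit [DecidableEq sg] [DecidableEq rho] in
/-- **TB5**, matrix level: either `phi` does not vanish at `X = 0`, or `phi` is divisible by `eps`. -/
theorem limits {K : Type*} [Field K] (A : Matrix sg rho K⟦X⟧) (y : rho → K⟦X⟧)
    (z : sg → K⟦X⟧) (eps : K⟦X⟧) (heps : eps ≠ 0) (S : Set (rho ⊕ sg)) (v : rho ⊕ sg → K)
    (hS : ∃ i ∈ S, v i ≠ 0)
    (hq : ∀ i ∈ S, qv A y i * pv A z i = -(eps * C (v i)))
    (hq0 : ∀ i, i ∉ S → qv A y i = 0) (hy0 : ∃ l, constantCoeff (y l) ≠ 0)
    (hA0 : (∀ i, constantCoeff (z i) = 0) → AllMinors (A.map constantCoeff)) :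
    (∃ i, constantCoeff (z i) ≠ 0) ∨ ∃ z' : sg → K⟦X⟧, z = fun i => eps * z' i := by
  by_cases h0 : ∃ i, constantCoeff (z i) ≠ 0
  · exact Or.inl h0
  right
  push Not at h0
  have hA := hA0 h0
  have hz : z ≠ 0 := by
    rintro rfl
    obtain ⟨i, hi, hvi⟩ := hS
    have h1 := hq i hi
    have h2 : pv A (0 : sg → K⟦X⟧) i = 0 := by
      cases i <;> simp [pv]
    rw [h2, mul_zero] at h1
    have h3 : eps * C (v i) = 0 := by
      rw [← neg_eq_zero, ← h1]
    rcases mul_eq_zero.1 h3 with h | h
    · exact heps h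
    · exact hvi (by simpa using h)
  obtain ⟨k, z1, hz1, i1, hi1⟩ := exists_div hz
  obtain ⟨e, u', hu, _, hu0⟩ := exists_div (ι := Unit) (z := fun _ => eps)
    (fun h => heps (congrFun h ()))
  set u : K⟦X⟧ := u' () with hu'
  have hu1 : eps = X ^ e * u := hu ()
  have hu2 : constantCoeff u ≠ 0 := hu0
  rcases le_or_gt e k with hek | hek
  · -- divisible
    obtain ⟨m, rfl⟩ := Nat.exists_eq_add_of_le hek
    refine ⟨fun i => u⁻¹ * X ^ m * z1 i, ?_⟩
    funext i
    rw [hz1 i, hu1, pow_add]
    have h5 : u * u⁻¹ = 1 := PowerSeries.mul_inv_cancel u hu2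
    calc X ^ e * X ^ m * z1 i = (u * u⁻¹) * (X ^ e * X ^ m * z1 i) := by rw [h5, one_mul]
      _ = _ := by ring
  · exfalso
    obtain ⟨m, hm⟩ := Nat.exists_eq_add_of_lt hek
    have hzf : z = fun l => X ^ k * z1 l := funext hz1
    have key : ∀ i, constantCoeff (qv A y i) * constantCoeff (pv A z1 i) = 0 := by
      intro i
      by_cases hi : i ∈ S
      · have h1 := hq i hi
        rw [hzf, pv_smul, hu1] at h1
        have h2 : (X : K⟦X⟧) ^ k * (qv A y i * pv A z1 i) =
            X ^ k * (-(X ^ (m + 1) * u * C (v i))) := by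
          calc (X : K⟦X⟧) ^ k * (qv A y i * pv A z1 i) = qv A y i * (X ^ k * pv A z1 i) := by ring
            _ = -(X ^ e * u * C (v i)) := h1
            _ = _ := by rw [hm]; ring
        have h3 := mul_left_cancel₀ (pow_ne_zero k (X_ne_zero (R := K))) h2
        rw [← map_mul, h3]
        simp
      · rw [hq0 i hi]; simp
    have hy0' : (fun l => constantCoeff (y l)) ≠ 0 := by
      obtain ⟨l, hl⟩ := hy0
      exact fun h => hl (congrFun h l)
    have hz0' : (fun l => constantCoeff (z1 l)) ≠ 0 := fun h => hi1 (congrFun h i1)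
    refine no_disjoint hA hy0' hz0' (fun l => ?_) (fun i => ?_)
    · have h1 := key (Sum.inl l)
      rw [qv_map, pv_map] at h1
      simp only [qv, pv, Sum.elim_inl, Pi.neg_apply, mul_neg, neg_eq_zero] at h1
      exact h1
    · have h1 := key (Sum.inr i)
      rw [qv_map, pv_map] at h1
      simp only [qv, pv, Sum.elim_inr] at h1
      exact h1

end Pool.EU.TB5
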