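import Pool.Agent.EU.TBDefs

/-!
# From the chart to the matrix level and back, over any field
-/

set_option autoImplicit false
set_option linter.unusedSectionVars false

namespace Pool.EU.TB

open Matrix

namespace CAux

section basics

variable {π ρ σ J : Type} [DecidableEq π] [DecidableEq ρ] [DecidableEq σ] [DecidableEq J]
  [Fintype π] [Fintype ρ] [Fintype σ] [Fintype J] [LinearOrder π] {S : π → Finset (Rw π ρ σ)}

/-- The rows `π ⊕ ρ`. -/
abbrev top : π ⊕ ρ → Rw π ρ σ := Sum.map id Sum.inl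

section ring

variable {R : Type} [CommRing R]

theorem fr_one (x : Var S J → R) (l : π) : fr x l (Sum.inl l) = 1 := by
  simp [fr]

theorem fr_zero (hS : Adm Sum.inl S) (x : Var S J → R) (l : π) (i : Rw π ρ σ) (hi : i ∉ S l) :
    fr x l i = 0 := by
  have h : i ≠ Sum.inl l := fun h => hi (h ▸ hS.mem l)
  simp [fr, hi, h]

theorem fr_free (x : Var S J → R) (y : Fre S) : fr x y.1.1 y.1.2 = xf x y := by
  obtain ⟨⟨l, i⟩, h⟩ := y
  simp only [fr]
  rw [dif_pos h]

/-- A frame is given by its free entries. -/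
theorem fr_eq (hS : Adm Sum.inl S) (x : Var S J → R) (q : π → Rw π ρ σ → R)
    (h1 : ∀ l, q l (Sum.inl l) = 1) (h0 : ∀ l, ∀ i ∉ S l, q l i = 0)
    (hx : ∀ y : Fre S, xf x y = q y.1.1 y.1.2) : fr x = q := by
  funext l i
  by_cases hi : i ∈ S l
  · by_cases h : i = Sum.inl l
    · subst h
      rw [fr_one, h1]
    · rw [← hx ⟨(l, i), hi, h⟩, ← fr_free]
  · rw [fr_zero hS x l i hi, h0 l i hi]

theorem XX_inl (x : Var S J → R) (i : Rw π ρ σ) (l : π) : XX x i (Sum.inl l) = fr x l i := rfl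

theorem XX_inl_inr (x : Var S J → R) (l : π) (k : ρ) : XX x (Sum.inl l) (Sum.inr k) = 0 := rfl

theorem XX_inr_inl_inr (x : Var S J → R) (k' k : ρ) :
    XX x (Sum.inr (Sum.inl k')) (Sum.inr k) = if k' = k then 1 else 0 := rfl

theorem XX_inr_inr_inr (x : Var S J → R) (s : σ) (k : ρ) :
    XX x (Sum.inr (Sum.inr s)) (Sum.inr k) = xA x s k := rfl

theorem XX_mul_apply (x : Var S J → R) {N : Type} (Y : Matrix (π ⊕ ρ) N R) (i : Rw π ρ σ) (j : N) :
    (XX x * Y) i j = ∑ l, fr x l i * Y (Sum.inl l) j + Sum.elim (fun _ => 0)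
      (Sum.elim (fun k => Y (Sum.inr k) j) (fun s => ∑ k, xA x s k * Y (Sum.inr k) j)) i := by
  rw [Matrix.mul_apply, Fintype.sum_sum_type]
  congr 1
  rcases i with l | k | s
  · simp [XX_inl_inr]
  · simp [XX_inr_inl_inr]
  · simp [XX_inr_inr_inr]

theorem xP_eq (x : Var S J → R) : Matrix.of (xP x) = XX x * Matrix.of (xY x) := by
  ext i j
  rw [XX_mul_apply]
  rfl

theorem pX_eq (x : Var S J → R) (g : Rw π ρ σ → R) (c : π ⊕ ρ) :
    pX x g c = ((XX x)ᵀ *ᵥ g) c := by
  rw [Matrix.mulVec, dotProduct]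
  rcases c with l | k
  · rfl
  · rw [Fintype.sum_sum_type, Fintype.sum_sum_type]
    simp [pX, Matrix.transpose_apply, XX_inl_inr, XX_inr_inl_inr, XX_inr_inr_inr]

theorem pX_eq_mul (x : Var S J → R) (c : π ⊕ ρ) (j : J) :
    pX x (fun i => xG x i j) c = ((XX x)ᵀ * Matrix.of (xG x)) c j := by
  rw [pX_eq]
  rfl

/-- The rows `π ⊕ ρ` of the basis of the column space. -/
theorem XX_det (hS : Adm Sum.inl S) (x : Var S J → R) : ((XX x).submatrix top id).det = 1 := by
  have h : (XX x).submatrix top id = Matrix.fromBlocks (Matrix.of fun l' l => fr x l (Sum.inl l')) 0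
      (Matrix.of fun k l => fr x l (Sum.inr (Sum.inl k))) 1 := by
    ext a b
    rcases a with a | a <;> rcases b with b | b
    · rfl
    · rfl
    · rfl
    · simp [XX_inr_inl_inr, Matrix.one_apply]
  rw [h, Matrix.det_fromBlocks_zero₁₂, Matrix.det_one, mul_one, Matrix.det_of_isLowerTriangular]
  · simp [fr_one]
  · intro a b hab
    have hab' : a < b := hab
    simp only [Matrix.of_apply]
    exact fr_zero hS x b _ (hS.notMem b a hab')

end ring

section field

variable {Ω : Type} [Field Ω]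

theorem exists_right_inv {m n : Type} [Fintype m] [Fintype n] [DecidableEq m] [DecidableEq n]
    (Y : Matrix m n Ω) (h : Y.rank = Fintype.card m) : ∃ Z : Matrix n m Ω, Y * Z = 1 := by
  rw [← Matrix.mulVec_surjective_iff_exists_right_inverse]
  have h2 : LinearMap.range Y.mulVecLin = ⊤ := by
    apply Submodule.eq_top_of_finrank_eq
    rw [Module.finrank_pi]
    exact h
  exact LinearMap.range_eq_top.mp h2

theorem XX_left_inv (hS : Adm Sum.inl S) (x : Var S J → Ω) :
    ∃ L : Matrix (π ⊕ ρ) (Rw π ρ σ) Ω, L * XX x = 1 := by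
  set U := (XX x).submatrix top id with hU
  have hdet : IsUnit U.det := by
    rw [hU, XX_det hS]
    exact isUnit_one
  refine ⟨U⁻¹ * ((1 : Matrix (Rw π ρ σ) (Rw π ρ σ) Ω).submatrix top id), ?_⟩
  rw [Matrix.mul_assoc]
  have h2 : (1 : Matrix (Rw π ρ σ) (Rw π ρ σ) Ω).submatrix top id * XX x = U := by
    rw [hU]
    ext a b
    simp [Matrix.mul_apply, Matrix.one_apply]
  rw [h2, Matrix.nonsing_inv_mul _ hdet]

theorem XX_mul_inj (hS : Adm Sum.inl S) (x : Var S J → Ω) {N : Type} [Fintype N]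
    (Y Y' : Matrix (π ⊕ ρ) N Ω) (h : XX x * Y = XX x * Y') : Y = Y' := by
  obtain ⟨L, hL⟩ := XX_left_inv hS x
  have h2 := congrArg (fun M => L * M) h
  simpa [← Matrix.mul_assoc, hL] using h2

/-- A vector which is zero on `σ` and orthogonal to the column space is zero. -/
theorem eq_zero_of_XX (hS : Adm Sum.inl S) (x : Var S J → Ω) (g : Rw π ρ σ → Ω)
    (h : (XX x)ᵀ *ᵥ g = 0) (hσ : ∀ s, g (Sum.inr (Sum.inr s)) = 0) : g = 0 := by
  set U := (XX x).submatrix top id with hU
  have hdet : IsUnit Uᵀ.det := by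
    rw [Matrix.det_transpose, hU, XX_det hS]
    exact isUnit_one
  have h2 : Uᵀ *ᵥ (fun k => g (top k)) = 0 := by
    rw [← h]
    funext c
    simp only [Matrix.mulVec, dotProduct]
    rw [Fintype.sum_sum_type, Fintype.sum_sum_type, Fintype.sum_sum_type]
    simp [hU, hσ]
  have h3 : (fun k => g (top k)) = (0 : π ⊕ ρ → Ω) := by
    have := congrArg (fun y => (Uᵀ)⁻¹ *ᵥ y) h2
    simpa [Matrix.mulVec_mulVec, Matrix.nonsing_inv_mul _ hdet] using this
  funext i
  rcases i with l | k | s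
  · exact congrFun h3 (Sum.inl l)
  · exact congrFun h3 (Sum.inr k)
  · exact hσ s

end field

end basics

end CAux

open CAux

section rowC

variable {π ρ σ J : Type} [DecidableEq π] [DecidableEq ρ] [DecidableEq σ] [DecidableEq J]
  [Fintype π] [Fintype ρ] [Fintype σ] [Fintype J] [LinearOrder π] {S : π → Finset (Rw π ρ σ)}
  {Ω : Type} [Field Ω]

/-- The exponents on the rows. -/
def wr (w : ρ ⊕ σ → Ω) : Rw π ρ σ → Ω := Sum.elim (fun _ => 0) w

theorem toQ_sys (hS : Adm Sum.inl S) (c : Ω) (T : Finset (ρ ⊕ σ)) (i₀ : ρ ⊕ σ) (hi₀ : i₀ ∈ T)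
    (u : Matrix (Rw π ρ σ) J Ω) (v : π → Rw π ρ σ → Ω) (w : ρ ⊕ σ → Ω) (x : Var S J → Ω)
    (hx : ev c T i₀ x = dat T i₀ u v w)
    (hY : (Matrix.of (xY x)).rank = Fintype.card π + Fintype.card ρ) :
    SysQ c (Fintype.card π + Fintype.card ρ) Sum.inl S (T.map Function.Embedding.inr)
      (Sum.inr i₀) u v (wr w) (toQ x) := by
  have hY' : (Matrix.of (xY x)).rank = Fintype.card (π ⊕ ρ) := by
    rw [hY, Fintype.card_sum]
  obtain ⟨Z, hZ⟩ := exists_right_inv _ hY'
  have e1 : (XX x)ᵀ * Matrix.of (xG x) = 0 := by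
    ext k j
    rw [← pX_eq_mul]
    exact congrFun hx (Sum.inl (k, j))
  have e2 : (XX x)ᵀ *ᵥ xb x = 0 := by
    funext k
    rw [← pX_eq]
    exact congrFun hx (Sum.inr (Sum.inl k))
  have e3 : ∀ s, xa x (Sum.inr s) - ∑ k, xA x s k * xa x (Sum.inl k) = 0 := fun s =>
    congrFun hx (Sum.inr (Sum.inr (Sum.inl s)))
  have e4 : ∀ k s, ∑ j, xY x (Sum.inr k) j * xG x (Sum.inr (Sum.inr s)) j -
      c * (xa x (Sum.inl k) * xb x (Sum.inr (Sum.inr s))) = 0 := fun k s =>
    congrFun hx (Sum.inr (Sum.inr (Sum.inr (Sum.inl (k, s)))))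
  have e5 : ∀ i j, xP x i j * (1 + xG x i j) = u i j := fun i j =>
    congrFun hx (Sum.inr (Sum.inr (Sum.inr (Sum.inr (Sum.inl (i, j))))))
  have e6 : ∀ y : Fre S, xf x y * xh x y.1.1 y.1.2 = - v y.1.1 y.1.2 := fun y =>
    congrFun hx (Sum.inr (Sum.inr (Sum.inr (Sum.inr (Sum.inr (Sum.inl y))))))
  have e7 : ∀ i, (if i = i₀ then xa x i else if i ∈ T then xa x i * xb x (Sum.inr i)
      else xa x i) = if i = i₀ then 1 else if i ∈ T then - w i else 0 := fun i =>
    congrFun hx (Sum.inr (Sum.inr (Sum.inr (Sum.inr (Sum.inr (Sum.inr i))))))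
  have hP : (toQ x).P = XX x * Matrix.of (xY x) := xP_eq x
  -- the vector `a` in the column space
  have ha : XX x *ᵥ (Sum.elim (fun _ => 0) (fun k => xa x (Sum.inl k)) : π ⊕ ρ → Ω) =
      (toQ x).a := by
    funext i
    simp only [Matrix.mulVec, dotProduct, Fintype.sum_sum_type, toQ]
    rcases i with l | k | s
    · simp [XX_inl_inr]
    · simp [XX_inr_inl_inr]
    · simp only [Sum.elim_inl, mul_zero, Finset.sum_const_zero, Sum.elim_inr, zero_add,
        XX_inr_inr_inr]
      exact (sub_eq_zero.mp (e3 s)).symm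
  have hcr : ∀ k i, ∑ j, xY x (Sum.inr k) j * xG x i j = c * (xa x (Sum.inl k) * xb x i) := by
    intro k
    have h0 : (fun i => ∑ j, xY x (Sum.inr k) j * xG x i j - c * (xa x (Sum.inl k) * xb x i)) =
        (0 : Rw π ρ σ → Ω) := by
      apply eq_zero_of_XX hS x
      · have h1 : (fun i => ∑ j, xY x (Sum.inr k) j * xG x i j -
            c * (xa x (Sum.inl k) * xb x i)) =
            Matrix.of (xG x) *ᵥ (xY x (Sum.inr k)) - (c * xa x (Sum.inl k)) • xb x := by
          funext i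
          simp [Matrix.mulVec, dotProduct, mul_comm, mul_assoc]
        rw [h1, Matrix.mulVec_sub, Matrix.mulVec_mulVec, e1, Matrix.zero_mulVec,
          Matrix.mulVec_smul, e2, smul_zero, sub_zero]
      · intro s
        exact e4 k s
    intro i
    exact sub_eq_zero.mp (congrFun h0 i)
  refine ⟨⟨?_, ?_, ?_, ?_, ?_, ?_, ?_⟩, ?_, ?_, ?_, ?_, ?_, ?_⟩
  · obtain ⟨L, hL⟩ := XX_left_inv hS x
    rw [hP]
    apply le_antisymm
    · rw [← hY]
      exact Matrix.rank_mul_le_right _ _
    · rw [← hY]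
      calc (Matrix.of (xY x)).rank = (L * (XX x * Matrix.of (xY x))).rank := by
            rw [← Matrix.mul_assoc, hL, Matrix.one_mul]
        _ ≤ _ := Matrix.rank_mul_le_right _ _
  · rw [hP, Matrix.transpose_mul, Matrix.mul_assoc]
    have : (XX x)ᵀ * (toQ x).G = 0 := e1
    rw [this, Matrix.mul_zero]
  · intro l
    refine ⟨Z *ᵥ (Pi.single (Sum.inl l) 1), ?_⟩
    rw [hP, Matrix.mulVec_mulVec, Matrix.mul_assoc, hZ, Matrix.mul_one]
    funext i
    simp [XX_inl, toQ]
  · intro i j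
    exact e5 i j
  · intro l
    exact fr_one x l
  · intro l i hi
    exact fr_zero hS x l i hi
  · intro l i hi hil
    have := e6 ⟨(l, i), hi, hil⟩
    rw [← fr_free] at this
    exact this
  · rw [hP]
    ext i i'
    rw [Matrix.mul_assoc, XX_mul_apply]
    simp only [Matrix.add_apply, Matrix.sum_apply, Matrix.vecMulVec_apply, Matrix.smul_apply]
    congr 1
    have hc : ∀ k, (Matrix.of (xY x) * (toQ x).Gᵀ) (Sum.inr k) i' =
        c * (xa x (Sum.inl k) * xb x i') := fun k => hcr k i'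
    rcases i with l | k | s
    · simp [toQ]
    · simp only [Sum.elim_inr, Sum.elim_inl, hc]
      rfl
    · simp only [Sum.elim_inr, hc]
      have h5 : (toQ x).a (Sum.inr (Sum.inr s)) = ∑ k, xA x s k * xa x (Sum.inl k) :=
        sub_eq_zero.mp (e3 s)
      rw [h5, Finset.sum_mul, Finset.smul_sum]
      refine Finset.sum_congr rfl fun k _ => ?_
      simp only [smul_eq_mul, toQ]
      ring
  · refine ⟨Z *ᵥ (Sum.elim (fun _ => 0) (fun k => xa x (Sum.inl k))), ?_⟩
    rw [hP, Matrix.mulVec_mulVec, Matrix.mul_assoc, hZ, Matrix.mul_one, ha]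
  · rw [hP, Matrix.transpose_mul, ← Matrix.mulVec_mulVec]
    have : (XX x)ᵀ *ᵥ (toQ x).b = 0 := e2
    rw [this, Matrix.mulVec_zero]
  · have := e7 i₀
    simpa [toQ] using this
  · intro i hi
    rcases i with l | i
    · rfl
    · have hiT : i ∉ T := fun h => hi (Finset.mem_map.mpr ⟨i, h, rfl⟩)
      have hne : i ≠ i₀ := fun h => hiT (h ▸ hi₀)
      have := e7 i
      rw [if_neg hne, if_neg hiT, if_neg hne, if_neg hiT] at this
      exact this
  · intro i hi hne
    obtain ⟨i', hi', rfl⟩ := Finset.mem_map.mp hi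
    have hne' : i' ≠ i₀ := fun h => hne (by rw [h]; rfl)
    have := e7 i'
    rw [if_neg hne', if_pos hi', if_neg hne', if_pos hi'] at this
    exact this

/-- The inverse of a matrix over a subring with inverse determinant in the subring. -/
theorem CAux.inv_mem {m : Type} [Fintype m] [DecidableEq m] (B : Subring Ω) (M : Matrix m m Ω)
    (hM : ∀ i j, M i j ∈ B) (hd : M.det⁻¹ ∈ B) (i j : m) : M⁻¹ i j ∈ B := by
  rw [Matrix.inv_def, Matrix.smul_apply, smul_eq_mul, Ring.inverse_eq_inv']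
  refine B.mul_mem hd ?_
  have : M = (B.subtype.mapMatrix (Matrix.of fun i j => (⟨M i j, hM i j⟩ : B))) := by
    ext i j
    rfl
  rw [this, ← RingHom.map_adjugate]
  exact SetLike.coe_mem _

theorem CAux.mul_mem' {l m n : Type} [Fintype m] (B : Subring Ω) (M : Matrix l m Ω) (N : Matrix m n Ω)
    (hM : ∀ i j, M i j ∈ B) (hN : ∀ i j, N i j ∈ B) (i : l) (j : n) : (M * N) i j ∈ B := by
  rw [Matrix.mul_apply]
  exact B.sum_mem fun k _ => B.mul_mem (hM i k) (hN k j)

/-- The chart of a point, without the equations. -/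
theorem CAux.chart_core (hS : Adm Sum.inl S) (P : Matrix (Rw π ρ σ) J Ω) (q : π → Rw π ρ σ → Ω)
    (hr : P.rank = Fintype.card π + Fintype.card ρ) (hmem : ∀ l, ∃ y : J → Ω, P *ᵥ y = q l)
    (h1 : ∀ l, q l (Sum.inl l) = 1) (h0 : ∀ l, ∀ i ∉ S l, q l i = 0)
    (B : Subring Ω) (hP : ∀ i j, P i j ∈ B) (hq : ∀ l i, q l i ∈ B) (g : π ⊕ ρ → J)
    (hd : (P.submatrix (top : π ⊕ ρ → Rw π ρ σ) g).det ≠ 0)
    (hd' : (P.submatrix (top : π ⊕ ρ → Rw π ρ σ) g).det⁻¹ ∈ B) :
    ∃ (A : σ → ρ → Ω) (Y : Matrix (π ⊕ ρ) J Ω) (Z : Matrix J (π ⊕ ρ) Ω),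
      (∀ s k, A s k ∈ B) ∧ (∀ k j, Y k j ∈ B) ∧ ∀ x : Var S J → Ω,
        (∀ y : Fre S, xf x y = q y.1.1 y.1.2) → (∀ s k, xA x s k = A s k) →
          XX x * Y = P ∧ P * Z = XX x := by
  classical
  set M := P.submatrix (top : π ⊕ ρ → Rw π ρ σ) g with hM
  have hMu : IsUnit M.det := isUnit_iff_ne_zero.mpr hd
  have hMi : ∀ i j, M⁻¹ i j ∈ B := inv_mem B M (fun i j => hP _ _) hd'
  -- the columns selected by `g`
  set C : Matrix J (π ⊕ ρ) Ω := ((1 : Matrix J J Ω).submatrix id g) * M⁻¹ with hC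
  set X0 : Matrix (Rw π ρ σ) (π ⊕ ρ) Ω := P * C with hX0
  have hX0' : X0 = P.submatrix id g * M⁻¹ := by
    rw [hX0, hC, ← Matrix.mul_assoc]
    congr 1
    ext i j
    simp [Matrix.mul_apply, Matrix.one_apply]
  have hX0B : ∀ i j, X0 i j ∈ B := by
    rw [hX0']
    exact mul_mem' B _ _ (fun i j => hP _ _) hMi
  set Pt : Matrix (π ⊕ ρ) J Ω := P.submatrix (top : π ⊕ ρ → Rw π ρ σ) id with hPt
  -- the rows `π ⊕ ρ` of `X0`
  have hX0t : X0.submatrix (top : π ⊕ ρ → Rw π ρ σ) id = 1 := by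
    have : X0.submatrix (top : π ⊕ ρ → Rw π ρ σ) id = M * M⁻¹ := by
      rw [hX0']
      ext i j
      simp [Matrix.mul_apply, hM]
    rw [this, Matrix.mul_nonsing_inv _ hMu]
  -- `P = X0 * Pt`
  have hPX : P = X0 * Pt := by
    have hMr : M.rank = Fintype.card (π ⊕ ρ) := Matrix.rank_of_isUnit M
      ((Matrix.isUnit_iff_isUnit_det M).mpr hMu)
    have hCr : (P.submatrix id g).rank = P.rank := by
      apply le_antisymm
      · have : P.submatrix id g = P * (1 : Matrix J J Ω).submatrix id g := by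
          ext i j
          simp [Matrix.mul_apply, Matrix.one_apply]
        rw [this]
        exact Matrix.rank_mul_le_left _ _
      · rw [hr, ← Fintype.card_sum, ← hMr]
        have : M = (1 : Matrix (Rw π ρ σ) (Rw π ρ σ) Ω).submatrix top id * P.submatrix id g := by
          ext i j
          simp [Matrix.mul_apply, Matrix.one_apply, hM]
        rw [this]
        exact Matrix.rank_mul_le_right _ _
    -- the column spaces agree
    have hle : LinearMap.range (P.submatrix id g).mulVecLin ≤ LinearMap.range P.mulVecLin := by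
      rintro _ ⟨y, rfl⟩
      refine ⟨(1 : Matrix J J Ω).submatrix id g *ᵥ y, ?_⟩
      simp only [Matrix.mulVecLin_apply, Matrix.mulVec_mulVec]
      congr 1
      ext i j
      simp [Matrix.mul_apply, Matrix.one_apply]
    have heq : LinearMap.range (P.submatrix id g).mulVecLin = LinearMap.range P.mulVecLin :=
      Submodule.eq_of_le_of_finrank_eq hle hCr
    have hW : ∃ W : Matrix (π ⊕ ρ) J Ω, P = P.submatrix id g * W := by
      have : ∀ j, ∃ y : π ⊕ ρ → Ω, P.submatrix id g *ᵥ y = fun i => P i j := by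
        intro j
        have : (fun i => P i j) ∈ LinearMap.range (P.submatrix id g).mulVecLin := by
          rw [heq]
          refine ⟨Pi.single j 1, ?_⟩
          funext i
          simp
        exact this
      choose W hW using this
      refine ⟨Matrix.of fun k j => W j k, ?_⟩
      ext i j
      exact (congrFun (hW j) i).symm
    obtain ⟨W, hW⟩ := hW
    have h2 : Pt = M * W := by
      rw [hPt]
      conv_lhs => rw [hW]
      ext i j
      simp [Matrix.mul_apply, hM]
    rw [h2, hX0', Matrix.mul_assoc, ← Matrix.mul_assoc M⁻¹, Matrix.nonsing_inv_mul _ hMu,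
      Matrix.one_mul, ← hW]
  -- any vector of the column space
  have hcol : ∀ a : Rw π ρ σ → Ω, (∃ y : J → Ω, P *ᵥ y = a) →
      X0 *ᵥ (fun k => a (top k)) = a := by
    rintro a ⟨y, rfl⟩
    conv_rhs => rw [hPX, ← Matrix.mulVec_mulVec]
    rfl
  -- the matrix `U`
  let U : Matrix (π ⊕ ρ) (π ⊕ ρ) Ω := Matrix.of fun i c => Sum.elim (fun l => q l (top i))
    (fun k => Sum.elim (fun _ => 0) (fun k' => if k' = k then 1 else 0) i) c
  have hUB : ∀ i j, U i j ∈ B := by
    intro i j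
    rcases j with l | k
    · exact hq _ _
    · rcases i with l | k'
      · exact B.zero_mem
      · change (if k' = k then (1 : Ω) else 0) ∈ B
        split_ifs
        · exact B.one_mem
        · exact B.zero_mem
  have key : ∀ x : Var S J → Ω, (∀ y : Fre S, xf x y = q y.1.1 y.1.2) →
      (∀ s k, xA x s k = X0 (Sum.inr (Sum.inr s)) (Sum.inr k)) →
      (XX x).submatrix (top : π ⊕ ρ → Rw π ρ σ) id = U ∧ XX x = X0 * U := by
    intro x hf hA
    have hfr : fr x = q := fr_eq hS x q h1 h0 hf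
    refine ⟨?_, ?_⟩
    · ext i c
      rcases c with l | k
      · change fr x l (top i) = q l (top i)
        rw [hfr]
      · rcases i with l | k'
        · rfl
        · rfl
    · ext i c
      rcases c with l | k
      · rw [XX_inl, hfr]
        have := congrFun (hcol (q l) (hmem l)) i
        exact this.symm
      · have h3 : (X0 * U) i (Sum.inr k) = X0 i (Sum.inr k) := by
          rw [Matrix.mul_apply, Fintype.sum_sum_type]
          simp [U]
        rw [h3]
        rcases i with l | k' | s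
        · have := congrFun (congrFun hX0t (Sum.inl l)) (Sum.inr k)
          simp only [Matrix.submatrix_apply, id] at this
          rw [XX_inl_inr]
          simpa using this.symm
        · have := congrFun (congrFun hX0t (Sum.inr k')) (Sum.inr k)
          rw [XX_inr_inl_inr]
          simp only [Matrix.submatrix_apply, id, Matrix.one_apply, Sum.inr.injEq] at this
          exact this.symm
        · rw [XX_inr_inr_inr, hA]
  refine ⟨fun s k => X0 (Sum.inr (Sum.inr s)) (Sum.inr k), U⁻¹ * Pt, C * U, ?_, ?_, ?_⟩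
  · intro s k
    exact hX0B _ _
  · have hdetU : U.det = 1 := by
      let x1 : Var S J → Ω := Sum.elim (fun y => q y.1.1 y.1.2)
        (Sum.elim (fun y => X0 (Sum.inr (Sum.inr y.1)) (Sum.inr y.2)) (fun _ => 0))
      rw [← (key x1 (fun _ => rfl) (fun _ _ => rfl)).1, XX_det hS]
    refine mul_mem' B _ _ (inv_mem B U hUB ?_) (fun i j => hP _ _)
    rw [hdetU, inv_one]
    exact B.one_mem
  · intro x hf hA
    obtain ⟨hU, hXX⟩ := key x hf hA
    have hdetU : IsUnit U.det := by
      rw [← hU, XX_det hS]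
      exact isUnit_one
    refine ⟨?_, ?_⟩
    · rw [hXX, Matrix.mul_assoc, ← Matrix.mul_assoc U, Matrix.mul_nonsing_inv _ hdetU,
        Matrix.one_mul]
      exact hPX.symm
    · exact (Matrix.mul_assoc P C U).symm.trans hXX.symm

/-- A vector of the column space which is zero at the pivots. -/
theorem CAux.col_of_zero (hS : Adm Sum.inl S) (x : Var S J → Ω) (Y : Matrix (π ⊕ ρ) J Ω)
    (a : Rw π ρ σ → Ω) (ha : ∃ y : J → Ω, (XX x * Y) *ᵥ y = a) (h0 : ∀ l, a (Sum.inl l) = 0) :
    XX x *ᵥ (Sum.elim (fun _ => 0) (fun k => a (Sum.inr (Sum.inl k))) : π ⊕ ρ → Ω) = a ∧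
      ∀ s, a (Sum.inr (Sum.inr s)) = ∑ k, xA x s k * a (Sum.inr (Sum.inl k)) := by
  obtain ⟨y, hy⟩ := ha
  rw [← Matrix.mulVec_mulVec] at hy
  set e := Y *ᵥ y with he
  set U := (XX x).submatrix (top : π ⊕ ρ → Rw π ρ σ) id with hU
  have hdet : IsUnit U.det := by
    rw [hU, XX_det hS]
    exact isUnit_one
  have h2 : U *ᵥ e = fun k => a (top k) := by
    rw [← hy]
    rfl
  have h3 : U *ᵥ (Sum.elim (fun _ => 0) (fun k => a (Sum.inr (Sum.inl k))) : π ⊕ ρ → Ω) =
      fun k => a (top k) := by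
    funext i
    rw [Matrix.mulVec, dotProduct, Fintype.sum_sum_type]
    rcases i with l | k
    · simp [hU, XX_inl_inr, h0]
    · simp [hU, XX_inr_inl_inr]
  have h4 : e = (Sum.elim (fun _ => 0) (fun k => a (Sum.inr (Sum.inl k))) : π ⊕ ρ → Ω) := by
    have h5 := h2.trans h3.symm
    have := congrArg (fun y => U⁻¹ *ᵥ y) h5
    simpa [Matrix.mulVec_mulVec, Matrix.nonsing_inv_mul _ hdet] using this
  have h6 : XX x *ᵥ (Sum.elim (fun _ => 0) (fun k => a (Sum.inr (Sum.inl k))) : π ⊕ ρ → Ω) =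
      a := by
    rw [← h4, hy]
  refine ⟨h6, fun s => ?_⟩
  conv_lhs => rw [← h6]
  rw [Matrix.mulVec, dotProduct, Fintype.sum_sum_type]
  simp [XX_inr_inr_inr]

/-- The conormal vectors from the equation `P Gᵀ = Q h + a b`. -/
theorem CAux.cr_split (hS : Adm Sum.inl S) (x : Var S J → Ω) (q h : π → Rw π ρ σ → Ω)
    (hfr : fr x = q) (a b : Rw π ρ σ → Ω)
    (ha : XX x *ᵥ (Sum.elim (fun _ => 0) (fun k => a (Sum.inr (Sum.inl k))) : π ⊕ ρ → Ω) = a)
    (hcr : XX x * Matrix.of (xY x) * (Matrix.of (xG x))ᵀ =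
      ∑ l, Matrix.vecMulVec (q l) (h l) + Matrix.vecMulVec a b) :
    xh x = h ∧ ∀ k i, ∑ j, xY x (Sum.inr k) j * xG x i j = a (Sum.inr (Sum.inl k)) * b i := by
  have h1 : XX x * (Matrix.of (xY x) * (Matrix.of (xG x))ᵀ) = XX x * (Matrix.of fun k i =>
      Sum.elim (fun l => h l i) (fun k => a (Sum.inr (Sum.inl k)) * b i) k) := by
    rw [← Matrix.mul_assoc, hcr]
    ext i i'
    have hai : a i = ∑ c, XX x i c * (Sum.elim (fun _ => 0)
      (fun k => a (Sum.inr (Sum.inl k))) : π ⊕ ρ → Ω) c := (congrFun ha i).symm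
    rw [Matrix.mul_apply, Fintype.sum_sum_type]
    simp only [Matrix.add_apply, Matrix.sum_apply, Matrix.vecMulVec_apply, Matrix.of_apply,
      Sum.elim_inl, Sum.elim_inr, XX_inl, hfr]
    congr 1
    rw [hai, Fintype.sum_sum_type]
    simp only [Sum.elim_inl, mul_zero, Finset.sum_const_zero, Sum.elim_inr, zero_add,
      Finset.sum_mul, mul_assoc]
  have h2 := XX_mul_inj hS x _ _ h1
  refine ⟨?_, ?_⟩
  · funext l i
    exact congrFun (congrFun h2 (Sum.inl l)) i
  · intro k i
    exact congrFun (congrFun h2 (Sum.inr k)) i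

/-- A point given by its coordinates in the chart satisfies the equations of the chart. -/
theorem CAux.chart_eqs (hS : Adm Sum.inl S) (c : Ω) (T : Finset (ρ ⊕ σ)) (i₀ : ρ ⊕ σ)
    (u : Matrix (Rw π ρ σ) J Ω) (v : π → Rw π ρ σ → Ω) (w : ρ ⊕ σ → Ω)
    (z : Qnt Ω π (Rw π ρ σ) J)
    (hz : SysQ c (Fintype.card π + Fintype.card ρ) Sum.inl S (T.map Function.Embedding.inr)
      (Sum.inr i₀) u v (wr w) z) (x : Var S J → Ω) (hf : ∀ y : Fre S, xf x y = z.q y.1.1 y.1.2)
    (hG : Matrix.of (xG x) = z.G) (hxa : ∀ i, xa x i = z.a (Sum.inr i)) (hxb : xb x = z.b)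
    (hXY : XX x * Matrix.of (xY x) = z.P) : toQ x = z ∧ ev c T i₀ x = dat T i₀ u v w := by
  have hYr : (Matrix.of (xY x)).rank = Fintype.card (π ⊕ ρ) := by
    apply le_antisymm (Matrix.rank_le_card_height _)
    have h1 := hz.rk
    rw [← hXY] at h1
    rw [Fintype.card_sum, ← h1]
    exact Matrix.rank_mul_le_right _ _
  obtain ⟨Z, hZ⟩ := exists_right_inv _ hYr
  have hPZ : z.P * Z = XX x := by
    rw [← hXY, Matrix.mul_assoc, hZ, Matrix.mul_one]
  have hfr : fr x = z.q := fr_eq hS x z.q hz.one hz.zero hf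
  have hP : Matrix.of (xP x) = z.P := by
    rw [xP_eq, hXY]
  have ha0 : ∀ l, z.a (Sum.inl l) = 0 := by
    intro l
    refine hz.zero' _ fun h => ?_
    obtain ⟨i, _, hi⟩ := Finset.mem_map.mp h
    exact absurd hi (by simp)
  have hac := col_of_zero hS x (Matrix.of (xY x)) z.a (by rw [hXY]; exact hz.mem') ha0
  have hcs := cr_split hS x z.q z.h hfr (c • z.a) z.b (by
      have h2 : (Sum.elim (fun _ => 0) (fun k => (c • z.a) (Sum.inr (Sum.inl k))) : π ⊕ ρ → Ω) =
          c • (Sum.elim (fun _ => 0) (fun k => z.a (Sum.inr (Sum.inl k))) : π ⊕ ρ → Ω) := by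
        funext k
        rcases k with l | k
        · simp
        · simp
      rw [h2, Matrix.mulVec_smul, hac.1]) (by
      rw [hG, hXY, hz.cr, Matrix.smul_vecMulVec])
  have hXG : (XX x)ᵀ * Matrix.of (xG x) = 0 := by
    rw [← hPZ, Matrix.transpose_mul, Matrix.mul_assoc, hG, hz.orth, Matrix.mul_zero]
  have hXb : (XX x)ᵀ *ᵥ xb x = 0 := by
    rw [← hPZ, Matrix.transpose_mul, ← Matrix.mulVec_mulVec, hxb, hz.perp', Matrix.mulVec_zero]
  have hPij : ∀ i j, xP x i j = z.P i j := fun i j => congrFun (congrFun hP i) j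
  have hGij : ∀ i j, xG x i j = z.G i j := fun i j => congrFun (congrFun hG i) j
  refine ⟨?_, ?_⟩
  · have ea : (toQ x).a = z.a := by
      funext i
      rcases i with l | i
      · exact (ha0 l).symm
      · exact hxa i
    have eb : (toQ x).toPnt = z.toPnt := by
      ext
      · exact hPij _ _
      · exact hGij _ _
      · change fr x _ _ = _
        rw [hfr]
      · change xh x _ _ = _
        rw [hcs.1]
    ext1
    · exact congrArg Pnt.P eb
    · exact congrArg Pnt.G eb
    · exact congrArg Pnt.q eb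
    · exact congrArg Pnt.h eb
    · exact ea
    · exact hxb
  · funext e
    rcases e with ⟨k, j⟩ | k | s | ⟨k, s⟩ | ⟨i, j⟩ | y | i
    · change pX x (fun i => xG x i j) k = 0
      rw [pX_eq_mul, hXG]
      rfl
    · change pX x (xb x) k = 0
      rw [pX_eq, hXb]
      rfl
    · change xa x (Sum.inr s) - ∑ k, xA x s k * xa x (Sum.inl k) = 0
      simp only [hxa]
      exact sub_eq_zero.mpr (hac.2 s)
    · change ∑ j, xY x (Sum.inr k) j * xG x (Sum.inr (Sum.inr s)) j -
        c * (xa x (Sum.inl k) * xb x (Sum.inr (Sum.inr s))) = 0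
      rw [hcs.2, hxa, hxb]
      simp only [Pi.smul_apply, smul_eq_mul, mul_assoc]
      exact sub_self _
    · change xP x i j * (1 + xG x i j) = u i j
      rw [hPij, hGij]
      exact hz.eq i j
    · change xf x y * xh x y.1.1 y.1.2 = - v y.1.1 y.1.2
      rw [hcs.1, hf]
      exact hz.vq y.1.1 y.1.2 y.2.1 y.2.2
    · change (if i = i₀ then xa x i else if i ∈ T then xa x i * xb x (Sum.inr i) else xa x i) =
        if i = i₀ then 1 else if i ∈ T then - w i else 0
      rw [hxa, hxb]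
      split_ifs with h1 h2
      · subst h1
        exact hz.one'
      · exact hz.vq' (Sum.inr i) (Finset.mem_map.mpr ⟨i, h2, rfl⟩) (fun h => h1 (Sum.inr.inj h))
      · refine hz.zero' (Sum.inr i) fun h => h2 ?_
        obtain ⟨i', hi', he⟩ := Finset.mem_map.mp h
        rw [← Sum.inr.inj he]
        exact hi'

/-- every point whose rows `π ⊕ ρ` have full rank is in the chart; `C` is the property of being in
a subring (integrality), closed under the operations, and `det` of the minor is invertible in it -/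
theorem exists_chart (hS : Adm Sum.inl S) (c : Ω) (T : Finset (ρ ⊕ σ)) (i₀ : ρ ⊕ σ) (hi₀ : i₀ ∈ T)
    (u : Matrix (Rw π ρ σ) J Ω) (v : π → Rw π ρ σ → Ω) (w : ρ ⊕ σ → Ω)
    (z : Qnt Ω π (Rw π ρ σ) J)
    (hz : SysQ c (Fintype.card π + Fintype.card ρ) Sum.inl S (T.map Function.Embedding.inr)
      (Sum.inr i₀) u v (wr w) z)
    (B : Subring Ω) (hB : z.All (· ∈ B)) (g : π ⊕ ρ → J)
    (hd : (z.P.submatrix (Sum.map id Sum.inl : π ⊕ ρ → Rw π ρ σ) g).det ≠ 0)
    (hd' : (z.P.submatrix (Sum.map id Sum.inl : π ⊕ ρ → Rw π ρ σ) g).det⁻¹ ∈ B) :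
    ∃ x : Var S J → Ω, toQ x = z ∧ ev c T i₀ x = dat T i₀ u v w ∧ ∀ y, x y ∈ B := by
  obtain ⟨A, Y, Z, hA, hY, hx⟩ := chart_core hS z.P z.q hz.rk hz.mem hz.one hz.zero B hB.pnt.P
    hB.pnt.q g hd hd'
  let x : Var S J → Ω := Sum.elim (fun y => z.q y.1.1 y.1.2) (Sum.elim (fun y => A y.1 y.2)
    (Sum.elim (fun y => Y y.1 y.2) (Sum.elim (fun y => z.G y.1 y.2)
      (Sum.elim (fun i => z.a (Sum.inr i)) z.b))))
  obtain ⟨hXY, -⟩ := hx x (fun _ => rfl) (fun _ _ => rfl)
  obtain ⟨h1, h2⟩ := chart_eqs hS c T i₀ u v w z hz x (fun _ => rfl) rfl (fun _ => rfl) rfl hXY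
  refine ⟨x, h1, h2, ?_⟩
  intro y
  rcases y with y | y | y | y | y | y
  · exact hB.pnt.q _ _
  · exact hA _ _
  · exact hY _ _
  · exact hB.pnt.G _ _
  · exact hB.a _
  · exact hB.b _

/-- the same for the points without extra vector (the coordinates `a`, `b` of `x` are arbitrary) -/
theorem exists_chart0 (hS : Adm Sum.inl S)
    (u : Matrix (Rw π ρ σ) J Ω) (v : π → Rw π ρ σ → Ω) (z : Pnt Ω π (Rw π ρ σ) J)
    (hz : Sys (Fintype.card π + Fintype.card ρ) Sum.inl S u v z)
    (B : Subring Ω) (hB : z.All (· ∈ B)) (g : π ⊕ ρ → J)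
    (hd : (z.P.submatrix (Sum.map id Sum.inl : π ⊕ ρ → Rw π ρ σ) g).det ≠ 0)
    (hd' : (z.P.submatrix (Sum.map id Sum.inl : π ⊕ ρ → Rw π ρ σ) g).det⁻¹ ∈ B) :
    ∃ x : Var S J → Ω, (toQ x).toPnt = z ∧ (∀ y, x y ∈ B) ∧
      (∀ k j, pX x (fun i => xG x i j) k = 0) ∧
      (∀ k s, ∑ j, xY x (Sum.inr k) j * xG x (Sum.inr (Sum.inr s)) j = 0) ∧
      (∀ i j, xP x i j * (1 + xG x i j) = u i j) ∧
      (∀ y : Fre S, xf x y * xh x y.1.1 y.1.2 = - v y.1.1 y.1.2) := by
  obtain ⟨A, Y, Z, hA, hY, hx⟩ := chart_core hS z.P z.q hz.rk hz.mem hz.one hz.zero B hB.P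
    hB.q g hd hd'
  let x : Var S J → Ω := Sum.elim (fun y => z.q y.1.1 y.1.2) (Sum.elim (fun y => A y.1 y.2)
    (Sum.elim (fun y => Y y.1 y.2) (Sum.elim (fun y => z.G y.1 y.2)
      (Sum.elim (fun _ => 0) (fun _ => 0)))))
  obtain ⟨hXY, hPZ⟩ := hx x (fun _ => rfl) (fun _ _ => rfl)
  have hfr : fr x = z.q := fr_eq hS x z.q hz.one hz.zero (fun _ => rfl)
  have hYx : Matrix.of (xY x) = Y := rfl
  have hGx : Matrix.of (xG x) = z.G := rfl
  have hP : Matrix.of (xP x) = z.P := by
    rw [xP_eq, hYx, hXY]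
  have hcs := cr_split hS x z.q z.h hfr 0 0 (by
      have h2 : (Sum.elim (fun _ => 0) (fun k => (0 : Rw π ρ σ → Ω) (Sum.inr (Sum.inl k))) :
          π ⊕ ρ → Ω) = 0 := by
        funext k
        rcases k with l | k
        · simp
        · simp
      rw [h2, Matrix.mulVec_zero]) (by
      rw [hYx, hGx, hXY, hz.cr, Matrix.zero_vecMulVec, add_zero])
  have hXG : (XX x)ᵀ * Matrix.of (xG x) = 0 := by
    rw [← hPZ, Matrix.transpose_mul, Matrix.mul_assoc, hGx, hz.orth, Matrix.mul_zero]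
  have hPij : ∀ i j, xP x i j = z.P i j := fun i j => congrFun (congrFun hP i) j
  refine ⟨x, ?_, ?_, ?_, ?_, ?_, ?_⟩
  · ext
    · exact hPij _ _
    · rfl
    · change fr x _ _ = _
      rw [hfr]
    · change xh x _ _ = _
      rw [hcs.1]
  · intro y
    rcases y with y | y | y | y | y | y
    · exact hB.q _ _
    · exact hA _ _
    · exact hY _ _
    · exact hB.G _ _
    · exact B.zero_mem
    · exact B.zero_mem
  · intro k j
    rw [pX_eq_mul, hXG]
    rfl
  · intro k s
    rw [hcs.2]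
    simp
  · intro i j
    rw [hPij]
    exact hz.eq i j
  · intro y
    rw [hcs.1]
    exact hz.vq y.1.1 y.1.2 y.2.1 y.2.2

theorem toQ_inj (hS : Adm Sum.inl S) (x x' : Var S J → Ω)
    (hY : (Matrix.of (xY x)).rank = Fintype.card π + Fintype.card ρ) (h : toQ x = toQ x') :
    x = x' := by
  have hY' : (Matrix.of (xY x)).rank = Fintype.card (π ⊕ ρ) := by
    rw [hY, Fintype.card_sum]
  obtain ⟨Z, hZ⟩ := exists_right_inv _ hY'
  have hq : fr x = fr x' := congrArg (fun z => z.q) h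
  have hG : Matrix.of (xG x) = Matrix.of (xG x') := congrArg (fun z => z.G) h
  have hb : xb x = xb x' := congrArg (fun z => z.b) h
  have ha : (toQ x).a = (toQ x').a := congrArg (fun z => z.a) h
  have hP : XX x * Matrix.of (xY x) = XX x' * Matrix.of (xY x') := by
    rw [← xP_eq, ← xP_eq]
    exact congrArg (fun z => z.P) h
  have hYY : Matrix.of (xY x) = Matrix.of (xY x') := by
    have hU : (XX x).submatrix (top : π ⊕ ρ → Rw π ρ σ) id =
        (XX x').submatrix (top : π ⊕ ρ → Rw π ρ σ) id := by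
      ext i c
      rcases c with l | k
      · change fr x l (top i) = fr x' l (top i)
        rw [hq]
      · rcases i with l | k'
        · rfl
        · rfl
    have h1 : (XX x).submatrix (top : π ⊕ ρ → Rw π ρ σ) id * Matrix.of (xY x) =
        (XX x).submatrix (top : π ⊕ ρ → Rw π ρ σ) id * Matrix.of (xY x') := by
      conv_rhs => rw [hU]
      ext i j
      have := congrFun (congrFun hP (top i)) j
      exact this
    have hdet : IsUnit ((XX x).submatrix (top : π ⊕ ρ → Rw π ρ σ) id).det := by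
      rw [XX_det hS]
      exact isUnit_one
    have := congrArg (fun y => ((XX x).submatrix (top : π ⊕ ρ → Rw π ρ σ) id)⁻¹ * y) h1
    simpa [← Matrix.mul_assoc, Matrix.nonsing_inv_mul _ hdet] using this
  have hXX : XX x = XX x' := by
    rw [← hYY] at hP
    have := congrArg (fun y => y * Z) hP
    simpa [Matrix.mul_assoc, hZ] using this
  funext y
  rcases y with y | y | y | y | y | y
  · change xf x y = xf x' y
    rw [← fr_free, ← fr_free, hq]
  · exact congrFun (congrFun hXX (Sum.inr (Sum.inr y.1))) (Sum.inr y.2)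
  · exact congrFun (congrFun hYY y.1) y.2
  · exact congrFun (congrFun hG y.1) y.2
  · exact congrFun ha (Sum.inr y)
  · exact congrFun hb y

end rowC

end Pool.EU.TB
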