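import Pool.Agent.EU.TBShape
import Pool.Agent.EU.TBC
import Pool.Agent.EU.TBR

/-!
# Every solution is in a chart, and back; generic data in the chart
-/

set_option autoImplicit false
set_option linter.unusedSectionVars false

namespace Pool.EU.TB

open Matrix

section general

variable {Ω π I J : Type} [Field Ω] [Fintype π] [Fintype I] [Fintype J] [LinearOrder π]
  [DecidableEq I] [DecidableEq J] {p : π → I} {S : π → Finset I} {T : Finset I} {i₀ : I} {r : ℕ}

theorem sysQ_w {c : Ω} {u : Matrix I J Ω} {v : π → I → Ω} {w w2 : I → Ω} {z : Qnt Ω π I J}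
    (hz : SysQ c r p S T i₀ u v w z) (h : ∀ i ∈ T, i ≠ i₀ → w i = w2 i) :
    SysQ c r p S T i₀ u v w2 z :=
  { hz with vq' := fun i hi hne => (hz.vq' i hi hne).trans (by rw [h i hi hne]) }

/-- The support in the chart. -/
abbrev chT {ρ σ : Type} [Fintype ρ] [Fintype σ] (E : I ≃ Rw π ρ σ) (T : Finset I) :
    Finset (ρ ⊕ σ) := Finset.univ.filter fun i => E.symm (Sum.inr i) ∈ T

theorem chT_map {ρ σ : Type} [Fintype ρ] [Fintype σ] [DecidableEq ρ] [DecidableEq σ]
    (E : I ≃ Rw π ρ σ) (hE : ∀ l, E (p l) = Sum.inl l) (hT : ∀ i ∈ T, i ∉ Set.range p) :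
    (chT E T).map Function.Embedding.inr = T.map E.toEmbedding := by
  ext i
  simp only [Finset.mem_map, Finset.mem_filter, Finset.mem_univ, true_and,
    Function.Embedding.inr_apply, Equiv.coe_toEmbedding]
  constructor
  · rintro ⟨j, hj, rfl⟩
    exact ⟨_, hj, E.apply_symm_apply _⟩
  · rintro ⟨j, hj, rfl⟩
    rcases h : E j with l | k
    · exfalso
      refine hT j hj ⟨l, ?_⟩
      apply E.injective
      rw [hE, h]
    · refine ⟨k, ?_, rfl⟩
      rw [← h, E.symm_apply_apply]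
      exact hj

theorem adm_rows {ρ σ : Type} [Fintype ρ] [Fintype σ] [DecidableEq ρ] [DecidableEq σ]
    (E : I ≃ Rw π ρ σ) (hE : ∀ l, E (p l) = Sum.inl l) (hS : Adm p S) :
    Adm (Sum.inl : π → Rw π ρ σ) (fun l => (S l).map E.toEmbedding) where
  inj := Sum.inl_injective
  mem l := by
    rw [Finset.mem_map]
    exact ⟨p l, hS.mem l, hE l⟩
  notMem l l' h := by
    rw [Finset.mem_map]
    rintro ⟨i, hi, h1⟩
    have h2 : i = p l' := E.injective (h1.trans (hE l').symm)
    exact hS.notMem l l' h (h2 ▸ hi)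

/-- Every point is in a chart. -/
theorem chart_of_sysQ (hS : Adm p S) (hk : Fintype.card π ≤ r) (hrI : r ≤ Fintype.card I)
    (hT : ∀ i ∈ T, i ∉ Set.range p) (hi₀ : i₀ ∈ T) {c : Ω} {u : Matrix I J Ω} {v : π → I → Ω}
    {w : I → Ω} {z : Qnt Ω π I J} (hz : SysQ c r p S T i₀ u v w z) :
    ∃ (E : I ≃ Rw π (Fin (r - Fintype.card π)) (Fin (Fintype.card I - r)))
      (i' : Fin (r - Fintype.card π) ⊕ Fin (Fintype.card I - r))
      (x : Var (fun l => (S l).map E.toEmbedding) J → Ω),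
      (∀ l, E (p l) = Sum.inl l) ∧ E i₀ = Sum.inr i' ∧ toQ x = z.rows E ∧
      ev c (chT E T) i' x = dat (chT E T) i' (u.submatrix E.symm id)
        (fun l i => v l (E.symm i)) (fun i => w (E.symm (Sum.inr i))) := by
  obtain ⟨E, g, hE, hdet⟩ := exists_rows hS hk hrI u v z.toPnt hz.toBase
  have hi : ∃ i', E i₀ = Sum.inr i' := by
    rcases h : E i₀ with l | k
    · exfalso
      refine hT i₀ hi₀ ⟨l, ?_⟩
      apply E.injective
      rw [hE, h]
    · exact ⟨k, rfl⟩
  obtain ⟨i', hi'⟩ := hi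
  have h1 := hz.rows' E
  have hr : Fintype.card π + Fintype.card (Fin (r - Fintype.card π)) = r := by
    rw [Fintype.card_fin]
    omega
  have h2 : SysQ c (Fintype.card π + Fintype.card (Fin (r - Fintype.card π)))
      (Sum.inl : π → Rw π (Fin (r - Fintype.card π)) (Fin (Fintype.card I - r)))
      (fun l => (S l).map E.toEmbedding) ((chT E T).map Function.Embedding.inr) (Sum.inr i')
      (u.submatrix E.symm id) (fun l i => v l (E.symm i))
      (wr (fun i => w (E.symm (Sum.inr i)))) (z.rows E) := by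
    rw [hr, chT_map E hE hT, ← hi']
    have h3 : (fun l => E (p l)) = Sum.inl := funext hE
    rw [h3] at h1
    refine sysQ_w h1 fun i hi hne => ?_
    rcases i with l | k
    · exfalso
      obtain ⟨j, hj, hji⟩ := Finset.mem_map.mp hi
      refine hT j hj ⟨l, ?_⟩
      apply E.injective
      rw [hE]
      exact hji.symm
    · rfl
  obtain ⟨x, hx1, hx2, -⟩ := exists_chart (adm_rows E hE hS) c (chT E T) i'
    (by
      rw [Finset.mem_filter]
      refine ⟨Finset.mem_univ _, ?_⟩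
      rw [← hi', E.symm_apply_apply]
      exact hi₀) (u.submatrix E.symm id) (fun l i => v l (E.symm i))
    (fun i => w (E.symm (Sum.inr i))) (z.rows E) h2 ⊤
    ⟨⟨fun _ _ => trivial, fun _ _ => trivial, fun _ _ => trivial, fun _ _ => trivial⟩,
      fun _ => trivial, fun _ => trivial⟩ g hdet trivial
  exact ⟨E, i', x, hE, hi', hx1, hx2⟩

/-- Points of a chart with full rank are solutions. -/
theorem sysQ_of_chart (hS : Adm p S) (hk : Fintype.card π ≤ r)
    (hT : ∀ i ∈ T, i ∉ Set.range p) (hi₀ : i₀ ∈ T) {c : Ω} {u : Matrix I J Ω} {v : π → I → Ω}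
    {w : I → Ω} (E : I ≃ Rw π (Fin (r - Fintype.card π)) (Fin (Fintype.card I - r)))
    (i' : Fin (r - Fintype.card π) ⊕ Fin (Fintype.card I - r))
    (x : Var (fun l => (S l).map E.toEmbedding) J → Ω)
    (hE : ∀ l, E (p l) = Sum.inl l) (hi' : E i₀ = Sum.inr i')
    (hx : ev c (chT E T) i' x = dat (chT E T) i' (u.submatrix E.symm id)
        (fun l i => v l (E.symm i)) (fun i => w (E.symm (Sum.inr i))))
    (hY : (Matrix.of (xY x)).rank =
      Fintype.card π + Fintype.card (Fin (r - Fintype.card π))) :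
    SysQ c r p S T i₀ u v w ((toQ x).rows E.symm) := by
  have hr : Fintype.card π + Fintype.card (Fin (r - Fintype.card π)) = r := by
    rw [Fintype.card_fin]
    omega
  have h1 := toQ_sys (adm_rows E hE hS) c (chT E T) i' (by
      rw [Finset.mem_filter]
      refine ⟨Finset.mem_univ _, ?_⟩
      rw [← hi', E.symm_apply_apply]
      exact hi₀) _ _ _ x hx hY
  rw [hr, chT_map E hE hT, ← hi'] at h1
  have h2 := h1.rows' E.symm
  have e1 : (fun l => E.symm (Sum.inl l)) = p := by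
    funext l
    rw [← hE, E.symm_apply_apply]
  have e2 : (fun l => ((S l).map E.toEmbedding).map E.symm.toEmbedding) = S := by
    funext l
    ext i
    simp
  have e3 : (T.map E.toEmbedding).map E.symm.toEmbedding = T := by
    ext i
    simp
  have e4 : (u.submatrix E.symm id).submatrix E.symm.symm id = u := by
    ext i j
    simp
  have e5 : (fun (l : π) (i : I) => (fun l i => v l (E.symm i) : π → _ → Ω) l (E.symm.symm i)) =
      v := by
    funext l i
    simp
  rw [e1, e2, e3, e4, E.symm_apply_apply] at h2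
  simp only [e5] at h2
  refine sysQ_w h2 fun i hi hne => ?_
  rw [Equiv.symm_symm]
  rcases h : E i with l | k
  · exfalso
    refine hT i hi ⟨l, ?_⟩
    apply E.injective
    rw [hE, h]
  · change w (E.symm (Sum.inr k)) = w i
    rw [← h, E.symm_apply_apply]

end general

section weights

variable {I : Type} [DecidableEq I] {T : Finset I} {i₀ : I}

theorem sum_wz {R : Type} [AddCommGroup R] (hi₀ : i₀ ∈ T) (w : I → R) :
    ∑ i ∈ T, wz T i₀ w i = 0 := by
  rw [← Finset.add_sum_erase T _ hi₀, wz, if_pos rfl]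
  have h1 : ∑ i ∈ T.erase i₀, wz T i₀ w i = ∑ i ∈ T.erase i₀, w i :=
    Finset.sum_congr rfl fun i hi => by rw [wz, if_neg (Finset.ne_of_mem_erase hi)]
  rw [h1, neg_add_cancel]

theorem wz_wz {R : Type} [CommRing R] (hi₀ : i₀ ∈ T) (w : I → R) (ε : R) (i₁ : I) (i : I)
    (hi : i ∈ T) : wz T i₁ (fun i => ε * wz T i₀ w i) i = ε * wz T i₀ w i := by
  by_cases h : i = i₁
  · subst h
    rw [wz, if_pos rfl, ← Finset.mul_sum]
    have h1 := sum_wz hi₀ w
    rw [← Finset.add_sum_erase T _ hi] at h1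
    linear_combination -ε * h1
  · rw [wz, if_neg h]

end weights

section complex

variable {π I J : Type} [Fintype π] [Fintype I] [Fintype J] [LinearOrder π]
  [DecidableEq I] [DecidableEq J] {p : π → I} {S : π → Finset I} {T : Finset I} {i₀ : I} {r : ℕ}

theorem gen0_of_gen1 {u : Matrix I J ℂ} {v : π → I → ℂ} {w : I → ℂ}
    (hg : Gen1 p S T i₀ u v w) : Gen0 p S u v :=
  AlgebraicIndependent.comp hg Sum.inl Sum.inl_injective

theorem gen0_chart {ρ σ : Type} [Fintype ρ] [Fintype σ] [DecidableEq ρ] [DecidableEq σ]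
    (E : I ≃ Rw π ρ σ) (hE : ∀ l, E (p l) = Sum.inl l) {u : Matrix I J ℂ} {v : π → I → ℂ}
    (hg : Gen0 p S u v) :
    Gen0 (Sum.inl : π → Rw π ρ σ) (fun l => (S l).map E.toEmbedding) (u.submatrix E.symm id)
      (fun l i => v l (E.symm i)) := by
  have hmem : ∀ y : {x : π × Rw π ρ σ // x.2 ∈ (S x.1).map E.toEmbedding ∧ x.2 ≠ Sum.inl x.1},
      E.symm y.1.2 ∈ S y.1.1 ∧ E.symm y.1.2 ≠ p y.1.1 := by
    rintro ⟨⟨l, i⟩, h1, h2⟩
    refine ⟨?_, ?_⟩
    · obtain ⟨j, hj, hji⟩ := Finset.mem_map.mp h1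
      have h3 : E j = i := hji
      change E.symm i ∈ S l
      rw [← h3, E.symm_apply_apply]
      exact hj
    · intro h3
      apply h2
      change i = Sum.inl l
      rw [← hE l, ← h3]
      simp
  let f : DI J (Sum.inl : π → Rw π ρ σ) (fun l => (S l).map E.toEmbedding) → DI J p S :=
    Sum.elim (fun y => Sum.inl (E.symm y.1, y.2))
      (fun y => Sum.inr ⟨(y.1.1, E.symm y.1.2), hmem y⟩)
  have hf : Function.Injective f := by
    rintro (⟨i, j⟩ | ⟨⟨l, i⟩, h⟩) (⟨i', j'⟩ | ⟨⟨l', i'⟩, h'⟩) he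
    · simp only [f, Sum.elim_inl, Sum.inl.injEq, Prod.mk.injEq,
        EmbeddingLike.apply_eq_iff_eq] at he
      rw [he.1, he.2]
    · simp [f] at he
    · simp [f] at he
    · simp only [f, Sum.elim_inr, Sum.inr.injEq, Subtype.mk.injEq, Prod.mk.injEq,
        EmbeddingLike.apply_eq_iff_eq] at he
      obtain ⟨rfl, rfl⟩ := he
      rfl
  have h1 := AlgebraicIndependent.comp hg f hf
  have h2 : dat0 (Sum.inl : π → Rw π ρ σ) (fun l => (S l).map E.toEmbedding)
      (u.submatrix E.symm id) (fun l i => v l (E.symm i)) = dat0 p S u v ∘ f := by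
    funext y
    rcases y with y | y
    · rfl
    · rfl
  rw [Gen0, h2]
  exact h1

theorem gen1_chart {ρ σ : Type} [Fintype ρ] [Fintype σ] [DecidableEq ρ] [DecidableEq σ]
    (E : I ≃ Rw π ρ σ) (hE : ∀ l, E (p l) = Sum.inl l) (i' : ρ ⊕ σ) (hi' : E i₀ = Sum.inr i')
    {u : Matrix I J ℂ} {v : π → I → ℂ} {w : I → ℂ}
    (hg : Gen1 p S T i₀ u v w) :
    AlgebraicIndependent ℚ (Sum.elim (dat0 (Sum.inl : π → Rw π ρ σ)
      (fun l => (S l).map E.toEmbedding) (u.submatrix E.symm id) (fun l i => v l (E.symm i)))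
      (fun i : {i // i ∈ chT E T ∧ i ≠ i'} => w (E.symm (Sum.inr i.1)))) := by
  have hmem : ∀ y : {x : π × Rw π ρ σ // x.2 ∈ (S x.1).map E.toEmbedding ∧ x.2 ≠ Sum.inl x.1},
      E.symm y.1.2 ∈ S y.1.1 ∧ E.symm y.1.2 ≠ p y.1.1 := by
    rintro ⟨⟨l, i⟩, h1, h2⟩
    refine ⟨?_, ?_⟩
    · obtain ⟨j, hj, hji⟩ := Finset.mem_map.mp h1
      have h3 : E j = i := hji
      change E.symm i ∈ S l
      rw [← h3, E.symm_apply_apply]
      exact hj
    · intro h3
      apply h2
      change i = Sum.inl l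
      rw [← hE l, ← h3]
      simp
  have hmem2 : ∀ y : {i // i ∈ chT E T ∧ i ≠ i'}, E.symm (Sum.inr y.1) ∈ T ∧
      E.symm (Sum.inr y.1) ≠ i₀ := by
    rintro ⟨i, h1, h2⟩
    refine ⟨(Finset.mem_filter.mp h1).2, fun h3 => h2 ?_⟩
    have h4 : E (E.symm (Sum.inr i)) = Sum.inr i' := by rw [h3, hi']
    rw [E.apply_symm_apply] at h4
    exact Sum.inr_injective h4
  let f : DI J (Sum.inl : π → Rw π ρ σ) (fun l => (S l).map E.toEmbedding) ⊕
      {i // i ∈ chT E T ∧ i ≠ i'} → DQ J p S T i₀ :=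
    Sum.elim (Sum.elim (fun y => Sum.inl (Sum.inl (E.symm y.1, y.2)))
      (fun y => Sum.inl (Sum.inr ⟨(y.1.1, E.symm y.1.2), hmem y⟩)))
      (fun y => Sum.inr ⟨E.symm (Sum.inr y.1), hmem2 y⟩)
  have hf : Function.Injective f := by
    rintro ((⟨i, j⟩ | ⟨⟨l, i⟩, h⟩) | ⟨i, h⟩) ((⟨i', j'⟩ | ⟨⟨l', i'⟩, h'⟩) | ⟨i', h'⟩) he
    · simp only [f, Sum.elim_inl, Sum.inl.injEq, Prod.mk.injEq,
        EmbeddingLike.apply_eq_iff_eq] at he
      rw [he.1, he.2]
    · simp [f] at he
    · simp [f] at he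
    · simp [f] at he
    · simp only [f, Sum.elim_inl, Sum.elim_inr, Sum.inl.injEq, Sum.inr.injEq, Subtype.mk.injEq,
        Prod.mk.injEq, EmbeddingLike.apply_eq_iff_eq] at he
      obtain ⟨rfl, rfl⟩ := he
      rfl
    · simp [f] at he
    · simp [f] at he
    · simp [f] at he
    · simp only [f, Sum.elim_inr, Sum.inr.injEq, Subtype.mk.injEq,
        EmbeddingLike.apply_eq_iff_eq] at he
      subst he
      rfl
  have h1 := AlgebraicIndependent.comp hg f hf
  have h2 : Sum.elim (dat0 (Sum.inl : π → Rw π ρ σ)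
      (fun l => (S l).map E.toEmbedding) (u.submatrix E.symm id) (fun l i => v l (E.symm i)))
      (fun i : {i // i ∈ chT E T ∧ i ≠ i'} => w (E.symm (Sum.inr i.1))) =
      dat1 p S T i₀ u v w ∘ f := by
    funext y
    rcases y with (y | y) | y
    · rfl
    · rfl
    · rfl
  rw [h2]
  exact h1

theorem sum_w_ne_zero {u : Matrix I J ℂ} {v : π → I → ℂ} {w : I → ℂ}
    (hg : Gen1 p S T i₀ u v w) (i₁ : I) (hi₁ : i₁ ∈ T) (hne : i₁ ≠ i₀) :
    ∑ j ∈ T.erase i₀, w j ≠ 0 := by
  intro h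
  have h1 : AlgebraicIndependent ℚ (fun i : {i : I // i ∈ T ∧ i ≠ i₀} => w i.1) :=
    AlgebraicIndependent.comp hg Sum.inr Sum.inr_injective
  have h2 := h1.linearIndependent
  rw [Fintype.linearIndependent_iff] at h2
  have h3 := h2 (fun _ => 1) (by
    simp only [one_smul]
    rw [← h]
    symm
    refine Finset.sum_subtype (T.erase i₀) (p := fun i => i ∈ T ∧ i ≠ i₀) (fun i => ?_) w
    rw [Finset.mem_erase]
    exact and_comm) ⟨i₁, hi₁, hne⟩
  exact one_ne_zero h3

end complex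

end Pool.EU.TB
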