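import Pool.Agent.EU.TB7P
import Pool.Agent.EU.TBChart
import Pool.Agent.EU.TB2

/-!
# Row TB7: persistence of the limit points over the complex numbers
-/

set_option autoImplicit false
set_option linter.unusedSectionVars false

namespace Pool.EU.TB

open Matrix Filter Topology

theorem dat_smul {π ρ σ J : Type} [DecidableEq π] [DecidableEq ρ] [DecidableEq σ]
    [DecidableEq J] [Fintype π] [Fintype ρ] [Fintype σ] [Fintype J] {S : π → Finset (Rw π ρ σ)}
    (T : Finset (ρ ⊕ σ)) (i₀ : ρ ⊕ σ) (u : Matrix (Rw π ρ σ) J ℂ) (v : π → Rw π ρ σ → ℂ)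
    (w : ρ ⊕ σ → ℂ) (ε : ℂ) :
    (dat T i₀ u v (fun i => ε * w i) : Eqn S J → ℂ) =
      dat T i₀ u v 0 + ε • (dat T i₀ u v w - dat T i₀ u v 0) := by
  funext e
  rcases e with e | e | e | e | e | e | e
  · simp [dat]
  · simp [dat]
  · simp [dat]
  · simp [dat]
  · simp [dat]
  · simp [dat]
  · simp only [dat, Sum.elim_inr, Pi.add_apply, Pi.smul_apply, Pi.sub_apply, smul_eq_mul,
      Pi.zero_apply]
    split_ifs
    · ring
    · ring
    · ring

section eqs

variable {π ρ σ J R : Type} [DecidableEq π] [DecidableEq ρ] [DecidableEq σ]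
    [DecidableEq J] [Fintype π] [Fintype ρ] [Fintype σ] [Fintype J] [CommRing R]
    {S : π → Finset (Rw π ρ σ)} {c : R} {T T' : Finset (ρ ⊕ σ)} {i₀ : ρ ⊕ σ}
    {u : Matrix (Rw π ρ σ) J R} {v : π → Rw π ρ σ → R} {w w' : ρ ⊕ σ → R} {x : Var S J → R}

/-- The equations one by one. -/
theorem ev_eqs (hev : ev c T i₀ x = dat T i₀ u v w) :
    (∀ k j, pX x (fun i => xG x i j) k = 0) ∧ (∀ k, pX x (xb x) k = 0) ∧
    (∀ s, xa x (Sum.inr s) = ∑ k, xA x s k * xa x (Sum.inl k)) ∧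
    (∀ k s, ∑ j, xY x (Sum.inr k) j * xG x (Sum.inr (Sum.inr s)) j =
      c * (xa x (Sum.inl k) * xb x (Sum.inr (Sum.inr s)))) ∧
    (∀ i j, xP x i j * (1 + xG x i j) = u i j) ∧
    (∀ y, xf x y * xh x y.1.1 y.1.2 = - v y.1.1 y.1.2) := by
  refine ⟨fun k j => congrFun hev (Sum.inl (k, j)), fun k => congrFun hev (Sum.inr (Sum.inl k)),
    fun s => ?_, fun k s => ?_,
    fun i j => congrFun hev (Sum.inr (Sum.inr (Sum.inr (Sum.inr (Sum.inl (i, j)))))),
    fun y => congrFun hev (Sum.inr (Sum.inr (Sum.inr (Sum.inr (Sum.inr (Sum.inl y))))))⟩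
  · exact sub_eq_zero.mp (congrFun hev (Sum.inr (Sum.inr (Sum.inl s))))
  · exact sub_eq_zero.mp (congrFun hev (Sum.inr (Sum.inr (Sum.inr (Sum.inl (k, s))))))

/-- Only the last equations depend on `T` and `w`. -/
theorem ev_change (hev : ev c T i₀ x = dat T i₀ u v w)
    (h : ∀ i, (if i = i₀ then xa x i else if i ∈ T' then xa x i * xb x (Sum.inr i) else xa x i) =
      if i = i₀ then 1 else if i ∈ T' then - w' i else 0) :
    ev c T' i₀ x = dat T' i₀ u v w' := by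
  funext e
  rcases e with e | e | e | e | e | e | e
  · exact congrFun hev (Sum.inl e)
  · exact congrFun hev (Sum.inr (Sum.inl e))
  · exact congrFun hev (Sum.inr (Sum.inr (Sum.inl e)))
  · exact congrFun hev (Sum.inr (Sum.inr (Sum.inr (Sum.inl e))))
  · exact congrFun hev (Sum.inr (Sum.inr (Sum.inr (Sum.inr (Sum.inl e)))))
  · exact congrFun hev (Sum.inr (Sum.inr (Sum.inr (Sum.inr (Sum.inr (Sum.inl e))))))
  · exact h e

end eqs

section tb7

variable {π I J : Type} [Fintype π] [Fintype I] [Fintype J] [LinearOrder π]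
  [DecidableEq I] [DecidableEq J] {p : π → I} {S : π → Finset I} {T : Finset I} {i₀ : I} {r : ℕ}

theorem near_rows {I' : Type} (E : I ≃ I') {δ : ℝ} {x x0 : Qnt ℂ π I' J} {ζ : Qnt ℂ π I J}
    (h : Qnt.Near δ x x0) (h0 : x0 = ζ.rows E) : Qnt.Near δ (x.rows E.symm) ζ := by
  subst h0
  refine ⟨fun i j => ?_, fun i j => ?_, fun l i => ?_, fun l i => ?_, fun i => ?_, fun i => ?_⟩
  · simpa [Qnt.rows, Pnt.rows] using h.P (E i) j
  · simpa [Qnt.rows, Pnt.rows] using h.G (E i) j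
  · simpa [Qnt.rows, Pnt.rows] using h.q l (E i)
  · simpa [Qnt.rows, Pnt.rows] using h.h l (E i)
  · simpa [Qnt.rows, Pnt.rows] using h.a (E i)
  · simpa [Qnt.rows, Pnt.rows] using h.b (E i)

/-- Row TB7, second kind. -/
theorem tb7b (h : Shape p S T i₀ r J) (u : Matrix I J ℂ) (v : π → I → ℂ) (w : I → ℂ)
    (hg : Gen1 p S T i₀ u v w)
    (ζ : Qnt ℂ π I J) (hζ : SysQ 0 r p S T i₀ u v w ζ) (δ : ℝ) (hδ : 0 < δ) :
    ∃ η : ℝ, 0 < η ∧ ∀ ε : ℂ, ε ≠ 0 → ‖ε‖ < η → ∃ z : Qnt ℂ π I J,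
      SysQ 1 r p S T i₀ u v (fun i => ε * w i) z ∧ Qnt.Near δ (z.scale 1 ε⁻¹) ζ := by
  obtain ⟨E, i', x0, hE, hi', hx0, hev⟩ := chart_of_sysQ h.adm h.lt.le h.ltI.le h.nmem h.mem hζ
  have hi'T : i' ∈ chT E T := by
    rw [Finset.mem_filter]
    refine ⟨Finset.mem_univ _, ?_⟩
    rw [← hi', E.symm_apply_apply]
    exact h.mem
  have hcard : Fintype.card π + (Fintype.card (Fin (r - Fintype.card π)) +
      Fintype.card (Fin (Fintype.card I - r))) ≤ Fintype.card J := by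
    rw [Fintype.card_fin, Fintype.card_fin]
    have h1 := h.lt
    have h2 := h.ltI
    have h3 := h.le
    omega
  obtain ⟨hrk, -, hnd⟩ := tb2c (adm_rows E hE h.adm) hcard (u.submatrix E.symm id)
    (fun l i => v l (E.symm i)) (fun i => w (E.symm (Sum.inr i))) (chT E T) i' hi'T
    (gen1_chart E hE i' hi' hg) 0 (Or.inl rfl) x0 hev
  obtain ⟨η, hη, hper⟩ := persist_chart 0 1 (chT E T) i' x0 _ 0 hev hnd _
    ((rank_nhds x0 hrk).and (near_nhds x0 δ hδ))
  refine ⟨η, hη, fun ε hε0 hε => ?_⟩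
  obtain ⟨x, ⟨hx1, hx2⟩, hx3⟩ := hper ε hε
  rw [zero_add, mul_one, smul_zero, add_zero] at hx3
  have hz1 := sysQ_of_chart (w := w) h.adm h.lt.le h.nmem h.mem E i' x hE hi' hx3 hx1
  refine ⟨((toQ x).rows E.symm).scale 1 ε, ?_, ?_⟩
  · refine { hz1.toBase with cr := ?_, mem' := ?_, perp' := ?_, one' := ?_, zero' := ?_, vq' := ?_ }
    · have h1 := hz1.cr
      change ((toQ x).rows E.symm).P * ((toQ x).rows E.symm).Gᵀ = _
      rw [h1]
      congr 1
      rw [one_smul]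
      ext i j
      simp only [Matrix.smul_apply, Matrix.vecMulVec_apply, Qnt.scale, smul_eq_mul]
      ring
    · obtain ⟨y, hy⟩ := hz1.mem'
      refine ⟨y, ?_⟩
      change ((toQ x).rows E.symm).P *ᵥ y = fun i => 1 * ((toQ x).rows E.symm).a i
      rw [hy]
      funext i
      rw [one_mul]
    · have h1 := hz1.perp'
      change ((toQ x).rows E.symm).Pᵀ *ᵥ (fun i => ε * ((toQ x).rows E.symm).b i) = 0
      have h2 : (fun i => ε * ((toQ x).rows E.symm).b i) = ε • ((toQ x).rows E.symm).b := rfl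
      rw [h2, Matrix.mulVec_smul, h1, smul_zero]
    · change 1 * ((toQ x).rows E.symm).a i₀ = 1
      rw [hz1.one', one_mul]
    · intro i hi
      change 1 * ((toQ x).rows E.symm).a i = 0
      rw [hz1.zero' i hi, mul_zero]
    · intro i hi hne
      have h1 := hz1.vq' i hi hne
      change 1 * ((toQ x).rows E.symm).a i * (ε * ((toQ x).rows E.symm).b i) = -(ε * w i)
      linear_combination ε * h1
  · have h1 : (((toQ x).rows E.symm).scale 1 ε).scale 1 ε⁻¹ = (toQ x).rows E.symm := by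
      ext i j
      · rfl
      · rfl
      · rfl
      · rfl
      · simp [Qnt.scale]
      · simp [Qnt.scale, hε0]
    rw [h1]
    exact near_rows E hx2 hx0

/-- Row TB7, first kind. -/
theorem tb7a (h : Shape p S T i₀ r J) (u : Matrix I J ℂ) (v : π → I → ℂ) (w : I → ℂ)
    (hg : Gen1 p S T i₀ u v w) (A : Finset I) (hA : A ⊆ T) (i₁ : I) (hi₁ : i₁ ∈ A)
    (hB : ∃ i, i ∉ A ∧ i ∉ Set.range p)
    (ζ : Qnt ℂ π I J) (hζ : SysA r p S A i₁ u v ζ) (δ : ℝ) (hδ : 0 < δ) :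
    ∃ η : ℝ, 0 < η ∧ ∀ ε : ℂ, ε ≠ 0 → ‖ε‖ < η → ∃ z : Qnt ℂ π I J,
      SysQ 1 r p S T i₀ u v (fun i => ε * w i) z ∧ ∃ c : ℂ, c ≠ 0 ∧
        Qnt.Near δ (z.scale c c⁻¹) ζ := by
  have hAr : ∀ i ∈ A, i ∉ Set.range p := fun i hi => h.nmem i (hA hi)
  obtain ⟨E, i', x0, hE, hi', hx0, hev⟩ := chart_of_sysQ h.adm h.lt.le h.ltI.le hAr hi₁
    hζ.toSysQ
  have hcard : Fintype.card π + (Fintype.card (Fin (r - Fintype.card π)) +
      Fintype.card (Fin (Fintype.card I - r))) ≤ Fintype.card J := by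
    rw [Fintype.card_fin, Fintype.card_fin]
    have h1 := h.lt
    have h2 := h.ltI
    have h3 := h.le
    omega
  -- the equations in the chart
  obtain ⟨e1, e2, e2', e3', e4, e5⟩ := ev_eqs hev
  have e3 : ∀ k s, ∑ j, xY x0 (Sum.inr k) j * xG x0 (Sum.inr (Sum.inr s)) j =
      xa x0 (Sum.inl k) * xb x0 (Sum.inr (Sum.inr s)) := fun k s => by
    rw [e3' k s, one_mul]
  have hza : ∀ k, xa x0 k = ζ.a (E.symm (Sum.inr k)) := fun k =>
    congrFun (congrArg Qnt.a hx0) (Sum.inr k)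
  have hzb : ∀ i, xb x0 i = ζ.b (E.symm i) := fun i => congrFun (congrArg Qnt.b hx0) i
  have hEi' : E.symm (Sum.inr i') = i₁ := by rw [← hi', E.symm_apply_apply]
  have e6 : xa x0 i' = 1 := by
    rw [hza, hEi']
    exact hζ.one'
  have hab : ∀ i ∈ A, ζ.b i = 0 := by
    intro i hi
    have h1 := hζ.toSysQ.vq_all hi₁ i hi
    have h2 : wz A i₁ (0 : I → ℂ) i = 0 := by
      rw [wz]
      split_ifs
      · simp
      · rfl
    rw [h2, neg_zero, mul_eq_zero] at h1
    exact h1.resolve_left (hζ.suppa i hi)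
  have e7 : ∀ k, xa x0 k * xb x0 (Sum.inr k) = 0 := by
    intro k
    rw [hza, hzb]
    by_cases hk : E.symm (Sum.inr k) ∈ A
    · rw [hab _ hk, mul_zero]
    · rw [hζ.zero' _ hk, zero_mul]
  have e8 : ∃ s, xb x0 (Sum.inr (Sum.inr s)) ≠ 0 := by
    by_contra hno
    push Not at hno
    obtain ⟨i, hiA, hip⟩ := hB
    have h1 := hζ.suppb i hiA hip
    apply h1
    rcases hi : E i with l | k | s
    · exfalso
      apply hip
      refine ⟨l, ?_⟩
      apply E.injective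
      rw [hE, hi]
    · have h2 := e2 (Sum.inr k)
      simp only [pX, Sum.elim_inr, hno, mul_zero, Finset.sum_const_zero, add_zero] at h2
      rw [hzb, ← hi, E.symm_apply_apply] at h2
      exact h2
    · have h2 := hno s
      rw [hzb, ← hi, E.symm_apply_apply] at h2
      exact h2
  obtain ⟨-, hrk, -, hnd⟩ := tb2b (adm_rows E hE h.adm) hcard (u.submatrix E.symm id)
    (fun l i => v l (E.symm i)) (gen0_chart E hE (gen0_of_gen1 hg)) i' x0 e1 e2 e2' e3 e4 e5 e6 e7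
    e8
  have hnd2 := hnd (chT E T) (fun k hk => by
    rw [Finset.mem_filter]
    refine ⟨Finset.mem_univ _, ?_⟩
    by_contra hkT
    apply hk
    rw [hza]
    exact hζ.zero' _ fun h1 => hkT (hA h1))
  have hev2 : ev 1 (chT E T) i' x0 = dat (chT E T) i' (u.submatrix E.symm id)
      (fun l i => v l (E.symm i)) 0 := by
    refine ev_change hev fun e => ?_
    rw [Pi.zero_apply, neg_zero]
    by_cases h1 : e = i'
    · rw [if_pos h1, if_pos h1, h1, e6]
    · rw [if_neg h1, if_neg h1]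
      by_cases h2 : e ∈ chT E T
      · rw [if_pos h2, if_pos h2, e7]
      · rw [if_neg h2, if_neg h2, hza]
        exact hζ.zero' _ fun h3 => h2 (Finset.mem_filter.mpr ⟨Finset.mem_univ _, hA h3⟩)
  obtain ⟨η, hη, hper⟩ := persist_chart 1 0 (chT E T) i' x0 _
    (dat (chT E T) i' (u.submatrix E.symm id) (fun l i => v l (E.symm i))
      (fun i => wz T i₀ w (E.symm (Sum.inr i))) -
      dat (chT E T) i' (u.submatrix E.symm id) (fun l i => v l (E.symm i)) 0) hev2 hnd2 _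
    ((rank_nhds x0 hrk).and (near_nhds x0 δ hδ))
  refine ⟨η, hη, fun ε hε0 hε => ?_⟩
  obtain ⟨x, ⟨hx1, hx2⟩, hx3⟩ := hper ε hε
  rw [mul_zero, add_zero, ← dat_smul] at hx3
  have hz1 := sysQ_of_chart (T := T) (i₀ := i₁) (w := fun i => ε * wz T i₀ w i) h.adm h.lt.le
    h.nmem (hA hi₁) E i' x hE hi' hx3 hx1
  set z1 := (toQ x).rows E.symm with hz1def
  have hne : z1.a i₀ ≠ 0 := by
    by_cases h1 : i₁ = i₀
    · rw [← h1, hz1.one']
      exact one_ne_zero
    · intro h2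
      have h3 := hz1.vq_all (hA hi₁) i₀ h.mem
      rw [wz_wz h.mem w ε i₁ i₀ h.mem, h2, zero_mul, wz, if_pos rfl] at h3
      have h4 := sum_w_ne_zero hg i₁ (hA hi₁) h1
      apply mul_ne_zero hε0 h4
      linear_combination -h3
  have hz2 := hz1.renorm (hA hi₁) i₀ h.mem hne
  refine ⟨z1.scale (z1.a i₀)⁻¹ (z1.a i₀), ?_, z1.a i₀, hne, ?_⟩
  · refine sysQ_w hz2 fun i hi hne' => ?_
    rw [wz_wz h.mem w ε i₁ i hi, wz, if_neg hne']
  · have h1 : (z1.scale (z1.a i₀)⁻¹ (z1.a i₀)).scale (z1.a i₀) (z1.a i₀)⁻¹ = z1 := by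
      ext i j
      · rfl
      · rfl
      · rfl
      · rfl
      · simp only [Qnt.scale]
        rw [← mul_assoc, mul_inv_cancel₀ hne, one_mul]
      · simp only [Qnt.scale]
        rw [← mul_assoc, inv_mul_cancel₀ hne, one_mul]
    rw [h1]
    exact near_rows E hx2 hx0

end tb7

end Pool.EU.TB
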