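import Pool.Agent.EU.TB6
import Pool.Agent.EU.TB7
import Pool.Agent.EU.TB5core

/-!
# Row TB5: the limits in the chart
-/

set_option autoImplicit false
set_option linter.unusedSectionVars false

namespace Pool.EU.TB

open Matrix PowerSeries CAux

section chart

variable {π ρ σ J : Type} [DecidableEq π] [DecidableEq ρ] [DecidableEq σ] [DecidableEq J]
  [Fintype π] [Fintype ρ] [Fintype σ] [Fintype J] [LinearOrder π] {S : π → Finset (Rw π ρ σ)}

/-- Divisibility of `b` follows from the divisibility on `σ`. -/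
theorem dvd_xb {R : Type} [CommRing R] (hS : Adm Sum.inl S) (x : Var S J → R)
    (h : ∀ k, pX x (xb x) k = 0) (e : R) (hσ : ∀ s, e ∣ xb x (Sum.inr (Sum.inr s)))
    (i : Rw π ρ σ) : e ∣ xb x i := by
  set U := (XX x).submatrix (top : π ⊕ ρ → Rw π ρ σ) id with hU
  have hdet : Uᵀ.det = 1 := by rw [Matrix.det_transpose, hU, XX_det hS]
  have h2 : Uᵀ *ᵥ (fun k => xb x (top k)) =
      -(fun c => ∑ s, XX x (Sum.inr (Sum.inr s)) c * xb x (Sum.inr (Sum.inr s))) := by
    funext c
    have h3 := h c
    rw [pX_eq] at h3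
    simp only [Matrix.mulVec, dotProduct] at h3 ⊢
    rw [Fintype.sum_sum_type, Fintype.sum_sum_type] at h3
    rw [Fintype.sum_sum_type]
    simp only [Pi.neg_apply, hU, Matrix.transpose_apply, Matrix.submatrix_apply, id_eq] at h3 ⊢
    rw [eq_neg_iff_add_eq_zero, ← h3, add_assoc]
    rfl
  have h4 : (fun k => xb x (top k)) = Uᵀ.adjugate *ᵥ
      -(fun c => ∑ s, XX x (Sum.inr (Sum.inr s)) c * xb x (Sum.inr (Sum.inr s))) := by
    rw [← h2, Matrix.mulVec_mulVec, Matrix.adjugate_mul, hdet, one_smul, Matrix.one_mulVec]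
  have h5 : ∀ k, e ∣ xb x (top k) := by
    intro k
    have h6 : xb x (top k) = _ := congrFun h4 k
    rw [h6, Matrix.mulVec, dotProduct]
    refine Finset.dvd_sum fun c _ => Dvd.dvd.mul_left ?_ _
    rw [Pi.neg_apply, dvd_neg]
    exact Finset.dvd_sum fun s _ => Dvd.dvd.mul_left (hσ s) _
  rcases i with l | k | s
  · exact h5 (Sum.inl l)
  · exact h5 (Sum.inr k)
  · exact hσ s

/-- `a` on the rows which are not pivots. -/
theorem qv_eq {R : Type} [CommRing R] (x : Var S J → R)
    (h : ∀ s, xa x (Sum.inr s) = ∑ k, xA x s k * xa x (Sum.inl k)) (i : ρ ⊕ σ) :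
    TB5.qv (Matrix.of (xA x)) (fun k => xa x (Sum.inl k)) i = xa x i := by
  rcases i with k | s
  · rfl
  · rw [h s]
    rfl

/-- `b` on the rows which are not pivots. -/
theorem pv_eq {R : Type} [CommRing R] (x : Var S J → R)
    (h : ∀ k, pX x (xb x) k = 0) (i : ρ ⊕ σ) :
    TB5.pv (Matrix.of (xA x)) (fun s => xb x (Sum.inr (Sum.inr s))) i = xb x (Sum.inr i) := by
  rcases i with k | s
  · have h1 := h (Sum.inr k)
    simp only [pX, Sum.elim_inr] at h1
    simp only [TB5.pv, Sum.elim_inl, Pi.neg_apply, Matrix.mulVec, dotProduct,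
      Matrix.transpose_apply, Matrix.of_apply]
    exact (eq_neg_of_add_eq_zero_left h1).symm
  · rfl

/-- The pairing of `a` and `b` vanishes. -/
theorem sum_ab {R : Type} [CommRing R] (x : Var S J → R)
    (h : ∀ s, xa x (Sum.inr s) = ∑ k, xA x s k * xa x (Sum.inl k))
    (h' : ∀ k, pX x (xb x) k = 0) : ∑ i : ρ ⊕ σ, xa x i * xb x (Sum.inr i) = 0 := by
  have h1 : ∀ k : ρ, xb x (Sum.inr (Sum.inl k)) =
      -∑ s, xA x s k * xb x (Sum.inr (Sum.inr s)) := fun k => by
    have h2 := h' (Sum.inr k)
    simp only [pX, Sum.elim_inr] at h2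
    exact eq_neg_of_add_eq_zero_left h2
  rw [Fintype.sum_sum_type]
  simp only [h1, h, Finset.sum_mul, mul_neg, Finset.mul_sum, Finset.sum_neg_distrib]
  rw [neg_add_eq_zero, Finset.sum_comm]
  exact Finset.sum_congr rfl fun s _ => Finset.sum_congr rfl fun k _ => by ring

/-- The last equations. -/
theorem ev_last {R : Type} [CommRing R] {c : R} {T : Finset (ρ ⊕ σ)} {i₀ : ρ ⊕ σ}
    {u : Matrix (Rw π ρ σ) J R} {v : π → Rw π ρ σ → R} {w : ρ ⊕ σ → R} {x : Var S J → R}
    (hev : ev c T i₀ x = dat T i₀ u v w) :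
    xa x i₀ = 1 ∧ (∀ i, i ≠ i₀ → i ∈ T → xa x i * xb x (Sum.inr i) = - w i) ∧
      ∀ i, i ≠ i₀ → i ∉ T → xa x i = 0 := by
  have h1 : ∀ i, (if i = i₀ then xa x i else if i ∈ T then xa x i * xb x (Sum.inr i) else xa x i) =
      if i = i₀ then 1 else if i ∈ T then - w i else 0 := fun i =>
    congrFun hev (Sum.inr (Sum.inr (Sum.inr (Sum.inr (Sum.inr (Sum.inr i))))))
  refine ⟨?_, fun i hi hT => ?_, fun i hi hT => ?_⟩
  · have h2 := h1 i₀
    rw [if_pos rfl, if_pos rfl] at h2
    exact h2
  · have h2 := h1 i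
    rw [if_neg hi, if_neg hi, if_pos hT, if_pos hT] at h2
    exact h2
  · have h2 := h1 i
    rw [if_neg hi, if_neg hi, if_neg hT, if_neg hT] at h2
    exact h2

theorem allMinors_iff {K : Type} [Field K] (A : Matrix σ ρ K) :
    TB5.AllMinors A ↔ AllMinors A :=
  ⟨fun h n f g hf hg => h n ⟨f, hf⟩ ⟨g, hg⟩, fun h n f g => h n f g f.injective g.injective⟩

/-- A unit vector is not in a uniform space. -/
theorem not_single {K : Type} [Field K] (A : Matrix σ ρ K) (hA : AllMinors A) [Nonempty ρ]
    [Nonempty σ] (a : ρ ⊕ σ → K) (i₂ : ρ ⊕ σ) (h1 : a i₂ = 1) (h0 : ∀ i, i ≠ i₂ → a i = 0)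
    (ha : ∀ s, a (Sum.inr s) = ∑ k, A s k * a (Sum.inl k)) : False := by
  rcases i₂ with k₀ | s₀
  · obtain ⟨s⟩ := ‹Nonempty σ›
    have h2 := ha s
    rw [h0 _ (by simp), Finset.sum_eq_single k₀ (fun k _ hk => by
      rw [h0 _ (by simpa using hk), mul_zero]) (fun h => absurd (Finset.mem_univ _) h), h1,
      mul_one] at h2
    have h3 := hA 1 (fun _ => s) (fun _ => k₀) (fun _ _ _ => Subsingleton.elim _ _)
      (fun _ _ _ => Subsingleton.elim _ _)
    apply h3
    rw [Matrix.det_fin_one, Matrix.submatrix_apply, ← h2]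
  · have h2 := ha s₀
    rw [h1, Finset.sum_eq_zero (fun k _ => by rw [h0 _ (by simp), mul_zero])] at h2
    exact one_ne_zero h2

/-- Change the coordinates `b`. -/
def setb {R : Type} (x : Var S J → R) (b : Rw π ρ σ → R) : Var S J → R :=
  Sum.elim (fun y => x (Sum.inl y)) (Sum.elim (fun y => x (Sum.inr (Sum.inl y)))
    (Sum.elim (fun y => x (Sum.inr (Sum.inr (Sum.inl y))))
      (Sum.elim (fun y => x (Sum.inr (Sum.inr (Sum.inr (Sum.inl y)))))
        (Sum.elim (fun y => x (Sum.inr (Sum.inr (Sum.inr (Sum.inr (Sum.inl y)))))) b))))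

/-- Second kind, in the chart. -/
theorem limit0 {K : Type} [Field K] [Algebra K ℂ] (hS : Adm Sum.inl S) [Nonempty ρ] [Nonempty σ]
    (hn : Fintype.card π + (Fintype.card ρ + Fintype.card σ) ≤ Fintype.card J)
    (e : PowerSeries K) (he0 : e ≠ 0) (he : constantCoeff e = 0) (T : Finset (ρ ⊕ σ))
    (i₂ : ρ ⊕ σ) (u : Matrix (Rw π ρ σ) J K) (v : π → Rw π ρ σ → K) (W : ρ ⊕ σ → K)
    (hg : Gen0 Sum.inl S (u.map (algebraMap K ℂ)) (fun l i => algebraMap K ℂ (v l i)))
    (hW : ∀ i ∈ T, i ≠ i₂ → W i ≠ 0) (x : Var S J → PowerSeries K)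
    (hev : ev 1 T i₂ x = dat T i₂ (Matrix.of fun i j => PowerSeries.C (u i j))
      (fun l i => PowerSeries.C (v l i)) (fun i => e * PowerSeries.C (W i)))
    (h0 : ∀ s, constantCoeff (xb x (Sum.inr (Sum.inr s))) = 0) :
    (∃ i ∈ T, i ≠ i₂) ∧ ∃ b : Rw π ρ σ → PowerSeries K, (∀ i, xb x i = e * b i) ∧
      ev 0 T i₂ (fun y => constantCoeff (setb x b y)) = dat T i₂ u v W ∧
      (Matrix.of (xY (fun y => constantCoeff (setb x b y)))).rank =
        Fintype.card π + Fintype.card ρ := by
  obtain ⟨e1, e2, e3, e4, e5, e6⟩ := ev_eqs hev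
  obtain ⟨l1, l2, l3⟩ := ev_last hev
  -- the point over the complex numbers
  set f : PowerSeries K →+* ℂ := (algebraMap K ℂ).comp constantCoeff with hf
  have fC : ∀ a : K, f (PowerSeries.C a) = algebraMap K ℂ a := fun a => by
    rw [hf, RingHom.comp_apply, constantCoeff_C]
  obtain ⟨hrk, hAi, -⟩ := tb2a hS hn (u.map (algebraMap K ℂ))
    (fun l i => algebraMap K ℂ (v l i)) hg (fun y => f (x y))
    (fun k j => by
      have h1 := congrArg f (e1 k j)
      rw [map_zero, ← pX_map] at h1
      exact h1)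
    (fun k s => by
      have h1 := congrArg f (e4 k s)
      rw [one_mul, map_mul, map_sum] at h1
      have h2 : f (xb x (Sum.inr (Sum.inr s))) = 0 := by
        rw [hf, RingHom.comp_apply, h0 s, map_zero]
      rw [h2, mul_zero] at h1
      rw [← h1]
      refine Finset.sum_congr rfl fun j _ => ?_
      rw [map_mul]
      rfl)
    (fun i j => by
      have h1 := congrArg f (e5 i j)
      rw [map_mul, map_add, map_one, ← xP_map, Matrix.of_apply, fC] at h1
      exact h1)
    (fun y => by
      have h1 := congrArg f (e6 y)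
      rw [map_mul, map_neg, ← xh_map, fC] at h1
      exact h1)
  have hAm : AllMinors (Matrix.of fun s k => algebraMap K ℂ (constantCoeff (xA x s k))) :=
    allMinors_of_algInd (k := ℚ) _ hAi
  have hAm' : AllMinors (Matrix.of fun s k => constantCoeff (xA x s k)) := by
    intro n g1 g2 hg1 hg2 hdet
    apply hAm n g1 g2 hg1 hg2
    have h1 := congrArg (algebraMap K ℂ) hdet
    rw [map_zero, RingHom.map_det] at h1
    rw [← h1]
    rfl
  have hne : ∃ i ∈ T, i ≠ i₂ := by
    by_contra hno
    push Not at hno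
    refine not_single _ hAm' (fun i => constantCoeff (xa x i)) i₂ (by simp only [l1, map_one])
      (fun i hi => ?_) (fun s => ?_)
    · change constantCoeff (xa x i) = 0
      rw [l3 i hi (fun h => hi (hno i h)), map_zero]
    · change constantCoeff (xa x (Sum.inr s)) = _
      rw [e3 s, map_sum]
      exact Finset.sum_congr rfl fun k _ => map_mul _ _ _
  refine ⟨hne, ?_⟩
  -- the limit lemma
  set c₂ : K := -∑ i ∈ Finset.univ.erase i₂, if i ∈ T then W i else 0 with hc₂
  have hq2 : xa x i₂ * xb x (Sum.inr i₂) = -(e * PowerSeries.C c₂) := by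
    have h1 := sum_ab x e3 e2
    rw [← Finset.add_sum_erase _ _ (Finset.mem_univ i₂)] at h1
    have h2 : ∑ i ∈ Finset.univ.erase i₂, xa x i * xb x (Sum.inr i) =
        -(e * PowerSeries.C (∑ i ∈ Finset.univ.erase i₂, if i ∈ T then W i else 0)) := by
      rw [map_sum, Finset.mul_sum, ← Finset.sum_neg_distrib]
      refine Finset.sum_congr rfl fun i hi => ?_
      by_cases hiT : i ∈ T
      · rw [l2 i (Finset.ne_of_mem_erase hi) hiT, if_pos hiT]
      · rw [l3 i (Finset.ne_of_mem_erase hi) hiT, if_neg hiT, zero_mul, map_zero, mul_zero,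
          neg_zero]
    rw [h2] at h1
    rw [hc₂, map_neg]
    linear_combination h1
  have hlim := TB5.limits (Matrix.of (xA x)) (fun k => xa x (Sum.inl k))
    (fun s => xb x (Sum.inr (Sum.inr s))) e he0 {i | i ∈ T ∨ i = i₂}
    (fun i => if i = i₂ then c₂ else W i)
    (by
      obtain ⟨i, hi, hi'⟩ := hne
      refine ⟨i, Or.inl hi, ?_⟩
      change (if i = i₂ then c₂ else W i) ≠ 0
      rw [if_neg hi']
      exact hW i hi hi')
    (fun i hi => by
      rw [qv_eq x e3, pv_eq x e2]
      change _ = -(e * PowerSeries.C (if i = i₂ then c₂ else W i))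
      by_cases h1 : i = i₂
      · rw [if_pos h1, h1, hq2]
      · rw [if_neg h1]
        exact l2 i h1 (hi.resolve_right h1))
    (fun i hi => by
      rw [qv_eq x e3]
      have h1 : i ∉ T ∧ i ≠ i₂ := not_or.mp hi
      exact l3 i h1.2 h1.1)
    (by
      by_contra hno
      push Not at hno
      have h1 : constantCoeff (xa x i₂) = 0 := by
        rcases i₂ with k | s
        · exact hno k
        · rw [e3 s, map_sum]
          exact Finset.sum_eq_zero fun k _ => by rw [map_mul, hno k, mul_zero]
      rw [l1, map_one] at h1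
      exact one_ne_zero h1)
    (fun _ => (allMinors_iff _).mpr hAm')
  have hdvd : ∀ s, e ∣ xb x (Sum.inr (Sum.inr s)) := by
    rcases hlim with ⟨s, hs⟩ | ⟨z', hz'⟩
    · exact absurd (h0 s) hs
    · intro s
      exact ⟨z' s, congrFun hz' s⟩
  choose b hb using dvd_xb hS x e2 e hdvd
  refine ⟨b, hb, ?_, ?_⟩
  · have hev' : ev e T i₂ (setb x b) = dat T i₂ (Matrix.of fun i j => PowerSeries.C (u i j))
        (fun l i => PowerSeries.C (v l i)) (fun i => PowerSeries.C (W i)) := by
      funext E
      rcases E with y | y | s | y | y | y | i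
      · exact e1 y.1 y.2
      · change pX (setb x b) b y = 0
        have h1 : e * pX x b y = 0 := by
          rw [← e2 y]
          have h2 : xb x = e • b := funext fun i => hb i
          rw [pX_eq, pX_eq, h2, Matrix.mulVec_smul]
          rfl
        exact (mul_eq_zero.mp h1).resolve_left he0
      · exact sub_eq_zero.mpr (e3 s)
      · change ∑ j, xY x (Sum.inr y.1) j * xG x (Sum.inr (Sum.inr y.2)) j -
          e * (xa x (Sum.inl y.1) * b (Sum.inr (Sum.inr y.2))) = 0
        rw [e4 y.1 y.2, hb]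
        ring
      · exact e5 y.1 y.2
      · exact e6 y
      · change (if i = i₂ then xa x i else if i ∈ T then xa x i * b (Sum.inr i) else xa x i) =
          if i = i₂ then 1 else if i ∈ T then - PowerSeries.C (W i) else 0
        by_cases h1 : i = i₂
        · rw [if_pos h1, if_pos h1, h1, l1]
        · rw [if_neg h1, if_neg h1]
          by_cases h2 : i ∈ T
          · rw [if_pos h2, if_pos h2]
            have h3 := l2 i h1 h2
            rw [hb] at h3
            apply mul_left_cancel₀ he0
            linear_combination h3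
          · rw [if_neg h2, if_neg h2, l3 i h1 h2]
    funext E
    have h1 := ev_map (constantCoeff (R := K)) e T i₂ (setb x b) E
    rw [he] at h1
    rw [h1, hev', ← tb6_dat_map]
    have hu : (Matrix.of fun i j => PowerSeries.C (u i j)).map (constantCoeff (R := K)) = u := by
      ext i j
      simp
    simp only [hu, constantCoeff_C]
  · have h1 : Matrix.of (xY (fun y => f (x y))) =
        (Matrix.of (xY (fun y => constantCoeff (setb x b y)))).map (algebraMap K ℂ) := rfl
    rw [← rank_map_field (algebraMap K ℂ), ← h1]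
    exact hrk

/-- First kind, in the chart. -/
theorem limit1 {K : Type} [Field K] [Algebra K ℂ] (hS : Adm Sum.inl S)
    (hn : Fintype.card π + (Fintype.card ρ + Fintype.card σ) ≤ Fintype.card J)
    (e : PowerSeries K) (he : constantCoeff e = 0) (T : Finset (ρ ⊕ σ))
    (i₂ : ρ ⊕ σ) (u : Matrix (Rw π ρ σ) J K) (v : π → Rw π ρ σ → K) (W : ρ ⊕ σ → K)
    (hg : Gen0 Sum.inl S (u.map (algebraMap K ℂ)) (fun l i => algebraMap K ℂ (v l i)))
    (x : Var S J → PowerSeries K)
    (hev : ev 1 T i₂ x = dat T i₂ (Matrix.of fun i j => PowerSeries.C (u i j))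
      (fun l i => PowerSeries.C (v l i)) (fun i => e * PowerSeries.C (W i)))
    (h0 : ∃ s, constantCoeff (xb x (Sum.inr (Sum.inr s))) ≠ 0) (A : Finset (ρ ⊕ σ))
    (hA : ∀ i, i ∈ A ↔ constantCoeff (xa x i) ≠ 0) :
    (∀ i, constantCoeff (xa x i) * constantCoeff (xb x (Sum.inr i)) = 0) ∧
      (∀ i, i ∉ A → constantCoeff (xb x (Sum.inr i)) ≠ 0) ∧
      ev 1 A i₂ (fun y => constantCoeff (x y)) = dat A i₂ u v 0 ∧
      (Matrix.of (xY (fun y => constantCoeff (x y)))).rank =
        Fintype.card π + Fintype.card ρ := by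
  have hev0 : ev 1 T i₂ (fun y => constantCoeff (x y)) = dat T i₂ u v 0 := by
    funext E
    have h1 := ev_map (constantCoeff (R := K)) 1 T i₂ x E
    rw [map_one] at h1
    rw [h1, hev, ← tb6_dat_map]
    have hu : (Matrix.of fun i j => PowerSeries.C (u i j)).map (constantCoeff (R := K)) = u := by
      ext i j
      simp
    simp only [hu, constantCoeff_C, map_mul, he, zero_mul]
    rfl
  obtain ⟨e1, e2, e3, e4, e5, e6⟩ := ev_eqs hev0
  obtain ⟨l1, l2, l3⟩ := ev_last hev0
  have hab : ∀ i, i ≠ i₂ → xa (fun y => constantCoeff (x y)) i *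
      xb (fun y => constantCoeff (x y)) (Sum.inr i) = 0 := by
    intro i hi
    by_cases hiT : i ∈ T
    · rw [l2 i hi hiT, Pi.zero_apply, neg_zero]
    · rw [l3 i hi hiT, zero_mul]
  have hab2 : xa (fun y => constantCoeff (x y)) i₂ *
      xb (fun y => constantCoeff (x y)) (Sum.inr i₂) = 0 := by
    have h1 := sum_ab (fun y => constantCoeff (x y)) e3 e2
    rw [← Finset.add_sum_erase _ _ (Finset.mem_univ i₂),
      Finset.sum_eq_zero (fun i hi => hab i (Finset.ne_of_mem_erase hi)), add_zero] at h1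
    exact h1
  have hab3 : ∀ i, xa (fun y => constantCoeff (x y)) i *
      xb (fun y => constantCoeff (x y)) (Sum.inr i) = 0 := by
    intro i
    by_cases hi : i = i₂
    · rw [hi, hab2]
    · exact hab i hi
  set g := algebraMap K ℂ with hgdef
  have hinj : Function.Injective g := g.injective
  obtain ⟨hsup, hrk, -⟩ := tb2b hS hn (u.map g) (fun l i => g (v l i)) hg i₂
    (fun y => g (constantCoeff (x y)))
    (fun k j => by
      have h1 := congrArg g (e1 k j)
      rw [map_zero, ← pX_map] at h1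
      exact h1)
    (fun k => by
      have h1 := congrArg g (e2 k)
      rw [map_zero, ← pX_map] at h1
      exact h1)
    (fun s => by
      have h1 := congrArg g (e3 s)
      rw [map_sum] at h1
      refine h1.trans (Finset.sum_congr rfl fun k _ => ?_)
      rw [map_mul]
      rfl)
    (fun k s => by
      have h1 := congrArg g (e4 k s)
      rw [one_mul, map_mul, map_sum] at h1
      refine Eq.trans (Finset.sum_congr rfl fun j _ => ?_) h1
      rw [map_mul]
      rfl)
    (fun i j => by
      have h1 := congrArg g (e5 i j)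
      rw [map_mul, map_add, map_one, ← xP_map] at h1
      exact h1)
    (fun y => by
      have h1 := congrArg g (e6 y)
      rw [map_mul, map_neg, ← xh_map] at h1
      exact h1)
    (by
      have h1 := congrArg g l1
      rw [map_one] at h1
      exact h1)
    (fun i => by
      have h1 := congrArg g (hab3 i)
      rw [map_mul, map_zero] at h1
      exact h1)
    (by
      obtain ⟨s, hs⟩ := h0
      refine ⟨s, fun h => hs ?_⟩
      apply hinj
      rw [map_zero]
      exact h)
  refine ⟨hab3, fun i hi => ?_, ?_, ?_⟩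
  · have h1 : constantCoeff (xa x i) = 0 := by
      by_contra h
      exact hi ((hA i).mpr h)
    rcases hsup i with h2 | h2
    · exfalso
      apply h2
      change g (constantCoeff (xa x i)) = 0
      rw [h1, map_zero]
    · intro h3
      apply h2
      change g (constantCoeff (xb x (Sum.inr i))) = 0
      rw [h3, map_zero]
  · refine ev_change hev0 fun i => ?_
    rw [Pi.zero_apply, neg_zero]
    by_cases h1 : i = i₂
    · rw [if_pos h1, if_pos h1, h1, l1]
    · rw [if_neg h1, if_neg h1]
      by_cases h2 : i ∈ A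
      · rw [if_pos h2, if_pos h2, hab3]
      · rw [if_neg h2, if_neg h2]
        by_contra h
        exact h2 ((hA i).mpr h)
  · have h1 : Matrix.of (xY (fun y => g (constantCoeff (x y)))) =
        (Matrix.of (xY (fun y => constantCoeff (x y)))).map g := rfl
    rw [← rank_map_field g, ← h1]
    exact hrk

end chart

end Pool.EU.TB
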