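import Pool.Agent.EU.TBDefs

/-!
# The hypotheses on the shape
-/

set_option autoImplicit false
set_option linter.unusedSectionVars false

namespace Pool.EU.TB

variable {π I J : Type} [Fintype π] [Fintype I] [Fintype J] [LinearOrder π] [DecidableEq I]
  [DecidableEq J] {p : π → I} {S : π → Finset I} {T : Finset I} {i₀ : I} {r : ℕ}

/-- The hypotheses on the shape. -/
structure Shape (p : π → I) (S : π → Finset I) (T : Finset I) (i₀ : I) (r : ℕ) (J : Type)
    [Fintype J] : Prop where
  adm : Adm p S
  nmem : ∀ i ∈ T, i ∉ Set.range p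
  mem : i₀ ∈ T
  lt : Fintype.card π < r
  ltI : r < Fintype.card I
  le : Fintype.card I ≤ Fintype.card J

end Pool.EU.TB
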