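import Pool.Agent.EU.HenselT
import Pool.Agent.EU.TB0
import Pool.Agent.EU.TB2
import Pool.Agent.EU.TBC
import Pool.Agent.EU.TBR
import Pool.Agent.EU.TBShape

/-!
# Row TB6: uniqueness of the solution with a given limit

Both kinds of limits: the solution and the limit are put in the same chart, the coordinates in the
chart are power series, and Hensel's lemma applies, since the limit is non-degenerate.
-/

set_option autoImplicit false
set_option linter.unusedSectionVars false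
set_option linter.unusedVariables false

namespace Pool.EU.TB

open Matrix Pool.ML

section chart6

variable {π ρ σ J : Type} [DecidableEq π] [DecidableEq ρ] [DecidableEq σ] [DecidableEq J]
  [Fintype π] [Fintype ρ] [Fintype σ] [Fintype J] {S : π → Finset (Rw π ρ σ)}
  {R R' : Type} [CommRing R] [CommRing R']

theorem tb6_fr_map (f : R →+* R') (x : Var S J → R) (l : π) (i : Rw π ρ σ) :
    fr (fun y => f (x y)) l i = f (fr x l i) := by
  unfold fr
  split_ifs <;> simp [xf]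

theorem tb6_dfr_map (f : R →+* R') (w : Var S J → R) (l : π) (i : Rw π ρ σ) :
    dfr (fun y => f (w y)) l i = f (dfr w l i) := by
  unfold dfr
  split_ifs <;> simp [xf]

theorem tb6_xP_map (f : R →+* R') (x : Var S J → R) (i : Rw π ρ σ) (j : J) :
    xP (fun y => f (x y)) i j = f (xP x i j) := by
  rcases i with i | i | i <;> simp [xP, tb6_fr_map, xY, xA]

theorem tb6_dxP_map (f : R →+* R') (x w : Var S J → R) (i : Rw π ρ σ) (j : J) :
    dxP (fun y => f (x y)) (fun y => f (w y)) i j = f (dxP x w i j) := by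
  rcases i with i | i | i <;> simp [dxP, tb6_fr_map, tb6_dfr_map, xY, xA]

theorem tb6_xh_map (f : R →+* R') (x : Var S J → R) (l : π) (i : Rw π ρ σ) :
    xh (fun y => f (x y)) l i = f (xh x l i) := by
  simp [xh, xY, xG]

theorem tb6_dxh_map (f : R →+* R') (x w : Var S J → R) (l : π) (i : Rw π ρ σ) :
    dxh (fun y => f (x y)) (fun y => f (w y)) l i = f (dxh x w l i) := by
  simp [dxh, xY, xG]

theorem tb6_dpX_map (f : R →+* R') (x w : Var S J → R) (g dg : Rw π ρ σ → R) (c : π ⊕ ρ) :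
    dpX (fun y => f (x y)) (fun y => f (w y)) (fun i => f (g i)) (fun i => f (dg i)) c =
      f (dpX x w g dg c) := by
  rcases c with c | c <;> simp [dpX, tb6_fr_map, tb6_dfr_map, xA]

/-- Naturality of the differential. -/
theorem tb6_dev_map (f : R →+* R') (c : R) (T : Finset (ρ ⊕ σ)) (i₀ : ρ ⊕ σ)
    (x w : Var S J → R) (e : Eqn S J) :
    dev (f c) T i₀ (fun y => f (x y)) (fun y => f (w y)) e = f (dev c T i₀ x w e) := by
  rcases e with y | y | s | y | y | y | i
  · exact tb6_dpX_map f x w _ _ _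
  · exact tb6_dpX_map f x w _ _ _
  · simp [dev, xa, xA]
  · simp [dev, xY, xG, xa, xb]
  · simp only [dev, Sum.elim_inr, Sum.elim_inl, tb6_dxP_map, tb6_xP_map]
    simp [xG]
  · simp only [dev, Sum.elim_inr, Sum.elim_inl, tb6_xh_map, tb6_dxh_map]
    simp [xf]
  · simp only [dev, Sum.elim_inr]
    split_ifs <;> simp [xa, xb]

/-- Two points over the power series with the same non-degenerate reduction and the same values
are equal. -/
theorem tb6_chart {K : Type} [Field K] (c : PowerSeries K) (T : Finset (ρ ⊕ σ)) (i₀ : ρ ⊕ σ)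
    (x x' : Var S J → PowerSeries K) (ξ : Var S J → K)
    (hx : ∀ y, PowerSeries.constantCoeff (x y) = ξ y)
    (hx' : ∀ y, PowerSeries.constantCoeff (x' y) = ξ y)
    (he : ev c T i₀ x = ev c T i₀ x')
    (hJ : ∀ w : Var S J → K, dev (PowerSeries.constantCoeff c) T i₀ ξ w = 0 → w = 0) :
    x = x' := by
  obtain ⟨L, hL⟩ := exists_devL (S := S) (J := J) (PowerSeries.constantCoeff c) T i₀ ξ
  have hξ : (fun y => PowerSeries.constantCoeff (x y)) = ξ := funext hx
  have hsys : HSys (fun y e => ev c T i₀ y e - ev c T i₀ x e) (dev c T i₀) L ξ := by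
    refine ⟨?_, ?_, ?_⟩
    · intro y z n
      have h1 := fun e => ev_taylor c T i₀ y z (PowerSeries.X ^ n) e
      choose r hr using h1
      refine ⟨r, fun e => ?_⟩
      simp only [hr e]
      rw [← pow_mul, mul_comm n 2]
      ring
    · intro y z hy e
      have hy' : (fun i => PowerSeries.constantCoeff (y i)) = ξ := funext hy
      rw [hL, ← tb6_dev_map, hy']
    · intro y hy e
      have hy' : (fun i => PowerSeries.constantCoeff (y i)) = ξ := funext hy
      simp only [map_sub]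
      rw [← ev_map, ← ev_map, hy', hξ, sub_self]
  have hinj : Function.Injective L := by
    rw [injective_iff_map_eq_zero]
    intro w hw
    exact hJ w (by rw [← hL, hw])
  refine hsys.unique hinj hx' (fun e => ?_) hx (fun e => ?_)
  · simp only [he, sub_self]
  · simp only [sub_self]

theorem tb6_toQ_map (f : R →+* R') (x : Var S J → R) :
    toQ (fun y => f (x y)) = (toQ x).map f := by
  refine Qnt.ext ?_ ?_ ?_ ?_ ?_ ?_
  · ext i j
    exact tb6_xP_map f x i j
  · rfl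
  · ext l i
    exact tb6_fr_map f x l i
  · ext l i
    exact tb6_xh_map f x l i
  · ext i
    rcases i with i | i
    · exact (map_zero f).symm
    · rfl
  · rfl

theorem tb6_xP_eq (x : Var S J → R) (i : Rw π ρ σ) (j : J) :
    xP x i j = ∑ c, XX x i c * xY x c j := by
  rw [Fintype.sum_sum_type]
  rcases i with i | i | i
  · simp [xP, XX]
  · simp [xP, XX]
  · simp [xP, XX]

theorem tb6_rank {K : Type} [Field K] (ξ : Var S J → K) (g : π ⊕ ρ → J)
    (hd : ((toQ ξ).P.submatrix (Sum.map id Sum.inl : π ⊕ ρ → Rw π ρ σ) g).det ≠ 0) :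
    (Matrix.of (xY ξ)).rank = Fintype.card π + Fintype.card ρ := by
  have h1 : (toQ ξ).P.submatrix (Sum.map id Sum.inl : π ⊕ ρ → Rw π ρ σ) g =
      (XX ξ).submatrix (Sum.map id Sum.inl) id * (Matrix.of (xY ξ)).submatrix id g := by
    ext1 k l
    exact tb6_xP_eq ξ _ _
  rw [h1, Matrix.det_mul] at hd
  have h2 := right_ne_zero_of_mul hd
  have h3 : LinearIndependent K (Matrix.of (xY ξ)).row := by
    rw [← Matrix.vecMul_injective_iff]
    have h4 : ∀ a : π ⊕ ρ → K, a ᵥ* Matrix.of (xY ξ) = 0 → a = 0 := by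
      intro a ha
      by_contra hne
      refine h2 (Matrix.exists_vecMul_eq_zero_iff.1 ⟨a, hne, ?_⟩)
      ext1 l
      exact congrFun ha (g l)
    intro a b hab
    have h5 : (a - b) ᵥ* Matrix.of (xY ξ) = 0 := by
      rw [Matrix.sub_vecMul]
      exact sub_eq_zero.2 hab
    exact sub_eq_zero.1 (h4 _ h5)
  rw [h3.rank_matrix, Fintype.card_sum]

theorem tb6_inj_transfer {K : Type} [Field K] [Algebra K ℂ] (c : K) (T : Finset (ρ ⊕ σ))
    (i₀ : ρ ⊕ σ) (ξ : Var S J → K)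
    (h : ∀ w : Var S J → ℂ, dev (algebraMap K ℂ c) T i₀ (fun y => algebraMap K ℂ (ξ y)) w = 0 →
      w = 0) :
    ∀ w : Var S J → K, dev c T i₀ ξ w = 0 → w = 0 := by
  intro w hw
  have h1 := h (fun y => algebraMap K ℂ (w y)) (by
    ext1 e
    rw [tb6_dev_map, hw]
    exact map_zero _)
  ext1 y
  have h2 : algebraMap K ℂ (w y) = 0 := congrFun h1 y
  exact (map_eq_zero _).1 h2

/-- The equations of the chart one by one. -/
theorem tb6_unpack {c : R} {T : Finset (ρ ⊕ σ)} {i₀ : ρ ⊕ σ} {x : Var S J → R}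
    {u : Matrix (Rw π ρ σ) J R} {v : π → Rw π ρ σ → R} {w : ρ ⊕ σ → R}
    (h : ev c T i₀ x = dat T i₀ u v w) :
    (∀ k j, pX x (fun i => xG x i j) k = 0) ∧ (∀ k, pX x (xb x) k = 0) ∧
      (∀ s, xa x (Sum.inr s) = ∑ k, xA x s k * xa x (Sum.inl k)) ∧
      (∀ k s, ∑ j, xY x (Sum.inr k) j * xG x (Sum.inr (Sum.inr s)) j =
        c * (xa x (Sum.inl k) * xb x (Sum.inr (Sum.inr s)))) ∧
      (∀ i j, xP x i j * (1 + xG x i j) = u i j) ∧
      (∀ y : Fre S, xf x y * xh x y.1.1 y.1.2 = - v y.1.1 y.1.2) := by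
  refine ⟨fun k j => ?_, fun k => ?_, fun s => ?_, fun k s => ?_, fun i j => ?_, fun y => ?_⟩
  · exact congrFun h (Sum.inl (k, j))
  · exact congrFun h (Sum.inr (Sum.inl k))
  · exact sub_eq_zero.1 (congrFun h (Sum.inr (Sum.inr (Sum.inl s))))
  · exact sub_eq_zero.1 (congrFun h (Sum.inr (Sum.inr (Sum.inr (Sum.inl (k, s))))))
  · exact congrFun h (Sum.inr (Sum.inr (Sum.inr (Sum.inr (Sum.inl (i, j))))))
  · exact congrFun h (Sum.inr (Sum.inr (Sum.inr (Sum.inr (Sum.inr (Sum.inl y))))))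

theorem tb6_dat_map (f : R →+* R') (T : Finset (ρ ⊕ σ)) (i₀ : ρ ⊕ σ)
    (u : Matrix (Rw π ρ σ) J R) (v : π → Rw π ρ σ → R) (w : ρ ⊕ σ → R) (e : Eqn S J) :
    dat T i₀ (u.map f) (fun l i => f (v l i)) (fun i => f (w i)) e = f (dat T i₀ u v w e) := by
  rcases e with y | y | s | y | y | y | i
  · simp [dat]
  · simp [dat]
  · simp [dat]
  · simp [dat]
  · simp [dat]
  · simp [dat]
  · simp only [dat, Sum.elim_inr]
    split_ifs <;> simp

end chart6

section matrix6

variable {π I J : Type} [Fintype π] [Fintype I] [Fintype J] [LinearOrder π] [DecidableEq I]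
  [DecidableEq J] {p : π → I} {S : π → Finset I} {T : Finset I} {i₀ : I} {r : ℕ}

theorem tb6_congr_w {Ω : Type} [Field Ω] {c : Ω} {u : Matrix I J Ω} {v : π → I → Ω} {w w' : I → Ω}
    {z : Qnt Ω π I J} (hz : SysQ c r p S T i₀ u v w z) (h : ∀ i ∈ T, w i = w' i) :
    SysQ c r p S T i₀ u v w' z where
  toBase := hz.toBase
  cr := hz.cr
  mem' := hz.mem'
  perp' := hz.perp'
  one' := hz.one'
  zero' := hz.zero'
  vq' := fun i hi hne => by rw [hz.vq' i hi hne, h i hi]

theorem tb6_adm {ρ σ : Type} [DecidableEq ρ] [DecidableEq σ] (hS : Adm p S)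
    (E : I ≃ Rw π ρ σ) (hE : ∀ l, E (p l) = Sum.inl l) :
    Adm (Sum.inl : π → Rw π ρ σ) (fun l => (S l).map E.toEmbedding) where
  inj := Sum.inl_injective
  mem := fun l => by
    rw [← hE l]
    exact Finset.mem_map_of_mem _ (hS.mem l)
  notMem := fun l l' hl => by
    rw [← hE l', Finset.mem_map]
    rintro ⟨i, hi, h⟩
    exact hS.notMem l l' hl ((E.injective h) ▸ hi)

theorem tb6_exists_chart {Ω : Type} [Field Ω] {ρ σ : Type} [Fintype ρ] [Fintype σ]
    [DecidableEq ρ] [DecidableEq σ] (hS : Adm p S)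
    (hr : Fintype.card π + Fintype.card ρ = r) (hT : ∀ i ∈ T, i ∉ Set.range p) (hi₀ : i₀ ∈ T)
    (E : I ≃ Rw π ρ σ) (hE : ∀ l, E (p l) = Sum.inl l) (i₂ : ρ ⊕ σ) (hi₂ : E i₀ = Sum.inr i₂)
    (c : Ω) (u : Matrix I J Ω) (v : π → I → Ω) (w : I → Ω) (z : Qnt Ω π I J)
    (hz : SysQ c r p S T i₀ u v w z) (B : Subring Ω) (hB : z.All (· ∈ B)) (g : π ⊕ ρ → J)
    (hd : (z.P.submatrix (fun k => E.symm (Sum.map id Sum.inl k)) g).det ≠ 0)
    (hd' : (z.P.submatrix (fun k => E.symm (Sum.map id Sum.inl k)) g).det⁻¹ ∈ B) :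
    ∃ x : Var (fun l => (S l).map E.toEmbedding) J → Ω, toQ x = z.rows E ∧
      ev c (Finset.univ.filter fun i => E.symm (Sum.inr i) ∈ T) i₂ x =
        dat (Finset.univ.filter fun i => E.symm (Sum.inr i) ∈ T) i₂ (u.submatrix E.symm id)
          (fun l i => v l (E.symm i)) (fun i => w (E.symm (Sum.inr i))) ∧
      ∀ y, x y ∈ B := by
  have hT' : T.map E.toEmbedding =
      (Finset.univ.filter fun i => E.symm (Sum.inr i) ∈ T).map Function.Embedding.inr := by
    ext i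
    simp only [Finset.mem_map, Finset.mem_filter, Finset.mem_univ, true_and,
      Equiv.coe_toEmbedding, Function.Embedding.inr_apply]
    constructor
    · rintro ⟨i, hi, rfl⟩
      rcases hEi : E i with l | i'
      · exact absurd ⟨l, E.injective ((hE l).trans hEi.symm)⟩ (hT i hi)
      · exact ⟨i', by rw [← hEi, E.symm_apply_apply]; exact hi, rfl⟩
    · rintro ⟨i', hi', rfl⟩
      exact ⟨_, hi', E.apply_symm_apply _⟩
  have hp : (fun l => E (p l)) = Sum.inl := funext hE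
  have h1 := SysQ.rows' E hz
  rw [hp, hT', hi₂, ← hr] at h1
  have h2 : SysQ c (Fintype.card π + Fintype.card ρ) Sum.inl (fun l => (S l).map E.toEmbedding)
      ((Finset.univ.filter fun i => E.symm (Sum.inr i) ∈ T).map Function.Embedding.inr)
      (Sum.inr i₂) (u.submatrix E.symm id) (fun l i => v l (E.symm i))
      (wr fun i => w (E.symm (Sum.inr i))) (z.rows E) := by
    refine tb6_congr_w h1 fun i hi => ?_
    rw [Finset.mem_map] at hi
    obtain ⟨i', -, rfl⟩ := hi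
    rfl
  have hi₂' : i₂ ∈ Finset.univ.filter fun i => E.symm (Sum.inr i) ∈ T := by
    rw [Finset.mem_filter, ← hi₂, E.symm_apply_apply]
    exact ⟨Finset.mem_univ _, hi₀⟩
  exact exists_chart (tb6_adm hS E hE) c _ i₂ hi₂' _ _ _ _ h2 B
    ⟨⟨fun i j => hB.pnt.P _ j, fun i j => hB.pnt.G _ j, fun l i => hB.pnt.q l _,
      fun l i => hB.pnt.h l _⟩, fun i => hB.a _, fun i => hB.b _⟩ g hd hd'

theorem tb6_rows_injective {Ω I' : Type} (E : I ≃ I') {z z' : Qnt Ω π I J}
    (h : z.rows E = z'.rows E) : z = z' := by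
  have h1 := fun i j => congrFun (congrFun (congrArg (fun y => y.P) h) (E i)) j
  have h2 := fun i j => congrFun (congrFun (congrArg (fun y => y.G) h) (E i)) j
  have h3 := fun l i => congrFun (congrFun (congrArg (fun y => y.q) h) l) (E i)
  have h4 := fun l i => congrFun (congrFun (congrArg (fun y => y.h) h) l) (E i)
  have h5 := fun i => congrFun (congrArg (fun y => y.a) h) (E i)
  have h6 := fun i => congrFun (congrArg (fun y => y.b) h) (E i)
  simp only [Qnt.rows, Pnt.rows, Matrix.submatrix_apply, Equiv.symm_apply_apply, id] at h1 h2 h3 h4 h5 h6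
  refine Qnt.ext ?_ ?_ ?_ ?_ ?_ ?_
  · ext i j
    exact h1 i j
  · ext i j
    exact h2 i j
  · ext l i
    exact h3 l i
  · ext l i
    exact h4 l i
  · ext i
    exact h5 i
  · ext i
    exact h6 i

/-- The power series coordinates in a chart. -/
theorem tb6_lift {K : Type} [Field K] {ρ σ : Type} [Fintype ρ] [Fintype σ]
    [DecidableEq ρ] [DecidableEq σ] (hS : Adm p S)
    (hr : Fintype.card π + Fintype.card ρ = r) (hT : ∀ i ∈ T, i ∉ Set.range p) (hi₀ : i₀ ∈ T)
    (E : I ≃ Rw π ρ σ) (hE : ∀ l, E (p l) = Sum.inl l) (i₂ : ρ ⊕ σ) (hi₂ : E i₀ = Sum.inr i₂)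
    (c : PowerSeries K) (u : Matrix I J (LaurentSeries K)) (v : π → I → LaurentSeries K)
    (w : I → LaurentSeries K) (z : Qnt (LaurentSeries K) π I J)
    (hz : SysQ (ofPS c) r p S T i₀ u v w z) (ζ : Qnt K π I J) (hred : z.Red ζ) (g : π ⊕ ρ → J)
    (hd : (ζ.P.submatrix (fun k => E.symm (Sum.map id Sum.inl k)) g).det ≠ 0)
    (ξ : Var (fun l => (S l).map E.toEmbedding) J → K) (hξ : toQ ξ = ζ.rows E)
    (hY : (Matrix.of (xY ξ)).rank = Fintype.card π + Fintype.card ρ) :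
    ∃ x : Var (fun l => (S l).map E.toEmbedding) J → PowerSeries K,
      toQ (fun y => ofPS (x y)) = z.rows E ∧
      (∀ e, ofPS (ev c (Finset.univ.filter fun i => E.symm (Sum.inr i) ∈ T) i₂ x e) =
        dat (Finset.univ.filter fun i => E.symm (Sum.inr i) ∈ T) i₂ (u.submatrix E.symm id)
          (fun l i => v l (E.symm i)) (fun i => w (E.symm (Sum.inr i))) e) ∧
      ∀ y, PowerSeries.constantCoeff (x y) = ξ y := by
  choose P hP hP' using hred.pnt.P
  choose G hG hG' using hred.pnt.G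
  choose q hq hq' using hred.pnt.q
  choose h hh hh' using hred.pnt.h
  choose a ha ha' using hred.a
  choose b hb hb' using hred.b
  let zs : Qnt (PowerSeries K) π I J := ⟨⟨Matrix.of P, Matrix.of G, q, h⟩, a, b⟩
  have hzs : zs.map ofPS = z := by
    refine Qnt.ext ?_ ?_ ?_ ?_ ?_ ?_
    · ext1 i j
      exact hP i j
    · ext1 i j
      exact hG i j
    · ext1 l
      ext1 i
      exact hq l i
    · ext1 l
      ext1 i
      exact hh l i
    · ext1 i
      exact ha i
    · ext1 i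
      exact hb i
  have hzs' : zs.map PowerSeries.constantCoeff = ζ := by
    refine Qnt.ext ?_ ?_ ?_ ?_ ?_ ?_
    · ext1 i j
      exact hP' i j
    · ext1 i j
      exact hG' i j
    · ext1 l
      ext1 i
      exact hq' l i
    · ext1 l
      ext1 i
      exact hh' l i
    · ext1 i
      exact ha' i
    · ext1 i
      exact hb' i
  set s : PowerSeries K :=
    (zs.P.submatrix (fun k => E.symm (Sum.map id Sum.inl k)) g).det with hs
  have hs1 : (z.P.submatrix (fun k => E.symm (Sum.map id Sum.inl k)) g).det = ofPS s := by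
    rw [hs, RingHom.map_det, ← hzs]
    rfl
  have hs2 : PowerSeries.constantCoeff s ≠ 0 := by
    rw [hs, RingHom.map_det]
    rw [← hzs'] at hd
    exact hd
  have hinv : ofPS s * ofPS s⁻¹ = 1 := by
    rw [← map_mul, PowerSeries.mul_inv_cancel _ hs2, map_one]
  have hs3 : ofPS s ≠ 0 := left_ne_zero_of_mul_eq_one hinv
  have hs4 : (ofPS s)⁻¹ = ofPS s⁻¹ := inv_eq_of_mul_eq_one_right hinv
  obtain ⟨x, hx1, hx2, hx3⟩ := tb6_exists_chart hS hr hT hi₀ E hE i₂ hi₂ (ofPS c) u v w z hz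
    (ofPS : PowerSeries K →+* LaurentSeries K).range
    ⟨⟨fun i j => ⟨_, hP i j⟩, fun i j => ⟨_, hG i j⟩, fun l i => ⟨_, hq l i⟩,
      fun l i => ⟨_, hh l i⟩⟩, fun i => ⟨_, ha i⟩, fun i => ⟨_, hb i⟩⟩ g
    (by rw [hs1]; exact hs3) (by rw [hs1, hs4]; exact ⟨_, rfl⟩)
  choose X hX using hx3
  have hxX : x = fun y => ofPS (X y) := funext fun y => (hX y).symm
  rw [hxX] at hx1 hx2
  refine ⟨X, hx1, fun e => ?_, fun y => ?_⟩
  · rw [← ev_map]
    exact congrFun hx2 e
  · have h3 : (toQ X).map ofPS = (zs.rows E).map ofPS := by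
      rw [← tb6_toQ_map, hx1, ← hzs]
      rfl
    have h4 : toQ X = zs.rows E := by
      have hinj := ofPS_injective (k := K)
      refine Qnt.ext ?_ ?_ ?_ ?_ ?_ ?_
      · ext1 i j
        exact hinj (congrFun (congrFun (congrArg (fun y => y.P) h3) i) j)
      · ext1 i j
        exact hinj (congrFun (congrFun (congrArg (fun y => y.G) h3) i) j)
      · ext1 l
        ext1 i
        exact hinj (congrFun (congrFun (congrArg (fun y => y.q) h3) l) i)
      · ext1 l
        ext1 i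
        exact hinj (congrFun (congrFun (congrArg (fun y => y.h) h3) l) i)
      · ext1 i
        exact hinj (congrFun (congrArg (fun y => y.a) h3) i)
      · ext1 i
        exact hinj (congrFun (congrArg (fun y => y.b) h3) i)
    have h5 : toQ ξ = toQ (fun y => PowerSeries.constantCoeff (X y)) := by
      rw [hξ, tb6_toQ_map, h4, ← hzs']
      rfl
    exact (congrFun (toQ_inj (tb6_adm hS E hE) _ _ hY h5) y).symm

theorem tb6_core {K : Type} [Field K] {ρ σ : Type} [Fintype ρ] [Fintype σ]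
    [DecidableEq ρ] [DecidableEq σ] (hS : Adm p S)
    (hr : Fintype.card π + Fintype.card ρ = r) (hT : ∀ i ∈ T, i ∉ Set.range p) (hi₀ : i₀ ∈ T)
    (E : I ≃ Rw π ρ σ) (hE : ∀ l, E (p l) = Sum.inl l) (i₂ : ρ ⊕ σ) (hi₂ : E i₀ = Sum.inr i₂)
    (c : PowerSeries K) (u : Matrix I J (LaurentSeries K)) (v : π → I → LaurentSeries K)
    (w : I → LaurentSeries K) (z z' : Qnt (LaurentSeries K) π I J)
    (hz : SysQ (ofPS c) r p S T i₀ u v w z) (hz' : SysQ (ofPS c) r p S T i₀ u v w z')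
    (ζ : Qnt K π I J) (hred : z.Red ζ) (hred' : z'.Red ζ) (g : π ⊕ ρ → J)
    (hd : (ζ.P.submatrix (fun k => E.symm (Sum.map id Sum.inl k)) g).det ≠ 0)
    (ξ : Var (fun l => (S l).map E.toEmbedding) J → K) (hξ : toQ ξ = ζ.rows E)
    (hJ : ∀ w' : Var (fun l => (S l).map E.toEmbedding) J → K,
      dev (PowerSeries.constantCoeff c) (Finset.univ.filter fun i => E.symm (Sum.inr i) ∈ T) i₂ ξ
        w' = 0 → w' = 0) : z = z' := by
  have hY : (Matrix.of (xY ξ)).rank = Fintype.card π + Fintype.card ρ := by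
    refine tb6_rank ξ g ?_
    rw [hξ]
    exact hd
  obtain ⟨x, hx1, hx2, hx3⟩ := tb6_lift hS hr hT hi₀ E hE i₂ hi₂ c u v w z hz ζ hred g hd ξ hξ hY
  obtain ⟨x', hx1', hx2', hx3'⟩ :=
    tb6_lift hS hr hT hi₀ E hE i₂ hi₂ c u v w z' hz' ζ hred' g hd ξ hξ hY
  have h1 : ev c (Finset.univ.filter fun i => E.symm (Sum.inr i) ∈ T) i₂ x =
      ev c (Finset.univ.filter fun i => E.symm (Sum.inr i) ∈ T) i₂ x' := by
    ext1 e
    exact ofPS_injective ((hx2 e).trans (hx2' e).symm)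
  have h2 : x = x' := tb6_chart c _ i₂ x x' ξ hx3 hx3' h1 hJ
  exact tb6_rows_injective E (by rw [← hx1, ← hx1', h2])

/-- The map of the index types of the data. -/
theorem tb6_exists_idx {ρ σ : Type} (E : I ≃ Rw π ρ σ)
    (hE : ∀ l, E (p l) = Sum.inl l) :
    ∃ f : DI J (Sum.inl : π → Rw π ρ σ) (fun l => (S l).map E.toEmbedding) → DI J p S,
      Function.Injective f ∧ ∀ {R : Type} (u : Matrix I J R) (v : π → I → R),
        dat0 Sum.inl (fun l => (S l).map E.toEmbedding) (u.submatrix E.symm id)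
          (fun l i => v l (E.symm i)) = dat0 p S u v ∘ f := by
  refine ⟨Sum.map (fun x => (E.symm x.1, x.2)) (fun x => ⟨(x.1.1, E.symm x.1.2), ?_, ?_⟩),
    Function.Injective.sumMap ?_ ?_, ?_⟩
  · obtain ⟨i, hi, h⟩ := Finset.mem_map.1 x.2.1
    have h' : E.symm x.1.2 = i := by
      rw [← h]
      exact E.symm_apply_apply i
    rw [h']
    exact hi
  · intro h
    apply x.2.2
    rw [← hE x.1.1, ← h]
    exact (E.apply_symm_apply _).symm
  · rintro ⟨i, j⟩ ⟨i', j'⟩ h
    simp only [Prod.mk.injEq, EmbeddingLike.apply_eq_iff_eq] at h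
    exact Prod.ext h.1 h.2
  · rintro ⟨⟨l, i⟩, hx⟩ ⟨⟨l', i'⟩, hx'⟩ h
    simp only [Subtype.mk.injEq, Prod.mk.injEq, EmbeddingLike.apply_eq_iff_eq] at h
    exact Subtype.ext (Prod.ext h.1 h.2)
  · intro R u v
    ext1 x
    rcases x with x | x <;> rfl

theorem tb6_gen0 {ρ σ : Type} (E : I ≃ Rw π ρ σ)
    (hE : ∀ l, E (p l) = Sum.inl l) (u : Matrix I J ℂ) (v : π → I → ℂ) (hg : Gen0 p S u v) :
    Gen0 Sum.inl (fun l => (S l).map E.toEmbedding) (u.submatrix E.symm id)
      (fun l i => v l (E.symm i)) := by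
  obtain ⟨f, hf1, hf2⟩ := tb6_exists_idx (J := J) (S := S) E hE
  unfold Gen0
  rw [hf2]
  exact AlgebraicIndependent.comp hg f hf1

theorem tb6_gen1 {ρ σ : Type} [Fintype ρ] [Fintype σ] [DecidableEq ρ] [DecidableEq σ]
    (E : I ≃ Rw π ρ σ)
    (hE : ∀ l, E (p l) = Sum.inl l) (i₂ : ρ ⊕ σ) (hi₂ : E i₀ = Sum.inr i₂)
    (u : Matrix I J ℂ) (v : π → I → ℂ) (w : I → ℂ) (hg : Gen1 p S T i₀ u v w) :
    AlgebraicIndependent ℚ (Sum.elim (dat0 Sum.inl (fun l => (S l).map E.toEmbedding)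
      (u.submatrix E.symm id) (fun l i => v l (E.symm i)))
      (fun i : {i // i ∈ (Finset.univ.filter fun i => E.symm (Sum.inr i) ∈ T) ∧ i ≠ i₂} =>
        w (E.symm (Sum.inr i.1)))) := by
  obtain ⟨f, hf1, hf2⟩ := tb6_exists_idx (J := J) (S := S) E hE
  have h1 : Sum.elim (dat0 Sum.inl (fun l => (S l).map E.toEmbedding)
      (u.submatrix E.symm id) (fun l i => v l (E.symm i)))
      (fun i : {i // i ∈ (Finset.univ.filter fun i => E.symm (Sum.inr i) ∈ T) ∧ i ≠ i₂} =>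
        w (E.symm (Sum.inr i.1))) = dat1 p S T i₀ u v w ∘ (Sum.map f
        (fun i : {i // i ∈ (Finset.univ.filter fun i => E.symm (Sum.inr i) ∈ T) ∧ i ≠ i₂} =>
          (⟨E.symm (Sum.inr i.1), (Finset.mem_filter.1 i.2.1).2, fun h => i.2.2 (by
            have h3 : Sum.inr i.1 = E i₀ := by rw [← h, E.apply_symm_apply]
            rw [hi₂] at h3
            exact Sum.inr_injective h3)⟩ : {i : I // i ∈ T ∧ i ≠ i₀}))) := by
    ext1 x
    rcases x with x | x
    · simp only [Sum.elim_inl, Function.comp_apply, Sum.map_inl, dat1]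
      exact congrFun (hf2 u v) x
    · rfl
  rw [h1]
  refine AlgebraicIndependent.comp hg _ (Function.Injective.sumMap hf1 ?_)
  rintro ⟨i, hi⟩ ⟨i', hi'⟩ h
  simp only [Subtype.mk.injEq, EmbeddingLike.apply_eq_iff_eq, Sum.inr.injEq] at h
  exact Subtype.ext h

/-- Non-degeneracy at the limits of the first kind. -/
theorem tb6_J1 {K : Type} [Field K] [Algebra K ℂ] {ρ σ : Type} [Fintype ρ] [Fintype σ]
    [DecidableEq ρ] [DecidableEq σ] (hS : Adm p S)
    (hn : Fintype.card π + (Fintype.card ρ + Fintype.card σ) ≤ Fintype.card J)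
    (E : I ≃ Rw π ρ σ) (hE : ∀ l, E (p l) = Sum.inl l) (i₂ : ρ ⊕ σ) (hi₂ : E i₀ = Sum.inr i₂)
    (u : Matrix I J K) (v : π → I → K)
    (hg : Gen0 p S (u.map (algebraMap K ℂ)) (fun l i => algebraMap K ℂ (v l i)))
    (A : Finset I) (hA : A ⊆ T) (hi₀ : i₀ ∈ A) (hB : ∃ i, i ∉ A ∧ i ∉ Set.range p)
    (ζ : Qnt K π I J) (hζ : SysA r p S A i₀ u v ζ)
    (ξ : Var (fun l => (S l).map E.toEmbedding) J → K) (hξ : toQ ξ = ζ.rows E)
    (hev : ev 1 (Finset.univ.filter fun i => E.symm (Sum.inr i) ∈ A) i₂ ξ =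
        dat (Finset.univ.filter fun i => E.symm (Sum.inr i) ∈ A) i₂ (u.submatrix E.symm id)
          (fun l i => v l (E.symm i)) (fun _ => 0)) :
    ∀ w' : Var (fun l => (S l).map E.toEmbedding) J → K,
      dev 1 (Finset.univ.filter fun i => E.symm (Sum.inr i) ∈ T) i₂ ξ w' = 0 → w' = 0 := by
  have ha : ∀ i, xa ξ i = ζ.a (E.symm (Sum.inr i)) := fun i =>
    congrFun (congrArg (fun y => y.a) hξ) (Sum.inr i)
  have hb : ∀ i, xb ξ i = ζ.b (E.symm i) := fun i =>
    congrFun (congrArg (fun y => y.b) hξ) i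
  have hab : ∀ i, ζ.a i * ζ.b i = 0 := by
    intro i
    by_cases hi : i ∈ A
    · rw [hζ.toSysQ.vq_all hi₀ i hi]
      simp [wz]
    · rw [hζ.zero' i hi, zero_mul]
  set x : Var (fun l => (S l).map E.toEmbedding) J → ℂ := fun y => algebraMap K ℂ (ξ y) with hx
  have hev' : ev 1 (Finset.univ.filter fun i => E.symm (Sum.inr i) ∈ A) i₂ x =
      dat (Finset.univ.filter fun i => E.symm (Sum.inr i) ∈ A) i₂
        ((u.submatrix E.symm id).map (algebraMap K ℂ))
        (fun l i => algebraMap K ℂ (v l (E.symm i))) (fun _ => algebraMap K ℂ 0) := by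
    ext1 e
    have h1 := ev_map (algebraMap K ℂ) 1 (Finset.univ.filter fun i => E.symm (Sum.inr i) ∈ A)
      i₂ ξ e
    rw [map_one] at h1
    rw [hx, h1, hev, ← tb6_dat_map]
  obtain ⟨e1, e2, e3, e4, e5, e6⟩ := tb6_unpack hev'
  have hxa : ∀ i, xa x i = algebraMap K ℂ (xa ξ i) := fun i => rfl
  have hxb : ∀ i, xb x i = algebraMap K ℂ (xb ξ i) := fun i => rfl
  have h8 : ∃ s, xb x (Sum.inr (Sum.inr s)) ≠ 0 := by
    obtain ⟨i, hiA, hip⟩ := hB
    have hbi := hζ.suppb i hiA hip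
    by_contra hcon
    push Not at hcon
    have h2 : ∀ k : ρ, xb x (Sum.inr (Sum.inl k)) = 0 := by
      intro k
      have h3 : xb x (Sum.inr (Sum.inl k)) + ∑ s, xA x s k * xb x (Sum.inr (Sum.inr s)) = 0 :=
        e2 (Sum.inr k)
      simpa [hcon] using h3
    rcases hEi : E i with l | k | s
    · exact hip ⟨l, E.injective ((hE l).trans hEi.symm)⟩
    · have h3 := h2 k
      rw [hxb, hb, ← hEi, E.symm_apply_apply, map_eq_zero] at h3
      exact hbi h3
    · have h3 := hcon s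
      rw [hxb, hb, ← hEi, E.symm_apply_apply, map_eq_zero] at h3
      exact hbi h3
  have h6 : xa x i₂ = 1 := by
    rw [hxa, ha, ← hi₂, E.symm_apply_apply, hζ.one', map_one]
  have h7 : ∀ i, xa x i * xb x (Sum.inr i) = 0 := by
    intro i
    rw [hxa, hxb, ha, hb, ← map_mul, hab, map_zero]
  have e4' : ∀ k s, ∑ j, xY x (Sum.inr k) j * xG x (Sum.inr (Sum.inr s)) j =
        xa x (Sum.inl k) * xb x (Sum.inr (Sum.inr s)) := by
    intro k s
    rw [e4, one_mul]
  have hT : ∀ i, xa x i ≠ 0 → i ∈ Finset.univ.filter fun i => E.symm (Sum.inr i) ∈ T := by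
    intro i hi
    rw [Finset.mem_filter]
    refine ⟨Finset.mem_univ _, hA ?_⟩
    by_contra hcon
    rw [hxa, ha, hζ.zero' _ hcon, map_zero] at hi
    exact hi rfl
  have hg' := tb6_gen0 E hE _ _ hg
  have key := tb2b (tb6_adm hS E hE) hn _ _ hg' i₂ x e1 e2 e3 e4' e5 e6 h6 h7 h8
  have key2 := key.2.2.2 _ hT
  refine tb6_inj_transfer 1 _ i₂ ξ ?_
  rw [map_one]
  exact key2

/-- Non-degeneracy at the limits of the second kind. -/
theorem tb6_J0 {K : Type} [Field K] [Algebra K ℂ] {ρ σ : Type} [Fintype ρ] [Fintype σ]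
    [DecidableEq ρ] [DecidableEq σ] (hS : Adm p S)
    (hn : Fintype.card π + (Fintype.card ρ + Fintype.card σ) ≤ Fintype.card J)
    (E : I ≃ Rw π ρ σ) (hE : ∀ l, E (p l) = Sum.inl l) (i₂ : ρ ⊕ σ) (hi₂ : E i₀ = Sum.inr i₂)
    (hi₀ : i₀ ∈ T) (u : Matrix I J K) (v : π → I → K) (w : I → K)
    (hg : Gen1 p S T i₀ (u.map (algebraMap K ℂ)) (fun l i => algebraMap K ℂ (v l i))
      (fun i => algebraMap K ℂ (w i)))
    (ξ : Var (fun l => (S l).map E.toEmbedding) J → K)
    (hev : ev 0 (Finset.univ.filter fun i => E.symm (Sum.inr i) ∈ T) i₂ ξ =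
        dat (Finset.univ.filter fun i => E.symm (Sum.inr i) ∈ T) i₂ (u.submatrix E.symm id)
          (fun l i => v l (E.symm i)) (fun i => w (E.symm (Sum.inr i)))) :
    ∀ w' : Var (fun l => (S l).map E.toEmbedding) J → K,
      dev 0 (Finset.univ.filter fun i => E.symm (Sum.inr i) ∈ T) i₂ ξ w' = 0 → w' = 0 := by
  have hev' : ev 0 (Finset.univ.filter fun i => E.symm (Sum.inr i) ∈ T) i₂
      (fun y => algebraMap K ℂ (ξ y)) =
      dat (Finset.univ.filter fun i => E.symm (Sum.inr i) ∈ T) i₂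
        ((u.submatrix E.symm id).map (algebraMap K ℂ))
        (fun l i => algebraMap K ℂ (v l (E.symm i)))
        (fun i => algebraMap K ℂ (w (E.symm (Sum.inr i)))) := by
    ext1 e
    have h1 := ev_map (algebraMap K ℂ) 0 (Finset.univ.filter fun i => E.symm (Sum.inr i) ∈ T)
      i₂ ξ e
    rw [map_zero] at h1
    rw [h1, hev, ← tb6_dat_map]
  have hi₂' : i₂ ∈ Finset.univ.filter fun i => E.symm (Sum.inr i) ∈ T := by
    rw [Finset.mem_filter, ← hi₂, E.symm_apply_apply]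
    exact ⟨Finset.mem_univ _, hi₀⟩
  have hg' := tb6_gen1 E hE i₂ hi₂ _ _ _ hg
  have key := tb2c (tb6_adm hS E hE) hn ((u.submatrix E.symm id).map (algebraMap K ℂ))
    (fun l i => algebraMap K ℂ (v l (E.symm i)))
    (fun i => algebraMap K ℂ (w (E.symm (Sum.inr i)))) _ i₂ hi₂' hg' 0 (Or.inl rfl) _ hev'
  have key2 := key.2.2
  refine tb6_inj_transfer 0 _ i₂ ξ ?_
  rw [map_zero]
  exact key2

theorem tb6_card1 (h : Shape p S T i₀ r J) :
    Fintype.card π + Fintype.card (Fin (r - Fintype.card π)) = r := by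
  rw [Fintype.card_fin]
  have := h.lt
  omega

theorem tb6_card2 (h : Shape p S T i₀ r J) :
    Fintype.card π + (Fintype.card (Fin (r - Fintype.card π)) +
      Fintype.card (Fin (Fintype.card I - r))) ≤ Fintype.card J := by
  rw [Fintype.card_fin, Fintype.card_fin]
  have := h.lt
  have := h.ltI
  have := h.le
  omega

theorem tb6_exists_inr {ρ σ : Type} (E : I ≃ Rw π ρ σ) (hE : ∀ l, E (p l) = Sum.inl l) (i : I)
    (hi : i ∉ Set.range p) : ∃ i₂ : ρ ⊕ σ, E i = Sum.inr i₂ := by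
  rcases hEi : E i with l | i'
  · exact absurd ⟨l, E.injective ((hE l).trans hEi.symm)⟩ hi
  · exact ⟨i', rfl⟩

/-- Solutions normalised at a row where the limit is normalised, first kind. -/
theorem tb6_norm {K : Type} [Field K] (h : Shape p S T i₀ r J) (u : Matrix I J (LaurentSeries K))
    (v : π → I → LaurentSeries K) (w : I → LaurentSeries K) (z : Qnt (LaurentSeries K) π I J)
    (hz : SysQ 1 r p S T i₀ u v w z) (i₁ : I) (hi₁ : i₁ ∈ T)
    (c : LaurentSeries K) (hc : c ≠ 0) (ζ : Qnt K π I J) (hζ : ζ.a i₁ = 1)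
    (h1 : (z.scale c c⁻¹).Red ζ) :
    z.a i₁ ≠ 0 ∧ SysQ 1 r p S T i₁ u v (wz T i₀ w) (z.scale (z.a i₁)⁻¹ (z.a i₁)) ∧
      (z.scale (z.a i₁)⁻¹ (z.a i₁)).Red ζ := by
  obtain ⟨s, hs, hs'⟩ := h1.a i₁
  have hs1 : ofPS s = c * z.a i₁ := hs
  rw [hζ] at hs'
  have hs0 : ofPS s ≠ 0 := by
    rw [Ne, map_eq_zero_iff _ ofPS_injective]
    rintro rfl
    rw [map_zero] at hs'
    exact zero_ne_one hs'
  have hne : z.a i₁ ≠ 0 := by
    intro h0
    rw [hs1, h0, mul_zero] at hs0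
    exact hs0 rfl
  have hinv : ofPS s * ofPS s⁻¹ = 1 := by
    rw [← map_mul, PowerSeries.mul_inv_cancel _ (by rw [hs']; exact one_ne_zero), map_one]
  have hinv' : ofPS s⁻¹ = (ofPS s)⁻¹ := (inv_eq_of_mul_eq_one_right hinv).symm
  have hsc : PowerSeries.constantCoeff (s⁻¹) = 1 := by
    rw [PowerSeries.constantCoeff_inv, hs', inv_one]
  refine ⟨hne, hz.renorm h.mem i₁ hi₁ hne, ⟨h1.pnt, fun i => ?_, fun i => ?_⟩⟩
  · obtain ⟨t, ht, ht'⟩ := h1.a i
    have ht1 : ofPS t = c * z.a i := ht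
    refine ⟨s⁻¹ * t, ?_, by rw [map_mul, hsc, one_mul, ht']⟩
    change ofPS (s⁻¹ * t) = (z.a i₁)⁻¹ * z.a i
    rw [map_mul, hinv', hs1, ht1]
    field_simp
  · obtain ⟨t, ht, ht'⟩ := h1.b i
    have ht1 : ofPS t = c⁻¹ * z.b i := ht
    refine ⟨s * t, ?_, by rw [map_mul, hs', one_mul, ht']⟩
    change ofPS (s * t) = z.a i₁ * z.b i
    rw [map_mul, hs1, ht1]
    field_simp

/-- Row TB6 (helper64): uniqueness of the solution with a given limit, first kind -/
theorem tb6a {K : Type} [Field K] [Algebra K ℂ] (h : Shape p S T i₀ r J) (e : PowerSeries K)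
    (he : PowerSeries.constantCoeff e = 0) (u : Matrix I J K) (v : π → I → K) (w : I → K)
    (hg : Gen0 p S (u.map (algebraMap K ℂ)) (fun l i => algebraMap K ℂ (v l i)))
    (z z' : Qnt (LaurentSeries K) π I J)
    (hz : SysQ 1 r p S T i₀ (u.map HahnSeries.C) (fun l i => HahnSeries.C (v l i))
      (fun i => ofPS e * HahnSeries.C (w i)) z)
    (hz' : SysQ 1 r p S T i₀ (u.map HahnSeries.C) (fun l i => HahnSeries.C (v l i))
      (fun i => ofPS e * HahnSeries.C (w i)) z')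
    (A : Finset I) (hA : A ⊆ T) (i₁ : I) (hi₁ : i₁ ∈ A) (hB : ∃ i, i ∉ A ∧ i ∉ Set.range p)
    (c c' : LaurentSeries K) (hc : c ≠ 0)
    (hc' : c' ≠ 0) (ζ : Qnt K π I J) (hζ : SysA r p S A i₁ u v ζ) (h1 : (z.scale c c⁻¹).Red ζ)
    (h2 : (z'.scale c' c'⁻¹).Red ζ) : z = z' := by
  obtain ⟨hne, hn1, hn2⟩ := tb6_norm h _ _ _ z hz i₁ (hA hi₁) c hc ζ hζ.one' h1
  obtain ⟨hne', hn1', hn2'⟩ := tb6_norm h _ _ _ z' hz' i₁ (hA hi₁) c' hc' ζ hζ.one' h2
  obtain ⟨E, g, hE, hd⟩ := exists_rows h.adm h.lt.le h.ltI.le u v ζ.toPnt hζ.toBase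
  obtain ⟨i₂, hi₂⟩ := tb6_exists_inr E hE i₁ (h.nmem _ (hA hi₁))
  obtain ⟨ξ, hξ, hev, -⟩ := tb6_exists_chart h.adm (tb6_card1 h) (fun i hi => h.nmem i (hA hi))
    hi₁ E hE i₂ hi₂ 1 u v 0 ζ hζ.toSysQ ⊤ ⟨⟨fun _ _ => trivial, fun _ _ => trivial,
      fun _ _ => trivial, fun _ _ => trivial⟩, fun _ => trivial, fun _ => trivial⟩ g hd trivial
  have hJ := tb6_J1 h.adm (tb6_card2 h) E hE i₂ hi₂ u v hg A hA hi₁ hB ζ hζ ξ hξ hev
  have hcore := tb6_core (T := T) h.adm (tb6_card1 h) h.nmem (hA hi₁) E hE i₂ hi₂ 1 _ _ _ _ _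
    (by rw [map_one]; exact hn1) (by rw [map_one]; exact hn1') ζ hn2 hn2' g hd ξ hξ
    (by rw [map_one]; exact hJ)
  have ha : ∀ i, (z.a i₁)⁻¹ * z.a i = (z'.a i₁)⁻¹ * z'.a i := fun i =>
    congrFun (congrArg (fun y => y.a) hcore) i
  have hb : ∀ i, z.a i₁ * z.b i = z'.a i₁ * z'.b i := fun i =>
    congrFun (congrArg (fun y => y.b) hcore) i
  have h3 : z.a i₁ = z'.a i₁ := by
    have h4 := ha i₀
    rw [hz.one', hz'.one', mul_one, mul_one] at h4
    exact inv_injective h4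
  refine Qnt.ext (congrArg (fun y => y.P) hcore) (congrArg (fun y => y.G) hcore)
    (congrArg (fun y => y.q) hcore) (congrArg (fun y => y.h) hcore) ?_ ?_
  · ext1 i
    have h4 := ha i
    rw [h3] at h4
    exact mul_left_cancel₀ (inv_ne_zero hne') h4
  · ext1 i
    have h4 := hb i
    rw [h3] at h4
    exact mul_left_cancel₀ hne' h4

/-- Row TB6 (helper64): uniqueness of the solution with a given limit, second kind -/
theorem tb6b {K : Type} [Field K] [Algebra K ℂ] (h : Shape p S T i₀ r J) (e : PowerSeries K)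
    (he0 : e ≠ 0) (he : PowerSeries.constantCoeff e = 0)
    (u : Matrix I J K) (v : π → I → K) (w : I → K)
    (hg : Gen1 p S T i₀ (u.map (algebraMap K ℂ)) (fun l i => algebraMap K ℂ (v l i))
      (fun i => algebraMap K ℂ (w i)))
    (z z' : Qnt (LaurentSeries K) π I J)
    (hz : SysQ 1 r p S T i₀ (u.map HahnSeries.C) (fun l i => HahnSeries.C (v l i))
      (fun i => ofPS e * HahnSeries.C (w i)) z)
    (hz' : SysQ 1 r p S T i₀ (u.map HahnSeries.C) (fun l i => HahnSeries.C (v l i))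
      (fun i => ofPS e * HahnSeries.C (w i)) z')
    (ζ : Qnt K π I J) (hζ : SysQ 0 r p S T i₀ u v w ζ)
    (h1 : (z.scale 1 (ofPS e)⁻¹).Red ζ) (h2 : (z'.scale 1 (ofPS e)⁻¹).Red ζ) : z = z' := by
  have hne : (ofPS e : LaurentSeries K) ≠ 0 := by
    rw [Ne, map_eq_zero_iff _ ofPS_injective]
    exact he0
  have hsc : ∀ y : Qnt (LaurentSeries K) π I J,
      SysQ 1 r p S T i₀ (u.map HahnSeries.C) (fun l i => HahnSeries.C (v l i))
        (fun i => ofPS e * HahnSeries.C (w i)) y →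
      SysQ (ofPS e) r p S T i₀ (u.map HahnSeries.C) (fun l i => HahnSeries.C (v l i))
        (fun i => HahnSeries.C (w i)) (y.scale 1 (ofPS e)⁻¹) := by
    intro y hy
    refine ⟨hy.toBase, ?_, ?_, ?_, ?_, ?_, ?_⟩
    · have h3 := hy.cr
      rw [one_smul] at h3
      have h4 : ofPS e • Matrix.vecMulVec (y.scale 1 (ofPS e)⁻¹).a (y.scale 1 (ofPS e)⁻¹).b =
          Matrix.vecMulVec y.a y.b := by
        ext1 i j
        simp only [Matrix.smul_apply, Matrix.vecMulVec_apply, Qnt.scale, smul_eq_mul]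
        field_simp
      rw [h4]
      exact h3
    · obtain ⟨t, ht⟩ := hy.mem'
      exact ⟨t, by rw [show (y.scale 1 (ofPS e)⁻¹).a = y.a from funext fun i => one_mul _]; exact ht⟩
    · have h3 : (y.scale 1 (ofPS e)⁻¹).b = (ofPS e)⁻¹ • y.b := rfl
      rw [h3, Matrix.mulVec_smul]
      exact (congrArg _ hy.perp').trans (smul_zero _)
    · exact (one_mul _).trans hy.one'
    · intro i hi
      exact (one_mul _).trans (hy.zero' i hi)
    · intro i hi hi0
      have h3 := hy.vq' i hi hi0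
      change 1 * y.a i * ((ofPS e)⁻¹ * y.b i) = - HahnSeries.C (w i)
      have h4 : 1 * y.a i * ((ofPS e)⁻¹ * y.b i) = (ofPS e)⁻¹ * (y.a i * y.b i) := by ring
      rw [h4, h3]
      field_simp
  obtain ⟨E, g, hE, hd⟩ := exists_rows h.adm h.lt.le h.ltI.le u v ζ.toPnt hζ.toBase
  obtain ⟨i₂, hi₂⟩ := tb6_exists_inr E hE i₀ (h.nmem _ h.mem)
  obtain ⟨ξ, hξ, hev, -⟩ := tb6_exists_chart h.adm (tb6_card1 h) h.nmem
    h.mem E hE i₂ hi₂ 0 u v w ζ hζ ⊤ ⟨⟨fun _ _ => trivial, fun _ _ => trivial,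
      fun _ _ => trivial, fun _ _ => trivial⟩, fun _ => trivial, fun _ => trivial⟩ g hd trivial
  have hJ := tb6_J0 h.adm (tb6_card2 h) E hE i₂ hi₂ h.mem u v w hg ξ hev
  have hcore := tb6_core (T := T) h.adm (tb6_card1 h) h.nmem h.mem E hE i₂ hi₂ e _ _ _ _ _
    (hsc z hz) (hsc z' hz') ζ h1 h2 g hd ξ hξ (by rw [he]; exact hJ)
  refine Qnt.ext (congrArg (fun y => y.P) hcore) (congrArg (fun y => y.G) hcore)
    (congrArg (fun y => y.q) hcore) (congrArg (fun y => y.h) hcore) ?_ ?_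
  · ext1 i
    have h4 : 1 * z.a i = 1 * z'.a i := congrFun (congrArg (fun y => y.a) hcore) i
    rwa [one_mul, one_mul] at h4
  · ext1 i
    have h4 : (ofPS e)⁻¹ * z.b i = (ofPS e)⁻¹ * z'.b i :=
      congrFun (congrArg (fun y => y.b) hcore) i
    exact mul_left_cancel₀ (inv_ne_zero hne) h4

end matrix6

end Pool.EU.TB
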