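import Pool.Agent.EU.PersistP
import Pool.Agent.EU.TB0

/-!
# Persistence in the chart and continuity of the coordinates
-/

set_option autoImplicit false
set_option linter.unusedSectionVars false

namespace Pool.EU.TB

open Matrix Filter Topology

variable {π ρ σ J : Type} [DecidableEq π] [DecidableEq ρ] [DecidableEq σ] [DecidableEq J]
  [Fintype π] [Fintype ρ] [Fintype σ] [Fintype J] {S : π → Finset (Rw π ρ σ)}

theorem ev_line (c : ℂ) (T : Finset (ρ ⊕ σ)) (i₀ : ρ ⊕ σ) (x w : Var S J → ℂ) (e : Eqn S J) :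
    HasDerivAt (fun t : ℂ => ev c T i₀ (x + t • w) e) (dev c T i₀ x w e) 0 := by
  set p : Polynomial ℂ := ev (Polynomial.C c) T i₀
    (fun y => Polynomial.C (x y) + Polynomial.X * Polynomial.C (w y)) e with hp
  have h1 : ∀ t : ℂ, ev c T i₀ (x + t • w) e = p.eval t := by
    intro t
    have h2 := ev_map (Polynomial.evalRingHom t) (Polynomial.C c) T i₀
      (fun y => Polynomial.C (x y) + Polynomial.X * Polynomial.C (w y)) e
    rw [Polynomial.coe_evalRingHom, ← hp, Polynomial.eval_C] at h2
    rw [← h2]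
    congr 1
    funext y
    simp only [Polynomial.eval_add, Polynomial.eval_mul, Polynomial.eval_C, Polynomial.eval_X,
      Pi.add_apply, Pi.smul_apply, smul_eq_mul]
  have h3 : p.derivative.eval 0 = dev c T i₀ x w e := by
    have h4 := ev_der (Polynomial.evalRingHom (0 : ℂ))
      (fun q : Polynomial ℂ => q.derivative.eval 0) (fun a b => by simp)
      (fun a b => by simp [Polynomial.derivative_mul]; ring) (Polynomial.C c) (by simp) T i₀
      (fun y => Polynomial.C (x y) + Polynomial.X * Polynomial.C (w y)) e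
    simp only [Polynomial.coe_evalRingHom] at h4
    rw [← hp, Polynomial.eval_C] at h4
    rw [h4]
    congr 1
    · funext y
      simp
    · funext y
      simp
  have h5 : (fun t : ℂ => ev c T i₀ (x + t • w) e) = fun t => p.eval t := funext h1
  rw [h5, ← h3]
  exact p.hasDerivAt 0

/-- Non-degenerate points of the chart persist. -/
theorem persist_chart (c0 c1 : ℂ) (T : Finset (ρ ⊕ σ)) (i₀ : ρ ⊕ σ) (x0 : Var S J → ℂ)
    (D0 D1 : Eqn S J → ℂ) (h0 : ev c0 T i₀ x0 = D0)
    (hJ : ∀ w, dev c0 T i₀ x0 w = 0 → w = 0) (U : Set (Var S J → ℂ)) (hU : U ∈ 𝓝 x0) :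
    ∃ η : ℝ, 0 < η ∧ ∀ ε : ℂ, ‖ε‖ < η → ∃ x ∈ U,
      ev (c0 + ε * c1) T i₀ x = D0 + ε • D1 := by
  classical
  let g : Eqn S J → MvPolynomial (Option (Var S J)) ℂ := fun e =>
    ev (MvPolynomial.C c0 + MvPolynomial.X none * MvPolynomial.C c1) T i₀
      (fun y => MvPolynomial.X (some y)) e -
      (MvPolynomial.C (D0 e) + MvPolynomial.X none * MvPolynomial.C (D1 e))
  have hg : ∀ (ε : ℂ) (x : Var S J → ℂ) (e : Eqn S J), MvPolynomial.eval (opt' ε x) (g e) =
      ev (c0 + ε * c1) T i₀ x e - (D0 e + ε * D1 e) := by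
    intro ε x e
    have h1 := ev_map (MvPolynomial.eval (opt' ε x))
      (MvPolynomial.C c0 + MvPolynomial.X none * MvPolynomial.C c1) T i₀
      (fun y => MvPolynomial.X (some y)) e
    simp only [map_add, map_mul, MvPolynomial.eval_C, MvPolynomial.eval_X] at h1
    simp only [g, map_sub, map_add, map_mul, MvPolynomial.eval_C, MvPolynomial.eval_X]
    rw [← h1]
    rfl
  obtain ⟨η, hη, hball⟩ := persist_poly (card_var (S := S) (J := J)) g x0
    (fun e => by
      rw [hg, zero_mul, add_zero, zero_mul, add_zero, h0, sub_self])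
    (fun w hw => by
      apply hJ
      funext e
      have h1 := hw e
      have h2 : (fun t : ℂ => MvPolynomial.eval (opt' 0 (x0 + t • w)) (g e)) =
          fun t : ℂ => ev c0 T i₀ (x0 + t • w) e - D0 e := by
        funext t
        rw [hg, zero_mul, add_zero, zero_mul, add_zero]
      rw [h2] at h1
      have h3 := (ev_line c0 T i₀ x0 w e).sub_const (D0 e)
      exact h3.unique h1) U hU
  refine ⟨η, hη, fun ε hε => ?_⟩
  obtain ⟨x, hx, hxe⟩ := hball ε hε
  refine ⟨x, hx, ?_⟩
  funext e
  have h1 := hxe e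
  rw [hg, sub_eq_zero] at h1
  exact h1

/-- The rank of `Y` is full near a point at which it is full. -/
theorem rank_nhds (x0 : Var S J → ℂ)
    (h : (Matrix.of (xY x0)).rank = Fintype.card π + Fintype.card ρ) :
    ∀ᶠ x in 𝓝 x0, (Matrix.of (xY x)).rank = Fintype.card π + Fintype.card ρ := by
  classical
  have hsurj : Function.Surjective (Matrix.of (xY x0)).mulVecLin := by
    rw [← LinearMap.range_eq_top]
    apply Submodule.eq_top_of_finrank_eq
    rw [Module.finrank_fintype_fun_eq_card, Fintype.card_sum]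
    exact h
  obtain ⟨B', hB'⟩ := LinearMap.exists_rightInverse_of_surjective
    (Matrix.of (xY x0)).mulVecLin (LinearMap.range_eq_top.mpr hsurj)
  let B : Matrix J (π ⊕ ρ) ℂ := LinearMap.toMatrix' B'
  have hB : Matrix.of (xY x0) * B = 1 := by
    apply (Matrix.toLin' (R := ℂ)).injective
    rw [Matrix.toLin'_mul, Matrix.toLin'_one]
    have h1 : Matrix.toLin' B = B' := Matrix.toLin'_toMatrix' B'
    rw [h1]
    exact hB'
  have hcont : Continuous fun x : Var S J → ℂ => (Matrix.of (xY x) * B).det := by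
    apply Continuous.matrix_det
    apply Continuous.matrix_mul _ continuous_const
    apply continuous_matrix
    intro i j
    exact continuous_apply _
  have hne : ∀ᶠ x in 𝓝 x0, (Matrix.of (xY x) * B).det ≠ 0 := by
    apply hcont.continuousAt.eventually_ne
    rw [hB, Matrix.det_one]
    exact one_ne_zero
  refine hne.mono fun x hx => ?_
  apply le_antisymm
  · refine (Matrix.rank_le_card_height _).trans ?_
    rw [Fintype.card_sum]
  · have h1 : (Matrix.of (xY x) * B).rank = Fintype.card (π ⊕ ρ) :=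
      Matrix.rank_of_isUnit _ ((Matrix.isUnit_iff_isUnit_det _).mpr (isUnit_iff_ne_zero.mpr hx))
    rw [← Fintype.card_sum, ← h1]
    exact Matrix.rank_mul_le_left _ _

theorem continuous_fr (l : π) (i : Rw π ρ σ) : Continuous fun x : Var S J → ℂ => fr x l i := by
  unfold fr
  split_ifs with h1 h2
  · exact continuous_apply _
  · exact continuous_const
  · exact continuous_const

theorem continuous_xP (i : Rw π ρ σ) (j : J) : Continuous fun x : Var S J → ℂ => xP x i j := by
  unfold xP
  refine Continuous.add ?_ ?_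
  · exact continuous_finsetSum _ fun l _ => (continuous_fr l i).mul (continuous_apply _)
  · rcases i with i | k | s
    · exact continuous_const
    · exact continuous_apply _
    · exact continuous_finsetSum _ fun k _ => (continuous_apply _).mul (continuous_apply _)

theorem continuous_xh (l : π) (i : Rw π ρ σ) : Continuous fun x : Var S J → ℂ => xh x l i := by
  unfold xh
  exact continuous_finsetSum _ fun j _ => (continuous_apply _).mul (continuous_apply _)

/-- Points with near coordinates are near. -/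
theorem near_nhds (x0 : Var S J → ℂ) (δ : ℝ) (hδ : 0 < δ) :
    ∀ᶠ x in 𝓝 x0, Qnt.Near δ (toQ x) (toQ x0) := by
  have key : ∀ f : (Var S J → ℂ) → ℂ, Continuous f → ∀ᶠ x in 𝓝 x0, ‖f x - f x0‖ < δ := by
    intro f hf
    have h1 := Metric.tendsto_nhds.mp (hf.tendsto x0) δ hδ
    refine h1.mono fun x hx => ?_
    rwa [dist_eq_norm] at hx
  have hP : ∀ᶠ x in 𝓝 x0, ∀ i j, ‖(toQ x).P i j - (toQ x0).P i j‖ < δ :=
    eventually_all.mpr fun i => eventually_all.mpr fun j => key _ (continuous_xP i j)
  have hG : ∀ᶠ x in 𝓝 x0, ∀ i j, ‖(toQ x).G i j - (toQ x0).G i j‖ < δ :=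
    eventually_all.mpr fun i => eventually_all.mpr fun j => key _ (continuous_apply _)
  have hq : ∀ᶠ x in 𝓝 x0, ∀ l i, ‖(toQ x).q l i - (toQ x0).q l i‖ < δ :=
    eventually_all.mpr fun l => eventually_all.mpr fun i => key _ (continuous_fr l i)
  have hh : ∀ᶠ x in 𝓝 x0, ∀ l i, ‖(toQ x).h l i - (toQ x0).h l i‖ < δ :=
    eventually_all.mpr fun l => eventually_all.mpr fun i => key _ (continuous_xh l i)
  have ha : ∀ᶠ x in 𝓝 x0, ∀ i, ‖(toQ x).a i - (toQ x0).a i‖ < δ :=
    eventually_all.mpr fun i => key (fun x => (toQ x).a i) (by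
      rcases i with i | i
      · exact continuous_const
      · exact continuous_apply _)
  have hb : ∀ᶠ x in 𝓝 x0, ∀ i, ‖(toQ x).b i - (toQ x0).b i‖ < δ :=
    eventually_all.mpr fun i => key _ (continuous_apply _)
  filter_upwards [hP, hG, hq, hh, ha, hb] with x h1 h2 h3 h4 h5 h6
  exact ⟨h1, h2, h3, h4, h5, h6⟩

end Pool.EU.TB
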