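import Mathlib

/-!
# Alternating sums over the supports
-/

set_option autoImplicit false

namespace Pool.EU

section alt

variable {I : Type} [Fintype I] [DecidableEq I]

/-- The alternating sum over the sets containing a proper subset vanishes. -/
theorem alt_sum_superset (A : Finset I) (hA : A ≠ Finset.univ) :
    ∑ S ∈ Finset.univ.filter (fun S : Finset I => A ⊆ S), (-1 : ℤ) ^ S.card = 0 := by
  obtain ⟨b, hb⟩ : ∃ b, b ∉ A := by
    by_contra h
    push Not at h
    exact hA (Finset.eq_univ_iff_forall.mpr h)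
  refine Finset.sum_involution (fun S _ => if b ∈ S then S.erase b else insert b S) ?_ ?_ ?_ ?_
  · intro S hS
    by_cases h : b ∈ S
    · rw [if_pos h]
      have h1 := Finset.card_erase_add_one h
      rw [← h1, pow_succ]
      ring
    · rw [if_neg h, Finset.card_insert_of_notMem h, pow_succ]
      ring
  · intro S hS h0 h1
    by_cases h : b ∈ S
    · rw [if_pos h] at h1
      exact (Finset.notMem_erase b S) (h1.symm ▸ h)
    · rw [if_neg h] at h1
      exact h (h1 ▸ Finset.mem_insert_self b S)
  · intro S hS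
    rw [Finset.mem_filter] at hS ⊢
    refine ⟨Finset.mem_univ _, ?_⟩
    by_cases h : b ∈ S
    · rw [if_pos h]
      intro a ha
      refine Finset.mem_erase.mpr ⟨?_, hS.2 ha⟩
      rintro rfl
      exact hb ha
    · rw [if_neg h]
      exact hS.2.trans (Finset.subset_insert b S)
  · intro S hS
    by_cases h : b ∈ S
    · rw [if_pos h, if_neg (Finset.notMem_erase b S), Finset.insert_erase h]
    · rw [if_neg h, if_pos (Finset.mem_insert_self b S), Finset.erase_insert h]

/-- The alternating sum of the numbers of solutions, from the numbers of the limits of the two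
kinds. -/
theorem tb8_abstract {X : Type} (X0 : Finset X) (N : Finset I → ℤ) (c : X → Finset I → ℤ)
    (M : Finset I → ℤ) (s r : ℤ) (e : ℕ)
    (hM : ∀ A, M A ≠ 0 → A.Nonempty ∧ A ≠ Finset.univ)
    (hN : ∀ S : Finset I, S.Nonempty → N S = ∑ x ∈ X0, c x S + ∑ A ∈ S.powerset, M A)
    (hc : ∀ x ∈ X0, ∑ S ∈ Finset.univ.filter (fun S : Finset I => S.Nonempty),
      (-1 : ℤ) ^ (S.card + e) * c x S = r) :
    ∑ S ∈ Finset.univ.filter (fun S : Finset I => S.Nonempty), (-1 : ℤ) ^ (S.card + e) * N S =
      r * X0.card := by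
  have h1 : ∑ S ∈ Finset.univ.filter (fun S : Finset I => S.Nonempty),
      (-1 : ℤ) ^ (S.card + e) * N S =
      ∑ S ∈ Finset.univ.filter (fun S : Finset I => S.Nonempty),
        (-1 : ℤ) ^ (S.card + e) * ∑ x ∈ X0, c x S +
      ∑ S ∈ Finset.univ.filter (fun S : Finset I => S.Nonempty),
        (-1 : ℤ) ^ (S.card + e) * ∑ A ∈ S.powerset, M A := by
    rw [← Finset.sum_add_distrib]
    refine Finset.sum_congr rfl fun S hS => ?_
    rw [hN S (Finset.mem_filter.mp hS).2, mul_add]
  rw [h1]
  have h2 : ∑ S ∈ Finset.univ.filter (fun S : Finset I => S.Nonempty),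
      (-1 : ℤ) ^ (S.card + e) * ∑ x ∈ X0, c x S = r * X0.card := by
    simp only [Finset.mul_sum]
    rw [Finset.sum_comm, Finset.sum_congr rfl hc, Finset.sum_const, nsmul_eq_mul, mul_comm]
  have h3 : ∑ S ∈ Finset.univ.filter (fun S : Finset I => S.Nonempty),
      (-1 : ℤ) ^ (S.card + e) * ∑ A ∈ S.powerset, M A = 0 := by
    have h4 : ∀ S : Finset I, ∑ A ∈ S.powerset, M A =
        ∑ A, if A ⊆ S then M A else 0 := by
      intro S
      rw [← Finset.sum_filter]
      refine Finset.sum_congr ?_ fun _ _ => rfl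
      ext A
      simp
    simp only [h4, Finset.mul_sum]
    rw [Finset.sum_comm]
    refine Finset.sum_eq_zero fun A _ => ?_
    by_cases hMA : M A = 0
    · refine Finset.sum_eq_zero fun S _ => ?_
      rw [hMA]
      simp
    · obtain ⟨hA1, hA2⟩ := hM A hMA
      have h5 : ∑ S ∈ Finset.univ.filter (fun S : Finset I => S.Nonempty),
          ((-1 : ℤ) ^ (S.card + e) * if A ⊆ S then M A else 0) =
          (-1) ^ e * M A *
            ∑ S ∈ Finset.univ.filter (fun S : Finset I => A ⊆ S), (-1 : ℤ) ^ S.card := by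
        rw [Finset.mul_sum, Finset.sum_filter, Finset.sum_filter]
        refine Finset.sum_congr rfl fun S _ => ?_
        by_cases h6 : A ⊆ S
        · rw [if_pos h6, if_pos h6, if_pos (hA1.mono h6), pow_add]
          ring
        · rw [if_neg h6, if_neg h6, mul_zero]
          split_ifs <;> rfl
      rw [h5, alt_sum_superset A hA2, mul_zero]
  rw [h2, h3, add_zero]

end alt

end Pool.EU
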