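import Pool.Agent.EU.TBDefs
import Pool.Agent.EU.Fin

/-!
# Row TBF: the solution sets are finite
-/

set_option autoImplicit false
set_option linter.unusedSectionVars false

namespace Pool.EU.TB

open Matrix Pool.ML EC MvPolynomial

/-! ### Matrices of given rank are constructible -/

section rank

variable {I J : Type} [Fintype I] [Fintype J] {K : Type} [Field K]

lemma exists_factor (P : Matrix I J K) :
    ∃ B : Matrix I (Fin P.rank) K, ∃ D : Matrix (Fin P.rank) J K, P = B * D := by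
  classical
  set V : Submodule K (I → K) := LinearMap.range P.mulVecLin with hV
  set b : Module.Basis (Fin P.rank) K V := Module.finBasis K V with hb
  have h1 : ∀ j, (fun i => P i j) ∈ V := by
    intro j
    refine ⟨Pi.single j 1, ?_⟩
    ext i
    simp
  refine ⟨fun i k => (b k).1 i, fun k j => b.repr ⟨_, h1 j⟩ k, ?_⟩
  ext i j
  have h2 := congrArg Subtype.val (b.sum_repr ⟨_, h1 j⟩)
  rw [Submodule.coe_sum] at h2
  have h3 := congrFun h2 i
  rw [Finset.sum_apply] at h3
  rw [Matrix.mul_apply]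
  refine Eq.trans h3.symm (Finset.sum_congr rfl fun k _ => ?_)
  show b.repr ⟨_, h1 j⟩ k * (b k).1 i = (b k).1 i * b.repr ⟨_, h1 j⟩ k
  exact mul_comm _ _

lemma rank_le_iff_factor (P : Matrix I J K) (r : ℕ) :
    P.rank ≤ r ↔ ∃ s : Fin (r + 1), ∃ B : Matrix I (Fin s) K, ∃ D : Matrix (Fin s) J K,
      P = B * D := by
  constructor
  · intro h
    exact ⟨⟨P.rank, Nat.lt_succ_of_le h⟩, exists_factor P⟩
  · rintro ⟨s, B, D, rfl⟩
    have h1 := Matrix.rank_mul_le_left B D
    have h2 := Matrix.rank_le_card_width B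
    rw [Fintype.card_fin] at h2
    omega

lemma cons_rankLe [IsAlgClosed K] (r : ℕ) : Cons {x : I × J → K | (Matrix.of fun i j => x (i, j)).rank ≤ r} := by
  have h1 : {x : I × J → K | (Matrix.of fun i j => x (i, j)).rank ≤ r} =
      ⋃ s : Fin (r + 1), {x : I × J → K | ∃ y : (I × Fin s) ⊕ (Fin s × J) → K,
        Sum.elim x y ∈ ⋂ i, ⋂ j, {w : (I × J) ⊕ ((I × Fin s) ⊕ (Fin s × J)) → K |
          eval w (X (Sum.inl (i, j)) - ∑ k, X (Sum.inr (Sum.inl (i, k))) *
            X (Sum.inr (Sum.inr (k, j))) : MvPolynomial _ K) = 0}} := by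
    ext x
    rw [Set.mem_iUnion]
    show (Matrix.of fun i j => x (i, j)).rank ≤ r ↔ _
    rw [rank_le_iff_factor]
    refine exists_congr fun s => ?_
    constructor
    · rintro ⟨B, D, h⟩
      refine ⟨Sum.elim (fun y => B y.1 y.2) (fun y => D y.1 y.2), ?_⟩
      simp only [Set.mem_iInter, Set.mem_ofPred_eq]
      intro i j
      have h2 := congrFun (congrFun h i) j
      rw [Matrix.mul_apply] at h2
      simp only [map_sub, map_sum, map_mul, eval_X, Sum.elim_inl, Sum.elim_inr]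
      rw [← h2]
      simp
    · rintro ⟨y, hy⟩
      refine ⟨fun i k => y (Sum.inl (i, k)), fun k j => y (Sum.inr (k, j)), ?_⟩
      ext i j
      simp only [Set.mem_iInter, Set.mem_ofPred_eq] at hy
      have h2 := hy i j
      simp only [map_sub, map_sum, map_mul, eval_X, Sum.elim_inl, Sum.elim_inr, sub_eq_zero] at h2
      rw [Matrix.mul_apply]
      exact h2
  rw [h1]
  exact Cons.iUnion fun s => (Cons.iInter fun i => Cons.iInter fun j => Cons.zero _).proj

lemma cons_rankEq [IsAlgClosed K] (r : ℕ) : Cons {x : I × J → K | (Matrix.of fun i j => x (i, j)).rank = r} := by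
  cases r with
  | zero =>
    have h := cons_rankLe (I := I) (J := J) (K := K) 0
    convert h using 1
    ext x
    simp
  | succ r =>
    have h := (cons_rankLe (I := I) (J := J) (K := K) (r + 1)).diff
      (cons_rankLe (I := I) (J := J) (K := K) r)
    convert h using 1
    ext x
    simp only [Set.mem_ofPred_eq, Set.mem_sdiff]
    omega

end rank

section enc

variable {π I J : Type}

/-- Index type for all coordinates of a point. -/
abbrev NI (π I J : Type) : Type := ((I × J) ⊕ (I × J)) ⊕ (((π × I) ⊕ (π × I)) ⊕ (I ⊕ I))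

/-- The point with given coordinates. -/
def dec (x : NI π I J → ℂ) : Qnt ℂ π I J where
  P := Matrix.of fun i j => x (Sum.inl (Sum.inl (i, j)))
  G := Matrix.of fun i j => x (Sum.inl (Sum.inr (i, j)))
  q := fun l i => x (Sum.inr (Sum.inl (Sum.inl (l, i))))
  h := fun l i => x (Sum.inr (Sum.inl (Sum.inr (l, i))))
  a := fun i => x (Sum.inr (Sum.inr (Sum.inl i)))
  b := fun i => x (Sum.inr (Sum.inr (Sum.inr i)))

/-- The coordinates of a point. -/
def enc (z : Qnt ℂ π I J) : NI π I J → ℂ :=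
  Sum.elim (Sum.elim (fun y => z.P y.1 y.2) (fun y => z.G y.1 y.2))
    (Sum.elim (Sum.elim (fun y => z.q y.1 y.2) (fun y => z.h y.1 y.2)) (Sum.elim z.a z.b))

lemma dec_enc (z : Qnt ℂ π I J) : dec (enc z) = z := rfl

lemma all_enc {C : ℂ → Prop} {x : NI π I J → ℂ} (h : (dec x).All C) (y : NI π I J) : C (x y) := by
  rcases y with (⟨i, j⟩ | ⟨i, j⟩) | ((⟨l, i⟩ | ⟨l, i⟩) | (i | i))
  · exact h.pnt.P i j
  · exact h.pnt.G i j
  · exact h.pnt.q l i
  · exact h.pnt.h l i
  · exact h.a i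
  · exact h.b i

variable [Fintype π] [Fintype I] [Fintype J] [LinearOrder π] [DecidableEq I]
  [DecidableEq J] {p : π → I} {S : π → Finset I} {T : Finset I} {i₀ : I} {r : ℕ}

/-- A polynomial condition. -/
lemma cons_of_poly {N : Type} {R : (N → ℂ) → Prop} (P : MvPolynomial N ℂ)
    (h : ∀ x, R x ↔ eval x P = 0) : Cons {x | R x} := by
  have : {x | R x} = {x | eval x P = 0} := by
    ext x
    exact h x
  rw [this]
  exact Cons.zero P

lemma cons_and {N : Type} {R R' : (N → ℂ) → Prop} (h : Cons {x | R x}) (h' : Cons {x | R' x}) :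
    Cons {x | R x ∧ R' x} := h.inter h'

lemma cons_forall {N α : Type} [Finite α] {R : α → (N → ℂ) → Prop} (h : ∀ a, Cons {x | R a x}) :
    Cons {x | ∀ a, R a x} := by
  have : {x | ∀ a, R a x} = ⋂ a, {x | R a x} := by
    ext x
    simp
  rw [this]
  exact Cons.iInter h

lemma cons_imp {N : Type} {R : (N → ℂ) → Prop} {A : Prop} (h : A → Cons {x | R x}) :
    Cons {x | A → R x} := by
  by_cases hA : A
  · simpa [hA] using h hA
  · simpa [hA] using Cons.univ

lemma cons_mem (f : I → NI π I J) : Cons {x : NI π I J → ℂ | ∃ y : J → ℂ, (dec x).P *ᵥ y = fun i => x (f i)} := by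
  have h1 : Cons {w : NI π I J ⊕ J → ℂ | ∀ i, eval w (∑ j, X (Sum.inl (Sum.inl (Sum.inl (i, j)))) *
      X (Sum.inr j) - X (Sum.inl (f i)) : MvPolynomial _ ℂ) = 0} :=
    cons_forall fun i => Cons.zero _
  convert h1.proj using 1
  ext x
  simp only [Set.mem_ofPred_eq]
  refine exists_congr fun y => ?_
  rw [funext_iff]
  refine forall_congr' fun i => ?_
  simp only [map_sub, map_sum, map_mul, eval_X, Sum.elim_inl, Sum.elim_inr, sub_eq_zero]
  rfl

lemma cons_base (u : Matrix I J ℂ) (v : π → I → ℂ) :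
    Cons {x : NI π I J → ℂ | Base r p S u v (dec x).toPnt} := by
  have h0 : {x : NI π I J → ℂ | Base r p S u v (dec x).toPnt} = {x | (dec x).P.rank = r ∧
      (dec x).Pᵀ * (dec x).G = 0 ∧ (∀ l, ∃ y : J → ℂ, (dec x).P *ᵥ y = (dec x).q l) ∧
      (∀ i j, (dec x).P i j * (1 + (dec x).G i j) = u i j) ∧ (∀ l, (dec x).q l (p l) = 1) ∧
      (∀ l, ∀ i ∉ S l, (dec x).q l i = 0) ∧
      (∀ l, ∀ i ∈ S l, i ≠ p l → (dec x).q l i * (dec x).h l i = - v l i)} := by
    ext x
    exact ⟨fun h => ⟨h.rk, h.orth, h.mem, h.eq, h.one, h.zero, h.vq⟩,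
      fun h => ⟨h.1, h.2.1, h.2.2.1, h.2.2.2.1, h.2.2.2.2.1, h.2.2.2.2.2.1, h.2.2.2.2.2.2⟩⟩
  rw [h0]
  refine cons_and ?_ (cons_and ?_ (cons_and ?_ (cons_and ?_ (cons_and ?_ (cons_and ?_ ?_)))))
  · exact (cons_rankEq r).reindex (fun y => Sum.inl (Sum.inl y))
  · have : {x : NI π I J → ℂ | (dec x).Pᵀ * (dec x).G = 0} = {x | ∀ j j', ∑ i,
        x (Sum.inl (Sum.inl (i, j))) * x (Sum.inl (Sum.inr (i, j'))) = 0} := by
      ext x
      simp only [Set.mem_ofPred_eq]
      rw [← Matrix.ext_iff]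
      rfl
    rw [this]
    refine cons_forall fun j => cons_forall fun j' => cons_of_poly (∑ i,
      X (Sum.inl (Sum.inl (i, j))) * X (Sum.inl (Sum.inr (i, j')))) fun x => ?_
    simp only [map_sum, map_mul, eval_X]
  · exact cons_forall fun l => cons_mem (fun i => Sum.inr (Sum.inl (Sum.inl (l, i))))
  · refine cons_forall fun i => cons_forall fun j => cons_of_poly (X (Sum.inl (Sum.inl (i, j))) *
      (1 + X (Sum.inl (Sum.inr (i, j)))) - C (u i j)) fun x => ?_
    simp only [map_sub, map_add, map_mul, map_one, eval_X, eval_C, sub_eq_zero]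
    rfl
  · refine cons_forall fun l => cons_of_poly (X (Sum.inr (Sum.inl (Sum.inl (l, p l)))) - 1)
      fun x => ?_
    simp only [map_sub, map_one, eval_X, sub_eq_zero]
    rfl
  · refine cons_forall fun l => cons_forall fun i => cons_imp fun _ =>
      cons_of_poly (X (Sum.inr (Sum.inl (Sum.inl (l, i))))) fun x => ?_
    simp only [eval_X]
    rfl
  · refine cons_forall fun l => cons_forall fun i => cons_imp fun _ => cons_imp fun _ =>
      cons_of_poly (X (Sum.inr (Sum.inl (Sum.inl (l, i)))) * X (Sum.inr (Sum.inl (Sum.inr (l, i)))) +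
        C (v l i)) fun x => ?_
    simp only [map_add, map_mul, eval_X, eval_C]
    rw [← sub_eq_zero, sub_neg_eq_add]
    rfl

lemma cons_sys (u : Matrix I J ℂ) (v : π → I → ℂ) :
    Cons {x : NI π I J → ℂ | Sys r p S u v (dec x).toPnt} := by
  have h0 : {x : NI π I J → ℂ | Sys r p S u v (dec x).toPnt} = {x | Base r p S u v (dec x).toPnt ∧
      (dec x).P * (dec x).Gᵀ = ∑ l, Matrix.vecMulVec ((dec x).q l) ((dec x).h l)} := by
    ext x
    exact ⟨fun h => ⟨h.toBase, h.cr⟩, fun h => ⟨h.1, h.2⟩⟩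
  rw [h0]
  refine cons_and (cons_base u v) ?_
  have : {x : NI π I J → ℂ | (dec x).P * (dec x).Gᵀ = ∑ l, Matrix.vecMulVec ((dec x).q l)
      ((dec x).h l)} = {x | ∀ i i', ∑ j, x (Sum.inl (Sum.inl (i, j))) *
        x (Sum.inl (Sum.inr (i', j))) = ∑ l, x (Sum.inr (Sum.inl (Sum.inl (l, i)))) *
        x (Sum.inr (Sum.inl (Sum.inr (l, i'))))} := by
    ext x
    simp only [Set.mem_ofPred_eq]
    rw [← Matrix.ext_iff]
    refine forall_congr' fun i => forall_congr' fun i' => ?_
    rw [Matrix.sum_apply]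
    rfl
  rw [this]
  refine cons_forall fun i => cons_forall fun i' => cons_of_poly (∑ j,
    X (Sum.inl (Sum.inl (i, j))) * X (Sum.inl (Sum.inr (i', j))) - ∑ l,
      X (Sum.inr (Sum.inl (Sum.inl (l, i)))) * X (Sum.inr (Sum.inl (Sum.inr (l, i'))))) fun x => ?_
  simp only [map_sub, map_sum, map_mul, eval_X, sub_eq_zero]

lemma cons_sysQ (c : ℂ) (u : Matrix I J ℂ) (v : π → I → ℂ) (w : I → ℂ) :
    Cons {x : NI π I J → ℂ | SysQ c r p S T i₀ u v w (dec x)} := by
  have h0 : {x : NI π I J → ℂ | SysQ c r p S T i₀ u v w (dec x)} =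
      {x | Base r p S u v (dec x).toPnt ∧
      (dec x).P * (dec x).Gᵀ = ∑ l, Matrix.vecMulVec ((dec x).q l) ((dec x).h l) +
        c • Matrix.vecMulVec (dec x).a (dec x).b ∧
      (∃ y : J → ℂ, (dec x).P *ᵥ y = (dec x).a) ∧ (dec x).Pᵀ *ᵥ (dec x).b = 0 ∧
      (dec x).a i₀ = 1 ∧ (∀ i ∉ T, (dec x).a i = 0) ∧
      (∀ i ∈ T, i ≠ i₀ → (dec x).a i * (dec x).b i = - w i)} := by
    ext x
    exact ⟨fun h => ⟨h.toBase, h.cr, h.mem', h.perp', h.one', h.zero', h.vq'⟩,
      fun h => ⟨h.1, h.2.1, h.2.2.1, h.2.2.2.1, h.2.2.2.2.1, h.2.2.2.2.2.1, h.2.2.2.2.2.2⟩⟩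
  rw [h0]
  refine cons_and (cons_base u v) (cons_and ?_ (cons_and ?_ (cons_and ?_ (cons_and ?_
    (cons_and ?_ ?_)))))
  · have : {x : NI π I J → ℂ | (dec x).P * (dec x).Gᵀ = ∑ l, Matrix.vecMulVec ((dec x).q l)
        ((dec x).h l) + c • Matrix.vecMulVec (dec x).a (dec x).b} = {x | ∀ i i', ∑ j,
          x (Sum.inl (Sum.inl (i, j))) *
          x (Sum.inl (Sum.inr (i', j))) = ∑ l, x (Sum.inr (Sum.inl (Sum.inl (l, i)))) *
          x (Sum.inr (Sum.inl (Sum.inr (l, i')))) + c * (x (Sum.inr (Sum.inr (Sum.inl i))) *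
            x (Sum.inr (Sum.inr (Sum.inr i'))))} := by
      ext x
      simp only [Set.mem_ofPred_eq]
      rw [← Matrix.ext_iff]
      refine forall_congr' fun i => forall_congr' fun i' => ?_
      rw [Matrix.add_apply, Matrix.sum_apply]
      rfl
    rw [this]
    refine cons_forall fun i => cons_forall fun i' => cons_of_poly (∑ j,
      X (Sum.inl (Sum.inl (i, j))) * X (Sum.inl (Sum.inr (i', j))) - (∑ l,
        X (Sum.inr (Sum.inl (Sum.inl (l, i)))) * X (Sum.inr (Sum.inl (Sum.inr (l, i')))) +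
        C c * (X (Sum.inr (Sum.inr (Sum.inl i))) * X (Sum.inr (Sum.inr (Sum.inr i')))))) fun x => ?_
    simp only [map_sub, map_sum, map_mul, map_add, eval_X, eval_C, sub_eq_zero]
  · exact cons_mem (fun i => Sum.inr (Sum.inr (Sum.inl i)))
  · have : {x : NI π I J → ℂ | (dec x).Pᵀ *ᵥ (dec x).b = 0} = {x | ∀ j, ∑ i,
        x (Sum.inl (Sum.inl (i, j))) * x (Sum.inr (Sum.inr (Sum.inr i))) = 0} := by
      ext x
      simp only [Set.mem_ofPred_eq]
      rw [funext_iff]
      rfl
    rw [this]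
    refine cons_forall fun j => cons_of_poly (∑ i,
      X (Sum.inl (Sum.inl (i, j))) * X (Sum.inr (Sum.inr (Sum.inr i)))) fun x => ?_
    simp only [map_sum, map_mul, eval_X]
  · refine cons_of_poly (X (Sum.inr (Sum.inr (Sum.inl i₀))) - 1) fun x => ?_
    simp only [map_sub, map_one, eval_X, sub_eq_zero]
    rfl
  · refine cons_forall fun i => cons_imp fun _ =>
      cons_of_poly (X (Sum.inr (Sum.inr (Sum.inl i)))) fun x => ?_
    simp only [eval_X]
    rfl
  · refine cons_forall fun i => cons_imp fun _ => cons_imp fun _ =>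
      cons_of_poly (X (Sum.inr (Sum.inr (Sum.inl i))) * X (Sum.inr (Sum.inr (Sum.inr i))) +
        C (w i)) fun x => ?_
    simp only [map_add, map_mul, eval_X, eval_C]
    rw [← sub_eq_zero, sub_neg_eq_add]
    rfl

lemma cons_sysA (u : Matrix I J ℂ) (v : π → I → ℂ) :
    Cons {x : NI π I J → ℂ | SysA r p S T i₀ u v (dec x)} := by
  have h0 : {x : NI π I J → ℂ | SysA r p S T i₀ u v (dec x)} =
      {x | SysQ 1 r p S T i₀ u v 0 (dec x) ∧ (∀ i ∈ T, (dec x).a i ≠ 0) ∧
        ∀ i ∉ T, i ∉ Set.range p → (dec x).b i ≠ 0} := by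
    ext x
    exact ⟨fun h => ⟨h.toSysQ, h.suppa, h.suppb⟩, fun h => ⟨h.1, h.2.1, h.2.2⟩⟩
  rw [h0]
  refine cons_and (cons_sysQ 1 u v 0) (cons_and ?_ ?_)
  · refine cons_forall fun i => cons_imp fun _ => ?_
    have h3 := Cons.ne (X (Sum.inr (Sum.inr (Sum.inl i))) : MvPolynomial (NI π I J) ℂ)
    simp only [eval_X] at h3
    exact h3
  · refine cons_forall fun i => cons_imp fun _ => cons_imp fun _ => ?_
    have h3 := Cons.ne (X (Sum.inr (Sum.inr (Sum.inr i))) : MvPolynomial (NI π I J) ℂ)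
    simp only [eval_X] at h3
    exact h3

/-- A constructible set of points with coordinates in the algebraic closure of a countable set is
finite. -/
lemma finite_of_cons {A : Set (NI π I J → ℂ)} (hA : Cons A) {D : Set ℂ} (hD : D.Countable)
    (h : ∀ x ∈ A, (dec x).All (· ∈ acl D)) : A.Finite := by
  classical
  have h1 : ∀ i, ((fun x : NI π I J → ℂ => x i) '' A).Finite := fun i =>
    finite_coord hA i (acl D) (countable_acl hD) fun x hx => all_enc (h x hx) i
  refine (Set.Finite.pi' h1).subset ?_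
  intro x hx i
  exact ⟨x, hx, rfl⟩

theorem sysQ_finite_of {c : ℂ} {u : Matrix I J ℂ} {v : π → I → ℂ} {w : I → ℂ} {D : Set ℂ}
    (hD : D.Countable) (h : ∀ z, SysQ c r p S T i₀ u v w z → z.All (· ∈ acl D)) :
    {z | SysQ c r p S T i₀ u v w z}.Finite := by
  refine ((finite_of_cons (cons_sysQ c u v w) hD fun x hx => h _ hx).image dec).subset ?_
  intro z hz
  exact ⟨enc z, hz, dec_enc z⟩

theorem sysA_finite_of {u : Matrix I J ℂ} {v : π → I → ℂ} {D : Set ℂ}
    (hD : D.Countable) (h : ∀ z, SysA r p S T i₀ u v z → z.All (· ∈ acl D)) :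
    {z | SysA r p S T i₀ u v z}.Finite := by
  refine ((finite_of_cons (cons_sysA u v) hD fun x hx => h _ hx).image dec).subset ?_
  intro z hz
  exact ⟨enc z, hz, dec_enc z⟩

theorem sys_finite_of {u : Matrix I J ℂ} {v : π → I → ℂ} {D : Set ℂ}
    (hD : D.Countable) (h : ∀ z, Sys r p S u v z → z.All (· ∈ acl D)) :
    {z | Sys r p S u v z}.Finite := by
  have h1 : Cons {x : NI π I J → ℂ | Sys r p S u v (dec x).toPnt ∧ (∀ i, (dec x).a i = 0) ∧
      ∀ i, (dec x).b i = 0} := by
    refine cons_and (cons_sys u v) (cons_and ?_ ?_)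
    · refine cons_forall fun i => cons_of_poly (X (Sum.inr (Sum.inr (Sum.inl i)))) fun x => ?_
      simp only [eval_X]
      rfl
    · refine cons_forall fun i => cons_of_poly (X (Sum.inr (Sum.inr (Sum.inr i)))) fun x => ?_
      simp only [eval_X]
      rfl
  have h2 := finite_of_cons h1 hD fun x hx => ⟨h _ hx.1, fun i => by
    show (dec x).a i ∈ acl D
    rw [hx.2.1 i]
    exact (acl D).zero_mem, fun i => by
    show (dec x).b i ∈ acl D
    rw [hx.2.2 i]
    exact (acl D).zero_mem⟩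
  refine (h2.image fun x => (dec x).toPnt).subset ?_
  intro z hz
  exact ⟨enc ⟨z, 0, 0⟩, ⟨hz, fun i => rfl, fun i => rfl⟩, rfl⟩

/-- The data are countable in number. -/
lemma countable_dat0 (u : Matrix I J ℂ) (v : π → I → ℂ) :
    (Set.range (dat0 p S u v)).Countable := (Set.finite_range _).countable

lemma countable_dat1 (u : Matrix I J ℂ) (v : π → I → ℂ) (w : I → ℂ) :
    (Set.range (dat1 p S T i₀ u v w)).Countable := (Set.finite_range _).countable

end enc

end Pool.EU.TB
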