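import Pool.Agent.EU.TBR
import Pool.Agent.EU.TBC
import Pool.Agent.EU.TB2
import Pool.Agent.EU.TBF
import Pool.Agent.EU.TBShape

/-!
# The solutions are algebraic over the data

The points of the systems `Sys`, `SysQ`, `SysA` with generic data have all their coordinates in the
algebraic closure of the data: every point lies in a chart, and the chart coordinates are algebraic
(rows `tb2a`, `tb2b`, `tb2c`).
-/

set_option autoImplicit false
set_option linter.unusedSectionVars false

namespace Pool.EU.TB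

open Matrix Pool.ML

/-! ### Chart points with coordinates in a subring -/

section memb

variable {π ρ σ J : Type} [DecidableEq π] [DecidableEq ρ] [DecidableEq σ] [DecidableEq J]
  [Fintype π] [Fintype ρ] [Fintype σ] [Fintype J] {S : π → Finset (Rw π ρ σ)}
  {R : Type} [CommRing R] (B : Subring R) (x : Var S J → R)

theorem fr_memG (hf : ∀ y, xf x y ∈ B) (l : π) (i : Rw π ρ σ) : fr x l i ∈ B := by
  unfold fr
  split_ifs with h1 h2
  · exact hf _
  · exact B.one_mem
  · exact B.zero_mem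

theorem xP_memG (hf : ∀ y, xf x y ∈ B) (hA : ∀ s k, xA x s k ∈ B) (hY : ∀ k j, xY x k j ∈ B)
    (i : Rw π ρ σ) (j : J) : xP x i j ∈ B := by
  unfold xP
  refine B.add_mem (B.sum_mem fun l _ => B.mul_mem (fr_memG B x hf l i) (hY _ _)) ?_
  rcases i with l | k | s
  · exact B.zero_mem
  · exact hY _ _
  · exact B.sum_mem fun k _ => B.mul_mem (hA _ _) (hY _ _)

theorem xh_memG (hY : ∀ k j, xY x k j ∈ B) (hG : ∀ i j, xG x i j ∈ B) (l : π)
    (i : Rw π ρ σ) : xh x l i ∈ B := by
  unfold xh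
  exact B.sum_mem fun j _ => B.mul_mem (hY _ _) (hG _ _)

theorem toQ_pnt_allG (hf : ∀ y, xf x y ∈ B) (hA : ∀ s k, xA x s k ∈ B)
    (hY : ∀ k j, xY x k j ∈ B) (hG : ∀ i j, xG x i j ∈ B) :
    (toQ x).toPnt.All (· ∈ B) where
  P := fun i j => xP_memG B x hf hA hY i j
  G := fun i j => hG i j
  q := fun l i => fr_memG B x hf l i
  h := fun l i => xh_memG B x hY hG l i

theorem toQ_allG (hx : ∀ y, x y ∈ B) : (toQ x).All (· ∈ B) where
  pnt := toQ_pnt_allG B x (fun _ => hx _) (fun _ _ => hx _) (fun _ _ => hx _) (fun _ _ => hx _)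
  a := fun i => by
    rcases i with l | i
    · exact B.zero_mem
    · exact hx _
  b := fun i => hx _

end memb

/-! ### Reindexing the rows -/

section reindex

variable {Ω π I I' J : Type} [Fintype π] [Fintype I] [Fintype I'] [Fintype J] [LinearOrder π]
  [DecidableEq I] [DecidableEq I'] [DecidableEq J] {p : π → I} {S : π → Finset I}
  {p' : π → I'}

theorem Pnt.All.of_rows {C : Ω → Prop} (E : I ≃ I') {z : Pnt Ω π I J}
    (h : (z.rows E).All C) : z.All C where
  P := fun i j => by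
    have := h.P (E i) j
    simpa [Pnt.rows] using this
  G := fun i j => by
    have := h.G (E i) j
    simpa [Pnt.rows] using this
  q := fun l i => by
    have := h.q l (E i)
    simpa [Pnt.rows] using this
  h := fun l i => by
    have := h.h l (E i)
    simpa [Pnt.rows] using this

theorem Qnt.All.of_rows {C : Ω → Prop} (E : I ≃ I') {z : Qnt Ω π I J}
    (h : (z.rows E).All C) : z.All C where
  pnt := Pnt.All.of_rows E h.pnt
  a := fun i => by
    have := h.a (E i)
    simpa [Qnt.rows] using this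
  b := fun i => by
    have := h.b (E i)
    simpa [Qnt.rows] using this

theorem Pnt.All.mono {C C' : Ω → Prop} (hC : ∀ a, C a → C' a) {z : Pnt Ω π I J}
    (h : z.All C) : z.All C' :=
  ⟨fun i j => hC _ (h.P i j), fun i j => hC _ (h.G i j), fun i j => hC _ (h.q i j),
    fun i j => hC _ (h.h i j)⟩

theorem Qnt.All.mono {C C' : Ω → Prop} (hC : ∀ a, C a → C' a) {z : Qnt Ω π I J}
    (h : z.All C) : z.All C' :=
  ⟨h.pnt.mono hC, fun i => hC _ (h.a i), fun i => hC _ (h.b i)⟩

theorem adm_rowsG (E : I ≃ I') (hE : ∀ l, E (p l) = p' l) (hS : Adm p S) :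
    Adm p' (fun l => (S l).map E.toEmbedding) where
  inj := fun l l' h => hS.inj (E.injective (by rw [hE, hE]; exact h))
  mem := fun l => by
    rw [← hE]
    exact Finset.mem_map_of_mem _ (hS.mem l)
  notMem := fun l l' h => by
    rw [← hE]
    intro h1
    rw [Finset.mem_map] at h1
    obtain ⟨i, hi, h2⟩ := h1
    have h3 : i = p l' := E.injective h2
    exact hS.notMem l l' h (h3 ▸ hi)

theorem base_rowsG [Field Ω] {r : ℕ} (E : I ≃ I') (hE : ∀ l, E (p l) = p' l)
    {u : Matrix I J Ω} {v : π → I → Ω} {z : Pnt Ω π I J} (hz : Base r p S u v z) :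
    Base r p' (fun l => (S l).map E.toEmbedding) (u.submatrix E.symm id)
      (fun l i => v l (E.symm i)) (z.rows E) where
  rk := by
    show (z.P.submatrix E.symm (Equiv.refl J)).rank = r
    rw [Matrix.rank_submatrix]
    exact hz.rk
  orth := by
    show (z.P.submatrix E.symm id)ᵀ * (z.G.submatrix E.symm id) = 0
    rw [Matrix.transpose_submatrix, Matrix.submatrix_mul_equiv, hz.orth]
    rfl
  mem := fun l => by
    obtain ⟨y, hy⟩ := hz.mem l
    refine ⟨y, ?_⟩
    ext i
    exact congrFun hy (E.symm i)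
  eq := fun i j => hz.eq (E.symm i) j
  one := fun l => by
    show z.q l (E.symm (p' l)) = 1
    rw [← hE, E.symm_apply_apply]
    exact hz.one l
  zero := fun l i hi => by
    show z.q l (E.symm i) = 0
    refine hz.zero l _ fun h => hi ?_
    rw [Finset.mem_map]
    exact ⟨_, h, E.apply_symm_apply i⟩
  vq := fun l i hi hip => by
    show z.q l (E.symm i) * z.h l (E.symm i) = - v l (E.symm i)
    refine hz.vq l _ ?_ fun h => hip ?_
    · rw [Finset.mem_map] at hi
      obtain ⟨i', hi', h2⟩ := hi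
      have h3 : E.symm i = i' := by
        rw [← h2]
        exact E.symm_apply_apply i'
      rw [h3]
      exact hi'
    · rw [← hE, ← h, E.apply_symm_apply]

theorem sys_rowsG [Field Ω] {r : ℕ} (E : I ≃ I') (hE : ∀ l, E (p l) = p' l)
    {u : Matrix I J Ω} {v : π → I → Ω} {z : Pnt Ω π I J} (hz : Sys r p S u v z) :
    Sys r p' (fun l => (S l).map E.toEmbedding) (u.submatrix E.symm id)
      (fun l i => v l (E.symm i)) (z.rows E) where
  toBase := base_rowsG E hE hz.toBase
  cr := by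
    ext i i'
    have h1 := congrFun (congrFun hz.cr (E.symm i)) (E.symm i')
    rw [Matrix.sum_apply] at h1 ⊢
    exact h1

/-- The reindexed data are a reindexing of the data. -/
theorem exists_dat0_rows (E : I ≃ I') (hE : ∀ l, E (p l) = p' l) (u : Matrix I J Ω)
    (v : π → I → Ω) :
    ∃ f : DI J p' (fun l => (S l).map E.toEmbedding) → DI J p S, Function.Injective f ∧
      dat0 p' (fun l => (S l).map E.toEmbedding) (u.submatrix E.symm id)
        (fun l i => v l (E.symm i)) = dat0 p S u v ∘ f := by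
  have key : ∀ x : {x : π × I' // x.2 ∈ (S x.1).map E.toEmbedding ∧ x.2 ≠ p' x.1},
      E.symm x.1.2 ∈ S x.1.1 ∧ E.symm x.1.2 ≠ p x.1.1 := by
    rintro ⟨⟨l, i⟩, h1, h2⟩
    constructor
    · rw [Finset.mem_map] at h1
      obtain ⟨i', hi', h3⟩ := h1
      have h4 : E.symm i = i' := by
        show E.symm i = i'
        have h5 : E i' = i := h3
        rw [← h5, E.symm_apply_apply]
      show E.symm i ∈ S l
      rw [h4]
      exact hi'
    · intro h3
      apply h2
      show i = p' l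
      have h5 : E.symm i = p l := h3
      rw [← hE, ← h5, E.apply_symm_apply]
  refine ⟨Sum.map (fun x => (E.symm x.1, x.2))
    (fun x => ⟨(x.1.1, E.symm x.1.2), key x⟩), ?_, ?_⟩
  · refine Function.Injective.sumMap ?_ ?_
    · rintro ⟨i, j⟩ ⟨i', j'⟩ h
      simp only [Prod.mk.injEq, EmbeddingLike.apply_eq_iff_eq] at h
      rw [h.1, h.2]
    · rintro ⟨⟨l, i⟩, h1⟩ ⟨⟨l', i'⟩, h2⟩ h
      simp only [Subtype.mk.injEq, Prod.mk.injEq, EmbeddingLike.apply_eq_iff_eq] at h
      obtain ⟨rfl, rfl⟩ := h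
      rfl
  · ext x
    rcases x with x | x <;> rfl

end reindex

/-! ### The charts -/

section main

variable {π I J : Type} [Fintype π] [Fintype I] [Fintype J] [LinearOrder π] [DecidableEq I]
  [DecidableEq J] {p : π → I} {S : π → Finset I} {T : Finset I} {i₀ : I} {r : ℕ}

theorem map_T_eqG {ρ σ : Type} [Fintype ρ] [Fintype σ] (E : I ≃ Rw π ρ σ)
    (hE : ∀ l, E (p l) = Sum.inl l) (hT : ∀ i ∈ T, i ∉ Set.range p) :
    T.map E.toEmbedding = (Finset.univ.filter fun i : ρ ⊕ σ => E.symm (Sum.inr i) ∈ T).map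
      Function.Embedding.inr := by
  ext i
  rw [Finset.mem_map, Finset.mem_map]
  constructor
  · rintro ⟨a, ha, h⟩
    have h1 : E a = i := h
    rcases i with l | i
    · exfalso
      refine hT a ha ⟨l, E.injective ?_⟩
      rw [hE, h1]
    · refine ⟨i, ?_, rfl⟩
      rw [Finset.mem_filter]
      refine ⟨Finset.mem_univ _, ?_⟩
      rw [← h1, E.symm_apply_apply]
      exact ha
  · rintro ⟨a, ha, rfl⟩
    rw [Finset.mem_filter] at ha
    exact ⟨_, ha.2, E.apply_symm_apply _⟩

theorem SysQ.congr_wG {Ω : Type} [Field Ω] {c : Ω} {u : Matrix I J Ω} {v : π → I → Ω}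
    {w w' : I → Ω} {z : Qnt Ω π I J} (h : ∀ i ∈ T, i ≠ i₀ → w i = w' i)
    (hz : SysQ c r p S T i₀ u v w z) : SysQ c r p S T i₀ u v w' z where
  toBase := hz.toBase
  cr := hz.cr
  mem' := hz.mem'
  perp' := hz.perp'
  one' := hz.one'
  zero' := hz.zero'
  vq' := fun i hi hi' => by
    rw [← h i hi hi']
    exact hz.vq' i hi hi'

/-- Every solution with an extra vector lies in a chart. -/
theorem exists_chartQG {Ω : Type} [Field Ω] (hS : Adm p S) (hk : Fintype.card π ≤ r)
    (hrI : r ≤ Fintype.card I) (hT : ∀ i ∈ T, i ∉ Set.range p) (hi₀ : i₀ ∈ T) (c : Ω)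
    (u : Matrix I J Ω) (v : π → I → Ω) (w : I → Ω) (z : Qnt Ω π I J)
    (hz : SysQ c r p S T i₀ u v w z) :
    ∃ (E : I ≃ Rw π (Fin (r - Fintype.card π)) (Fin (Fintype.card I - r)))
      (i₁ : Fin (r - Fintype.card π) ⊕ Fin (Fintype.card I - r))
      (x : Var (fun l => (S l).map E.toEmbedding) J → Ω),
      (∀ l, E (p l) = Sum.inl l) ∧ E i₀ = Sum.inr i₁ ∧ toQ x = z.rows E ∧
      ev c (Finset.univ.filter fun i => E.symm (Sum.inr i) ∈ T) i₁ x =
        dat (Finset.univ.filter fun i => E.symm (Sum.inr i) ∈ T) i₁ (u.submatrix E.symm id)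
          (fun l i => v l (E.symm i)) (fun i => w (E.symm (Sum.inr i))) := by
  obtain ⟨E, g, hE, hd⟩ := exists_rows hS hk hrI u v z.toPnt hz.toBase
  obtain ⟨i₁, hi₁⟩ : ∃ i₁, E i₀ = Sum.inr i₁ := by
    rcases h : E i₀ with l | i₁
    · exfalso
      refine hT i₀ hi₀ ⟨l, E.injective ?_⟩
      rw [hE, h]
    · exact ⟨i₁, rfl⟩
  have hz1 := SysQ.rows' E hz
  have hp : (fun l => E (p l)) = (Sum.inl : π → Rw π (Fin (r - Fintype.card π))
      (Fin (Fintype.card I - r))) := funext hE
  have hr : r = Fintype.card π + Fintype.card (Fin (r - Fintype.card π)) := by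
    rw [Fintype.card_fin]
    omega
  have hi₁T : i₁ ∈ Finset.univ.filter fun i => E.symm (Sum.inr i) ∈ T := by
    rw [Finset.mem_filter]
    refine ⟨Finset.mem_univ _, ?_⟩
    rw [← hi₁, E.symm_apply_apply]
    exact hi₀
  rw [hp, hi₁, map_T_eqG E hE hT] at hz1
  have hz2 : SysQ c (Fintype.card π + Fintype.card (Fin (r - Fintype.card π))) Sum.inl
      (fun l => (S l).map E.toEmbedding)
      ((Finset.univ.filter fun i => E.symm (Sum.inr i) ∈ T).map Function.Embedding.inr)
      (Sum.inr i₁) (u.submatrix E.symm id) (fun l i => v l (E.symm i))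
      (wr fun i => w (E.symm (Sum.inr i))) (z.rows E) := by
    rw [← hr]
    refine hz1.congr_wG ?_
    intro i hi _
    rw [Finset.mem_map] at hi
    obtain ⟨a, _, rfl⟩ := hi
    rfl
  obtain ⟨x, hx1, hx2, -⟩ := exists_chart (adm_rowsG E hE hS) c _ i₁ hi₁T _ _ _ (z.rows E) hz2 ⊤
    ⟨⟨fun _ _ => Subring.mem_top _, fun _ _ => Subring.mem_top _, fun _ _ => Subring.mem_top _,
      fun _ _ => Subring.mem_top _⟩, fun _ => Subring.mem_top _, fun _ => Subring.mem_top _⟩
    g hd (Subring.mem_top _)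
  exact ⟨E, i₁, x, hE, hi₁, hx1, hx2⟩

/-- All solutions without extra vector are algebraic over the data. -/
theorem sys_acl (hS : Adm p S) (hr : Fintype.card π ≤ r) (hrI : r ≤ Fintype.card I)
    (hn : Fintype.card I ≤ Fintype.card J)
    (u : Matrix I J ℂ) (v : π → I → ℂ) (hg : Gen0 p S u v) (z : Pnt ℂ π I J)
    (hz : Sys r p S u v z) : z.All (· ∈ acl (Set.range (dat0 p S u v))) := by
  obtain ⟨E, g, hE, hd⟩ := exists_rows hS hr hrI u v z hz.toBase
  have hr' : r = Fintype.card π + Fintype.card (Fin (r - Fintype.card π)) := by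
    rw [Fintype.card_fin]
    omega
  have hz1 := sys_rowsG E hE hz
  rw [show Sys r = Sys (Fintype.card π + Fintype.card (Fin (r - Fintype.card π))) from
    congrArg _ hr'] at hz1
  obtain ⟨x, hx1, -, h1, h3, h4, h5⟩ := exists_chart0 (adm_rowsG E hE hS) _ _ (z.rows E) hz1 ⊤
    ⟨fun _ _ => Subring.mem_top _, fun _ _ => Subring.mem_top _, fun _ _ => Subring.mem_top _,
      fun _ _ => Subring.mem_top _⟩ g hd (Subring.mem_top _)
  obtain ⟨f, hf, hf'⟩ := exists_dat0_rows E hE u v
  have hg' : Gen0 Sum.inl (fun l => (S l).map E.toEmbedding) (u.submatrix E.symm id)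
      (fun l i => v l (E.symm i)) := by
    unfold Gen0
    rw [hf']
    exact hg.comp f hf
  have hcard : Fintype.card π + (Fintype.card (Fin (r - Fintype.card π)) +
      Fintype.card (Fin (Fintype.card I - r))) ≤ Fintype.card J := by
    rw [Fintype.card_fin, Fintype.card_fin]
    omega
  obtain ⟨-, -, hxf, hxA, hxY, hxG⟩ := tb2a (adm_rowsG E hE hS) hcard _ _ hg' x h1 h3 h4 h5
  have hB : ∀ a : ℂ, a ∈ acl (Set.range (dat0 Sum.inl (fun l => (S l).map E.toEmbedding)
      (u.submatrix E.symm id) (fun l i => v l (E.symm i)))) →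
      a ∈ acl (Set.range (dat0 p S u v)) := by
    intro a ha
    rw [hf'] at ha
    exact acl_mono (Set.range_comp_subset_range _ _) ha
  have h6 := toQ_pnt_allG (acl (Set.range (dat0 p S u v))).toSubfield.toSubring x
    (fun y => hB _ (hxf y)) (fun s k => hB _ (hxA s k)) (fun k j => hB _ (hxY k j))
    (fun i j => hB _ (hxG i j))
  rw [hx1] at h6
  exact Pnt.All.of_rows E h6

/-- The data with the exponents of the extra vector, in the chart. -/
theorem exists_dat1_rows {ρ σ : Type} [DecidableEq ρ] [DecidableEq σ] [Fintype ρ] [Fintype σ]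
    (E : I ≃ Rw π ρ σ) (hE : ∀ l, E (p l) = Sum.inl l) (i₁ : ρ ⊕ σ) (hi₁ : E i₀ = Sum.inr i₁)
    (u : Matrix I J ℂ) (v : π → I → ℂ) (w : I → ℂ) :
    ∃ f : DI J Sum.inl (fun l => (S l).map E.toEmbedding) ⊕
        {i : ρ ⊕ σ // i ∈ (Finset.univ.filter fun i => E.symm (Sum.inr i) ∈ T) ∧ i ≠ i₁} →
        DQ J p S T i₀, Function.Injective f ∧
      Sum.elim (dat0 Sum.inl (fun l => (S l).map E.toEmbedding) (u.submatrix E.symm id)
        (fun l i => v l (E.symm i)))
        (fun i : {i : ρ ⊕ σ // i ∈ (Finset.univ.filter fun i => E.symm (Sum.inr i) ∈ T) ∧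
          i ≠ i₁} => w (E.symm (Sum.inr i.1))) = dat1 p S T i₀ u v w ∘ f := by
  obtain ⟨f, hf, hf'⟩ := exists_dat0_rows E hE u v
  have key : ∀ x : {i : ρ ⊕ σ // i ∈ (Finset.univ.filter fun i => E.symm (Sum.inr i) ∈ T) ∧
      i ≠ i₁}, E.symm (Sum.inr x.1) ∈ T ∧ E.symm (Sum.inr x.1) ≠ i₀ := by
    rintro ⟨i, h1, h2⟩
    rw [Finset.mem_filter] at h1
    refine ⟨h1.2, fun h3 => h2 ?_⟩
    have h4 : E i₀ = Sum.inr i := by
      rw [← h3, E.apply_symm_apply]
    rw [hi₁] at h4
    exact (Sum.inr_injective h4).symm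
  refine ⟨Sum.map f (fun x => ⟨E.symm (Sum.inr x.1), key x⟩), ?_, ?_⟩
  · refine hf.sumMap ?_
    rintro ⟨i, h1⟩ ⟨i', h2⟩ h
    simp only [Subtype.mk.injEq, EmbeddingLike.apply_eq_iff_eq, Sum.inr.injEq] at h
    subst h
    rfl
  · ext x
    rcases x with x | x
    · exact congrFun hf' x
    · rfl

/-- All solutions with an extra vector are algebraic over the data. -/
theorem sysQ_acl (h : Shape p S T i₀ r J) (u : Matrix I J ℂ) (v : π → I → ℂ) (w : I → ℂ)
    (hg : Gen1 p S T i₀ u v w) (c : ℂ) (hc : c = 0 ∨ c = 1) (z : Qnt ℂ π I J)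
    (hz : SysQ c r p S T i₀ u v w z) : z.All (· ∈ acl (Set.range (dat1 p S T i₀ u v w))) := by
  obtain ⟨E, i₁, x, hE, hi₁, hx1, hx2⟩ := exists_chartQG h.adm h.lt.le h.ltI.le h.nmem h.mem c u v
    w z hz
  obtain ⟨f, hf, hf'⟩ := exists_dat1_rows (T := T) (S := S) E hE i₁ hi₁ u v w
  have hcard : Fintype.card π + (Fintype.card (Fin (r - Fintype.card π)) +
      Fintype.card (Fin (Fintype.card I - r))) ≤ Fintype.card J := by
    rw [Fintype.card_fin, Fintype.card_fin]
    have := h.lt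
    have := h.ltI
    have := h.le
    omega
  have hi₁T : i₁ ∈ Finset.univ.filter fun i => E.symm (Sum.inr i) ∈ T := by
    rw [Finset.mem_filter]
    refine ⟨Finset.mem_univ _, ?_⟩
    rw [← hi₁, E.symm_apply_apply]
    exact h.mem
  have hg' := hg.comp f hf
  rw [← hf'] at hg'
  obtain ⟨-, hx, -⟩ := tb2c (adm_rowsG E hE h.adm) hcard _ _
    (fun i => w (E.symm (Sum.inr i))) _ i₁ hi₁T hg' c hc x hx2
  have hB : ∀ y, x y ∈ acl (Set.range (dat1 p S T i₀ u v w)) := by
    intro y
    have h1 := hx y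
    rw [hf'] at h1
    exact acl_mono (Set.range_comp_subset_range _ _) h1
  have h6 := toQ_allG (acl (Set.range (dat1 p S T i₀ u v w))).toSubfield.toSubring x hB
  rw [hx1] at h6
  exact Qnt.All.of_rows E h6

/-- All limit points with non-zero extra term are algebraic over the data. -/
theorem sysA_acl (h : Shape p S T i₀ r J) (u : Matrix I J ℂ) (v : π → I → ℂ)
    (hg : Gen0 p S u v) (hB : ∃ i, i ∉ T ∧ i ∉ Set.range p) (z : Qnt ℂ π I J)
    (hz : SysA r p S T i₀ u v z) : z.All (· ∈ acl (Set.range (dat0 p S u v))) := by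
  obtain ⟨E, i₁, x, hE, hi₁, hx1, hx2⟩ := exists_chartQG h.adm h.lt.le h.ltI.le h.nmem h.mem 1 u v
    0 z hz.toSysQ
  obtain ⟨f, hf, hf'⟩ := exists_dat0_rows E hE u v
  have hg' : Gen0 Sum.inl (fun l => (S l).map E.toEmbedding) (u.submatrix E.symm id)
      (fun l i => v l (E.symm i)) := by
    unfold Gen0
    rw [hf']
    exact hg.comp f hf
  have hcard : Fintype.card π + (Fintype.card (Fin (r - Fintype.card π)) +
      Fintype.card (Fin (Fintype.card I - r))) ≤ Fintype.card J := by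
    rw [Fintype.card_fin, Fintype.card_fin]
    have := h.lt
    have := h.ltI
    have := h.le
    omega
  have e1 : ∀ y, ev 1 (Finset.univ.filter fun i => E.symm (Sum.inr i) ∈ T) i₁ x y = _ :=
    fun y => congrFun hx2 y
  have hxa : ∀ i, xa x i = z.a (E.symm (Sum.inr i)) := fun i =>
    congrFun (congrArg Qnt.a hx1) (Sum.inr i)
  have hxb : ∀ i, xb x i = z.b (E.symm i) := fun i =>
    congrFun (congrArg Qnt.b hx1) i
  have h1 : ∀ k j, pX x (fun i => xG x i j) k = 0 := fun k j => e1 (Sum.inl (k, j))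
  have h2 : ∀ k, pX x (xb x) k = 0 := fun k => e1 (Sum.inr (Sum.inl k))
  have h2' : ∀ s, xa x (Sum.inr s) = ∑ k, xA x s k * xa x (Sum.inl k) := fun s =>
    sub_eq_zero.1 (e1 (Sum.inr (Sum.inr (Sum.inl s))))
  have h3 : ∀ k s, ∑ j, xY x (Sum.inr k) j * xG x (Sum.inr (Sum.inr s)) j =
      xa x (Sum.inl k) * xb x (Sum.inr (Sum.inr s)) := fun k s => by
    have := e1 (Sum.inr (Sum.inr (Sum.inr (Sum.inl (k, s)))))
    have h4 := sub_eq_zero.1 this
    rw [one_mul] at h4
    exact h4
  have h4 : ∀ i j, xP x i j * (1 + xG x i j) = (u.submatrix E.symm id) i j := fun i j =>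
    e1 (Sum.inr (Sum.inr (Sum.inr (Sum.inr (Sum.inl (i, j))))))
  have h5 : ∀ y : Fre (fun l => (S l).map E.toEmbedding), xf x y * xh x y.1.1 y.1.2 =
      - (fun l i => v l (E.symm i)) y.1.1 y.1.2 := fun y =>
    e1 (Sum.inr (Sum.inr (Sum.inr (Sum.inr (Sum.inr (Sum.inl y))))))
  have h6 : xa x i₁ = 1 := by
    rw [hxa, ← hi₁, E.symm_apply_apply]
    exact hz.one'
  have h7 : ∀ i, xa x i * xb x (Sum.inr i) = 0 := by
    intro i
    rw [hxa, hxb]
    by_cases hi : E.symm (Sum.inr i) ∈ T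
    · have h8 := hz.toSysQ.vq_all h.mem _ hi
      rw [h8]
      unfold wz
      split_ifs <;> simp
    · rw [hz.zero' _ hi, zero_mul]
  have h8 : ∃ s, xb x (Sum.inr (Sum.inr s)) ≠ 0 := by
    by_contra hcon
    push Not at hcon
    obtain ⟨i, hiT, hip⟩ := hB
    have h9 := hz.suppb i hiT hip
    rcases h10 : E i with l | k | s
    · refine hip ⟨l, E.injective ?_⟩
      rw [hE, h10]
    · have h11 : pX x (xb x) (Sum.inr k) = 0 := h2 _
      have h12 : xb x (Sum.inr (Sum.inl k)) +
          ∑ s, xA x s k * xb x (Sum.inr (Sum.inr s)) = 0 := h11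
      rw [Finset.sum_eq_zero fun s _ => by rw [hcon s, mul_zero], add_zero, hxb, ← h10,
        E.symm_apply_apply] at h12
      exact h9 h12
    · have h11 := hcon s
      rw [hxb, ← h10, E.symm_apply_apply] at h11
      exact h9 h11
  obtain ⟨-, -, hx, -⟩ := tb2b (adm_rowsG E hE h.adm) hcard _ _ hg' i₁ x h1 h2 h2' h3 h4 h5 h6 h7
    h8
  have hB : ∀ y, x y ∈ acl (Set.range (dat0 p S u v)) := by
    intro y
    have h1 := hx y
    rw [hf'] at h1
    exact acl_mono (Set.range_comp_subset_range _ _) h1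
  have h6 := toQ_allG (acl (Set.range (dat0 p S u v))).toSubfield.toSubring x hB
  rw [hx1] at h6
  exact Qnt.All.of_rows E h6

end main

/-! ### Finiteness -/

section fin

variable {π I J : Type} [Fintype π] [Fintype I] [Fintype J] [LinearOrder π] [DecidableEq I]
  [DecidableEq J] {p : π → I} {S : π → Finset I} {T : Finset I} {i₀ : I} {r : ℕ}

theorem sys_finite (hS : Adm p S) (hr : Fintype.card π ≤ r) (hrI : r ≤ Fintype.card I)
    (hn : Fintype.card I ≤ Fintype.card J)
    (u : Matrix I J ℂ) (v : π → I → ℂ) (hg : Gen0 p S u v) : {z | Sys r p S u v z}.Finite :=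
  sys_finite_of (countable_dat0 u v) fun z hz => sys_acl hS hr hrI hn u v hg z hz

theorem sysQ_finite (h : Shape p S T i₀ r J) (u : Matrix I J ℂ) (v : π → I → ℂ) (w : I → ℂ)
    (hg : Gen1 p S T i₀ u v w) (c : ℂ) (hc : c = 0 ∨ c = 1) :
    {z | SysQ c r p S T i₀ u v w z}.Finite :=
  sysQ_finite_of (countable_dat1 u v w) fun z hz => sysQ_acl h u v w hg c hc z hz

theorem sysA_finite (h : Shape p S T i₀ r J) (u : Matrix I J ℂ) (v : π → I → ℂ)
    (hg : Gen0 p S u v) (hB : ∃ i, i ∉ T ∧ i ∉ Set.range p) :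
    {z | SysA r p S T i₀ u v z}.Finite :=
  sysA_finite_of (countable_dat0 u v) fun z hz => sysA_acl h u v hg hB z hz

end fin

end Pool.EU.TB
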