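import Pool.Agent.EU.TB9d
import Pool.Agent.EU.TBG
import Pool.Agent.EU.Peeled

/-!
# The alternating sum of the numbers of critical points on the coordinate strata
-/

set_option autoImplicit false
set_option linter.unusedSectionVars false

namespace Pool.EU

open Pool.ML Set

/-- The second part of an algebraically independent family, over the closure of the first part. -/
theorem algInd_right {α β : Type} {x : α → ℂ} {y : β → ℂ}
    (h : AlgebraicIndependent ℚ (Sum.elim x y)) : AlgebraicIndependent (acl (range x)) y := by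
  have h0 : AlgebraicIndependent ℚ (Sum.elim y x) := by
    have h1 := h.comp Sum.swap (Sum.swap_leftInverse.injective)
    convert h1 using 1
    ext i
    rcases i with i | i <;> rfl
  have h3 := (AlgebraicIndependent.sumElim_iff.mp h0).2
  set R := Algebra.adjoin ℚ (range x) with hR
  have hmem : ∀ a ∈ R, a ∈ acl (range x) := by
    intro a ha
    rw [mem_acl']
    exact isAlgebraic_algebraMap (⟨a, ha⟩ : R)
  let φ : R →+* acl (range x) :=
    { toFun := fun a => ⟨a.1, hmem a.1 a.2⟩
      map_one' := rfl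
      map_mul' := fun _ _ => rfl
      map_zero' := rfl
      map_add' := fun _ _ => rfl }
  let : Algebra R (acl (range x)) := φ.toAlgebra
  have : IsScalarTower R (acl (range x)) ℂ := IsScalarTower.of_algebraMap_eq fun a => rfl
  have halg : Algebra.IsAlgebraic R (acl (range x)) := ⟨fun a => by
    have h5 := mem_acl'.mp a.2
    exact (isAlgebraic_algHom_iff (IsScalarTower.toAlgHom R (acl (range x)) ℂ)
      Subtype.val_injective).mp h5⟩
  exact h3.extendScalars _

end Pool.EU

namespace Pool.EU.TB

open Matrix Pool.ML Pool.EU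

section xform

variable {π ρ σ J : Type} [DecidableEq π] [DecidableEq ρ] [DecidableEq σ] [DecidableEq J]
  [Fintype π] [Fintype ρ] [Fintype σ] [Fintype J] [LinearOrder π] {S : π → Finset (Rw π ρ σ)}

theorem xform_XX (hS : Adm Sum.inl S) (x : Var S J → ℂ) :
    XForm (Matrix.of fun s k => xA x s k) (XX x) where
  one := fun l => by
    change fr x l (Sum.inl l) = 1
    rw [fr, dif_neg (fun h => h.2 rfl), if_pos rfl]
  tri := fun l l' h => by
    change fr x l (Sum.inl l') = 0
    rw [fr, dif_neg (fun h' => hS.notMem l l' h h'.1), if_neg]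
    intro h'
    exact absurd (Sum.inl_injective h') h.ne
  zero := fun l k => rfl
  unit := fun k' k => rfl
  low := fun s k => rfl

end xform

variable {π I J : Type} [Fintype π] [Fintype I] [Fintype J] [LinearOrder π] [DecidableEq I]
  [DecidableEq J] {p : π → I} {S : π → Finset I} {r : ℕ}

/-- The number of critical points on one stratum. -/
theorem crt_ncard (hS : Adm p S) (hk : Fintype.card π ≤ r) (hrI : r ≤ Fintype.card I)
    (hn : Fintype.card I ≤ Fintype.card J)
    (u : Matrix I J ℂ) (v : π → I → ℂ) (w : I → ℂ)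
    (hg : AlgebraicIndependent ℚ (Sum.elim (dat0 p S u v)
      (fun i : {i : I // i ∉ Set.range p} => w i.1))) (z : Pnt ℂ π I J)
    (hz : Sys r p S u v z) (T : Finset I) (hT : ∀ i ∈ T, i ∉ Set.range p) (i₀ : I)
    (hi₀ : i₀ ∈ T) :
    {y : (I → ℂ) × (I → ℂ) | Crt z.P T i₀ w y.1 y.2}.ncard =
      if Fintype.card I - r < T.card then
        (T.card - 2).choose (T.card - 1 - (Fintype.card I - r)) else 0 := by
  obtain ⟨E, g, hE, hd⟩ := exists_rows hS hk hrI u v z hz.toBase
  have hr' : r = Fintype.card π + Fintype.card (Fin (r - Fintype.card π)) := by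
    rw [Fintype.card_fin]
    omega
  have hz1 := sys_rowsG E hE hz
  rw [show Sys r = Sys (Fintype.card π + Fintype.card (Fin (r - Fintype.card π))) from
    congrArg _ hr'] at hz1
  obtain ⟨x, hx1, -, h1, h3, h4, h5⟩ := exists_chart0 (adm_rowsG E hE hS) _ _ (z.rows E) hz1 ⊤
    ⟨fun _ _ => Subring.mem_top _, fun _ _ => Subring.mem_top _, fun _ _ => Subring.mem_top _,
      fun _ _ => Subring.mem_top _⟩ g hd (Subring.mem_top _)
  obtain ⟨f, hf, hf'⟩ := exists_dat0_rows E hE u v
  have hg0 : Gen0 p S u v := hg.comp Sum.inl Sum.inl_injective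
  have hg' : Gen0 Sum.inl (fun l => (S l).map E.toEmbedding) (u.submatrix E.symm id)
      (fun l i => v l (E.symm i)) := by
    unfold Gen0
    rw [hf']
    exact hg0.comp f hf
  have hcard : Fintype.card π + (Fintype.card (Fin (r - Fintype.card π)) +
      Fintype.card (Fin (Fintype.card I - r))) ≤ Fintype.card J := by
    rw [Fintype.card_fin, Fintype.card_fin]
    omega
  obtain ⟨hrk, hA, -, hxA, -, -⟩ := tb2a (adm_rowsG E hE hS) hcard _ _ hg' x h1 h3 h4 h5
  -- the stratum in the chart
  obtain ⟨i₁, hi₁⟩ : ∃ i₁, E i₀ = Sum.inr i₁ := by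
    rcases h : E i₀ with l | i₁
    · exfalso
      refine hT i₀ hi₀ ⟨l, E.injective ?_⟩
      rw [hE, h]
    · exact ⟨i₁, rfl⟩
  obtain ⟨T', hT'⟩ : ∃ T' : Finset (Fin (r - Fintype.card π) ⊕ Fin (Fintype.card I - r)),
    T' = Finset.univ.filter fun i => E.symm (Sum.inr i) ∈ T := ⟨_, rfl⟩
  have hTE : T.map E.toEmbedding = T'.map Function.Embedding.inr := by
    rw [hT']
    exact map_T_eqG E hE hT
  have hTc : T'.card = T.card := by
    have h6 := congrArg Finset.card hTE
    rw [Finset.card_map, Finset.card_map] at h6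
    exact h6.symm
  have hi₁T : i₁ ∈ T' := by
    rw [hT', Finset.mem_filter]
    refine ⟨Finset.mem_univ _, ?_⟩
    rw [← hi₁, E.symm_apply_apply]
    exact hi₀
  have hP : z.P.submatrix E.symm id = XX x * Matrix.of (xY x) := by
    rw [← CAux.xP_eq x]
    exact (congrArg Pnt.P hx1).symm
  -- the counts
  have hc1 : {y : (I → ℂ) × (I → ℂ) | Crt z.P T i₀ w y.1 y.2}.ncard =
      {y : (Rw π (Fin (r - Fintype.card π)) (Fin (Fintype.card I - r)) → ℂ) ×
        (Rw π (Fin (r - Fintype.card π)) (Fin (Fintype.card I - r)) → ℂ) |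
        Crt (XX x * Matrix.of (xY x)) (T'.map Function.Embedding.inr) (Sum.inr i₁)
          (fun i => w (E.symm i)) y.1 y.2}.ncard := by
    let F : (I → ℂ) × (I → ℂ) →
        (Rw π (Fin (r - Fintype.card π)) (Fin (Fintype.card I - r)) → ℂ) ×
        (Rw π (Fin (r - Fintype.card π)) (Fin (Fintype.card I - r)) → ℂ) :=
      fun y => (fun i => y.1 (E.symm i), fun i => y.2 (E.symm i))
    have hF : Function.Injective F := by
      rintro ⟨a, b⟩ ⟨a', b'⟩ h
      have e1 := congrArg Prod.fst h
      have e2 := congrArg Prod.snd h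
      refine Prod.ext ?_ ?_
      · ext i
        have := congrFun e1 (E i)
        simpa [F] using this
      · ext i
        have := congrFun e2 (E i)
        simpa [F] using this
    rw [← Set.ncard_image_of_injective _ hF]
    congr 1
    ext ⟨a, b⟩
    constructor
    · rintro ⟨⟨a', b'⟩, h, hab⟩
      have h6 := (Crt.rows E).1 h
      rw [hTE, hi₁, hP] at h6
      rw [← hab]
      exact h6
    · intro h
      refine ⟨(fun i => a (E i), fun i => b (E i)), ?_, ?_⟩
      · change Crt z.P T i₀ w _ _
        rw [Crt.rows E, hTE, hi₁, hP]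
        simpa using h
      · simp [F]
  have hc2 := crt_image (xform_XX (adm_rowsG E hE hS) x) (Matrix.of (xY x)) hrk T' i₁
    (fun i => w (E.symm i))
  rw [hc1, ← hc2.1.ncard_image, hc2.2]
  -- generic exponents
  have hw := algInd_right hg
  have hw' : AlgebraicIndependent (acl (Set.range fun y : Fin (Fintype.card I - r) ×
      Fin (r - Fintype.card π) => (Matrix.of fun s k => xA x s k) y.1 y.2))
      (fun i : {i // i ∈ T'.erase i₁} => w (E.symm (Sum.inr i.1))) := by
    have h6 : AlgebraicIndependent (acl (Set.range (dat0 p S u v)))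
        (fun i : {i // i ∈ T'.erase i₁} => w (E.symm (Sum.inr i.1))) := by
      have hmem : ∀ i : {i // i ∈ T'.erase i₁}, E.symm (Sum.inr i.1) ∉ Set.range p := by
        rintro ⟨i, hi⟩ ⟨l, hl⟩
        have h7 := congrArg E hl
        rw [hE, E.apply_symm_apply] at h7
        exact absurd h7 (by simp)
      exact hw.comp (fun i : {i // i ∈ T'.erase i₁} => ⟨E.symm (Sum.inr i.1), hmem i⟩) (by
        rintro ⟨i, hi⟩ ⟨i', hi'⟩ h
        simp only [Subtype.mk.injEq, EmbeddingLike.apply_eq_iff_eq, Sum.inr.injEq] at h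
        exact Subtype.ext h)
    refine algInd_mono h6 ?_
    rintro _ ⟨⟨s, k⟩, rfl⟩
    have h7 := hxA s k
    rw [hf'] at h7
    exact acl_mono (Set.range_comp_subset_range _ _) h7
  have hc3 := (cset_colS_count nc_chi (Matrix.of fun s k => xA x s k)
    (allMinors_of_algInd (k := ℚ) _ hA) T' i₁ hi₁T
    (fun i => w (E.symm (Sum.inr i))) hw').2
  refine hc3.trans ?_
  rw [Fintype.card_fin, hTc]

/-- Row TB9: the alternating sum of the numbers of critical points on the coordinate strata of
the vectors of the column space which vanish at the pivots. -/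
theorem tb9 (hS : Adm p S) (hk : Fintype.card π < r) (hrI : r < Fintype.card I)
    (hn : Fintype.card I ≤ Fintype.card J)
    (u : Matrix I J ℂ) (v : π → I → ℂ) (w : I → ℂ)
    (hg : AlgebraicIndependent ℚ (Sum.elim (dat0 p S u v)
      (fun i : {i : I // i ∉ Set.range p} => w i.1)))
    (i₁ : Finset I → I) (hi₁ : ∀ A : Finset I, A.Nonempty → i₁ A ∈ A) (z : Pnt ℂ π I J)
    (hz : Sys r p S u v z) :
    ∑ T ∈ (Finset.univ.filter (fun i : I => i ∉ Set.range p)).powerset.filter
      (fun T => T.Nonempty), (-1 : ℤ) ^ T.card *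
        ({y : (I → ℂ) × (I → ℂ) | Crt z.P T (i₁ T) w y.1 y.2}.ncard : ℤ) =
      (-1) ^ (1 + (Fintype.card I - r)) * ((r : ℤ) - Fintype.card π) := by
  obtain ⟨σ, hσ⟩ : ∃ σ, σ = Fintype.card I - r := ⟨_, rfl⟩
  have h1 : ∀ T ∈ (Finset.univ.filter (fun i : I => i ∉ Set.range p)).powerset.filter
      (fun T => T.Nonempty), (-1 : ℤ) ^ T.card *
        ({y : (I → ℂ) × (I → ℂ) | Crt z.P T (i₁ T) w y.1 y.2}.ncard : ℤ) =
      (-1 : ℤ) ^ T.card * (if σ < T.card then ((T.card - 2).choose (T.card - 1 - σ) : ℤ)
        else 0) := by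
    intro T hT
    rw [Finset.mem_filter, Finset.mem_powerset] at hT
    rw [crt_ncard hS hk.le hrI.le hn u v w hg z hz T
      (fun i hi => (Finset.mem_filter.1 (hT.1 hi)).2) (i₁ T) (hi₁ T hT.2), hσ]
    congr 1
    split_ifs <;> simp
  rw [Finset.sum_congr rfl h1]
  have h2 : ∑ T ∈ (Finset.univ.filter (fun i : I => i ∉ Set.range p)).powerset.filter
      (fun T => T.Nonempty), (-1 : ℤ) ^ T.card *
      (if σ < T.card then ((T.card - 2).choose (T.card - 1 - σ) : ℤ) else 0) =
      ∑ T ∈ (Finset.univ.filter (fun i : I => i ∉ Set.range p)).powerset, (-1 : ℤ) ^ T.card *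
      (if σ < T.card then ((T.card - 2).choose (T.card - 1 - σ) : ℤ) else 0) := by
    refine Finset.sum_filter_of_ne fun T _ hne => ?_
    by_contra hc
    rw [Finset.not_nonempty_iff_eq_empty] at hc
    rw [hc] at hne
    simp at hne
  rw [h2, Finset.sum_powerset_apply_card (fun s => (-1 : ℤ) ^ s *
    (if σ < s then ((s - 2).choose (s - 1 - σ) : ℤ) else 0))]
  have hNP : (Finset.univ.filter (fun i : I => i ∉ Set.range p)).card =
      Fintype.card I - Fintype.card π := by
    classical
    have h3 : Finset.univ.filter (fun i : I => i ∉ Set.range p) = (Finset.univ.image p)ᶜ := by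
      ext i
      simp
    rw [h3, Finset.card_compl, Finset.card_image_of_injective _ hS.inj, Finset.card_univ]
  have h3 := sum_sections_colS (ρ := Fin (r - Fintype.card π)) (σ := Fin σ)
  have h4 := Finset.sum_powerset_apply_card (fun s => (-1 : ℤ) ^ (s - 1 - σ) *
    (if σ < s then ((s - 2).choose (s - 1 - σ) : ℤ) else 0))
    (x := (Finset.univ : Finset (Fin (r - Fintype.card π) ⊕ Fin σ)))
  rw [Finset.powerset_univ, Finset.card_univ, Fintype.card_sum, Fintype.card_fin,
    Fintype.card_fin] at h4
  rw [Fintype.card_fin, Fintype.card_fin] at h3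
  rw [h3] at h4
  have hkI : Fintype.card I - Fintype.card π = r - Fintype.card π + σ := by omega
  rw [hNP, hkI]
  have h5 : ((r - Fintype.card π : ℕ) : ℤ) = (r : ℤ) - Fintype.card π := by
    rw [Nat.cast_sub hk.le]
  rw [← h5, h4, Finset.mul_sum, ← hσ]
  refine Finset.sum_congr rfl fun s _ => ?_
  by_cases hs : σ < s
  · rw [if_pos hs]
    have h6 : (-1 : ℤ) ^ s = (-1) ^ (1 + σ) * (-1) ^ (s - 1 - σ) := by
      rw [← pow_add]
      congr 1
      omega
    rw [h6]
    simp only [nsmul_eq_mul]
    ring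
  · rw [if_neg hs]
    simp

end Pool.EU.TB
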