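import Mathlib

/-!
# Uniform subspaces

A subspace of dimension `r'` of `ℂ ^ ι` is uniform if its elements are determined by any `r'`
coordinates.
-/

set_option autoImplicit false
set_option linter.unusedSectionVars false

namespace Pool.EU

variable {ι : Type} [Fintype ι] [DecidableEq ι]

/-- Uniform subspaces. -/
def Unif (L : Submodule ℂ (ι → ℂ)) : Prop :=
  ∀ Z : Finset ι, Z.card = Module.finrank ℂ L → ∀ q ∈ L, (∀ i ∈ Z, q i = 0) → q = 0

/-- The dual basis for a set of coordinates. -/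
theorem Unif.exists_dual {L : Submodule ℂ (ι → ℂ)} (hL : Unif L) (Z : Finset ι)
    (hZ : Z.card = Module.finrank ℂ L) : ∃ b : ι → ι → ℂ, (∀ z, b z ∈ L) ∧
      (∀ z ∈ Z, ∀ i ∈ Z, b z i = if i = z then 1 else 0) ∧
      ∀ q ∈ L, q = ∑ z ∈ Z, q z • b z := by
  classical
  let ρ : L →ₗ[ℂ] (Z → ℂ) :=
    { toFun := fun x i => x.1 i.1
      map_add' := fun _ _ => rfl
      map_smul' := fun _ _ => rfl }
  have hinj : Function.Injective ρ := by
    rw [← LinearMap.ker_eq_bot, LinearMap.ker_eq_bot']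
    intro x hx
    apply Subtype.ext
    exact hL Z hZ x.1 x.2 fun i hi => congrFun hx ⟨i, hi⟩
  have hsurj : Function.Surjective ρ := by
    rw [← LinearMap.injective_iff_surjective_of_finrank_eq_finrank]
    · exact hinj
    · rw [Module.finrank_fintype_fun_eq_card, Fintype.card_coe, hZ]
  choose g hg using hsurj
  obtain ⟨b, hbL, hb⟩ : ∃ b : ι → ι → ℂ, (∀ z, b z ∈ L) ∧
      ∀ z ∈ Z, ∀ i ∈ Z, b z i = if i = z then 1 else 0 := by
    refine ⟨fun z => (g (fun i => if i.1 = z then 1 else 0)).1, fun z => Subtype.property _, ?_⟩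
    intro z _ i hi
    exact congrFun (hg (fun i => if i.1 = z then 1 else 0)) ⟨i, hi⟩
  refine ⟨b, hbL, hb, fun q hq => ?_⟩
  rw [← sub_eq_zero]
  refine hL Z hZ _ (L.sub_mem hq (L.sum_mem fun z _ => L.smul_mem _ (hbL z))) ?_
  intro i hi
  rw [Pi.sub_apply, Finset.sum_apply, Finset.sum_eq_single i]
  · rw [Pi.smul_apply, hb i hi i hi, if_pos rfl, smul_eq_mul, mul_one, sub_self]
  · intro z hz hne
    rw [Pi.smul_apply, hb z hz i hi, if_neg (Ne.symm hne), smul_zero]
  · intro h
    exact absurd hi h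

/-- Elements which vanish on a large set. -/
theorem Unif.eq_zero {L : Submodule ℂ (ι → ℂ)} (hL : Unif L) (W : Finset ι)
    (hW : Module.finrank ℂ L ≤ W.card) {q : ι → ℂ} (hq : q ∈ L) (h : ∀ i ∈ W, q i = 0) :
    q = 0 := by
  obtain ⟨Z, hZW, hZ⟩ := Finset.exists_subset_card_eq hW
  exact hL Z hZ q hq fun i hi => h i (hZW hi)

/-- Elements which vanish on a small set. -/
theorem Unif.exists_one {L : Submodule ℂ (ι → ℂ)} (hL : Unif L) (W : Finset ι) (i₀ : ι)
    (hi : i₀ ∉ W) (hW : W.card + 1 ≤ Module.finrank ℂ L) :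
    ∃ q ∈ L, q i₀ = 1 ∧ ∀ i ∈ W, q i = 0 := by
  have hle : Module.finrank ℂ L ≤ Fintype.card ι := by
    have := Submodule.finrank_le L
    rwa [Module.finrank_fintype_fun_eq_card] at this
  obtain ⟨Z, hZ1, _, hZ⟩ := Finset.exists_subsuperset_card_eq (n := Module.finrank ℂ L)
    (Finset.subset_univ (insert i₀ W))
    (by rw [Finset.card_insert_of_notMem hi]; exact hW) (by rw [Finset.card_univ]; exact hle)
  obtain ⟨b, hbL, hb, _⟩ := hL.exists_dual Z hZ
  refine ⟨b i₀, hbL _, ?_, fun i hi' => ?_⟩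
  · rw [hb i₀ (hZ1 (Finset.mem_insert_self _ _)) i₀ (hZ1 (Finset.mem_insert_self _ _)), if_pos rfl]
  · rw [hb i₀ (hZ1 (Finset.mem_insert_self _ _)) i (hZ1 (Finset.mem_insert_of_mem hi')), if_neg]
    rintro rfl
    exact hi hi'

/-- The partial alternating sums of binomial coefficients. -/
theorem sum_subsets {A : Type} [Fintype A] [DecidableEq A] (d : ℕ) (hd : d ≤ Fintype.card A) :
    ∑ I : Finset A, (-1 : ℤ) ^ I.card * (if I.card ≤ d then 1 else 0) =
      (-1) ^ d * ((Fintype.card A - 1).choose d : ℤ) := by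
  have h1 := Finset.sum_powerset_apply_card (fun n => (-1 : ℤ) ^ n * (if n ≤ d then 1 else 0))
    (x := (Finset.univ : Finset A))
  rw [Finset.powerset_univ, Finset.card_univ] at h1
  rw [h1]
  have h2 : ∑ m ∈ Finset.range (Fintype.card A + 1), (Fintype.card A).choose m •
      ((-1 : ℤ) ^ m * (if m ≤ d then 1 else 0)) =
      ∑ m ∈ Finset.range (d + 1), (-1 : ℤ) ^ m * ((Fintype.card A).choose m : ℤ) := by
    symm
    refine Finset.sum_subset_zero_on_sdiff ?_ ?_ ?_
    · intro m hm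
      rw [Finset.mem_range] at hm ⊢
      omega
    · intro m hm
      rw [Finset.mem_sdiff, Finset.mem_range, Finset.mem_range] at hm
      rw [if_neg (by omega), mul_zero, smul_zero]
    · intro m hm
      rw [Finset.mem_range] at hm
      rw [if_pos (by omega), mul_one, nsmul_eq_mul, mul_comm]
  rw [h2]
  rcases Nat.eq_zero_or_pos (Fintype.card A) with h0 | h0
  · have hd0 : d = 0 := by omega
    rw [h0, hd0]
    simp
  · obtain ⟨n, hn⟩ := Nat.exists_eq_succ_of_ne_zero h0.ne'
    rw [hn]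
    exact Int.alternating_sum_range_choose_eq_choose

end Pool.EU
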