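import Pool.Agent.EU.TB9b
import Pool.Agent.ML61.Defs

/-!
# The sum over all coordinate sections; uniform subspaces given by matrices
-/

set_option autoImplicit false
set_option linter.unusedSectionVars false

namespace Pool.EU

open Pool.ML

theorem binom_B (σ M N : ℕ) (h : σ ≤ M) (hN : M - σ < N) :
    ∑ d ∈ Finset.range N, (-1 : ℤ) ^ d * (M.choose (σ + d) * (σ + d - 1).choose d) = 1 := by
  rcases Nat.eq_zero_or_pos σ with h0 | h0
  · subst h0
    rw [Finset.sum_eq_single 0]
    · simp
    · intro d _ hd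
      have h1 : (0 + d - 1).choose d = 0 := Nat.choose_eq_zero_of_lt (by omega)
      rw [h1]
      simp
    · intro h1
      exact absurd (Finset.mem_range.2 (by omega)) h1
  · obtain ⟨τ, rfl⟩ : ∃ τ, σ = τ + 1 := ⟨σ - 1, by omega⟩
    induction M, h using Nat.le_induction with
    | base =>
      rw [Finset.sum_eq_single 0]
      · simp
      · intro d _ hd
        have h1 : (τ + 1).choose (τ + 1 + d) = 0 := Nat.choose_eq_zero_of_lt (by omega)
        rw [h1]
        simp
      · intro h1
        exact absurd (Finset.mem_range.2 (by omega)) h1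
    | succ M hM ih =>
      have h1 : ∀ d, (M + 1).choose (τ + 1 + d) = M.choose (τ + d) + M.choose (τ + 1 + d) := by
        intro d
        have : τ + 1 + d = (τ + d) + 1 := by ring
        rw [this, Nat.choose_succ_succ]
      have h2 : ∀ d, τ + 1 + d - 1 = τ + d := fun d => by omega
      have h3 : ∀ d, M.choose (τ + d) * (τ + d).choose d = M.choose τ * (M - τ).choose d := by
        intro d
        by_cases h4 : τ + d ≤ M
        · have h5 := Nat.choose_mul (n := M) (k := τ + d) (s := τ) (Nat.le_add_right τ d)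
          rw [Nat.add_sub_cancel_left] at h5
          rw [← h5]
          congr 1
          exact (Nat.choose_symm_add).symm
        · rw [Nat.choose_eq_zero_of_lt (by omega), Nat.choose_eq_zero_of_lt (n := M - τ) (by omega)]
          simp
      have h4 : ∑ d ∈ Finset.range N, (-1 : ℤ) ^ d * (M.choose τ * (M - τ).choose d) = 0 := by
        have h5 : ∑ d ∈ Finset.range N, (-1 : ℤ) ^ d * ((M - τ).choose d : ℤ) = 0 := by
          rw [← Int.alternating_sum_range_choose_of_ne (n := M - τ) (by omega)]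
          symm
          refine Finset.sum_subset ?_ ?_
          · intro d hd
            rw [Finset.mem_range] at hd ⊢
            omega
          · intro d _ hd
            rw [Finset.mem_range] at hd
            rw [Nat.choose_eq_zero_of_lt (by omega)]
            simp
        calc ∑ d ∈ Finset.range N, (-1 : ℤ) ^ d * (M.choose τ * (M - τ).choose d)
            = (M.choose τ : ℤ) * ∑ d ∈ Finset.range N, (-1 : ℤ) ^ d * ((M - τ).choose d : ℤ) := by
              rw [Finset.mul_sum]
              exact Finset.sum_congr rfl fun d _ => by ring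
          _ = 0 := by rw [h5, mul_zero]
      have h6 := ih (by omega)
      have h7 : ∀ d, (-1 : ℤ) ^ d * (((M + 1).choose (τ + 1 + d) : ℕ) *
          ((τ + 1 + d - 1).choose d : ℕ)) =
          (-1 : ℤ) ^ d * (M.choose τ * (M - τ).choose d) +
          (-1 : ℤ) ^ d * (M.choose (τ + 1 + d) * (τ + 1 + d - 1).choose d) := by
        intro d
        rw [h1, h2]
        have h8 : (M.choose (τ + d) : ℤ) * ((τ + d).choose d : ℤ) =
            M.choose τ * (M - τ).choose d := by exact_mod_cast h3 d
        push_cast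
        rw [← h8]
        ring
      rw [Finset.sum_congr rfl fun d _ => h7 d, Finset.sum_add_distrib, h4, h6, zero_add]

theorem binom_A (σ M N : ℕ) (h : σ ≤ M) (hN : M - σ ≤ N) :
    ∑ d ∈ Finset.range N, (-1 : ℤ) ^ d * (M.choose (σ + 1 + d) * (σ + d - 1).choose d) =
      M - σ := by
  induction M, h using Nat.le_induction with
  | base =>
    rw [Finset.sum_eq_zero, sub_self]
    intro d _
    rw [Nat.choose_eq_zero_of_lt (by omega)]
    simp
  | succ M hM ih =>
    have h1 : ∀ d, (-1 : ℤ) ^ d * (((M + 1).choose (σ + 1 + d) : ℕ) *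
        ((σ + d - 1).choose d : ℕ)) =
        (-1 : ℤ) ^ d * (M.choose (σ + d) * (σ + d - 1).choose d) +
        (-1 : ℤ) ^ d * (M.choose (σ + 1 + d) * (σ + d - 1).choose d) := by
      intro d
      have : σ + 1 + d = (σ + d) + 1 := by ring
      rw [this, Nat.choose_succ_succ]
      push_cast
      ring
    rw [Finset.sum_congr rfl fun d _ => h1 d, Finset.sum_add_distrib, ih (by omega),
      binom_B σ M N hM (by omega)]
    push_cast
    ring

/-- The sum over all sections. -/
theorem sum_sections {ι : Type} [Fintype ι] [DecidableEq ι] (σ : ℕ) (h : σ ≤ Fintype.card ι) :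
    ∑ S : Finset ι, (-1 : ℤ) ^ (S.card - 1 - σ) *
      (if σ < S.card then ((S.card - 2).choose (S.card - 1 - σ) : ℤ) else 0) =
      Fintype.card ι - σ := by
  have h1 := Finset.sum_powerset_apply_card (fun s => (-1 : ℤ) ^ (s - 1 - σ) *
    (if σ < s then ((s - 2).choose (s - 1 - σ) : ℤ) else 0)) (x := (Finset.univ : Finset ι))
  rw [Finset.powerset_univ, Finset.card_univ] at h1
  rw [h1, ← binom_A σ (Fintype.card ι) (Fintype.card ι - σ) h le_rfl]
  have h2 : Fintype.card ι + 1 = (σ + 1) + (Fintype.card ι - σ) := by omega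
  rw [h2, Finset.sum_range_add]
  have h3 : ∑ x ∈ Finset.range (σ + 1), (Fintype.card ι).choose x • ((-1 : ℤ) ^ (x - 1 - σ) *
      (if σ < x then ((x - 2).choose (x - 1 - σ) : ℤ) else 0)) = 0 := by
    refine Finset.sum_eq_zero fun x hx => ?_
    rw [Finset.mem_range] at hx
    rw [if_neg (by omega), mul_zero, smul_zero]
  rw [h3, zero_add]
  refine Finset.sum_congr rfl fun d _ => ?_
  have e1 : σ + 1 + d - 1 - σ = d := by omega
  have e2 : σ + 1 + d - 2 = σ + d - 1 := by omega
  rw [if_pos (by omega), e1, e2, nsmul_eq_mul]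
  ring

section matrices

variable {ρ σ : Type} [Fintype ρ] [Fintype σ] [DecidableEq ρ] [DecidableEq σ]

/-- The column space of `(1, A)`. -/
noncomputable def colS (A : Matrix σ ρ ℂ) : Submodule ℂ (ρ ⊕ σ → ℂ) :=
  LinearMap.range (LA A).mulVecLin

theorem LA_mulVec_inl (A : Matrix σ ρ ℂ) (y : ρ → ℂ) (i : ρ) :
    Matrix.mulVec (LA A) y (Sum.inl i) = y i := by
  rw [LA, Matrix.fromRows_mulVec, Sum.elim_inl, Matrix.one_mulVec]

theorem LA_mulVec_inr (A : Matrix σ ρ ℂ) (y : ρ → ℂ) (i : σ) :
    Matrix.mulVec (LA A) y (Sum.inr i) = Matrix.mulVec A y i := by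
  rw [LA, Matrix.fromRows_mulVec, Sum.elim_inr]

theorem NA_mulVec_inl (A : Matrix σ ρ ℂ) (z : σ → ℂ) (i : ρ) :
    Matrix.mulVec (NA A) z (Sum.inl i) = -Matrix.mulVec A.transpose z i := by
  rw [NA, Matrix.fromRows_mulVec, Sum.elim_inl, Matrix.neg_mulVec, Pi.neg_apply]

theorem NA_mulVec_inr (A : Matrix σ ρ ℂ) (z : σ → ℂ) (i : σ) :
    Matrix.mulVec (NA A) z (Sum.inr i) = z i := by
  rw [NA, Matrix.fromRows_mulVec, Sum.elim_inr, Matrix.one_mulVec]

theorem mem_colS {A : Matrix σ ρ ℂ} {q : ρ ⊕ σ → ℂ} :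
    q ∈ colS A ↔ Matrix.mulVec (LA A) (fun i => q (Sum.inl i)) = q := by
  constructor
  · rintro ⟨y, rfl⟩
    rw [Matrix.mulVecLin_apply]
    congr 1
    ext i
    exact LA_mulVec_inl A y i
  · intro h
    exact ⟨_, h⟩

theorem finrank_colS (A : Matrix σ ρ ℂ) : Module.finrank ℂ (colS A) = Fintype.card ρ := by
  rw [colS, LinearMap.finrank_range_of_inj, Module.finrank_fintype_fun_eq_card]
  intro y y' h
  ext i
  have h1 := congrFun h (Sum.inl i)
  rw [Matrix.mulVecLin_apply, Matrix.mulVecLin_apply, LA_mulVec_inl, LA_mulVec_inl] at h1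
  exact h1

/-- If no minor of `A` vanishes then the column space of `(1, A)` is uniform. -/
theorem unif_colS {A : Matrix σ ρ ℂ} (h : ∀ (n : ℕ) (a : Fin n → σ) (b : Fin n → ρ),
    Function.Injective a → Function.Injective b → (A.submatrix a b).det ≠ 0) :
    Unif (colS A) := by
  intro Z hZ q hq hqZ
  rw [finrank_colS] at hZ
  rw [mem_colS] at hq
  obtain ⟨y, hy⟩ : ∃ y : ρ → ℂ, y = fun i => q (Sum.inl i) := ⟨_, rfl⟩
  rw [← hy] at hq
  -- the two parts of `Z`
  let Zr : Finset ρ := Finset.univ.filter fun i => Sum.inl i ∈ Z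
  let Zs : Finset σ := Finset.univ.filter fun i => Sum.inr i ∈ Z
  have hZc : Zr.card + Zs.card = Z.card := by
    have h1 : Z = (Zr.map Function.Embedding.inl) ∪ (Zs.map Function.Embedding.inr) := by
      ext (i | i) <;> simp [Zr, Zs]
    conv_rhs => rw [h1]
    rw [Finset.card_union_of_disjoint, Finset.card_map, Finset.card_map]
    rw [Finset.disjoint_left]
    intro x hx hx'
    obtain ⟨i, _, rfl⟩ := Finset.mem_map.1 hx
    obtain ⟨j, _, hj⟩ := Finset.mem_map.1 hx'
    simp at hj
  have hrc : Zrᶜ.card = Zs.card := by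
    rw [Finset.card_compl]
    have := Finset.card_le_univ Zr
    omega
  let a : Fin Zs.card ≃ Zs := Zs.equivFin.symm
  let b : Fin Zs.card ≃ {x // x ∈ Zrᶜ} := (Finset.equivFinOfCardEq hrc).symm
  have hdet := h Zs.card (fun l => (a l).1) (fun l => (b l).1)
    (Subtype.val_injective.comp a.injective) (Subtype.val_injective.comp b.injective)
  have hy0 : ∀ i ∈ Zr, y i = 0 := by
    intro i hi
    rw [hy]
    exact hqZ _ (Finset.mem_filter.1 hi).2
  have hmul : Matrix.mulVec (A.submatrix (fun l => (a l).1) (fun l => (b l).1))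
      (fun l => y (b l).1) = 0 := by
    ext l
    have h1 : q (Sum.inr (a l).1) = 0 := hqZ _ (Finset.mem_filter.1 (a l).2).2
    rw [← hq, LA_mulVec_inr] at h1
    have h2 : Matrix.mulVec A y (a l).1 = ∑ i ∈ Zrᶜ, A (a l).1 i * y i := by
      change ∑ i, A (a l).1 i * y i = _
      rw [← Finset.sum_add_sum_compl Zr, Finset.sum_eq_zero (s := Zr), zero_add]
      intro i hi
      rw [hy0 i hi, mul_zero]
    rw [Pi.zero_apply, ← h1, h2, ← Finset.sum_coe_sort Zrᶜ]
    exact Equiv.sum_comp b (fun x : {x // x ∈ Zrᶜ} => A (a l).1 x.1 * y x.1)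
  have hyb := Matrix.eq_zero_of_mulVec_eq_zero hdet hmul
  have hy1 : y = 0 := by
    ext i
    by_cases hi : i ∈ Zr
    · exact hy0 i hi
    · have h1 := congrFun hyb (b.symm ⟨i, Finset.mem_compl.2 hi⟩)
      simpa using h1
  rw [← hq, hy1, Matrix.mulVec_zero]

/-- Derivations which kill the entries of `A` preserve the column space. -/
theorem der_colS {A : Matrix σ ρ ℂ} (δ : Derivation ℚ ℂ ℂ) (hδ : ∀ i j, δ (A i j) = 0)
    (q : ρ ⊕ σ → ℂ) (hq : q ∈ colS A) : (fun i => δ (q i)) ∈ colS A := by
  rw [mem_colS] at hq ⊢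
  ext i
  conv_rhs => rw [← hq]
  rcases i with i | i
  · rw [LA_mulVec_inl, LA_mulVec_inl]
  · rw [LA_mulVec_inr, LA_mulVec_inr]
    simp only [Matrix.mulVec, dotProduct, map_sum, Derivation.leibniz, hδ, smul_eq_mul, mul_zero,
      add_zero]

/-- The orthogonal space. -/
theorem perp_colS {A : Matrix σ ρ ℂ} {φ : ρ ⊕ σ → ℂ} :
    (∀ x ∈ colS A, ∑ i, φ i * x i = 0) ↔
      Matrix.mulVec (NA A) (fun i => φ (Sum.inr i)) = φ := by
  constructor
  · intro h
    ext i
    rcases i with i | i
    · have h1 := h _ ⟨Pi.single i 1, rfl⟩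
      rw [Matrix.mulVecLin_apply, Fintype.sum_sum_type] at h1
      simp only [LA_mulVec_inl, LA_mulVec_inr, Matrix.mulVec_single_one, Matrix.col_apply] at h1
      rw [NA_mulVec_inl, Finset.sum_eq_single i] at *
      · rw [Pi.single_eq_same, mul_one] at h1
        rw [eq_comm, ← add_eq_zero_iff_eq_neg]
        rw [← h1]
        congr 1
        simp only [Matrix.mulVec, dotProduct, Matrix.transpose_apply]
        exact Finset.sum_congr rfl fun k _ => mul_comm _ _
      · intro j _ hj
        rw [Pi.single_eq_of_ne hj, mul_zero]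
      · intro h2
        exact absurd (Finset.mem_univ _) h2
    · exact NA_mulVec_inr A _ i
  · rintro h x ⟨y, rfl⟩
    rw [Matrix.mulVecLin_apply, ← h, Fintype.sum_sum_type]
    simp only [NA_mulVec_inl, NA_mulVec_inr, LA_mulVec_inl, LA_mulVec_inr]
    simp only [Matrix.mulVec, dotProduct, Matrix.transpose_apply, neg_mul, Finset.sum_neg_distrib,
      Finset.sum_mul, Finset.mul_sum]
    rw [neg_add_eq_zero, Finset.sum_comm]
    refine Finset.sum_congr rfl fun k _ => Finset.sum_congr rfl fun j _ => ?_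
    ring

/-- The number of critical points, in coordinates. -/
theorem cset_colS_count (hN : NCchi) (A : Matrix σ ρ ℂ)
    (h : ∀ (n : ℕ) (a : Fin n → σ) (b : Fin n → ρ),
      Function.Injective a → Function.Injective b → (A.submatrix a b).det ≠ 0)
    (S : Finset (ρ ⊕ σ)) (i₀ : ρ ⊕ σ) (hi₀ : i₀ ∈ S) (v : ρ ⊕ σ → ℂ)
    (hv : AlgebraicIndependent (acl (Set.range fun x : σ × ρ => A x.1 x.2))
      (fun i : {i // i ∈ S.erase i₀} => v i.1)) :
    (cset (colS A) S i₀ v).Finite ∧ (cset (colS A) S i₀ v).ncard =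
      if Fintype.card σ < S.card then
        (S.card - 2).choose (S.card - 1 - Fintype.card σ) else 0 := by
  have hcard : Fintype.card (ρ ⊕ σ) = Module.finrank ℂ (colS A) + Fintype.card σ := by
    rw [finrank_colS, Fintype.card_sum]
  split_ifs with hS
  · refine cset_count (unif_colS h) hcard _ (Set.finite_range _).countable ?_ S i₀ hi₀ hS v hv hN
    intro δ hδ q hq
    exact der_colS δ (fun i j => hδ _ ⟨(i, j), rfl⟩) q hq
  · rw [cset_empty (unif_colS h) hcard S i₀ v (by omega)]
    exact ⟨Set.finite_empty, Set.ncard_empty _⟩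

/-- The sum over all sections of the column space. -/
theorem sum_sections_colS :
    ∑ S : Finset (ρ ⊕ σ), (-1 : ℤ) ^ (S.card - 1 - Fintype.card σ) *
      (if Fintype.card σ < S.card then
        ((S.card - 2).choose (S.card - 1 - Fintype.card σ) : ℤ) else 0) = Fintype.card ρ := by
  rw [sum_sections _ (by rw [Fintype.card_sum]; omega), Fintype.card_sum]
  push_cast
  ring

end matrices

end Pool.EU
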