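import Pool.Agent.EU.DerDim
import Pool.Agent.ML61.Val

/-!
# One step of the tower of frames: definitions

Rows `I`, columns `J`, frames `π` (linearly ordered, with pivots `p : π → I` and supports `S`).
* `Pnt`, `Sys`: the critical equations for the matrices of rank `r` with frames `q l` in the column
  space, with exponents `u` of the entries and `v` of the frame coordinates.
* `Qnt`, `SysQ`: the same with one more vector `a` in the column space, with support `T`, exponents
  `w` and conormal vector `b`.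
* `Var`, `Eqn`, `ev`, `dev`, `dat`: the square polynomial system in a chart.
-/

set_option autoImplicit false
set_option linter.unusedSectionVars false

namespace Pool.EU.TB

open Matrix

section matrixlevel

variable {Ω Ω' π I J : Type}

/-- A point of the system with frames indexed by `π`. -/
@[ext] structure Pnt (Ω π I J : Type) where
  P : Matrix I J Ω
  G : Matrix I J Ω
  q : π → I → Ω
  h : π → I → Ω

/-- A point of the system with one more vector `a` and its conormal vector `b`. -/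
@[ext] structure Qnt (Ω π I J : Type) extends Pnt Ω π I J where
  a : I → Ω
  b : I → Ω

/-- Apply a function to all coordinates. -/
def Pnt.map (f : Ω → Ω') (z : Pnt Ω π I J) : Pnt Ω' π I J where
  P := z.P.map f
  G := z.G.map f
  q := fun l i => f (z.q l i)
  h := fun l i => f (z.h l i)

/-- Apply a function to all coordinates. -/
def Qnt.map (f : Ω → Ω') (z : Qnt Ω π I J) : Qnt Ω' π I J where
  toPnt := z.toPnt.map f
  a := fun i => f (z.a i)
  b := fun i => f (z.b i)

/-- Replace `(a, b)` by `(c a, c' b)`. -/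
def Qnt.scale [Mul Ω] (c c' : Ω) (z : Qnt Ω π I J) : Qnt Ω π I J where
  toPnt := z.toPnt
  a := fun i => c * z.a i
  b := fun i => c' * z.b i

/-- All coordinates satisfy a predicate. -/
structure Pnt.All (C : Ω → Prop) (z : Pnt Ω π I J) : Prop where
  P : ∀ i j, C (z.P i j)
  G : ∀ i j, C (z.G i j)
  q : ∀ l i, C (z.q l i)
  h : ∀ l i, C (z.h l i)

/-- All coordinates satisfy a predicate. -/
structure Qnt.All (C : Ω → Prop) (z : Qnt Ω π I J) : Prop where
  pnt : z.toPnt.All C
  a : ∀ i, C (z.a i)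
  b : ∀ i, C (z.b i)

variable [Field Ω] [Fintype π] [Fintype I] [Fintype J] [DecidableEq π] [DecidableEq I]
  [DecidableEq J]

/-- The supports `S` are admissible for the pivots `p`. -/
structure Adm [LinearOrder π] (p : π → I) (S : π → Finset I) : Prop where
  inj : Function.Injective p
  mem : ∀ l, p l ∈ S l
  notMem : ∀ l l', l' < l → p l' ∉ S l

/-- The equations which do not involve the extra vector. -/
structure Base (r : ℕ) (p : π → I) (S : π → Finset I) (u : Matrix I J Ω) (v : π → I → Ω)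
    (z : Pnt Ω π I J) : Prop where
  rk : z.P.rank = r
  orth : z.Pᵀ * z.G = 0
  mem : ∀ l, ∃ y : J → Ω, z.P *ᵥ y = z.q l
  eq : ∀ i j, z.P i j * (1 + z.G i j) = u i j
  one : ∀ l, z.q l (p l) = 1
  zero : ∀ l, ∀ i ∉ S l, z.q l i = 0
  vq : ∀ l, ∀ i ∈ S l, i ≠ p l → z.q l i * z.h l i = - v l i

/-- The critical equations with frames. -/
structure Sys (r : ℕ) (p : π → I) (S : π → Finset I) (u : Matrix I J Ω) (v : π → I → Ω)
    (z : Pnt Ω π I J) : Prop extends Base r p S u v z where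
  cr : z.P * z.Gᵀ = ∑ l, Matrix.vecMulVec (z.q l) (z.h l)

/-- The critical equations with frames and one more vector `a` with support in `T`, normalised at
`i₀`, exponents `w`; the coefficient `c` is `1` for the true system. -/
structure SysQ (c : Ω) (r : ℕ) (p : π → I) (S : π → Finset I) (T : Finset I) (i₀ : I)
    (u : Matrix I J Ω) (v : π → I → Ω) (w : I → Ω) (z : Qnt Ω π I J) : Prop
    extends Base r p S u v z.toPnt where
  cr : z.P * z.Gᵀ = ∑ l, Matrix.vecMulVec (z.q l) (z.h l) + c • Matrix.vecMulVec z.a z.b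
  mem' : ∃ y : J → Ω, z.P *ᵥ y = z.a
  perp' : z.Pᵀ *ᵥ z.b = 0
  one' : z.a i₀ = 1
  zero' : ∀ i ∉ T, z.a i = 0
  vq' : ∀ i ∈ T, i ≠ i₀ → z.a i * z.b i = - w i

/-- The limit points with non-zero extra term: `a` has support exactly `A`, and `b` is non-zero at
all other non-pivot rows (and zero on `A`). -/
structure SysA (r : ℕ) (p : π → I) (S : π → Finset I) (A : Finset I) (i₀ : I)
    (u : Matrix I J Ω) (v : π → I → Ω) (z : Qnt Ω π I J) : Prop
    extends SysQ 1 r p S A i₀ u v 0 z where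
  suppa : ∀ i ∈ A, z.a i ≠ 0
  suppb : ∀ i ∉ A, i ∉ Set.range p → z.b i ≠ 0

/-- The independent data `u`, `v`. -/
abbrev DI (J : Type) (p : π → I) (S : π → Finset I) : Type :=
  (I × J) ⊕ {x : π × I // x.2 ∈ S x.1 ∧ x.2 ≠ p x.1}

/-- The independent data `u`, `v`. -/
def dat0 (p : π → I) (S : π → Finset I) (u : Matrix I J Ω) (v : π → I → Ω) : DI J p S → Ω :=
  Sum.elim (fun x => u x.1 x.2) (fun x => v x.1.1 x.1.2)

/-- The independent data `u`, `v`, `w`. -/
abbrev DQ (J : Type) (p : π → I) (S : π → Finset I) (T : Finset I) (i₀ : I) : Type :=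
  DI J p S ⊕ {i : I // i ∈ T ∧ i ≠ i₀}

/-- The independent data `u`, `v`, `w`. -/
def dat1 (p : π → I) (S : π → Finset I) (T : Finset I) (i₀ : I) (u : Matrix I J Ω)
    (v : π → I → Ω) (w : I → Ω) : DQ J p S T i₀ → Ω :=
  Sum.elim (dat0 p S u v) (fun i => w i.1)

/-- Generic data. -/
def Gen0 (p : π → I) (S : π → Finset I) (u : Matrix I J ℂ) (v : π → I → ℂ) : Prop :=
  AlgebraicIndependent ℚ (dat0 p S u v)

/-- Generic data. -/
def Gen1 (p : π → I) (S : π → Finset I) (T : Finset I) (i₀ : I) (u : Matrix I J ℂ)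
    (v : π → I → ℂ) (w : I → ℂ) : Prop :=
  AlgebraicIndependent ℚ (dat1 p S T i₀ u v w)

end matrixlevel

section chart

/-- The rows: the pivots, then a basis of rows for the rest of the column space, then the other
rows. -/
abbrev Rw (π ρ σ : Type) : Type := π ⊕ (ρ ⊕ σ)

variable {π ρ σ J : Type} [DecidableEq π] [DecidableEq ρ] [DecidableEq σ] [DecidableEq J]

/-- The free entries of the frames. -/
abbrev Fre (S : π → Finset (Rw π ρ σ)) : Type :=
  {x : π × Rw π ρ σ // x.2 ∈ S x.1 ∧ x.2 ≠ Sum.inl x.1}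

/-- The variables of the chart: the free entries of the frames; `A`; `Y`; `G`; `a`; `b`. -/
abbrev Var (S : π → Finset (Rw π ρ σ)) (J : Type) : Type :=
  Fre S ⊕ ((σ × ρ) ⊕ (((π ⊕ ρ) × J) ⊕ ((Rw π ρ σ × J) ⊕ ((ρ ⊕ σ) ⊕ Rw π ρ σ))))

/-- The equations of the chart. -/
abbrev Eqn (S : π → Finset (Rw π ρ σ)) (J : Type) : Type :=
  ((π ⊕ ρ) × J) ⊕ ((π ⊕ ρ) ⊕ (σ ⊕ ((ρ × σ) ⊕ ((Rw π ρ σ × J) ⊕ (Fre S ⊕ (ρ ⊕ σ))))))

variable {S : π → Finset (Rw π ρ σ)} {R R' : Type}

section accessors

variable (x : Var S J → R)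

/-- The free entries of the frames. -/
def xf (y : Fre S) : R := x (Sum.inl y)

/-- The chart coordinates of the rest of the column space. -/
def xA (s : σ) (k : ρ) : R := x (Sum.inr (Sum.inl (s, k)))

/-- The coordinates of the columns of `P`. -/
def xY (k : π ⊕ ρ) (j : J) : R := x (Sum.inr (Sum.inr (Sum.inl (k, j))))

/-- The matrix `G`. -/
def xG (i : Rw π ρ σ) (j : J) : R := x (Sum.inr (Sum.inr (Sum.inr (Sum.inl (i, j)))))

/-- The vector `a` on the rows which are not pivots (it is zero at the pivots). -/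
def xa (i : ρ ⊕ σ) : R := x (Sum.inr (Sum.inr (Sum.inr (Sum.inr (Sum.inl i)))))

/-- The vector `b`. -/
def xb (i : Rw π ρ σ) : R := x (Sum.inr (Sum.inr (Sum.inr (Sum.inr (Sum.inr i)))))

end accessors

variable [CommRing R] [CommRing R'] [Fintype π] [Fintype ρ] [Fintype σ] [Fintype J]

/-- The frame vectors. -/
def fr (x : Var S J → R) (l : π) (i : Rw π ρ σ) : R :=
  if h : i ∈ S l ∧ i ≠ Sum.inl l then xf x ⟨(l, i), h⟩ else if i = Sum.inl l then 1 else 0

/-- The differential of the frame vectors. -/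
def dfr (w : Var S J → R) (l : π) (i : Rw π ρ σ) : R :=
  if h : i ∈ S l ∧ i ≠ Sum.inl l then xf w ⟨(l, i), h⟩ else 0

/-- The basis `[Q | X']` of the column space. -/
def XX (x : Var S J → R) : Matrix (Rw π ρ σ) (π ⊕ ρ) R :=
  Matrix.of fun i c => Sum.elim (fun l => fr x l i)
    (fun k => Sum.elim (fun _ => 0) (Sum.elim (fun k' => if k' = k then 1 else 0)
      (fun s => xA x s k)) i) c

/-- The entries of `P`. -/
def xP (x : Var S J → R) (i : Rw π ρ σ) (j : J) : R :=
  ∑ l, fr x l i * xY x (Sum.inl l) j + Sum.elim (fun _ => 0)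
    (Sum.elim (fun k => xY x (Sum.inr k) j) (fun s => ∑ k, xA x s k * xY x (Sum.inr k) j)) i

/-- The differential of the entries of `P`. -/
def dxP (x w : Var S J → R) (i : Rw π ρ σ) (j : J) : R :=
  ∑ l, (dfr w l i * xY x (Sum.inl l) j + fr x l i * xY w (Sum.inl l) j) + Sum.elim (fun _ => 0)
    (Sum.elim (fun k => xY w (Sum.inr k) j)
      (fun s => ∑ k, (xA w s k * xY x (Sum.inr k) j + xA x s k * xY w (Sum.inr k) j))) i

/-- The conormal vector of the frame `l` at row `i`. -/
def xh (x : Var S J → R) (l : π) (i : Rw π ρ σ) : R := ∑ j, xY x (Sum.inl l) j * xG x i j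

/-- The differential of the conormal vector. -/
def dxh (x w : Var S J → R) (l : π) (i : Rw π ρ σ) : R :=
  ∑ j, (xY w (Sum.inl l) j * xG x i j + xY x (Sum.inl l) j * xG w i j)

/-- The pairing of a column of the basis with a vector. -/
def pX (x : Var S J → R) (g : Rw π ρ σ → R) (c : π ⊕ ρ) : R :=
  Sum.elim (fun l => ∑ i, fr x l i * g i)
    (fun k => g (Sum.inr (Sum.inl k)) + ∑ s, xA x s k * g (Sum.inr (Sum.inr s))) c

/-- The differential of the pairing. -/
def dpX (x w : Var S J → R) (g dg : Rw π ρ σ → R) (c : π ⊕ ρ) : R :=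
  Sum.elim (fun l => ∑ i, (dfr w l i * g i + fr x l i * dg i))
    (fun k => dg (Sum.inr (Sum.inl k)) +
      ∑ s, (xA w s k * g (Sum.inr (Sum.inr s)) + xA x s k * dg (Sum.inr (Sum.inr s)))) c

/-- The left hand sides of the equations of the chart. -/
def ev (c : R) (T : Finset (ρ ⊕ σ)) (i₀ : ρ ⊕ σ) (x : Var S J → R) : Eqn S J → R :=
  Sum.elim (fun y => pX x (fun i => xG x i y.2) y.1) <|
  Sum.elim (fun y => pX x (xb x) y) <|
  Sum.elim (fun s => xa x (Sum.inr s) - ∑ k, xA x s k * xa x (Sum.inl k)) <|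
  Sum.elim (fun y => ∑ j, xY x (Sum.inr y.1) j * xG x (Sum.inr (Sum.inr y.2)) j -
    c * (xa x (Sum.inl y.1) * xb x (Sum.inr (Sum.inr y.2)))) <|
  Sum.elim (fun y => xP x y.1 y.2 * (1 + xG x y.1 y.2)) <|
  Sum.elim (fun y => xf x y * xh x y.1.1 y.1.2)
  (fun i => if i = i₀ then xa x i else if i ∈ T then xa x i * xb x (Sum.inr i) else xa x i)

/-- The differential of the left hand sides. -/
def dev (c : R) (T : Finset (ρ ⊕ σ)) (i₀ : ρ ⊕ σ) (x w : Var S J → R) : Eqn S J → R :=
  Sum.elim (fun y => dpX x w (fun i => xG x i y.2) (fun i => xG w i y.2) y.1) <|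
  Sum.elim (fun y => dpX x w (xb x) (xb w) y) <|
  Sum.elim (fun s => xa w (Sum.inr s) -
    ∑ k, (xA w s k * xa x (Sum.inl k) + xA x s k * xa w (Sum.inl k))) <|
  Sum.elim (fun y => ∑ j, (xY w (Sum.inr y.1) j * xG x (Sum.inr (Sum.inr y.2)) j +
      xY x (Sum.inr y.1) j * xG w (Sum.inr (Sum.inr y.2)) j) -
    c * (xa w (Sum.inl y.1) * xb x (Sum.inr (Sum.inr y.2)) +
      xa x (Sum.inl y.1) * xb w (Sum.inr (Sum.inr y.2)))) <|
  Sum.elim (fun y => dxP x w y.1 y.2 * (1 + xG x y.1 y.2) + xP x y.1 y.2 * xG w y.1 y.2) <|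
  Sum.elim (fun y => xf w y * xh x y.1.1 y.1.2 + xf x y * dxh x w y.1.1 y.1.2)
  (fun i => if i = i₀ then xa w i else if i ∈ T then
    xa w i * xb x (Sum.inr i) + xa x i * xb w (Sum.inr i) else xa w i)

/-- The right hand sides of the equations. -/
def dat (T : Finset (ρ ⊕ σ)) (i₀ : ρ ⊕ σ) (u : Matrix (Rw π ρ σ) J R) (v : π → Rw π ρ σ → R)
    (w : ρ ⊕ σ → R) : Eqn S J → R :=
  Sum.elim (fun _ => 0) <| Sum.elim (fun _ => 0) <| Sum.elim (fun _ => 0) <|
  Sum.elim (fun _ => 0) <| Sum.elim (fun y => u y.1 y.2) <|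
  Sum.elim (fun y => - v y.1.1 y.1.2)
  (fun i => if i = i₀ then 1 else if i ∈ T then - w i else 0)

end chart

/-! ### Between the matrix level and the chart -/

section between

variable {Ω Ω' π I I' J : Type}

/-- Reindex the rows. -/
def Pnt.rows (e : I ≃ I') (z : Pnt Ω π I J) : Pnt Ω π I' J where
  P := z.P.submatrix e.symm id
  G := z.G.submatrix e.symm id
  q := fun l i => z.q l (e.symm i)
  h := fun l i => z.h l (e.symm i)

/-- Reindex the rows. -/
def Qnt.rows (e : I ≃ I') (z : Qnt Ω π I J) : Qnt Ω π I' J where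
  toPnt := z.toPnt.rows e
  a := fun i => z.a (e.symm i)
  b := fun i => z.b (e.symm i)

/-- `z` is integral and reduces to `ζ`. -/
structure Pnt.Red {K : Type} [Field K] (z : Pnt (LaurentSeries K) π I J) (ζ : Pnt K π I J) :
    Prop where
  P : ∀ i j, ∃ s : PowerSeries K, Pool.ML.ofPS s = z.P i j ∧ s.constantCoeff = ζ.P i j
  G : ∀ i j, ∃ s : PowerSeries K, Pool.ML.ofPS s = z.G i j ∧ s.constantCoeff = ζ.G i j
  q : ∀ l i, ∃ s : PowerSeries K, Pool.ML.ofPS s = z.q l i ∧ s.constantCoeff = ζ.q l i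
  h : ∀ l i, ∃ s : PowerSeries K, Pool.ML.ofPS s = z.h l i ∧ s.constantCoeff = ζ.h l i

/-- `z` is integral and reduces to `ζ`. -/
structure Qnt.Red {K : Type} [Field K] (z : Qnt (LaurentSeries K) π I J) (ζ : Qnt K π I J) :
    Prop where
  pnt : z.toPnt.Red ζ.toPnt
  a : ∀ i, ∃ s : PowerSeries K, Pool.ML.ofPS s = z.a i ∧ s.constantCoeff = ζ.a i
  b : ∀ i, ∃ s : PowerSeries K, Pool.ML.ofPS s = z.b i ∧ s.constantCoeff = ζ.b i

/-- All coordinates of two complex points differ by less than `δ`. -/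
structure Qnt.Near (δ : ℝ) (z ζ : Qnt ℂ π I J) : Prop where
  P : ∀ i j, ‖z.P i j - ζ.P i j‖ < δ
  G : ∀ i j, ‖z.G i j - ζ.G i j‖ < δ
  q : ∀ l i, ‖z.q l i - ζ.q l i‖ < δ
  h : ∀ l i, ‖z.h l i - ζ.h l i‖ < δ
  a : ∀ i, ‖z.a i - ζ.a i‖ < δ
  b : ∀ i, ‖z.b i - ζ.b i‖ < δ

/-- The exponents `w` on `T`, with the exponent at `i₀` such that the sum over `T` is zero. -/
def wz {R : Type} [AddCommGroup R] [DecidableEq I] (T : Finset I) (i₀ : I) (w : I → R) : I → R :=
  fun i => if i = i₀ then - ∑ j ∈ T.erase i₀, w j else w i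

/-- The critical points `a` of `∏ a_i ^ w_i` on the column space of `P` intersected with the torus
of support `T`, with the conormal vector `b`. -/
structure Crt [Field Ω] [Fintype I] [Fintype J] (P : Matrix I J Ω) (T : Finset I) (i₀ : I)
    (w a b : I → Ω) : Prop where
  mem : ∃ y : J → Ω, P *ᵥ y = a
  perp : Pᵀ *ᵥ b = 0
  one : a i₀ = 1
  zero : ∀ i ∉ T, a i = 0
  vq : ∀ i ∈ T, i ≠ i₀ → a i * b i = - w i

end between

section chart2

variable {π ρ σ J : Type} [DecidableEq π] [DecidableEq ρ] [DecidableEq σ]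
  [Fintype π] [Fintype ρ] [Fintype σ] [Fintype J] {S : π → Finset (Rw π ρ σ)}
  {R : Type} [CommRing R]

/-- The point of the matrix level with given chart coordinates. -/
def toQ (x : Var S J → R) : Qnt R π (Rw π ρ σ) J where
  P := Matrix.of (xP x)
  G := Matrix.of (xG x)
  q := fr x
  h := xh x
  a := Sum.elim (fun _ => 0) (xa x)
  b := xb x

end chart2

end Pool.EU.TB
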