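import Pool.Agent.EU.TB9c
import Pool.Agent.EU.TBDefs
import Pool.Agent.EU.Uniform

/-!
# Critical points on the coordinate strata, at the matrix level
-/

set_option autoImplicit false
set_option linter.unusedSectionVars false

namespace Pool.EU.TB

open Matrix Pool.ML Pool.EU

section crt

variable {π ρ σ J : Type} [DecidableEq ρ] [DecidableEq σ] [DecidableEq J]
  [Fintype π] [Fintype ρ] [Fintype σ] [Fintype J] [LinearOrder π]

/-- The frame part of a basis of the column space. -/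
structure XForm (A : Matrix σ ρ ℂ) (X : Matrix (Rw π ρ σ) (π ⊕ ρ) ℂ) : Prop where
  one : ∀ l, X (Sum.inl l) (Sum.inl l) = 1
  tri : ∀ l l', l' < l → X (Sum.inl l') (Sum.inl l) = 0
  zero : ∀ l k, X (Sum.inl l) (Sum.inr k) = 0
  unit : ∀ k' k, X (Sum.inr (Sum.inl k')) (Sum.inr k) = if k' = k then 1 else 0
  low : ∀ s k, X (Sum.inr (Sum.inr s)) (Sum.inr k) = A s k

/-- The triangular part. -/
def XForm.M (X : Matrix (Rw π ρ σ) (π ⊕ ρ) ℂ) : Matrix π π ℂ :=
  Matrix.of fun l l' => X (Sum.inl l') (Sum.inl l)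

theorem XForm.det_M {A : Matrix σ ρ ℂ} {X : Matrix (Rw π ρ σ) (π ⊕ ρ) ℂ} (h : XForm A X) :
    (XForm.M X).det = 1 := by
  rw [Matrix.det_of_upperTriangular]
  · exact Finset.prod_eq_one fun l _ => h.one l
  · intro l l' hl
    exact h.tri l l' hl

theorem XForm.mulVec_inl {X : Matrix (Rw π ρ σ) (π ⊕ ρ) ℂ} {A : Matrix σ ρ ℂ} (h : XForm A X)
    (c : π ⊕ ρ → ℂ) (l : π) :
    (X *ᵥ c) (Sum.inl l) = ((XForm.M X)ᵀ *ᵥ fun l => c (Sum.inl l)) l := by
  simp only [Matrix.mulVec, dotProduct, Fintype.sum_sum_type, h.zero, zero_mul,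
    Finset.sum_const_zero, add_zero, Matrix.transpose_apply, XForm.M, Matrix.of_apply]

theorem XForm.mulVec_inr {X : Matrix (Rw π ρ σ) (π ⊕ ρ) ℂ} {A : Matrix σ ρ ℂ} (h : XForm A X)
    (c : π ⊕ ρ → ℂ) (hc : ∀ l, c (Sum.inl l) = 0) (i : ρ ⊕ σ) :
    (X *ᵥ c) (Sum.inr i) = (LA A *ᵥ fun k => c (Sum.inr k)) i := by
  have h1 : (X *ᵥ c) (Sum.inr i) = ∑ k, X (Sum.inr i) (Sum.inr k) * c (Sum.inr k) := by
    simp only [Matrix.mulVec, dotProduct, Fintype.sum_sum_type, hc, mul_zero,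
      Finset.sum_const_zero, zero_add]
  rw [h1]
  rcases i with i | i
  · rw [LA_mulVec_inl]
    simp [h.unit]
  · rw [LA_mulVec_inr]
    simp only [h.low]
    rfl

theorem XForm.transpose_inr {X : Matrix (Rw π ρ σ) (π ⊕ ρ) ℂ} {A : Matrix σ ρ ℂ} (h : XForm A X)
    (b : Rw π ρ σ → ℂ) (k : ρ) :
    (Xᵀ *ᵥ b) (Sum.inr k) = b (Sum.inr (Sum.inl k)) +
      (Aᵀ *ᵥ fun s => b (Sum.inr (Sum.inr s))) k := by
  simp only [Matrix.mulVec, dotProduct, Fintype.sum_sum_type, Matrix.transpose_apply, h.zero,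
    zero_mul, Finset.sum_const_zero, zero_add, h.unit, h.low]
  congr 1
  simp

theorem XForm.transpose_inl {X : Matrix (Rw π ρ σ) (π ⊕ ρ) ℂ} {A : Matrix σ ρ ℂ}
    (_h : XForm A X) (b : Rw π ρ σ → ℂ) (l : π) :
    (Xᵀ *ᵥ b) (Sum.inl l) = ((XForm.M X) *ᵥ fun l => b (Sum.inl l)) l +
      ∑ i, X (Sum.inr i) (Sum.inl l) * b (Sum.inr i) := by
  simp only [Matrix.mulVec, dotProduct, Fintype.sum_sum_type, Matrix.transpose_apply, XForm.M,
    Matrix.of_apply]

/-- The critical points of the product on the coordinate stratum, and the coordinates outside of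
the pivots. -/
theorem crt_image {X : Matrix (Rw π ρ σ) (π ⊕ ρ) ℂ} {A : Matrix σ ρ ℂ} (h : XForm A X)
    (Y : Matrix (π ⊕ ρ) J ℂ) (hY : Y.rank = Fintype.card π + Fintype.card ρ)
    (T : Finset (ρ ⊕ σ)) (i₀ : ρ ⊕ σ) (w : Rw π ρ σ → ℂ) :
    Set.InjOn (fun y : (Rw π ρ σ → ℂ) × (Rw π ρ σ → ℂ) =>
      ((fun i => y.1 (Sum.inr i), fun i => y.2 (Sum.inr i)) : (ρ ⊕ σ → ℂ) × (ρ ⊕ σ → ℂ)))
      {y | Crt (X * Y) (T.map Function.Embedding.inr) (Sum.inr i₀) w y.1 y.2} ∧
    (fun y : (Rw π ρ σ → ℂ) × (Rw π ρ σ → ℂ) =>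
      ((fun i => y.1 (Sum.inr i), fun i => y.2 (Sum.inr i)) : (ρ ⊕ σ → ℂ) × (ρ ⊕ σ → ℂ))) ''
      {y | Crt (X * Y) (T.map Function.Embedding.inr) (Sum.inr i₀) w y.1 y.2} =
      cset (colS A) T i₀ (fun i => w (Sum.inr i)) := by
  have hsurj : ∀ c : π ⊕ ρ → ℂ, ∃ y, Y *ᵥ y = c := by
    have h1 : LinearMap.range Y.mulVecLin = ⊤ := by
      apply Submodule.eq_top_of_finrank_eq
      rw [Module.finrank_fintype_fun_eq_card, Fintype.card_sum]
      exact hY
    intro c
    have h2 : c ∈ LinearMap.range Y.mulVecLin := by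
      rw [h1]
      trivial
    exact h2
  have hperp : ∀ b : Rw π ρ σ → ℂ, (X * Y)ᵀ *ᵥ b = 0 ↔ Xᵀ *ᵥ b = 0 := by
    intro b
    rw [Matrix.transpose_mul, ← Matrix.mulVec_mulVec]
    constructor
    · intro h1
      ext c
      obtain ⟨y, hy⟩ := hsurj (Pi.single c 1)
      have h2 : (Xᵀ *ᵥ b) ⬝ᵥ (Y *ᵥ y) = 0 := by
        rw [Matrix.dotProduct_mulVec, ← Matrix.mulVec_transpose, h1, zero_dotProduct]
      rw [hy, dotProduct_single_one] at h2
      exact h2
    · intro h1
      rw [h1, Matrix.mulVec_zero]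
  have hmem : ∀ a : Rw π ρ σ → ℂ, (∃ y, (X * Y) *ᵥ y = a) ↔ ∃ c, X *ᵥ c = a := by
    intro a
    constructor
    · rintro ⟨y, hy⟩
      exact ⟨Y *ᵥ y, by rw [Matrix.mulVec_mulVec]; exact hy⟩
    · rintro ⟨c, hc⟩
      obtain ⟨y, hy⟩ := hsurj c
      exact ⟨y, by rw [← Matrix.mulVec_mulVec, hy]; exact hc⟩
  have hdet : (XForm.M X).det ≠ 0 := by
    rw [h.det_M]
    exact one_ne_zero
  have hT : ∀ l : π, (Sum.inl l : Rw π ρ σ) ∉ T.map Function.Embedding.inr := by
    intro l hl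
    obtain ⟨i, _, hi⟩ := Finset.mem_map.1 hl
    simp at hi
  have hT' : ∀ i : ρ ⊕ σ, (Sum.inr i : Rw π ρ σ) ∈ T.map Function.Embedding.inr ↔ i ∈ T := by
    intro i
    simp
  refine ⟨?_, ?_⟩
  · rintro ⟨a, b⟩ ⟨_, hb, _, ha0, _⟩ ⟨a', b'⟩ ⟨_, hb', _, ha0', _⟩ hab
    simp only at hb ha0 hb' ha0' hab
    have e1 : (fun i => a (Sum.inr i)) = fun i => a' (Sum.inr i) := congrArg Prod.fst hab
    have e2 : (fun i => b (Sum.inr i)) = fun i => b' (Sum.inr i) := congrArg Prod.snd hab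
    have ea : a = a' := by
      ext i
      rcases i with l | i
      · rw [ha0 _ (hT l), ha0' _ (hT l)]
      · exact congrFun e1 i
    have eb : b = b' := by
      rw [hperp] at hb hb'
      have h1 : (XForm.M X) *ᵥ (fun l => b (Sum.inl l) - b' (Sum.inl l)) = 0 := by
        ext l
        have h2 := congrFun hb (Sum.inl l)
        have h3 := congrFun hb' (Sum.inl l)
        rw [h.transpose_inl] at h2 h3
        have h4 : ∀ i, b (Sum.inr i) = b' (Sum.inr i) := fun i => congrFun e2 i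
        simp only [h4] at h2
        rw [show (fun l => b (Sum.inl l) - b' (Sum.inl l)) =
          (fun l => b (Sum.inl l)) - fun l => b' (Sum.inl l) from rfl, Matrix.mulVec_sub,
          Pi.sub_apply]
        have h5 := h2.trans h3.symm
        rw [add_left_inj] at h5
        rw [h5, sub_self]
        rfl
      have h6 := Matrix.eq_zero_of_mulVec_eq_zero hdet h1
      ext i
      rcases i with l | i
      · exact sub_eq_zero.1 (congrFun h6 l)
      · exact congrFun e2 i
    rw [ea, eb]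
  · ext ⟨q, φ⟩
    constructor
    · rintro ⟨⟨a, b⟩, ⟨ha, hb, h1, h0, hv⟩, hab⟩
      simp only at ha hb h1 h0 hv
      have e1 : q = fun i => a (Sum.inr i) := (congrArg Prod.fst hab).symm
      have e2 : φ = fun i => b (Sum.inr i) := (congrArg Prod.snd hab).symm
      rw [e1, e2]
      rw [hmem] at ha
      rw [hperp] at hb
      obtain ⟨c, hc⟩ := ha
      have hc0 : ∀ l, c (Sum.inl l) = 0 := by
        have h2 : (XForm.M X)ᵀ *ᵥ (fun l => c (Sum.inl l)) = 0 := by
          ext l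
          rw [← h.mulVec_inl, hc, h0 _ (hT l)]
          rfl
        have h3 := Matrix.eq_zero_of_mulVec_eq_zero (by rw [Matrix.det_transpose]; exact hdet) h2
        exact fun l => congrFun h3 l
      have ha' : (fun i => a (Sum.inr i)) = LA A *ᵥ fun k => c (Sum.inr k) := by
        ext i
        rw [← hc, h.mulVec_inr c hc0]
      refine ⟨?_, ?_, h1, ?_, ?_⟩
      · rw [ha']
        exact ⟨_, rfl⟩
      · rw [perp_colS]
        ext i
        rcases i with k | s
        · rw [NA_mulVec_inl]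
          have h2 := congrFun hb (Sum.inr k)
          rw [h.transpose_inr] at h2
          exact (eq_neg_of_add_eq_zero_left h2).symm
        · rw [NA_mulVec_inr]
      · intro i hi
        exact h0 _ fun h2 => hi ((hT' i).1 h2)
      · intro i hi hne
        exact hv _ ((hT' i).2 hi) fun h2 => hne (Sum.inr_injective h2)
    · rintro ⟨hq, hφ, h1, h0, hv⟩
      simp only at hq hφ h1 h0 hv
      obtain ⟨y, hy⟩ := hq
      rw [Matrix.mulVecLin_apply] at hy
      rw [perp_colS] at hφ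
      let c : π → ℂ := (XForm.M X)⁻¹ *ᵥ fun l => -∑ i, X (Sum.inr i) (Sum.inl l) * φ i
      have hc : (XForm.M X) *ᵥ c = fun l => -∑ i, X (Sum.inr i) (Sum.inl l) * φ i := by
        rw [Matrix.mulVec_mulVec, Matrix.mul_nonsing_inv _ (isUnit_iff_ne_zero.2 hdet),
          Matrix.one_mulVec]
      refine ⟨(Sum.elim (fun _ => 0) q, Sum.elim c φ), ?_, rfl⟩
      refine ⟨?_, ?_, ?_, ?_, ?_⟩
      · rw [hmem]
        refine ⟨Sum.elim (fun _ => 0) y, ?_⟩
        ext i
        rcases i with l | i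
        · rw [h.mulVec_inl]
          change ((XForm.M X)ᵀ *ᵥ (0 : π → ℂ)) l = 0
          rw [Matrix.mulVec_zero]
          rfl
        · rw [h.mulVec_inr _ (fun _ => rfl)]
          exact congrFun hy i
      · rw [hperp]
        ext i
        rcases i with l | k
        · rw [h.transpose_inl]
          change ((XForm.M X) *ᵥ c) l + ∑ i, X (Sum.inr i) (Sum.inl l) * φ i = 0
          rw [hc]
          exact neg_add_cancel _
        · rw [h.transpose_inr]
          change φ (Sum.inl k) + (Aᵀ *ᵥ fun s => φ (Sum.inr s)) k = 0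
          have h2 := congrFun hφ (Sum.inl k)
          rw [NA_mulVec_inl] at h2
          rw [← h2]
          exact neg_add_cancel _
      · exact h1
      · intro i hi
        rcases i with l | i
        · rfl
        · exact h0 i fun h2 => hi ((hT' i).2 h2)
      · intro i hi hne
        rcases i with l | i
        · exact absurd hi (hT l)
        · exact hv i ((hT' i).1 hi) fun h2 => hne (by rw [h2])

end crt

/-- Reindexing of the rows. -/
theorem Crt.rows {I I' J : Type} [Fintype I] [Fintype I'] [Fintype J] [DecidableEq I]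
    [DecidableEq I'] (E : I ≃ I') {P : Matrix I J ℂ} {T : Finset I} {i₀ : I} {w a b : I → ℂ} :
    Crt P T i₀ w a b ↔ Crt (P.submatrix E.symm id) (T.map E.toEmbedding) (E i₀)
      (fun i => w (E.symm i)) (fun i => a (E.symm i)) (fun i => b (E.symm i)) := by
  have hmulP : ∀ y : J → ℂ, (P.submatrix E.symm id) *ᵥ y = fun i => (P *ᵥ y) (E.symm i) :=
    fun y => rfl
  have hmulb : (P.submatrix E.symm id)ᵀ *ᵥ (fun i => b (E.symm i)) = Pᵀ *ᵥ b := by
    ext j
    exact Equiv.sum_comp E.symm (fun i => Pᵀ j i * b i)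
  have hT : ∀ i, i ∈ T.map E.toEmbedding ↔ E.symm i ∈ T := by
    intro i
    rw [Finset.mem_map_equiv]
  constructor
  · rintro ⟨⟨y, hy⟩, h2, h3, h4, h5⟩
    refine ⟨⟨y, ?_⟩, ?_, ?_, ?_, ?_⟩
    · rw [hmulP, hy]
    · rw [hmulb, h2]
    · rw [E.symm_apply_apply, h3]
    · intro i hi
      exact h4 _ fun h => hi ((hT i).2 h)
    · intro i hi hne
      refine h5 _ ((hT i).1 hi) fun h => hne ?_
      rw [← h, E.apply_symm_apply]
  · rintro ⟨⟨y, hy⟩, h2, h3, h4, h5⟩
    refine ⟨⟨y, ?_⟩, ?_, ?_, ?_, ?_⟩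
    · ext i
      have h6 := congrFun hy (E i)
      rw [hmulP] at h6
      simpa using h6
    · rw [hmulb] at h2
      exact h2
    · rw [E.symm_apply_apply] at h3
      exact h3
    · intro i hi
      have h6 := h4 (E i) fun h => hi (by simpa using (hT (E i)).1 h)
      simpa using h6
    · intro i hi hne
      have h6 := h5 (E i) ((hT _).2 (by simpa using hi)) fun h => hne (E.injective h)
      simpa using h6

end Pool.EU.TB
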