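import Pool.Agent.EU.TBDefs
import Pool.Agent.EU.Aut

/-!
# Separation of the limit points, small transcendental numbers
-/

set_option autoImplicit false
set_option linter.unusedSectionVars false

namespace Pool.EU.TB

open Matrix Pool.ML Filter Topology

theorem tendsto_of_near {f : ℕ → ℂ} {a : ℂ} (h : ∀ n : ℕ, ‖f n - a‖ < 1 / ((n : ℝ) + 1)) :
    Tendsto f atTop (𝓝 a) := by
  rw [tendsto_iff_norm_sub_tendsto_zero]
  exact squeeze_zero (fun n => norm_nonneg _) (fun n => (h n).le)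
    tendsto_one_div_add_atTop_nhds_zero_nat

theorem eq_of_near {f : ℕ → ℂ} {a b : ℂ} (h : ∀ n : ℕ, ‖f n - a‖ < 1 / ((n : ℝ) + 1))
    (h' : ∀ n : ℕ, ‖f n - b‖ < 1 / ((n : ℝ) + 1)) : a = b :=
  tendsto_nhds_unique (tendsto_of_near h) (tendsto_of_near h')

theorem exists_small_transc (D : Set ℂ) (hD : D.Countable) (η : ℝ) (hη : 0 < η) :
    ∃ ε : ℂ, ε ≠ 0 ∧ ‖ε‖ < η ∧ ε ∉ acl D := by
  obtain ⟨y, hy⟩ := exists_algInd D hD (Fin 1)
  have hy0 : y 0 ∉ acl D := by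
    intro h
    have h1 : Transcendental (acl D) (y 0) := hy.transcendental 0
    exact h1 (isAlgebraic_algebraMap (⟨y 0, h⟩ : acl D))
  have hne : y 0 ≠ 0 := by
    intro h
    rw [h] at hy0
    exact hy0 (acl D).zero_mem
  obtain ⟨N, hN⟩ := exists_nat_gt (‖y 0‖ / η)
  have hN0 : (0 : ℝ) < N := lt_of_le_of_lt (div_nonneg (norm_nonneg _) hη.le) hN
  have hNC : (N : ℂ) ≠ 0 := by
    intro h
    have h1 : (N : ℝ) = 0 := by exact_mod_cast h
    exact hN0.ne' h1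
  refine ⟨y 0 / N, div_ne_zero hne hNC, ?_, ?_⟩
  · rw [norm_div, Complex.norm_natCast, div_lt_iff₀ hN0]
    rw [div_lt_iff₀ hη] at hN
    rwa [mul_comm]
  · intro h
    apply hy0
    have h1 : y 0 = (N : ℂ) * (y 0 / N) := by
      field_simp
    rw [h1]
    exact (acl D).mul_mem (natCast_mem (acl D) N) h

variable {π I J : Type} [Fintype π] [Fintype I] [Fintype J] [LinearOrder π] [DecidableEq I]
  [DecidableEq J] {p : π → I} {S : π → Finset I} {r : ℕ}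

theorem Qnt.Near.mono {δ δ' : ℝ} (h : δ ≤ δ') {z ζ : Qnt ℂ π I J} (hz : z.Near δ ζ) :
    z.Near δ' ζ where
  P i j := (hz.P i j).trans_le h
  G i j := (hz.G i j).trans_le h
  q l i := (hz.q l i).trans_le h
  h l i := (hz.h l i).trans_le h
  a i := (hz.a i).trans_le h
  b i := (hz.b i).trans_le h

/-- A limit point of the first kind is determined by the products. -/
theorem sysA_unique {A A' : Finset I} {i₁ : Finset I → I} {u : Matrix I J ℂ} {v : π → I → ℂ}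
    (hB : ∃ i, i ∉ A ∧ i ∉ Set.range p) (hB' : ∃ i, i ∉ A' ∧ i ∉ Set.range p) {ζ ζ' : Qnt ℂ π I J}
    (h : SysA r p S A (i₁ A) u v ζ) (h' : SysA r p S A' (i₁ A') u v ζ')
    (h0 : ζ.toPnt = ζ'.toPnt) (h1 : ∀ i j, ζ.a i * ζ.b j = ζ'.a i * ζ'.b j) :
    A = A' ∧ ζ = ζ' := by
  obtain ⟨j, hj1, hj2⟩ := hB
  obtain ⟨j', hj1', hj2'⟩ := hB'
  have hj := h.suppb j hj1 hj2
  have hj' := h'.suppb j' hj1' hj2'
  have hA : A = A' := by
    apply Finset.Subset.antisymm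
    · intro i hi
      by_contra hi'
      have h2 := h1 i j
      rw [h'.zero' i hi', zero_mul] at h2
      exact (mul_ne_zero (h.suppa i hi) hj) h2
    · intro i hi
      by_contra hi'
      have h2 := h1 i j'
      rw [h.zero' i hi', zero_mul] at h2
      exact (mul_ne_zero (h'.suppa i hi) hj') h2.symm
  subst hA
  refine ⟨rfl, ?_⟩
  have hb : ∀ i, ζ.b i = ζ'.b i := by
    intro i
    have h2 := h1 (i₁ A) i
    rwa [h.one', h'.one', one_mul, one_mul] at h2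
  have ha : ∀ i, ζ.a i = ζ'.a i := by
    intro i
    have h2 := h1 i j
    rw [← hb j] at h2
    exact mul_right_cancel₀ hj h2
  apply Qnt.ext
  · exact congrArg Pnt.P h0
  · exact congrArg Pnt.G h0
  · exact congrArg Pnt.q h0
  · exact congrArg Pnt.h h0
  · exact funext ha
  · exact funext hb

theorem sep1 {A A' : Finset I} {i₁ : Finset I → I} {u : Matrix I J ℂ} {v : π → I → ℂ}
    (hB : ∃ i, i ∉ A ∧ i ∉ Set.range p) (hB' : ∃ i, i ∉ A' ∧ i ∉ Set.range p) {ζ ζ' : Qnt ℂ π I J}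
    (h : SysA r p S A (i₁ A) u v ζ) (h' : SysA r p S A' (i₁ A') u v ζ')
    (hne : ¬ (A = A' ∧ ζ = ζ')) :
    ∃ δ : ℝ, 0 < δ ∧ ∀ z : Qnt ℂ π I J, ¬ ((∃ c : ℂ, c ≠ 0 ∧ (z.scale c c⁻¹).Near δ ζ) ∧
      ∃ c : ℂ, c ≠ 0 ∧ (z.scale c c⁻¹).Near δ ζ') := by
  by_contra hcon
  push Not at hcon
  have h1 : ∀ n : ℕ, ∃ z : Qnt ℂ π I J, (∃ c : ℂ, c ≠ 0 ∧
      (z.scale c c⁻¹).Near (1 / ((n : ℝ) + 1)) ζ) ∧
      ∃ c : ℂ, c ≠ 0 ∧ (z.scale c c⁻¹).Near (1 / ((n : ℝ) + 1)) ζ' := fun n =>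
    hcon _ (by positivity)
  choose z h2 h3 using h1
  choose c hc h2 using h2
  choose c' hc' h3 using h3
  apply hne
  apply sysA_unique hB hB' h h'
  · apply Pnt.ext
    · ext i j
      exact eq_of_near (fun n => (h2 n).P i j) (fun n => (h3 n).P i j)
    · ext i j
      exact eq_of_near (fun n => (h2 n).G i j) (fun n => (h3 n).G i j)
    · funext l i
      exact eq_of_near (fun n => (h2 n).q l i) (fun n => (h3 n).q l i)
    · funext l i
      exact eq_of_near (fun n => (h2 n).h l i) (fun n => (h3 n).h l i)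
  · intro i j
    have h4 := (tendsto_of_near fun n => (h2 n).a i).mul (tendsto_of_near fun n => (h2 n).b j)
    have h5 := (tendsto_of_near fun n => (h3 n).a i).mul (tendsto_of_near fun n => (h3 n).b j)
    refine tendsto_nhds_unique h4 (h5.congr fun n => ?_)
    change c' n * (z n).a i * ((c' n)⁻¹ * (z n).b j) = c n * (z n).a i * ((c n)⁻¹ * (z n).b j)
    have h6 := hc n
    have h7 := hc' n
    field_simp

theorem sep2 {ζ ζ' : Qnt ℂ π I J} (hne : ζ ≠ ζ') :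
    ∃ δ : ℝ, 0 < δ ∧ ∀ (ε : ℂ) (z : Qnt ℂ π I J), ¬ ((z.scale 1 ε⁻¹).Near δ ζ ∧
      (z.scale 1 ε⁻¹).Near δ ζ') := by
  by_contra hcon
  push Not at hcon
  have h1 : ∀ n : ℕ, ∃ (ε : ℂ) (z : Qnt ℂ π I J), (z.scale 1 ε⁻¹).Near (1 / ((n : ℝ) + 1)) ζ ∧
      (z.scale 1 ε⁻¹).Near (1 / ((n : ℝ) + 1)) ζ' := fun n => hcon _ (by positivity)
  choose ε z h2 h3 using h1
  apply hne
  apply Qnt.ext
  · ext i j
    exact eq_of_near (fun n => (h2 n).P i j) (fun n => (h3 n).P i j)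
  · ext i j
    exact eq_of_near (fun n => (h2 n).G i j) (fun n => (h3 n).G i j)
  · funext l i
    exact eq_of_near (fun n => (h2 n).q l i) (fun n => (h3 n).q l i)
  · funext l i
    exact eq_of_near (fun n => (h2 n).h l i) (fun n => (h3 n).h l i)
  · funext i
    exact eq_of_near (fun n => (h2 n).a i) (fun n => (h3 n).a i)
  · funext i
    exact eq_of_near (fun n => (h2 n).b i) (fun n => (h3 n).b i)

theorem sep3 {A : Finset I} {i₁ : I} {u : Matrix I J ℂ} {v : π → I → ℂ}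
    (hB : ∃ i, i ∉ A ∧ i ∉ Set.range p) {ζ ζ' : Qnt ℂ π I J} (h : SysA r p S A i₁ u v ζ) :
    ∃ δ : ℝ, 0 < δ ∧ ∀ (ε : ℂ) (z : Qnt ℂ π I J), ε ≠ 0 → ‖ε‖ < δ →
      ¬ ((∃ c : ℂ, c ≠ 0 ∧ (z.scale c c⁻¹).Near δ ζ) ∧ (z.scale 1 ε⁻¹).Near δ ζ') := by
  by_contra hcon
  push Not at hcon
  have h1 : ∀ n : ℕ, ∃ (ε : ℂ) (z : Qnt ℂ π I J), ε ≠ 0 ∧ ‖ε‖ < 1 / ((n : ℝ) + 1) ∧
      (∃ c : ℂ, c ≠ 0 ∧ (z.scale c c⁻¹).Near (1 / ((n : ℝ) + 1)) ζ) ∧
      (z.scale 1 ε⁻¹).Near (1 / ((n : ℝ) + 1)) ζ' := fun n => hcon _ (by positivity)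
  choose ε z hε0 hε h2 h3 using h1
  choose c hc h2 using h2
  obtain ⟨j, hj1, hj2⟩ := hB
  have hj := h.suppb j hj1 hj2
  have h4 := (tendsto_of_near fun n => (h2 n).a i₁).mul (tendsto_of_near fun n => (h2 n).b j)
  have h5 := (tendsto_of_near fun n => (h3 n).a i₁).mul (tendsto_of_near fun n => (h3 n).b j)
  have h6 : Tendsto ε atTop (𝓝 0) := tendsto_of_near fun n => by rw [sub_zero]; exact hε n
  have h7 := h6.mul h5
  rw [zero_mul] at h7
  have h8 : ζ.a i₁ * ζ.b j = 0 := by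
    refine tendsto_nhds_unique h4 (h7.congr fun n => ?_)
    change ε n * (1 * (z n).a i₁ * ((ε n)⁻¹ * (z n).b j)) =
      c n * (z n).a i₁ * ((c n)⁻¹ * (z n).b j)
    have h6 := hc n
    have h7 := hε0 n
    field_simp
  rw [h.one', one_mul] at h8
  exact hj h8

end Pool.EU.TB
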