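import Pool.Agent.EU.TBN
import Pool.Agent.EU.TB5
import Pool.Agent.EU.TB7
import Pool.Agent.EU.TB6
import Pool.Agent.EU.TBG
import Pool.Agent.EU.TBSep
import Pool.Agent.EU.TB8
import Pool.Agent.ML61.Place
import Pool.Agent.ML61.Fib

/-!
# The number of solutions is the number of the limit points
-/

set_option autoImplicit false
set_option linter.unusedSectionVars false

namespace Pool.EU.TB

open Matrix Pool.ML

variable {π I J : Type} [Fintype π] [Fintype I] [Fintype J] [LinearOrder π] [DecidableEq I]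
  [DecidableEq J] {p : π → I} {S : π → Finset I} {T : Finset I} {i₀ : I} {r : ℕ}

/-- All the coordinates. -/
noncomputable def Qnt.coords (z : Qnt ℂ π I J) : Finset ℂ :=
  open Classical in
  (Finset.univ.image fun x : I × J => z.P x.1 x.2) ∪ (Finset.univ.image fun x : I × J =>
    z.G x.1 x.2) ∪ (Finset.univ.image fun x : π × I => z.q x.1 x.2) ∪
    (Finset.univ.image fun x : π × I => z.h x.1 x.2) ∪ Finset.univ.image z.a ∪
    Finset.univ.image z.b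

theorem Qnt.all_of_coords {C : ℂ → Prop} {z : Qnt ℂ π I J} (h : ∀ c ∈ z.coords, C c) :
    z.All C := by
  classical
  refine ⟨⟨fun i j => h _ ?_, fun i j => h _ ?_, fun l i => h _ ?_, fun l i => h _ ?_⟩,
    fun i => h _ ?_, fun i => h _ ?_⟩ <;> simp only [Qnt.coords, Finset.mem_union]
  · exact Or.inl (Or.inl (Or.inl (Or.inl (Or.inl
      (Finset.mem_image_of_mem (fun x : I × J => z.P x.1 x.2) (Finset.mem_univ (i, j)))))))
  · exact Or.inl (Or.inl (Or.inl (Or.inl (Or.inr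
      (Finset.mem_image_of_mem (fun x : I × J => z.G x.1 x.2) (Finset.mem_univ (i, j)))))))
  · exact Or.inl (Or.inl (Or.inl (Or.inr
      (Finset.mem_image_of_mem (fun x : π × I => z.q x.1 x.2) (Finset.mem_univ (l, i))))))
  · exact Or.inl (Or.inl (Or.inr
      (Finset.mem_image_of_mem (fun x : π × I => z.h x.1 x.2) (Finset.mem_univ (l, i)))))
  · exact Or.inl (Or.inr (Finset.mem_image_of_mem _ (Finset.mem_univ i)))
  · exact Or.inr (Finset.mem_image_of_mem _ (Finset.mem_univ i))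

theorem Qnt.coords_of_all {C : ℂ → Prop} {z : Qnt ℂ π I J} (h : z.All C) :
    ∀ c ∈ z.coords, C c := by
  classical
  intro c hc
  simp only [Qnt.coords, Finset.mem_union, Finset.mem_image, Finset.mem_univ, true_and] at hc
  rcases hc with ((((⟨x, rfl⟩ | ⟨x, rfl⟩) | ⟨x, rfl⟩) | ⟨x, rfl⟩) | ⟨x, rfl⟩) | ⟨x, rfl⟩
  · exact h.pnt.P _ _
  · exact h.pnt.G _ _
  · exact h.pnt.q _ _
  · exact h.pnt.h _ _
  · exact h.a _
  · exact h.b _

/-- The point with coordinates in a subfield. -/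
def Qnt.sub {k : Type} [Field k] [Algebra k ℂ] (F : IntermediateField k ℂ) (z : Qnt ℂ π I J)
    (h : z.All (· ∈ F)) : Qnt F π I J where
  P := Matrix.of fun i j => ⟨z.P i j, h.pnt.P i j⟩
  G := Matrix.of fun i j => ⟨z.G i j, h.pnt.G i j⟩
  q := fun l i => ⟨z.q l i, h.pnt.q l i⟩
  h := fun l i => ⟨z.h l i, h.pnt.h l i⟩
  a := fun i => ⟨z.a i, h.a i⟩
  b := fun i => ⟨z.b i, h.b i⟩

theorem Qnt.sub_map {k : Type} [Field k] [Algebra k ℂ] (F : IntermediateField k ℂ)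
    (z : Qnt ℂ π I J) (h : z.All (· ∈ F)) : (z.sub F h).map (algebraMap F ℂ) = z := rfl

theorem dat1_congr {u : Matrix I J ℂ} {v v' : π → I → ℂ} {w w' : I → ℂ}
    (hv : ∀ l, ∀ i ∈ S l, i ≠ p l → v l i = v' l i) (hw : ∀ i ∈ T, i ≠ i₀ → w i = w' i) :
    dat1 p S T i₀ u v w = dat1 p S T i₀ u v' w' := by
  funext x
  rcases x with (x | ⟨⟨l, i⟩, h1, h2⟩) | ⟨i, h1, h2⟩
  · rfl
  · exact hv l i h1 h2
  · exact hw i h1 h2

theorem dat0_congr {u : Matrix I J ℂ} {v v' : π → I → ℂ}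
    (hv : ∀ l, ∀ i ∈ S l, i ≠ p l → v l i = v' l i) :
    dat0 p S u v = dat0 p S u v' := by
  funext x
  rcases x with x | ⟨⟨l, i⟩, h1, h2⟩
  · rfl
  · exact hv l i h1 h2

theorem Gen1.gen0 {u : Matrix I J ℂ} {v : π → I → ℂ} {w : I → ℂ} (hg : Gen1 p S T i₀ u v w) :
    Gen0 p S u v :=
  hg.comp Sum.inl Sum.inl_injective

/-- Multiplying the exponents by a transcendental number. -/
theorem Gen1.smul {u : Matrix I J ℂ} {v : π → I → ℂ} {w : I → ℂ} (hg : Gen1 p S T i₀ u v w)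
    (ε : ℂ) (hε0 : ε ≠ 0) (hε : ε ∉ acl (Set.range (dat1 p S T i₀ u v w))) :
    Gen1 p S T i₀ u v (fun i => ε * w i) := by
  have h1 : AlgebraicIndependent ℚ (fun o : Option (DQ J p S T i₀) =>
      o.elim ε (dat1 p S T i₀ u v w)) := by
    rw [AlgebraicIndependent.option_iff]
    refine ⟨hg, ?_⟩
    intro h
    apply hε
    rw [mem_acl']
    exact h
  have h2 := algInd_of_acl _ (fun o : Option (DQ J p S T i₀) =>
      o.elim ε (dat1 p S T i₀ u v (fun i => ε * w i))) h1 ?_ le_rfl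
  · exact h2.1.comp some (Option.some_injective _)
  · have hsub : ∀ o : Option (DQ J p S T i₀), o.elim ε (dat1 p S T i₀ u v (fun i => ε * w i)) ∈
        acl (Set.range (fun o : Option (DQ J p S T i₀) =>
          o.elim ε (dat1 p S T i₀ u v (fun i => ε * w i)))) := fun o =>
      subset_acl _ ⟨o, rfl⟩
    rintro (_ | (x | x))
    · exact hsub none
    · exact hsub (some (Sum.inl x))
    · have h3 := hsub none
      have h4 := hsub (some (Sum.inr x))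
      have h5 : w x.1 = (ε * w x.1) / ε := by
        field_simp
      have h6 := IntermediateField.div_mem _ h4 h3
      change w x.1 ∈ _
      rw [h5]
      exact h6

theorem Shape.sub (h : Shape p S T i₀ r J) {A : Finset I} (hA : A ⊆ T) {i₁ : I} (hi : i₁ ∈ A) :
    Shape p S A i₁ r J where
  adm := h.adm
  nmem i hi' := h.nmem i (hA hi')
  mem := hi
  lt := h.lt
  ltI := h.ltI
  le := h.le

section upper

variable {K : Type} [Field K] [Algebra K ℂ]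

/-- `τ` is the limit of `z`. -/
def Lim (p : π → I) (S : π → Finset I) (T : Finset I) (i₀ : I) (r : ℕ) (i₁ : Finset I → I)
    (e : PowerSeries K) (u : Matrix I J K) (v : π → I → K) (w : I → K)
    (z : Qnt (LaurentSeries K) π I J) :
    Qnt ℂ π I J ⊕ (Σ _ : Finset I, Qnt ℂ π I J) → Prop
  | Sum.inl ζ => ∃ ζ' : Qnt K π I J, ζ'.map (algebraMap K ℂ) = ζ ∧
      SysQ 0 r p S T i₀ u v w ζ' ∧ (z.scale 1 (ofPS e)⁻¹).Red ζ'
  | Sum.inr ⟨A, ζ⟩ => A ⊆ T ∧ A.Nonempty ∧ (∃ i, i ∉ A ∧ i ∉ Set.range p) ∧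
      ∃ ζ' : Qnt K π I J, ζ'.map (algebraMap K ℂ) = ζ ∧ SysA r p S A (i₁ A) u v ζ' ∧
        ∃ c : LaurentSeries K, c ≠ 0 ∧ (z.scale c c⁻¹).Red ζ'

theorem exists_lim (h : Shape p S T i₀ r J) (i₁ : Finset I → I)
    (hi₁ : ∀ A : Finset I, A.Nonempty → i₁ A ∈ A) (e : PowerSeries K)
    (he0 : e ≠ 0) (he : PowerSeries.constantCoeff e = 0)
    (u : Matrix I J K) (v : π → I → K) (w : I → K)
    (hg : Gen1 p S T i₀ (u.map (algebraMap K ℂ)) (fun l i => algebraMap K ℂ (v l i))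
      (fun i => algebraMap K ℂ (w i)))
    (z : Qnt (LaurentSeries K) π I J)
    (hz : SysQ 1 r p S T i₀ (u.map HahnSeries.C) (fun l i => HahnSeries.C (v l i))
      (fun i => ofPS e * HahnSeries.C (w i)) z) : ∃ τ, Lim p S T i₀ r i₁ e u v w z τ := by
  rcases tb5 h e he0 he u v w hg z hz with ⟨A, hA, hne, hB, h1⟩ | ⟨ζ, h1, h2⟩
  · obtain ⟨c, hc, ζ, h2, h3⟩ := h1 (i₁ A) (hi₁ A hne)
    exact ⟨Sum.inr ⟨A, ζ.map (algebraMap K ℂ)⟩, hA, hne, hB, ζ, rfl, h3, c, hc, h2⟩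
  · exact ⟨Sum.inl (ζ.map (algebraMap K ℂ)), ζ, rfl, h2, h1⟩

theorem lim_unique (h : Shape p S T i₀ r J) (i₁ : Finset I → I)
    (hi₁ : ∀ A : Finset I, A.Nonempty → i₁ A ∈ A) (e : PowerSeries K)
    (he0 : e ≠ 0) (he : PowerSeries.constantCoeff e = 0)
    (u : Matrix I J K) (v : π → I → K) (w : I → K)
    (hg : Gen1 p S T i₀ (u.map (algebraMap K ℂ)) (fun l i => algebraMap K ℂ (v l i))
      (fun i => algebraMap K ℂ (w i)))
    (z z' : Qnt (LaurentSeries K) π I J)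
    (hz : SysQ 1 r p S T i₀ (u.map HahnSeries.C) (fun l i => HahnSeries.C (v l i))
      (fun i => ofPS e * HahnSeries.C (w i)) z)
    (hz' : SysQ 1 r p S T i₀ (u.map HahnSeries.C) (fun l i => HahnSeries.C (v l i))
      (fun i => ofPS e * HahnSeries.C (w i)) z')
    (τ : Qnt ℂ π I J ⊕ (Σ _ : Finset I, Qnt ℂ π I J))
    (hτ : Lim p S T i₀ r i₁ e u v w z τ) (hτ' : Lim p S T i₀ r i₁ e u v w z' τ) : z = z' := by
  have hinj := Qnt.map_inj (π := π) (I := I) (J := J) (algebraMap K ℂ) (algebraMap K ℂ).injective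
  rcases τ with ζ | ⟨A, ζ⟩
  · obtain ⟨ζ₁, h1, h2, h3⟩ := hτ
    obtain ⟨ζ₂, h1', h2', h3'⟩ := hτ'
    have h4 : ζ₁ = ζ₂ := hinj (h1.trans h1'.symm)
    subst h4
    exact tb6b h e he0 he u v w hg z z' hz hz' ζ₁ h2 h3 h3'
  · obtain ⟨hA, hne, hB, ζ₁, h1, h2, c, hc, h3⟩ := hτ
    obtain ⟨-, -, -, ζ₂, h1', h2', c', hc', h3'⟩ := hτ'
    have h4 : ζ₁ = ζ₂ := hinj (h1.trans h1'.symm)
    subst h4
    exact tb6a h e he u v w hg.gen0 z z' hz hz' A hA (i₁ A) (hi₁ A hne) hB c c' hc hc' ζ₁ h2 h3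
      h3'

end upper

open Classical in
/-- The limit points. -/
noncomputable def limSet (p : π → I) (S : π → Finset I) (T : Finset I) (i₀ : I) (r : ℕ)
    (i₁ : Finset I → I) (u : Matrix I J ℂ) (v : π → I → ℂ) (w : I → ℂ) :
    Finset (Qnt ℂ π I J ⊕ (Σ _ : Finset I, Qnt ℂ π I J)) :=
  (if h : {z | SysQ 0 r p S T i₀ u v w z}.Finite then h.toFinset else ∅).disjSum
    ((T.powerset.filter (fun A => A.Nonempty ∧ ∃ i, i ∉ A ∧ i ∉ Set.range p)).sigma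
      fun A => if h : {z | SysA r p S A (i₁ A) u v z}.Finite then h.toFinset else ∅)

section count

variable (h : Shape p S T i₀ r J) (u : Matrix I J ℂ) (v : π → I → ℂ) (w : I → ℂ)
    (hg : Gen1 p S T i₀ u v w) (i₁ : Finset I → I) (hi₁ : ∀ A : Finset I, A.Nonempty → i₁ A ∈ A)

include h hg hi₁

theorem mem_limSet_inl (ζ : Qnt ℂ π I J) :
    Sum.inl ζ ∈ limSet p S T i₀ r i₁ u v w ↔ SysQ 0 r p S T i₀ u v w ζ := by
  rw [limSet, Finset.inl_mem_disjSum, dif_pos (sysQ_finite h u v w hg 0 (Or.inl rfl)),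
    Set.Finite.mem_toFinset]
  rfl

theorem mem_limSet_inr (A : Finset I) (ζ : Qnt ℂ π I J) :
    Sum.inr ⟨A, ζ⟩ ∈ limSet p S T i₀ r i₁ u v w ↔ (A ⊆ T ∧ A.Nonempty ∧
      ∃ i, i ∉ A ∧ i ∉ Set.range p) ∧ SysA r p S A (i₁ A) u v ζ := by
  rw [limSet, Finset.inr_mem_disjSum, Finset.mem_sigma, Finset.mem_filter, Finset.mem_powerset]
  refine and_congr_right fun hA => ?_
  rw [dif_pos (sysA_finite (h.sub hA.1 (hi₁ A hA.2.1)) u v hg.gen0 hA.2.2),
    Set.Finite.mem_toFinset]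
  rfl

theorem card_limSet : (limSet p S T i₀ r i₁ u v w).card =
    {z | SysQ 0 r p S T i₀ u v w z}.ncard +
      ∑ A ∈ T.powerset.filter (fun A => A.Nonempty ∧ ∃ i, i ∉ A ∧ i ∉ Set.range p),
        {z | SysA r p S A (i₁ A) u v z}.ncard := by
  classical
  rw [limSet, Finset.card_disjSum, Finset.card_sigma,
    dif_pos (sysQ_finite h u v w hg 0 (Or.inl rfl)), ← Set.ncard_eq_toFinset_card _ _]
  congr 1
  have hset : ∀ (s t : Finset (Finset I)), s = t → ∀ (f g : Finset I → ℕ),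
      (∀ A ∈ t, f A = g A) → ∑ A ∈ s, f A = ∑ A ∈ t, g A := by
    rintro s t rfl f g hfg
    exact Finset.sum_congr rfl hfg
  refine hset _ _ ?_ _ _ ?_
  · ext A
    simp
  · intro A hA
    rw [Finset.mem_filter, Finset.mem_powerset] at hA
    rw [dif_pos (sysA_finite (h.sub hA.1 (hi₁ A hA.2.1)) u v hg.gen0 hA.2.2),
      ← Set.ncard_eq_toFinset_card _ _]

/-- The upper bound. -/
theorem count_le (ε : ℂ) (hε0 : ε ≠ 0) (hε : ε ∉ acl (Set.range (dat1 p S T i₀ u v w))) :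
    {z | SysQ 1 r p S T i₀ u v (fun i => ε * w i) z}.ncard ≤
      (limSet p S T i₀ r i₁ u v w).card := by
  classical
  set D : Set ℂ := Set.range (dat1 p S T i₀ u v w) with hD
  have hcl := isAlgClosed_acl D
  have hgε := hg.smul ε hε0 hε
  have hfin := sysQ_finite h u v (fun i => ε * w i) hgε 1 (Or.inr rfl)
  -- the data in the field of constants
  have hu : ∀ i j, u i j ∈ acl D := fun i j => subset_acl D ⟨Sum.inl (Sum.inl (i, j)), rfl⟩
  have hv : ∀ l, ∀ i ∈ S l, i ≠ p l → v l i ∈ acl D := fun l i h1 h2 =>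
    subset_acl D ⟨Sum.inl (Sum.inr ⟨(l, i), h1, h2⟩), rfl⟩
  have hw : ∀ i ∈ T, i ≠ i₀ → w i ∈ acl D := fun i h1 h2 =>
    subset_acl D ⟨Sum.inr ⟨i, h1, h2⟩, rfl⟩
  let uK : Matrix I J (acl D) := Matrix.of fun i j => ⟨u i j, hu i j⟩
  let vK : π → I → acl D := fun l i => if h : i ∈ S l ∧ i ≠ p l then ⟨v l i, hv l i h.1 h.2⟩ else 0
  let wK : I → acl D := fun i => if h : i ∈ T ∧ i ≠ i₀ then ⟨w i, hw i h.1 h.2⟩ else 0
  have huK : uK.map (algebraMap (acl D) ℂ) = u := rfl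
  have hvK : ∀ l, ∀ i ∈ S l, i ≠ p l → v l i = algebraMap (acl D) ℂ (vK l i) := by
    intro l i h1 h2
    simp only [vK]
    rw [dif_pos ⟨h1, h2⟩]
    rfl
  have hwK : ∀ i ∈ T, i ≠ i₀ → w i = algebraMap (acl D) ℂ (wK i) := by
    intro i h1 h2
    simp only [wK]
    rw [dif_pos ⟨h1, h2⟩]
    rfl
  have hgK : Gen1 p S T i₀ (uK.map (algebraMap (acl D) ℂ))
      (fun l i => algebraMap (acl D) ℂ (vK l i)) (fun i => algebraMap (acl D) ℂ (wK i)) := by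
    rw [Gen1, huK, ← dat1_congr hvK hwK]
    exact hg
  -- the place
  have htr : Transcendental (acl D) ε := transcendental_of_notMem_acl hε
  have hDε : acl (Set.range (dat1 p S T i₀ u v (fun i => ε * w i))) ≤ acl (insert ε D) := by
    apply acl_le
    have hDD : acl D ≤ acl (insert ε D) := acl_mono (Set.subset_insert _ _)
    have hεD : ε ∈ acl (insert ε D) := subset_acl _ (Set.mem_insert _ _)
    rintro _ ⟨(x | x), rfl⟩
    · exact hDD (subset_acl D ⟨Sum.inl x, rfl⟩)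
    · exact (acl (insert ε D)).mul_mem hεD (hDD (subset_acl D ⟨Sum.inr x, rfl⟩))
  obtain ⟨F, φ, hεF, hSF, hC, hord⟩ := exists_place (acl D) ℂ ε htr
    (hfin.toFinset.biUnion Qnt.coords) (by
      intro s hs
      obtain ⟨z, hz, hsz⟩ := Finset.mem_biUnion.mp hs
      have hz' : SysQ 1 r p S T i₀ u v (fun i => ε * w i) z := hfin.mem_toFinset.mp hz
      have h1 := Qnt.coords_of_all (sysQ_acl h u v _ hgε 1 (Or.inr rfl) z hz') s hsz
      exact isAlgebraic_adjoin_of_mem_acl (hDε h1))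
  have hall : ∀ z, SysQ 1 r p S T i₀ u v (fun i => ε * w i) z → z.All (· ∈ F) := by
    intro z hz
    exact Qnt.all_of_coords fun c hc => hSF c (Finset.mem_biUnion.mpr
      ⟨z, hfin.mem_toFinset.mpr hz, hc⟩)
  obtain ⟨e, he⟩ := exists_ofPS_of_order (φ ⟨ε, hεF⟩) hord.le
  have he0 : e ≠ 0 := by
    rintro rfl
    rw [map_zero] at he
    rw [← he, HahnSeries.order_zero] at hord
    exact lt_irrefl _ hord
  have hec : PowerSeries.constantCoeff e = 0 := by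
    have h1 := ofPS_coeff e 0
    rw [he, PowerSeries.coeff_zero_eq_constantCoeff_apply] at h1
    rw [← h1]
    exact HahnSeries.coeff_eq_zero_of_lt_order hord
  -- the solution over the Laurent series
  let Φ : {z // SysQ 1 r p S T i₀ u v (fun i => ε * w i) z} → Qnt (LaurentSeries (acl D)) π I J :=
    fun z => (z.1.sub F (hall z.1 z.2)).map φ
  have hΦinj : Function.Injective Φ := by
    intro z z' hzz
    have h1 := Qnt.map_inj φ φ.injective hzz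
    apply Subtype.ext
    have h2 := congrArg (Qnt.map (algebraMap F ℂ)) h1
    exact h2
  have hΦ : ∀ z, SysQ 1 r p S T i₀ (uK.map HahnSeries.C) (fun l i => HahnSeries.C (vK l i))
      (fun i => ofPS e * HahnSeries.C (wK i)) (Φ z) := by
    intro z
    have h1 : SysQ 1 r p S T i₀ u (fun l i => algebraMap (acl D) ℂ (vK l i))
        (fun i => ε * algebraMap (acl D) ℂ (wK i)) z.1 :=
      z.2.congr hvK fun i hi hi' => by rw [hwK i hi hi']
    have h2 : SysQ 1 r p S T i₀ (uK.map (algebraMap (acl D) F))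
        (fun l i => algebraMap (acl D) F (vK l i))
        (fun i => ⟨ε, hεF⟩ * algebraMap (acl D) F (wK i)) (z.1.sub F (hall z.1 z.2)) := by
      rw [SysQ.map' (algebraMap F ℂ), map_one]
      exact h1
    have h3 := (SysQ.map' φ).mp h2
    rw [map_one] at h3
    have h4 : (uK.map (algebraMap (acl D) F)).map φ = uK.map HahnSeries.C := by
      ext1 i j
      exact hC _
    have h5 : (fun l i => φ (algebraMap (acl D) F (vK l i))) =
        fun l i => HahnSeries.C (vK l i) := by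
      funext l i
      exact hC _
    have h6 : (fun i => φ (⟨ε, hεF⟩ * algebraMap (acl D) F (wK i))) =
        fun i => ofPS e * HahnSeries.C (wK i) := by
      funext i
      rw [map_mul, hC, he]
    rw [h4, h5, h6] at h3
    exact h3
  -- the count
  have := hfin.fintype
  rw [Set.ncard_eq_toFinset_card _ hfin]
  let R : Qnt ℂ π I J → (Qnt ℂ π I J ⊕ (Σ _ : Finset I, Qnt ℂ π I J)) → Prop := fun z τ =>
    ∃ hz : SysQ 1 r p S T i₀ u v (fun i => ε * w i) z,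
      Lim p S T i₀ r i₁ e uK vK wK (Φ ⟨z, hz⟩) τ
  refine Finset.card_le_card_of_forall_subsingleton R ?_ ?_
  · intro z hz
    have hz' : SysQ 1 r p S T i₀ u v (fun i => ε * w i) z := hfin.mem_toFinset.mp hz
    obtain ⟨τ, hτ⟩ := exists_lim h i₁ hi₁ e he0 hec uK vK wK hgK _ (hΦ ⟨z, hz'⟩)
    refine ⟨τ, ?_, hz', hτ⟩
    rcases τ with ζ | ⟨A, ζ⟩
    · obtain ⟨ζ', rfl, h2, -⟩ := hτ
      rw [mem_limSet_inl h u v w hg i₁ hi₁]
      have h3 := (SysQ.map' (algebraMap (acl D) ℂ)).mp h2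
      rw [map_zero] at h3
      exact h3.congr (fun l i hi hi' => (hvK l i hi hi').symm)
        (fun i hi hi' => (hwK i hi hi').symm)
    · obtain ⟨hA, hne, hB, ζ', rfl, h2, -⟩ := hτ
      rw [mem_limSet_inr h u v w hg i₁ hi₁]
      refine ⟨⟨hA, hne, hB⟩, ?_⟩
      have h3 := (SysA.map' (algebraMap (acl D) ℂ)).mp h2
      exact h3.congr (fun l i hi hi' => (hvK l i hi hi').symm)
  · rintro τ - z ⟨-, hz1, hz2⟩ z' ⟨-, hz1', hz2'⟩
    have h1 := lim_unique h i₁ hi₁ e he0 hec uK vK wK hgK _ _ (hΦ ⟨z, hz1⟩) (hΦ ⟨z', hz1'⟩) τ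
      hz2 hz2'
    exact congrArg Subtype.val (hΦinj h1)

/-- `z` is near `τ`. -/
def NearT (δ : ℝ) (ε : ℂ) (z : Qnt ℂ π I J) :
    Qnt ℂ π I J ⊕ (Σ _ : Finset I, Qnt ℂ π I J) → Prop
  | Sum.inl ζ => (z.scale 1 ε⁻¹).Near δ ζ
  | Sum.inr ⟨_, ζ⟩ => ∃ c : ℂ, c ≠ 0 ∧ (z.scale c c⁻¹).Near δ ζ

omit h u v w hg i₁ hi₁ in
theorem NearT.mono {δ δ' : ℝ} (hδ : δ ≤ δ') {ε : ℂ} {z : Qnt ℂ π I J}
    {τ : Qnt ℂ π I J ⊕ (Σ _ : Finset I, Qnt ℂ π I J)} (hz : NearT δ ε z τ) : NearT δ' ε z τ := by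
  rcases τ with ζ | ⟨A, ζ⟩
  · exact Qnt.Near.mono hδ hz
  · obtain ⟨c, hc, h1⟩ := hz
    exact ⟨c, hc, h1.mono hδ⟩

omit h u v w hg i₁ hi₁ in
theorem exists_common {X : Type} (s : Finset X) (P : X → ℝ → Prop)
    (hmono : ∀ x δ δ', δ ≤ δ' → P x δ' → P x δ) (hs : ∀ x ∈ s, ∃ δ, 0 < δ ∧ P x δ) :
    ∃ δ, 0 < δ ∧ ∀ x ∈ s, P x δ := by
  classical
  induction s using Finset.induction_on with
  | empty => exact ⟨1, one_pos, fun x hx => absurd hx (Finset.notMem_empty x)⟩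
  | insert a s ha ih =>
    obtain ⟨δ, h1, h2⟩ := ih fun x hx => hs x (Finset.mem_insert_of_mem hx)
    obtain ⟨δ', h1', h2'⟩ := hs a (Finset.mem_insert_self a s)
    refine ⟨min δ δ', lt_min h1 h1', fun x hx => ?_⟩
    rcases Finset.mem_insert.mp hx with rfl | hx
    · exact hmono _ _ _ (min_le_right _ _) h2'
    · exact hmono _ _ _ (min_le_left _ _) (h2 x hx)

theorem sepT (τ τ' : Qnt ℂ π I J ⊕ (Σ _ : Finset I, Qnt ℂ π I J))
    (hτ : τ ∈ limSet p S T i₀ r i₁ u v w) (hτ' : τ' ∈ limSet p S T i₀ r i₁ u v w)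
    (hne : τ ≠ τ') : ∃ δ : ℝ, 0 < δ ∧ ∀ (ε : ℂ) (z : Qnt ℂ π I J), ε ≠ 0 → ‖ε‖ < δ →
      ¬ (NearT δ ε z τ ∧ NearT δ ε z τ') := by
  rcases τ with ζ | ⟨A, ζ⟩ <;> rcases τ' with ζ' | ⟨A', ζ'⟩
  · obtain ⟨δ, h1, h2⟩ := sep2 (ζ := ζ) (ζ' := ζ') (fun h => hne (congrArg Sum.inl h))
    exact ⟨δ, h1, fun ε z _ _ h3 => h2 ε z h3⟩
  · rw [mem_limSet_inr h u v w hg i₁ hi₁] at hτ'
    obtain ⟨δ, h1, h2⟩ := sep3 (ζ' := ζ) hτ'.1.2.2 hτ'.2
    exact ⟨δ, h1, fun ε z h3 h4 h5 => h2 ε z h3 h4 ⟨h5.2, h5.1⟩⟩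
  · rw [mem_limSet_inr h u v w hg i₁ hi₁] at hτ
    obtain ⟨δ, h1, h2⟩ := sep3 (ζ' := ζ') hτ.1.2.2 hτ.2
    exact ⟨δ, h1, fun ε z h3 h4 h5 => h2 ε z h3 h4 ⟨h5.1, h5.2⟩⟩
  · rw [mem_limSet_inr h u v w hg i₁ hi₁] at hτ hτ'
    obtain ⟨δ, h1, h2⟩ := sep1 hτ.1.2.2 hτ'.1.2.2 hτ.2 hτ'.2 (by
      rintro ⟨rfl, rfl⟩
      exact hne rfl)
    exact ⟨δ, h1, fun ε z _ _ h5 => h2 z h5⟩

/-- The lower bound. -/
theorem le_count : ∃ ε : ℂ, ε ≠ 0 ∧ ε ∉ acl (Set.range (dat1 p S T i₀ u v w)) ∧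
    (limSet p S T i₀ r i₁ u v w).card ≤
      {z | SysQ 1 r p S T i₀ u v (fun i => ε * w i) z}.ncard := by
  classical
  set L := limSet p S T i₀ r i₁ u v w with hL
  obtain ⟨δ, hδ, hsep⟩ := exists_common (L ×ˢ L) (fun x δ => x.1 ≠ x.2 →
    ∀ (ε : ℂ) (z : Qnt ℂ π I J), ε ≠ 0 → ‖ε‖ < δ → ¬ (NearT δ ε z x.1 ∧ NearT δ ε z x.2))
    (by
      intro x δ δ' hδ h1 hne ε z hε0 hε h2
      exact h1 hne ε z hε0 (hε.trans_le hδ) ⟨h2.1.mono hδ, h2.2.mono hδ⟩)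
    (by
      rintro ⟨τ, τ'⟩ hx
      rw [Finset.mem_product] at hx
      by_cases hne : τ = τ'
      · exact ⟨1, one_pos, fun h1 => absurd hne h1⟩
      · obtain ⟨δ, h1, h2⟩ := sepT h u v w hg i₁ hi₁ τ τ' hx.1 hx.2 hne
        exact ⟨δ, h1, fun _ => h2⟩)
  obtain ⟨η, hη, hex⟩ := exists_common L (fun τ η => ∀ ε : ℂ, ε ≠ 0 → ‖ε‖ < η →
    ∃ z : Qnt ℂ π I J, SysQ 1 r p S T i₀ u v (fun i => ε * w i) z ∧ NearT δ ε z τ)
    (by
      intro τ η η' hη' h1 ε hε0 hε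
      exact h1 ε hε0 (hε.trans_le hη'))
    (by
      rintro (ζ | ⟨A, ζ⟩) hτ
      · rw [hL, mem_limSet_inl h u v w hg i₁ hi₁] at hτ
        obtain ⟨η, h1, h2⟩ := tb7b h u v w hg ζ hτ δ hδ
        exact ⟨η, h1, h2⟩
      · rw [hL, mem_limSet_inr h u v w hg i₁ hi₁] at hτ
        obtain ⟨η, h1, h2⟩ := tb7a h u v w hg A hτ.1.1 (i₁ A) (hi₁ A hτ.1.2.1) hτ.1.2.2 ζ hτ.2 δ hδ
        exact ⟨η, h1, h2⟩)
  obtain ⟨ε, hε0, hεn, hε⟩ := exists_small_transc (Set.range (dat1 p S T i₀ u v w))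
    (Set.countable_range _) (min δ η) (lt_min hδ hη)
  refine ⟨ε, hε0, hε, ?_⟩
  have hgε := hg.smul ε hε0 hε
  have hfin := sysQ_finite h u v (fun i => ε * w i) hgε 1 (Or.inr rfl)
  rw [Set.ncard_eq_toFinset_card _ hfin]
  refine Finset.card_le_card_of_forall_subsingleton (fun τ z => NearT δ ε z τ) ?_ ?_
  · intro τ hτ
    obtain ⟨z, hz1, hz2⟩ := hex τ hτ ε hε0 (hεn.trans_le (min_le_right _ _))
    exact ⟨z, hfin.mem_toFinset.mpr hz1, hz2⟩
  · rintro z - τ ⟨hτ, h1⟩ τ' ⟨hτ', h2⟩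
    by_contra hne
    exact hsep (τ, τ') (Finset.mk_mem_product hτ hτ') hne ε z hε0
      (hεn.trans_le (min_le_left _ _)) ⟨h1, h2⟩

/-- the count for one `T` (`i₁ A ∈ A` any choice of the normalisation) -/
theorem tb8 :
    {z | SysQ 1 r p S T i₀ u v w z}.ncard = {z | SysQ 0 r p S T i₀ u v w z}.ncard +
      ∑ A ∈ T.powerset.filter (fun A => A.Nonempty ∧ ∃ i, i ∉ A ∧ i ∉ Set.range p),
        {z | SysA r p S A (i₁ A) u v z}.ncard := by
  obtain ⟨ε, hε0, hε, h1⟩ := le_count h u v w hg i₁ hi₁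
  have h2 := count_le h u v w hg i₁ hi₁ ε hε0 hε
  rw [← card_limSet h u v w hg i₁ hi₁, sysQ_ncard_eq u u v v w (fun i => ε * w i) hg
    (hg.smul ε hε0 hε)]
  exact le_antisymm h2 h1

end count

end Pool.EU.TB
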