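import Pool.Agent.EU.TBR
import Pool.Agent.EU.Aut

/-!
# The numbers of solutions do not depend on the generic data
-/

set_option autoImplicit false
set_option linter.unusedSectionVars false

namespace Pool.EU.TB

open Matrix Pool.ML

section congr

variable {π I J : Type} [Fintype π] [Fintype I] [Fintype J] [DecidableEq π] [DecidableEq I]
  [DecidableEq J] {p : π → I} {S : π → Finset I} {T : Finset I} {i₀ : I} {r : ℕ} {Ω : Type}
  [Field Ω]

theorem Sys.congr {u : Matrix I J Ω} {v v' : π → I → Ω} {z : Pnt Ω π I J}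
    (hv : ∀ l, ∀ i ∈ S l, i ≠ p l → v l i = v' l i) (hz : Sys r p S u v z) :
    Sys r p S u v' z :=
  { hz with vq := fun l i hi hi' => (hz.vq l i hi hi').trans (by rw [hv l i hi hi']) }

theorem SysQ.congr {c : Ω} {u : Matrix I J Ω} {v v' : π → I → Ω} {w w' : I → Ω}
    {z : Qnt Ω π I J} (hv : ∀ l, ∀ i ∈ S l, i ≠ p l → v l i = v' l i)
    (hw : ∀ i ∈ T, i ≠ i₀ → w i = w' i) (hz : SysQ c r p S T i₀ u v w z) :
    SysQ c r p S T i₀ u v' w' z :=
  { hz with
    vq := fun l i hi hi' => (hz.vq l i hi hi').trans (by rw [hv l i hi hi'])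
    vq' := fun i hi hi' => (hz.vq' i hi hi').trans (by rw [hw i hi hi']) }

theorem SysA.congr {u : Matrix I J Ω} {v v' : π → I → Ω}
    {z : Qnt Ω π I J} (hv : ∀ l, ∀ i ∈ S l, i ≠ p l → v l i = v' l i)
    (hz : SysA r p S T i₀ u v z) : SysA r p S T i₀ u v' z :=
  { hz.toSysQ.congr hv (fun _ _ _ => rfl) with
    suppa := hz.suppa
    suppb := hz.suppb }

end congr

section aut

variable {π I J : Type} [Fintype π] [Fintype I] [Fintype J] [LinearOrder π] [DecidableEq I]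
  [DecidableEq J] {p : π → I} {S : π → Finset I} {T : Finset I} {i₀ : I} {r : ℕ}

theorem Pnt.map_map' {Ω Ω' Ω'' : Type} (f : Ω → Ω') (g : Ω' → Ω'') (z : Pnt Ω π I J) :
    (z.map f).map g = z.map (fun x => g (f x)) := rfl

theorem Qnt.map_map' {Ω Ω' Ω'' : Type} (f : Ω → Ω') (g : Ω' → Ω'') (z : Qnt Ω π I J) :
    (z.map f).map g = z.map (fun x => g (f x)) := rfl

theorem Pnt.map_inj {Ω Ω' : Type} (f : Ω → Ω') (hf : Function.Injective f) :
    Function.Injective (Pnt.map f : Pnt Ω π I J → Pnt Ω' π I J) := by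
  intro z z' h
  have h1 := congrArg Pnt.P h
  have h2 := congrArg Pnt.G h
  have h3 := congrArg Pnt.q h
  have h4 := congrArg Pnt.h h
  apply Pnt.ext
  · ext i j
    exact hf (congrFun (congrFun h1 i) j)
  · ext i j
    exact hf (congrFun (congrFun h2 i) j)
  · funext l i
    exact hf (congrFun (congrFun h3 l) i)
  · funext l i
    exact hf (congrFun (congrFun h4 l) i)

theorem Qnt.map_inj {Ω Ω' : Type} (f : Ω → Ω') (hf : Function.Injective f) :
    Function.Injective (Qnt.map f : Qnt Ω π I J → Qnt Ω' π I J) := by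
  intro z z' h
  have h0 : z.toPnt = z'.toPnt := Pnt.map_inj f hf (congrArg Qnt.toPnt h)
  have h1 := congrArg Qnt.a h
  have h2 := congrArg Qnt.b h
  apply Qnt.ext
  · exact congrArg Pnt.P h0
  · exact congrArg Pnt.G h0
  · exact congrArg Pnt.q h0
  · exact congrArg Pnt.h h0
  · funext i
    exact hf (congrFun h1 i)
  · funext i
    exact hf (congrFun h2 i)

theorem sys_image (u u' : Matrix I J ℂ) (v v' : π → I → ℂ) (σ : ℂ ≃ₐ[ℚ] ℂ)
    (h : ∀ x, σ (dat0 p S u v x) = dat0 p S u' v' x) :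
    {z | Sys r p S u' v' z} = Pnt.map σ '' {z | Sys r p S u v z} := by
  have hu : u.map σ = u' := by
    ext i j
    exact h (Sum.inl (i, j))
  have hv : ∀ l, ∀ i ∈ S l, i ≠ p l → σ (v l i) = v' l i := fun l i hi hi' =>
    h (Sum.inr ⟨(l, i), hi, hi'⟩)
  have key : ∀ z, Sys r p S u v z ↔ Sys r p S u' v' (z.map σ) := by
    intro z
    have h1 := Sys.map' (r := r) (p := p) (S := S) (σ : ℂ →+* ℂ) (u := u) (v := v) (z := z)
    rw [h1]
    have h2 : u.map (σ : ℂ →+* ℂ) = u' := hu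
    rw [h2]
    exact ⟨fun h3 => h3.congr hv, fun h3 => h3.congr fun l i hi hi' => (hv l i hi hi').symm⟩
  ext z
  constructor
  · intro hz
    refine ⟨z.map σ.symm, ?_, ?_⟩
    · change Sys r p S u v (z.map σ.symm)
      rw [key, Pnt.map_map']
      have h2 : (fun x => σ (σ.symm x)) = (id : ℂ → ℂ) := funext fun x => σ.apply_symm_apply x
      rw [h2]
      exact hz
    · rw [Pnt.map_map']
      have h2 : (fun x => σ (σ.symm x)) = (id : ℂ → ℂ) := funext fun x => σ.apply_symm_apply x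
      rw [h2]
      rfl
  · rintro ⟨z', hz', rfl⟩
    exact (key z').mp hz'

theorem sysQ_image (u u' : Matrix I J ℂ) (v v' : π → I → ℂ) (w w' : I → ℂ) (σ : ℂ ≃ₐ[ℚ] ℂ)
    (h : ∀ x, σ (dat1 p S T i₀ u v w x) = dat1 p S T i₀ u' v' w' x) :
    {z | SysQ 1 r p S T i₀ u' v' w' z} = Qnt.map σ '' {z | SysQ 1 r p S T i₀ u v w z} := by
  have hu : u.map σ = u' := by
    ext i j
    exact h (Sum.inl (Sum.inl (i, j)))
  have hv : ∀ l, ∀ i ∈ S l, i ≠ p l → σ (v l i) = v' l i := fun l i hi hi' =>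
    h (Sum.inl (Sum.inr ⟨(l, i), hi, hi'⟩))
  have hw : ∀ i ∈ T, i ≠ i₀ → σ (w i) = w' i := fun i hi hi' => h (Sum.inr ⟨i, hi, hi'⟩)
  have key : ∀ z, SysQ 1 r p S T i₀ u v w z ↔ SysQ 1 r p S T i₀ u' v' w' (z.map σ) := by
    intro z
    have h1 := SysQ.map' (r := r) (p := p) (S := S) (T := T) (i₀ := i₀) (σ : ℂ →+* ℂ) (c := 1)
      (u := u) (v := v) (w := w) (z := z)
    rw [h1]
    have h2 : u.map (σ : ℂ →+* ℂ) = u' := hu
    rw [h2, map_one]
    exact ⟨fun h3 => h3.congr hv hw, fun h3 => h3.congr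
      (fun l i hi hi' => (hv l i hi hi').symm) (fun i hi hi' => (hw i hi hi').symm)⟩
  ext z
  constructor
  · intro hz
    refine ⟨z.map σ.symm, ?_, ?_⟩
    · change SysQ 1 r p S T i₀ u v w (z.map σ.symm)
      rw [key, Qnt.map_map']
      have h2 : (fun x => σ (σ.symm x)) = (id : ℂ → ℂ) := funext fun x => σ.apply_symm_apply x
      rw [h2]
      exact hz
    · rw [Qnt.map_map']
      have h2 : (fun x => σ (σ.symm x)) = (id : ℂ → ℂ) := funext fun x => σ.apply_symm_apply x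
      rw [h2]
      rfl
  · rintro ⟨z', hz', rfl⟩
    exact (key z').mp hz'

theorem sysA_image (u u' : Matrix I J ℂ) (v v' : π → I → ℂ) (σ : ℂ ≃ₐ[ℚ] ℂ)
    (h : ∀ x, σ (dat0 p S u v x) = dat0 p S u' v' x) :
    {z | SysA r p S T i₀ u' v' z} = Qnt.map σ '' {z | SysA r p S T i₀ u v z} := by
  have hu : u.map σ = u' := by
    ext i j
    exact h (Sum.inl (i, j))
  have hv : ∀ l, ∀ i ∈ S l, i ≠ p l → σ (v l i) = v' l i := fun l i hi hi' =>
    h (Sum.inr ⟨(l, i), hi, hi'⟩)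
  have key : ∀ z, SysA r p S T i₀ u v z ↔ SysA r p S T i₀ u' v' (z.map σ) := by
    intro z
    have h1 := SysA.map' (r := r) (p := p) (S := S) (T := T) (i₀ := i₀) (σ : ℂ →+* ℂ)
      (u := u) (v := v) (z := z)
    rw [h1]
    have h2 : u.map (σ : ℂ →+* ℂ) = u' := hu
    rw [h2]
    exact ⟨fun h3 => h3.congr hv, fun h3 => h3.congr fun l i hi hi' => (hv l i hi hi').symm⟩
  ext z
  constructor
  · intro hz
    refine ⟨z.map σ.symm, ?_, ?_⟩
    · change SysA r p S T i₀ u v (z.map σ.symm)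
      rw [key, Qnt.map_map']
      have h2 : (fun x => σ (σ.symm x)) = (id : ℂ → ℂ) := funext fun x => σ.apply_symm_apply x
      rw [h2]
      exact hz
    · rw [Qnt.map_map']
      have h2 : (fun x => σ (σ.symm x)) = (id : ℂ → ℂ) := funext fun x => σ.apply_symm_apply x
      rw [h2]
      rfl
  · rintro ⟨z', hz', rfl⟩
    exact (key z').mp hz'

theorem sys_ncard_eq (u u' : Matrix I J ℂ) (v v' : π → I → ℂ) (hg : Gen0 p S u v)
    (hg' : Gen0 p S u' v') :
    {z | Sys r p S u v z}.ncard = {z | Sys r p S u' v' z}.ncard := by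
  obtain ⟨σ, hσ⟩ := exists_autom_family _ _ hg hg'
  rw [sys_image u u' v v' σ hσ, Set.ncard_image_of_injective _ (Pnt.map_inj σ σ.injective)]

theorem sysQ_ncard_eq (u u' : Matrix I J ℂ) (v v' : π → I → ℂ) (w w' : I → ℂ)
    (hg : Gen1 p S T i₀ u v w) (hg' : Gen1 p S T i₀ u' v' w') :
    {z | SysQ 1 r p S T i₀ u v w z}.ncard = {z | SysQ 1 r p S T i₀ u' v' w' z}.ncard := by
  obtain ⟨σ, hσ⟩ := exists_autom_family _ _ hg hg'
  rw [sysQ_image u u' v v' w w' σ hσ, Set.ncard_image_of_injective _ (Qnt.map_inj σ σ.injective)]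

/-- the numbers `M_A` do not depend on the data -/
theorem NA_eq (A : Finset I) (u u' : Matrix I J ℂ) (v v' : π → I → ℂ) (hg : Gen0 p S u v)
    (hg' : Gen0 p S u' v') :
    {z | SysA r p S A i₀ u v z}.ncard = {z | SysA r p S A i₀ u' v' z}.ncard := by
  obtain ⟨σ, hσ⟩ := exists_autom_family _ _ hg hg'
  rw [sysA_image u u' v v' σ hσ, Set.ncard_image_of_injective _ (Qnt.map_inj σ σ.injective)]

/-- The number of solutions for generic data, without extra vector. -/
noncomputable def N0 (J : Type) [Fintype J] [DecidableEq J] (r : ℕ) (p : π → I)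
    (S : π → Finset I) : ℕ :=
  open Classical in
  if h : ∃ d : Matrix I J ℂ × (π → I → ℂ), Gen0 p S d.1 d.2 then
    {z | Sys r p S h.choose.1 h.choose.2 z}.ncard else 0

/-- The number of solutions for generic data, with extra vector. -/
noncomputable def N1 (J : Type) [Fintype J] [DecidableEq J] (r : ℕ) (p : π → I)
    (S : π → Finset I) (T : Finset I) (i₀ : I) : ℕ :=
  open Classical in
  if h : ∃ d : Matrix I J ℂ × (π → I → ℂ) × (I → ℂ), Gen1 p S T i₀ d.1 d.2.1 d.2.2 then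
    {z | SysQ 1 r p S T i₀ h.choose.1 h.choose.2.1 h.choose.2.2 z}.ncard else 0

/-- independence of the data -/
theorem N0_eq (u : Matrix I J ℂ) (v : π → I → ℂ) (hg : Gen0 p S u v) :
    {z | Sys r p S u v z}.ncard = N0 J r p S := by
  have h : ∃ d : Matrix I J ℂ × (π → I → ℂ), Gen0 p S d.1 d.2 := ⟨(u, v), hg⟩
  rw [N0, dif_pos h]
  exact sys_ncard_eq _ _ _ _ hg h.choose_spec

theorem N1_eq (u : Matrix I J ℂ) (v : π → I → ℂ) (w : I → ℂ) (hg : Gen1 p S T i₀ u v w) :
    {z | SysQ 1 r p S T i₀ u v w z}.ncard = N1 J r p S T i₀ := by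
  have h : ∃ d : Matrix I J ℂ × (π → I → ℂ) × (I → ℂ), Gen1 p S T i₀ d.1 d.2.1 d.2.2 :=
    ⟨(u, v, w), hg⟩
  rw [N1, dif_pos h]
  exact sysQ_ncard_eq _ _ _ _ _ _ hg h.choose_spec

end aut

end Pool.EU.TB
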