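import Pool.Agent.EU.TBCount
import Pool.Agent.EU.TB9

/-!
# The step of the tower
-/

set_option autoImplicit false
set_option linter.unusedSectionVars false

namespace Pool.EU.TB

open Matrix Pool.ML

section alt

variable {I : Type} [DecidableEq I]

/-- The alternating sum over the subsets of `U` containing a proper subset vanishes. -/
theorem alt_sum_rel (U A : Finset I) (hAU : A ⊆ U) (hA : A ≠ U) :
    ∑ T ∈ U.powerset.filter (fun T => A ⊆ T), (-1 : ℤ) ^ T.card = 0 := by
  obtain ⟨b, hbU, hb⟩ : ∃ b ∈ U, b ∉ A := by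
    by_contra h
    push Not at h
    exact hA (Finset.Subset.antisymm hAU h)
  refine Finset.sum_involution (fun S _ => if b ∈ S then S.erase b else insert b S) ?_ ?_ ?_ ?_
  · intro S hS
    by_cases h : b ∈ S
    · rw [if_pos h]
      have h1 := Finset.card_erase_add_one h
      rw [← h1, pow_succ]
      ring
    · rw [if_neg h, Finset.card_insert_of_notMem h, pow_succ]
      ring
  · intro S hS h0 h1
    by_cases h : b ∈ S
    · rw [if_pos h] at h1
      exact (Finset.notMem_erase b S) (h1.symm ▸ h)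
    · rw [if_neg h] at h1
      exact h (h1 ▸ Finset.mem_insert_self b S)
  · intro S hS
    rw [Finset.mem_filter, Finset.mem_powerset] at hS ⊢
    by_cases h : b ∈ S
    · rw [if_pos h]
      refine ⟨(Finset.erase_subset b S).trans hS.1, ?_⟩
      intro a ha
      refine Finset.mem_erase.mpr ⟨?_, hS.2 ha⟩
      rintro rfl
      exact hb ha
    · rw [if_neg h]
      exact ⟨Finset.insert_subset hbU hS.1, hS.2.trans (Finset.subset_insert b S)⟩
  · intro S hS
    by_cases h : b ∈ S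
    · rw [if_pos h, if_neg (Finset.notMem_erase b S), Finset.insert_erase h]
    · rw [if_neg h, if_pos (Finset.mem_insert_self b S), Finset.erase_insert h]

/-- The alternating sum of the numbers of solutions, from the numbers of the limits of the two
kinds. -/
theorem tb8_rel {X : Type} (U : Finset I) (X0 : Finset X) (N : Finset I → ℤ)
    (c : X → Finset I → ℤ) (M : Finset I → ℤ) (r : ℤ)
    (hM : ∀ A ⊆ U, M A ≠ 0 → A.Nonempty ∧ A ≠ U)
    (hN : ∀ T ⊆ U, T.Nonempty → N T = ∑ x ∈ X0, c x T + ∑ A ∈ T.powerset, M A)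
    (hc : ∀ x ∈ X0, ∑ T ∈ U.powerset.filter (fun T => T.Nonempty),
      (-1 : ℤ) ^ T.card * c x T = r) :
    ∑ T ∈ U.powerset.filter (fun T => T.Nonempty), (-1 : ℤ) ^ T.card * N T = r * X0.card := by
  have h1 : ∑ T ∈ U.powerset.filter (fun T => T.Nonempty), (-1 : ℤ) ^ T.card * N T =
      ∑ T ∈ U.powerset.filter (fun T => T.Nonempty),
        (-1 : ℤ) ^ T.card * ∑ x ∈ X0, c x T +
      ∑ T ∈ U.powerset.filter (fun T => T.Nonempty),
        (-1 : ℤ) ^ T.card * ∑ A ∈ T.powerset, M A := by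
    rw [← Finset.sum_add_distrib]
    refine Finset.sum_congr rfl fun S hS => ?_
    rw [Finset.mem_filter, Finset.mem_powerset] at hS
    rw [hN S hS.1 hS.2, mul_add]
  rw [h1]
  have h2 : ∑ T ∈ U.powerset.filter (fun T => T.Nonempty),
      (-1 : ℤ) ^ T.card * ∑ x ∈ X0, c x T = r * X0.card := by
    simp only [Finset.mul_sum]
    rw [Finset.sum_comm, Finset.sum_congr rfl hc, Finset.sum_const, nsmul_eq_mul, mul_comm]
  have h3 : ∑ T ∈ U.powerset.filter (fun T => T.Nonempty),
      (-1 : ℤ) ^ T.card * ∑ A ∈ T.powerset, M A = 0 := by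
    have h4 : ∀ T ∈ U.powerset.filter (fun T => T.Nonempty),
        (-1 : ℤ) ^ T.card * ∑ A ∈ T.powerset, M A =
        ∑ A ∈ U.powerset, (-1 : ℤ) ^ T.card * if A ⊆ T then M A else 0 := by
      intro T hT
      rw [Finset.mem_filter, Finset.mem_powerset] at hT
      rw [← Finset.mul_sum, ← Finset.sum_filter]
      congr 1
      refine Finset.sum_congr ?_ fun _ _ => rfl
      ext A
      simp only [Finset.mem_powerset, Finset.mem_filter]
      exact ⟨fun h => ⟨h.trans hT.1, h⟩, fun h => h.2⟩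
    rw [Finset.sum_congr rfl h4, Finset.sum_comm]
    refine Finset.sum_eq_zero fun A hA => ?_
    rw [Finset.mem_powerset] at hA
    by_cases hMA : M A = 0
    · refine Finset.sum_eq_zero fun S _ => ?_
      rw [hMA]
      simp
    · obtain ⟨hA1, hA2⟩ := hM A hA hMA
      have h5 : ∑ T ∈ U.powerset.filter (fun T => T.Nonempty),
          ((-1 : ℤ) ^ T.card * if A ⊆ T then M A else 0) =
          M A * ∑ T ∈ U.powerset.filter (fun T => A ⊆ T), (-1 : ℤ) ^ T.card := by
        rw [Finset.mul_sum, Finset.sum_filter, Finset.sum_filter]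
        refine Finset.sum_congr rfl fun S _ => ?_
        by_cases h6 : A ⊆ S
        · rw [if_pos h6, if_pos h6, if_pos (hA1.mono h6)]
          ring
        · rw [if_neg h6, if_neg h6, mul_zero]
          split_ifs <;> rfl
      rw [h5, alt_sum_rel U A hA hA2, mul_zero]
  rw [h2, h3, add_zero]

end alt

variable {π I J : Type} [Fintype π] [Fintype I] [Fintype J] [LinearOrder π] [DecidableEq I]
  [DecidableEq J] {p : π → I} {S : π → Finset I} {T : Finset I} {i₀ : I} {r : ℕ}

theorem sysQ0_iff {Ω : Type} [Field Ω] (u : Matrix I J Ω) (v : π → I → Ω) (w : I → Ω)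
    (z : Qnt Ω π I J) : SysQ 0 r p S T i₀ u v w z ↔
      Sys r p S u v z.toPnt ∧ Crt z.P T i₀ w z.a z.b := by
  constructor
  · intro hz
    refine ⟨{ hz.toBase with cr := ?_ }, ⟨hz.mem', hz.perp', hz.one', hz.zero', hz.vq'⟩⟩
    have h1 := hz.cr
    rw [zero_smul, add_zero] at h1
    exact h1
  · rintro ⟨h1, h2⟩
    refine { h1.toBase with
      cr := ?_
      mem' := h2.mem
      perp' := h2.perp
      one' := h2.one
      zero' := h2.zero
      vq' := h2.vq }
    rw [zero_smul, add_zero]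
    exact h1.cr

/-- Generic data. -/
theorem exists_gen (p : π → I) (S : π → Finset I) : ∃ (u : Matrix I J ℂ) (v : π → I → ℂ)
    (w : I → ℂ), AlgebraicIndependent ℚ (Sum.elim (dat0 p S u v)
      (fun i : {i : I // i ∉ Set.range p} => w i.1)) := by
  classical
  obtain ⟨y, hy⟩ := exists_algInd ∅ Set.countable_empty (DI J p S ⊕ {i : I // i ∉ Set.range p})
  have hyQ : AlgebraicIndependent ℚ y := hy.restrictScalars (algebraMap ℚ (acl ∅)).injective
  refine ⟨Matrix.of fun i j => y (Sum.inl (Sum.inl (i, j))), fun l i =>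
    if h : i ∈ S l ∧ i ≠ p l then y (Sum.inl (Sum.inr ⟨(l, i), h⟩)) else 0, fun i =>
    if h : i ∉ Set.range p then y (Sum.inr ⟨i, h⟩) else 0, ?_⟩
  convert hyQ using 1
  funext x
  rcases x with (x | ⟨⟨l, i⟩, h1, h2⟩) | ⟨i, hi⟩
  · rfl
  · change (if h : i ∈ S l ∧ i ≠ p l then y (Sum.inl (Sum.inr ⟨(l, i), h⟩)) else 0) = _
    rw [dif_pos ⟨h1, h2⟩]
  · change (if h : i ∉ Set.range p then y (Sum.inr ⟨i, h⟩) else 0) = _
    rw [dif_pos hi]

theorem gen1_of {u : Matrix I J ℂ} {v : π → I → ℂ} {w : I → ℂ}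
    (hg : AlgebraicIndependent ℚ (Sum.elim (dat0 p S u v)
      (fun i : {i : I // i ∉ Set.range p} => w i.1))) (T : Finset I)
    (hT : ∀ i ∈ T, i ∉ Set.range p) (i₀ : I) : Gen1 p S T i₀ u v w := by
  have h1 := hg.comp (Sum.map id (fun i : {i : I // i ∈ T ∧ i ≠ i₀} =>
    (⟨i.1, hT i.1 i.2.1⟩ : {i : I // i ∉ Set.range p})))
    (Sum.map_injective.mpr ⟨Function.injective_id, fun i j hij =>
      Subtype.ext (congrArg (fun z : {i : I // i ∉ Set.range p} => z.1) hij)⟩)
  rw [Gen1]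
  convert h1 using 1
  funext x
  rcases x with x | x <;> rfl

theorem sysQ0_ncard (u : Matrix I J ℂ) (v : π → I → ℂ) (w : I → ℂ)
    (h0 : {z | Sys r p S u v z}.Finite) (h1 : {z | SysQ 0 r p S T i₀ u v w z}.Finite) :
    {z | SysQ 0 r p S T i₀ u v w z}.ncard =
      ∑ z ∈ h0.toFinset, {y : (I → ℂ) × (I → ℂ) | Crt z.P T i₀ w y.1 y.2}.ncard := by
  classical
  rw [Set.ncard_eq_toFinset_card _ h1,
    Finset.card_eq_sum_card_fiberwise (f := fun z : Qnt ℂ π I J => z.toPnt)
      (t := h0.toFinset)]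
  · refine Finset.sum_congr rfl fun z hz => ?_
    have hz' : Sys r p S u v z := h0.mem_toFinset.mp hz
    have hinj : Function.Injective (fun y : (I → ℂ) × (I → ℂ) =>
        ({ toPnt := z, a := y.1, b := y.2 } : Qnt ℂ π I J)) := by
      intro y y' hy
      exact Prod.ext (congrArg Qnt.a hy) (congrArg Qnt.b hy)
    rw [← Set.ncard_image_of_injective _ hinj, ← Set.ncard_coe_finset]
    congr 1
    ext z'
    simp only [Finset.coe_filter, Set.Finite.mem_toFinset, Set.mem_image, Set.mem_ofPred_eq]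
    constructor
    · rintro ⟨h2, h3⟩
      obtain ⟨h4, h5⟩ := (sysQ0_iff u v w z').mp h2
      refine ⟨(z'.a, z'.b), ?_, ?_⟩
      · rw [← h3]
        exact h5
      · rw [← h3]
    · rintro ⟨y, hy, rfl⟩
      exact ⟨(sysQ0_iff u v w _).mpr ⟨hz', hy⟩, rfl⟩
  · intro z hz
    have h2 : SysQ 0 r p S T i₀ u v w z := h1.mem_toFinset.mp hz
    exact h0.mem_toFinset.mpr ((sysQ0_iff u v w z).mp h2).1

/-- THE STEP -/
theorem tb_step (hS : Adm p S) (hk : Fintype.card π < r) (hrI : r < Fintype.card I)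
    (hn : Fintype.card I ≤ Fintype.card J)
    (i₁ : Finset I → I) (hi₁ : ∀ A : Finset I, A.Nonempty → i₁ A ∈ A) :
    ∑ T ∈ (Finset.univ.filter (fun i : I => i ∉ Set.range p)).powerset.filter
      (fun T => T.Nonempty), (-1 : ℤ) ^ T.card * (N1 J r p S T (i₁ T) : ℤ) =
      (-1) ^ (1 + (Fintype.card I - r)) * ((r : ℤ) - Fintype.card π) * (N0 J r p S : ℤ) := by
  classical
  obtain ⟨u, v, w, hg⟩ := exists_gen (J := J) p S
  have hg0 : Gen0 p S u v := hg.comp Sum.inl Sum.inl_injective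
  have hfin := sys_finite hS hk.le hrI.le hn u v hg0 (r := r)
  rw [← N0_eq u v hg0, Set.ncard_eq_toFinset_card _ hfin]
  set U : Finset I := Finset.univ.filter (fun i : I => i ∉ Set.range p) with hU
  have hshape : ∀ T ⊆ U, T.Nonempty → Shape p S T (i₁ T) r J := by
    intro T hT hne
    exact ⟨hS, fun i hi => (Finset.mem_filter.mp (hT hi)).2, hi₁ T hne, hk, hrI, hn⟩
  have hgT : ∀ T ⊆ U, Gen1 p S T (i₁ T) u v w := fun T hT =>
    gen1_of hg T (fun i hi => (Finset.mem_filter.mp (hT hi)).2) (i₁ T)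
  refine tb8_rel U hfin.toFinset (fun T => (N1 J r p S T (i₁ T) : ℤ))
    (fun z T => ({y : (I → ℂ) × (I → ℂ) | Crt z.P T (i₁ T) w y.1 y.2}.ncard : ℤ))
    (fun A => if A.Nonempty ∧ ∃ i, i ∉ A ∧ i ∉ Set.range p then
      ({z | SysA r p S A (i₁ A) u v z}.ncard : ℤ) else 0) _ ?_ ?_ ?_
  · intro A hA hM
    rw [ne_eq, ite_eq_right_iff, not_forall] at hM
    obtain ⟨⟨h1, i, h2, h3⟩, -⟩ := hM
    refine ⟨h1, ?_⟩
    rintro rfl
    exact h2 (Finset.mem_filter.mpr ⟨Finset.mem_univ _, h3⟩)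
  · intro T hT hne
    have h1 := tb8 (hshape T hT hne) u v w (hgT T hT) i₁ hi₁
    have h2 := sysQ0_ncard u v w hfin
      (sysQ_finite (hshape T hT hne) u v w (hgT T hT) 0 (Or.inl rfl))
    rw [← N1_eq u v w (hgT T hT), h1, h2, Nat.cast_add, Nat.cast_sum, Nat.cast_sum]
    congr 1
    rw [Finset.sum_filter]
  · intro z hz
    exact tb9 hS hk hrI hn u v w hg i₁ hi₁ z (hfin.mem_toFinset.mp hz)

end Pool.EU.TB
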