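import Pool.Agent.EU.Lift

/-!
# Transfer of the solutions of a polynomial system along a homomorphism of fields

`F` is a subfield of `ℂ` and `φ : F → L` a homomorphism. A point of `L` at which a system over `F`
is non-degenerate has the same relations over `F` as a point of `ℂ`. If all the points of a set
`ZC` have their coordinates in `F` and all the points of the corresponding set `ZL` over `L` are
non-degenerate, then `φ` gives a bijection between `ZC` and `ZL`.
-/

set_option autoImplicit false
set_option linter.unusedSectionVars false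

namespace Pool.EU

open MvPolynomial Pool.ML

theorem aeval_hom {F A B X : Type*} [CommRing F] [CommRing A] [CommRing B] [Algebra F A]
    [Algebra F B] (f : A →+* B) (hf : ∀ a : F, f (algebraMap F A a) = algebraMap F B a)
    (x : X → A) (p : MvPolynomial X F) : aeval (fun i => f (x i)) p = f (aeval x p) := by
  induction p using MvPolynomial.induction_on with
  | C a => rw [algHom_C, algHom_C, hf]
  | add p q hp hq => rw [map_add, map_add, map_add, hp, hq]
  | mul_X p i hp => rw [map_mul, map_mul, map_mul, hp, aeval_X, aeval_X]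

/-- A non-degenerate zero over an extension has algebraic coordinates. -/
theorem isAlgebraic_of_nondeg {F L : Type} [Field F] [Field L] [CharZero F] [Algebra F L]
    {X E : Type} [Fintype X] (g : E → MvPolynomial X F) (x : X → L)
    (hx : ∀ e, aeval x (g e) = 0)
    (hJ : ∀ w : X → L, (∀ e, ∑ l, aeval x (pderiv l (g e)) * w l = 0) → w = 0) (i : X) :
    IsAlgebraic F (x i) := by
  classical
  by_contra hi
  obtain ⟨D, hD⟩ := exists_der (x i) hi
  have h1 := hJ (fun l => D (x l)) (fun e => by
    have h2 := der_aeval D x (g e)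
    rw [hx e, map_zero] at h2
    exact h2.symm)
  have h2 : D (x i) = 0 := congrFun h1 i
  rw [hD] at h2
  exact one_ne_zero h2

/-- A non-degenerate zero of a system over an extension of `F` has the same relations over `F` as
a point of `ℂ` which is algebraic over `F`. -/
theorem exists_lift_sys {F L : Type} [Field F] [Field L] [CharZero F] [Algebra F ℂ]
    (φ : F →+* L) {X E : Type} [Fintype X] (g : E → MvPolynomial X F) (x' : X → L)
    (hx : ∀ e, eval₂ φ x' (g e) = 0)
    (hJ : ∀ w : X → L, (∀ e, ∑ l, eval₂ φ x' (pderiv l (g e)) * w l = 0) → w = 0) :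
    ∃ x : X → ℂ, (∀ l, IsAlgebraic F (x l)) ∧
      ∀ p : MvPolynomial X F, aeval x p = 0 ↔ eval₂ φ x' p = 0 := by
  let : Algebra F L := φ.toAlgebra
  have hae : ∀ p : MvPolynomial X F, aeval x' p = eval₂ φ x' p := fun p => rfl
  let M := AlgebraicClosure L
  let A := algebraicClosure F ℂ
  have hcl : IsAlgClosure F A := algebraicClosure.isAlgClosure F ℂ
  have hac : IsAlgClosed A := hcl.isAlgClosed
  have halg : Algebra.IsAlgebraic F A := hcl.isAlgebraic
  let ψ : A →ₐ[F] M := IsAlgClosed.lift
  have hx1 : ∀ i, IsAlgebraic F (x' i) := isAlgebraic_of_nondeg g x' hx hJ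
  have hx2 : ∀ i, ∃ a : A, ψ a = algebraMap L M (x' i) := fun i =>
    exists_preimage ψ _ ((hx1 i).algebraMap)
  choose a ha using hx2
  refine ⟨fun i => (a i : ℂ), fun i => mem_algebraicClosure_iff.mp (a i).2, fun p => ?_⟩
  have h1 : aeval (fun i => (a i : ℂ)) p = ((aeval a p : A) : ℂ) :=
    aeval_hom (F := F) (algebraMap A ℂ) (fun q => rfl) a p
  have h2 : ψ (aeval a p) = algebraMap L M (aeval x' p) := by
    have h3 := aeval_hom (ψ : A →+* M) (fun q => ψ.commutes q) a p
    have h4 := aeval_hom (algebraMap L M)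
      (fun q : F => (IsScalarTower.algebraMap_apply F L M q).symm) x' p
    have h5 : (fun i => (ψ : A →+* M) (a i)) = fun i => algebraMap L M (x' i) :=
      funext fun i => ha i
    rw [h5, h4] at h3
    exact h3.symm
  rw [h1]
  constructor
  · intro h
    have h3 : aeval a p = 0 := by exact_mod_cast h
    rw [h3, map_zero] at h2
    have h4 : aeval x' p = 0 := (algebraMap L M).injective (by rw [← h2, map_zero])
    rw [← hae]
    exact h4
  · intro h
    rw [← hae] at h
    rw [h, map_zero] at h2
    have h4 : aeval a p = 0 := by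
      apply ψ.toRingHom.injective
      rw [map_zero]
      exact h2
    rw [h4]
    rfl

/-- A point of `ℂ` with coordinates in `F` and its image have the same relations. -/
theorem same_relations {F L : Type} [Field F] [Field L] [Algebra F ℂ] (φ : F →+* L) {X : Type}
    (y : X → F) (p : MvPolynomial X F) :
    aeval (fun l => algebraMap F ℂ (y l)) p = 0 ↔ eval₂ φ (fun l => φ (y l)) p = 0 := by
  have h1 : aeval (fun l => algebraMap F ℂ (y l)) p = algebraMap F ℂ (eval y p) :=
    aeval_hom (algebraMap F ℂ) (fun q => rfl) y p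
  have h2 : eval₂ φ (fun l => φ (y l)) p = φ (eval y p) := by
    have h3 := eval₂_comp_left φ (RingHom.id F) y p
    rw [RingHom.comp_id] at h3
    exact h3.symm
  rw [h1, h2]
  exact (map_eq_zero (algebraMap F ℂ)).trans (map_eq_zero φ).symm

/-- Transfer of a finite set of non-degenerate solutions. -/
theorem transfer {F L : Type} [Field F] [Field L] [CharZero F] [Algebra F ℂ] (φ : F →+* L)
    {X : Type} [Fintype X] (ZC : Set (X → ℂ)) (ZL : Set (X → L))
    (hF : ∀ x ∈ ZC, ∀ l, ∃ y : F, algebraMap F ℂ y = x l)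
    (hZ : ∀ (x : X → ℂ) (x' : X → L),
      (∀ p : MvPolynomial X F, aeval x p = 0 ↔ eval₂ φ x' p = 0) → (x ∈ ZC ↔ x' ∈ ZL))
    (hJ : ∀ x' ∈ ZL, ∃ (E : Type) (g : E → MvPolynomial X F), (∀ e, eval₂ φ x' (g e) = 0) ∧
      ∀ w : X → L, (∀ e, ∑ l, eval₂ φ x' (pderiv l (g e)) * w l = 0) → w = 0) :
    ∃ e : ZC ≃ ZL, ∀ x : ZC, ∃ y : X → F, (∀ l, algebraMap F ℂ (y l) = x.1 l) ∧
      ∀ l, φ (y l) = (e x).1 l := by
  classical
  choose y hy using hF
  have hmem : ∀ x (hx : x ∈ ZC), (fun l => φ (y x hx l)) ∈ ZL := by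
    intro x hx
    rw [← hZ (fun l => algebraMap F ℂ (y x hx l)) _ (same_relations φ (y x hx))]
    have h1 : (fun l => algebraMap F ℂ (y x hx l)) = x := funext fun l => hy x hx l
    rw [h1]
    exact hx
  let f : ZC → ZL := fun x => ⟨fun l => φ (y x.1 x.2 l), hmem x.1 x.2⟩
  have hinj : Function.Injective f := by
    intro x x' h
    apply Subtype.ext
    funext l
    have h1 := congrFun (congrArg Subtype.val h) l
    have h2 : φ (y x.1 x.2 l) = φ (y x'.1 x'.2 l) := h1
    rw [← hy x.1 x.2 l, ← hy x'.1 x'.2 l, φ.injective h2]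
  have hsurj : Function.Surjective f := by
    rintro ⟨x', hx'⟩
    obtain ⟨E, g, hg, hnd⟩ := hJ x' hx'
    obtain ⟨x, _, hrel⟩ := exists_lift_sys φ g x' hg hnd
    have hx : x ∈ ZC := (hZ x x' hrel).mpr hx'
    refine ⟨⟨x, hx⟩, ?_⟩
    apply Subtype.ext
    funext l
    change φ (y x hx l) = x' l
    have h1 := (hrel (MvPolynomial.X l - C (y x hx l))).mp (by
      rw [map_sub, aeval_X, algHom_C, hy x hx l, sub_self])
    rw [eval₂_sub, eval₂_X, eval₂_C, sub_eq_zero] at h1
    exact h1.symm
  refine ⟨Equiv.ofBijective f ⟨hinj, hsurj⟩, fun x => ⟨y x.1 x.2, hy x.1 x.2, fun l => rfl⟩⟩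

end Pool.EU
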